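import Mathlib

/-!
Basic definitions for the recognition problem of Levi graphs of geometric 3-configurations.

Points and lines of the projective plane are both represented by nonzero vectors of `ℝ³`;
a point and a line are incident when their dot product vanishes.
-/

namespace Pool.Agent.Levi3

open Matrix

/-- Vectors of `ℝ³`. -/
abbrev E3 : Type := Fin 3 → ℝ

/-- A bipartite graph (incidence structure) on a vertex type, with the bipartition `typ`. -/
structure Inc (V : Type) where
  typ : V → Bool
  adj : V → V → Prop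
  symm : ∀ {u v}, adj u v → adj v u
  bip : ∀ {u v}, adj u v → typ u ≠ typ v

variable {V : Type}

theorem Inc.irr (G : Inc V) (v : V) : ¬ G.adj v v := fun h => G.bip h rfl

theorem Inc.comm (G : Inc V) {u v : V} : G.adj u v ↔ G.adj v u := ⟨G.symm, G.symm⟩

open Classical in
/-- Neighbours of `v` in the vertex set `S`. -/
noncomputable def nb (G : Inc V) (S : Finset V) (v : V) : Finset V :=
  S.filter (fun u => G.adj v u)

@[simp] theorem mem_nb {G : Inc V} {S : Finset V} {v u : V} :
    u ∈ nb G S v ↔ u ∈ S ∧ G.adj v u := by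
  simp [nb]

/-- Degree of `v` in the vertex set `S`. -/
noncomputable def deg (G : Inc V) (S : Finset V) (v : V) : ℕ := (nb G S v).card

/-- No 4-cycle inside `S`. -/
def C4F (G : Inc V) (S : Finset V) : Prop :=
  ∀ a ∈ S, ∀ b ∈ S, ∀ c ∈ S, ∀ d ∈ S,
    G.adj a b → G.adj b c → G.adj c d → G.adj d a → a = c ∨ b = d

/-- `z` is a placement of the substructure on `S`: nonzero vectors, all incidences hold. -/
structure IsPl (G : Inc V) (S : Finset V) (z : V → E3) : Prop where
  nz : ∀ v ∈ S, z v ≠ 0
  inc : ∀ u ∈ S, ∀ v ∈ S, G.adj u v → z u ⬝ᵥ z v = 0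

/-- Elements of the same kind are placed at distinct projective points. -/
def Dis (G : Inc V) (S : Finset V) (z : V → E3) : Prop :=
  ∀ u ∈ S, ∀ v ∈ S, G.typ u = G.typ v → u ≠ v → z u ⨯₃ z v ≠ 0

/-- No incidences besides the edges, except possibly for the pairs in `X`. -/
def NInc (G : Inc V) (S : Finset V) (X : V → V → Prop) (z : V → E3) : Prop :=
  ∀ u ∈ S, ∀ v ∈ S, G.typ u ≠ G.typ v → ¬ G.adj u v → ¬ X u v → z u ⬝ᵥ z v ≠ 0

/-- `z` is a nondegenerate placement on `S`, modulo the pairs in `X`. -/
structure NDm (G : Inc V) (S : Finset V) (X : V → V → Prop) (z : V → E3) : Prop where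
  pl : IsPl G S z
  dis : Dis G S z
  ninc : NInc G S X z

/-- The substructure on `S` has a nondegenerate placement. -/
def ND (G : Inc V) (S : Finset V) : Prop := ∃ z, NDm G S (fun _ _ => False) z

/-- Critical vertex sets: not nondegenerately placeable, but all proper subsets are. -/
def Crit (G : Inc V) (S : Finset V) : Prop := ¬ ND G S ∧ ∀ T, T ⊂ S → ND G T

/-- `D(Y) = Σ (3 - deg)`, as an integer. -/
noncomputable def DD (G : Inc V) (Y : Finset V) : ℤ := ∑ v ∈ Y, (3 - (deg G Y v : ℤ))

open Classical in
/-- Number of edges leaving `X`. -/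
noncomputable def bd [Fintype V] (G : Inc V) (X : Finset V) : ℕ :=
  ∑ v ∈ X, (nb G (Finset.univ \ X) v).card

theorem IsPl.mono {G : Inc V} {S T : Finset V} {z : V → E3} (h : IsPl G S z) (hT : T ⊆ S) :
    IsPl G T z :=
  ⟨fun v hv => h.nz v (hT hv), fun u hu v hv => h.inc u (hT hu) v (hT hv)⟩

theorem Dis.mono {G : Inc V} {S T : Finset V} {z : V → E3} (h : Dis G S z) (hT : T ⊆ S) :
    Dis G T z := fun u hu v hv => h u (hT hu) v (hT hv)

theorem NInc.mono {G : Inc V} {S T : Finset V} {X : V → V → Prop} {z : V → E3}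
    (h : NInc G S X z) (hT : T ⊆ S) : NInc G T X z :=
  fun u hu v hv => h u (hT hu) v (hT hv)

theorem NDm.mono {G : Inc V} {S T : Finset V} {X : V → V → Prop} {z : V → E3}
    (h : NDm G S X z) (hT : T ⊆ S) : NDm G T X z :=
  ⟨h.pl.mono hT, h.dis.mono hT, h.ninc.mono hT⟩

theorem ND.mono {G : Inc V} {S T : Finset V} (h : ND G S) (hT : T ⊆ S) : ND G T := by
  obtain ⟨z, hz⟩ := h
  exact ⟨z, hz.mono hT⟩

theorem C4F.mono {G : Inc V} {S T : Finset V} (h : C4F G S) (hT : T ⊆ S) : C4F G T :=
  fun a ha b hb c hc d hd => h a (hT ha) b (hT hb) c (hT hc) d (hT hd)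

theorem nb_mono {G : Inc V} {S T : Finset V} (hT : T ⊆ S) (v : V) : nb G T v ⊆ nb G S v := by
  intro u hu
  rw [mem_nb] at hu ⊢
  exact ⟨hT hu.1, hu.2⟩

theorem deg_mono {G : Inc V} {S T : Finset V} (hT : T ⊆ S) (v : V) : deg G T v ≤ deg G S v :=
  Finset.card_le_card (nb_mono hT v)

/-! Elementary facts on vectors of `ℝ³`. -/

theorem exists_smul_of_cross_eq_zero {u v : E3} (hu : u ≠ 0) (h : u ⨯₃ v = 0) :
    ∃ c : ℝ, v = c • u := by
  have h0 := congrFun h 0
  have h1 := congrFun h 1
  have h2 := congrFun h 2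
  simp [cross_apply] at h0 h1 h2
  by_cases a0 : u 0 = 0
  · by_cases a1 : u 1 = 0
    · have a2 : u 2 ≠ 0 := by
        intro a2
        apply hu
        funext i
        fin_cases i <;> simp [a0, a1, a2]
      refine ⟨v 2 / u 2, ?_⟩
      funext i
      fin_cases i
      · simp
        rw [a0] at h1 ⊢
        simp at h1
        rcases h1 with h1 | h1
        · exact absurd h1 a2
        · simp [h1]
      · simp
        rw [a1] at h0 ⊢
        simp at h0
        rcases h0 with h0 | h0
        · exact absurd h0 a2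
        · simp [h0]
      · simp
        field_simp
    · refine ⟨v 1 / u 1, ?_⟩
      funext i
      fin_cases i
      · simp
        field_simp
        linarith
      · simp
        field_simp
      · simp
        field_simp
        linarith
  · refine ⟨v 0 / u 0, ?_⟩
    funext i
    fin_cases i
    · simp
      field_simp
    · simp
      field_simp
      linarith
    · simp
      field_simp
      linarith

end Pool.Agent.Levi3
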