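import Pool.Agent.Levi3.Basic

/-!
Combinatorial definitions: orders, folds, breaks.
-/

namespace Pool.Agent.Levi3

open Matrix

variable {V : Type}

/-- `Good G Z S`: the set `S` can be built up vertex by vertex so that every new vertex has at
most two earlier neighbours, which are placed at distinct projective points by every `z ∈ Z`. -/
inductive Good [DecidableEq V] (G : Inc V) (Z : Set (V → E3)) : Finset V → Prop
  | nil : Good G Z ∅
  | cons {S : Finset V} {v : V} : v ∉ S → Good G Z S → (nb G S v).card ≤ 2 →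
      (∀ z ∈ Z, ∀ u ∈ nb G S v, ∀ w ∈ nb G S v, u ≠ w → z u ⨯₃ z w ≠ 0) →
      Good G Z (insert v S)

/-- A bad pair of `S`: all vertices other than `p`, `q` have degree at least 3 and
`p`, `q` have degree at least 2. -/
def Bad (G : Inc V) (S : Finset V) (p q : V) : Prop :=
  (∀ v ∈ S, v ≠ p → v ≠ q → 3 ≤ deg G S v) ∧ 2 ≤ deg G S p ∧ 2 ≤ deg G S q

/-- `Near K n x y`: there is a walk of length at most `n` from `x` to `y`. -/
def Near (K : Inc V) : ℕ → V → V → Prop
  | 0, x, y => x = y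
  | n + 1, x, y => Near K n x y ∨ ∃ w, Near K n x w ∧ K.adj w y

/-- Delete the edge `a c`. -/
def delEdge (K : Inc V) (a c : V) : Inc V where
  typ := K.typ
  adj u v := K.adj u v ∧ ¬ (u = a ∧ v = c) ∧ ¬ (u = c ∧ v = a)
  symm := fun ⟨h, h1, h2⟩ => ⟨K.symm h, fun ⟨h3, h4⟩ => h2 ⟨h4, h3⟩, fun ⟨h3, h4⟩ => h1 ⟨h4, h3⟩⟩
  bip := fun ⟨h, _, _⟩ => K.bip h

/-- Quotient of `G` by a retraction `π` (vertices which are not fixed by `π` become isolated). -/
def quot (G : Inc V) (π : V → V) : Inc V where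
  typ := G.typ
  adj x y := G.typ x ≠ G.typ y ∧ π x = x ∧ π y = y ∧ ∃ x' y', π x' = x ∧ π y' = y ∧ G.adj x' y'
  symm := fun ⟨h, h1, h2, x', y', h3, h4, h5⟩ => ⟨h.symm, h2, h1, y', x', h4, h3, G.symm h5⟩
  bip := fun ⟨h, _⟩ => h

/-- Data of a fold: either a 2-path `A - W - B` (with `C` the third neighbour of `W`), or a
hexagon `v 0, …, v 5` with outer neighbours `a 0, …, a 5`. -/
inductive Fold (V : Type) : Type
  | r0 (A B W C : V)
  | r1 (v a : Fin 6 → V)

/-- The 2-path `A - W - B` lies in no hexagon, and `A`, `B`, `C` are the neighbours of `W`. -/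
structure LocR0 (G : Inc V) (A B W C : V) : Prop where
  hAB : A ≠ B
  hAC : A ≠ C
  hBC : B ≠ C
  adjA : G.adj W A
  adjB : G.adj W B
  adjC : G.adj W C
  only : ∀ x, G.adj W x → x = A ∨ x = B ∨ x = C
  nohex : ∀ x u y, G.adj A x → G.adj x u → G.adj u y → G.adj y B →
    x = W ∨ y = W ∨ u = A ∨ u = B

/-- `v 0, …, v 5` is a hexagon with outer neighbours `a 0, …, a 5`, which can be folded by
identifying `v 1` with `v 5` and `v 2` with `v 4` without creating 4-cycles. -/
structure LocR1 (G : Inc V) (v a : Fin 6 → V) : Prop where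
  inj : Function.Injective v
  hv : ∀ i, G.adj (v i) (v (i + 1))
  ha : ∀ i, G.adj (v i) (a i)
  ne1 : ∀ i, a i ≠ v (i + 1)
  ne2 : ∀ i, a i ≠ v (i - 1)
  only : ∀ i x, G.adj (v i) x → x = v (i + 1) ∨ x = v (i - 1) ∨ x = a i
  cn1 : ∀ u, ¬ (G.adj (a 1) u ∧ G.adj (a 5) u)
  cn2 : ∀ u, ¬ (G.adj (a 2) u ∧ G.adj (a 4) u)
  ch1 : ¬ G.adj (a 1) (a 4)
  ch2 : ¬ G.adj (a 2) (a 5)

namespace Fold

/-- The local conditions for a fold in `G`. -/
def Loc (G : Inc V) : Fold V → Prop
  | r0 A B W C => LocR0 G A B W C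
  | r1 v a => LocR1 G v a

open Classical in
/-- The retraction of a fold. -/
noncomputable def π : Fold V → V → V
  | r0 A B _ _, x => if x = B then A else x
  | r1 v _, x => if x = v 5 then v 1 else if x = v 4 then v 2 else x

/-- The region of a fold. -/
def U [DecidableEq V] : Fold V → Finset V
  | r0 A B W _ => {A, B, W}
  | r1 v _ => Finset.univ.image v

/-- The blocked vertices: those with two identified neighbours. -/
def Bl [DecidableEq V] : Fold V → Finset V
  | r0 _ _ W _ => {W}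
  | r1 v _ => {v 0, v 3}

/-- The first blocked vertex. -/
def ctr : Fold V → V
  | r0 _ _ W _ => W
  | r1 v _ => v 0

/-- The outer neighbour of the first blocked vertex. -/
def out : Fold V → V
  | r0 _ _ _ C => C
  | r1 _ a => a 0

/-- The weak pair. -/
def Wk [DecidableEq V] (f : Fold V) : Finset V := {f.ctr, f.out}

end Fold

/-- A break of a cubic graph: a deleted edge or a fold. -/
inductive Brk (V : Type) : Type
  | ac (a c : V)
  | fd (f : Fold V)

namespace Brk

/-- admissibility of a break -/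
def Ok (K : Inc V) : Brk V → Prop
  | ac a c => K.adj a c
  | fd f => f.Loc K

/-- the broken structure -/
noncomputable def G (K : Inc V) : Brk V → Inc V
  | ac a c => delEdge K a c
  | fd f => quot K f.π

/-- the retraction -/
noncomputable def π : Brk V → V → V
  | ac _ _ => id
  | fd f => f.π

open Classical in
/-- the vertex set of the broken structure -/
noncomputable def S [Fintype V] (b : Brk V) : Finset V := Finset.univ.filter fun x => b.π x = x

/-- the region of a break -/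
def U [DecidableEq V] : Brk V → Finset V
  | ac _ _ => ∅
  | fd f => f.U

/-- blocked vertices -/
def Bl [DecidableEq V] : Brk V → Finset V
  | ac _ _ => ∅
  | fd f => f.Bl

/-- centre of a break -/
def ctr : Brk V → V
  | ac a _ => a
  | fd f => f.ctr

/-- second vertex of the weak pair -/
def out : Brk V → V
  | ac _ c => c
  | fd f => f.out

/-- the weak pair -/
def Wk [DecidableEq V] (b : Brk V) : Finset V := {b.ctr, b.out}

/-- cost of a break -/
def κ : Brk V → ℕ
  | ac _ _ => 0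
  | fd _ => 2

end Brk

/-- Harmful pairs for two weak pairs. -/
def XX [DecidableEq V] (W1 W2 : Finset V) (p q : V) : Prop :=
  (p ∈ W1 ∧ q ∈ W2) ∨ (q ∈ W1 ∧ p ∈ W2)

/-- `K` is a cubic graph without 4-cycles which is cyclically 5-edge-connected. -/
structure C5 [Fintype V] [DecidableEq V] (K : Inc V) : Prop where
  cubic : ∀ v, deg K Finset.univ v = 3
  c4f : C4F K Finset.univ
  c2 : ∀ X : Finset V, bd K X ≤ 2 → X = ∅ ∨ X = Finset.univ
  c3 : ∀ X : Finset V, bd K X = 3 → X.card ≤ 1 ∨ Xᶜ.card ≤ 1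
  c4 : ∀ X : Finset V, bd K X = 4 → X.card ≤ 2 ∨ Xᶜ.card ≤ 2

/-- `K` is obtained from `H` by adding at most one edge, and is cubic without 4-cycles. -/
structure IsClosure [Fintype V] (H K : Inc V) : Prop where
  typ : K.typ = H.typ
  cubic : ∀ v, deg K Finset.univ v = 3
  c4f : C4F K Finset.univ
  rel : (∀ u v, H.adj u v ↔ K.adj u v) ∨
    ∃ p q, K.adj p q ∧ ∀ u v, H.adj u v ↔ (delEdge K p q).adj u v

/-- Parallel vectors. -/
def Par (u v : E3) : Prop := u ⨯₃ v = 0

/-- The incidence conditions and general position for a (2,2)-gluing `g`, with inverse `h`. -/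
structure GG (a1 a2 b1 b2 c1 c2 d1 d2 : E3) (g h : Matrix (Fin 3) (Fin 3) ℝ) : Prop where
  gh : g * h = 1
  hg : h * g = 1
  ab1 : (g *ᵥ a1) ⬝ᵥ b1 = 0
  ab2 : (g *ᵥ a2) ⬝ᵥ b2 = 0
  dc1 : (h *ᵥ d1) ⬝ᵥ c1 = 0
  dc2 : (h *ᵥ d2) ⬝ᵥ c2 = 0
  g1 : (h *ᵥ d1) ⬝ᵥ (a1 ⨯₃ a2) ≠ 0
  g2 : (h *ᵥ d2) ⬝ᵥ (a1 ⨯₃ a2) ≠ 0
  g3 : a1 ⬝ᵥ ((h *ᵥ d1) ⨯₃ (h *ᵥ d2)) ≠ 0
  g4 : a2 ⬝ᵥ ((h *ᵥ d1) ⨯₃ (h *ᵥ d2)) ≠ 0

namespace Fold

/-- Ambient hypotheses for a fold in a structure `G` with vertex set `S`. -/
structure Amb (G : Inc V) (S : Finset V) (f : Fold V) : Prop where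
  loc : f.Loc G
  mem : ∀ x y, G.adj x y → x ∈ S ∧ y ∈ S
  c4f : C4F G S

open Classical in
/-- Vertex set of the folded structure. -/
noncomputable def S' (f : Fold V) (S : Finset V) : Finset V := S.filter fun x => f.π x = x

/-- One vertex of the separated pair of a fold. -/
def mA : Fold V → V
  | r0 A _ _ _ => A
  | r1 v _ => v 1

/-- The other vertex of the separated pair of a fold. -/
def mB : Fold V → V
  | r0 _ B _ _ => B
  | r1 v _ => v 5

end Fold

/-- Hypothesis: critical vertex sets of maximum degree three which are not cubic are small. -/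
def HB (V : Type) (N : ℕ) : Prop :=
  ∀ (G : Inc V) (Y : Finset V), Crit G Y → C4F G Y → (∀ v ∈ Y, deg G Y v ≤ 3) →
    (∃ v ∈ Y, deg G Y v ≠ 3) → Y.card ≤ N

/-- The incidence structure of a matrix: points `inl i`, lines `inr j`. -/
def ofMatrix {n : ℕ} (M : Fin n → Fin n → Bool) : Inc (Fin n ⊕ Fin n) where
  typ := Sum.isLeft
  adj := fun x y => match x, y with
    | .inl i, .inr j => M i j = true
    | .inr j, .inl i => M i j = true
    | _, _ => False
  symm := by rintro (i|i) (j|j) h <;> simp at h ⊢ <;> exact h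
  bip := by rintro (i|i) (j|j) h <;> simp_all

end Pool.Agent.Levi3
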