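import Pool.Agent.Levi3.Defs

/-! LV01 : Poly -/

namespace Pool.Agent.Levi3

open Matrix Finset

/-- A function which is polynomial along every line. -/
def PolyL {E : Type} [AddCommGroup E] [Module ℝ E] (f : E → ℝ) : Prop :=
  ∀ u v : E, ∃ P : Polynomial ℝ, ∀ t : ℝ, f (u + t • (v - u)) = P.eval t

/-- A vector valued function which is polynomial along every line. -/
def PolyV {E : Type} [AddCommGroup E] [Module ℝ E] (f : E → E3) : Prop :=
  ∀ k, PolyL (fun x => f x k)

variable {E : Type} [AddCommGroup E] [Module ℝ E]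

theorem PolyL.const (c : ℝ) : PolyL (fun _ : E => c) := by
  intro u v
  exact ⟨Polynomial.C c, fun t => by simp⟩

theorem PolyL.lin (f : E →ₗ[ℝ] ℝ) : PolyL (fun x : E => f x) := by
  intro u v
  refine ⟨Polynomial.C (f u) + Polynomial.X * Polynomial.C (f v - f u), fun t => ?_⟩
  simp

theorem PolyL.add {f g : E → ℝ} (hf : PolyL f) (hg : PolyL g) :
    PolyL (fun x => f x + g x) := by
  intro u v
  obtain ⟨P, hP⟩ := hf u v
  obtain ⟨Q, hQ⟩ := hg u v
  exact ⟨P + Q, fun t => by simp [hP t, hQ t]⟩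

theorem PolyL.sub {f g : E → ℝ} (hf : PolyL f) (hg : PolyL g) :
    PolyL (fun x => f x - g x) := by
  intro u v
  obtain ⟨P, hP⟩ := hf u v
  obtain ⟨Q, hQ⟩ := hg u v
  exact ⟨P - Q, fun t => by simp [hP t, hQ t]⟩

theorem PolyL.mul {f g : E → ℝ} (hf : PolyL f) (hg : PolyL g) :
    PolyL (fun x => f x * g x) := by
  intro u v
  obtain ⟨P, hP⟩ := hf u v
  obtain ⟨Q, hQ⟩ := hg u v
  exact ⟨P * Q, fun t => by simp [hP t, hQ t]⟩

theorem PolyV.const (c : E3) : PolyV (fun _ : E => c) := fun k => PolyL.const (c k)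

theorem PolyV.lin (f : E →ₗ[ℝ] E3) : PolyV (fun x : E => f x) :=
  fun k => PolyL.lin ((LinearMap.proj k).comp f)

theorem PolyV.add {f g : E → E3} (hf : PolyV f) (hg : PolyV g) :
    PolyV (fun x => f x + g x) := fun k => (hf k).add (hg k)

theorem PolyV.smul {f : E → ℝ} {g : E → E3} (hf : PolyL f) (hg : PolyV g) :
    PolyV (fun x => f x • g x) := fun k => hf.mul (hg k)

theorem PolyV.cross {f g : E → E3} (hf : PolyV f) (hg : PolyV g) :
    PolyV (fun x => f x ⨯₃ g x) := by
  intro k
  fin_cases k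
  · have := ((hf 1).mul (hg 2)).sub ((hf 2).mul (hg 1))
    simpa [cross_apply] using this
  · have := ((hf 2).mul (hg 0)).sub ((hf 0).mul (hg 2))
    simpa [cross_apply] using this
  · have := ((hf 0).mul (hg 1)).sub ((hf 1).mul (hg 0))
    simpa [cross_apply] using this

theorem PolyV.dot {f g : E → E3} (hf : PolyV f) (hg : PolyV g) :
    PolyL (fun x => f x ⬝ᵥ g x) := by
  have := (((hf 0).mul (hg 0)).add ((hf 1).mul (hg 1))).add ((hf 2).mul (hg 2))
  simpa [dotProduct, Fin.sum_univ_three] using this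

/-- Finitely many such functions, none of them identically zero, have a common nonzero. -/
theorem exists_common {ι : Type} (s : Finset ι)
    (f : ι → E → ℝ) (hp : ∀ i ∈ s, PolyL (f i)) (hn : ∀ i ∈ s, ∃ x, f i x ≠ 0) :
    ∃ x, ∀ i ∈ s, f i x ≠ 0 := by
  classical
  induction s using Finset.induction_on with
  | empty => exact ⟨0, by simp⟩
  | insert a s ha ih =>
    obtain ⟨x0, hx0⟩ := ih (fun i hi => hp i (mem_insert_of_mem hi))
      (fun i hi => hn i (mem_insert_of_mem hi))
    obtain ⟨x1, hx1⟩ := hn a (mem_insert_self a s)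
    have hP : ∀ i, ∃ P : Polynomial ℝ, i ∈ insert a s →
        ∀ t : ℝ, f i (x0 + t • (x1 - x0)) = P.eval t := by
      intro i
      by_cases hi : i ∈ insert a s
      · obtain ⟨P, hP⟩ := hp i hi x0 x1
        exact ⟨P, fun _ => hP⟩
      · exact ⟨0, fun h => absurd h hi⟩
    choose P hP using hP
    have hne : (∏ i ∈ insert a s, P i) ≠ 0 := by
      rw [Finset.prod_ne_zero_iff]
      intro i hi h0
      rw [mem_insert] at hi
      rcases hi with rfl | hi
      · have := hP i (mem_insert_self i s) 1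
        rw [h0] at this
        simp at this
        exact hx1 this
      · have := hP i (mem_insert_of_mem hi) 0
        rw [h0] at this
        simp at this
        exact hx0 i hi this
    obtain ⟨t, ht⟩ := Polynomial.exists_eval_ne_zero_of_natDegree_lt_card
      (∏ i ∈ insert a s, P i) hne (by
        rw [Cardinal.mk_real]
        exact (Cardinal.natCast_lt_aleph0).trans_le Cardinal.aleph0_le_continuum)
    refine ⟨x0 + t • (x1 - x0), fun i hi => ?_⟩
    rw [hP i hi t]
    rw [Polynomial.eval_prod, Finset.prod_ne_zero_iff] at ht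
    exact ht i hi

theorem exists_generic (A : Finset E3) (hA : ∀ a ∈ A, a ≠ 0) :
    ∃ v : E3, v ≠ 0 ∧ ∀ a ∈ A, v ⬝ᵥ a ≠ 0 ∧ v ⨯₃ a ≠ 0 := by
  classical
  have hid : PolyV (fun x : E3 => x) := PolyV.lin LinearMap.id
  have hcr : ∀ a : E3, a ≠ 0 → ∃ k : Fin 3, ∃ v : E3, (v ⨯₃ a) k ≠ 0 := by
    intro a ha
    by_contra hcon
    push Not at hcon
    apply ha
    have h0 := hcon 0 ![0, 1, 0]
    have h1 := hcon 0 ![0, 0, 1]
    have h2 := hcon 1 ![0, 0, 1]
    simp [cross_apply] at h0 h1 h2
    funext i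
    fin_cases i
    · simpa using h2
    · simpa using h1
    · simpa using h0
  have hk : ∀ a : E3, ∃ k : Fin 3, a ≠ 0 → ∃ v : E3, (v ⨯₃ a) k ≠ 0 := by
    intro a
    by_cases ha : a = 0
    · exact ⟨0, fun h => absurd ha h⟩
    · obtain ⟨k, hk⟩ := hcr a ha
      exact ⟨k, fun _ => hk⟩
  choose k hk using hk
  have hdot : ∀ a : E3, a ≠ 0 → a ⬝ᵥ a ≠ 0 := fun a ha h => ha (dotProduct_self_eq_zero.1 h)
  obtain ⟨v, hv⟩ := exists_common (E := E3) (insert (none, true) ((A.image some) ×ˢ univ))
    (fun (i : Option E3 × Bool) (v : E3) => match i with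
      | (none, _) => v 0
      | (some a, true) => v ⬝ᵥ a
      | (some a, false) => (v ⨯₃ a) (k a)) (by
        rintro ⟨_ | a, _ | _⟩ _
        · exact hid 0
        · exact hid 0
        · exact (hid.cross (PolyV.const a)) (k a)
        · exact hid.dot (PolyV.const a)) (by
        rintro ⟨_ | a, _ | _⟩ hi
        · exact ⟨1, by simp⟩
        · exact ⟨1, by simp⟩
        · have ha : a ∈ A := by simpa using hi
          exact hk a (hA a ha)
        · have ha : a ∈ A := by simpa using hi
          exact ⟨a, hdot a (hA a ha)⟩)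
  refine ⟨v, ?_, fun a ha => ⟨?_, ?_⟩⟩
  · have := hv (none, true) (by simp)
    intro h0
    apply this
    simp [h0]
  · exact hv (some a, true) (by simp [ha])
  · have := hv (some a, false) (by simp [ha])
    intro h0
    apply this
    simp [h0]

end Pool.Agent.Levi3
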