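import Pool.Agent.Levi3.Defs

/-! LV02 : Combine -/

namespace Pool.Agent.Levi3

open Matrix Finset

variable {V : Type} [DecidableEq V]

/-- evaluation of a vector of polynomials -/
noncomputable def lv02_ev (t : ℝ) (g : Fin 3 → Polynomial ℝ) : E3 := fun k => (g k).eval t

theorem lv02_ev_cross (t : ℝ) (a b : Fin 3 → Polynomial ℝ) :
    lv02_ev t (a ⨯₃ b) = lv02_ev t a ⨯₃ lv02_ev t b := by
  funext k
  fin_cases k <;> simp [lv02_ev, cross_apply]

theorem lv02_ev_dot (t : ℝ) (a b : Fin 3 → Polynomial ℝ) :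
    (a ⬝ᵥ b).eval t = lv02_ev t a ⬝ᵥ lv02_ev t b := by
  simp [lv02_ev, dotProduct, Fin.sum_univ_three]

/-- linear interpolation of two vectors -/
noncomputable def lv02_ip (a b : E3) : Fin 3 → Polynomial ℝ :=
  fun k => (1 - Polynomial.X) * Polynomial.C (a k) + Polynomial.X * Polynomial.C (b k)

theorem lv02_ip0 (a b : E3) : lv02_ev 0 (lv02_ip a b) = a := by
  funext k
  simp [lv02_ev, lv02_ip]

theorem lv02_ip1 (a b : E3) : lv02_ev 1 (lv02_ip a b) = b := by
  funext k
  simp [lv02_ev, lv02_ip]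

theorem lv02_dot_cross_self_left {R : Type} [CommRing R] (a b : Fin 3 → R) :
    (a ⨯₃ b) ⬝ᵥ a = 0 := by
  simp [cross_apply, dotProduct, Fin.sum_univ_three]
  ring

theorem lv02_dot_cross_self_right {R : Type} [CommRing R] (a b : Fin 3 → R) :
    (a ⨯₃ b) ⬝ᵥ b = 0 := by
  simp [cross_apply, dotProduct, Fin.sum_univ_three]
  ring

/-- a vector orthogonal to `a` and `b` is a nonzero multiple of `a × b` -/
theorem lv02_par {a b x : E3} (hab : a ⨯₃ b ≠ 0) (hx : x ≠ 0) (ha : x ⬝ᵥ a = 0)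
    (hb : x ⬝ᵥ b = 0) : ∃ c : ℝ, c ≠ 0 ∧ a ⨯₃ b = c • x := by
  have h : x ⨯₃ (a ⨯₃ b) = 0 := by
    simp only [dotProduct, Fin.sum_univ_three] at ha hb
    funext k
    fin_cases k
    · simp [cross_apply]
      linear_combination a 0 * hb - b 0 * ha
    · simp [cross_apply]
      linear_combination a 1 * hb - b 1 * ha
    · simp [cross_apply]
      linear_combination a 2 * hb - b 2 * ha
  obtain ⟨c, hc⟩ := exists_smul_of_cross_eq_zero hx h
  refine ⟨c, ?_, hc⟩
  rintro rfl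
  rw [zero_smul] at hc
  exact hab hc

theorem lv02_self_dot_pos {g : E3} (hg : g ≠ 0) : g ⬝ᵥ g ≠ 0 := by
  intro h
  apply hg
  exact dotProduct_self_eq_zero.1 h

/-- solving `g × w = x` -/
theorem lv02_solve {g x : E3} (hg : g ≠ 0) (hx : g ⬝ᵥ x = 0) :
    g ⨯₃ ((g ⬝ᵥ g)⁻¹ • (x ⨯₃ g)) = x := by
  have h := lv02_self_dot_pos hg
  rw [LinearMap.map_smul]
  have h2 : g ⨯₃ (x ⨯₃ g) = (g ⬝ᵥ g) • x := by
    simp only [dotProduct, Fin.sum_univ_three] at hx ⊢
    funext k
    fin_cases k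
    · simp [cross_apply]
      linear_combination (- g 0) * hx
    · simp [cross_apply]
      linear_combination (- g 1) * hx
    · simp [cross_apply]
      linear_combination (- g 2) * hx
  rw [h2, smul_smul, inv_mul_cancel₀ h, one_smul]

/-- the curve through two placements -/
theorem lv02_curve (G : Inc V) (z1 z2 : V → E3) (S : Finset V) (hg : Good G {z1, z2} S)
    (h1 : IsPl G S z1) (h2 : IsPl G S z2) :
    ∃ gam : V → Fin 3 → Polynomial ℝ,
      (∀ u ∈ S, ∀ v ∈ S, G.adj u v → gam u ⬝ᵥ gam v = 0) ∧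
      (∀ v ∈ S, ∃ c : ℝ, c ≠ 0 ∧ lv02_ev 0 (gam v) = c • z1 v) ∧
      (∀ v ∈ S, ∃ c : ℝ, c ≠ 0 ∧ lv02_ev 1 (gam v) = c • z2 v) := by
  induction hg with
  | nil =>
    exact ⟨fun _ _ => 0, by simp, by simp, by simp⟩
  | @cons S v hv hS hc hd ih =>
    have h1' := h1.mono (subset_insert v S)
    have h2' := h2.mono (subset_insert v S)
    obtain ⟨gam, ho, e0, e1⟩ := ih h1' h2'
    have hvm : v ∈ insert v S := mem_insert_self v S
    -- it is enough to choose the curve of `v`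
    have key : ∀ g : Fin 3 → Polynomial ℝ, (∀ u ∈ nb G S v, g ⬝ᵥ gam u = 0) →
        (∃ c : ℝ, c ≠ 0 ∧ lv02_ev 0 g = c • z1 v) → (∃ c : ℝ, c ≠ 0 ∧ lv02_ev 1 g = c • z2 v) →
        ∃ gam : V → Fin 3 → Polynomial ℝ,
          (∀ u ∈ insert v S, ∀ w ∈ insert v S, G.adj u w → gam u ⬝ᵥ gam w = 0) ∧
          (∀ w ∈ insert v S, ∃ c : ℝ, c ≠ 0 ∧ lv02_ev 0 (gam w) = c • z1 w) ∧
          (∀ w ∈ insert v S, ∃ c : ℝ, c ≠ 0 ∧ lv02_ev 1 (gam w) = c • z2 w) := by
      intro g hg0 hg1 hg2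
      have hne : ∀ u ∈ S, u ≠ v := by
        rintro u hu rfl
        exact hv hu
      refine ⟨Function.update gam v g, ?_, ?_, ?_⟩
      · intro u hu w hw huw
        rcases mem_insert.1 hu with hu' | hu'
        · rcases mem_insert.1 hw with hw' | hw'
          · rw [hu', hw'] at huw
            exact absurd huw (G.irr _)
          · rw [hu'] at huw ⊢
            rw [Function.update_self, Function.update_of_ne (hne w hw')]
            exact hg0 w (mem_nb.2 ⟨hw', huw⟩)
        · rcases mem_insert.1 hw with hw' | hw'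
          · rw [hw'] at huw ⊢
            rw [Function.update_self, Function.update_of_ne (hne u hu'), dotProduct_comm]
            exact hg0 u (mem_nb.2 ⟨hu', G.symm huw⟩)
          · rw [Function.update_of_ne (hne w hw'), Function.update_of_ne (hne u hu')]
            exact ho u hu' w hw' huw
      · intro w hw
        rcases mem_insert.1 hw with hw' | hw'
        · rw [hw', Function.update_self]
          exact hg1
        · rw [Function.update_of_ne (hne w hw')]
          exact e0 w hw'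
      · intro w hw
        rcases mem_insert.1 hw with hw' | hw'
        · rw [hw', Function.update_self]
          exact hg2
        · rw [Function.update_of_ne (hne w hw')]
          exact e1 w hw'
    rcases Nat.lt_or_ge (nb G S v).card 1 with hc0 | hc0
    · -- no neighbour
      have hN : nb G S v = ∅ := card_eq_zero.1 (by omega)
      refine key (lv02_ip (z1 v) (z2 v)) ?_ ⟨1, one_ne_zero, ?_⟩ ⟨1, one_ne_zero, ?_⟩
      · rw [hN]
        intro u hu
        exact absurd hu (notMem_empty u)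
      · rw [lv02_ip0, one_smul]
      · rw [lv02_ip1, one_smul]
    rcases Nat.lt_or_ge (nb G S v).card 2 with hc1 | hc1
    · -- one neighbour
      obtain ⟨u, hu⟩ := card_eq_one.1 (by omega : (nb G S v).card = 1)
      have humem : u ∈ nb G S v := by rw [hu]; exact mem_singleton_self u
      obtain ⟨huS, hvu⟩ := mem_nb.1 humem
      obtain ⟨c0, hc0', hg0⟩ := e0 u huS
      obtain ⟨c1, hc1', hg1⟩ := e1 u huS
      have hnz0 : lv02_ev 0 (gam u) ≠ 0 := by
        rw [hg0]
        exact smul_ne_zero hc0' (h1'.nz u huS)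
      have hnz1 : lv02_ev 1 (gam u) ≠ 0 := by
        rw [hg1]
        exact smul_ne_zero hc1' (h2'.nz u huS)
      have ho0 : lv02_ev 0 (gam u) ⬝ᵥ z1 v = 0 := by
        rw [hg0, smul_dotProduct, h1.inc u (mem_insert_of_mem huS) v hvm (G.symm hvu), smul_zero]
      have ho1 : lv02_ev 1 (gam u) ⬝ᵥ z2 v = 0 := by
        rw [hg1, smul_dotProduct, h2.inc u (mem_insert_of_mem huS) v hvm (G.symm hvu), smul_zero]
      refine key (gam u ⨯₃ lv02_ip
        ((lv02_ev 0 (gam u) ⬝ᵥ lv02_ev 0 (gam u))⁻¹ • (z1 v ⨯₃ lv02_ev 0 (gam u)))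
        ((lv02_ev 1 (gam u) ⬝ᵥ lv02_ev 1 (gam u))⁻¹ • (z2 v ⨯₃ lv02_ev 1 (gam u)))) ?_
        ⟨1, one_ne_zero, ?_⟩ ⟨1, one_ne_zero, ?_⟩
      · rw [hu]
        intro u' hu'
        rw [mem_singleton.1 hu']
        exact lv02_dot_cross_self_left _ _
      · rw [lv02_ev_cross, lv02_ip0, one_smul]
        exact lv02_solve hnz0 ho0
      · rw [lv02_ev_cross, lv02_ip1, one_smul]
        exact lv02_solve hnz1 ho1
    · -- two neighbours
      obtain ⟨u1, u2, hne, hu⟩ := card_eq_two.1 (by omega : (nb G S v).card = 2)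
      have hm1 : u1 ∈ nb G S v := by rw [hu]; exact mem_insert_self _ _
      have hm2 : u2 ∈ nb G S v := by rw [hu]; exact mem_insert_of_mem (mem_singleton_self _)
      obtain ⟨hS1, ha1⟩ := mem_nb.1 hm1
      obtain ⟨hS2, ha2⟩ := mem_nb.1 hm2
      have gen : ∀ (z : V → E3) (_ : z ∈ ({z1, z2} : Set (V → E3))) (_ : IsPl G (insert v S) z)
          (t : ℝ) (_ : ∀ w ∈ S, ∃ c : ℝ, c ≠ 0 ∧ lv02_ev t (gam w) = c • z w),
          ∃ c : ℝ, c ≠ 0 ∧ lv02_ev t (gam u1 ⨯₃ gam u2) = c • z v := by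
        intro z hz hpl t he
        obtain ⟨c1, hc1, hg1⟩ := he u1 hS1
        obtain ⟨c2, hc2, hg2⟩ := he u2 hS2
        have hcr := hd z hz u1 hm1 u2 hm2 hne
        have o1 : z v ⬝ᵥ z u1 = 0 := hpl.inc v hvm u1 (mem_insert_of_mem hS1) ha1
        have o2 : z v ⬝ᵥ z u2 = 0 := hpl.inc v hvm u2 (mem_insert_of_mem hS2) ha2
        obtain ⟨c, hc, hcc⟩ := lv02_par hcr (hpl.nz v hvm) o1 o2
        refine ⟨c1 * (c2 * c), mul_ne_zero hc1 (mul_ne_zero hc2 hc), ?_⟩
        rw [lv02_ev_cross, hg1, hg2]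
        simp only [LinearMap.map_smul, LinearMap.smul_apply]
        rw [hcc, smul_smul, smul_smul]
        congr 1
        ring
      refine key (gam u1 ⨯₃ gam u2) ?_ (gen z1 (Set.mem_insert _ _) h1 0 e0)
        (gen z2 (Set.mem_insert_of_mem _ rfl) h2 1 e1)
      rw [hu]
      intro u' hu'
      rcases mem_insert.1 hu' with rfl | hu'
      · exact lv02_dot_cross_self_left _ _
      · rw [mem_singleton.1 hu']
        exact lv02_dot_cross_self_right _ _

theorem lv02_exists_eval (F : Finset (Polynomial ℝ)) :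
    ∃ t : ℝ, ∀ P ∈ F, P ≠ 0 → P.eval t ≠ 0 := by
  classical
  obtain ⟨t, ht⟩ := Infinite.exists_notMem_finset (F.biUnion fun P => P.roots.toFinset)
  refine ⟨t, fun P hP hP0 h0 => ht ?_⟩
  rw [mem_biUnion]
  exact ⟨P, hP, by rw [Multiset.mem_toFinset, Polynomial.mem_roots hP0]; exact h0⟩

theorem lv02_exists_eval4 {V : Type} [DecidableEq V] (S : Finset V)
    (P1 : V → V → Polynomial ℝ) (P2 : V → V → Fin 3 → Polynomial ℝ)
    (P3 : V → V → V → Polynomial ℝ) (P4 : V → Fin 3 → Polynomial ℝ) :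
    ∃ t : ℝ, (∀ u ∈ S, ∀ v ∈ S, P1 u v ≠ 0 → (P1 u v).eval t ≠ 0) ∧
      (∀ u ∈ S, ∀ v ∈ S, ∀ k, P2 u v k ≠ 0 → (P2 u v k).eval t ≠ 0) ∧
      (∀ u ∈ S, ∀ v ∈ S, ∀ w ∈ S, P3 u v w ≠ 0 → (P3 u v w).eval t ≠ 0) ∧
      (∀ u ∈ S, ∀ k, P4 u k ≠ 0 → (P4 u k).eval t ≠ 0) := by
  classical
  obtain ⟨t, ht⟩ := lv02_exists_eval (
    ((S ×ˢ S).image fun p => P1 p.1 p.2) ∪
    (((S ×ˢ S) ×ˢ (univ : Finset (Fin 3))).image fun p => P2 p.1.1 p.1.2 p.2) ∪
    (((S ×ˢ S) ×ˢ S).image fun p => P3 p.1.1 p.1.2 p.2) ∪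
    ((S ×ˢ (univ : Finset (Fin 3))).image fun p => P4 p.1 p.2))
  refine ⟨t, ?_, ?_, ?_, ?_⟩
  · intro u hu v hv
    refine ht _ ?_
    simp only [mem_union]
    left; left; left
    exact mem_image.2 ⟨(u, v), mk_mem_product hu hv, rfl⟩
  · intro u hu v hv k
    refine ht _ ?_
    simp only [mem_union]
    left; left; right
    exact mem_image.2 ⟨((u, v), k), mk_mem_product (mk_mem_product hu hv) (mem_univ k), rfl⟩
  · intro u hu v hv w hw
    refine ht _ ?_
    simp only [mem_union]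
    left; right
    exact mem_image.2 ⟨((u, v), w), mk_mem_product (mk_mem_product hu hv) hw, rfl⟩
  · intro u hu k
    refine ht _ ?_
    simp only [mem_union]
    right
    exact mem_image.2 ⟨(u, k), mk_mem_product hu (mem_univ k), rfl⟩

/-- Two placements with a common good order can be merged. -/
theorem combine (G : Inc V) (S : Finset V) (z1 z2 : V → E3) (hg : Good G {z1, z2} S)
    (h1 : IsPl G S z1) (h2 : IsPl G S z2) :
    ∃ z, IsPl G S z ∧
      (∀ u ∈ S, ∀ v ∈ S, (z1 u ⬝ᵥ z1 v ≠ 0 ∨ z2 u ⬝ᵥ z2 v ≠ 0) → z u ⬝ᵥ z v ≠ 0) ∧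
      (∀ u ∈ S, ∀ v ∈ S, (z1 u ⨯₃ z1 v ≠ 0 ∨ z2 u ⨯₃ z2 v ≠ 0) → z u ⨯₃ z v ≠ 0) ∧
      (∀ u ∈ S, ∀ v ∈ S, ∀ w ∈ S, (z1 u ⬝ᵥ (z1 v ⨯₃ z1 w) ≠ 0 ∨ z2 u ⬝ᵥ (z2 v ⨯₃ z2 w) ≠ 0) →
        z u ⬝ᵥ (z v ⨯₃ z w) ≠ 0) := by
  classical
  obtain ⟨gam, ho, e0, e1⟩ := lv02_curve G z1 z2 S hg h1 h2
  obtain ⟨t, tdot, tcr, tdet, tnz⟩ := lv02_exists_eval4 S (fun u v => gam u ⬝ᵥ gam v)
    (fun u v => gam u ⨯₃ gam v) (fun u v w => gam u ⬝ᵥ (gam v ⨯₃ gam w)) gam
  refine ⟨fun v => lv02_ev t (gam v), ⟨?_, ?_⟩, ?_, ?_, ?_⟩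
  · -- nonzero
    intro v hv h0
    obtain ⟨c, hc, hcv⟩ := e0 v hv
    have hne : lv02_ev 0 (gam v) ≠ 0 := by
      rw [hcv]
      exact smul_ne_zero hc (h1.nz v hv)
    apply hne
    funext k
    by_contra hk
    have hk0 : gam v k ≠ 0 := by
      intro hz
      apply hk
      change (gam v k).eval 0 = 0
      rw [hz, Polynomial.eval_zero]
    exact tnz v hv k hk0 (congrFun h0 k)
  · intro u hu v hv huv
    have := lv02_ev_dot t (gam u) (gam v)
    rw [ho u hu v hv huv, Polynomial.eval_zero] at this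
    exact this.symm
  · intro u hu v hv h
    have hP : gam u ⬝ᵥ gam v ≠ 0 := by
      intro hz
      rcases h with h | h
      · obtain ⟨c, hc, hcu⟩ := e0 u hu
        obtain ⟨c', hc', hcv⟩ := e0 v hv
        have := lv02_ev_dot 0 (gam u) (gam v)
        rw [hz, Polynomial.eval_zero, hcu, hcv, smul_dotProduct, dotProduct_smul, smul_eq_mul,
          smul_eq_mul] at this
        exact mul_ne_zero hc (mul_ne_zero hc' h) this.symm
      · obtain ⟨c, hc, hcu⟩ := e1 u hu
        obtain ⟨c', hc', hcv⟩ := e1 v hv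
        have := lv02_ev_dot 1 (gam u) (gam v)
        rw [hz, Polynomial.eval_zero, hcu, hcv, smul_dotProduct, dotProduct_smul, smul_eq_mul,
          smul_eq_mul] at this
        exact mul_ne_zero hc (mul_ne_zero hc' h) this.symm
    have h3 := tdot u hu v hv hP
    rwa [lv02_ev_dot] at h3
  · intro u hu v hv h h0
    have hP : gam u ⨯₃ gam v ≠ 0 := by
      intro hz
      rcases h with h | h
      · obtain ⟨c, hc, hcu⟩ := e0 u hu
        obtain ⟨c', hc', hcv⟩ := e0 v hv
        have := lv02_ev_cross 0 (gam u) (gam v)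
        rw [hz, hcu, hcv] at this
        simp only [LinearMap.map_smul, LinearMap.smul_apply] at this
        refine smul_ne_zero hc (smul_ne_zero hc' h) ?_
        rw [← this]
        funext k
        simp [lv02_ev]
      · obtain ⟨c, hc, hcu⟩ := e1 u hu
        obtain ⟨c', hc', hcv⟩ := e1 v hv
        have := lv02_ev_cross 1 (gam u) (gam v)
        rw [hz, hcu, hcv] at this
        simp only [LinearMap.map_smul, LinearMap.smul_apply] at this
        refine smul_ne_zero hc (smul_ne_zero hc' h) ?_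
        rw [← this]
        funext k
        simp [lv02_ev]
    apply hP
    funext k
    by_contra hk
    have h3 := tcr u hu v hv k hk
    apply h3
    have h4 := congrFun h0 k
    rw [← lv02_ev_cross] at h4
    exact h4
  · intro u hu v hv w hw h
    have hP : gam u ⬝ᵥ (gam v ⨯₃ gam w) ≠ 0 := by
      intro hz
      rcases h with h | h
      · obtain ⟨c, hc, hcu⟩ := e0 u hu
        obtain ⟨c', hc', hcv⟩ := e0 v hv
        obtain ⟨c'', hc'', hcw⟩ := e0 w hw
        have := lv02_ev_dot 0 (gam u) (gam v ⨯₃ gam w)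
        rw [hz, Polynomial.eval_zero, lv02_ev_cross, hcu, hcv, hcw] at this
        simp only [LinearMap.map_smul, LinearMap.smul_apply, smul_dotProduct, dotProduct_smul,
          smul_eq_mul] at this
        have h5 := this.symm
        simp only [mul_eq_zero] at h5
        tauto
      · obtain ⟨c, hc, hcu⟩ := e1 u hu
        obtain ⟨c', hc', hcv⟩ := e1 v hv
        obtain ⟨c'', hc'', hcw⟩ := e1 w hw
        have := lv02_ev_dot 1 (gam u) (gam v ⨯₃ gam w)
        rw [hz, Polynomial.eval_zero, lv02_ev_cross, hcu, hcv, hcw] at this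
        simp only [LinearMap.map_smul, LinearMap.smul_apply, smul_dotProduct, dotProduct_smul,
          smul_eq_mul] at this
        have h5 := this.symm
        simp only [mul_eq_zero] at h5
        tauto
    have h3 := tdet u hu v hv w hw hP
    rwa [lv02_ev_dot, lv02_ev_cross] at h3

theorem good_of_no_stuck (G : Inc V) (Z : Set (V → E3)) (S : Finset V)
    (h : ∀ W, W ⊆ S → W.Nonempty → ∃ v ∈ W, (nb G W v).card ≤ 2 ∧
      ∀ z ∈ Z, ∀ u ∈ nb G W v, ∀ w ∈ nb G W v, u ≠ w → z u ⨯₃ z w ≠ 0) :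
    Good G Z S := by
  induction S using Finset.strongInduction with
  | H S ih =>
    rcases S.eq_empty_or_nonempty with rfl | hne
    · exact Good.nil
    · obtain ⟨v, hv, hc, hz⟩ := h S (Subset.refl S) hne
      have hsub : nb G (S.erase v) v ⊆ nb G S v := nb_mono (erase_subset v S) v
      rw [← insert_erase hv]
      refine Good.cons (notMem_erase v S) (ih _ (erase_ssubset hv) fun W hW hWn =>
        h W (hW.trans (erase_subset v S)) hWn) ((card_le_card hsub).trans hc) ?_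
      intro z hzZ u hu w hw huw
      exact hz z hzZ u (hsub hu) w (hsub hw) huw

end Pool.Agent.Levi3
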