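import Pool.Agent.Levi3.Defs
import Pool.Agent.Levi3.LV01

/-! LV03 : Ext -/

namespace Pool.Agent.Levi3

open Matrix Finset

variable {V : Type} [DecidableEq V]

theorem lv03_pl (G : Inc V) (S : Finset V) (v : V) (z : V → E3) (h : IsPl G (S.erase v) z)
    (x : E3) (hx0 : x ≠ 0) (hx1 : ∀ u ∈ nb G S v, x ⬝ᵥ z u = 0) :
    IsPl G S (Function.update z v x) := by
  constructor
  · intro u hu
    by_cases huv : u = v
    · rw [huv, Function.update_self]; exact hx0
    · rw [Function.update_of_ne huv]; exact h.nz u (Finset.mem_erase.mpr ⟨huv, hu⟩)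
  · intro u hu w hw huw
    by_cases huv : u = v
    · have hwv : w ≠ v := by
        rintro rfl
        rw [huv] at huw
        exact G.irr _ huw
      rw [huv, Function.update_self, Function.update_of_ne hwv]
      exact hx1 w (mem_nb.mpr ⟨hw, huv ▸ huw⟩)
    · by_cases hwv : w = v
      · rw [hwv, Function.update_self, Function.update_of_ne huv, dotProduct_comm]
        exact hx1 u (mem_nb.mpr ⟨hu, G.symm (hwv ▸ huw)⟩)
      · rw [Function.update_of_ne huv, Function.update_of_ne hwv]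
        exact h.inc u (Finset.mem_erase.mpr ⟨huv, hu⟩) w (Finset.mem_erase.mpr ⟨hwv, hw⟩) huw

theorem lv03_dis (G : Inc V) (S : Finset V) (v : V) (z : V → E3) (h : Dis G (S.erase v) z)
    (x : E3) (hx : ∀ s ∈ S.erase v, G.typ s = G.typ v → x ⨯₃ z s ≠ 0) :
    Dis G S (Function.update z v x) := by
  intro u hu w hw huw hne
  by_cases huv : u = v
  · have hwv : w ≠ v := fun h => hne (huv.trans h.symm)
    rw [huv, Function.update_self, Function.update_of_ne hwv]
    exact hx w (Finset.mem_erase.mpr ⟨hwv, hw⟩) (by rw [← huw, huv])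
  · by_cases hwv : w = v
    · rw [hwv, Function.update_self, Function.update_of_ne huv]
      have := hx u (Finset.mem_erase.mpr ⟨huv, hu⟩) (by rw [huw, hwv])
      rw [← cross_anticomm]
      exact neg_ne_zero.mpr this
    · rw [Function.update_of_ne huv, Function.update_of_ne hwv]
      exact h u (Finset.mem_erase.mpr ⟨huv, hu⟩) w (Finset.mem_erase.mpr ⟨hwv, hw⟩) huw hne

theorem lv03_ninc (G : Inc V) (S : Finset V) (X : V → V → Prop) (hX : ∀ u v, X u v → X v u)
    (v : V) (z : V → E3) (h : NInc G (S.erase v) X z)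
    (x : E3) (hx : ∀ q ∈ S.erase v, G.typ q ≠ G.typ v → ¬ G.adj v q → ¬ X v q → x ⬝ᵥ z q ≠ 0) :
    NInc G S X (Function.update z v x) := by
  intro u hu w hw huw hadj hXu
  by_cases huv : u = v
  · have hwv : w ≠ v := fun h => huw (by rw [huv, h])
    rw [huv] at huw hadj hXu
    rw [huv, Function.update_self, Function.update_of_ne hwv]
    exact hx w (Finset.mem_erase.mpr ⟨hwv, hw⟩) huw.symm hadj hXu
  · by_cases hwv : w = v
    · rw [hwv] at huw hadj hXu
      rw [hwv, Function.update_self, Function.update_of_ne huv, dotProduct_comm]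
      exact hx u (Finset.mem_erase.mpr ⟨huv, hu⟩) huw (fun h => hadj (G.symm h))
        (fun h => hXu (hX _ _ h))
    · rw [Function.update_of_ne huv, Function.update_of_ne hwv]
      exact h u (Finset.mem_erase.mpr ⟨huv, hu⟩) w (Finset.mem_erase.mpr ⟨hwv, hw⟩) huw hadj hXu

theorem lv03_cross_cross (a w s : E3) :
    (a ⨯₃ w) ⨯₃ s = (a ⬝ᵥ s) • w - (w ⬝ᵥ s) • a := by
  funext i
  simp only [vec3_dotProduct, Pi.sub_apply, Pi.smul_apply, smul_eq_mul]
  fin_cases i <;> simp [cross_apply] <;> ring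

theorem lv03_triple (a w m : E3) : (a ⨯₃ w) ⬝ᵥ m = w ⬝ᵥ (m ⨯₃ a) := by
  simp only [vec3_dotProduct]
  simp [cross_apply]
  ring

/-- Adding a vertex of degree at most one. -/
theorem ext_le_one (G : Inc V) (S : Finset V) (X : V → V → Prop) (hX : ∀ u v, X u v → X v u)
    (v : V) (hv : v ∈ S) (hd : deg G S v ≤ 1) (z : V → E3) (h : NDm G (S.erase v) X z)
    (m : E3) (hm : m ≠ 0) (hm' : ∀ u ∈ nb G S v, m ⨯₃ z u ≠ 0) :
    ∃ x : E3, NDm G S X (Function.update z v x) ∧ x ⬝ᵥ m ≠ 0 := by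
  classical
  rcases Nat.eq_zero_or_pos (deg G S v) with h0 | h0
  · -- no neighbour
    have hnb : nb G S v = ∅ := Finset.card_eq_zero.mp h0
    obtain ⟨w, hw0, hw⟩ := exists_generic (insert m ((S.erase v).image z)) (by
      intro a ha
      rcases Finset.mem_insert.mp ha with rfl | ha
      · exact hm
      · obtain ⟨s, hs, rfl⟩ := Finset.mem_image.mp ha
        exact h.pl.nz s hs)
    have hws : ∀ s ∈ S.erase v, w ⬝ᵥ z s ≠ 0 ∧ w ⨯₃ z s ≠ 0 := fun s hs =>
      hw _ (Finset.mem_insert_of_mem (Finset.mem_image_of_mem _ hs))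
    refine ⟨w, ⟨lv03_pl G S v z h.pl w hw0 (by rw [hnb]; simp),
      lv03_dis G S v z h.dis w (fun s hs _ => (hws s hs).2),
      lv03_ninc G S X hX v z h.ninc w (fun q hq _ _ _ => (hws q hq).1)⟩, ?_⟩
    exact (hw m (Finset.mem_insert_self _ _)).1
  · have h1 : (nb G S v).card = 1 := le_antisymm hd h0
    obtain ⟨u, hu⟩ := Finset.card_eq_one.mp h1
    have hun : u ∈ nb G S v := by rw [hu]; simp
    have hadj : G.adj v u := (mem_nb.mp hun).2
    have huv : u ≠ v := by
      rintro rfl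
      exact G.irr _ hadj
    have huS : u ∈ S.erase v := Finset.mem_erase.mpr ⟨huv, (mem_nb.mp hun).1⟩
    obtain ⟨w, hw0, hw⟩ := exists_generic (insert (m ⨯₃ z u) ((S.erase v).image z ∪
        ((S.erase v).image (fun q => z q ⨯₃ z u)).filter (fun a => a ≠ 0))) (by
      intro a ha
      rcases Finset.mem_insert.mp ha with rfl | ha
      · exact hm' u hun
      · rcases Finset.mem_union.mp ha with ha | ha
        · obtain ⟨s, hs, rfl⟩ := Finset.mem_image.mp ha
          exact h.pl.nz s hs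
        · exact (Finset.mem_filter.mp ha).2)
    have hws : ∀ s ∈ S.erase v, w ⬝ᵥ z s ≠ 0 ∧ w ⨯₃ z s ≠ 0 := fun s hs =>
      hw _ (Finset.mem_insert_of_mem (Finset.mem_union_left _ (Finset.mem_image_of_mem _ hs)))
    have hwm : w ⬝ᵥ (m ⨯₃ z u) ≠ 0 := (hw _ (Finset.mem_insert_self _ _)).1
    have hwq : ∀ q ∈ S.erase v, z q ⨯₃ z u ≠ 0 → w ⬝ᵥ (z q ⨯₃ z u) ≠ 0 := fun q hq hne =>
      (hw _ (Finset.mem_insert_of_mem (Finset.mem_union_right _ (Finset.mem_filter.mpr
        ⟨Finset.mem_image.mpr ⟨q, hq, rfl⟩, hne⟩)))).1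
    have hx0 : z u ⨯₃ w ≠ 0 := by
      rw [← cross_anticomm]
      exact neg_ne_zero.mpr (hws u huS).2
    refine ⟨z u ⨯₃ w, ⟨lv03_pl G S v z h.pl _ hx0 ?_, lv03_dis G S v z h.dis _ ?_,
      lv03_ninc G S X hX v z h.ninc _ ?_⟩, ?_⟩
    · intro y hy
      rw [hu, Finset.mem_singleton] at hy
      rw [hy, dotProduct_comm, dot_self_cross]
    · intro s hs _ h2
      rw [lv03_cross_cross] at h2
      by_cases h3 : z u ⬝ᵥ z s = 0
      · rw [h3, zero_smul, zero_sub, neg_eq_zero] at h2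
        rcases smul_eq_zero.mp h2 with h4 | h4
        · exact (hws s hs).1 h4
        · exact h.pl.nz u huS h4
      · apply (hws u huS).2
        have h4 : (z u ⬝ᵥ z s) • w = (w ⬝ᵥ z s) • z u := sub_eq_zero.mp h2
        have h5 : w = ((z u ⬝ᵥ z s)⁻¹ * (w ⬝ᵥ z s)) • z u := by
          rw [mul_smul, ← h4, smul_smul, inv_mul_cancel₀ h3, one_smul]
        rw [h5, LinearMap.map_smul, LinearMap.smul_apply, cross_self, smul_zero]
    · intro q hq hty hadjq _
      rw [lv03_triple]
      apply hwq q hq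
      refine h.dis q hq u huS ?_ ?_
      · have h5 := G.bip hadj
        revert hty h5
        generalize G.typ q = a
        generalize G.typ v = b
        generalize G.typ u = c
        revert a b c
        decide
      · rintro rfl
        exact hadjq hadj
    · rw [lv03_triple]
      exact hwm

/-- Adding a vertex of degree two. -/
theorem ext_two (G : Inc V) (S : Finset V) (X : V → V → Prop) (hX : ∀ u v, X u v → X v u)
    (hC4 : C4F G S)
    (hX1 : ∀ w ∈ S, ∀ u ∈ S, ∀ v ∈ S, ∀ x ∈ S, G.adj w u → G.adj u v → G.adj v x → ¬ X w x)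
    (hX2 : ∀ v ∈ S, ∀ u ∈ S, ∀ w ∈ S, ∀ w' ∈ S, w ≠ w' → G.adj u w → G.adj u w' →
      ¬ (X v w ∧ X v w'))
    (v u1 u2 : V) (hv : v ∈ S) (hu : u1 ≠ u2) (hn : nb G S v = {u1, u2})
    (z : V → E3) (h : NDm G (S.erase v) X z) :
    IsPl G S (Function.update z v (z u1 ⨯₃ z u2)) ∧
      Dis G S (Function.update z v (z u1 ⨯₃ z u2)) := by
  have h1 : u1 ∈ nb G S v := by rw [hn]; simp
  have h2 : u2 ∈ nb G S v := by rw [hn]; simp
  rw [mem_nb] at h1 h2
  have t1 := G.bip h1.2
  have t2 := G.bip h2.2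
  have n1 : u1 ≠ v := by rintro rfl; exact t1 rfl
  have n2 : u2 ≠ v := by rintro rfl; exact t2 rfl
  have m1 : u1 ∈ S.erase v := Finset.mem_erase.mpr ⟨n1, h1.1⟩
  have m2 : u2 ∈ S.erase v := Finset.mem_erase.mpr ⟨n2, h2.1⟩
  have t12 : G.typ u1 = G.typ u2 := by
    revert t1 t2
    generalize G.typ u1 = a
    generalize G.typ v = b
    generalize G.typ u2 = c
    revert a b c
    decide
  have hx0 : z u1 ⨯₃ z u2 ≠ 0 := h.dis u1 m1 u2 m2 t12 hu
  refine ⟨lv03_pl G S v z h.pl _ hx0 ?_, lv03_dis G S v z h.dis _ ?_⟩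
  · intro y hy
    rw [hn, Finset.mem_insert, Finset.mem_singleton] at hy
    rcases hy with rfl | rfl
    · rw [dotProduct_comm, dot_self_cross]
    · rw [dotProduct_comm, dot_cross_self]
  · intro s hs hty hcr
    obtain ⟨c, hc⟩ := exists_smul_of_cross_eq_zero hx0 hcr
    have o1 : z s ⬝ᵥ z u1 = 0 := by
      rw [hc, smul_dotProduct, dotProduct_comm, dot_self_cross, smul_zero]
    have o2 : z s ⬝ᵥ z u2 = 0 := by
      rw [hc, smul_dotProduct, dotProduct_comm, dot_cross_self, smul_zero]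
    have hsv : s ≠ v := (Finset.mem_erase.mp hs).1
    have hsS : s ∈ S := (Finset.mem_erase.mp hs).2
    have ts1 : G.typ s ≠ G.typ u1 := by rw [hty]; exact t1
    have ts2 : G.typ s ≠ G.typ u2 := by rw [hty]; exact t2
    by_cases a1 : G.adj s u1
    · by_cases a2 : G.adj s u2
      · rcases hC4 v hv u1 h1.1 s hsS u2 h2.1 h1.2 (G.symm a1) a2 (G.symm h2.2) with h3 | h3
        · exact hsv h3.symm
        · exact hu h3
      · exact h.ninc s hs u2 m2 ts2 a2
          (hX1 s hsS u1 h1.1 v hv u2 h2.1 a1 (G.symm h1.2) h2.2) o2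
    · by_cases a2 : G.adj s u2
      · exact h.ninc s hs u1 m1 ts1 a1
          (hX1 s hsS u2 h2.1 v hv u1 h1.1 a2 (G.symm h2.2) h1.2) o1
      · have x1 : X s u1 := by
          by_contra hcon
          exact h.ninc s hs u1 m1 ts1 a1 hcon o1
        have x2 : X s u2 := by
          by_contra hcon
          exact h.ninc s hs u2 m2 ts2 a2 hcon o2
        exact hX2 s hsS v hv u1 h1.1 u2 h2.1 hu h1.2 h2.2 ⟨x1, x2⟩

end Pool.Agent.Levi3
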