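import Pool.Agent.Levi3.Defs
import Pool.Agent.Levi3.LV02
import Pool.Agent.Levi3.LV03

/-! LV04 : CritRefined -/

namespace Pool.Agent.Levi3

open Matrix Finset

variable {V : Type} [DecidableEq V]

theorem lv04_nb_erase (G : Inc V) (S : Finset V) (v u : V) (hu : u ∈ nb G S v) :
    u ∈ S.erase v := by
  rw [mem_nb] at hu
  refine mem_erase.2 ⟨?_, hu.1⟩
  rintro rfl
  exact G.irr u hu.2

/-- a generic vector for the neighbours of `v` -/
theorem lv04_generic (G : Inc V) (S : Finset V) (X : V → V → Prop) (v : V) (z : V → E3)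
    (h : NDm G (S.erase v) X z) :
    ∃ m : E3, m ≠ 0 ∧ ∀ u ∈ nb G S v, m ⨯₃ z u ≠ 0 := by
  classical
  obtain ⟨m, hm0, hm⟩ := exists_generic ((nb G S v).image z) (by
    intro a ha
    obtain ⟨u, hu, rfl⟩ := mem_image.1 ha
    exact h.pl.nz u (lv04_nb_erase G S v u hu))
  exact ⟨m, hm0, fun u hu => (hm (z u) (mem_image_of_mem z hu)).2⟩

theorem lv04_ext (G : Inc V) (S : Finset V) (X : V → V → Prop)
    (hXs : ∀ u v, X u v → X v u)
    (hC4 : C4F G S)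
    (hX1 : ∀ w ∈ S, ∀ u ∈ S, ∀ v ∈ S, ∀ x ∈ S, G.adj w u → G.adj u v → G.adj v x → ¬ X w x)
    (hX2 : ∀ v ∈ S, ∀ u ∈ S, ∀ w ∈ S, ∀ w' ∈ S, w ≠ w' → G.adj u w → G.adj u w' →
      ¬ (X v w ∧ X v w'))
    (v : V) (hv : v ∈ S) (hd : deg G S v ≤ 2) (z : V → E3) (h : NDm G (S.erase v) X z) :
    ∃ x : E3, IsPl G S (Function.update z v x) ∧ Dis G S (Function.update z v x) := by
  rcases Nat.lt_or_ge (deg G S v) 2 with h1 | h1
  · obtain ⟨m, hm0, hm⟩ := lv04_generic G S X v z h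
    obtain ⟨x, hx, _⟩ := ext_le_one G S X hXs v hv (by omega) z h m hm0 hm
    exact ⟨x, hx.pl, hx.dis⟩
  · have h2 : (nb G S v).card = 2 := le_antisymm hd h1
    obtain ⟨u1, u2, hne, hn⟩ := card_eq_two.1 h2
    exact ⟨_, ext_two G S X hXs hC4 hX1 hX2 v u1 u2 hv hne hn z h⟩

theorem lv04_good (G : Inc V) (S : Finset V)
    (hdeg : ∀ W, W ⊆ S → W.Nonempty → ∃ v ∈ W, deg G W v ≤ 2) (Z : Set (V → E3))
    (hZ : ∀ z ∈ Z, Dis G S z) : Good G Z S := by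
  apply good_of_no_stuck
  intro W hW hne
  obtain ⟨v, hv, hd⟩ := hdeg W hW hne
  refine ⟨v, hv, hd, ?_⟩
  intro z hz u hu w hw huw
  rw [mem_nb] at hu hw
  refine hZ z hz u (hW hu.1) w (hW hw.1) ?_ huw
  have h1 := G.bip hu.2
  have h2 := G.bip hw.2
  cases hv' : G.typ v <;> cases hu' : G.typ u <;> cases hw' : G.typ w <;> simp_all

theorem crit_refined (G : Inc V) (S : Finset V) (X : V → V → Prop)
    (hXs : ∀ u v, X u v → X v u)
    (hC4 : C4F G S)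
    (hdeg : ∀ W, W ⊆ S → W.Nonempty → ∃ v ∈ W, deg G W v ≤ 2)
    (hX1 : ∀ w ∈ S, ∀ u ∈ S, ∀ v ∈ S, ∀ x ∈ S, G.adj w u → G.adj u v → G.adj v x → ¬ X w x)
    (hX2 : ∀ v ∈ S, ∀ u ∈ S, ∀ w ∈ S, ∀ w' ∈ S, w ≠ w' → G.adj u w → G.adj u w' →
      ¬ (X v w ∧ X v w'))
    (hprop : ∀ v ∈ S, ∃ z, NDm G (S.erase v) X z) :
    ∃ z, IsPl G S z ∧ Dis G S z ∧
      ∀ p ∈ S, ∀ q ∈ S, G.typ p ≠ G.typ q → ¬ G.adj p q → ¬ X p q → ¬ Bad G S p q →
        z p ⬝ᵥ z q ≠ 0 := by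
  classical
  -- one pair
  have hone : ∀ p ∈ S, ∀ q ∈ S, G.typ p ≠ G.typ q → ¬ G.adj p q → ¬ X p q → ¬ Bad G S p q →
      ∃ z, IsPl G S z ∧ Dis G S z ∧ z p ⬝ᵥ z q ≠ 0 := by
    intro p hp q hq ht ha hX hB
    by_cases hp1 : deg G S p ≤ 1
    · obtain ⟨z, hz⟩ := hprop p hp
      obtain ⟨m, hm0, hm⟩ := lv04_generic G S X p z hz
      obtain ⟨x, hx, _⟩ := ext_le_one G S X hXs p hp hp1 z hz m hm0 hm
      exact ⟨_, hx.pl, hx.dis, hx.ninc p hp q hq ht ha hX⟩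
    by_cases hq1 : deg G S q ≤ 1
    · obtain ⟨z, hz⟩ := hprop q hq
      obtain ⟨m, hm0, hm⟩ := lv04_generic G S X q z hz
      obtain ⟨x, hx, _⟩ := ext_le_one G S X hXs q hq hq1 z hz m hm0 hm
      exact ⟨_, hx.pl, hx.dis, hx.ninc p hp q hq ht ha hX⟩
    have h1 : ∃ v ∈ S, v ≠ p ∧ v ≠ q ∧ deg G S v ≤ 2 := by
      by_contra hcon
      push Not at hcon
      apply hB
      refine ⟨fun v hv hvp hvq => ?_, by omega, by omega⟩
      have := hcon v hv hvp hvq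
      omega
    obtain ⟨v, hv, hvp, hvq, hd⟩ := h1
    obtain ⟨z, hz⟩ := hprop v hv
    obtain ⟨x, hx1, hx2⟩ := lv04_ext G S X hXs hC4 hX1 hX2 v hv hd z hz
    refine ⟨_, hx1, hx2, ?_⟩
    rw [Function.update_of_ne hvp.symm, Function.update_of_ne hvq.symm]
    exact hz.ninc p (mem_erase.2 ⟨hvp.symm, hp⟩) q (mem_erase.2 ⟨hvq.symm, hq⟩) ht ha hX
  -- finitely many pairs
  have hmany : ∀ PP : Finset (V × V), (∀ e ∈ PP, e.1 ∈ S ∧ e.2 ∈ S ∧ G.typ e.1 ≠ G.typ e.2 ∧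
      ¬ G.adj e.1 e.2 ∧ ¬ X e.1 e.2 ∧ ¬ Bad G S e.1 e.2) →
      ∃ z, IsPl G S z ∧ Dis G S z ∧ ∀ e ∈ PP, z e.1 ⬝ᵥ z e.2 ≠ 0 := by
    intro PP
    induction PP using Finset.induction_on with
    | empty =>
      intro _
      rcases S.eq_empty_or_nonempty with h0 | h0
      · subst h0
        refine ⟨fun _ => 0, ⟨fun v hv => absurd hv (notMem_empty v),
          fun u hu => absurd hu (notMem_empty u)⟩, fun u hu => absurd hu (notMem_empty u), ?_⟩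
        intro e he
        exact absurd he (notMem_empty e)
      · obtain ⟨v, hv, hd⟩ := hdeg S (Subset.refl S) h0
        obtain ⟨z, hz⟩ := hprop v hv
        obtain ⟨x, hx1, hx2⟩ := lv04_ext G S X hXs hC4 hX1 hX2 v hv hd z hz
        refine ⟨_, hx1, hx2, ?_⟩
        intro e he
        exact absurd he (notMem_empty e)
    | insert e PP he ih =>
      intro hPP
      obtain ⟨z1, h1, h1', h1''⟩ := ih (fun e' he' => hPP e' (mem_insert_of_mem he'))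
      obtain ⟨e1, e2, e3, e4, e5, e6⟩ := hPP e (mem_insert_self e PP)
      obtain ⟨z2, h2, h2', h2''⟩ := hone e.1 e1 e.2 e2 e3 e4 e5 e6
      have hgood : Good G {z1, z2} S := by
        apply lv04_good G S hdeg
        intro z hz
        rcases hz with rfl | hz
        · exact h1'
        · rw [Set.mem_singleton_iff] at hz
          rw [hz]; exact h2'
      obtain ⟨z, k1, k2, k3, _⟩ := combine G S z1 z2 hgood h1 h2
      refine ⟨z, k1, ?_, ?_⟩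
      · intro u hu v hv ht huv
        exact k3 u hu v hv (Or.inl (h1' u hu v hv ht huv))
      · intro e' he'
        rcases mem_insert.1 he' with rfl | he'
        · exact k2 _ e1 _ e2 (Or.inr h2'')
        · have := hPP e' (mem_insert_of_mem he')
          exact k2 _ this.1 _ this.2.1 (Or.inl (h1'' e' he'))
  obtain ⟨z, k1, k2, k3⟩ := hmany ((S ×ˢ S).filter (fun e => G.typ e.1 ≠ G.typ e.2 ∧
      ¬ G.adj e.1 e.2 ∧ ¬ X e.1 e.2 ∧ ¬ Bad G S e.1 e.2)) (by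
    intro e he
    rw [mem_filter, mem_product] at he
    exact ⟨he.1.1, he.1.2, he.2⟩)
  refine ⟨z, k1, k2, ?_⟩
  intro p hp q hq ht ha hX hB
  exact k3 (p, q) (mem_filter.2 ⟨mem_product.2 ⟨hp, hq⟩, ht, ha, hX, hB⟩)

end Pool.Agent.Levi3
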