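import Pool.Agent.Levi3.Defs
import Pool.Agent.Levi3.LV01

/-! LV05 : GlueFirst -/

namespace Pool.Agent.Levi3

open Matrix Finset

theorem lv05_ds {v : E3} : v ⬝ᵥ v = 0 ↔ v = 0 := dotProduct_self_eq_zero

theorem lv05_Didx1 (x c1 c2 : E3) :
    x ⬝ᵥ ((c1 ⨯₃ (c2 ⨯₃ c1)) ⨯₃ (c2 ⨯₃ c1)) =
      -((x ⬝ᵥ c1) * ((c2 ⨯₃ c1) ⬝ᵥ (c2 ⨯₃ c1))) := by
  simp [cross_apply, dotProduct, Fin.sum_univ_three]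
  ring

theorem lv05_Didx2 (x c1 c2 : E3) :
    x ⬝ᵥ ((c1 ⨯₃ (c2 ⨯₃ c1)) ⨯₃ (c2 ⨯₃ (c2 ⨯₃ c1))) =
      -((x ⬝ᵥ (c2 ⨯₃ c1)) * ((c2 ⨯₃ c1) ⬝ᵥ (c2 ⨯₃ c1))) := by
  simp [cross_apply, dotProduct, Fin.sum_univ_three]
  ring

theorem lv05_Didx3 (x c1 c2 : E3) :
    x ⬝ᵥ ((c1 ⨯₃ (c1 ⨯₃ (c2 ⨯₃ c1))) ⨯₃ (c2 ⨯₃ (c2 ⨯₃ c1))) =
      -((x ⬝ᵥ c2) * (c1 ⬝ᵥ c1) * ((c2 ⨯₃ c1) ⬝ᵥ (c2 ⨯₃ c1))) := by
  simp [cross_apply, dotProduct, Fin.sum_univ_three]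
  ring

theorem lv05_lag (x q : E3) : (x ⬝ᵥ x) * (q ⬝ᵥ q) = (x ⨯₃ q) ⬝ᵥ (x ⨯₃ q) + (x ⬝ᵥ q) ^ 2 := by
  simp [cross_apply, dotProduct, Fin.sum_univ_three]
  ring

theorem lv05_trip (x u v : E3) : x ⨯₃ (u ⨯₃ v) = (x ⬝ᵥ v) • u - (x ⬝ᵥ u) • v := by
  ext i
  fin_cases i <;> simp [cross_apply, dotProduct, Fin.sum_univ_three] <;> ring

theorem lv05_D (x c1 c2 : E3) (hx : x ≠ 0) (hc : c1 ⨯₃ c2 ≠ 0) :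
    ∃ w w' : E3, x ⬝ᵥ ((c1 ⨯₃ w) ⨯₃ (c2 ⨯₃ w')) ≠ 0 := by
  by_contra h
  push Not at h
  have hq : c2 ⨯₃ c1 ≠ 0 := by
    intro h1
    apply hc
    rw [← cross_anticomm, h1, neg_zero]
  have hqq : (c2 ⨯₃ c1) ⬝ᵥ (c2 ⨯₃ c1) ≠ 0 := fun h1 => hq (lv05_ds.1 h1)
  have hc1 : c1 ⬝ᵥ c1 ≠ 0 := by
    intro h1
    rw [lv05_ds.1 h1] at hc
    simp at hc
  have h1 := h (c2 ⨯₃ c1) c1
  have h2 := h (c2 ⨯₃ c1) (c2 ⨯₃ c1)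
  have h3 := h (c1 ⨯₃ (c2 ⨯₃ c1)) (c2 ⨯₃ c1)
  rw [lv05_Didx1, neg_eq_zero, mul_eq_zero] at h1
  rw [lv05_Didx2, neg_eq_zero, mul_eq_zero] at h2
  rw [lv05_Didx3, neg_eq_zero, mul_eq_zero, mul_eq_zero] at h3
  have e1 : x ⬝ᵥ c1 = 0 := h1.resolve_right hqq
  have e2 : x ⬝ᵥ (c2 ⨯₃ c1) = 0 := h2.resolve_right hqq
  have e3 : x ⬝ᵥ c2 = 0 := (h3.resolve_right hqq).resolve_right hc1
  have e4 : x ⨯₃ (c2 ⨯₃ c1) = 0 := by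
    rw [lv05_trip, e1, e3]
    simp
  have e5 := lv05_lag x (c2 ⨯₃ c1)
  rw [e4, e2] at e5
  simp at e5
  rcases e5 with e5 | e5
  · exact hx e5
  · exact hq e5

theorem lv05_lin (v c : E3) (h : v ⨯₃ c ≠ 0) : ∃ w : E3, (c ⨯₃ w) ⬝ᵥ v ≠ 0 := by
  refine ⟨v ⨯₃ c, ?_⟩
  have e : (c ⨯₃ (v ⨯₃ c)) ⬝ᵥ v = (v ⨯₃ c) ⬝ᵥ (v ⨯₃ c) := by
    simp [cross_apply, dotProduct, Fin.sum_univ_three]
    ring
  rw [e]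
  exact fun h1 => h (lv05_ds.1 h1)

theorem lv05_Qid1 (a a' c t x w : E3) (α β : ℝ) :
    α * (a' ⬝ᵥ ((c ⨯₃ w) ⨯₃ t)) * ((a ⨯₃ x) ⬝ᵥ t) +
      β * (a ⬝ᵥ ((c ⨯₃ w) ⨯₃ t)) * ((a' ⨯₃ x) ⬝ᵥ t) =
    w ⬝ᵥ ((t ⨯₃ ((α * ((a ⨯₃ x) ⬝ᵥ t)) • a' + (β * ((a' ⨯₃ x) ⬝ᵥ t)) • a)) ⨯₃ c) := by
  generalize (a ⨯₃ x) ⬝ᵥ t = r
  generalize (a' ⨯₃ x) ⬝ᵥ t = r'
  simp [cross_apply, dotProduct, Fin.sum_univ_three]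
  ring

theorem lv05_Qid2 (a a' c t : E3) (r r' : ℝ) :
    a ⬝ᵥ (((t ⨯₃ (r • a' + r' • a)) ⨯₃ c) ⨯₃ t) =
      r * (t ⬝ᵥ (a ⨯₃ a')) * (t ⬝ᵥ c) := by
  simp [cross_apply, dotProduct, Fin.sum_univ_three]
  ring

theorem lv05_Q (a a' x c c' : E3) (α β : ℝ) (hp : (a ⨯₃ a') ⨯₃ c' ≠ 0) (hc : c ⨯₃ c' ≠ 0)
    (hα : α ≠ 0) (hx : (a ⨯₃ x) ⨯₃ c' ≠ 0) :
    ∃ w w' : E3, α * (a' ⬝ᵥ ((c ⨯₃ w) ⨯₃ (c' ⨯₃ w'))) * ((a ⨯₃ x) ⬝ᵥ (c' ⨯₃ w')) +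
      β * (a ⬝ᵥ ((c ⨯₃ w) ⨯₃ (c' ⨯₃ w'))) * ((a' ⨯₃ x) ⬝ᵥ (c' ⨯₃ w')) ≠ 0 := by
  have hv : ∀ i : Fin 3, (![a ⨯₃ a', c, a ⨯₃ x] i) ⨯₃ c' ≠ 0 := by
    intro i
    fin_cases i
    · exact hp
    · exact hc
    · exact hx
  obtain ⟨w', hw'⟩ := exists_common (Finset.univ : Finset (Fin 3))
    (fun i (w' : E3) => (c' ⨯₃ w') ⬝ᵥ (![a ⨯₃ a', c, a ⨯₃ x] i))
    (fun i _ => PolyV.dot (PolyV.cross (PolyV.const c') (PolyV.lin LinearMap.id))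
      (PolyV.const _))
    (fun i _ => lv05_lin _ _ (hv i))
  have h0 := hw' 0 (Finset.mem_univ _)
  have h1 := hw' 1 (Finset.mem_univ _)
  have h2 := hw' 2 (Finset.mem_univ _)
  simp only [Matrix.cons_val_zero, Matrix.cons_val_one, Matrix.cons_val] at h0 h1 h2
  set t : E3 := c' ⨯₃ w' with ht
  set v : E3 := (t ⨯₃ ((α * ((a ⨯₃ x) ⬝ᵥ t)) • a' + (β * ((a' ⨯₃ x) ⬝ᵥ t)) • a)) ⨯₃ c with hvd
  have hv0 : v ≠ 0 := by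
    intro h
    have e := lv05_Qid2 a a' c t (α * ((a ⨯₃ x) ⬝ᵥ t)) (β * ((a' ⨯₃ x) ⬝ᵥ t))
    rw [← hvd, h] at e
    rw [dotProduct_comm t (a ⨯₃ x)] at h2
    simp at e
    rcases e with (e | e) | e
    · rcases e with e | e
      · exact hα e
      · exact h2 e
    · exact h0 e
    · exact h1 e
  refine ⟨v, w', ?_⟩
  rw [← ht, lv05_Qid1, ← hvd]
  exact fun h => hv0 (lv05_ds.1 h)


/-- value of a basic solution -/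
noncomputable def lv05_f (a1 a2 b1 b2 d x y s t : E3) : ℝ :=
  ((b1 ⨯₃ b2) ⬝ᵥ (b1 ⨯₃ b2)) * (a1 ⬝ᵥ (s ⨯₃ t)) * (a2 ⬝ᵥ (s ⨯₃ t)) *
      (x ⬝ᵥ (t ⨯₃ (s ⨯₃ t))) * (d ⬝ᵥ y) +
    (x ⬝ᵥ (s ⨯₃ t)) *
      (-((a2 ⬝ᵥ (s ⨯₃ t)) * (a1 ⬝ᵥ (t ⨯₃ (s ⨯₃ t))) * (d ⬝ᵥ b1) *
          ((b2 ⨯₃ (b1 ⨯₃ b2)) ⬝ᵥ y)) -
        (a1 ⬝ᵥ (s ⨯₃ t)) * (a2 ⬝ᵥ (t ⨯₃ (s ⨯₃ t))) * (d ⬝ᵥ b2) *
          (((b1 ⨯₃ b2) ⨯₃ b1) ⬝ᵥ y))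

/-- matrix of a basic solution -/
noncomputable def lv05_M (a1 a2 b1 b2 d s t : E3) : Matrix (Fin 3) (Fin 3) ℝ :=
  ((b1 ⨯₃ b2) ⬝ᵥ (b1 ⨯₃ b2) * (a1 ⬝ᵥ (s ⨯₃ t)) * (a2 ⬝ᵥ (s ⨯₃ t))) •
      vecMulVec d (t ⨯₃ (s ⨯₃ t)) +
    (-((a2 ⬝ᵥ (s ⨯₃ t)) * (a1 ⬝ᵥ (t ⨯₃ (s ⨯₃ t))) * (d ⬝ᵥ b1))) •
      vecMulVec (b2 ⨯₃ (b1 ⨯₃ b2)) (s ⨯₃ t) +
    (-((a1 ⬝ᵥ (s ⨯₃ t)) * (a2 ⬝ᵥ (t ⨯₃ (s ⨯₃ t))) * (d ⬝ᵥ b2))) •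
      vecMulVec ((b1 ⨯₃ b2) ⨯₃ b1) (s ⨯₃ t)

theorem lv05_vmv (u v w : E3) : vecMulVec u v *ᵥ w = (v ⬝ᵥ w) • u := by
  ext i
  simp [mulVec, vecMulVec, dotProduct, Fin.sum_univ_three]
  ring

theorem lv05_M_mul (a1 a2 b1 b2 d s t x y : E3) :
    (lv05_M a1 a2 b1 b2 d s t *ᵥ x) ⬝ᵥ y = lv05_f a1 a2 b1 b2 d x y s t := by
  unfold lv05_M lv05_f
  rw [add_mulVec, add_mulVec, smul_mulVec, smul_mulVec, smul_mulVec, lv05_vmv, lv05_vmv,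
    lv05_vmv, add_dotProduct, add_dotProduct, smul_dotProduct, smul_dotProduct, smul_dotProduct,
    smul_dotProduct, smul_dotProduct, smul_dotProduct]
  simp only [smul_eq_mul]
  rw [dotProduct_comm (t ⨯₃ (s ⨯₃ t)) x, dotProduct_comm (s ⨯₃ t) x]
  ring

theorem lv05_e1 (b1 b2 : E3) : (b2 ⨯₃ (b1 ⨯₃ b2)) ⬝ᵥ b1 = (b1 ⨯₃ b2) ⬝ᵥ (b1 ⨯₃ b2) := by
  simp [cross_apply, dotProduct, Fin.sum_univ_three]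
  ring

theorem lv05_e2 (b1 b2 : E3) : ((b1 ⨯₃ b2) ⨯₃ b1) ⬝ᵥ b2 = (b1 ⨯₃ b2) ⬝ᵥ (b1 ⨯₃ b2) := by
  simp [cross_apply, dotProduct, Fin.sum_univ_three]
  ring

theorem lv05_e3 (b1 b2 : E3) : (b2 ⨯₃ (b1 ⨯₃ b2)) ⬝ᵥ b2 = 0 := by
  simp [cross_apply, dotProduct, Fin.sum_univ_three]
  ring

theorem lv05_e4 (b1 b2 : E3) : ((b1 ⨯₃ b2) ⨯₃ b1) ⬝ᵥ b1 = 0 := by
  simp [cross_apply, dotProduct, Fin.sum_univ_three]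
  ring

theorem lv05_P1 (a1 a2 b1 b2 d s t : E3) : lv05_f a1 a2 b1 b2 d a1 b1 s t = 0 := by
  unfold lv05_f
  rw [lv05_e1, lv05_e4]
  ring

theorem lv05_P1' (a1 a2 b1 b2 d s t : E3) : lv05_f a1 a2 b1 b2 d a2 b2 s t = 0 := by
  unfold lv05_f
  rw [lv05_e2, lv05_e3]
  ring

theorem lv05_P2 (a1 a2 b1 b2 d y s t : E3) : lv05_f a1 a2 b1 b2 d t y s t = 0 := by
  unfold lv05_f
  rw [dot_self_cross, dot_cross_self]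
  ring

theorem lv05_P3 (a1 a2 b1 b2 d y s t : E3) : lv05_f a1 a2 b1 b2 d s y s t =
    ((b1 ⨯₃ b2) ⬝ᵥ (b1 ⨯₃ b2)) * (a1 ⬝ᵥ (s ⨯₃ t)) * (a2 ⬝ᵥ (s ⨯₃ t)) *
      ((s ⨯₃ t) ⬝ᵥ (s ⨯₃ t)) * (d ⬝ᵥ y) := by
  have e : s ⬝ᵥ (t ⨯₃ (s ⨯₃ t)) = (s ⨯₃ t) ⬝ᵥ (s ⨯₃ t) := by
    simp [cross_apply, dotProduct, Fin.sum_univ_three]
    ring
  unfold lv05_f
  rw [dot_self_cross, e]
  ring

theorem lv05_idE (a x s t : E3) :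
    (a ⬝ᵥ (s ⨯₃ t)) * (x ⬝ᵥ (t ⨯₃ (s ⨯₃ t))) - (x ⬝ᵥ (s ⨯₃ t)) * (a ⬝ᵥ (t ⨯₃ (s ⨯₃ t))) =
      ((s ⨯₃ t) ⬝ᵥ (s ⨯₃ t)) * ((a ⨯₃ x) ⬝ᵥ t) := by
  simp [cross_apply, dotProduct, Fin.sum_univ_three]
  ring

theorem lv05_P4 (a1 a2 b1 b2 d x s t : E3) (u1 u2 : ℝ) :
    lv05_f a1 a2 b1 b2 d x (u1 • b1 + u2 • b2) s t =
    ((b1 ⨯₃ b2) ⬝ᵥ (b1 ⨯₃ b2)) * ((s ⨯₃ t) ⬝ᵥ (s ⨯₃ t)) *
      (u1 * (d ⬝ᵥ b1) * (a2 ⬝ᵥ (s ⨯₃ t)) * ((a1 ⨯₃ x) ⬝ᵥ t) +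
       u2 * (d ⬝ᵥ b2) * (a1 ⬝ᵥ (s ⨯₃ t)) * ((a2 ⨯₃ x) ⬝ᵥ t)) := by
  unfold lv05_f
  simp only [dotProduct_add, dotProduct_smul, smul_eq_mul]
  rw [lv05_e1, lv05_e2, lv05_e3, lv05_e4]
  have h1 := lv05_idE a1 x s t
  have h2 := lv05_idE a2 x s t
  generalize a1 ⬝ᵥ (s ⨯₃ t) = A1 at *
  generalize a2 ⬝ᵥ (s ⨯₃ t) = A2 at *
  generalize x ⬝ᵥ (t ⨯₃ (s ⨯₃ t)) = X at *
  generalize a1 ⬝ᵥ (t ⨯₃ (s ⨯₃ t)) = B1 at *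
  generalize a2 ⬝ᵥ (t ⨯₃ (s ⨯₃ t)) = B2 at *
  generalize x ⬝ᵥ (s ⨯₃ t) = Y at *
  generalize (b1 ⨯₃ b2) ⬝ᵥ (b1 ⨯₃ b2) = R at *
  generalize (s ⨯₃ t) ⬝ᵥ (s ⨯₃ t) = N at *
  generalize (a1 ⨯₃ x) ⬝ᵥ t = C1 at *
  generalize (a2 ⨯₃ x) ⬝ᵥ t = C2 at *
  linear_combination (R * u1 * (d ⬝ᵥ b1) * A2) * h1 + (R * u2 * (d ⬝ᵥ b2) * A1) * h2

theorem lv05_fpoly {E : Type} [AddCommGroup E] [Module ℝ E] (a1 a2 b1 b2 d x y : E3)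
    {s t : E → E3} (hs : PolyV s) (ht : PolyV t) :
    PolyL (fun p => lv05_f a1 a2 b1 b2 d x y (s p) (t p)) := by
  unfold lv05_f
  have hn := PolyV.cross hs ht
  have hm := PolyV.cross ht hn
  have c1 : ∀ a : E3, PolyL (fun p => a ⬝ᵥ (s p ⨯₃ t p)) := fun a => PolyV.dot (PolyV.const a) hn
  have c2 : ∀ a : E3, PolyL (fun p => a ⬝ᵥ (t p ⨯₃ (s p ⨯₃ t p))) :=
    fun a => PolyV.dot (PolyV.const a) hm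
  have neg : ∀ {f : E → ℝ}, PolyL f → PolyL (fun p => - f p) := by
    intro f hf
    have := PolyL.sub (PolyL.const (E := E) 0) hf
    simpa using this
  refine PolyL.add (PolyL.mul (PolyL.mul (PolyL.mul (PolyL.mul (PolyL.const _) (c1 a1)) (c1 a2))
    (c2 x)) (PolyL.const _)) (PolyL.mul (c1 x) (PolyL.sub (neg ?_) ?_))
  · exact PolyL.mul (PolyL.mul (PolyL.mul (c1 a2) (c2 a1)) (PolyL.const _)) (PolyL.const _)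
  · exact PolyL.mul (PolyL.mul (PolyL.mul (c1 a1) (c2 a2)) (PolyL.const _)) (PolyL.const _)

/-- the matrix of the general solution -/
noncomputable def lv05_g (a1 a2 b1 b2 d1 d2 s1 s2 l : E3) : Matrix (Fin 3) (Fin 3) ℝ :=
  l 1 • lv05_M a1 a2 b1 b2 d1 s1 s2 + l 2 • lv05_M a1 a2 b1 b2 d2 s2 s1 +
    l 0 • vecMulVec (b1 ⨯₃ b2) (s1 ⨯₃ s2)

theorem lv05_g_mul (a1 a2 b1 b2 d1 d2 s1 s2 l x y : E3) :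
    (lv05_g a1 a2 b1 b2 d1 d2 s1 s2 l *ᵥ x) ⬝ᵥ y =
      l 1 * lv05_f a1 a2 b1 b2 d1 x y s1 s2 + l 2 * lv05_f a1 a2 b1 b2 d2 x y s2 s1 +
      l 0 * ((x ⬝ᵥ (s1 ⨯₃ s2)) * ((b1 ⨯₃ b2) ⬝ᵥ y)) := by
  unfold lv05_g
  rw [add_mulVec, add_mulVec, smul_mulVec, smul_mulVec, smul_mulVec, lv05_vmv, add_dotProduct,
    add_dotProduct, smul_dotProduct, smul_dotProduct, smul_dotProduct, smul_dotProduct,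
    lv05_M_mul, lv05_M_mul, dotProduct_comm (s1 ⨯₃ s2) x]
  simp only [smul_eq_mul]

theorem lv05_gpoly (a1 a2 b1 b2 c1 c2 d1 d2 x y : E3) :
    PolyL (fun p : E3 × E3 × E3 =>
      (lv05_g a1 a2 b1 b2 d1 d2 (c1 ⨯₃ p.1) (c2 ⨯₃ p.2.1) p.2.2 *ᵥ x) ⬝ᵥ y) := by
  simp only [lv05_g_mul]
  have hs1 : PolyV (fun p : E3 × E3 × E3 => c1 ⨯₃ p.1) :=
    PolyV.cross (PolyV.const c1) (PolyV.lin (LinearMap.fst ℝ E3 (E3 × E3)))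
  have hs2 : PolyV (fun p : E3 × E3 × E3 => c2 ⨯₃ p.2.1) :=
    PolyV.cross (PolyV.const c2) (PolyV.lin ((LinearMap.fst ℝ E3 E3) ∘ₗ
      (LinearMap.snd ℝ E3 (E3 × E3))))
  have hl : ∀ i, PolyL (fun p : E3 × E3 × E3 => p.2.2 i) := fun i =>
    PolyV.lin ((LinearMap.snd ℝ E3 E3) ∘ₗ (LinearMap.snd ℝ E3 (E3 × E3))) i
  exact PolyL.add (PolyL.add (PolyL.mul (hl 1) (lv05_fpoly _ _ _ _ _ _ _ hs1 hs2))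
    (PolyL.mul (hl 2) (lv05_fpoly _ _ _ _ _ _ _ hs2 hs1)))
    (PolyL.mul (hl 0) (PolyL.mul (PolyV.dot (PolyV.const x) (PolyV.cross hs1 hs2))
      (PolyL.const _)))

theorem lv05_detid (g : Matrix (Fin 3) (Fin 3) ℝ) (u v w : E3) :
    (g *ᵥ u) ⬝ᵥ ((g *ᵥ v) ⨯₃ (g *ᵥ w)) = g.det * (u ⬝ᵥ (v ⨯₃ w)) := by
  rw [det_fin_three]
  simp [cross_apply, dotProduct, mulVec, Fin.sum_univ_three]
  ring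

theorem lv05_span (b1 b2 y : E3) (hb : b1 ⨯₃ b2 ≠ 0) (h : (b1 ⨯₃ b2) ⬝ᵥ y = 0) :
    ∃ u1 u2 : ℝ, y = u1 • b1 + u2 • b2 := by
  have hR : (b1 ⨯₃ b2) ⬝ᵥ (b1 ⨯₃ b2) ≠ 0 := fun h1 => hb (lv05_ds.1 h1)
  refine ⟨(y ⬝ᵥ (b2 ⨯₃ (b1 ⨯₃ b2))) / ((b1 ⨯₃ b2) ⬝ᵥ (b1 ⨯₃ b2)),
    (y ⬝ᵥ ((b1 ⨯₃ b2) ⨯₃ b1)) / ((b1 ⨯₃ b2) ⬝ᵥ (b1 ⨯₃ b2)), ?_⟩
  have e : ((b1 ⨯₃ b2) ⬝ᵥ (b1 ⨯₃ b2)) • y = (y ⬝ᵥ (b2 ⨯₃ (b1 ⨯₃ b2))) • b1 +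
      (y ⬝ᵥ ((b1 ⨯₃ b2) ⨯₃ b1)) • b2 + ((b1 ⨯₃ b2) ⬝ᵥ y) • (b1 ⨯₃ b2) := by
    ext i
    fin_cases i <;> simp [cross_apply, dotProduct, Fin.sum_univ_three] <;> ring
  rw [h, zero_smul, add_zero] at e
  rw [div_eq_inv_mul, div_eq_inv_mul, mul_smul, mul_smul, ← smul_add, ← e, smul_smul,
    inv_mul_cancel₀ hR, one_smul]

/-- a common multiple is perpendicular -/
theorem lv05_perp {v c a : E3} (hv : v ≠ 0) (h : v ⨯₃ c = 0) (ha : a ⬝ᵥ v = 0) : a ⬝ᵥ c = 0 := by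
  obtain ⟨k, rfl⟩ := exists_smul_of_cross_eq_zero hv h
  rw [dotProduct_smul, ha, smul_zero]

theorem lv05_par {v c c' : E3} (hv : v ≠ 0) (h : v ⨯₃ c = 0) (h' : v ⨯₃ c' = 0) :
    c ⨯₃ c' = 0 := by
  obtain ⟨k, rfl⟩ := exists_smul_of_cross_eq_zero hv h
  simp [h']


theorem lv05_comb (a1 a2 b1 b2 c c' d x : E3) (u1 u2 : ℝ) (hb : b1 ⨯₃ b2 ≠ 0)
    (hc : c ⨯₃ c' ≠ 0) (hx : x ≠ 0)
    (h : ∃ w w' : E3, u1 * (d ⬝ᵥ b1) * (a2 ⬝ᵥ ((c ⨯₃ w) ⨯₃ (c' ⨯₃ w'))) *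
        ((a1 ⨯₃ x) ⬝ᵥ (c' ⨯₃ w')) +
      u2 * (d ⬝ᵥ b2) * (a1 ⬝ᵥ ((c ⨯₃ w) ⨯₃ (c' ⨯₃ w'))) * ((a2 ⨯₃ x) ⬝ᵥ (c' ⨯₃ w')) ≠ 0) :
    ∃ w w' : E3, lv05_f a1 a2 b1 b2 d x (u1 • b1 + u2 • b2) (c ⨯₃ w) (c' ⨯₃ w') ≠ 0 := by
  have hs : PolyV (fun p : E3 × E3 => c ⨯₃ p.1) :=
    PolyV.cross (PolyV.const c) (PolyV.lin (LinearMap.fst ℝ E3 E3))
  have ht : PolyV (fun p : E3 × E3 => c' ⨯₃ p.2) :=
    PolyV.cross (PolyV.const c') (PolyV.lin (LinearMap.snd ℝ E3 E3))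
  have hn := PolyV.cross hs ht
  have hex : ∃ p : E3 × E3, ∀ i ∈ (Finset.univ : Finset (Fin 2)),
      ![u1 * (d ⬝ᵥ b1) *
        (a2 ⬝ᵥ ((c ⨯₃ p.1) ⨯₃ (c' ⨯₃ p.2))) * ((a1 ⨯₃ x) ⬝ᵥ (c' ⨯₃ p.2)) +
      u2 * (d ⬝ᵥ b2) * (a1 ⬝ᵥ ((c ⨯₃ p.1) ⨯₃ (c' ⨯₃ p.2))) * ((a2 ⨯₃ x) ⬝ᵥ (c' ⨯₃ p.2)),
      x ⬝ᵥ ((c ⨯₃ p.1) ⨯₃ (c' ⨯₃ p.2))] i ≠ 0 := by
    refine exists_common (Finset.univ : Finset (Fin 2))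
      (fun (i : Fin 2) (p : E3 × E3) => ![u1 * (d ⬝ᵥ b1) *
        (a2 ⬝ᵥ ((c ⨯₃ p.1) ⨯₃ (c' ⨯₃ p.2))) * ((a1 ⨯₃ x) ⬝ᵥ (c' ⨯₃ p.2)) +
      u2 * (d ⬝ᵥ b2) * (a1 ⬝ᵥ ((c ⨯₃ p.1) ⨯₃ (c' ⨯₃ p.2))) * ((a2 ⨯₃ x) ⬝ᵥ (c' ⨯₃ p.2)),
      x ⬝ᵥ ((c ⨯₃ p.1) ⨯₃ (c' ⨯₃ p.2))] i) ?_ ?_
    · intro i _
      fin_cases i
      · simp only [Fin.zero_eta, Matrix.cons_val_zero]
        exact PolyL.add (PolyL.mul (PolyL.mul (PolyL.const _) (PolyV.dot (PolyV.const _) hn))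
          (PolyV.dot (PolyV.const _) ht)) (PolyL.mul (PolyL.mul (PolyL.const _)
          (PolyV.dot (PolyV.const _) hn)) (PolyV.dot (PolyV.const _) ht))
      · simp only [Fin.mk_one, Matrix.cons_val_one, Matrix.cons_val]
        exact PolyV.dot (PolyV.const _) hn
    · intro i _
      fin_cases i
      · simp only [Fin.zero_eta, Matrix.cons_val_zero]
        obtain ⟨w, w', h⟩ := h
        exact ⟨(w, w'), h⟩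
      · simp only [Fin.mk_one, Matrix.cons_val_one, Matrix.cons_val]
        obtain ⟨w, w', h⟩ := lv05_D x c c' hx hc
        exact ⟨(w, w'), h⟩
  obtain ⟨p, hp⟩ := hex
  have h0 := hp 0 (Finset.mem_univ _)
  have h1 := hp 1 (Finset.mem_univ _)
  simp only [Matrix.cons_val_zero, Matrix.cons_val_one] at h0 h1
  refine ⟨p.1, p.2, ?_⟩
  rw [lv05_P4]
  refine mul_ne_zero (mul_ne_zero ?_ ?_) h0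
  · exact fun h => hb (lv05_ds.1 h)
  · intro h
    rw [lv05_ds.1 h] at h1
    simp at h1

theorem lv05_alt (a1 a2 b1 b2 c c' d x : E3) (u1 u2 : ℝ) (hp : (a1 ⨯₃ a2) ⨯₃ c' ≠ 0)
    (hb : b1 ⨯₃ b2 ≠ 0) (hc : c ⨯₃ c' ≠ 0) (hx : x ≠ 0)
    (hno : ∀ w w' : E3,
      lv05_f a1 a2 b1 b2 d x (u1 • b1 + u2 • b2) (c ⨯₃ w) (c' ⨯₃ w') = 0) :
    (u1 * (d ⬝ᵥ b1) = 0 ∨ (a1 ⨯₃ x) ⨯₃ c' = 0) ∧ (u2 * (d ⬝ᵥ b2) = 0 ∨ (a2 ⨯₃ x) ⨯₃ c' = 0) := by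
  constructor
  · by_contra h
    push Not at h
    obtain ⟨w, w', hw⟩ := lv05_comb a1 a2 b1 b2 c c' d x u1 u2 hb hc hx
      (lv05_Q a1 a2 x c c' _ _ hp hc h.1 h.2)
    exact hw (hno w w')
  · by_contra h
    push Not at h
    have hp' : (a2 ⨯₃ a1) ⨯₃ c' ≠ 0 := by
      intro h1
      apply hp
      rw [← cross_anticomm a2 a1, map_neg, LinearMap.neg_apply, h1, neg_zero]
    obtain ⟨w, w', hw⟩ := lv05_Q a2 a1 x c c' (u2 * (d ⬝ᵥ b2)) (u1 * (d ⬝ᵥ b1)) hp' hc h.1 h.2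
    rw [add_comm] at hw
    obtain ⟨w, w', hw⟩ := lv05_comb a1 a2 b1 b2 c c' d x u1 u2 hb hc hx ⟨w, w', hw⟩
    exact hw (hno w w')

theorem lv05_F1 {a1 a2 c : E3} (ha : a1 ⨯₃ a2 ≠ 0) (h : ¬ (a1 ⬝ᵥ c = 0 ∧ a2 ⬝ᵥ c = 0)) :
    (a1 ⨯₃ a2) ⨯₃ c ≠ 0 := fun h1 =>
  h ⟨lv05_perp ha h1 (dot_self_cross a1 a2), lv05_perp ha h1 (dot_cross_self a1 a2)⟩

theorem lv05_key (a1 a2 b1 b2 c1 c2 d1 d2 : E3)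
    (ha : a1 ⨯₃ a2 ≠ 0) (hb : b1 ⨯₃ b2 ≠ 0) (hc : c1 ⨯₃ c2 ≠ 0)
    (F1 : ∀ c ∈ [c1, c2], ¬ (a1 ⬝ᵥ c = 0 ∧ a2 ⬝ᵥ c = 0))
    (F2 : ∀ b ∈ [b1, b2], ¬ (d1 ⬝ᵥ b = 0 ∧ d2 ⬝ᵥ b = 0))
    (F3 : ∀ p ∈ [(a1, b1), (a2, b2)], ∀ q ∈ [(c1, d1), (c2, d2)],
      ¬ (p.1 ⬝ᵥ q.1 = 0 ∧ q.2 ⬝ᵥ p.2 = 0))
    (x y : E3) (hx : x ≠ 0) (hy : y ≠ 0) (h1 : ¬ (Par x a1 ∧ Par y b1))
    (h2 : ¬ (Par x a2 ∧ Par y b2)) :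
    ∃ p : E3 × E3 × E3,
      (lv05_g a1 a2 b1 b2 d1 d2 (c1 ⨯₃ p.1) (c2 ⨯₃ p.2.1) p.2.2 *ᵥ x) ⬝ᵥ y ≠ 0 := by
  by_cases ho : (b1 ⨯₃ b2) ⬝ᵥ y = 0
  swap
  · obtain ⟨w, w', hw⟩ := lv05_D x c1 c2 hx hc
    refine ⟨(w, w', ![1, 0, 0]), ?_⟩
    rw [lv05_g_mul]
    simp only [Matrix.cons_val_zero, Matrix.cons_val_one, Matrix.cons_val]
    simp only [zero_mul, zero_add, one_mul]
    exact mul_ne_zero hw ho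
  · obtain ⟨u1, u2, rfl⟩ := lv05_span b1 b2 y hb ho
    by_contra hcon
    push Not at hcon
    have k1 : ∀ w w' : E3,
        lv05_f a1 a2 b1 b2 d1 x (u1 • b1 + u2 • b2) (c1 ⨯₃ w) (c2 ⨯₃ w') = 0 := by
      intro w w'
      have := hcon (w, w', ![0, 1, 0])
      rw [lv05_g_mul] at this
      simp only [Matrix.cons_val_zero, Matrix.cons_val_one, Matrix.cons_val] at this
      simpa using this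
    have k2 : ∀ w w' : E3,
        lv05_f a1 a2 b1 b2 d2 x (u1 • b1 + u2 • b2) (c2 ⨯₃ w) (c1 ⨯₃ w') = 0 := by
      intro w w'
      have := hcon (w', w, ![0, 0, 1])
      rw [lv05_g_mul] at this
      simp only [Matrix.cons_val_zero, Matrix.cons_val_one, Matrix.cons_val] at this
      simpa using this
    have hc' : c2 ⨯₃ c1 ≠ 0 := by
      intro h1
      apply hc
      rw [← cross_anticomm, h1, neg_zero]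
    have F11 := F1 c1 (by simp)
    have F12 := F1 c2 (by simp)
    have F21 := F2 b1 (by simp)
    have F22 := F2 b2 (by simp)
    have F311 := F3 (a1, b1) (by simp) (c1, d1) (by simp)
    have F312 := F3 (a1, b1) (by simp) (c2, d2) (by simp)
    have F321 := F3 (a2, b2) (by simp) (c1, d1) (by simp)
    have F322 := F3 (a2, b2) (by simp) (c2, d2) (by simp)
    simp only at F311 F312 F321 F322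
    obtain ⟨e11, e12⟩ := lv05_alt a1 a2 b1 b2 c1 c2 d1 x u1 u2 (lv05_F1 ha F12) hb hc hx k1
    obtain ⟨e21, e22⟩ := lv05_alt a1 a2 b1 b2 c2 c1 d2 x u1 u2 (lv05_F1 ha F11) hb hc' hx k2
    unfold Par at h1 h2
    have ha1 : a1 ≠ 0 := by
      rintro rfl
      simp at ha
    have ha2 : a2 ≠ 0 := by
      rintro rfl
      simp at ha
    -- `a ⬝ᵥ c = 0` when `(a ⨯₃ x) ⨯₃ c = 0` and `a`, `x` are independent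
    have pp : ∀ a c : E3, a ⨯₃ x ≠ 0 → (a ⨯₃ x) ⨯₃ c = 0 → a ⬝ᵥ c = 0 ∧ x ⬝ᵥ c = 0 :=
      fun a c h h' => ⟨lv05_perp h h' (dot_self_cross a x), lv05_perp h h' (dot_cross_self a x)⟩
    by_cases p1 : a1 ⨯₃ x = 0
    · -- x parallel to a1
      obtain ⟨k, rfl⟩ := exists_smul_of_cross_eq_zero ha1 p1
      have hk : k ≠ 0 := by
        rintro rfl
        simp at hx
      have q2 : a2 ⨯₃ (k • a1) ≠ 0 := by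
        rw [LinearMap.map_smul, ← cross_anticomm, smul_neg]
        simp [hk, ha]
      have hu2 : u2 ≠ 0 := by
        rintro rfl
        apply h1
        constructor
        · simp
        · simp
      have z1 : d1 ⬝ᵥ b2 = 0 := by
        rcases e12 with e | e
        · exact (mul_eq_zero.1 e).resolve_left hu2
        · have := pp a2 c2 q2 e
          rw [smul_dotProduct, smul_eq_mul, mul_eq_zero] at this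
          exact absurd ⟨this.2.resolve_left hk, this.1⟩ F12
      have z2 : d2 ⬝ᵥ b2 = 0 := by
        rcases e22 with e | e
        · exact (mul_eq_zero.1 e).resolve_left hu2
        · have := pp a2 c1 q2 e
          rw [smul_dotProduct, smul_eq_mul, mul_eq_zero] at this
          exact absurd ⟨this.2.resolve_left hk, this.1⟩ F11
      exact F22 ⟨z1, z2⟩
    by_cases p2 : a2 ⨯₃ x = 0
    · obtain ⟨k, rfl⟩ := exists_smul_of_cross_eq_zero ha2 p2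
      have hk : k ≠ 0 := by
        rintro rfl
        simp at hx
      have hu1 : u1 ≠ 0 := by
        rintro rfl
        apply h2
        constructor
        · simp
        · simp
      have z1 : d1 ⬝ᵥ b1 = 0 := by
        rcases e11 with e | e
        · exact (mul_eq_zero.1 e).resolve_left hu1
        · have := pp a1 c2 p1 e
          rw [smul_dotProduct, smul_eq_mul, mul_eq_zero] at this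
          exact absurd ⟨this.1, this.2.resolve_left hk⟩ F12
      have z2 : d2 ⬝ᵥ b1 = 0 := by
        rcases e21 with e | e
        · exact (mul_eq_zero.1 e).resolve_left hu1
        · have := pp a1 c1 p1 e
          rw [smul_dotProduct, smul_eq_mul, mul_eq_zero] at this
          exact absurd ⟨this.1, this.2.resolve_left hk⟩ F11
      exact F21 ⟨z1, z2⟩
    have hu1 : u1 = 0 := by
      by_contra hu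
      rcases e11 with e | e
      · have e' := (mul_eq_zero.1 e).resolve_left hu
        rcases e21 with f | f
        · exact F21 ⟨e', (mul_eq_zero.1 f).resolve_left hu⟩
        · exact F311 ⟨(pp a1 c1 p1 f).1, e'⟩
      · rcases e21 with f | f
        · exact F312 ⟨(pp a1 c2 p1 e).1, (mul_eq_zero.1 f).resolve_left hu⟩
        · exact hc (lv05_par p1 f e)
    have hu2 : u2 = 0 := by
      by_contra hu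
      rcases e12 with e | e
      · have e' := (mul_eq_zero.1 e).resolve_left hu
        rcases e22 with f | f
        · exact F22 ⟨e', (mul_eq_zero.1 f).resolve_left hu⟩
        · exact F321 ⟨(pp a2 c1 p2 f).1, e'⟩
      · rcases e22 with f | f
        · exact F322 ⟨(pp a2 c2 p2 e).1, (mul_eq_zero.1 f).resolve_left hu⟩
        · exact hc (lv05_par p2 f e)
    apply hy
    rw [hu1, hu2]
    simp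

theorem lv05_vec {u v : E3} (h : ∀ y : E3, u ⬝ᵥ y = v ⬝ᵥ y) : u = v := by
  have := h (u - v)
  rw [← sub_eq_zero, ← sub_dotProduct, lv05_ds, sub_eq_zero] at this
  exact this

theorem glue22_first (a1 a2 b1 b2 c1 c2 d1 d2 : E3)
    (ha : ¬ Par a1 a2) (hb : ¬ Par b1 b2) (hc : ¬ Par c1 c2) (hd : ¬ Par d1 d2)
    (F1 : ∀ c ∈ [c1, c2], ¬ (a1 ⬝ᵥ c = 0 ∧ a2 ⬝ᵥ c = 0))
    (F2 : ∀ b ∈ [b1, b2], ¬ (d1 ⬝ᵥ b = 0 ∧ d2 ⬝ᵥ b = 0))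
    (F3 : ∀ p ∈ [(a1, b1), (a2, b2)], ∀ q ∈ [(c1, d1), (c2, d2)],
      ¬ (p.1 ⬝ᵥ q.1 = 0 ∧ q.2 ⬝ᵥ p.2 = 0))
    (A : Finset (E3 × E3))
    (hA : ∀ e ∈ A, e.1 ≠ 0 ∧ e.2 ≠ 0 ∧ ¬ (Par e.1 a1 ∧ Par e.2 b1) ∧ ¬ (Par e.1 a2 ∧ Par e.2 b2)) :
    ∃ g h, GG a1 a2 b1 b2 c1 c2 d1 d2 g h ∧ ∀ e ∈ A, (g *ᵥ e.1) ⬝ᵥ e.2 ≠ 0 := by
  classical
  have ha' : a1 ⨯₃ a2 ≠ 0 := ha
  have hb' : b1 ⨯₃ b2 ≠ 0 := hb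
  have hc' : c1 ⨯₃ c2 ≠ 0 := hc
  have hd' : d1 ⨯₃ d2 ≠ 0 := hd
  have ha1 : a1 ≠ 0 := by
    rintro rfl
    simp at ha'
  have ha2 : a2 ≠ 0 := by
    rintro rfl
    simp at ha'
  have hA' : ∀ e ∈ insert (a1, d1 ⨯₃ d2) A, e.1 ≠ 0 ∧ e.2 ≠ 0 ∧
      ¬ (Par e.1 a1 ∧ Par e.2 b1) ∧ ¬ (Par e.1 a2 ∧ Par e.2 b2) := by
    intro e he
    rcases Finset.mem_insert.1 he with rfl | he
    · refine ⟨ha1, hd', ?_, fun h => ha h.1⟩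
      rintro ⟨-, h⟩
      exact F2 b1 (by simp) ⟨lv05_perp hd' h (dot_self_cross d1 d2),
        lv05_perp hd' h (dot_cross_self d1 d2)⟩
    · exact hA e he
  have hs1 : PolyV (fun p : E3 × E3 × E3 => c1 ⨯₃ p.1) :=
    PolyV.cross (PolyV.const c1) (PolyV.lin (LinearMap.fst ℝ E3 (E3 × E3)))
  have hs2 : PolyV (fun p : E3 × E3 × E3 => c2 ⨯₃ p.2.1) :=
    PolyV.cross (PolyV.const c2) (PolyV.lin ((LinearMap.fst ℝ E3 E3) ∘ₗ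
      (LinearMap.snd ℝ E3 (E3 × E3))))
  have hl : ∀ i, PolyL (fun p : E3 × E3 × E3 => p.2.2 i) := fun i =>
    PolyV.lin ((LinearMap.snd ℝ E3 E3) ∘ₗ (LinearMap.snd ℝ E3 (E3 × E3))) i
  have hn := PolyV.cross hs1 hs2
  set F : Fin 6 ⊕ (E3 × E3) → E3 × E3 × E3 → ℝ := fun i p => match i with
    | Sum.inl 0 => a1 ⬝ᵥ ((c1 ⨯₃ p.1) ⨯₃ (c2 ⨯₃ p.2.1))
    | Sum.inl 1 => a2 ⬝ᵥ ((c1 ⨯₃ p.1) ⨯₃ (c2 ⨯₃ p.2.1))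
    | Sum.inl 2 => (c1 ⨯₃ p.1) ⬝ᵥ (a1 ⨯₃ a2)
    | Sum.inl 3 => (c2 ⨯₃ p.2.1) ⬝ᵥ (a1 ⨯₃ a2)
    | Sum.inl 4 => p.2.2 1
    | Sum.inl 5 => p.2.2 2
    | Sum.inr e => (lv05_g a1 a2 b1 b2 d1 d2 (c1 ⨯₃ p.1) (c2 ⨯₃ p.2.1) p.2.2 *ᵥ e.1) ⬝ᵥ e.2
    with hF
  have hex : ∃ p, ∀ i ∈ Finset.disjSum (Finset.univ : Finset (Fin 6))
      (insert (a1, d1 ⨯₃ d2) A), F i p ≠ 0 := by
    refine exists_common _ F ?_ ?_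
    · rintro (i | e) -
      · fin_cases i
        · exact PolyV.dot (PolyV.const _) hn
        · exact PolyV.dot (PolyV.const _) hn
        · exact PolyV.dot hs1 (PolyV.const _)
        · exact PolyV.dot hs2 (PolyV.const _)
        · exact hl 1
        · exact hl 2
      · exact lv05_gpoly a1 a2 b1 b2 c1 c2 d1 d2 e.1 e.2
    · rintro (i | e) hi
      · fin_cases i
        · obtain ⟨w, w', h⟩ := lv05_D a1 c1 c2 ha1 hc'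
          exact ⟨(w, w', 0), h⟩
        · obtain ⟨w, w', h⟩ := lv05_D a2 c1 c2 ha2 hc'
          exact ⟨(w, w', 0), h⟩
        · obtain ⟨w, h⟩ := lv05_lin (a1 ⨯₃ a2) c1 (lv05_F1 ha' (F1 c1 (by simp)))
          exact ⟨(w, 0, 0), h⟩
        · obtain ⟨w, h⟩ := lv05_lin (a1 ⨯₃ a2) c2 (lv05_F1 ha' (F1 c2 (by simp)))
          exact ⟨(0, w, 0), h⟩
        · exact ⟨(0, 0, fun _ => 1), one_ne_zero⟩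
        · exact ⟨(0, 0, fun _ => 1), one_ne_zero⟩
      · have he : e ∈ insert (a1, d1 ⨯₃ d2) A := Finset.inr_mem_disjSum.1 hi
        obtain ⟨q1, q2, q3, q4⟩ := hA' e he
        exact lv05_key a1 a2 b1 b2 c1 c2 d1 d2 ha' hb' hc' F1 F2 F3 e.1 e.2 q1 q2 q3 q4
  obtain ⟨p, hp⟩ := hex
  have h0 : a1 ⬝ᵥ ((c1 ⨯₃ p.1) ⨯₃ (c2 ⨯₃ p.2.1)) ≠ 0 := hp (Sum.inl 0) (by simp)
  have h1 : a2 ⬝ᵥ ((c1 ⨯₃ p.1) ⨯₃ (c2 ⨯₃ p.2.1)) ≠ 0 := hp (Sum.inl 1) (by simp)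
  have h2 : (c1 ⨯₃ p.1) ⬝ᵥ (a1 ⨯₃ a2) ≠ 0 := hp (Sum.inl 2) (by simp)
  have h3 : (c2 ⨯₃ p.2.1) ⬝ᵥ (a1 ⨯₃ a2) ≠ 0 := hp (Sum.inl 3) (by simp)
  have h4 : p.2.2 1 ≠ 0 := hp (Sum.inl 4) (by simp)
  have h5 : p.2.2 2 ≠ 0 := hp (Sum.inl 5) (by simp)
  have h6 : ∀ e ∈ insert (a1, d1 ⨯₃ d2) A,
      (lv05_g a1 a2 b1 b2 d1 d2 (c1 ⨯₃ p.1) (c2 ⨯₃ p.2.1) p.2.2 *ᵥ e.1) ⬝ᵥ e.2 ≠ 0 :=
    fun e he => hp (Sum.inr e) (Finset.inr_mem_disjSum.2 he)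
  have sc1 : (c1 ⨯₃ p.1) ⬝ᵥ c1 = 0 := by
    rw [dotProduct_comm]; exact dot_self_cross _ _
  have sc2 : (c2 ⨯₃ p.2.1) ⬝ᵥ c2 = 0 := by
    rw [dotProduct_comm]; exact dot_self_cross _ _
  generalize c1 ⨯₃ p.1 = s1 at *
  generalize c2 ⨯₃ p.2.1 = s2 at *
  generalize p.2.2 = l at *
  clear hp hF hs1 hs2 hl hn
  have hR : (b1 ⨯₃ b2) ⬝ᵥ (b1 ⨯₃ b2) ≠ 0 := fun h => hb' (lv05_ds.1 h)
  have hN : (s1 ⨯₃ s2) ⬝ᵥ (s1 ⨯₃ s2) ≠ 0 := by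
    intro h
    rw [lv05_ds.1 h] at h0
    simp at h0
  have hN' : (s2 ⨯₃ s1) ⬝ᵥ (s2 ⨯₃ s1) ≠ 0 := by
    rw [← cross_anticomm s1 s2, neg_dotProduct_neg]
    exact hN
  have h0' : a1 ⬝ᵥ (s2 ⨯₃ s1) ≠ 0 := by
    rw [← cross_anticomm s1 s2, dotProduct_neg]
    exact neg_ne_zero.2 h0
  have h1' : a2 ⬝ᵥ (s2 ⨯₃ s1) ≠ 0 := by
    rw [← cross_anticomm s1 s2, dotProduct_neg]
    exact neg_ne_zero.2 h1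
  obtain ⟨g, hg⟩ : ∃ g, g = lv05_g a1 a2 b1 b2 d1 d2 s1 s2 l := ⟨_, rfl⟩
  rw [← hg] at h6
  obtain ⟨m1, hm1, gs1⟩ : ∃ m1 : ℝ, m1 ≠ 0 ∧ g *ᵥ s1 = m1 • d1 := by
    refine ⟨l 1 * ((b1 ⨯₃ b2) ⬝ᵥ (b1 ⨯₃ b2) * (a1 ⬝ᵥ (s1 ⨯₃ s2)) * (a2 ⬝ᵥ (s1 ⨯₃ s2)) *
      ((s1 ⨯₃ s2) ⬝ᵥ (s1 ⨯₃ s2))), ?_, ?_⟩
    · exact mul_ne_zero h4 (mul_ne_zero (mul_ne_zero (mul_ne_zero hR h0) h1) hN)
    · apply lv05_vec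
      intro y
      rw [hg, lv05_g_mul, lv05_P2, lv05_P3, dot_self_cross, smul_dotProduct, smul_eq_mul]
      ring
  obtain ⟨m2, hm2, gs2⟩ : ∃ m2 : ℝ, m2 ≠ 0 ∧ g *ᵥ s2 = m2 • d2 := by
    refine ⟨l 2 * ((b1 ⨯₃ b2) ⬝ᵥ (b1 ⨯₃ b2) * (a1 ⬝ᵥ (s2 ⨯₃ s1)) * (a2 ⬝ᵥ (s2 ⨯₃ s1)) *
      ((s2 ⨯₃ s1) ⬝ᵥ (s2 ⨯₃ s1))), ?_, ?_⟩
    · exact mul_ne_zero h5 (mul_ne_zero (mul_ne_zero (mul_ne_zero hR h0') h1') hN')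
    · apply lv05_vec
      intro y
      rw [hg, lv05_g_mul, lv05_P2, lv05_P3, dot_cross_self, smul_dotProduct, smul_eq_mul]
      ring
  have hdet : g.det ≠ 0 := by
    intro h
    have e := lv05_detid g a1 s1 s2
    rw [h, zero_mul, gs1, gs2, LinearMap.map_smul, LinearMap.map_smul, LinearMap.smul_apply,
      dotProduct_smul, dotProduct_smul, smul_eq_mul, smul_eq_mul, mul_eq_zero, mul_eq_zero] at e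
    have := h6 (a1, d1 ⨯₃ d2) (Finset.mem_insert_self _ _)
    rcases e with e | e | e
    · exact hm2 e
    · exact hm1 e
    · exact this e
  have hu : IsUnit g.det := isUnit_iff_ne_zero.2 hdet
  have gh : g * g⁻¹ = 1 := mul_nonsing_inv g hu
  have hg1 : g⁻¹ * g = 1 := nonsing_inv_mul g hu
  have hd1 : g⁻¹ *ᵥ d1 = m1⁻¹ • s1 := by
    have : g⁻¹ *ᵥ (g *ᵥ s1) = s1 := by rw [mulVec_mulVec, hg1, one_mulVec]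
    rw [gs1, mulVec_smul] at this
    rw [← this, smul_smul, inv_mul_cancel₀ hm1, one_smul]
  have hd2 : g⁻¹ *ᵥ d2 = m2⁻¹ • s2 := by
    have : g⁻¹ *ᵥ (g *ᵥ s2) = s2 := by rw [mulVec_mulVec, hg1, one_mulVec]
    rw [gs2, mulVec_smul] at this
    rw [← this, smul_smul, inv_mul_cancel₀ hm2, one_smul]
  have im1 : m1⁻¹ ≠ 0 := inv_ne_zero hm1
  have im2 : m2⁻¹ ≠ 0 := inv_ne_zero hm2
  refine ⟨g, g⁻¹, ⟨gh, hg1, ?_, ?_, ?_, ?_, ?_, ?_, ?_, ?_⟩, ?_⟩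
  · rw [hg, lv05_g_mul, lv05_P1, lv05_P1, dotProduct_comm (b1 ⨯₃ b2) b1, dot_self_cross]
    ring
  · rw [hg, lv05_g_mul, lv05_P1', lv05_P1', dotProduct_comm (b1 ⨯₃ b2) b2, dot_cross_self]
    ring
  · rw [hd1, smul_dotProduct, sc1, smul_zero]
  · rw [hd2, smul_dotProduct, sc2, smul_zero]
  · rw [hd1, smul_dotProduct, smul_eq_mul]
    exact mul_ne_zero im1 h2
  · rw [hd2, smul_dotProduct, smul_eq_mul]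
    exact mul_ne_zero im2 h3
  · rw [hd1, hd2, LinearMap.map_smul, LinearMap.map_smul, LinearMap.smul_apply,
      dotProduct_smul, dotProduct_smul, smul_eq_mul, smul_eq_mul]
    exact mul_ne_zero (by assumption) (mul_ne_zero (by assumption) h0)
  · rw [hd1, hd2, LinearMap.map_smul, LinearMap.map_smul, LinearMap.smul_apply,
      dotProduct_smul, dotProduct_smul, smul_eq_mul, smul_eq_mul]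
    exact mul_ne_zero (by assumption) (mul_ne_zero (by assumption) h1)
  · exact fun e he => h6 e (Finset.mem_insert_of_mem he)

end Pool.Agent.Levi3
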