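import Pool.Agent.Levi3.Defs
import Pool.Agent.Levi3.LV01

/-! LV06 : GlueComb -/

namespace Pool.Agent.Levi3

open Matrix Finset

/-- the interpolation matrix -/
private def lv06_M (p1 p2 p3 p4 : E3) : Matrix (Fin 3) (Fin 3) ℝ :=
  Matrix.of fun i j => (![p4 ⬝ᵥ (p2 ⨯₃ p3) * p1 i, p1 ⬝ᵥ (p4 ⨯₃ p3) * p2 i,
    p1 ⬝ᵥ (p2 ⨯₃ p4) * p3 i] : Fin 3 → ℝ) j

private theorem lv06_M0 (p1 p2 p3 p4 : E3) :
    lv06_M p1 p2 p3 p4 *ᵥ ![1, 0, 0] = (p4 ⬝ᵥ (p2 ⨯₃ p3)) • p1 := by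
  funext i
  simp [lv06_M, mulVec, dotProduct, Fin.sum_univ_three]

private theorem lv06_M1 (p1 p2 p3 p4 : E3) :
    lv06_M p1 p2 p3 p4 *ᵥ ![0, 1, 0] = (p1 ⬝ᵥ (p4 ⨯₃ p3)) • p2 := by
  funext i
  simp [lv06_M, mulVec, dotProduct, Fin.sum_univ_three]

private theorem lv06_M2 (p1 p2 p3 p4 : E3) :
    lv06_M p1 p2 p3 p4 *ᵥ ![0, 0, 1] = (p1 ⬝ᵥ (p2 ⨯₃ p4)) • p3 := by
  funext i
  simp [lv06_M, mulVec, dotProduct, Fin.sum_univ_three]

private theorem lv06_M3 (p1 p2 p3 p4 : E3) :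
    lv06_M p1 p2 p3 p4 *ᵥ ![1, 1, 1] = (p1 ⬝ᵥ (p2 ⨯₃ p3)) • p4 := by
  funext i
  fin_cases i <;>
  · simp [lv06_M, mulVec, dotProduct, Fin.sum_univ_three, cross_apply]
    ring

private theorem lv06_det (g : Matrix (Fin 3) (Fin 3) ℝ) (u v w : E3) :
    (g *ᵥ u) ⬝ᵥ ((g *ᵥ v) ⨯₃ (g *ᵥ w)) = g.det * (u ⬝ᵥ (v ⨯₃ w)) := by
  rw [triple_product_eq_det, triple_product_eq_det, mul_comm, ← Matrix.det_transpose g,
    ← Matrix.det_mul]
  congr 1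
  ext i j
  fin_cases i <;> simp [Matrix.mul_apply, mulVec, dotProduct, Fin.sum_univ_three] <;> ring

private theorem lv06_map (g : Matrix (Fin 3) (Fin 3) ℝ) (p1 p2 p3 p4 : E3) :
    lv06_M (g *ᵥ p1) (g *ᵥ p2) (g *ᵥ p3) (g *ᵥ p4) = g.det • (g * lv06_M p1 p2 p3 p4) := by
  ext i j
  fin_cases j
  · simp only [lv06_M, Matrix.of_apply, lv06_det, Matrix.smul_apply, Matrix.mul_apply,
      Fin.sum_univ_three, smul_eq_mul]
    simp [mulVec, dotProduct, Fin.sum_univ_three]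
    ring
  · simp only [lv06_M, Matrix.of_apply, lv06_det, Matrix.smul_apply, Matrix.mul_apply,
      Fin.sum_univ_three, smul_eq_mul]
    simp [mulVec, dotProduct, Fin.sum_univ_three]
    ring
  · simp only [lv06_M, Matrix.of_apply, lv06_det, Matrix.smul_apply, Matrix.mul_apply,
      Fin.sum_univ_three, smul_eq_mul]
    simp [mulVec, dotProduct, Fin.sum_univ_three]
    ring

private theorem lv06_Mdet (p1 p2 p3 p4 : E3) :
    (lv06_M p1 p2 p3 p4).det = (p4 ⬝ᵥ (p2 ⨯₃ p3)) * (p1 ⬝ᵥ (p4 ⨯₃ p3)) * (p1 ⬝ᵥ (p2 ⨯₃ p4)) *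
      (p1 ⬝ᵥ (p2 ⨯₃ p3)) := by
  rw [det_fin_three]
  simp only [lv06_M, Matrix.of_apply]
  generalize h1 : p4 ⬝ᵥ (p2 ⨯₃ p3) = k1
  generalize h2 : p1 ⬝ᵥ (p4 ⨯₃ p3) = k2
  generalize h3 : p1 ⬝ᵥ (p2 ⨯₃ p4) = k3
  simp [dotProduct, Fin.sum_univ_three, cross_apply]
  ring

/-- matrix valued functions with polynomial entries -/
private def lv06_P {E : Type} [AddCommGroup E] [Module ℝ E] (F : E → Matrix (Fin 3) (Fin 3) ℝ) :
    Prop := ∀ i j, PolyL (fun x => F x i j)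

section
variable {E : Type} [AddCommGroup E] [Module ℝ E]

private theorem lv06_P_M {p1 p2 p3 p4 : E → E3} (h1 : PolyV p1) (h2 : PolyV p2) (h3 : PolyV p3)
    (h4 : PolyV p4) : lv06_P (fun x => lv06_M (p1 x) (p2 x) (p3 x) (p4 x)) := by
  intro i j
  fin_cases j
  · simpa [lv06_M] using (h4.dot (h2.cross h3)).mul (h1 i)
  · simpa [lv06_M] using (h1.dot (h4.cross h3)).mul (h2 i)
  · simpa [lv06_M] using (h1.dot (h2.cross h4)).mul (h3 i)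

private theorem lv06_P_mul {F G : E → Matrix (Fin 3) (Fin 3) ℝ} (hF : lv06_P F) (hG : lv06_P G) :
    lv06_P (fun x => F x * G x) := by
  intro i j
  have := (((hF i 0).mul (hG 0 j)).add ((hF i 1).mul (hG 1 j))).add ((hF i 2).mul (hG 2 j))
  simpa [Matrix.mul_apply, Fin.sum_univ_three] using this

private theorem lv06_P_det {F : E → Matrix (Fin 3) (Fin 3) ℝ} (hF : lv06_P F) :
    PolyL (fun x => (F x).det) := by
  have := (((((((hF 0 0).mul (hF 1 1)).mul (hF 2 2)).sub (((hF 0 0).mul (hF 1 2)).mul (hF 2 1))).sub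
    (((hF 0 1).mul (hF 1 0)).mul (hF 2 2))).add (((hF 0 1).mul (hF 1 2)).mul (hF 2 0))).add
    (((hF 0 2).mul (hF 1 0)).mul (hF 2 1))).sub (((hF 0 2).mul (hF 1 1)).mul (hF 2 0))
  simpa [det_fin_three] using this

private theorem lv06_P_adj {F : E → Matrix (Fin 3) (Fin 3) ℝ} (hF : lv06_P F) :
    lv06_P (fun x => (F x).adjugate) := by
  have hneg : ∀ {f : E → ℝ}, PolyL f → PolyL (fun x => - f x) := by
    intro f hf
    simpa using (PolyL.const (E := E) 0).sub hf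
  have key : ∀ a b c d i j k l, PolyL (fun x => F x a b * F x c d - F x i j * F x k l) :=
    fun a b c d i j k l => ((hF a b).mul (hF c d)).sub ((hF i j).mul (hF k l))
  intro i j
  simp only [adjugate_fin_three]
  fin_cases i <;> fin_cases j <;> simp
  · exact key 1 1 2 2 1 2 2 1
  · exact (hneg (hF 0 1 |>.mul (hF 2 2))).add (hF 0 2 |>.mul (hF 2 1))
  · exact key 0 1 1 2 0 2 1 1
  · exact (hneg (hF 1 0 |>.mul (hF 2 2))).add (hF 1 2 |>.mul (hF 2 0))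
  · exact key 0 0 2 2 0 2 2 0
  · exact (hneg (hF 0 0 |>.mul (hF 1 2))).add (hF 0 2 |>.mul (hF 1 0))
  · exact key 1 0 2 1 1 1 2 0
  · exact (hneg (hF 0 0 |>.mul (hF 2 1))).add (hF 0 1 |>.mul (hF 2 0))
  · exact key 0 0 1 1 0 1 1 0

private theorem lv06_P_mulVec {F : E → Matrix (Fin 3) (Fin 3) ℝ} (hF : lv06_P F) (u v : E3) :
    PolyL (fun x => (F x *ᵥ u) ⬝ᵥ v) := by
  have h1 : PolyV (fun x => F x *ᵥ u) := by
    intro k
    have := (((hF k 0).mul (PolyL.const (u 0))).add ((hF k 1).mul (PolyL.const (u 1)))).add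
      ((hF k 2).mul (PolyL.const (u 2)))
    simpa [mulVec, dotProduct, Fin.sum_univ_three] using this
  exact h1.dot (PolyV.const v)

end

theorem glue22_comb (a1 a2 b1 b2 c1 c2 d1 d2 : E3)
    (g h g' h' : Matrix (Fin 3) (Fin 3) ℝ)
    (H : GG a1 a2 b1 b2 c1 c2 d1 d2 g h) (H' : GG a1 a2 b1 b2 c1 c2 d1 d2 g' h')
    (A B : Finset (E3 × E3)) (hA : ∀ e ∈ A, (g *ᵥ e.1) ⬝ᵥ e.2 ≠ 0)
    (hB : ∀ e ∈ B, (h' *ᵥ e.1) ⬝ᵥ e.2 ≠ 0) :
    ∃ g'' h'', GG a1 a2 b1 b2 c1 c2 d1 d2 g'' h'' ∧ (∀ e ∈ A, (g'' *ᵥ e.1) ⬝ᵥ e.2 ≠ 0) ∧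
      (∀ e ∈ B, (h'' *ᵥ e.1) ⬝ᵥ e.2 ≠ 0) := by
  classical
  -- interpolation
  let L : E3 → E3 → ℝ → E3 := fun u v x => u + x • (v - u)
  have hL : ∀ u v, PolyV (L u v) := fun u v =>
    (PolyV.const u).add (PolyV.smul (PolyL.lin LinearMap.id) (PolyV.const (v - u)))
  have hL0 : ∀ u v, L u v 0 = u := fun u v => by simp [L]
  have hL1 : ∀ u v, L u v 1 = v := fun u v => by simp [L]
  have hLdot : ∀ u v w x, u ⬝ᵥ w = 0 → v ⬝ᵥ w = 0 → L u v x ⬝ᵥ w = 0 := by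
    intro u v w x hu hv
    simp [L, add_dotProduct, sub_dotProduct, smul_dotProduct, hu, hv]
  let t1 := L (g *ᵥ a1) (g' *ᵥ a1)
  let t2 := L (g *ᵥ a2) (g' *ᵥ a2)
  let s1 := L (h *ᵥ d1) (h' *ᵥ d1)
  let s2 := L (h *ᵥ d2) (h' *ᵥ d2)
  let Ma : ℝ → Matrix (Fin 3) (Fin 3) ℝ := fun x => lv06_M a1 a2 (s1 x) (s2 x)
  let Mt : ℝ → Matrix (Fin 3) (Fin 3) ℝ := fun x => lv06_M (t1 x) (t2 x) d1 d2
  let F : ℝ → Matrix (Fin 3) (Fin 3) ℝ := fun x => Mt x * (Ma x).adjugate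
  have hMa : lv06_P Ma := lv06_P_M (PolyV.const a1) (PolyV.const a2) (hL _ _) (hL _ _)
  have hMt : lv06_P Mt := lv06_P_M (hL _ _) (hL _ _) (PolyV.const d1) (PolyV.const d2)
  have hF : lv06_P F := lv06_P_mul hMt (lv06_P_adj hMa)
  have perm1 : ∀ s : E3, a1 ⬝ᵥ (a2 ⨯₃ s) = s ⬝ᵥ (a1 ⨯₃ a2) := by
    intro s
    exact (triple_product_permutation s a1 a2).symm
  -- the value of F when the interpolated data comes from a gluing
  have hval : ∀ (G K : Matrix (Fin 3) (Fin 3) ℝ), GG a1 a2 b1 b2 c1 c2 d1 d2 G K → ∀ x,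
      t1 x = G *ᵥ a1 → t2 x = G *ᵥ a2 → s1 x = K *ᵥ d1 → s2 x = K *ᵥ d2 →
      F x = (G.det * (Ma x).det) • G ∧ G.det ≠ 0 ∧ (Ma x).det ≠ 0 := by
    intro G K HG x e1 e2 e3 e4
    have hd1 : d1 = G *ᵥ (s1 x) := by rw [e3, mulVec_mulVec, HG.gh, one_mulVec]
    have hd2 : d2 = G *ᵥ (s2 x) := by rw [e4, mulVec_mulVec, HG.gh, one_mulVec]
    refine ⟨?_, ?_, ?_⟩
    · have h1 : Mt x = G.det • (G * Ma x) := by
        show lv06_M (t1 x) (t2 x) d1 d2 = _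
        rw [e1, e2]
        conv_lhs => rw [hd1, hd2]
        rw [lv06_map]
      show Mt x * (Ma x).adjugate = _
      rw [h1, Matrix.smul_mul, Matrix.mul_assoc, Matrix.mul_adjugate, Matrix.mul_smul,
        Matrix.mul_one, smul_smul]
    · intro h0
      have := congrArg Matrix.det HG.gh
      rw [Matrix.det_mul, h0] at this
      simp at this
    · show (lv06_M a1 a2 (s1 x) (s2 x)).det ≠ 0
      rw [lv06_Mdet, e3, e4]
      have q1 := HG.g1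
      have q2 := HG.g2
      have q3 := HG.g3
      have q4 := HG.g4
      refine mul_ne_zero (mul_ne_zero (mul_ne_zero ?_ ?_) ?_) ?_
      · have : (K *ᵥ d2) ⬝ᵥ (a2 ⨯₃ (K *ᵥ d1)) = a2 ⬝ᵥ ((K *ᵥ d1) ⨯₃ (K *ᵥ d2)) :=
          triple_product_permutation _ _ _
        rw [this]
        exact q4
      · rw [← cross_anticomm, dotProduct_neg]
        exact neg_ne_zero.2 q3
      · rw [perm1 _]
        exact q2
      · rw [perm1 _]
        exact q1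
  obtain ⟨hv0, hg0, hm0⟩ := hval g h H 0 (hL0 _ _) (hL0 _ _) (hL0 _ _) (hL0 _ _)
  obtain ⟨hv1, hg1, hm1⟩ := hval g' h' H' 1 (hL1 _ _) (hL1 _ _) (hL1 _ _) (hL1 _ _)
  have hadj : g'.adjugate = g'.det • h' := by
    have : g'.adjugate * (g' * h') = g'.det • h' := by
      rw [← Matrix.mul_assoc, Matrix.adjugate_mul, Matrix.smul_mul, Matrix.one_mul]
    rw [← this, H'.gh, Matrix.mul_one]
  obtain ⟨x, hx⟩ := exists_common (E := ℝ)
    (({none} ×ˢ ({0, 1, 2, 3, 4} : Finset ℕ)) ∪ (A.image some ×ˢ {0}) ∪ (B.image some ×ˢ {1}))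
    (fun (i : Option (E3 × E3) × ℕ) (x : ℝ) => match i with
      | (none, 0) => (F x).det
      | (none, 1) => s1 x ⬝ᵥ (a1 ⨯₃ a2)
      | (none, 2) => s2 x ⬝ᵥ (a1 ⨯₃ a2)
      | (none, 3) => a1 ⬝ᵥ (s1 x ⨯₃ s2 x)
      | (none, _) => a2 ⬝ᵥ (s1 x ⨯₃ s2 x)
      | (some e, 0) => (F x *ᵥ e.1) ⬝ᵥ e.2
      | (some e, _) => ((F x).adjugate *ᵥ e.1) ⬝ᵥ e.2) (by
        rintro ⟨_ | e, _ | _ | _ | _ | n⟩ _
        · exact lv06_P_det hF
        · exact (hL _ _).dot (PolyV.const _)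
        · exact (hL _ _).dot (PolyV.const _)
        · exact (PolyV.const _).dot ((hL _ _).cross (hL _ _))
        · exact (PolyV.const _).dot ((hL _ _).cross (hL _ _))
        · exact lv06_P_mulVec hF _ _
        · exact lv06_P_mulVec (lv06_P_adj hF) _ _
        · exact lv06_P_mulVec (lv06_P_adj hF) _ _
        · exact lv06_P_mulVec (lv06_P_adj hF) _ _
        · exact lv06_P_mulVec (lv06_P_adj hF) _ _) (by
        have hh1 : ∀ e ∈ B, ((F 1).adjugate *ᵥ e.1) ⬝ᵥ e.2 ≠ 0 := by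
          intro e he
          rw [hv1, Matrix.adjugate_smul, hadj, smul_smul, smul_mulVec, smul_dotProduct,
            smul_eq_mul]
          refine mul_ne_zero (mul_ne_zero (pow_ne_zero _ (mul_ne_zero hg1 hm1)) hg1) (hB e he)
        rintro ⟨_ | e, _ | _ | _ | _ | n⟩ hi
        · refine ⟨0, ?_⟩
          show (F 0).det ≠ 0
          rw [hv0, Matrix.det_smul]
          exact mul_ne_zero (pow_ne_zero _ (mul_ne_zero hg0 hm0)) hg0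
        · exact ⟨0, by show L _ _ 0 ⬝ᵥ _ ≠ 0; rw [hL0]; exact H.g1⟩
        · exact ⟨0, by show L _ _ 0 ⬝ᵥ _ ≠ 0; rw [hL0]; exact H.g2⟩
        · exact ⟨0, by show _ ⬝ᵥ (L _ _ 0 ⨯₃ L _ _ 0) ≠ 0; rw [hL0, hL0]; exact H.g3⟩
        · exact ⟨0, by show _ ⬝ᵥ (L _ _ 0 ⨯₃ L _ _ 0) ≠ 0; rw [hL0, hL0]; exact H.g4⟩
        · have he : e ∈ A := by simpa using hi
          refine ⟨0, ?_⟩
          show (F 0 *ᵥ e.1) ⬝ᵥ e.2 ≠ 0
          rw [hv0, smul_mulVec, smul_dotProduct, smul_eq_mul]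
          exact mul_ne_zero (mul_ne_zero hg0 hm0) (hA e he)
        · have he : e ∈ B := by simpa using hi
          exact ⟨1, hh1 e he⟩
        · exfalso; simp at hi
        · exfalso; simp at hi
        · exfalso; simp at hi)
  have x0 : (F x).det ≠ 0 := hx (none, 0) (by simp)
  have x1 : s1 x ⬝ᵥ (a1 ⨯₃ a2) ≠ 0 := hx (none, 1) (by simp)
  have x2 : s2 x ⬝ᵥ (a1 ⨯₃ a2) ≠ 0 := hx (none, 2) (by simp)
  have x3 : a1 ⬝ᵥ (s1 x ⨯₃ s2 x) ≠ 0 := hx (none, 3) (by simp)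
  have x4 : a2 ⬝ᵥ (s1 x ⨯₃ s2 x) ≠ 0 := hx (none, 4) (by simp)
  have xA : ∀ e ∈ A, (F x *ᵥ e.1) ⬝ᵥ e.2 ≠ 0 := fun e he => hx (some e, 0) (by simp [he])
  have xB : ∀ e ∈ B, ((F x).adjugate *ᵥ e.1) ⬝ᵥ e.2 ≠ 0 := fun e he => hx (some e, 1) (by simp [he])
  set Fi : Matrix (Fin 3) (Fin 3) ℝ := (F x).det⁻¹ • (F x).adjugate with hFi
  have hFFi : F x * Fi = 1 := by
    rw [hFi, Matrix.mul_smul, Matrix.mul_adjugate, smul_smul, inv_mul_cancel₀ x0, one_smul]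
  have hFiF : Fi * F x = 1 := by
    rw [hFi, Matrix.smul_mul, Matrix.adjugate_mul, smul_smul, inv_mul_cancel₀ x0, one_smul]
  have hFM : ∀ v, F x *ᵥ (Ma x *ᵥ v) = (Ma x).det • (Mt x *ᵥ v) := by
    intro v
    show (Mt x * (Ma x).adjugate) *ᵥ (Ma x *ᵥ v) = _
    rw [mulVec_mulVec, Matrix.mul_assoc, Matrix.adjugate_mul, Matrix.mul_smul, Matrix.mul_one,
      smul_mulVec]
  have k1 : (s2 x) ⬝ᵥ (a2 ⨯₃ (s1 x)) ≠ 0 := by
    have : (s2 x) ⬝ᵥ (a2 ⨯₃ (s1 x)) = a2 ⬝ᵥ ((s1 x) ⨯₃ (s2 x)) :=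
      triple_product_permutation _ _ _
    rw [this]; exact x4
  have k2 : a1 ⬝ᵥ ((s2 x) ⨯₃ (s1 x)) ≠ 0 := by
    rw [← cross_anticomm, dotProduct_neg]
    exact neg_ne_zero.2 x3
  have k3 : a1 ⬝ᵥ (a2 ⨯₃ s2 x) ≠ 0 := by rw [perm1 _]; exact x2
  have k0 : a1 ⬝ᵥ (a2 ⨯₃ s1 x) ≠ 0 := by rw [perm1 _]; exact x1
  have ha1 : (F x *ᵥ a1) ⬝ᵥ b1 = 0 := by
    have e1 := hFM ![1, 0, 0]
    rw [show Ma x *ᵥ ![1, 0, 0] = _ from lv06_M0 _ _ _ _,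
      show Mt x *ᵥ ![1, 0, 0] = _ from lv06_M0 _ _ _ _, mulVec_smul] at e1
    have e2 := congrArg (fun v => v ⬝ᵥ b1) e1
    simp only [smul_dotProduct, smul_eq_mul] at e2
    rw [hLdot _ _ b1 x H.ab1 H'.ab1, mul_zero, mul_zero] at e2
    exact (mul_eq_zero.1 e2).resolve_left k1
  have ha2 : (F x *ᵥ a2) ⬝ᵥ b2 = 0 := by
    have e1 := hFM ![0, 1, 0]
    rw [show Ma x *ᵥ ![0, 1, 0] = _ from lv06_M1 _ _ _ _,
      show Mt x *ᵥ ![0, 1, 0] = _ from lv06_M1 _ _ _ _, mulVec_smul] at e1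
    have e2 := congrArg (fun v => v ⬝ᵥ b2) e1
    simp only [smul_dotProduct, smul_eq_mul] at e2
    rw [hLdot _ _ b2 x H.ab2 H'.ab2, mul_zero, mul_zero] at e2
    exact (mul_eq_zero.1 e2).resolve_left k2
  -- the images of `d_j` under the inverse
  have hinv : ∀ (k l : ℝ) (s d : E3), k ≠ 0 → s ≠ 0 → F x *ᵥ (k • s) = l • d →
      ∃ m : ℝ, m ≠ 0 ∧ Fi *ᵥ d = m • s := by
    intro k l s d hk hs e
    have e1 := congrArg (fun v => Fi *ᵥ v) e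
    simp only [mulVec_mulVec, hFiF, one_mulVec, mulVec_smul] at e1
    have hl : l ≠ 0 := by
      rintro rfl
      rw [zero_smul] at e1
      exact hs ((smul_eq_zero.1 e1).resolve_left hk)
    refine ⟨l⁻¹ * k, mul_ne_zero (inv_ne_zero hl) hk, ?_⟩
    rw [mul_smul, e1, smul_smul, inv_mul_cancel₀ hl, one_smul]
  have hs1 : s1 x ≠ 0 := by
    intro h0
    apply x1
    rw [h0, zero_dotProduct]
  have hs2 : s2 x ≠ 0 := by
    intro h0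
    apply x2
    rw [h0, zero_dotProduct]
  obtain ⟨m1, hm1', hd1⟩ : ∃ m : ℝ, m ≠ 0 ∧ Fi *ᵥ d1 = m • s1 x := by
    have e1 := hFM ![0, 0, 1]
    rw [show Ma x *ᵥ ![0, 0, 1] = _ from lv06_M2 _ _ _ _,
      show Mt x *ᵥ ![0, 0, 1] = _ from lv06_M2 _ _ _ _, smul_smul] at e1
    exact hinv _ _ _ _ k3 hs1 e1
  obtain ⟨m2, hm2', hd2⟩ : ∃ m : ℝ, m ≠ 0 ∧ Fi *ᵥ d2 = m • s2 x := by
    have e1 := hFM ![1, 1, 1]
    rw [show Ma x *ᵥ ![1, 1, 1] = _ from lv06_M3 _ _ _ _,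
      show Mt x *ᵥ ![1, 1, 1] = _ from lv06_M3 _ _ _ _, smul_smul] at e1
    exact hinv _ _ _ _ k0 hs2 e1
  refine ⟨F x, Fi, ⟨hFFi, hFiF, ha1, ha2, ?_, ?_, ?_, ?_, ?_, ?_⟩, xA, ?_⟩
  · rw [hd1, smul_dotProduct, hLdot _ _ c1 x H.dc1 H'.dc1, smul_zero]
  · rw [hd2, smul_dotProduct, hLdot _ _ c2 x H.dc2 H'.dc2, smul_zero]
  · rw [hd1, smul_dotProduct]
    exact smul_ne_zero hm1' x1
  · rw [hd2, smul_dotProduct]
    exact smul_ne_zero hm2' x2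
  · rw [hd1, hd2]
    simp only [map_smul, LinearMap.smul_apply, dotProduct_smul]
    exact smul_ne_zero hm2' (smul_ne_zero hm1' x3)
  · rw [hd1, hd2]
    simp only [map_smul, LinearMap.smul_apply, dotProduct_smul]
    exact smul_ne_zero hm2' (smul_ne_zero hm1' x4)
  · intro e he
    rw [hFi, smul_mulVec, smul_dotProduct]
    exact smul_ne_zero (inv_ne_zero x0) (xB e he)

end Pool.Agent.Levi3
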