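import Pool.Agent.Levi3.Defs
import Pool.Agent.Levi3.LV05
import Pool.Agent.Levi3.LV06

/-! LV07 : GlueVec -/

namespace Pool.Agent.Levi3

open Matrix Finset

theorem lv07_det (M : Matrix (Fin 3) (Fin 3) ℝ) (u v w : E3) :
    (M *ᵥ u) ⬝ᵥ ((M *ᵥ v) ⨯₃ (M *ᵥ w)) = M.det * (u ⬝ᵥ (v ⨯₃ w)) := by
  rw [det_fin_three]
  simp only [cross_apply, mulVec, dotProduct, Fin.sum_univ_three, cons_val_zero, cons_val_one,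
    Matrix.cons_val]
  ring

theorem lv07_det_ne {M N : Matrix (Fin 3) (Fin 3) ℝ} (h : M * N = 1) : M.det ≠ 0 := by
  intro h0
  have := congrArg Matrix.det h
  rw [det_mul, det_one, h0, zero_mul] at this
  exact zero_ne_one this

theorem glue22_vec (a1 a2 b1 b2 c1 c2 d1 d2 : E3)
    (ha : ¬ Par a1 a2) (hb : ¬ Par b1 b2) (hc : ¬ Par c1 c2) (hd : ¬ Par d1 d2)
    (F1 : ∀ c ∈ [c1, c2], ¬ (a1 ⬝ᵥ c = 0 ∧ a2 ⬝ᵥ c = 0))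
    (F2 : ∀ b ∈ [b1, b2], ¬ (d1 ⬝ᵥ b = 0 ∧ d2 ⬝ᵥ b = 0))
    (F3 : ∀ p ∈ [(a1, b1), (a2, b2)], ∀ q ∈ [(c1, d1), (c2, d2)],
      ¬ (p.1 ⬝ᵥ q.1 = 0 ∧ q.2 ⬝ᵥ p.2 = 0))
    (A B : Finset (E3 × E3))
    (hA : ∀ e ∈ A, e.1 ≠ 0 ∧ e.2 ≠ 0 ∧ ¬ (Par e.1 a1 ∧ Par e.2 b1) ∧ ¬ (Par e.1 a2 ∧ Par e.2 b2))
    (hB : ∀ e ∈ B, e.1 ≠ 0 ∧ e.2 ≠ 0 ∧ ¬ (Par e.1 d1 ∧ Par e.2 c1) ∧ ¬ (Par e.1 d2 ∧ Par e.2 c2)) :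
    ∃ g h : Matrix (Fin 3) (Fin 3) ℝ, g * h = 1 ∧ h * g = 1 ∧
      (g *ᵥ a1) ⬝ᵥ b1 = 0 ∧ (g *ᵥ a2) ⬝ᵥ b2 = 0 ∧ (h *ᵥ d1) ⬝ᵥ c1 = 0 ∧ (h *ᵥ d2) ⬝ᵥ c2 = 0 ∧
      (∀ e ∈ A, (g *ᵥ e.1) ⬝ᵥ e.2 ≠ 0) ∧ (∀ e ∈ B, (h *ᵥ e.1) ⬝ᵥ e.2 ≠ 0) := by
  obtain ⟨g, h, H, hgA⟩ := glue22_first a1 a2 b1 b2 c1 c2 d1 d2 ha hb hc hd F1 F2 F3 A hA
  obtain ⟨h', g', H', hgB⟩ := glue22_first d1 d2 c1 c2 b1 b2 a1 a2 hd hc hb ha F2 F1 (by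
    intro p hp q hq hcon
    simp only [List.mem_cons, List.not_mem_nil, or_false] at hp hq
    rcases hp with rfl | rfl <;> rcases hq with rfl | rfl
    · exact F3 (a1, b1) (by simp) (c1, d1) (by simp) ⟨hcon.2, hcon.1⟩
    · exact F3 (a2, b2) (by simp) (c1, d1) (by simp) ⟨hcon.2, hcon.1⟩
    · exact F3 (a1, b1) (by simp) (c2, d2) (by simp) ⟨hcon.2, hcon.1⟩
    · exact F3 (a2, b2) (by simp) (c2, d2) (by simp) ⟨hcon.2, hcon.1⟩) B hB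
  have hdet : h'.det ≠ 0 := lv07_det_ne H'.gh
  have key : ∀ a : E3, h' *ᵥ (g' *ᵥ a) = a := fun a => by
    rw [mulVec_mulVec, H'.gh, one_mulVec]
  have H'' : GG a1 a2 b1 b2 c1 c2 d1 d2 g' h' := by
    refine ⟨H'.hg, H'.gh, H'.dc1, H'.dc2, H'.ab1, H'.ab2, ?_, ?_, ?_, ?_⟩
    · have := lv07_det h' d1 (g' *ᵥ a1) (g' *ᵥ a2)
      rw [key, key] at this
      rw [this]
      exact mul_ne_zero hdet H'.g3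
    · have := lv07_det h' d2 (g' *ᵥ a1) (g' *ᵥ a2)
      rw [key, key] at this
      rw [this]
      exact mul_ne_zero hdet H'.g4
    · have := lv07_det h' (g' *ᵥ a1) d1 d2
      rw [key] at this
      rw [this]
      exact mul_ne_zero hdet H'.g1
    · have := lv07_det h' (g' *ᵥ a2) d1 d2
      rw [key] at this
      rw [this]
      exact mul_ne_zero hdet H'.g2
  obtain ⟨g'', h'', G, k1, k2⟩ := glue22_comb a1 a2 b1 b2 c1 c2 d1 d2 g h g' h' H H'' A B hgA hgB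
  exact ⟨g'', h'', G.gh, G.hg, G.ab1, G.ab2, G.dc1, G.dc2, k1, k2⟩

end Pool.Agent.Levi3
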