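import Pool.Agent.Levi3.Defs
import Pool.Agent.Levi3.LV01

/-! LV08 : Glue30Vec -/

namespace Pool.Agent.Levi3

open Matrix Finset

/-- vectors of `ℝ³` by coordinates -/
theorem lv08_ext {u v : E3} (h0 : u 0 = v 0) (h1 : u 1 = v 1) (h2 : u 2 = v 2) : u = v := by
  funext i; fin_cases i <;> assumption

theorem lv08_dot (u v : E3) : u ⬝ᵥ v = u 0 * v 0 + u 1 * v 1 + u 2 * v 2 := by
  simp [dotProduct, Fin.sum_univ_three]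

theorem lv08_c0 (u v : E3) : (u ⨯₃ v) 0 = u 1 * v 2 - u 2 * v 1 := by simp [cross_apply]
theorem lv08_c1 (u v : E3) : (u ⨯₃ v) 1 = u 2 * v 0 - u 0 * v 2 := by simp [cross_apply]
theorem lv08_c2 (u v : E3) : (u ⨯₃ v) 2 = u 0 * v 1 - u 1 * v 0 := by simp [cross_apply]

theorem lv08_mv (g : Matrix (Fin 3) (Fin 3) ℝ) (u : E3) (i : Fin 3) :
    (g *ᵥ u) i = g i 0 * u 0 + g i 1 * u 1 + g i 2 * u 2 := by
  simp [Matrix.mulVec, dotProduct, Fin.sum_univ_three]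

/-- the adjugate acts on cross products -/
theorem lv08_cof (g : Matrix (Fin 3) (Fin 3) ℝ) (u v : E3) :
    (g.adjugate)ᵀ *ᵥ (u ⨯₃ v) = (g *ᵥ u) ⨯₃ (g *ᵥ v) := by
  rw [adjugate_fin_three]
  apply lv08_ext <;> simp [lv08_mv, lv08_c0, lv08_c1, lv08_c2, Matrix.transpose_apply] <;> ring

theorem lv08_inv (g : Matrix (Fin 3) (Fin 3) ℝ) (p m : E3) :
    (g⁻¹ *ᵥ p) ⬝ᵥ m = (g.det)⁻¹ * (p ⬝ᵥ ((g.adjugate)ᵀ *ᵥ m)) := by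
  rw [Matrix.inv_def, Ring.inverse_eq_inv', Matrix.smul_mulVec, smul_dotProduct, smul_eq_mul]
  congr 1
  rw [dotProduct_comm, dotProduct_mulVec, dotProduct_comm, Matrix.mulVec_transpose]

theorem lv08_det (g : Matrix (Fin 3) (Fin 3) ℝ) (u v w : E3) :
    (g *ᵥ u) ⬝ᵥ ((g *ᵥ v) ⨯₃ (g *ᵥ w)) = g.det * (u ⬝ᵥ (v ⨯₃ w)) := by
  rw [det_fin_three]
  simp only [lv08_dot, lv08_mv, lv08_c0, lv08_c1, lv08_c2]
  ring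

theorem lv08_mk (e1 e2 e3 t1 t2 t3 : E3) (h : e1 ⬝ᵥ (e2 ⨯₃ e3) ≠ 0) :
    ∃ g : Matrix (Fin 3) (Fin 3) ℝ, g *ᵥ e1 = t1 ∧ g *ᵥ e2 = t2 ∧ g *ᵥ e3 = t3 := by
  refine ⟨(e1 ⬝ᵥ (e2 ⨯₃ e3))⁻¹ • (vecMulVec t1 (e2 ⨯₃ e3) + vecMulVec t2 (e3 ⨯₃ e1) +
    vecMulVec t3 (e1 ⨯₃ e2)), ?_, ?_, ?_⟩ <;> rw [Matrix.smul_mulVec, inv_smul_eq_iff₀ h]
  · apply lv08_ext <;> simp only [lv08_mv, Matrix.add_apply, vecMulVec_apply, Pi.smul_apply,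
      smul_eq_mul, lv08_dot, lv08_c0, lv08_c1, lv08_c2] <;> ring
  · apply lv08_ext <;> simp only [lv08_mv, Matrix.add_apply, vecMulVec_apply, Pi.smul_apply,
      smul_eq_mul, lv08_dot, lv08_c0, lv08_c1, lv08_c2] <;> ring
  · apply lv08_ext <;> simp only [lv08_mv, Matrix.add_apply, vecMulVec_apply, Pi.smul_apply,
      smul_eq_mul, lv08_dot, lv08_c0, lv08_c1, lv08_c2] <;> ring

/-- expansion in the dual basis -/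
theorem lv08_dual (e1 e2 e3 m : E3) :
    (e1 ⬝ᵥ (e2 ⨯₃ e3)) • m = (m ⬝ᵥ e1) • (e2 ⨯₃ e3) + (m ⬝ᵥ e2) • (e3 ⨯₃ e1) +
      (m ⬝ᵥ e3) • (e1 ⨯₃ e2) := by
  apply lv08_ext <;> simp only [Pi.add_apply, Pi.smul_apply, smul_eq_mul, lv08_dot, lv08_c0,
    lv08_c1, lv08_c2] <;> ring

theorem lv08_basis (e1 e2 e3 x : E3) :
    (e1 ⬝ᵥ (e2 ⨯₃ e3)) • x = (x ⬝ᵥ (e2 ⨯₃ e3)) • e1 + (x ⬝ᵥ (e3 ⨯₃ e1)) • e2 +
      (x ⬝ᵥ (e1 ⨯₃ e2)) • e3 := by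
  apply lv08_ext <;> simp only [Pi.add_apply, Pi.smul_apply, smul_eq_mul, lv08_dot, lv08_c0,
    lv08_c1, lv08_c2] <;> ring

theorem lv08_sq_pos {u : E3} (hu : u ≠ 0) : 0 < u ⬝ᵥ u := by
  rw [lv08_dot]
  by_contra h
  apply hu
  have h0 : u 0 = 0 := by nlinarith [sq_nonneg (u 0), sq_nonneg (u 1), sq_nonneg (u 2)]
  have h1 : u 1 = 0 := by nlinarith [sq_nonneg (u 0), sq_nonneg (u 1), sq_nonneg (u 2)]
  have h2 : u 2 = 0 := by nlinarith [sq_nonneg (u 0), sq_nonneg (u 1), sq_nonneg (u 2)]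
  exact lv08_ext h0 h1 h2

/-- two planes and a vector -/
theorem lv08_T {b1 b2 p : E3} (hb : ¬ Par b1 b2) (hp : p ≠ 0) :
    ∃ t1 t2 : E3, t1 ⬝ᵥ b1 = 0 ∧ t2 ⬝ᵥ b2 = 0 ∧ p ⬝ᵥ (t1 ⨯₃ t2) ≠ 0 := by
  by_contra hcon
  push Not at hcon
  set n := b1 ⨯₃ b2 with hn
  have hn0 : 0 < n ⬝ᵥ n := lv08_sq_pos hb
  have key : ∀ w1 w2 : E3, p ⬝ᵥ ((b1 ⨯₃ w1) ⨯₃ (b2 ⨯₃ w2)) = 0 := by
    intro w1 w2
    apply hcon
    · simp only [lv08_dot, lv08_c0, lv08_c1, lv08_c2]; ring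
    · simp only [lv08_dot, lv08_c0, lv08_c1, lv08_c2]; ring
  have k1 : p ⬝ᵥ b1 = 0 := by
    have h1 := key n b1
    have h2 : p ⬝ᵥ ((b1 ⨯₃ n) ⨯₃ (b2 ⨯₃ b1)) = (n ⬝ᵥ n) * (p ⬝ᵥ b1) := by
      rw [hn]; simp only [lv08_dot, lv08_c0, lv08_c1, lv08_c2]; ring
    rw [h2] at h1
    rcases mul_eq_zero.1 h1 with h | h
    · exact absurd h hn0.ne'
    · exact h
  have k2 : p ⬝ᵥ b2 = 0 := by
    have h1 := key b2 n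
    have h2 : p ⬝ᵥ ((b1 ⨯₃ b2) ⨯₃ (b2 ⨯₃ n)) = (n ⬝ᵥ n) * (p ⬝ᵥ b2) := by
      rw [hn]; simp only [lv08_dot, lv08_c0, lv08_c1, lv08_c2]; ring
    rw [h2] at h1
    rcases mul_eq_zero.1 h1 with h | h
    · exact absurd h hn0.ne'
    · exact h
  have k3 : p ⬝ᵥ n = 0 := by
    have h1 := key n n
    have h2 : p ⬝ᵥ ((b1 ⨯₃ n) ⨯₃ (b2 ⨯₃ n)) = (n ⬝ᵥ n) * (p ⬝ᵥ n) := by
      rw [hn]; simp only [lv08_dot, lv08_c0, lv08_c1, lv08_c2]; ring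
    rw [h2] at h1
    rcases mul_eq_zero.1 h1 with h | h
    · exact absurd h hn0.ne'
    · exact h
  have h5 : n ⬝ᵥ (b1 ⨯₃ b2) ≠ 0 := hn0.ne'
  have h6 := lv08_dual n b1 b2 p
  rw [k1, k2, k3] at h6
  simp only [zero_smul, add_zero] at h6
  rcases smul_eq_zero.1 h6 with h | h
  · exact h5 h
  · exact hp h


theorem lv08_mv_add (g : Matrix (Fin 3) (Fin 3) ℝ) (c1 c2 : ℝ) (u v : E3) :
    g *ᵥ (c1 • u + c2 • v) = c1 • (g *ᵥ u) + c2 • (g *ᵥ v) := by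
  rw [mulVec_add, mulVec_smul, mulVec_smul]

/-- the linear space of the admissible matrices -/
def lv08_L (a1 a2 a3 b1 b2 b3 : E3) : Submodule ℝ (Matrix (Fin 3) (Fin 3) ℝ) where
  carrier := {g | (g *ᵥ a1) ⬝ᵥ b1 = 0 ∧ (g *ᵥ a2) ⬝ᵥ b2 = 0 ∧ (g *ᵥ a3) ⬝ᵥ b3 = 0}
  add_mem' := by
    rintro g h ⟨g1, g2, g3⟩ ⟨h1, h2, h3⟩
    simp [add_mulVec, add_dotProduct, g1, g2, g3, h1, h2, h3]
  zero_mem' := by simp
  smul_mem' := by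
    rintro c g ⟨g1, g2, g3⟩
    simp [smul_mulVec, smul_dotProduct, g1, g2, g3]

/-- the functional `g ↦ (g x) · y` -/
def lv08_F (x y : E3) : Matrix (Fin 3) (Fin 3) ℝ →ₗ[ℝ] ℝ where
  toFun g := (g *ᵥ x) ⬝ᵥ y
  map_add' := by intro g h; simp [add_mulVec, add_dotProduct]
  map_smul' := by intro c g; simp [smul_mulVec, smul_dotProduct]

theorem lv08_rank1 (u v x : E3) : (vecMulVec u v) *ᵥ x = (v ⬝ᵥ x) • u := by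
  apply lv08_ext <;> simp only [lv08_mv, vecMulVec_apply, Pi.smul_apply, smul_eq_mul,
    lv08_dot] <;> ring

theorem lv08_dual_span (a1 a2 a3 b1 b2 b3 x y : E3)
    (h : ∀ g ∈ lv08_L a1 a2 a3 b1 b2 b3, (g *ᵥ x) ⬝ᵥ y = 0) :
    ∃ l1 l2 l3 : ℝ, ∀ v : E3, (v ⬝ᵥ x) • y = (l1 * (v ⬝ᵥ a1)) • b1 + (l2 * (v ⬝ᵥ a2)) • b2 +
      (l3 * (v ⬝ᵥ a3)) • b3 := by
  have h1 : lv08_F x y ∈ Submodule.span ℝ
      (Set.range ![lv08_F a1 b1, lv08_F a2 b2, lv08_F a3 b3]) := by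
    apply mem_span_of_iInf_ker_le_ker
    intro g hg
    rw [LinearMap.mem_ker]
    apply h
    rw [Submodule.mem_iInf] at hg
    have g0 := hg 0
    have g1 := hg 1
    have g2 := hg 2
    rw [LinearMap.mem_ker] at g0 g1 g2
    exact ⟨g0, g1, g2⟩
  rw [Submodule.mem_span_range_iff_exists_fun] at h1
  obtain ⟨c, hc⟩ := h1
  refine ⟨c 0, c 1, c 2, fun v => ?_⟩
  have h2 : ∀ u : E3, (v ⬝ᵥ x) * (u ⬝ᵥ y) = c 0 * (v ⬝ᵥ a1) * (u ⬝ᵥ b1) +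
      c 1 * (v ⬝ᵥ a2) * (u ⬝ᵥ b2) + c 2 * (v ⬝ᵥ a3) * (u ⬝ᵥ b3) := by
    intro u
    have h3 := congrArg (fun F => F (vecMulVec u v)) hc
    simp only [Fin.sum_univ_three, LinearMap.add_apply, LinearMap.smul_apply] at h3
    simp only [Matrix.cons_val_zero, Matrix.cons_val_one, Matrix.cons_val] at h3
    simp only [lv08_F, LinearMap.coe_mk, AddHom.coe_mk, lv08_rank1, smul_dotProduct,
      smul_eq_mul] at h3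
    linarith
  have h4 := h2 ![1, 0, 0]
  have h5 := h2 ![0, 1, 0]
  have h6 := h2 ![0, 0, 1]
  simp only [lv08_dot ![(1:ℝ), 0, 0], lv08_dot ![(0:ℝ), 1, 0], lv08_dot ![(0:ℝ), 0, 1],
    Matrix.cons_val_zero, Matrix.cons_val_one, Matrix.cons_val] at h4 h5 h6
  apply lv08_ext <;> simp only [Pi.add_apply, Pi.smul_apply, smul_eq_mul] <;> linarith

theorem lv08_par_trans {y b1 b2 : E3} (hy : y ≠ 0) (h1 : Par y b1) (h2 : Par y b2) :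
    Par b1 b2 := by
  obtain ⟨c1, rfl⟩ := exists_smul_of_cross_eq_zero hy h1
  obtain ⟨c2, rfl⟩ := exists_smul_of_cross_eq_zero hy h2
  unfold Par
  apply lv08_ext <;> simp only [lv08_c0, lv08_c1, lv08_c2, Pi.smul_apply, smul_eq_mul,
    Pi.zero_apply] <;> ring

theorem lv08_par_of_smul {y b : E3} {c d : ℝ} (hc : c ≠ 0) (h : c • y = d • b) : Par y b := by
  have h0 := congrFun h 0
  have h1 := congrFun h 1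
  have h2 := congrFun h 2
  simp only [Pi.smul_apply, smul_eq_mul] at h0 h1 h2
  unfold Par
  apply lv08_ext <;> simp only [lv08_c0, lv08_c1, lv08_c2, Pi.zero_apply] <;>
    apply mul_left_cancel₀ hc
  · linear_combination b 2 * h1 - b 1 * h2
  · linear_combination b 0 * h2 - b 2 * h0
  · linear_combination b 1 * h0 - b 0 * h1

theorem lv08_ne_left {a b : E3} (h : ¬ Par a b) : a ≠ 0 := by
  rintro rfl
  apply h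
  unfold Par
  simp

theorem lv08_ne_right {a b : E3} (h : ¬ Par a b) : b ≠ 0 := by
  rintro rfl
  apply h
  unfold Par
  simp

theorem lv08_par_comm {a b : E3} (h : Par a b) : Par b a := by
  unfold Par at h ⊢
  have h0 := congrFun h 0
  have h1 := congrFun h 1
  have h2 := congrFun h 2
  simp only [lv08_c0, lv08_c1, lv08_c2, Pi.zero_apply] at h0 h1 h2
  apply lv08_ext <;> simp only [lv08_c0, lv08_c1, lv08_c2, Pi.zero_apply] <;> linarith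

/-- the coplanar case, `x` parallel to `a1` -/
theorem lv08_A' {a1 a2 a3 b1 b2 b3 x y : E3} {l1 l2 l3 : ℝ}
    (hl : ∀ v : E3, (v ⬝ᵥ x) • y = (l1 * (v ⬝ᵥ a1)) • b1 + (l2 * (v ⬝ᵥ a2)) • b2 +
      (l3 * (v ⬝ᵥ a3)) • b3)
    (ha12 : ¬ Par a1 a2) (ha13 : ¬ Par a1 a3) (hb23 : ¬ Par b2 b3)
    (hx : x ≠ 0) (hxa : Par x a1) (hd : a3 ⬝ᵥ (a1 ⨯₃ a2) = 0) : Par y b1 := by
  have ha1 : a1 ≠ 0 := lv08_ne_left ha12
  obtain ⟨c, hc⟩ := exists_smul_of_cross_eq_zero hx hxa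
  have hc0 : c ≠ 0 := by
    rintro rfl
    apply ha1
    rw [hc]; simp
  have hn0 : 0 < (a1 ⨯₃ a2) ⬝ᵥ (a1 ⨯₃ a2) := lv08_sq_pos ha12
  have e1 := hl (a1 ⨯₃ (a1 ⨯₃ a2))
  have v1 : (a1 ⨯₃ (a1 ⨯₃ a2)) ⬝ᵥ a1 = 0 := by
    simp only [lv08_dot, lv08_c0, lv08_c1, lv08_c2]; ring
  have vx : (a1 ⨯₃ (a1 ⨯₃ a2)) ⬝ᵥ x = 0 := by
    have : c * ((a1 ⨯₃ (a1 ⨯₃ a2)) ⬝ᵥ x) = 0 := by
      rw [← smul_eq_mul, ← dotProduct_smul, ← hc, v1]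
    rcases mul_eq_zero.1 this with h | h
    · exact absurd h hc0
    · exact h
  have v2 : (a1 ⨯₃ (a1 ⨯₃ a2)) ⬝ᵥ a2 = -((a1 ⨯₃ a2) ⬝ᵥ (a1 ⨯₃ a2)) := by
    simp only [lv08_dot, lv08_c0, lv08_c1, lv08_c2]; ring
  have v3 : (a1 ⨯₃ (a1 ⨯₃ a2)) ⬝ᵥ a3 = -((a1 ⨯₃ a2) ⬝ᵥ (a1 ⨯₃ a3)) := by
    simp only [lv08_dot, lv08_c0, lv08_c1, lv08_c2]; ring
  have v3' : (a1 ⨯₃ a2) ⬝ᵥ (a1 ⨯₃ a3) ≠ 0 := by
    have hp : Par (a1 ⨯₃ a2) (a1 ⨯₃ a3) := by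
      unfold Par
      have : (a1 ⨯₃ a2) ⨯₃ (a1 ⨯₃ a3) = (a3 ⬝ᵥ (a1 ⨯₃ a2)) • a1 := by
        apply lv08_ext <;> simp only [lv08_dot, lv08_c0, lv08_c1, lv08_c2, Pi.smul_apply,
          smul_eq_mul] <;> ring
      rw [this, hd, zero_smul]
    obtain ⟨k, hk⟩ := exists_smul_of_cross_eq_zero (show a1 ⨯₃ a2 ≠ 0 from ha12) hp
    have hk0 : k ≠ 0 := by
      rintro rfl
      apply ha13
      unfold Par
      rw [hk]; simp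
    rw [hk, dotProduct_smul, smul_eq_mul]
    exact mul_ne_zero hk0 hn0.ne'
  rw [vx, v1, v2, v3] at e1
  simp only [zero_smul, mul_zero, zero_add] at e1
  have hl2 : l2 = 0 := by
    by_contra h
    apply hb23
    apply lv08_par_of_smul (c := l2 * -((a1 ⨯₃ a2) ⬝ᵥ (a1 ⨯₃ a2)))
      (d := -(l3 * -((a1 ⨯₃ a2) ⬝ᵥ (a1 ⨯₃ a3))))
    · exact mul_ne_zero h (neg_ne_zero.2 hn0.ne')
    · rw [neg_smul]
      exact eq_neg_of_add_eq_zero_left e1.symm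
  have hl3 : l3 = 0 := by
    by_contra h
    apply hb23
    apply lv08_par_comm
    apply lv08_par_of_smul (c := l3 * -((a1 ⨯₃ a2) ⬝ᵥ (a1 ⨯₃ a3)))
      (d := -(l2 * -((a1 ⨯₃ a2) ⬝ᵥ (a1 ⨯₃ a2))))
    · exact mul_ne_zero h (neg_ne_zero.2 v3')
    · rw [neg_smul]
      exact eq_neg_of_add_eq_zero_right e1.symm
  have e2 := hl a1
  rw [hl2, hl3] at e2
  simp only [zero_mul, zero_smul, add_zero] at e2
  refine lv08_par_of_smul ?_ e2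
  intro h0
  have : a1 ⬝ᵥ a1 = 0 := by
    have h5 : a1 ⬝ᵥ a1 = a1 ⬝ᵥ (c • x) := by rw [← hc]
    rw [h5, dotProduct_smul, h0, smul_zero]
  exact (lv08_sq_pos ha1).ne' this

theorem lv08_A {a1 a2 a3 b1 b2 b3 x y : E3}
    (ha12 : ¬ Par a1 a2) (ha13 : ¬ Par a1 a3) (ha23 : ¬ Par a2 a3)
    (hb12 : ¬ Par b1 b2) (hb13 : ¬ Par b1 b3) (hb23 : ¬ Par b2 b3)
    (hx : x ≠ 0) (hy : y ≠ 0) (h1 : ¬ (Par x a1 ∧ Par y b1)) (h2 : ¬ (Par x a2 ∧ Par y b2))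
    (h3 : ¬ (Par x a3 ∧ Par y b3))
    (h4 : a3 ⬝ᵥ (a1 ⨯₃ a2) = 0 → x ⬝ᵥ (a1 ⨯₃ a2) = 0 → Par x a1 ∨ Par x a2 ∨ Par x a3) :
    ∃ g ∈ lv08_L a1 a2 a3 b1 b2 b3, (g *ᵥ x) ⬝ᵥ y ≠ 0 := by
  by_contra hcon
  push Not at hcon
  obtain ⟨l1, l2, l3, hl⟩ := lv08_dual_span _ _ _ _ _ _ _ _ hcon
  by_cases hd : a3 ⬝ᵥ (a1 ⨯₃ a2) = 0
  · have e1 := hl (a1 ⨯₃ a2)
    have v1 : (a1 ⨯₃ a2) ⬝ᵥ a1 = 0 := by
      simp only [lv08_dot, lv08_c0, lv08_c1, lv08_c2]; ring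
    have v2 : (a1 ⨯₃ a2) ⬝ᵥ a2 = 0 := by
      simp only [lv08_dot, lv08_c0, lv08_c1, lv08_c2]; ring
    rw [v1, v2, dotProduct_comm (a1 ⨯₃ a2) a3, hd] at e1
    simp only [mul_zero, zero_smul, add_zero] at e1
    have hx0 : x ⬝ᵥ (a1 ⨯₃ a2) = 0 := by
      rcases smul_eq_zero.1 e1 with h | h
      · rw [dotProduct_comm]; exact h
      · exact absurd h hy
    rcases h4 hd hx0 with h | h | h
    · exact h1 ⟨h, lv08_A' hl ha12 ha13 hb23 hx h hd⟩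
    · have hl' : ∀ v : E3, (v ⬝ᵥ x) • y = (l2 * (v ⬝ᵥ a2)) • b2 + (l1 * (v ⬝ᵥ a1)) • b1 +
          (l3 * (v ⬝ᵥ a3)) • b3 := by
        intro v; rw [hl v]; abel
      refine h2 ⟨h, lv08_A' hl' (fun h => ha12 (lv08_par_comm h)) ha23 hb13 hx h ?_⟩
      have : a3 ⬝ᵥ (a2 ⨯₃ a1) = -(a3 ⬝ᵥ (a1 ⨯₃ a2)) := by
        simp only [lv08_dot, lv08_c0, lv08_c1, lv08_c2]; ring
      rw [this, hd, neg_zero]
    · have hl' : ∀ v : E3, (v ⬝ᵥ x) • y = (l3 * (v ⬝ᵥ a3)) • b3 + (l1 * (v ⬝ᵥ a1)) • b1 +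
          (l2 * (v ⬝ᵥ a2)) • b2 := by
        intro v; rw [hl v]; abel
      refine h3 ⟨h, lv08_A' hl' (fun h => ha13 (lv08_par_comm h)) (fun h => ha23 (lv08_par_comm h))
        hb12 hx h ?_⟩
      have : a2 ⬝ᵥ (a3 ⨯₃ a1) = (a3 ⬝ᵥ (a1 ⨯₃ a2)) := by
        simp only [lv08_dot, lv08_c0, lv08_c1, lv08_c2]; ring
      rw [this, hd]
  · have hd1 : a1 ⬝ᵥ (a2 ⨯₃ a3) ≠ 0 := by
      have : a1 ⬝ᵥ (a2 ⨯₃ a3) = a3 ⬝ᵥ (a1 ⨯₃ a2) := by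
        simp only [lv08_dot, lv08_c0, lv08_c1, lv08_c2]; ring
      rwa [this]
    have e1 := hl (a2 ⨯₃ a3)
    have e2 := hl (a3 ⨯₃ a1)
    have e3 := hl (a1 ⨯₃ a2)
    have v11 : (a2 ⨯₃ a3) ⬝ᵥ a2 = 0 := by
      simp only [lv08_dot, lv08_c0, lv08_c1, lv08_c2]; ring
    have v12 : (a2 ⨯₃ a3) ⬝ᵥ a3 = 0 := by
      simp only [lv08_dot, lv08_c0, lv08_c1, lv08_c2]; ring
    have v21 : (a3 ⨯₃ a1) ⬝ᵥ a3 = 0 := by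
      simp only [lv08_dot, lv08_c0, lv08_c1, lv08_c2]; ring
    have v22 : (a3 ⨯₃ a1) ⬝ᵥ a1 = 0 := by
      simp only [lv08_dot, lv08_c0, lv08_c1, lv08_c2]; ring
    have v31 : (a1 ⨯₃ a2) ⬝ᵥ a1 = 0 := by
      simp only [lv08_dot, lv08_c0, lv08_c1, lv08_c2]; ring
    have v32 : (a1 ⨯₃ a2) ⬝ᵥ a2 = 0 := by
      simp only [lv08_dot, lv08_c0, lv08_c1, lv08_c2]; ring
    rw [v11, v12] at e1
    rw [v21, v22] at e2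
    rw [v31, v32] at e3
    simp only [mul_zero, zero_smul, add_zero, zero_add] at e1 e2 e3
    have hb := lv08_basis a1 a2 a3 x
    rw [dotProduct_comm x (a2 ⨯₃ a3), dotProduct_comm x (a3 ⨯₃ a1),
      dotProduct_comm x (a1 ⨯₃ a2)] at hb
    by_cases f1 : (a2 ⨯₃ a3) ⬝ᵥ x = 0
    · by_cases f2 : (a3 ⨯₃ a1) ⬝ᵥ x = 0
      · by_cases f3 : (a1 ⨯₃ a2) ⬝ᵥ x = 0
        · rw [f1, f2, f3] at hb
          simp only [zero_smul, add_zero] at hb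
          rcases smul_eq_zero.1 hb with h | h
          · exact hd1 h
          · exact hx h
        · rw [f1, f2] at hb
          simp only [zero_smul, zero_add] at hb
          exact h3 ⟨lv08_par_of_smul hd1 hb, lv08_par_of_smul f3 e3⟩
      · have f3 : (a1 ⨯₃ a2) ⬝ᵥ x = 0 := by
          by_contra f3
          exact hb23 (lv08_par_trans hy (lv08_par_of_smul f2 e2) (lv08_par_of_smul f3 e3))
        rw [f1, f3] at hb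
        simp only [zero_smul, zero_add, add_zero] at hb
        exact h2 ⟨lv08_par_of_smul hd1 hb, lv08_par_of_smul f2 e2⟩
    · have f3 : (a1 ⨯₃ a2) ⬝ᵥ x = 0 := by
        by_contra f3
        exact hb13 (lv08_par_trans hy (lv08_par_of_smul f1 e1) (lv08_par_of_smul f3 e3))
      have f2 : (a3 ⨯₃ a1) ⬝ᵥ x = 0 := by
        by_contra f2
        exact hb12 (lv08_par_trans hy (lv08_par_of_smul f1 e1) (lv08_par_of_smul f2 e2))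
      rw [f2, f3] at hb
      simp only [zero_smul, add_zero] at hb
      exact h1 ⟨lv08_par_of_smul hd1 hb, lv08_par_of_smul f1 e1⟩


/-- data in the coplanar case -/
theorem lv08_II {a1 a2 a3 b1 b2 b3 r : E3} (ha12 : ¬ Par a1 a2) (ha13 : ¬ Par a1 a3)
    (ha23 : ¬ Par a2 a3) (hd : a3 ⬝ᵥ (a1 ⨯₃ a2) = 0)
    (hr1 : r ⬝ᵥ (b2 ⨯₃ b3) ≠ 0) (hr2 : r ⬝ᵥ (b1 ⨯₃ b3) ≠ 0) :
    ∃ l1 l2 : ℝ, l1 ≠ 0 ∧ l2 ≠ 0 ∧ ∀ w : E3, ∃ g ∈ lv08_L a1 a2 a3 b1 b2 b3,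
      g *ᵥ a1 = l1 • (r ⨯₃ b1) ∧ g *ᵥ a2 = l2 • (r ⨯₃ b2) ∧ g *ᵥ (a1 ⨯₃ a2) = w := by
  have hn0 : 0 < (a1 ⨯₃ a2) ⬝ᵥ (a1 ⨯₃ a2) := lv08_sq_pos ha12
  set n := a1 ⨯₃ a2 with hn
  have hdet : a1 ⬝ᵥ (a2 ⨯₃ n) = n ⬝ᵥ n := by
    rw [hn]; simp only [lv08_dot, lv08_c0, lv08_c1, lv08_c2]; ring
  have hb := lv08_basis a1 a2 n a3
  rw [hdet, ← hn, hd, zero_smul, add_zero] at hb
  set A := a3 ⬝ᵥ (a2 ⨯₃ n) with hA
  set B := a3 ⬝ᵥ (n ⨯₃ a1) with hB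
  have hA0 : A ≠ 0 := by
    intro h
    rw [h, zero_smul, zero_add] at hb
    exact ha23 (lv08_par_comm (lv08_par_of_smul hn0.ne' hb))
  have hB0 : B ≠ 0 := by
    intro h
    rw [h, zero_smul, add_zero] at hb
    exact ha13 (lv08_par_comm (lv08_par_of_smul hn0.ne' hb))
  refine ⟨B * (r ⬝ᵥ (b2 ⨯₃ b3)), -A * (r ⬝ᵥ (b1 ⨯₃ b3)), mul_ne_zero hB0 hr1,
    mul_ne_zero (neg_ne_zero.2 hA0) hr2, fun w => ?_⟩
  obtain ⟨g, g1, g2, g3⟩ := lv08_mk a1 a2 n ((B * (r ⬝ᵥ (b2 ⨯₃ b3))) • (r ⨯₃ b1))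
    ((-A * (r ⬝ᵥ (b1 ⨯₃ b3))) • (r ⨯₃ b2)) w (by rw [hdet]; exact hn0.ne')
  refine ⟨g, ⟨?_, ?_, ?_⟩, g1, g2, g3⟩
  · rw [g1]
    simp only [lv08_dot, lv08_c0, lv08_c1, lv08_c2, Pi.smul_apply, smul_eq_mul]; ring
  · rw [g2]
    simp only [lv08_dot, lv08_c0, lv08_c1, lv08_c2, Pi.smul_apply, smul_eq_mul]; ring
  · have h1 : (n ⬝ᵥ n) * ((g *ᵥ a3) ⬝ᵥ b3) = 0 := by
      have h2 : (n ⬝ᵥ n) • (g *ᵥ a3) = A • (g *ᵥ a1) + B • (g *ᵥ a2) := by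
        rw [← mulVec_smul, hb, lv08_mv_add]
      rw [← smul_eq_mul, ← smul_dotProduct, h2, g1, g2]
      simp only [lv08_dot, lv08_c0, lv08_c1, lv08_c2, Pi.smul_apply, smul_eq_mul, Pi.add_apply]
      ring
    rcases mul_eq_zero.1 h1 with h | h
    · exact absurd h hn0.ne'
    · exact h

theorem lv08_r {b1 b2 b3 p : E3} (hb12 : ¬ Par b1 b2) (hb13 : ¬ Par b1 b3) (hb23 : ¬ Par b2 b3)
    (hp : p ≠ 0) : ∃ r : E3, r ⬝ᵥ p ≠ 0 ∧ r ⬝ᵥ (b1 ⨯₃ b2) ≠ 0 ∧ r ⬝ᵥ (b2 ⨯₃ b3) ≠ 0 ∧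
      r ⬝ᵥ (b1 ⨯₃ b3) ≠ 0 := by
  classical
  obtain ⟨r, -, hr⟩ := exists_generic {p, b1 ⨯₃ b2, b2 ⨯₃ b3, b1 ⨯₃ b3} (by
    intro a ha
    simp only [Finset.mem_insert, Finset.mem_singleton] at ha
    rcases ha with rfl | rfl | rfl | rfl
    · exact hp
    · exact hb12
    · exact hb23
    · exact hb13)
  exact ⟨r, (hr _ (by simp)).1, (hr _ (by simp)).1, (hr _ (by simp)).1, (hr _ (by simp)).1⟩

theorem lv08_D {a1 a2 a3 b1 b2 b3 : E3}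
    (ha12 : ¬ Par a1 a2) (ha13 : ¬ Par a1 a3) (ha23 : ¬ Par a2 a3)
    (hb12 : ¬ Par b1 b2) (hb13 : ¬ Par b1 b3) (hb23 : ¬ Par b2 b3) :
    ∃ g ∈ lv08_L a1 a2 a3 b1 b2 b3, g.det ≠ 0 := by
  by_cases hd : a3 ⬝ᵥ (a1 ⨯₃ a2) = 0
  · obtain ⟨r, hr0, hr12, hr23, hr13⟩ := lv08_r hb12 hb13 hb23 (lv08_ne_left hb12)
    obtain ⟨l1, l2, hl1, hl2, hw⟩ := lv08_II (b1 := b1) (b2 := b2) ha12 ha13 ha23 hd hr23 hr13
    obtain ⟨g, hg, g1, g2, g3⟩ := hw (r)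
    refine ⟨g, hg, fun h0 => ?_⟩
    have h1 := lv08_det g a1 a2 (a1 ⨯₃ a2)
    rw [h0, zero_mul, g1, g2, g3] at h1
    have h2 : (l1 • (r ⨯₃ b1)) ⬝ᵥ ((l2 • (r ⨯₃ b2)) ⨯₃ r) = l1 * l2 * (r ⬝ᵥ r) *
        (r ⬝ᵥ (b1 ⨯₃ b2)) := by
      simp only [lv08_dot, lv08_c0, lv08_c1, lv08_c2, Pi.smul_apply, smul_eq_mul]; ring
    have hr : r ≠ 0 := by
      rintro rfl
      apply hr0; simp
    rw [h2] at h1
    exact mul_ne_zero (mul_ne_zero (mul_ne_zero hl1 hl2) (lv08_sq_pos hr).ne') hr12 h1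
  · have hd1 : a1 ⬝ᵥ (a2 ⨯₃ a3) ≠ 0 := by
      have : a1 ⬝ᵥ (a2 ⨯₃ a3) = a3 ⬝ᵥ (a1 ⨯₃ a2) := by
        simp only [lv08_dot, lv08_c0, lv08_c1, lv08_c2]; ring
      rwa [this]
    obtain ⟨t1, t2, h1, h2, h3⟩ := lv08_T hb12 (show b1 ⨯₃ b3 ≠ 0 from hb13)
    obtain ⟨g, g1, g2, g3⟩ := lv08_mk a1 a2 a3 t1 t2 (b1 ⨯₃ b3) hd1
    refine ⟨g, ⟨by rw [g1]; exact h1, by rw [g2]; exact h2, ?_⟩, fun h0 => h3 ?_⟩
    · rw [g3]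
      simp only [lv08_dot, lv08_c0, lv08_c1, lv08_c2]; ring
    · have h4 := lv08_det g a1 a2 a3
      rw [h0, zero_mul, g1, g2, g3] at h4
      rw [← h4]
      simp only [lv08_dot, lv08_c0, lv08_c1, lv08_c2]; ring

theorem lv08_B {a1 a2 a3 b1 b2 b3 p m : E3}
    (ha12 : ¬ Par a1 a2) (ha13 : ¬ Par a1 a3) (ha23 : ¬ Par a2 a3)
    (hb12 : ¬ Par b1 b2) (hb13 : ¬ Par b1 b3) (hb23 : ¬ Par b2 b3) (hp : p ≠ 0) (hm : m ≠ 0) :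
    ∃ g ∈ lv08_L a1 a2 a3 b1 b2 b3, p ⬝ᵥ ((g.adjugate)ᵀ *ᵥ m) ≠ 0 := by
  by_cases hd : a3 ⬝ᵥ (a1 ⨯₃ a2) = 0
  · obtain ⟨r, hr0, hr12, hr23, hr13⟩ := lv08_r hb12 hb13 hb23 hp
    obtain ⟨l1, l2, hl1, hl2, hw⟩ := lv08_II (b1 := b1) (b2 := b2) ha12 ha13 ha23 hd hr23 hr13
    have hn0 : 0 < (a1 ⨯₃ a2) ⬝ᵥ (a1 ⨯₃ a2) := lv08_sq_pos ha12
    have hdet : a1 ⬝ᵥ (a2 ⨯₃ (a1 ⨯₃ a2)) = (a1 ⨯₃ a2) ⬝ᵥ (a1 ⨯₃ a2) := by
      simp only [lv08_dot, lv08_c0, lv08_c1, lv08_c2]; ring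
    have hdual := lv08_dual a1 a2 (a1 ⨯₃ a2) m
    rw [hdet] at hdual
    by_contra hcon
    push Not at hcon
    have key : ∀ w : E3, (m ⬝ᵥ a1) * (p ⬝ᵥ ((l2 • (r ⨯₃ b2)) ⨯₃ w)) +
        (m ⬝ᵥ a2) * (p ⬝ᵥ (w ⨯₃ (l1 • (r ⨯₃ b1)))) +
        (m ⬝ᵥ (a1 ⨯₃ a2)) * (p ⬝ᵥ ((l1 • (r ⨯₃ b1)) ⨯₃ (l2 • (r ⨯₃ b2)))) = 0 := by
      intro w
      obtain ⟨g, hg, g1, g2, g3⟩ := hw w
      have h1 := hcon g hg
      have h2 := congrArg (fun x => p ⬝ᵥ ((g.adjugate)ᵀ *ᵥ x)) hdual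
      simp only [mulVec_add, mulVec_smul, dotProduct_add, dotProduct_smul, smul_eq_mul] at h2
      rw [h1, lv08_cof, lv08_cof, lv08_cof, g1, g2, g3, mul_zero] at h2
      exact h2.symm
    have k0 := key 0
    have k0' : (m ⬝ᵥ (a1 ⨯₃ a2)) * (l1 * l2 * (r ⬝ᵥ (b1 ⨯₃ b2)) * (r ⬝ᵥ p)) = 0 := by
      rw [← k0]
      simp only [lv08_dot, lv08_c0, lv08_c1, lv08_c2, Pi.smul_apply, smul_eq_mul, Pi.zero_apply]
      ring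
    have hmn : m ⬝ᵥ (a1 ⨯₃ a2) = 0 := by
      rcases mul_eq_zero.1 k0' with h | h
      · exact h
      · exact absurd h (mul_ne_zero (mul_ne_zero (mul_ne_zero hl1 hl2) hr12) hr0)
    set s : E3 := (m ⬝ᵥ a1) • (l2 • (r ⨯₃ b2)) - (m ⬝ᵥ a2) • (l1 • (r ⨯₃ b1)) with hs
    have k1 := key (p ⨯₃ s)
    rw [hmn, zero_mul, add_zero] at k1
    have k1' : (p ⨯₃ s) ⬝ᵥ (p ⨯₃ s) = 0 := by
      rw [← k1]
      rw [hs]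
      simp only [lv08_dot, lv08_c0, lv08_c1, lv08_c2, Pi.smul_apply, smul_eq_mul, Pi.sub_apply]
      ring
    have hps : p ⨯₃ s = 0 := by
      by_contra h
      exact (lv08_sq_pos h).ne' k1'
    obtain ⟨c, hc⟩ := exists_smul_of_cross_eq_zero hp hps
    have hsr : r ⬝ᵥ s = 0 := by
      rw [hs]
      simp only [lv08_dot, lv08_c0, lv08_c1, lv08_c2, Pi.smul_apply, smul_eq_mul, Pi.sub_apply]
      ring
    have hc0 : c = 0 := by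
      rw [hc, dotProduct_smul, smul_eq_mul] at hsr
      rcases mul_eq_zero.1 hsr with h | h
      · exact h
      · exact absurd h hr0
    have hs0 : s = 0 := by rw [hc, hc0, zero_smul]
    have hr : r ≠ 0 := by
      rintro rfl
      apply hr0; simp
    have hq : r ⨯₃ (((m ⬝ᵥ a1) * l2) • b2 - ((m ⬝ᵥ a2) * l1) • b1) = 0 := by
      rw [← hs0, hs]
      apply lv08_ext <;> simp only [lv08_c0, lv08_c1, lv08_c2, Pi.smul_apply, smul_eq_mul,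
        Pi.sub_apply] <;> ring
    obtain ⟨c', hc'⟩ := exists_smul_of_cross_eq_zero hr hq
    have hc'0 : c' = 0 := by
      have h1 : (((m ⬝ᵥ a1) * l2) • b2 - ((m ⬝ᵥ a2) * l1) • b1) ⬝ᵥ (b1 ⨯₃ b2) = 0 := by
        simp only [lv08_dot, lv08_c0, lv08_c1, lv08_c2, Pi.smul_apply, smul_eq_mul, Pi.sub_apply]
        ring
      rw [hc', smul_dotProduct, smul_eq_mul] at h1
      rcases mul_eq_zero.1 h1 with h | h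
      · exact h
      · exact absurd h hr12
    rw [hc'0, zero_smul] at hc'
    have hc2 := sub_eq_zero.1 hc'
    have m1 : m ⬝ᵥ a1 = 0 := by
      by_contra h
      exact hb12 (lv08_par_comm (lv08_par_of_smul (mul_ne_zero h hl2) hc2))
    have m2 : m ⬝ᵥ a2 = 0 := by
      by_contra h
      exact hb12 (lv08_par_of_smul (mul_ne_zero h hl1) hc2.symm)
    rw [m1, m2, hmn] at hdual
    simp only [zero_smul, add_zero] at hdual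
    rcases smul_eq_zero.1 hdual with h | h
    · exact hn0.ne' h
    · exact hm h
  · have hd1 : a1 ⬝ᵥ (a2 ⨯₃ a3) ≠ 0 := by
      have : a1 ⬝ᵥ (a2 ⨯₃ a3) = a3 ⬝ᵥ (a1 ⨯₃ a2) := by
        simp only [lv08_dot, lv08_c0, lv08_c1, lv08_c2]; ring
      rwa [this]
    have hdual := lv08_dual a1 a2 a3 m
    by_contra hcon
    push Not at hcon
    have key : ∀ t1 t2 t3 : E3, t1 ⬝ᵥ b1 = 0 → t2 ⬝ᵥ b2 = 0 → t3 ⬝ᵥ b3 = 0 →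
        (m ⬝ᵥ a1) * (p ⬝ᵥ (t2 ⨯₃ t3)) + (m ⬝ᵥ a2) * (p ⬝ᵥ (t3 ⨯₃ t1)) +
        (m ⬝ᵥ a3) * (p ⬝ᵥ (t1 ⨯₃ t2)) = 0 := by
      intro t1 t2 t3 h1 h2 h3
      obtain ⟨g, g1, g2, g3⟩ := lv08_mk a1 a2 a3 t1 t2 t3 hd1
      have h4 := hcon g ⟨by rw [g1]; exact h1, by rw [g2]; exact h2, by rw [g3]; exact h3⟩
      have h5 := congrArg (fun x => p ⬝ᵥ ((g.adjugate)ᵀ *ᵥ x)) hdual
      simp only [mulVec_add, mulVec_smul, dotProduct_add, dotProduct_smul, smul_eq_mul] at h5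
      rw [h4, lv08_cof, lv08_cof, lv08_cof, g1, g2, g3, mul_zero] at h5
      exact h5.symm
    have m3 : m ⬝ᵥ a3 = 0 := by
      obtain ⟨t1, t2, h1, h2, h3⟩ := lv08_T hb12 hp
      have k := key t1 t2 0 h1 h2 (by simp)
      have k' : (m ⬝ᵥ a3) * (p ⬝ᵥ (t1 ⨯₃ t2)) = 0 := by
        rw [← k]; simp
      rcases mul_eq_zero.1 k' with h | h
      · exact h
      · exact absurd h h3
    have m2 : m ⬝ᵥ a2 = 0 := by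
      obtain ⟨t1, t3, h1, h2, h3⟩ := lv08_T hb13 hp
      have k := key t1 0 t3 h1 (by simp) h2
      have k' : (m ⬝ᵥ a2) * (p ⬝ᵥ (t3 ⨯₃ t1)) = 0 := by
        rw [← k]; simp
      rcases mul_eq_zero.1 k' with h | h
      · exact h
      · exfalso
        apply h3
        have : p ⬝ᵥ (t1 ⨯₃ t3) = -(p ⬝ᵥ (t3 ⨯₃ t1)) := by
          simp only [lv08_dot, lv08_c0, lv08_c1, lv08_c2]; ring
        rw [this, h, neg_zero]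
    have m1 : m ⬝ᵥ a1 = 0 := by
      obtain ⟨t2, t3, h1, h2, h3⟩ := lv08_T hb23 hp
      have k := key 0 t2 t3 (by simp) h1 h2
      have k' : (m ⬝ᵥ a1) * (p ⬝ᵥ (t2 ⨯₃ t3)) = 0 := by
        rw [← k]; simp
      rcases mul_eq_zero.1 k' with h | h
      · exact h
      · exact absurd h h3
    rw [m1, m2, m3] at hdual
    simp only [zero_smul, add_zero] at hdual
    rcases smul_eq_zero.1 hdual with h | h
    · exact hd1 h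
    · exact hm h

theorem lv08_uv (m : E3) : ∃ u v : E3, u ⨯₃ v = m := by
  by_cases hm : m = 0
  · exact ⟨0, 0, by simp [hm]⟩
  · obtain ⟨w, -, hw⟩ := exists_generic {m} (by
      intro a ha
      rw [Finset.mem_singleton] at ha
      rw [ha]; exact hm)
    have h1 : w ⨯₃ m ≠ 0 := (hw m (by simp)).2
    have h2 := (lv08_sq_pos h1).ne'
    refine ⟨w ⨯₃ m, ((w ⨯₃ m) ⬝ᵥ (w ⨯₃ m))⁻¹ • (m ⨯₃ (w ⨯₃ m)), ?_⟩
    rw [map_smul, inv_smul_eq_iff₀ h2]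
    apply lv08_ext <;> simp only [lv08_dot, lv08_c0, lv08_c1, lv08_c2, Pi.smul_apply,
      smul_eq_mul] <;> ring

/-- evaluation at a vector, on a subspace of matrices -/
def lv08_ev (L : Submodule ℝ (Matrix (Fin 3) (Fin 3) ℝ)) (x : E3) : L →ₗ[ℝ] E3 where
  toFun g := (g : Matrix (Fin 3) (Fin 3) ℝ) *ᵥ x
  map_add' := by intro g h; simp [add_mulVec]
  map_smul' := by intro c g; simp [smul_mulVec]

theorem lv08_polyV (L : Submodule ℝ (Matrix (Fin 3) (Fin 3) ℝ)) (x : E3) :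
    PolyV (fun g : L => (g : Matrix (Fin 3) (Fin 3) ℝ) *ᵥ x) :=
  PolyV.lin (lv08_ev L x)

theorem glue30_vec (a1 a2 a3 b1 b2 b3 : E3)
    (ha12 : ¬ Par a1 a2) (ha13 : ¬ Par a1 a3) (ha23 : ¬ Par a2 a3)
    (hb12 : ¬ Par b1 b2) (hb13 : ¬ Par b1 b3) (hb23 : ¬ Par b2 b3)
    (A B : Finset (E3 × E3))
    (hA : ∀ e ∈ A, e.1 ≠ 0 ∧ e.2 ≠ 0 ∧ ¬ (Par e.1 a1 ∧ Par e.2 b1) ∧
      ¬ (Par e.1 a2 ∧ Par e.2 b2) ∧ ¬ (Par e.1 a3 ∧ Par e.2 b3) ∧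
      (a3 ⬝ᵥ (a1 ⨯₃ a2) = 0 → e.1 ⬝ᵥ (a1 ⨯₃ a2) = 0 → Par e.1 a1 ∨ Par e.1 a2 ∨ Par e.1 a3))
    (hB : ∀ e ∈ B, e.1 ≠ 0 ∧ e.2 ≠ 0) :
    ∃ g h : Matrix (Fin 3) (Fin 3) ℝ, g * h = 1 ∧ h * g = 1 ∧
      (g *ᵥ a1) ⬝ᵥ b1 = 0 ∧ (g *ᵥ a2) ⬝ᵥ b2 = 0 ∧ (g *ᵥ a3) ⬝ᵥ b3 = 0 ∧
      (∀ e ∈ A, (g *ᵥ e.1) ⬝ᵥ e.2 ≠ 0) ∧ (∀ e ∈ B, (h *ᵥ e.1) ⬝ᵥ e.2 ≠ 0) := by
  classical
  set L := lv08_L a1 a2 a3 b1 b2 b3 with hL
  choose uu vv huv using lv08_uv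
  -- the index set: `none`, `some (inl e)`, `some (inr e)`
  let f : Option ((E3 × E3) ⊕ (E3 × E3)) → L → ℝ := fun i g =>
    match i with
    | none => ((g : Matrix (Fin 3) (Fin 3) ℝ) *ᵥ ![1, 0, 0]) ⬝ᵥ
        (((g : Matrix (Fin 3) (Fin 3) ℝ) *ᵥ ![0, 1, 0]) ⨯₃
          ((g : Matrix (Fin 3) (Fin 3) ℝ) *ᵥ ![0, 0, 1]))
    | some (Sum.inl e) => ((g : Matrix (Fin 3) (Fin 3) ℝ) *ᵥ e.1) ⬝ᵥ e.2
    | some (Sum.inr e) => e.1 ⬝ᵥ (((g : Matrix (Fin 3) (Fin 3) ℝ) *ᵥ (uu e.2)) ⨯₃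
          ((g : Matrix (Fin 3) (Fin 3) ℝ) *ᵥ (vv e.2)))
  obtain ⟨g, hg⟩ := exists_common
    (insert none ((A.disjSum B).image some) : Finset (Option ((E3 × E3) ⊕ (E3 × E3)))) f
    (by
      intro i hi
      rcases i with _ | (e | e)
      · exact PolyV.dot (lv08_polyV L _) (PolyV.cross (lv08_polyV L _) (lv08_polyV L _))
      · exact PolyV.dot (lv08_polyV L _) (PolyV.const _)
      · exact PolyV.dot (PolyV.const _) (PolyV.cross (lv08_polyV L _) (lv08_polyV L _)))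
    (by
      intro i hi
      rcases i with _ | (e | e)
      · obtain ⟨g, hg, hdet⟩ := lv08_D ha12 ha13 ha23 hb12 hb13 hb23
        refine ⟨⟨g, hg⟩, ?_⟩
        show (g *ᵥ ![1, 0, 0]) ⬝ᵥ ((g *ᵥ ![0, 1, 0]) ⨯₃ (g *ᵥ ![0, 0, 1])) ≠ 0
        rw [lv08_det]
        refine mul_ne_zero hdet ?_
        rw [lv08_dot, lv08_c0, lv08_c1, lv08_c2]
        simp
      · have he : e ∈ A := by simpa using hi
        obtain ⟨e1, e2, e3, e4, e5, e6⟩ := hA e he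
        obtain ⟨g, hg, hne⟩ := lv08_A ha12 ha13 ha23 hb12 hb13 hb23 e1 e2 e3 e4 e5 e6
        exact ⟨⟨g, hg⟩, hne⟩
      · have he : e ∈ B := by simpa using hi
        obtain ⟨g, hg, hne⟩ := lv08_B ha12 ha13 ha23 hb12 hb13 hb23 (hB e he).1 (hB e he).2
        refine ⟨⟨g, hg⟩, ?_⟩
        show e.1 ⬝ᵥ ((g *ᵥ (uu e.2)) ⨯₃ (g *ᵥ (vv e.2))) ≠ 0
        rw [← lv08_cof, huv]
        exact hne)
  have hdet : (g : Matrix (Fin 3) (Fin 3) ℝ).det ≠ 0 := by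
    have h1 := hg none (by simp)
    intro h0
    apply h1
    show ((g : Matrix (Fin 3) (Fin 3) ℝ) *ᵥ ![1, 0, 0]) ⬝ᵥ
        (((g : Matrix (Fin 3) (Fin 3) ℝ) *ᵥ ![0, 1, 0]) ⨯₃
          ((g : Matrix (Fin 3) (Fin 3) ℝ) *ᵥ ![0, 0, 1])) = 0
    rw [lv08_det, h0, zero_mul]
  have hu : IsUnit (g : Matrix (Fin 3) (Fin 3) ℝ).det := isUnit_iff_ne_zero.2 hdet
  obtain ⟨q1, q2, q3⟩ := g.2
  refine ⟨g, (g : Matrix (Fin 3) (Fin 3) ℝ)⁻¹, Matrix.mul_nonsing_inv _ hu,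
    Matrix.nonsing_inv_mul _ hu, q1, q2, q3, ?_, ?_⟩
  · intro e he
    exact hg (some (Sum.inl e)) (by simp [he])
  · intro e he
    have h1 : e.1 ⬝ᵥ (((g : Matrix (Fin 3) (Fin 3) ℝ) *ᵥ (uu e.2)) ⨯₃
          ((g : Matrix (Fin 3) (Fin 3) ℝ) *ᵥ (vv e.2))) ≠ 0 :=
      hg (some (Sum.inr e)) (by simp [he])
    rw [← lv08_cof, huv] at h1
    rw [lv08_inv]
    exact mul_ne_zero (inv_ne_zero hdet) h1

end Pool.Agent.Levi3
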