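import Pool.Agent.Levi3.Defs

/-! LV09 : GlueND -/

namespace Pool.Agent.Levi3

open Matrix Finset

variable {V : Type} [DecidableEq V]

theorem lv09_inv {g h : Matrix (Fin 3) (Fin 3) ℝ} (hhg : h * g = 1) (x : E3) :
    h *ᵥ (g *ᵥ x) = x := by
  rw [mulVec_mulVec, hhg, one_mulVec]

theorem lv09_ne {g h : Matrix (Fin 3) (Fin 3) ℝ} (hhg : h * g = 1) {x : E3} (hx : x ≠ 0) :
    g *ᵥ x ≠ 0 := by
  intro h0
  apply hx
  rw [← lv09_inv hhg x, h0, mulVec_zero]

theorem lv09_cross {g h : Matrix (Fin 3) (Fin 3) ℝ} (hhg : h * g = 1) {x y : E3}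
    (hx : x ≠ 0) (hxy : x ⨯₃ y ≠ 0) : (g *ᵥ x) ⨯₃ (g *ᵥ y) ≠ 0 := by
  intro h0
  obtain ⟨c, hc⟩ := exists_smul_of_cross_eq_zero (lv09_ne hhg hx) h0
  apply hxy
  have : y = c • x := by
    rw [← lv09_inv hhg y, hc, mulVec_smul, lv09_inv hhg]
  rw [this, LinearMap.map_smul, cross_self, smul_zero]

theorem lv09_transpose {g h : Matrix (Fin 3) (Fin 3) ℝ} (hgh : g * h = 1) : hᵀ * gᵀ = 1 := by
  rw [← transpose_mul, hgh, transpose_one]

theorem lv09_dot {g h : Matrix (Fin 3) (Fin 3) ℝ} (hhg : h * g = 1) (x y : E3) :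
    (g *ᵥ x) ⬝ᵥ (hᵀ *ᵥ y) = x ⬝ᵥ y := by
  rw [dotProduct_mulVec, ← mulVec_transpose, transpose_transpose, lv09_inv hhg]

theorem lv09_dot' (h : Matrix (Fin 3) (Fin 3) ℝ) (x y : E3) :
    (hᵀ *ᵥ x) ⬝ᵥ y = (h *ᵥ y) ⬝ᵥ x := by
  rw [dotProduct_comm, dotProduct_mulVec, ← mulVec_transpose, transpose_transpose]

theorem lv09_bool {a b c : Bool} (h1 : a ≠ b) (h2 : a ≠ c) : b = c := by
  revert a b c
  decide

theorem glue_nd (G : Inc V) (S T : Finset V) (hdj : Disjoint S T) (hC4 : C4F G (S ∪ T))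
    (hdeg : ∀ v ∈ S ∪ T, 2 ≤ deg G (S ∪ T) v) (zS zT : V → E3)
    (hS : NDm G S (fun _ _ => False) zS) (hT : NDm G T (fun _ _ => False) zT)
    (g h : Matrix (Fin 3) (Fin 3) ℝ) (hgh : g * h = 1) (hhg : h * g = 1) (τ : Bool)
    (h1 : ∀ s ∈ S, ∀ t ∈ T, G.typ s = τ → G.typ t ≠ τ →
      ((g *ᵥ zS s) ⬝ᵥ zT t = 0 ↔ G.adj s t))
    (h2 : ∀ s ∈ S, ∀ t ∈ T, G.typ s ≠ τ → G.typ t = τ →
      ((h *ᵥ zT t) ⬝ᵥ zS s = 0 ↔ G.adj s t)) :
    ND G (S ∪ T) := by
  classical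
  have hgt : hᵀ * gᵀ = 1 := lv09_transpose hgh
  have hht : gᵀ * hᵀ = 1 := lv09_transpose hhg
  set z : V → E3 := fun v => if v ∈ S then (if G.typ v = τ then g *ᵥ zS v else hᵀ *ᵥ zS v)
    else zT v with hz
  have zS1 : ∀ v ∈ S, G.typ v = τ → z v = g *ᵥ zS v := fun v hv ht => by simp [hz, hv, ht]
  have zS2 : ∀ v ∈ S, G.typ v ≠ τ → z v = hᵀ *ᵥ zS v := fun v hv ht => by simp [hz, hv, ht]
  have zT1 : ∀ v ∈ T, z v = zT v := fun v hv => by
    have : v ∉ S := fun h => Finset.disjoint_left.mp hdj h hv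
    simp [hz, this]
  -- two opposite vertices in `S`
  have dS : ∀ u ∈ S, ∀ v ∈ S, G.typ u ≠ G.typ v → z u ⬝ᵥ z v = zS u ⬝ᵥ zS v := by
    intro u hu v hv huv
    by_cases ht : G.typ u = τ
    · have ht' : G.typ v ≠ τ := fun h => huv (ht.trans h.symm)
      rw [zS1 u hu ht, zS2 v hv ht', lv09_dot hhg]
    · have ht' : G.typ v = τ := lv09_bool huv ht
      rw [zS2 u hu ht, zS1 v hv ht', dotProduct_comm, lv09_dot hhg, dotProduct_comm]
  have iS : ∀ (R : Finset V) (y : V → E3), NDm G R (fun _ _ => False) y → ∀ u ∈ R, ∀ v ∈ R,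
      G.typ u ≠ G.typ v → (y u ⬝ᵥ y v = 0 ↔ G.adj u v) := by
    intro R y hy u hu v hv huv
    constructor
    · intro h0
      by_contra hadj
      exact hy.ninc u hu v hv huv hadj (fun h => h) h0
    · intro hadj
      exact hy.pl.inc u hu v hv hadj
  -- a vertex in `S`, a vertex in `T`
  have iST : ∀ u ∈ S, ∀ v ∈ T, G.typ u ≠ G.typ v → (z u ⬝ᵥ z v = 0 ↔ G.adj u v) := by
    intro u hu v hv huv
    by_cases ht : G.typ u = τ
    · have ht' : G.typ v ≠ τ := fun h => huv (ht.trans h.symm)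
      rw [zS1 u hu ht, zT1 v hv]
      exact h1 u hu v hv ht ht'
    · have ht' : G.typ v = τ := lv09_bool huv ht
      rw [zS2 u hu ht, zT1 v hv, lv09_dot']
      exact h2 u hu v hv ht ht'
  have hiff : ∀ u ∈ S ∪ T, ∀ v ∈ S ∪ T, G.typ u ≠ G.typ v → (z u ⬝ᵥ z v = 0 ↔ G.adj u v) := by
    intro u hu v hv huv
    rcases Finset.mem_union.mp hu with hu | hu
    · rcases Finset.mem_union.mp hv with hv | hv
      · rw [dS u hu v hv huv]
        exact iS S zS hS u hu v hv huv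
      · exact iST u hu v hv huv
    · rcases Finset.mem_union.mp hv with hv | hv
      · rw [dotProduct_comm, G.comm]
        exact iST v hv u hu huv.symm
      · rw [zT1 u hu, zT1 v hv]
        exact iS T zT hT u hu v hv huv
  have hnz : ∀ v ∈ S ∪ T, z v ≠ 0 := by
    intro v hv
    rcases Finset.mem_union.mp hv with hv | hv
    · by_cases ht : G.typ v = τ
      · rw [zS1 v hv ht]; exact lv09_ne hhg (hS.pl.nz v hv)
      · rw [zS2 v hv ht]; exact lv09_ne hht (hS.pl.nz v hv)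
    · rw [zT1 v hv]; exact hT.pl.nz v hv
  have hcross : ∀ s ∈ S, ∀ t ∈ T, G.typ s = G.typ t → z s ⨯₃ z t ≠ 0 := by
    intro s hs t ht hst h0
    have hsU : s ∈ S ∪ T := Finset.mem_union_left _ hs
    have htU : t ∈ S ∪ T := Finset.mem_union_right _ ht
    obtain ⟨c, hc⟩ := exists_smul_of_cross_eq_zero (hnz s hsU) h0
    have hd : 1 < (nb G (S ∪ T) s).card := hdeg s hsU
    obtain ⟨u1, hu1, u2, hu2, hne⟩ := Finset.one_lt_card.mp hd
    rw [mem_nb] at hu1 hu2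
    have key : ∀ u, u ∈ S ∪ T → G.adj s u → G.adj t u := by
      intro u hu hsu
      have t1 : G.typ t ≠ G.typ u := by rw [← hst]; exact G.bip hsu
      rw [← hiff t htU u hu t1, hc, smul_dotProduct,
        (hiff s hsU u hu (G.bip hsu)).mpr hsu, smul_zero]
    rcases hC4 s hsU u1 hu1.1 t htU u2 hu2.1 hu1.2 (G.symm (key u1 hu1.1 hu1.2))
      (key u2 hu2.1 hu2.2) (G.symm hu2.2) with h3 | h3
    · subst h3
      exact Finset.disjoint_left.mp hdj hs ht
    · exact hne h3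
  refine ⟨z, ⟨hnz, ?_⟩, ?_, ?_⟩
  · intro u hu v hv huv
    exact (hiff u hu v hv (G.bip huv)).mpr huv
  · intro u hu v hv huv hne
    rcases Finset.mem_union.mp hu with hu | hu
    · rcases Finset.mem_union.mp hv with hv | hv
      · by_cases ht : G.typ u = τ
        · rw [zS1 u hu ht, zS1 v hv (huv ▸ ht)]
          exact lv09_cross hhg (hS.pl.nz u hu) (hS.dis u hu v hv huv hne)
        · rw [zS2 u hu ht, zS2 v hv (huv ▸ ht)]
          exact lv09_cross hht (hS.pl.nz u hu) (hS.dis u hu v hv huv hne)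
      · exact hcross u hu v hv huv
    · rcases Finset.mem_union.mp hv with hv | hv
      · rw [← cross_anticomm]
        exact neg_ne_zero.mpr (hcross v hv u hu huv.symm)
      · rw [zT1 u hu, zT1 v hv]
        exact hT.dis u hu v hv huv hne
  · intro u hu v hv huv hadj _ h0
    exact hadj ((hiff u hu v hv huv).mp h0)

end Pool.Agent.Levi3
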