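import Pool.Agent.Levi3.Defs
import Pool.Agent.Levi3.LV01
import Pool.Agent.Levi3.LV07
import Pool.Agent.Levi3.LV09

/-! LV10 : Glue22 -/

namespace Pool.Agent.Levi3

open Matrix Finset

variable {V : Type} [DecidableEq V]

theorem lv10_par_symm {u v : E3} (h : Par u v) : Par v u := by
  unfold Par at h ⊢
  rw [← cross_anticomm, h, neg_zero]

theorem lv10_par_self (u : E3) : Par u u := by
  unfold Par
  exact cross_self u

/-- A generic pair of vectors. -/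
def lv10_Dum (Z : Finset E3) (p : E3 × E3) : Prop :=
  p.1 ≠ 0 ∧ p.2 ≠ 0 ∧ ∀ z ∈ Z, p.1 ⬝ᵥ z ≠ 0 ∧ ¬ Par p.1 z ∧ p.2 ⬝ᵥ z ≠ 0 ∧ ¬ Par p.2 z

omit [DecidableEq V] in
theorem lv10_pick (zS zT : V → E3) (E : Finset (V × V)) (hc : E.card ≤ 2)
    (hnz : ∀ e ∈ E, zS e.1 ≠ 0 ∧ zT e.2 ≠ 0)
    (hpar : ∀ e ∈ E, ∀ f ∈ E, e ≠ f → ¬ Par (zS e.1) (zS f.1) ∧ ¬ Par (zT e.2) (zT f.2))
    (Z : Finset E3) (hZ : ∀ z ∈ Z, z ≠ 0) :
    ∃ p1 p2 : E3 × E3, (∀ e ∈ E, (zS e.1, zT e.2) = p1 ∨ (zS e.1, zT e.2) = p2) ∧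
      ¬ Par p1.1 p2.1 ∧ ¬ Par p1.2 p2.2 ∧
      (∀ p, (p = p1 ∨ p = p2) → (∃ e ∈ E, p = (zS e.1, zT e.2)) ∨ lv10_Dum Z p) := by
  classical
  have hcase : E = ∅ ∨ (∃ e, E = {e}) ∨ ∃ e f, e ≠ f ∧ E = {e, f} := by
    have h3 : E.card = 0 ∨ E.card = 1 ∨ E.card = 2 := by omega
    rcases h3 with h | h | h
    · exact Or.inl (Finset.card_eq_zero.1 h)
    · exact Or.inr (Or.inl (Finset.card_eq_one.1 h))
    · obtain ⟨e, f, hef, h⟩ := Finset.card_eq_two.1 h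
      exact Or.inr (Or.inr ⟨e, f, hef, h⟩)
  rcases hcase with rfl | ⟨e, rfl⟩ | ⟨e, f, hef, rfl⟩
  · obtain ⟨v, hv0, hv⟩ := exists_generic Z hZ
    obtain ⟨w, hw0, hw⟩ := exists_generic (insert v Z) (by
      intro a ha
      rcases Finset.mem_insert.1 ha with rfl | ha
      · exact hv0
      · exact hZ a ha)
    refine ⟨(v, v), (w, w), by simp, ?_, ?_, ?_⟩
    · intro h
      exact (hw v (by simp)).2 (lv10_par_symm h)
    · intro h
      exact (hw v (by simp)).2 (lv10_par_symm h)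
    · intro p hp
      right
      rcases hp with rfl | rfl
      · exact ⟨hv0, hv0, fun z hz => ⟨(hv z hz).1, (hv z hz).2, (hv z hz).1, (hv z hz).2⟩⟩
      · refine ⟨hw0, hw0, fun z hz => ?_⟩
        have := hw z (Finset.mem_insert_of_mem hz)
        exact ⟨this.1, this.2, this.1, this.2⟩
  · obtain ⟨he1, he2⟩ := hnz e (by simp)
    obtain ⟨w, hw0, hw⟩ := exists_generic (insert (zS e.1) (insert (zT e.2) Z)) (by
      intro a ha
      rcases Finset.mem_insert.1 ha with rfl | ha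
      · exact he1
      rcases Finset.mem_insert.1 ha with rfl | ha
      · exact he2
      · exact hZ a ha)
    refine ⟨(zS e.1, zT e.2), (w, w), ?_, ?_, ?_, ?_⟩
    · intro f hf
      rw [Finset.mem_singleton] at hf
      subst hf
      exact Or.inl rfl
    · intro h
      exact (hw (zS e.1) (by simp)).2 (lv10_par_symm h)
    · intro h
      exact (hw (zT e.2) (by simp)).2 (lv10_par_symm h)
    · intro p hp
      rcases hp with rfl | rfl
      · exact Or.inl ⟨e, by simp, rfl⟩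
      · right
        refine ⟨hw0, hw0, fun z hz => ?_⟩
        have := hw z (Finset.mem_insert_of_mem (Finset.mem_insert_of_mem hz))
        exact ⟨this.1, this.2, this.1, this.2⟩
  · have h := hpar e (by simp) f (by simp) hef
    refine ⟨(zS e.1, zT e.2), (zS f.1, zT f.2), ?_, h.1, h.2, ?_⟩
    · intro k hk
      rcases Finset.mem_insert.1 hk with rfl | hk
      · exact Or.inl rfl
      · rw [Finset.mem_singleton] at hk
        subst hk
        exact Or.inr rfl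
    · intro p hp
      rcases hp with rfl | rfl
      · exact Or.inl ⟨e, by simp, rfl⟩
      · exact Or.inl ⟨f, by simp, rfl⟩

theorem glue22 (G : Inc V) (S T : Finset V) (hdj : Disjoint S T) (hC4 : C4F G (S ∪ T))
    (hdeg : ∀ v ∈ S ∪ T, 2 ≤ deg G (S ∪ T) v) (hS : ND G S) (hT : ND G T) (τ : Bool)
    (E1 E2 : Finset (V × V))
    (hE1 : ∀ s t, (s, t) ∈ E1 ↔ s ∈ S ∧ t ∈ T ∧ G.adj s t ∧ G.typ s = τ)
    (hE2 : ∀ s t, (s, t) ∈ E2 ↔ s ∈ S ∧ t ∈ T ∧ G.adj s t ∧ G.typ s ≠ τ)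
    (c1 : E1.card ≤ 2) (c2 : E2.card ≤ 2)
    (m1 : ∀ e ∈ E1, ∀ f ∈ E1, e ≠ f → e.1 ≠ f.1 ∧ e.2 ≠ f.2)
    (m2 : ∀ e ∈ E2, ∀ f ∈ E2, e ≠ f → e.1 ≠ f.1 ∧ e.2 ≠ f.2)
    (F1 : ∀ e ∈ E1, ∀ f ∈ E1, e ≠ f → ∀ k ∈ E2, ¬ (G.adj e.1 k.1 ∧ G.adj f.1 k.1))
    (F2 : ∀ k ∈ E2, ∀ l ∈ E2, k ≠ l → ∀ e ∈ E1, ¬ (G.adj k.2 e.2 ∧ G.adj l.2 e.2)) :
    ND G (S ∪ T) := by
  classical
  obtain ⟨zS, hzS⟩ := hS
  obtain ⟨zT, hzT⟩ := hT
  -- basic facts on the edges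
  have e1 : ∀ e ∈ E1, e.1 ∈ S ∧ e.2 ∈ T ∧ G.adj e.1 e.2 ∧ G.typ e.1 = τ ∧ G.typ e.2 ≠ τ := by
    rintro ⟨s, t⟩ he
    obtain ⟨h1, h2, h3, h4⟩ := (hE1 s t).1 he
    refine ⟨h1, h2, h3, h4, ?_⟩
    rw [← h4]
    exact (G.bip h3).symm
  have e2 : ∀ e ∈ E2, e.1 ∈ S ∧ e.2 ∈ T ∧ G.adj e.1 e.2 ∧ G.typ e.1 ≠ τ ∧ G.typ e.2 = τ := by
    rintro ⟨s, t⟩ he
    obtain ⟨h1, h2, h3, h4⟩ := (hE2 s t).1 he
    refine ⟨h1, h2, h3, h4, ?_⟩
    have h5 := G.bip h3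
    revert h4 h5
    simp only
    cases G.typ s <;> cases G.typ t <;> cases τ <;> simp
  have bne : ∀ {x y : Bool}, x ≠ τ → y ≠ τ → x = y := by
    intro x y
    cases x <;> cases y <;> cases τ <;> simp
  set Z0 : Finset E3 := S.image zS ∪ T.image zT with hZ0
  have hZ0S : ∀ s ∈ S, zS s ∈ Z0 := fun s hs =>
    Finset.mem_union_left _ (Finset.mem_image_of_mem _ hs)
  have hZ0T : ∀ t ∈ T, zT t ∈ Z0 := fun t ht =>
    Finset.mem_union_right _ (Finset.mem_image_of_mem _ ht)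
  have hZ0nz : ∀ z ∈ Z0, z ≠ 0 := by
    intro z hz
    rcases Finset.mem_union.1 hz with hz | hz
    · obtain ⟨s, hs, rfl⟩ := Finset.mem_image.1 hz
      exact hzS.pl.nz s hs
    · obtain ⟨s, hs, rfl⟩ := Finset.mem_image.1 hz
      exact hzT.pl.nz s hs
  obtain ⟨p1, p2, hp, hpa, hpb, hpr⟩ := lv10_pick zS zT E1 c1
    (fun e he => ⟨hzS.pl.nz _ (e1 e he).1, hzT.pl.nz _ (e1 e he).2.1⟩)
    (fun e he f hf hef => ⟨hzS.dis _ (e1 e he).1 _ (e1 f hf).1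
      ((e1 e he).2.2.2.1.trans (e1 f hf).2.2.2.1.symm) (m1 e he f hf hef).1,
      hzT.dis _ (e1 e he).2.1 _ (e1 f hf).2.1
      (bne (e1 e he).2.2.2.2 (e1 f hf).2.2.2.2) (m1 e he f hf hef).2⟩) Z0 hZ0nz
  have hpnz : ∀ p, (p = p1 ∨ p = p2) → p.1 ≠ 0 ∧ p.2 ≠ 0 := by
    intro p h
    rcases hpr p h with ⟨e, he, rfl⟩ | hd
    · exact ⟨hzS.pl.nz _ (e1 e he).1, hzT.pl.nz _ (e1 e he).2.1⟩
    · exact ⟨hd.1, hd.2.1⟩
  obtain ⟨q1, q2, hq, hqa, hqb, hqr⟩ := lv10_pick zS zT E2 c2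
    (fun e he => ⟨hzS.pl.nz _ (e2 e he).1, hzT.pl.nz _ (e2 e he).2.1⟩)
    (fun e he f hf hef => ⟨hzS.dis _ (e2 e he).1 _ (e2 f hf).1
      (bne (e2 e he).2.2.2.1 (e2 f hf).2.2.2.1) (m2 e he f hf hef).1,
      hzT.dis _ (e2 e he).2.1 _ (e2 f hf).2.1
      ((e2 e he).2.2.2.2.trans (e2 f hf).2.2.2.2.symm) (m2 e he f hf hef).2⟩)
    (insert p1.1 (insert p2.1 (insert p1.2 (insert p2.2 Z0)))) (by
      intro z hz
      simp only [Finset.mem_insert] at hz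
      rcases hz with rfl | rfl | rfl | rfl | hz
      · exact (hpnz p1 (Or.inl rfl)).1
      · exact (hpnz p2 (Or.inr rfl)).1
      · exact (hpnz p1 (Or.inl rfl)).2
      · exact (hpnz p2 (Or.inr rfl)).2
      · exact hZ0nz z hz)
  -- real pairs
  have key1 : ∀ p, (p = p1 ∨ p = p2) → ∀ s ∈ S, ∀ t ∈ T, G.typ s = τ → G.typ t ≠ τ →
      ¬ G.adj s t → ¬ (Par (zS s) p.1 ∧ Par (zT t) p.2) := by
    intro p hp' s hs t ht h1 h2 h3 ⟨h4, h5⟩
    rcases hpr p hp' with ⟨e, he, rfl⟩ | hd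
    · obtain ⟨he1, he2, he3, he4, he5⟩ := e1 e he
      have hse : s = e.1 := by
        by_contra hne
        exact hzS.dis s hs e.1 he1 (h1.trans he4.symm) hne h4
      have hte : t = e.2 := by
        by_contra hne
        exact hzT.dis t ht e.2 he2 (bne h2 he5) hne h5
      rw [hse, hte] at h3
      exact h3 he3
    · exact (hd.2.2 _ (hZ0S s hs)).2.1 (lv10_par_symm h4)
  have key2 : ∀ q, (q = q1 ∨ q = q2) → ∀ s ∈ S, ∀ t ∈ T, G.typ s ≠ τ → G.typ t = τ →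
      ¬ G.adj s t → ¬ (Par (zT t) q.2 ∧ Par (zS s) q.1) := by
    intro q hq' s hs t ht h1 h2 h3 ⟨h5, h4⟩
    rcases hqr q hq' with ⟨e, he, rfl⟩ | hd
    · obtain ⟨he1, he2, he3, he4, he5⟩ := e2 e he
      have hse : s = e.1 := by
        by_contra hne
        exact hzS.dis s hs e.1 he1 (bne h1 he4) hne h4
      have hte : t = e.2 := by
        by_contra hne
        exact hzT.dis t ht e.2 he2 (h2.trans he5.symm) hne h5
      rw [hse, hte] at h3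
      exact h3 he3
    · have hm : zS s ∈ insert p1.1 (insert p2.1 (insert p1.2 (insert p2.2 Z0))) := by
        simp only [Finset.mem_insert]
        exact Or.inr (Or.inr (Or.inr (Or.inr (hZ0S s hs))))
      exact (hd.2.2 _ hm).2.1 (lv10_par_symm h4)
  -- orthogonality of real vectors
  have orS : ∀ e ∈ E1, ∀ k ∈ E2, zS e.1 ⬝ᵥ zS k.1 = 0 → G.adj e.1 k.1 := by
    intro e he k hk h
    by_contra hne
    refine hzS.ninc e.1 (e1 e he).1 k.1 (e2 k hk).1 ?_ hne (fun h => h) h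
    rw [(e1 e he).2.2.2.1]
    exact (e2 k hk).2.2.2.1.symm
  have orT : ∀ e ∈ E1, ∀ k ∈ E2, zT k.2 ⬝ᵥ zT e.2 = 0 → G.adj k.2 e.2 := by
    intro e he k hk h
    by_contra hne
    refine hzT.ninc k.2 (e2 k hk).2.1 e.2 (e1 e he).2.1 ?_ hne (fun h => h) h
    rw [(e2 k hk).2.2.2.2]
    exact (e1 e he).2.2.2.2.symm
  have memq : ∀ z ∈ Z0, z ∈ insert p1.1 (insert p2.1 (insert p1.2 (insert p2.2 Z0))) := by
    intro z hz
    simp only [Finset.mem_insert]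
    exact Or.inr (Or.inr (Or.inr (Or.inr hz)))
  have memp : ∀ p, (p = p1 ∨ p = p2) →
      p.1 ∈ insert p1.1 (insert p2.1 (insert p1.2 (insert p2.2 Z0))) ∧
      p.2 ∈ insert p1.1 (insert p2.1 (insert p1.2 (insert p2.2 Z0))) := by
    intro p h
    rcases h with rfl | rfl <;> simp
  -- a dummy `a` is never orthogonal to some `c`
  have da : ∀ p, (p = p1 ∨ p = p2) → ∀ q, (q = q1 ∨ q = q2) → p.1 ⬝ᵥ q.1 = 0 →
      ∃ e ∈ E1, ∃ k ∈ E2, p = (zS e.1, zT e.2) ∧ q = (zS k.1, zT k.2) ∧ G.adj e.1 k.1 := by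
    intro p hp' q hq' h
    rcases hqr q hq' with ⟨k, hk, rfl⟩ | hd
    · rcases hpr p hp' with ⟨e, he, rfl⟩ | hd
      · exact ⟨e, he, k, hk, rfl, rfl, orS e he k hk h⟩
      · exact absurd h (hd.2.2 _ (hZ0S _ (e2 k hk).1)).1
    · rw [dotProduct_comm] at h
      exact absurd h (hd.2.2 _ (memp p hp').1).1
  have db : ∀ p, (p = p1 ∨ p = p2) → ∀ q, (q = q1 ∨ q = q2) → q.2 ⬝ᵥ p.2 = 0 →
      ∃ e ∈ E1, ∃ k ∈ E2, p = (zS e.1, zT e.2) ∧ q = (zS k.1, zT k.2) ∧ G.adj k.2 e.2 := by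
    intro p hp' q hq' h
    rcases hqr q hq' with ⟨k, hk, rfl⟩ | hd
    · rcases hpr p hp' with ⟨e, he, rfl⟩ | hd
      · exact ⟨e, he, k, hk, rfl, rfl, orT e he k hk h⟩
      · rw [dotProduct_comm] at h
        exact absurd h (hd.2.2 _ (hZ0T _ (e2 k hk).2.1)).2.2.1
    · exact absurd h (hd.2.2 _ (memp p hp').2).2.2.1
  have F1' : ∀ c ∈ [q1.1, q2.1], ¬ (p1.1 ⬝ᵥ c = 0 ∧ p2.1 ⬝ᵥ c = 0) := by
    have : ∀ q, (q = q1 ∨ q = q2) → ¬ (p1.1 ⬝ᵥ q.1 = 0 ∧ p2.1 ⬝ᵥ q.1 = 0) := by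
      rintro q hq' ⟨h1, h2⟩
      obtain ⟨e, he, k, hk, hpe, hqk, hadj⟩ := da p1 (Or.inl rfl) q hq' h1
      obtain ⟨f, hf, k', hk', hpf, hqk', -⟩ := da p2 (Or.inr rfl) q hq' h2
      have hef : e ≠ f := by
        rintro rfl
        apply hpa
        rw [hpe, hpf]
        exact lv10_par_self _
      have h3 : G.adj f.1 k.1 := by
        apply orS f hf k hk
        have h4 := h2
        rw [hpf, hqk] at h4
        exact h4
      exact F1 e he f hf hef k hk ⟨hadj, h3⟩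
    intro c hc
    simp only [List.mem_cons, List.not_mem_nil, or_false] at hc
    rcases hc with rfl | rfl
    · exact this q1 (Or.inl rfl)
    · exact this q2 (Or.inr rfl)
  have F2' : ∀ b ∈ [p1.2, p2.2], ¬ (q1.2 ⬝ᵥ b = 0 ∧ q2.2 ⬝ᵥ b = 0) := by
    have : ∀ p, (p = p1 ∨ p = p2) → ¬ (q1.2 ⬝ᵥ p.2 = 0 ∧ q2.2 ⬝ᵥ p.2 = 0) := by
      rintro p hp' ⟨h1, h2⟩
      obtain ⟨e, he, k, hk, hpe, hqk, hadj⟩ := db p hp' q1 (Or.inl rfl) h1
      obtain ⟨e', he', l, hl, hpe', hql, -⟩ := db p hp' q2 (Or.inr rfl) h2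
      have hkl : k ≠ l := by
        rintro rfl
        apply hqa
        rw [hqk, hql]
        exact lv10_par_self _
      have h3 : G.adj l.2 e.2 := by
        apply orT e he l hl
        have h4 := h2
        rw [hql, hpe] at h4
        exact h4
      exact F2 k hk l hl hkl e he ⟨hadj, h3⟩
    intro b hb
    simp only [List.mem_cons, List.not_mem_nil, or_false] at hb
    rcases hb with rfl | rfl
    · exact this p1 (Or.inl rfl)
    · exact this p2 (Or.inr rfl)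
  have F3' : ∀ p ∈ [(p1.1, p1.2), (p2.1, p2.2)], ∀ q ∈ [(q1.1, q1.2), (q2.1, q2.2)],
      ¬ (p.1 ⬝ᵥ q.1 = 0 ∧ q.2 ⬝ᵥ p.2 = 0) := by
    intro p hp' q hq'
    have hp'' : p = p1 ∨ p = p2 := by simpa using hp'
    have hq'' : q = q1 ∨ q = q2 := by simpa using hq'
    rintro ⟨h1, h2⟩
    obtain ⟨e, he, k, hk, hpe, hqk, hadj⟩ := da p hp'' q hq'' h1
    have h3 : G.adj k.2 e.2 := by
      apply orT e he k hk
      have h4 := h2
      rw [hpe, hqk] at h4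
      exact h4
    obtain ⟨a1, a2, a3, -, -⟩ := e1 e he
    obtain ⟨b1, b2, b3, -, -⟩ := e2 k hk
    have h5 := hC4 e.1 (Finset.mem_union_left _ a1) k.1 (Finset.mem_union_left _ b1)
      k.2 (Finset.mem_union_right _ b2) e.2 (Finset.mem_union_right _ a2) hadj b3 h3 (G.symm a3)
    rcases h5 with h5 | h5
    · exact (Finset.disjoint_left.1 hdj a1) (h5 ▸ b2)
    · exact (Finset.disjoint_left.1 hdj b1) (h5 ▸ a2)
  set A : Finset (E3 × E3) := ((S ×ˢ T).filter (fun e => G.typ e.1 = τ ∧ G.typ e.2 ≠ τ ∧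
    ¬ G.adj e.1 e.2)).image (fun e => (zS e.1, zT e.2)) with hA
  set B : Finset (E3 × E3) := ((S ×ˢ T).filter (fun e => G.typ e.1 ≠ τ ∧ G.typ e.2 = τ ∧
    ¬ G.adj e.1 e.2)).image (fun e => (zT e.2, zS e.1)) with hB
  obtain ⟨g, h, hgh, hhg, ga1, ga2, hd1, hd2, hgA, hhB⟩ := glue22_vec p1.1 p2.1 p1.2 p2.2
    q1.1 q2.1 q1.2 q2.2 hpa hpb hqa hqb F1' F2' F3' A B
    (by
      intro e he
      obtain ⟨⟨s, t⟩, hst, rfl⟩ := Finset.mem_image.1 he
      simp only [Finset.mem_filter, Finset.mem_product] at hst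
      obtain ⟨⟨hs, ht⟩, h1, h2, h3⟩ := hst
      exact ⟨hzS.pl.nz s hs, hzT.pl.nz t ht, key1 p1 (Or.inl rfl) s hs t ht h1 h2 h3,
        key1 p2 (Or.inr rfl) s hs t ht h1 h2 h3⟩)
    (by
      intro e he
      obtain ⟨⟨s, t⟩, hst, rfl⟩ := Finset.mem_image.1 he
      simp only [Finset.mem_filter, Finset.mem_product] at hst
      obtain ⟨⟨hs, ht⟩, h1, h2, h3⟩ := hst
      exact ⟨hzT.pl.nz t ht, hzS.pl.nz s hs, key2 q1 (Or.inl rfl) s hs t ht h1 h2 h3,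
        key2 q2 (Or.inr rfl) s hs t ht h1 h2 h3⟩)
  refine glue_nd G S T hdj hC4 hdeg zS zT hzS hzT g h hgh hhg τ ?_ ?_
  · intro s hs t ht h1 h2
    constructor
    · intro h0
      by_contra hne
      refine hgA (zS s, zT t) (Finset.mem_image.2 ⟨(s, t), ?_, rfl⟩) h0
      simp only [Finset.mem_filter, Finset.mem_product]
      exact ⟨⟨hs, ht⟩, h1, h2, hne⟩
    · intro hadj
      have hm : (s, t) ∈ E1 := (hE1 s t).2 ⟨hs, ht, hadj, h1⟩
      rcases hp (s, t) hm with h3 | h3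
      · have h4 : zS s = p1.1 := congrArg Prod.fst h3
        have h5 : zT t = p1.2 := congrArg Prod.snd h3
        rw [h4, h5]
        exact ga1
      · have h4 : zS s = p2.1 := congrArg Prod.fst h3
        have h5 : zT t = p2.2 := congrArg Prod.snd h3
        rw [h4, h5]
        exact ga2
  · intro s hs t ht h1 h2
    constructor
    · intro h0
      by_contra hne
      refine hhB (zT t, zS s) (Finset.mem_image.2 ⟨(s, t), ?_, rfl⟩) h0
      simp only [Finset.mem_filter, Finset.mem_product]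
      exact ⟨⟨hs, ht⟩, h1, h2, hne⟩
    · intro hadj
      have hm : (s, t) ∈ E2 := (hE2 s t).2 ⟨hs, ht, hadj, h1⟩
      rcases hq (s, t) hm with h3 | h3
      · have h4 : zS s = q1.1 := congrArg Prod.fst h3
        have h5 : zT t = q1.2 := congrArg Prod.snd h3
        rw [h4, h5]
        exact hd1
      · have h4 : zS s = q2.1 := congrArg Prod.fst h3
        have h5 : zT t = q2.2 := congrArg Prod.snd h3
        rw [h4, h5]
        exact hd2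

end Pool.Agent.Levi3
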