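import Pool.Agent.Levi3.Defs
import Pool.Agent.Levi3.LV08
import Pool.Agent.Levi3.LV09

/-! LV11 : Glue30 -/

namespace Pool.Agent.Levi3

open Matrix Finset

variable {V : Type} [DecidableEq V]

theorem glue30 (G : Inc V) (S T : Finset V) (hdj : Disjoint S T) (hC4 : C4F G (S ∪ T))
    (hdeg : ∀ v ∈ S ∪ T, 2 ≤ deg G (S ∪ T) v) (hT : ND G T)
    (a1 a2 a3 b1 b2 b3 : V) (τ : Bool) (ht : G.typ a1 = τ ∧ G.typ a2 = τ ∧ G.typ a3 = τ)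
    (ha : a1 ≠ a2 ∧ a1 ≠ a3 ∧ a2 ≠ a3) (hb : b1 ≠ b2 ∧ b1 ≠ b3 ∧ b2 ≠ b3)
    (haS : a1 ∈ S ∧ a2 ∈ S ∧ a3 ∈ S) (hbT : b1 ∈ T ∧ b2 ∈ T ∧ b3 ∈ T)
    (hadj : ∀ s ∈ S, ∀ t ∈ T, G.adj s t ↔
      (s = a1 ∧ t = b1) ∨ (s = a2 ∧ t = b2) ∨ (s = a3 ∧ t = b3))
    (hS : ∃ z, NDm G S (fun _ _ => False) z ∧
      (z a3 ⬝ᵥ (z a1 ⨯₃ z a2) = 0 → ∀ x ∈ S, G.typ x = τ → x ≠ a1 → x ≠ a2 → x ≠ a3 →
        z x ⬝ᵥ (z a1 ⨯₃ z a2) ≠ 0)) :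
    ND G (S ∪ T) := by
  classical
  obtain ⟨zS, hzS, hcol⟩ := hS
  obtain ⟨zT, hzT⟩ := hT
  obtain ⟨ht1, ht2, ht3⟩ := ht
  obtain ⟨ha12, ha13, ha23⟩ := ha
  obtain ⟨hb12, hb13, hb23⟩ := hb
  obtain ⟨hs1, hs2, hs3⟩ := haS
  obtain ⟨hT1, hT2, hT3⟩ := hbT
  have adj1 : G.adj a1 b1 := (hadj a1 hs1 b1 hT1).mpr (Or.inl ⟨rfl, rfl⟩)
  have adj2 : G.adj a2 b2 := (hadj a2 hs2 b2 hT2).mpr (Or.inr (Or.inl ⟨rfl, rfl⟩))
  have adj3 : G.adj a3 b3 := (hadj a3 hs3 b3 hT3).mpr (Or.inr (Or.inr ⟨rfl, rfl⟩))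
  have tb1 : G.typ b1 ≠ τ := fun h => G.bip adj1 (ht1.trans h.symm)
  have tb2 : G.typ b2 ≠ τ := fun h => G.bip adj2 (ht2.trans h.symm)
  have tb3 : G.typ b3 ≠ τ := fun h => G.bip adj3 (ht3.trans h.symm)
  -- same kind and parallel implies equal
  have eqS : ∀ s ∈ S, ∀ s' ∈ S, G.typ s = τ → G.typ s' = τ → Par (zS s) (zS s') → s = s' := by
    intro s hs s' hs' h1 h2 hp
    by_contra hne
    exact hzS.dis s hs s' hs' (h1.trans h2.symm) hne hp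
  have eqT : ∀ t ∈ T, ∀ t' ∈ T, G.typ t ≠ τ → G.typ t' ≠ τ → Par (zT t) (zT t') → t = t' := by
    intro t ht' t' ht'' h1 h2 hp
    by_contra hne
    exact hzT.dis t ht' t' ht'' (lv09_bool h1.symm h2.symm) hne hp
  obtain ⟨g, h, hgh, hhg, e1, e2, e3, eA, eB⟩ := glue30_vec (zS a1) (zS a2) (zS a3)
    (zT b1) (zT b2) (zT b3)
    (fun hp => ha12 (eqS _ hs1 _ hs2 ht1 ht2 hp)) (fun hp => ha13 (eqS _ hs1 _ hs3 ht1 ht3 hp))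
    (fun hp => ha23 (eqS _ hs2 _ hs3 ht2 ht3 hp))
    (fun hp => hb12 (eqT _ hT1 _ hT2 tb1 tb2 hp)) (fun hp => hb13 (eqT _ hT1 _ hT3 tb1 tb3 hp))
    (fun hp => hb23 (eqT _ hT2 _ hT3 tb2 tb3 hp))
    (((S ×ˢ T).filter (fun p => G.typ p.1 = τ ∧ G.typ p.2 ≠ τ ∧ ¬ G.adj p.1 p.2)).image
      (fun p => (zS p.1, zT p.2)))
    (((S ×ˢ T).filter (fun p => G.typ p.1 ≠ τ ∧ G.typ p.2 = τ)).image
      (fun p => (zT p.2, zS p.1))) (by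
    intro e he
    obtain ⟨⟨s, t⟩, hp, rfl⟩ := Finset.mem_image.mp he
    rw [Finset.mem_filter, Finset.mem_product] at hp
    obtain ⟨⟨hs, ht⟩, hts, htt, hna⟩ := hp
    simp only at hs ht hts htt hna ⊢
    refine ⟨hzS.pl.nz s hs, hzT.pl.nz t ht, ?_, ?_, ?_, ?_⟩
    · rintro ⟨p1, p2⟩
      rw [eqS s hs a1 hs1 hts ht1 p1, eqT t ht b1 hT1 htt tb1 p2] at hna
      exact hna adj1
    · rintro ⟨p1, p2⟩
      rw [eqS s hs a2 hs2 hts ht2 p1, eqT t ht b2 hT2 htt tb2 p2] at hna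
      exact hna adj2
    · rintro ⟨p1, p2⟩
      rw [eqS s hs a3 hs3 hts ht3 p1, eqT t ht b3 hT3 htt tb3 p2] at hna
      exact hna adj3
    · intro h0 h1
      by_contra hcon
      rw [not_or, not_or] at hcon
      refine hcol h0 s hs hts ?_ ?_ ?_ h1
      · rintro rfl; exact hcon.1 (cross_self _)
      · rintro rfl; exact hcon.2.1 (cross_self _)
      · rintro rfl; exact hcon.2.2 (cross_self _)) (by
    intro e he
    obtain ⟨⟨s, t⟩, hp, rfl⟩ := Finset.mem_image.mp he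
    rw [Finset.mem_filter, Finset.mem_product] at hp
    exact ⟨hzT.pl.nz t hp.1.2, hzS.pl.nz s hp.1.1⟩)
  refine glue_nd G S T hdj hC4 hdeg zS zT hzS hzT g h hgh hhg τ ?_ ?_
  · intro s hs t ht hts htt
    constructor
    · intro h0
      by_contra hna
      exact eA (zS s, zT t) (Finset.mem_image.mpr ⟨(s, t), Finset.mem_filter.mpr
        ⟨Finset.mem_product.mpr ⟨hs, ht⟩, hts, htt, hna⟩, rfl⟩) h0
    · intro hst
      rcases (hadj s hs t ht).mp hst with ⟨rfl, rfl⟩ | ⟨rfl, rfl⟩ | ⟨rfl, rfl⟩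
      · exact e1
      · exact e2
      · exact e3
  · intro s hs t ht hts htt
    constructor
    · intro h0
      exact absurd h0 (eB (zT t, zS s) (Finset.mem_image.mpr ⟨(s, t), Finset.mem_filter.mpr
        ⟨Finset.mem_product.mpr ⟨hs, ht⟩, hts, htt⟩, rfl⟩))
    · intro hst
      exfalso
      rcases (hadj s hs t ht).mp hst with ⟨rfl, rfl⟩ | ⟨rfl, rfl⟩ | ⟨rfl, rfl⟩
      · exact hts ht1
      · exact hts ht2
      · exact hts ht3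

end Pool.Agent.Levi3
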