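import Pool.Agent.Levi3.Defs
import Pool.Agent.Levi3.LV03
import Pool.Agent.Levi3.LV10

/-! LV12 : CritBasic -/

namespace Pool.Agent.Levi3

open Matrix Finset

variable {V : Type} [DecidableEq V]

theorem lv12_exists_m (w : E3) (hw : w ≠ 0) : ∃ m : E3, m ≠ 0 ∧ m ⨯₃ w ≠ 0 := by
  by_cases h1 : (![1, 0, 0] : E3) ⨯₃ w = 0
  · by_cases h2 : (![0, 1, 0] : E3) ⨯₃ w = 0
    · exfalso
      apply hw
      have a1 := congrFun h1 1
      have a2 := congrFun h1 2
      have b0 := congrFun h2 0
      have b2 := congrFun h2 2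
      simp [cross_apply] at a1 a2 b0 b2
      funext i
      fin_cases i <;> simp [a1, a2, b0, b2]
    · refine ⟨![0, 1, 0], ?_, h2⟩
      intro h
      have := congrFun h 1
      simp at this
  · refine ⟨![1, 0, 0], ?_, h1⟩
    intro h
    have := congrFun h 0
    simp at this

theorem crit_deg (G : Inc V) (S : Finset V) (hc : Crit G S) : ∀ v ∈ S, 2 ≤ deg G S v := by
  intro v hv
  by_contra hlt
  have hd : deg G S v ≤ 1 := by omega
  obtain ⟨z, hz⟩ := hc.2 (S.erase v) (Finset.erase_ssubset hv)
  have hm : ∃ m : E3, m ≠ 0 ∧ ∀ u ∈ nb G S v, m ⨯₃ z u ≠ 0 := by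
    by_cases hne : (nb G S v).Nonempty
    · obtain ⟨u, hu⟩ := hne
      have hu' := mem_nb.1 hu
      have hune : u ≠ v := by
        rintro rfl
        exact G.irr u hu'.2
      obtain ⟨m, hm, hm'⟩ := lv12_exists_m (z u) (hz.pl.nz u (Finset.mem_erase.2 ⟨hune, hu'.1⟩))
      refine ⟨m, hm, ?_⟩
      intro w hw
      have : w = u := Finset.card_le_one.1 hd w hw u hu
      rw [this]
      exact hm'
    · rw [Finset.not_nonempty_iff_eq_empty] at hne
      refine ⟨![1, 0, 0], ?_, ?_⟩
      · intro h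
        have := congrFun h 0
        simp at this
      · rw [hne]
        simp
  obtain ⟨m, hm, hm'⟩ := hm
  obtain ⟨x, hx, -⟩ := ext_le_one G S (fun _ _ => False) (fun _ _ h => h) v hv hd z hz m hm hm'
  exact hc.1 ⟨_, hx⟩

theorem crit_conn (G : Inc V) (S : Finset V) (hc : Crit G S) (h4 : C4F G S) :
    ∀ X, X ⊆ S → X.Nonempty → X ≠ S → ∃ x ∈ X, ∃ y ∈ S, y ∉ X ∧ G.adj x y := by
  intro X hXS hne hXne
  by_contra hcon
  push_neg at hcon
  have hU : X ∪ (S \ X) = S := Finset.union_sdiff_of_subset hXS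
  have key : ND G (X ∪ (S \ X)) := by
    refine glue22 G X (S \ X) Finset.disjoint_sdiff (by rw [hU]; exact h4)
      (by rw [hU]; exact crit_deg G S hc)
      (hc.2 X (Finset.ssubset_iff_subset_ne.2 ⟨hXS, hXne⟩)) (hc.2 (S \ X) ?_) true ∅ ∅ ?_ ?_
      (by simp) (by simp) (by simp) (by simp) (by simp) (by simp)
    · obtain ⟨x, hx⟩ := hne
      refine Finset.ssubset_iff_subset_ne.2 ⟨Finset.sdiff_subset, ?_⟩
      intro h
      have : x ∈ S \ X := by
        rw [h]
        exact hXS hx
      exact (Finset.mem_sdiff.1 this).2 hx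
    · intro s t
      constructor
      · intro h
        simp at h
      · rintro ⟨h1, h2, h3, -⟩
        have := Finset.mem_sdiff.1 h2
        exact absurd h3 (hcon s h1 t this.1 this.2)
    · intro s t
      constructor
      · intro h
        simp at h
      · rintro ⟨h1, h2, h3, -⟩
        have := Finset.mem_sdiff.1 h2
        exact absurd h3 (hcon s h1 t this.1 this.2)
  rw [hU] at key
  exact hc.1 key

open Classical in
theorem lv12_deg_sum (G : Inc V) (S : Finset V) (v : V) (τ : Bool) (hv : G.typ v = τ) :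
    (deg G S v : ℤ) = ∑ u ∈ S.filter (fun u => G.typ u = !τ), if G.adj v u then (1 : ℤ) else 0 := by
  unfold deg nb
  rw [Finset.card_filter]
  push_cast
  rw [Finset.sum_filter]
  apply Finset.sum_congr rfl
  intro u hu
  by_cases h : G.adj v u
  · have := G.bip h
    have h2 : G.typ u = !τ := by
      rw [hv] at this
      revert this
      cases τ <;> cases G.typ u <;> simp
    simp [h, h2]
  · simp [h]

theorem dd_parity (G : Inc V) (S : Finset V) :
    (3 : ℤ) ∣ (∑ v ∈ S.filter (fun v => G.typ v = true), (3 - (deg G S v : ℤ))) -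
      ∑ v ∈ S.filter (fun v => G.typ v = false), (3 - (deg G S v : ℤ)) := by
  classical
  have h1 : ∑ v ∈ S.filter (fun v => G.typ v = true), (deg G S v : ℤ) =
      ∑ v ∈ S.filter (fun v => G.typ v = true), ∑ u ∈ S.filter (fun u => G.typ u = false),
        if G.adj v u then (1 : ℤ) else 0 := by
    apply Finset.sum_congr rfl
    intro v hv
    exact lv12_deg_sum G S v true (Finset.mem_filter.1 hv).2
  have h2 : ∑ v ∈ S.filter (fun v => G.typ v = false), (deg G S v : ℤ) =
      ∑ v ∈ S.filter (fun v => G.typ v = false), ∑ u ∈ S.filter (fun u => G.typ u = true),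
        if G.adj v u then (1 : ℤ) else 0 := by
    apply Finset.sum_congr rfl
    intro v hv
    exact lv12_deg_sum G S v false (Finset.mem_filter.1 hv).2
  have h3 : ∑ v ∈ S.filter (fun v => G.typ v = true), (deg G S v : ℤ) =
      ∑ v ∈ S.filter (fun v => G.typ v = false), (deg G S v : ℤ) := by
    rw [h1, h2, Finset.sum_comm]
    apply Finset.sum_congr rfl
    intro u _
    apply Finset.sum_congr rfl
    intro v _
    simp only [G.comm]
  rw [Finset.sum_sub_distrib, Finset.sum_sub_distrib, h3]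
  simp only [Finset.sum_const, nsmul_eq_mul]
  refine ⟨((S.filter (fun v => G.typ v = true)).card : ℤ) -
    ((S.filter (fun v => G.typ v = false)).card : ℤ), ?_⟩
  ring

theorem crit_hdeg [Fintype V] (H : Inc V) (hc : Crit H univ) (h4 : C4F H univ)
    (hd : ∀ v, deg H univ v ≤ 3) (W : Finset V) (hW : W.Nonempty) (hne : W ≠ univ) :
    ∃ v ∈ W, deg H W v ≤ 2 := by
  by_contra hcon
  push_neg at hcon
  obtain ⟨x, hx, y, -, hy, hadj⟩ := crit_conn H univ hc h4 W (Finset.subset_univ _) hW hne
  have h1 := hcon x hx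
  have h2 := hd x
  have h3 : nb H W x = nb H univ x := by
    apply Finset.eq_of_subset_of_card_le (nb_mono (Finset.subset_univ _) x)
    unfold deg at h1 h2
    omega
  have h4 : y ∈ nb H W x := by
    rw [h3]
    exact mem_nb.2 ⟨Finset.mem_univ _, hadj⟩
  exact hy (mem_nb.1 h4).1

end Pool.Agent.Levi3
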