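import Pool.Agent.Levi3.Defs
import Pool.Agent.Levi3.LV04
import Pool.Agent.Levi3.LV12

/-! LV13 : Closure -/

namespace Pool.Agent.Levi3

open Matrix Finset

variable {V : Type} [DecidableEq V]

/-- add the edge `p q` -/
def lv13_add (H : Inc V) (p q : V) (hpq : H.typ p ≠ H.typ q) : Inc V where
  typ := H.typ
  adj u v := H.adj u v ∨ (u = p ∧ v = q) ∨ (u = q ∧ v = p)
  symm := by
    rintro u v (h | ⟨rfl, rfl⟩ | ⟨rfl, rfl⟩)
    · exact Or.inl (H.symm h)
    · exact Or.inr (Or.inr ⟨rfl, rfl⟩)
    · exact Or.inr (Or.inl ⟨rfl, rfl⟩)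
  bip := by
    rintro u v (h | ⟨rfl, rfl⟩ | ⟨rfl, rfl⟩)
    · exact H.bip h
    · exact hpq
    · exact hpq.symm

lemma lv13_par {u q x : E3} (hx : x ⬝ᵥ u = 0) (hq : x ⬝ᵥ q = 0) : (u ⨯₃ q) ⨯₃ x = 0 := by
  have h1 : x 0 * u 0 + x 1 * u 1 + x 2 * u 2 = 0 := by
    have := hx
    simpa [dotProduct, Fin.sum_univ_three] using this
  have h2 : x 0 * q 0 + x 1 * q 1 + x 2 * q 2 = 0 := by
    have := hq
    simpa [dotProduct, Fin.sum_univ_three] using this
  funext i
  fin_cases i
  · simp [cross_apply]
    linear_combination q 0 * h1 - u 0 * h2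
  · simp [cross_apply]
    linear_combination q 1 * h1 - u 1 * h2
  · simp [cross_apply]
    linear_combination q 2 * h1 - u 2 * h2

/-- no path of length three from `p` to `q` -/
lemma lv13_nopath [Fintype V] {H : Inc V} {z : V → E3} (hpl : IsPl H univ z) (hdis : Dis H univ z)
    {p q : V} (hpq : H.typ p ≠ H.typ q) (hz : z p ⬝ᵥ z q = 0) {u w : V} (h1 : H.adj p u)
    (h2 : H.adj u w) (h3 : H.adj w q) (hw : w ≠ p) (hu : u ≠ q) : False := by
  have e1 : H.typ u = H.typ q := by
    have := H.bip h1
    cases hp : H.typ p <;> cases hq : H.typ q <;> cases hu' : H.typ u <;> simp_all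
  have e2 : H.typ p = H.typ w := by
    have := H.bip h3
    cases hp : H.typ p <;> cases hq : H.typ q <;> cases hu' : H.typ w <;> simp_all
  have n1 := hdis u (mem_univ _) q (mem_univ _) e1 hu
  have n2 := hdis p (mem_univ _) w (mem_univ _) e2 hw.symm
  have o1 := hpl.inc p (mem_univ _) u (mem_univ _) h1
  have o2 := hpl.inc w (mem_univ _) u (mem_univ _) (H.symm h2)
  have o3 := hpl.inc w (mem_univ _) q (mem_univ _) h3
  obtain ⟨c, hc⟩ := exists_smul_of_cross_eq_zero n1 (lv13_par o1 hz)
  obtain ⟨c', hc'⟩ := exists_smul_of_cross_eq_zero n1 (lv13_par o2 o3)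
  apply n2
  rw [hc, hc']
  simp

/-- the sum of the defects of one kind -/
lemma lv13_sum [Fintype V] {H : Inc V} {p : V} (b : Bool) (hp : H.typ p = b)
    (h : ∀ v, H.typ v = b → v ≠ p → deg H univ v = 3) :
    ∑ v ∈ univ.filter (fun v => H.typ v = b), (3 - (deg H univ v : ℤ)) = 3 - (deg H univ p : ℤ) := by
  refine Finset.sum_eq_single_of_mem p (by simp [hp]) fun v hv hvp => ?_
  rw [h v (by simpa using hv) hvp]
  norm_num

theorem closure_exists [Fintype V] (H : Inc V) (hc : Crit H univ) (h4 : C4F H univ)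
    (hd : ∀ v, deg H univ v ≤ 3) : ∃ K, IsClosure H K := by
  by_cases hall : ∀ v, deg H univ v = 3
  · exact ⟨H, rfl, hall, h4, Or.inl fun u v => Iff.rfl⟩
  push Not at hall
  obtain ⟨v0, hv0⟩ := hall
  have hv0' : deg H univ v0 ≤ 2 := by have := hd v0; omega
  obtain ⟨z, hpl, hdis, hz⟩ := crit_refined H univ (fun _ _ => False) (fun _ _ h => h) h4
    (by
      intro W _ hW
      by_cases hne : W = univ
      · subst hne
        exact ⟨v0, mem_univ _, hv0'⟩
      · exact crit_hdeg H hc h4 hd W hW hne)
    (fun _ _ _ _ _ _ _ _ _ _ _ h => h) (fun _ _ _ _ _ _ _ _ _ _ _ h => h.1)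
    (fun v _ => hc.2 _ (erase_ssubset (mem_univ v)))
  have hnot : ¬ NInc H univ (fun _ _ => False) z := fun h => hc.1 ⟨z, hpl, hdis, h⟩
  unfold NInc at hnot
  push Not at hnot
  obtain ⟨p, -, q, -, hpq, hadj, -, hzpq⟩ := hnot
  have hbad : Bad H univ p q := by
    by_contra hb
    exact hz p (mem_univ _) q (mem_univ _) hpq hadj (fun h => h) hb hzpq
  obtain ⟨hb1, hbp, hbq⟩ := hbad
  have hb1' : ∀ v, v ≠ p → v ≠ q → deg H univ v = 3 := fun v h1 h2 => by
    have := hb1 v (mem_univ _) h1 h2
    have := hd v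
    omega
  -- both degrees are two
  have hsum : ((deg H univ p : ℤ) - deg H univ q) % 3 = 0 := by
    have hpar := dd_parity H univ
    cases hp : H.typ p with
    | true =>
      have hq : H.typ q = false := by
        cases hq : H.typ q with
        | true => rw [hp, hq] at hpq; exact absurd rfl hpq
        | false => rfl
      rw [lv13_sum true hp (fun v hv hvp => hb1' v hvp (by rintro rfl; rw [hq] at hv; cases hv)),
        lv13_sum false hq (fun v hv hvq => hb1' v (by rintro rfl; rw [hp] at hv; cases hv) hvq)] at hpar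
      omega
    | false =>
      have hq : H.typ q = true := by
        cases hq : H.typ q with
        | true => rfl
        | false => rw [hp, hq] at hpq; exact absurd rfl hpq
      rw [lv13_sum true hq (fun v hv hvq => hb1' v (by rintro rfl; rw [hp] at hv; cases hv) hvq),
        lv13_sum false hp (fun v hv hvp => hb1' v hvp (by rintro rfl; rw [hq] at hv; cases hv))] at hpar
      omega
  have hdp : deg H univ p = 2 ∧ deg H univ q = 2 := by
    have h1 := hd p
    have h2 := hd q
    by_cases h3 : deg H univ p = 3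
    · have h5 : deg H univ q = 3 := by omega
      exfalso
      apply hv0
      by_cases e1 : v0 = p
      · rw [e1]; exact h3
      · by_cases e2 : v0 = q
        · rw [e2]; exact h5
        · exact hb1' v0 e1 e2
    · omega
  have hpneq : p ≠ q := fun h => hpq (by rw [h])
  set K := lv13_add H p q hpq with hK
  have hKadj : ∀ u v, K.adj u v ↔ H.adj u v ∨ (u = p ∧ v = q) ∨ (u = q ∧ v = p) :=
    fun u v => Iff.rfl
  -- the core of the 4-cycle argument
  have core : ∀ a b c d, K.adj b c → K.adj c d → K.adj d a → a = p → b = q → a = c ∨ b = d := by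
    intro a b c d hbc hcd hda ha hb
    subst ha hb
    by_contra hcon
    push Not at hcon
    obtain ⟨hac, hbd⟩ := hcon
    have e1 : H.adj b c := by
      rcases (hKadj b c).1 hbc with h | ⟨h1, h2⟩ | ⟨h1, h2⟩
      · exact h
      · exact absurd h1.symm hpneq
      · exact absurd h2.symm hac
    have e3 : H.adj d a := by
      rcases (hKadj d a).1 hda with h | ⟨h1, h2⟩ | ⟨h1, h2⟩
      · exact h
      · exact absurd h2 hpneq
      · exact absurd h1.symm hbd
    have e2 : H.adj c d := by
      rcases (hKadj c d).1 hcd with h | ⟨h1, h2⟩ | ⟨h1, h2⟩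
      · exact h
      · exact absurd h1.symm hac
      · exact absurd h1 (fun h => H.bip e1 (by rw [h]))
    exact lv13_nopath hpl hdis hpq hzpq (H.symm e3) (H.symm e2) (H.symm e1) hac.symm hbd.symm
  refine ⟨K, rfl, ?_, ?_, Or.inr ⟨p, q, (hKadj p q).2 (Or.inr (Or.inl ⟨rfl, rfl⟩)), ?_⟩⟩
  · intro v
    by_cases e1 : v = p
    · subst e1
      have : nb K univ v = insert q (nb H univ v) := by
        ext x
        rw [mem_nb, mem_insert, mem_nb, hKadj]
        constructor
        · rintro ⟨-, h | ⟨-, h⟩ | ⟨h, -⟩⟩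
          · exact Or.inr ⟨mem_univ _, h⟩
          · exact Or.inl h
          · exact absurd h hpneq
        · rintro (h | ⟨-, h⟩)
          · exact ⟨mem_univ _, Or.inr (Or.inl ⟨rfl, h⟩)⟩
          · exact ⟨mem_univ _, Or.inl h⟩
      unfold deg at hdp ⊢
      rw [this, card_insert_of_notMem (fun h => hadj (mem_nb.1 h).2), hdp.1]
    · by_cases e2 : v = q
      · subst e2
        have : nb K univ v = insert p (nb H univ v) := by
          ext x
          rw [mem_nb, mem_insert, mem_nb, hKadj]
          constructor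
          · rintro ⟨-, h | ⟨h, -⟩ | ⟨-, h⟩⟩
            · exact Or.inr ⟨mem_univ _, h⟩
            · exact absurd h e1
            · exact Or.inl h
          · rintro (h | ⟨-, h⟩)
            · exact ⟨mem_univ _, Or.inr (Or.inr ⟨rfl, h⟩)⟩
            · exact ⟨mem_univ _, Or.inl h⟩
        unfold deg at hdp ⊢
        rw [this, card_insert_of_notMem (fun h => hadj (H.symm (mem_nb.1 h).2)), hdp.2]
      · have : nb K univ v = nb H univ v := by
          ext x
          rw [mem_nb, mem_nb, hKadj]
          constructor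
          · rintro ⟨-, h | ⟨h, -⟩ | ⟨h, -⟩⟩
            · exact ⟨mem_univ _, h⟩
            · exact absurd h e1
            · exact absurd h e2
          · rintro ⟨-, h⟩
            exact ⟨mem_univ _, Or.inl h⟩
        have h3 := hb1' v e1 e2
        unfold deg at h3 ⊢
        rw [this, h3]
  · intro a _ b _ c _ d _ hab hbc hcd hda
    by_cases h1 : H.adj a b
    · by_cases h2 : H.adj b c
      · by_cases h3 : H.adj c d
        · by_cases h5 : H.adj d a
          · exact h4 a (mem_univ _) b (mem_univ _) c (mem_univ _) d (mem_univ _) h1 h2 h3 h5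
          · rcases (hKadj d a).1 hda with h | ⟨e1, e2⟩ | ⟨e1, e2⟩
            · exact absurd h h5
            · exact (core d a b c hab hbc hcd e1 e2).symm.imp id Eq.symm
            · exact (core a d c b (K.symm hcd) (K.symm hbc) (K.symm hab) e2 e1).imp id Eq.symm
        · rcases (hKadj c d).1 hcd with h | ⟨e1, e2⟩ | ⟨e1, e2⟩
          · exact absurd h h3
          · exact (core c d a b hda hab hbc e1 e2).imp Eq.symm Eq.symm
          · exact ((core d c b a (K.symm hbc) (K.symm hab) (K.symm hda) e2 e1).symm.imp Eq.symm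
              Eq.symm)
      · rcases (hKadj b c).1 hbc with h | ⟨e1, e2⟩ | ⟨e1, e2⟩
        · exact absurd h h2
        · exact (core b c d a hcd hda hab e1 e2).symm.imp Eq.symm id
        · exact (core c b a d (K.symm hab) (K.symm hda) (K.symm hcd) e2 e1).imp Eq.symm id
    · rcases (hKadj a b).1 hab with h | ⟨e1, e2⟩ | ⟨e1, e2⟩
      · exact absurd h h1
      · exact core a b c d hbc hcd hda e1 e2
      · exact (core b a d c (K.symm hda) (K.symm hcd) (K.symm hbc) e2 e1).symm
  · intro u v
    change H.adj u v ↔ (K.adj u v ∧ ¬ (u = p ∧ v = q) ∧ ¬ (u = q ∧ v = p))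
    constructor
    · intro h
      refine ⟨Or.inl h, ?_, ?_⟩
      · rintro ⟨rfl, rfl⟩; exact hadj h
      · rintro ⟨rfl, rfl⟩; exact hadj (H.symm h)
    · rintro ⟨h | h | h, h2, h3⟩
      · exact h
      · exact absurd h h2
      · exact absurd h h3

end Pool.Agent.Levi3
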