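import Pool.Agent.Levi3.Defs

/-! LV14 : Bd -/

namespace Pool.Agent.Levi3

open Matrix Finset

variable {V : Type} [DecidableEq V]

theorem lv14_split [Fintype V] (K : Inc V) (X : Finset V) (v : V) :
    (nb K X v).card + (nb K (univ \ X) v).card = deg K univ v := by
  unfold deg
  rw [← Finset.card_union_of_disjoint]
  · congr 1
    ext u
    simp only [mem_union, mem_nb, mem_sdiff, mem_univ, true_and]
    tauto
  · rw [Finset.disjoint_left]
    intro u hu hu2
    rw [mem_nb] at hu hu2
    exact (mem_sdiff.mp hu2.1).2 hu.1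

theorem lv14_bd [Fintype V] (K : Inc V) (X : Finset V) :
    bd K X = ∑ v ∈ X, (nb K (univ \ X) v).card := by
  unfold bd
  refine Finset.sum_congr rfl (fun v _ => ?_)
  congr 1
  ext u
  simp only [mem_nb, mem_sdiff]

theorem bd_eq_DD [Fintype V] (K : Inc V) (hK : ∀ v, deg K univ v = 3) (X : Finset V) :
    (bd K X : ℤ) = DD K X := by
  rw [lv14_bd]
  unfold DD
  push_cast
  refine Finset.sum_congr rfl (fun v _ => ?_)
  have h1 := lv14_split K X v
  rw [hK v] at h1
  unfold deg
  omega

theorem lv14_card_nb (K : Inc V) (S : Finset V) (v : V) [DecidablePred (K.adj v)] :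
    (nb K S v).card = ∑ u ∈ S, if K.adj v u then 1 else 0 := by
  rw [Finset.sum_ite, Finset.sum_const_zero, add_zero, Finset.sum_const, smul_eq_mul, mul_one]
  congr 1
  ext u
  simp only [mem_nb, mem_filter]

theorem lv14_double (K : Inc V) (S T : Finset V) :
    ∑ v ∈ S, (nb K T v).card = ∑ v ∈ T, (nb K S v).card := by
  classical
  simp_rw [lv14_card_nb]
  rw [Finset.sum_comm]
  refine Finset.sum_congr rfl (fun v _ => Finset.sum_congr rfl (fun u _ => ?_))
  have : K.adj u v ↔ K.adj v u := K.comm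
  by_cases h : K.adj u v
  · rw [if_pos h, if_pos (this.mp h)]
  · rw [if_neg h, if_neg (fun h2 => h (this.mpr h2))]

theorem bd_compl [Fintype V] (K : Inc V) (X : Finset V) : bd K Xᶜ = bd K X := by
  rw [lv14_bd, lv14_bd]
  have h1 : univ \ Xᶜ = X := by
    ext u; simp
  have h2 : univ \ X = Xᶜ := by
    ext u; simp
  rw [h1, h2]
  exact lv14_double K Xᶜ X

theorem cut_parity [Fintype V] (K : Inc V) (hK : ∀ v, deg K univ v = 3) (X : Finset V) :
    (3 : ℤ) ∣ (∑ v ∈ X.filter (fun v => K.typ v = true), ((nb K (univ \ X) v).card : ℤ)) -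
      ∑ v ∈ X.filter (fun v => K.typ v = false), ((nb K (univ \ X) v).card : ℤ) := by
  set T := X.filter (fun v => K.typ v = true) with hT
  set F := X.filter (fun v => K.typ v = false) with hF
  have e1 : ∀ v ∈ T, (nb K X v).card = (nb K F v).card := by
    intro v hv
    congr 1
    ext u
    rw [mem_nb, mem_nb, hF, mem_filter]
    constructor
    · rintro ⟨h1, h2⟩
      refine ⟨⟨h1, ?_⟩, h2⟩
      have h3 := K.bip h2
      rw [(mem_filter.mp hv).2] at h3
      cases h : K.typ u with
      | false => rfl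
      | true => rw [h] at h3; exact absurd rfl h3
    · rintro ⟨⟨h1, _⟩, h2⟩
      exact ⟨h1, h2⟩
  have e2 : ∀ v ∈ F, (nb K X v).card = (nb K T v).card := by
    intro v hv
    congr 1
    ext u
    rw [mem_nb, mem_nb, hT, mem_filter]
    constructor
    · rintro ⟨h1, h2⟩
      refine ⟨⟨h1, ?_⟩, h2⟩
      have h3 := K.bip h2
      rw [(mem_filter.mp hv).2] at h3
      cases h : K.typ u with
      | true => rfl
      | false => rw [h] at h3; exact absurd rfl h3
    · rintro ⟨⟨h1, _⟩, h2⟩
      exact ⟨h1, h2⟩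
  have e3 : ∑ v ∈ T, (nb K X v).card = ∑ v ∈ F, (nb K X v).card := by
    rw [Finset.sum_congr rfl e1, Finset.sum_congr rfl e2]
    exact lv14_double K T F
  have s : ∀ S : Finset V, (∑ v ∈ S, (nb K X v).card) + (∑ v ∈ S, (nb K (univ \ X) v).card) =
      3 * S.card := by
    intro S
    rw [← Finset.sum_add_distrib]
    rw [Finset.sum_congr rfl (fun v _ => (lv14_split K X v).trans (hK v))]
    rw [Finset.sum_const, smul_eq_mul, mul_comm]
  have s1 := s T
  have s2 := s F
  refine ⟨(T.card : ℤ) - F.card, ?_⟩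
  have c1 : (∑ v ∈ T, ((nb K (univ \ X) v).card : ℤ)) =
      ((∑ v ∈ T, (nb K (univ \ X) v).card : ℕ) : ℤ) := by push_cast; rfl
  have c2 : (∑ v ∈ F, ((nb K (univ \ X) v).card : ℤ)) =
      ((∑ v ∈ F, (nb K (univ \ X) v).card : ℕ) : ℤ) := by push_cast; rfl
  rw [c1, c2]
  omega

end Pool.Agent.Levi3
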