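import Pool.Agent.Levi3.Defs
import Pool.Agent.Levi3.LV10
import Pool.Agent.Levi3.LV12
import Pool.Agent.Levi3.LV14

/-! LV15 : Cut2 -/

namespace Pool.Agent.Levi3

open Matrix Finset

variable {V : Type} [DecidableEq V]

open Classical in
/-- the edges of `G` from `X` to its complement starting in a vertex of type `τ`. -/
noncomputable def lv15_E [Fintype V] (G : Inc V) (X : Finset V) (τ : Bool) : Finset (V × V) :=
  (X.filter (fun v => G.typ v = τ)).biUnion (fun v => (nb G (univ \ X) v).image (fun u => (v, u)))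

theorem lv15_mem_E [Fintype V] (G : Inc V) (X : Finset V) (τ : Bool) (s t : V) :
    (s, t) ∈ lv15_E G X τ ↔ s ∈ X ∧ t ∈ Xᶜ ∧ G.adj s t ∧ G.typ s = τ := by
  classical
  unfold lv15_E
  simp only [Finset.mem_biUnion, Finset.mem_filter, Finset.mem_image, mem_nb, Finset.mem_sdiff,
    Finset.mem_univ, true_and, Prod.mk.injEq, Finset.mem_compl]
  constructor
  · rintro ⟨v, ⟨h1, h2⟩, u, ⟨h3, h4⟩, rfl, rfl⟩
    exact ⟨h1, h3, h4, h2⟩
  · rintro ⟨h1, h3, h4, h2⟩
    exact ⟨s, ⟨h1, h2⟩, t, ⟨h3, h4⟩, rfl, rfl⟩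

theorem lv15_card_E [Fintype V] (G : Inc V) (X : Finset V) (τ : Bool) :
    (lv15_E G X τ).card = ∑ v ∈ X.filter (fun v => G.typ v = τ), (nb G (univ \ X) v).card := by
  classical
  unfold lv15_E
  rw [Finset.card_biUnion]
  · apply Finset.sum_congr rfl
    intro v _
    apply Finset.card_image_of_injective
    intro a b h
    exact (Prod.mk.inj h).2
  · intro a _ b _ hab
    show Disjoint _ _
    rw [Finset.disjoint_left]
    intro p hp hq
    rw [Finset.mem_image] at hp hq
    obtain ⟨u, _, rfl⟩ := hp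
    obtain ⟨w, _, h⟩ := hq
    exact hab (Prod.mk.inj h).1.symm

theorem lv15_bd [Fintype V] (K : Inc V) (X : Finset V) :
    bd K X = (lv15_E K X true).card + (lv15_E K X false).card := by
  classical
  rw [lv15_card_E, lv15_card_E]
  unfold bd
  rw [← Finset.sum_filter_add_sum_filter_not X (fun v => K.typ v = true)]
  have : X.filter (fun v => ¬ K.typ v = true) = X.filter (fun v => K.typ v = false) := by
    apply Finset.filter_congr
    intro v _
    simp
  rw [this]
  congr 1 <;>
  · refine Finset.sum_congr rfl fun v _ => ?_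
    congr 2
    ext u
    simp only [mem_sdiff, mem_univ, true_and]

theorem crit_cut2 [Fintype V] (H K : Inc V) (hc : Crit H univ) (h4 : C4F H univ)
    (hK : IsClosure H K) (X : Finset V) (hX : bd K X ≤ 2) : X = ∅ ∨ X = univ := by
  classical
  by_contra hcon
  rw [not_or] at hcon
  obtain ⟨hX0, hX1⟩ := hcon
  -- every `H`-edge is a `K`-edge
  have hHK : ∀ u v, H.adj u v → K.adj u v := by
    intro u v h
    rcases hK.rel with h1 | ⟨p, q, _, h1⟩
    · exact (h1 u v).1 h
    · exact ((h1 u v).1 h).1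
  have hsub : ∀ τ, lv15_E H X τ ⊆ lv15_E K X τ := by
    intro τ e he
    obtain ⟨s, t⟩ := e
    rw [lv15_mem_E] at he ⊢
    exact ⟨he.1, he.2.1, hHK _ _ he.2.2.1, by rw [hK.typ]; exact he.2.2.2⟩
  have hpar := cut_parity K hK.cubic X
  have hb := lv15_bd K X
  have hc1 := lv15_card_E K X true
  have hc2 := lv15_card_E K X false
  have hk : (lv15_E K X true).card ≤ 1 ∧ (lv15_E K X false).card ≤ 1 := by
    rw [← Nat.cast_sum, ← Nat.cast_sum, ← hc1, ← hc2] at hpar
    obtain ⟨c, hc⟩ := hpar
    rw [hb] at hX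
    clear hc1 hc2 hb
    have hc0 : c = 0 := by omega
    omega
  have hh1 : (lv15_E H X true).card ≤ 1 := (Finset.card_le_card (hsub true)).trans hk.1
  have hh2 : (lv15_E H X false).card ≤ 1 := (Finset.card_le_card (hsub false)).trans hk.2
  have hU : X ∪ Xᶜ = univ := Finset.union_compl X
  have hXc : Xᶜ ≠ univ := by
    intro h
    apply hX0
    rw [Finset.compl_eq_univ_iff] at h
    exact h
  have nd1 : ND H X := hc.2 X (Finset.ssubset_univ_iff.2 hX1)
  have nd2 : ND H Xᶜ := hc.2 Xᶜ (Finset.ssubset_univ_iff.2 hXc)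
  have key : ND H (X ∪ Xᶜ) := by
    refine glue22 H X Xᶜ disjoint_compl_right (by rw [hU]; exact h4)
      (by rw [hU]; exact crit_deg H univ hc) nd1 nd2 true (lv15_E H X true) (lv15_E H X false)
      (fun s t => lv15_mem_E H X true s t) ?_ (by omega) (by omega) ?_ ?_ ?_ ?_
    · intro s t
      rw [lv15_mem_E]
      simp
    · intro e he f hf hef
      exact absurd (Finset.card_le_one.1 hh1 e he f hf) hef
    · intro e he f hf hef
      exact absurd (Finset.card_le_one.1 hh2 e he f hf) hef
    · intro e he f hf hef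
      exact absurd (Finset.card_le_one.1 hh1 e he f hf) hef
    · intro e he f hf hef
      exact absurd (Finset.card_le_one.1 hh2 e he f hf) hef
  rw [hU] at key
  exact hc.1 key

end Pool.Agent.Levi3
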