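import Pool.Agent.Levi3.Defs
import Pool.Agent.Levi3.LV02
import Pool.Agent.Levi3.LV03
import Pool.Agent.Levi3.LV04
import Pool.Agent.Levi3.LV12
import Pool.Agent.Levi3.LV14

/-! LV16 : NdDet -/

namespace Pool.Agent.Levi3

open Matrix Finset

variable {V : Type} [DecidableEq V]

theorem lv16_adj [Fintype V] {H K : Inc V} (hK : IsClosure H K) {u v : V} (h : H.adj u v) :
    K.adj u v := by
  rcases hK.rel with h1 | ⟨p, q, _, h1⟩
  · exact (h1 u v).1 h
  · exact ((h1 u v).1 h).1

theorem lv16_deg [Fintype V] {H K : Inc V} (hK : IsClosure H K) (U : Finset V) (v : V) :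
    deg H U v ≤ deg K U v := by
  apply card_le_card
  intro u hu
  rw [mem_nb] at hu ⊢
  exact ⟨hu.1, lv16_adj hK hu.2⟩

/-- a vertex parallel to the cross product is orthogonal to the factors -/
theorem lv16_perp {p q u : E3} (hm : p ⨯₃ q ≠ 0) (h : (p ⨯₃ q) ⨯₃ u = 0) :
    u ⬝ᵥ p = 0 ∧ u ⬝ᵥ q = 0 := by
  obtain ⟨c, rfl⟩ := exists_smul_of_cross_eq_zero hm h
  constructor
  · rw [smul_dotProduct, dotProduct_comm, dot_self_cross, smul_zero]
  · rw [smul_dotProduct, dotProduct_comm, dot_cross_self, smul_zero]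

theorem nd_det [Fintype V] (H K : Inc V) (hc : Crit H univ) (h4 : C4F H univ)
    (hK : IsClosure H K)
    (X : Finset V) (hXu : X ≠ univ) (hX : bd K X = 3)
    (hmin : ∀ U, U ⊂ X → 2 ≤ U.card → 4 ≤ bd K U) (a1 a2 x : V) (τ : Bool)
    (h1 : a1 ∈ X) (h2 : a2 ∈ X) (h3 : x ∈ X) (hne : a1 ≠ a2 ∧ x ≠ a1 ∧ x ≠ a2)
    (ht : H.typ a1 = τ ∧ H.typ a2 = τ ∧ H.typ x = τ)
    (o1 : ∃ b, b ∉ X ∧ K.adj a1 b) (o2 : ∃ b, b ∉ X ∧ K.adj a2 b)
    (ox : ∀ b, K.adj x b → b ∈ X) (hcn : ∀ u ∈ X, ¬ (H.adj a1 u ∧ H.adj a2 u)) :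
    ∃ z, NDm H X (fun _ _ => False) z ∧ z x ⬝ᵥ (z a1 ⨯₃ z a2) ≠ 0 := by
  classical
  obtain ⟨n12, nx1, nx2⟩ := hne
  obtain ⟨t1, t2, tx⟩ := ht
  have hd3 : ∀ v, deg H univ v ≤ 3 := fun v => (lv16_deg hK univ v).trans (hK.cubic v).le
  have hXs : ∀ u v : V, (fun _ _ : V => False) u v → (fun _ _ : V => False) v u := fun _ _ h => h
  -- neighbours of a vertex of kind `τ` have the other kind
  have hopp : ∀ a v u : V, H.typ a = τ → H.typ v = τ → H.adj v u → H.typ u ≠ H.typ a := by
    intro a v u ha hv huv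
    rw [ha, ← hv]
    exact fun h => H.bip huv h.symm
  suffices hmain : ∀ U : Finset V, U ⊆ X → a1 ∈ U → a2 ∈ U → x ∈ U →
      ∃ z, NDm H U (fun _ _ => False) z ∧ z x ⬝ᵥ (z a1 ⨯₃ z a2) ≠ 0 from
    hmain X (Subset.refl X) h1 h2 h3
  intro U
  induction U using Finset.strongInduction with
  | H U ih =>
    intro hUX m1 m2 mx
    have hUu : U ⊂ univ := by
      refine lt_of_le_of_ne (subset_univ U) ?_
      rintro rfl
      exact hXu (univ_subset_iff.1 hUX)
    have hC4 : C4F H U := h4.mono (subset_univ U)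
    have hndU : ND H U := hc.2 U hUu
    have hnd : ∀ v, ∃ z, NDm H (U.erase v) (fun _ _ => False) z := fun v =>
      hndU.mono (erase_subset v U)
    have hdeg : ∀ W, W ⊆ U → W.Nonempty → ∃ v ∈ W, deg H W v ≤ 2 := by
      intro W hW hWn
      apply crit_hdeg H hc h4 hd3 W hWn
      rintro rfl
      exact hUu.2 hW
    by_cases cA : ∃ v ∈ U, v ≠ x ∧ v ≠ a1 ∧ v ≠ a2 ∧ deg H U v ≤ 2
    · obtain ⟨v, hv, hvx, hv1, hv2, hvd⟩ := cA
      obtain ⟨z0, hz0, hdet⟩ := ih (U.erase v) (erase_ssubset hv)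
        ((erase_subset v U).trans hUX) (mem_erase.2 ⟨hv1.symm, m1⟩)
        (mem_erase.2 ⟨hv2.symm, m2⟩) (mem_erase.2 ⟨hvx.symm, mx⟩)
      obtain ⟨y, hy1, hy2⟩ := lv04_ext H U (fun _ _ => False) hXs hC4
        (fun _ _ _ _ _ _ _ _ _ _ _ h => h) (fun _ _ _ _ _ _ _ _ _ _ _ h => h.1) v hv hvd z0 hz0
      obtain ⟨z1, hz1⟩ := hndU
      have hgood : Good H {z1, Function.update z0 v y} U := by
        apply lv04_good H U hdeg
        intro z hz
        rcases hz with rfl | hz
        · exact hz1.dis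
        · rw [Set.mem_singleton_iff] at hz
          rw [hz]; exact hy2
      obtain ⟨z, k1, k2, k3, k4⟩ := combine H U z1 (Function.update z0 v y) hgood hz1.pl hy1
      refine ⟨z, ⟨k1, ?_, ?_⟩, ?_⟩
      · intro u hu w hw htuw huw
        exact k3 u hu w hw (Or.inl (hz1.dis u hu w hw htuw huw))
      · intro u hu w hw htuw huw hF
        exact k2 u hu w hw (Or.inl (hz1.ninc u hu w hw htuw huw hF))
      · apply k4 x mx a1 m1 a2 m2
        right
        rw [Function.update_of_ne hvx.symm, Function.update_of_ne hv1.symm,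
          Function.update_of_ne hv2.symm]
        exact hdet
    by_cases cB : deg H U x ≤ 1
    · obtain ⟨z0, hz0⟩ := hnd x
      have e1 : a1 ∈ U.erase x := mem_erase.2 ⟨nx1.symm, m1⟩
      have e2 : a2 ∈ U.erase x := mem_erase.2 ⟨nx2.symm, m2⟩
      have hm : z0 a1 ⨯₃ z0 a2 ≠ 0 := hz0.dis a1 e1 a2 e2 (by rw [t1, t2]) n12
      obtain ⟨y, hy, hym⟩ := ext_le_one H U _ hXs x mx cB z0 hz0 (z0 a1 ⨯₃ z0 a2) hm (by
        intro u hu h0
        have hue := lv04_nb_erase H U x u hu
        rw [mem_nb] at hu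
        obtain ⟨p1, p2⟩ := lv16_perp hm h0
        have g1 : H.adj u a1 := by
          by_contra hcon
          exact hz0.ninc u hue a1 e1 (hopp a1 x u t1 tx hu.2) hcon (fun h => h) p1
        have g2 : H.adj u a2 := by
          by_contra hcon
          exact hz0.ninc u hue a2 e2 (hopp a2 x u t2 tx hu.2) hcon (fun h => h) p2
        exact hcn u (hUX hu.1) ⟨H.symm g1, H.symm g2⟩)
      refine ⟨_, hy, ?_⟩
      rw [Function.update_self, Function.update_of_ne nx1.symm, Function.update_of_ne nx2.symm]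
      exact hym
    by_cases cC : deg H U a1 ≤ 1
    · obtain ⟨z0, hz0⟩ := hnd a1
      have e1 : x ∈ U.erase a1 := mem_erase.2 ⟨nx1, mx⟩
      have e2 : a2 ∈ U.erase a1 := mem_erase.2 ⟨n12.symm, m2⟩
      have hm : z0 a2 ⨯₃ z0 x ≠ 0 := hz0.dis a2 e2 x e1 (by rw [t2, tx]) nx2.symm
      obtain ⟨y, hy, hym⟩ := ext_le_one H U _ hXs a1 m1 cC z0 hz0 (z0 a2 ⨯₃ z0 x) hm (by
        intro u hu h0
        have hue := lv04_nb_erase H U a1 u hu
        rw [mem_nb] at hu
        obtain ⟨p1, _⟩ := lv16_perp hm h0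
        have g2 : H.adj u a2 := by
          by_contra hcon
          exact hz0.ninc u hue a2 e2 (hopp a2 a1 u t2 t1 hu.2) hcon (fun h => h) p1
        exact hcn u (hUX hu.1) ⟨hu.2, H.symm g2⟩)
      refine ⟨_, hy, ?_⟩
      rw [Function.update_self, Function.update_of_ne nx1, Function.update_of_ne n12.symm,
        triple_product_permutation]
      exact hym
    by_cases cD : deg H U a2 ≤ 1
    · obtain ⟨z0, hz0⟩ := hnd a2
      have e1 : x ∈ U.erase a2 := mem_erase.2 ⟨nx2, mx⟩
      have e2 : a1 ∈ U.erase a2 := mem_erase.2 ⟨n12, m1⟩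
      have hm : z0 x ⨯₃ z0 a1 ≠ 0 := hz0.dis x e1 a1 e2 (by rw [t1, tx]) nx1
      obtain ⟨y, hy, hym⟩ := ext_le_one H U _ hXs a2 m2 cD z0 hz0 (z0 x ⨯₃ z0 a1) hm (by
        intro u hu h0
        have hue := lv04_nb_erase H U a2 u hu
        rw [mem_nb] at hu
        obtain ⟨_, p1⟩ := lv16_perp hm h0
        have g2 : H.adj u a1 := by
          by_contra hcon
          exact hz0.ninc u hue a1 e2 (hopp a1 a2 u t1 t2 hu.2) hcon (fun h => h) p1
        exact hcn u (hUX hu.1) ⟨H.symm g2, hu.2⟩)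
      refine ⟨_, hy, ?_⟩
      rw [Function.update_self, Function.update_of_ne nx2, Function.update_of_ne n12,
        triple_product_permutation, triple_product_permutation]
      exact hym
    -- now `bd K U ≤ 3`, and `≤ 2` if `U = X`
    exfalso
    push Not at cA cB cC cD
    have hcard : 3 ≤ U.card := by
      have : ({x, a1, a2} : Finset V) ⊆ U := by
        intro v hv
        simp only [mem_insert, mem_singleton] at hv
        rcases hv with rfl | rfl | rfl
        · exact mx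
        · exact m1
        · exact m2
      have h5 := card_le_card this
      rwa [card_insert_of_notMem (by simp [nx1, nx2]), card_insert_of_notMem (by simp [n12]),
        card_singleton] at h5
    have hbd := bd_eq_DD K hK.cubic U
    have hb1 : ∀ v ∈ U, (3 - (deg K U v : ℤ)) ≤
        (if v = a1 then 1 else 0) + (if v = a2 then 1 else 0) +
          (if v = x then (3 - (deg K U x : ℤ)) else 0) := by
      intro v hv
      have hdv := lv16_deg hK U v
      by_cases e1 : v = a1
      · subst e1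
        rw [if_pos rfl, if_neg n12, if_neg nx1.symm]
        have : (2 : ℤ) ≤ deg K U v := by exact_mod_cast (Nat.succ_le_of_lt cC).trans hdv
        linarith
      by_cases e2 : v = a2
      · subst e2
        rw [if_neg n12.symm, if_pos rfl, if_neg nx2.symm]
        have : (2 : ℤ) ≤ deg K U v := by exact_mod_cast (Nat.succ_le_of_lt cD).trans hdv
        linarith
      by_cases e3 : v = x
      · subst e3
        rw [if_neg e1, if_neg e2, if_pos rfl]
        linarith
      rw [if_neg e1, if_neg e2, if_neg e3]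
      have h6 := cA v hv e3 e1 e2
      have : (3 : ℤ) ≤ deg K U v := by exact_mod_cast (Nat.succ_le_of_lt h6).trans hdv
      linarith
    have hsum : (bd K U : ℤ) ≤ 1 + 1 + (3 - (deg K U x : ℤ)) := by
      rw [hbd]
      unfold DD
      refine (sum_le_sum hb1).trans (le_of_eq ?_)
      rw [sum_add_distrib, sum_add_distrib, sum_ite_eq' U a1, sum_ite_eq' U a2, sum_ite_eq' U x,
        if_pos m1, if_pos m2, if_pos mx]
    rcases hUX.eq_or_ssubset with hEq | hSs
    · subst hEq
      have hx3 : deg K U x = 3 := by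
        rw [← hK.cubic x]
        unfold deg
        congr 1
        ext b
        rw [mem_nb, mem_nb]
        exact ⟨fun h => ⟨mem_univ b, h.2⟩, fun h => ⟨ox b h.2, h.2⟩⟩
      rw [hX, hx3] at hsum
      norm_num at hsum
    · have h5 := hmin U hSs (by omega)
      have h6 : (2 : ℤ) ≤ deg K U x := by
        exact_mod_cast (Nat.succ_le_of_lt cB).trans (lv16_deg hK U x)
      have h7 : (4 : ℤ) ≤ bd K U := by exact_mod_cast h5
      linarith

end Pool.Agent.Levi3
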