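import Pool.Agent.Levi3.Defs
import Pool.Agent.Levi3.LV02
import Pool.Agent.Levi3.LV11
import Pool.Agent.Levi3.LV15
import Pool.Agent.Levi3.LV16

/-! LV17 : Cut3 -/

namespace Pool.Agent.Levi3

open Matrix Finset

variable {V : Type} [DecidableEq V]

theorem lv17_bd_def [Fintype V] (K : Inc V) (X : Finset V) :
    bd K X = ∑ v ∈ X, (nb K (univ \ X) v).card := by
  unfold bd
  refine Finset.sum_congr rfl fun v _ => ?_
  congr 2
  ext u
  simp only [mem_sdiff, mem_univ, true_and]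

theorem lv17_deg_split [Fintype V] (K : Inc V) (X : Finset V) (v : V) :
    deg K univ v = deg K X v + (nb K (univ \ X) v).card := by
  unfold deg
  rw [← card_union_of_disjoint]
  · congr 1
    ext u
    simp only [mem_nb, mem_univ, true_and, mem_union, mem_sdiff]
    tauto
  · rw [disjoint_left]
    intro u h1 h2
    rw [mem_nb] at h1 h2
    exact (mem_sdiff.1 h2.1).2 h1.1

theorem lv17_DD_erase (K : Inc V) (X : Finset V) (v : V) (hv : v ∈ X) :
    DD K (X.erase v) = DD K X - 3 + 2 * (deg K X v : ℤ) := by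
  classical
  have h1 : DD K X = (3 - (deg K X v : ℤ)) + ∑ u ∈ X.erase v, (3 - (deg K X u : ℤ)) := by
    unfold DD
    rw [add_sum_erase X (fun u => (3 - (deg K X u : ℤ))) hv]
  have h : ∀ u ∈ X.erase v, (3 - (deg K X u : ℤ)) =
      (3 - (deg K (X.erase v) u : ℤ)) - (if K.adj v u then 1 else 0) := by
    intro u hu
    have hu' := mem_erase.1 hu
    by_cases hadj : K.adj v u
    · rw [if_pos hadj]
      have : nb K X u = insert v (nb K (X.erase v) u) := by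
        ext w
        simp only [mem_nb, mem_insert, mem_erase]
        constructor
        · rintro ⟨a, b⟩
          by_cases hw : w = v
          · exact Or.inl hw
          · exact Or.inr ⟨⟨hw, a⟩, b⟩
        · rintro (a | ⟨⟨_, a⟩, b⟩)
          · rw [a]
            exact ⟨hv, K.symm hadj⟩
          · exact ⟨a, b⟩
      have h3 : deg K X u = deg K (X.erase v) u + 1 := by
        unfold deg
        rw [this, card_insert_of_notMem]
        simp
      rw [h3]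
      push_cast
      ring
    · rw [if_neg hadj]
      have : nb K X u = nb K (X.erase v) u := by
        ext w
        simp only [mem_nb, mem_erase]
        constructor
        · rintro ⟨a, b⟩
          refine ⟨⟨?_, a⟩, b⟩
          rintro rfl
          exact hadj (K.symm b)
        · rintro ⟨⟨_, a⟩, b⟩
          exact ⟨a, b⟩
      unfold deg
      rw [this]
      ring
  have h2 : ∑ u ∈ X.erase v, (if K.adj v u then (1:ℤ) else 0) = deg K X v := by
    rw [← sum_filter, sum_const]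
    unfold deg
    simp only [nsmul_eq_mul, mul_one, Nat.cast_inj]
    congr 1
    ext w
    simp only [mem_filter, mem_erase, mem_nb]
    constructor
    · rintro ⟨⟨_, a⟩, b⟩
      exact ⟨a, b⟩
    · rintro ⟨a, b⟩
      refine ⟨⟨?_, a⟩, b⟩
      rintro rfl
      exact K.irr _ b
  rw [h1, sum_congr rfl h, sum_sub_distrib, h2]
  unfold DD
  ring

/-- In a 3-edge cut every vertex has at most one leaving edge. -/
theorem lv17_out_le [Fintype V] (H K : Inc V) (hc : Crit H univ) (h4 : C4F H univ)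
    (hK : IsClosure H K) (Y : Finset V) (hY : bd K Y = 3) (h2 : 2 ≤ Y.card) (v : V)
    (hv : v ∈ Y) : (nb K (univ \ Y) v).card ≤ 1 := by
  by_contra hcon
  push Not at hcon
  have h1 := lv17_deg_split K Y v
  rw [hK.cubic v] at h1
  have h3 := lv17_DD_erase K Y v hv
  rw [← bd_eq_DD K hK.cubic, ← bd_eq_DD K hK.cubic, hY] at h3
  have h5 : bd K (Y.erase v) ≤ 2 := by
    have : (bd K (Y.erase v) : ℤ) ≤ 2 := by
      rw [h3]
      have : (deg K Y v : ℤ) ≤ 1 := by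
        have : deg K Y v ≤ 1 := by omega
        exact_mod_cast this
      push_cast
      linarith
    exact_mod_cast this
  rcases crit_cut2 H K hc h4 hK _ h5 with h | h
  · have := card_erase_of_mem hv
    rw [h, card_empty] at this
    omega
  · have : v ∈ Y.erase v := h ▸ mem_univ v
    simp at this

/-- The three edges of a 3-edge cut. -/
theorem lv17_three [Fintype V] (H K : Inc V) (hc : Crit H univ) (h4 : C4F H univ)
    (hK : IsClosure H K) (X : Finset V) (hX : bd K X = 3) (h2 : 2 ≤ X.card) (h2' : 2 ≤ Xᶜ.card) :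
    ∃ (τ : Bool) (a1 a2 a3 b1 b2 b3 : V),
      (K.typ a1 = τ ∧ K.typ a2 = τ ∧ K.typ a3 = τ) ∧ (a1 ≠ a2 ∧ a1 ≠ a3 ∧ a2 ≠ a3) ∧
      (b1 ≠ b2 ∧ b1 ≠ b3 ∧ b2 ≠ b3) ∧ (a1 ∈ X ∧ a2 ∈ X ∧ a3 ∈ X) ∧
      (b1 ∉ X ∧ b2 ∉ X ∧ b3 ∉ X) ∧
      ∀ s ∈ X, ∀ t, t ∉ X → (K.adj s t ↔
        (s = a1 ∧ t = b1) ∨ (s = a2 ∧ t = b2) ∨ (s = a3 ∧ t = b3)) := by
  classical
  have hsum := lv17_bd_def K X
  rw [hX] at hsum
  -- kinds
  have hpar := cut_parity K hK.cubic X
  have hsplit : (∑ v ∈ X.filter (fun v => K.typ v = true), (nb K (univ \ X) v).card) +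
      ∑ v ∈ X.filter (fun v => K.typ v = false), (nb K (univ \ X) v).card = 3 := by
    rw [hsum, ← sum_filter_add_sum_filter_not X (fun v => K.typ v = true)]
    congr 1
    apply sum_congr _ fun _ _ => rfl
    ext v
    simp
  have hτ : ∃ τ : Bool, ∀ v ∈ X, K.typ v ≠ τ → (nb K (univ \ X) v).card = 0 := by
    set T := ∑ v ∈ X.filter (fun v => K.typ v = true), (nb K (univ \ X) v).card with hT
    set F := ∑ v ∈ X.filter (fun v => K.typ v = false), (nb K (univ \ X) v).card with hF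
    have hpar' : (3 : ℤ) ∣ (T : ℤ) - F := by
      rw [hT, hF]
      push_cast
      exact hpar
    have hcase : T = 0 ∨ F = 0 := by omega
    rcases hcase with h | h
    · refine ⟨false, fun v hv hv' => ?_⟩
      rw [hT, sum_eq_zero_iff] at h
      exact h v (mem_filter.2 ⟨hv, by simpa using hv'⟩)
    · refine ⟨true, fun v hv hv' => ?_⟩
      rw [hF, sum_eq_zero_iff] at h
      exact h v (mem_filter.2 ⟨hv, by simpa using hv'⟩)
  obtain ⟨τ, hτ⟩ := hτ
  set A := X.filter (fun v => (nb K (univ \ X) v).card ≠ 0) with hA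
  have hA1 : ∀ v ∈ A, (nb K (univ \ X) v).card = 1 := by
    intro v hv
    have h1 := mem_filter.1 hv
    have h3 := lv17_out_le H K hc h4 hK X hX h2 v h1.1
    omega
  have hAcard : A.card = 3 := by
    have h1 : ∑ v ∈ A, (nb K (univ \ X) v).card = ∑ v ∈ X, (nb K (univ \ X) v).card := by
      rw [hA, sum_filter_ne_zero]
    rw [sum_congr rfl hA1, sum_const, smul_eq_mul, mul_one] at h1
    rw [h1, ← hsum]
  obtain ⟨a1, a2, a3, h12, h13, h23, hAe⟩ := card_eq_three.1 hAcard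
  have m1 : a1 ∈ A := by rw [hAe]; simp
  have m2 : a2 ∈ A := by rw [hAe]; simp
  have m3 : a3 ∈ A := by rw [hAe]; simp
  obtain ⟨b1, hb1⟩ := card_eq_one.1 (hA1 a1 m1)
  obtain ⟨b2, hb2⟩ := card_eq_one.1 (hA1 a2 m2)
  obtain ⟨b3, hb3⟩ := card_eq_one.1 (hA1 a3 m3)
  have hAX : ∀ a ∈ A, a ∈ X := fun a ha => (mem_filter.1 ha).1
  have hAt : ∀ a ∈ A, K.typ a = τ := by
    intro a ha
    by_contra hcon
    exact (mem_filter.1 ha).2 (hτ a (hAX a ha) hcon)
  have hb : ∀ a b, nb K (univ \ X) a = {b} → b ∉ X ∧ K.adj a b := by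
    intro a b h
    have : b ∈ nb K (univ \ X) a := by rw [h]; simp
    rw [mem_nb] at this
    exact ⟨(mem_sdiff.1 this.1).2, this.2⟩
  have hbd' : bd K Xᶜ = 3 := by rw [bd_compl, hX]
  have hbne : ∀ a a' b b', a ∈ A → a' ∈ A → a ≠ a' → nb K (univ \ X) a = {b} →
      nb K (univ \ X) a' = {b'} → b ≠ b' := by
    intro a a' b b' ha ha' hne h h' hbb
    subst hbb
    have h5 := lv17_out_le H K hc h4 hK Xᶜ hbd' h2' b (mem_compl.2 (hb a b h).1)
    have h6 := card_le_one.1 h5 a (by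
      rw [mem_nb]
      refine ⟨?_, K.symm (hb a b h).2⟩
      simp [hAX a ha]) a' (by
      rw [mem_nb]
      refine ⟨?_, K.symm (hb a' b h').2⟩
      simp [hAX a' ha'])
    exact hne h6
  refine ⟨τ, a1, a2, a3, b1, b2, b3, ⟨hAt _ m1, hAt _ m2, hAt _ m3⟩, ⟨h12, h13, h23⟩,
    ⟨hbne _ _ _ _ m1 m2 h12 hb1 hb2, hbne _ _ _ _ m1 m3 h13 hb1 hb3,
      hbne _ _ _ _ m2 m3 h23 hb2 hb3⟩,
    ⟨hAX _ m1, hAX _ m2, hAX _ m3⟩, ⟨(hb _ _ hb1).1, (hb _ _ hb2).1, (hb _ _ hb3).1⟩, ?_⟩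
  intro s hs t ht
  constructor
  · intro hadj
    have hmem : t ∈ nb K (univ \ X) s := by
      rw [mem_nb]
      exact ⟨by simp [ht], hadj⟩
    have hsA : s ∈ A := by
      rw [hA, mem_filter]
      refine ⟨hs, fun h => ?_⟩
      rw [card_eq_zero] at h
      rw [h] at hmem
      simp at hmem
    rw [hAe, mem_insert, mem_insert, mem_singleton] at hsA
    rcases hsA with h | h | h
    · subst h
      rw [hb1, mem_singleton] at hmem
      exact Or.inl ⟨rfl, hmem⟩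
    · subst h
      rw [hb2, mem_singleton] at hmem
      exact Or.inr (Or.inl ⟨rfl, hmem⟩)
    · subst h
      rw [hb3, mem_singleton] at hmem
      exact Or.inr (Or.inr ⟨rfl, hmem⟩)
  · rintro (⟨rfl, rfl⟩ | ⟨rfl, rfl⟩ | ⟨rfl, rfl⟩)
    · exact (hb _ _ hb1).2
    · exact (hb _ _ hb2).2
    · exact (hb _ _ hb3).2

/-- Merging placements with all determinants nonzero. -/
theorem lv17_merge [Fintype V] (H : Inc V) (hc : Crit H univ) (h4 : C4F H univ)
    (hd : ∀ v, deg H univ v ≤ 3) (X : Finset V) (hXu : X ≠ univ) (a1 a2 : V) (h1 : a1 ∈ X)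
    (h2 : a2 ∈ X) (P : Finset V) (hP : P ⊆ X)
    (hnd : ∀ x ∈ P, ∃ z, NDm H X (fun _ _ => False) z ∧ z x ⬝ᵥ (z a1 ⨯₃ z a2) ≠ 0) :
    ∃ z, NDm H X (fun _ _ => False) z ∧ ∀ x ∈ P, z x ⬝ᵥ (z a1 ⨯₃ z a2) ≠ 0 := by
  induction P using Finset.induction_on with
  | empty =>
    obtain ⟨z, hz⟩ := hc.2 X (ssubset_univ_iff.2 hXu)
    exact ⟨z, hz, by simp⟩
  | insert x P hx ih =>
    obtain ⟨z1, hz1, hz1'⟩ := ih (fun y hy => hP (mem_insert_of_mem hy))
      (fun y hy => hnd y (mem_insert_of_mem hy))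
    obtain ⟨z2, hz2, hz2'⟩ := hnd x (mem_insert_self _ _)
    have hg : Good H {z1, z2} X := by
      apply good_of_no_stuck
      intro W hW hWn
      have hWu : W ≠ univ := by
        rintro rfl
        exact hXu (univ_subset_iff.1 hW)
      obtain ⟨v, hv, hv2⟩ := crit_hdeg H hc h4 hd W hWn hWu
      refine ⟨v, hv, hv2, ?_⟩
      intro z hz u hu w hw hne
      rw [mem_nb] at hu hw
      have htyp : H.typ u = H.typ w := by
        have e1 := H.bip hu.2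
        have e2 := H.bip hw.2
        cases h : H.typ u <;> cases h' : H.typ w <;> cases h'' : H.typ v <;> simp_all
      rcases hz with rfl | rfl
      · exact hz1.dis u (hW hu.1) w (hW hw.1) htyp hne
      · exact hz2.dis u (hW hu.1) w (hW hw.1) htyp hne
    obtain ⟨z, hpl, hdot, hcr, hdet⟩ := combine H X z1 z2 hg hz1.pl hz2.pl
    refine ⟨z, ⟨hpl, ?_, ?_⟩, ?_⟩
    · intro u hu v hv ht hne
      exact hcr u hu v hv (Or.inl (hz1.dis u hu v hv ht hne))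
    · intro u hu v hv ht hadj hX
      exact hdot u hu v hv (Or.inl (hz1.ninc u hu v hv ht hadj hX))
    · intro y hy
      rcases mem_insert.1 hy with rfl | hy'
      · exact hdet _ (hP (mem_insert_self _ _)) _ h1 _ h2 (Or.inr hz2')
      · exact hdet _ (hP hy) _ h1 _ h2 (Or.inl (hz1' y hy'))

theorem lv17_deg_le_one [Fintype V] (K : Inc V) (Y : Finset V) (a b l : V)
    (hcub : deg K univ a = 3) (hb : b ∉ Y) (hl : l ∉ Y) (hne : b ≠ l) (hab : K.adj a b)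
    (hal : K.adj a l) : deg K Y a ≤ 1 := by
  have h1 : nb K Y a ⊆ ((nb K univ a).erase b).erase l := by
    intro w hw
    rw [mem_nb] at hw
    rw [mem_erase, mem_erase, mem_nb]
    refine ⟨?_, ?_, mem_univ _, hw.2⟩
    · rintro rfl
      exact hl hw.1
    · rintro rfl
      exact hb hw.1
  have h2 : (((nb K univ a).erase b).erase l).card = 1 := by
    rw [card_erase_of_mem, card_erase_of_mem]
    · unfold deg at hcub
      rw [hcub]
    · simp [hab]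
    · simp [hal, hne.symm]
  have h3 := card_le_card h1
  unfold deg
  omega

theorem lv17_third [Fintype V] (K : Inc V) (a b l : V) (hcub : deg K univ a = 3) :
    ∃ e, K.adj a e ∧ e ≠ b ∧ e ≠ l := by
  have h1 : 1 ≤ (((nb K univ a).erase b).erase l).card := by
    have e1 := pred_card_le_card_erase (s := nb K univ a) (a := b)
    have e2 := pred_card_le_card_erase (s := (nb K univ a).erase b) (a := l)
    unfold deg at hcub
    omega
  obtain ⟨e, he⟩ := card_pos.1 h1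
  simp only [mem_erase, mem_nb, mem_univ, true_and] at he
  exact ⟨e, he.2.2, he.2.1, he.1⟩

/-- Not all three cut vertices have a common neighbour in `X`. -/
theorem lv17_not_all [Fintype V] (K : Inc V) (hcub : ∀ v, deg K univ v = 3)
    (hc4 : C4F K univ) (X : Finset V) (hX : bd K X = 3)
    (hmin : ∀ U, U ⊂ X → 2 ≤ U.card → 4 ≤ bd K U) (τ : Bool) (a1 a2 a3 b1 b2 b3 l : V)
    (ht : K.typ a1 = τ ∧ K.typ a2 = τ ∧ K.typ a3 = τ) (ha : a1 ≠ a2 ∧ a1 ≠ a3 ∧ a2 ≠ a3)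
    (haX : a1 ∈ X ∧ a2 ∈ X ∧ a3 ∈ X) (hbX : b1 ∉ X ∧ b2 ∉ X ∧ b3 ∉ X)
    (hadj : ∀ s ∈ X, ∀ t, t ∉ X → (K.adj s t ↔
        (s = a1 ∧ t = b1) ∨ (s = a2 ∧ t = b2) ∨ (s = a3 ∧ t = b3)))
    (hl : l ∈ X) (h1 : K.adj a1 l) (h2 : K.adj a2 l) (h3 : K.adj a3 l) : False := by
  obtain ⟨e1, he1, he1b, he1l⟩ := lv17_third K a1 b1 l (hcub a1)
  obtain ⟨e2, he2, he2b, he2l⟩ := lv17_third K a2 b2 l (hcub a2)
  have A1 : K.adj a1 b1 := (hadj a1 haX.1 b1 hbX.1).2 (Or.inl ⟨rfl, rfl⟩)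
  have A2 : K.adj a2 b2 := (hadj a2 haX.2.1 b2 hbX.2.1).2 (Or.inr (Or.inl ⟨rfl, rfl⟩))
  have A3 : K.adj a3 b3 := (hadj a3 haX.2.2 b3 hbX.2.2).2 (Or.inr (Or.inr ⟨rfl, rfl⟩))
  have he1X : e1 ∈ X := by
    by_contra hcon
    rcases (hadj a1 haX.1 e1 hcon).1 he1 with h | h | h
    · exact he1b h.2
    · exact ha.1 h.1
    · exact ha.2.1 h.1
  have he2X : e2 ∈ X := by
    by_contra hcon
    rcases (hadj a2 haX.2.1 e2 hcon).1 he2 with h | h | h
    · exact ha.1 h.1.symm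
    · exact he2b h.2
    · exact ha.2.2 h.1
  have he12 : e1 ≠ e2 := by
    rintro rfl
    rcases hc4 a1 (mem_univ _) l (mem_univ _) a2 (mem_univ _) e1 (mem_univ _) h1 (K.symm h2) he2
      (K.symm he1) with h | h
    · exact ha.1 h
    · exact he1l h.symm
  have hte : ∀ e a, K.adj a e → K.typ a = τ → ∀ a', K.typ a' = τ → e ≠ a' := by
    rintro e a h hta a' hta' rfl
    exact K.bip h (hta.trans hta'.symm)
  set X1 := X.erase l with hX1
  set X2 := X1.erase a1 with hX2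
  set X3 := X2.erase a2 with hX3
  set X4 := X3.erase a3 with hX4
  have hl1 : ∀ a, K.typ a = τ → a ≠ l := by
    rintro a hta rfl
    exact K.bip h1 (ht.1.trans hta.symm)
  have m1 : a1 ∈ X1 := mem_erase.2 ⟨hl1 _ ht.1, haX.1⟩
  have m2 : a2 ∈ X2 := mem_erase.2 ⟨ha.1.symm, mem_erase.2 ⟨hl1 _ ht.2.1, haX.2.1⟩⟩
  have m3 : a3 ∈ X3 := mem_erase.2 ⟨ha.2.2.symm, mem_erase.2 ⟨ha.2.1.symm,
    mem_erase.2 ⟨hl1 _ ht.2.2, haX.2.2⟩⟩⟩
  have s1 : X1 ⊆ X := erase_subset _ _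
  have s2 : X2 ⊆ X1 := erase_subset _ _
  have s3 : X3 ⊆ X2 := erase_subset _ _
  have s4 : X4 ⊆ X3 := erase_subset _ _
  have nl1 : l ∉ X1 := notMem_erase _ _
  have d0 := lv17_DD_erase K X l hl
  have d1 := lv17_DD_erase K X1 a1 m1
  have d2 := lv17_DD_erase K X2 a2 m2
  have d3 := lv17_DD_erase K X3 a3 m3
  have c0 : deg K X l ≤ 3 := by
    have := deg_mono (G := K) (subset_univ X) l
    rw [hcub] at this
    exact this
  have c1 : deg K X1 a1 ≤ 1 := lv17_deg_le_one K X1 a1 b1 l (hcub a1) (fun h => hbX.1 (s1 h)) nl1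
    (fun h => hbX.1 (h ▸ hl)) A1 h1
  have c2 : deg K X2 a2 ≤ 1 := lv17_deg_le_one K X2 a2 b2 l (hcub a2)
    (fun h => hbX.2.1 (s1 (s2 h))) (fun h => nl1 (s2 h)) (fun h => hbX.2.1 (h ▸ hl)) A2 h2
  have c3 : deg K X3 a3 ≤ 1 := lv17_deg_le_one K X3 a3 b3 l (hcub a3)
    (fun h => hbX.2.2 (s1 (s2 (s3 h)))) (fun h => nl1 (s2 (s3 h)))
    (fun h => hbX.2.2 (h ▸ hl)) A3 h3
  have hss : X4 ⊂ X := by
    refine ⟨fun x hx => s1 (s2 (s3 (s4 hx))), fun h => ?_⟩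
    exact nl1 (s2 (s3 (s4 (h hl))))
  have hcard : 2 ≤ X4.card := by
    have hsub : ({e1, e2} : Finset V) ⊆ X4 := by
      intro x hx
      rw [mem_insert, mem_singleton] at hx
      rcases hx with rfl | rfl
      · simp only [hX4, hX3, hX2, hX1, mem_erase]
        exact ⟨hte _ _ he1 ht.1 _ ht.2.2, hte _ _ he1 ht.1 _ ht.2.1, hte _ _ he1 ht.1 _ ht.1,
          he1l, he1X⟩
      · simp only [hX4, hX3, hX2, hX1, mem_erase]
        exact ⟨hte _ _ he2 ht.2.1 _ ht.2.2, hte _ _ he2 ht.2.1 _ ht.2.1,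
          hte _ _ he2 ht.2.1 _ ht.1, he2l, he2X⟩
    have := card_le_card hsub
    rwa [card_pair he12] at this
  have hfin := hmin X4 hss hcard
  have hb0 := bd_eq_DD K hcub X
  have hb4 := bd_eq_DD K hcub X4
  rw [hX] at hb0
  push_cast at hb0
  have hfin' : (4 : ℤ) ≤ DD K X4 := by
    rw [← hb4]
    exact_mod_cast hfin
  have c0' : (deg K X l : ℤ) ≤ 3 := by exact_mod_cast c0
  have c1' : (deg K X1 a1 : ℤ) ≤ 1 := by exact_mod_cast c1
  have c2' : (deg K X2 a2 : ℤ) ≤ 1 := by exact_mod_cast c2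
  have c3' : (deg K X3 a3 : ℤ) ≤ 1 := by exact_mod_cast c3
  linarith

omit [DecidableEq V] in
/-- A placement in which `l` is a common neighbour of `a1`, `a2` but not of `a3`. -/
theorem lv17_det_ne (H : Inc V) (X : Finset V) (z : V → E3)
    (hz : NDm H X (fun _ _ => False) z) (a1 a2 a3 l : V) (h1 : a1 ∈ X) (h2 : a2 ∈ X)
    (h3 : a3 ∈ X) (hl : l ∈ X) (hne : a1 ≠ a2) (ht : H.typ a1 = H.typ a2)
    (ht3 : H.typ a3 = H.typ a1) (A1 : H.adj a1 l) (A2 : H.adj a2 l) (A3 : ¬ H.adj a3 l) :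
    z a3 ⬝ᵥ (z a1 ⨯₃ z a2) ≠ 0 := by
  intro h0
  have hcr := hz.dis a1 h1 a2 h2 ht hne
  have e1 := hz.pl.inc a1 h1 l hl A1
  have e2 := hz.pl.inc a2 h2 l hl A2
  have e3 : (z a1 ⨯₃ z a2) ⨯₃ z l = 0 := by
    rw [cross_cross_eq_smul_sub_smul, e1, e2]
    simp
  obtain ⟨c, hc⟩ := exists_smul_of_cross_eq_zero hcr e3
  apply hz.ninc a3 h3 l hl (by rw [ht3]; exact H.bip A1) A3 (fun h => h)
  rw [hc, dotProduct_smul, h0, smul_zero]

theorem lv17_glue30 [Fintype V] (H : Inc V) (hc : Crit H univ) (h4 : C4F H univ)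
    (X : Finset V) (hXn : X.Nonempty) (τ : Bool) (a1 a2 a3 b1 b2 b3 : V)
    (ht : H.typ a1 = τ ∧ H.typ a2 = τ ∧ H.typ a3 = τ) (ha : a1 ≠ a2 ∧ a1 ≠ a3 ∧ a2 ≠ a3)
    (hb : b1 ≠ b2 ∧ b1 ≠ b3 ∧ b2 ≠ b3)
    (haX : a1 ∈ X ∧ a2 ∈ X ∧ a3 ∈ X) (hbX : b1 ∉ X ∧ b2 ∉ X ∧ b3 ∉ X)
    (hadj : ∀ s ∈ X, ∀ t, t ∉ X → (H.adj s t ↔
        (s = a1 ∧ t = b1) ∨ (s = a2 ∧ t = b2) ∨ (s = a3 ∧ t = b3)))
    (hS : ∃ z, NDm H X (fun _ _ => False) z ∧
      (z a3 ⬝ᵥ (z a1 ⨯₃ z a2) = 0 → ∀ x ∈ X, H.typ x = τ → x ≠ a1 → x ≠ a2 → x ≠ a3 →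
        z x ⬝ᵥ (z a1 ⨯₃ z a2) ≠ 0)) : False := by
  have hU : X ∪ Xᶜ = univ := union_compl X
  have hT : ND H Xᶜ := by
    apply hc.2
    rw [ssubset_univ_iff]
    intro h
    obtain ⟨x, hx⟩ := hXn
    exact (mem_compl.1 (h ▸ mem_univ x)) hx
  apply hc.1
  rw [← hU]
  exact glue30 H X Xᶜ disjoint_compl_right (hU ▸ h4) (by rw [hU]; exact crit_deg H univ hc) hT
    a1 a2 a3 b1 b2 b3 τ ht ha hb haX ⟨mem_compl.2 hbX.1, mem_compl.2 hbX.2.1,
      mem_compl.2 hbX.2.2⟩ (fun s hs t ht => hadj s hs t (mem_compl.1 ht)) hS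

/-- The case of a common neighbour. -/
theorem lv17_common [Fintype V] (H K : Inc V) (hc : Crit H univ) (h4 : C4F H univ)
    (hK : IsClosure H K) (X : Finset V) (hX : bd K X = 3)
    (hmin : ∀ U, U ⊂ X → 2 ≤ U.card → 4 ≤ bd K U) (τ : Bool) (a1 a2 a3 b1 b2 b3 : V)
    (ht : H.typ a1 = τ ∧ H.typ a2 = τ ∧ H.typ a3 = τ) (ha : a1 ≠ a2 ∧ a1 ≠ a3 ∧ a2 ≠ a3)
    (hb : b1 ≠ b2 ∧ b1 ≠ b3 ∧ b2 ≠ b3)
    (haX : a1 ∈ X ∧ a2 ∈ X ∧ a3 ∈ X) (hbX : b1 ∉ X ∧ b2 ∉ X ∧ b3 ∉ X)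
    (hHK : ∀ u v, H.adj u v → K.adj u v)
    (hadjK : ∀ s ∈ X, ∀ t, t ∉ X → (K.adj s t ↔
        (s = a1 ∧ t = b1) ∨ (s = a2 ∧ t = b2) ∨ (s = a3 ∧ t = b3)))
    (hadj : ∀ s ∈ X, ∀ t, t ∉ X → (H.adj s t ↔
        (s = a1 ∧ t = b1) ∨ (s = a2 ∧ t = b2) ∨ (s = a3 ∧ t = b3)))
    (l : V) (hl : l ∈ X) (A1 : H.adj a1 l) (A2 : H.adj a2 l) : False := by
  have hXu : X ≠ univ := by
    rintro rfl
    exact hbX.1 (mem_univ _)
  have A3 : ¬ H.adj a3 l := by
    intro A3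
    exact lv17_not_all K hK.cubic hK.c4f X hX hmin τ a1 a2 a3 b1 b2 b3 l
      (by rw [hK.typ]; exact ht) ha haX hbX hadjK hl (hHK _ _ A1) (hHK _ _ A2) (hHK _ _ A3)
  obtain ⟨z, hz⟩ := hc.2 X (ssubset_univ_iff.2 hXu)
  refine lv17_glue30 H hc h4 X ⟨_, hl⟩ τ a1 a2 a3 b1 b2 b3 ht ha hb haX hbX hadj
    ⟨z, hz, fun h0 => ?_⟩
  exact absurd h0 (lv17_det_ne H X z hz a1 a2 a3 l haX.1 haX.2.1 haX.2.2 hl ha.1
    (ht.1.trans ht.2.1.symm) (ht.2.2.trans ht.1.symm) A1 A2 A3)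

theorem lv17_main [Fintype V] (H K : Inc V) (hc : Crit H univ) (h4 : C4F H univ)
    (hK : IsClosure H K) (X : Finset V) (hX : bd K X = 3) (h2 : 2 ≤ X.card)
    (h2' : 2 ≤ Xᶜ.card) (hmin : ∀ U, U ⊂ X → 2 ≤ U.card → 4 ≤ bd K U) : False := by
  classical
  obtain ⟨τ, a1, a2, a3, b1, b2, b3, ht, ha, hb, haX, hbX, hadjK⟩ :=
    lv17_three H K hc h4 hK X hX h2 h2'
  have htH : H.typ a1 = τ ∧ H.typ a2 = τ ∧ H.typ a3 = τ := by
    rw [← hK.typ]
    exact ht
  have hHK : ∀ u v, H.adj u v → K.adj u v := by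
    intro u v h
    rcases hK.rel with h' | ⟨p, q, _, h'⟩
    · exact (h' u v).1 h
    · exact ((h' u v).1 h).1
  have hd : ∀ v, deg H univ v ≤ 3 := by
    intro v
    rw [← hK.cubic v]
    apply card_le_card
    intro u hu
    rw [mem_nb] at hu ⊢
    exact ⟨hu.1, hHK _ _ hu.2⟩
  have hXu : X ≠ univ := by
    rintro rfl
    exact hbX.1 (mem_univ _)
  have hXn : X.Nonempty := ⟨a1, haX.1⟩
  by_cases hall : H.adj a1 b1 ∧ H.adj a2 b2 ∧ H.adj a3 b3
  · have hadj : ∀ s ∈ X, ∀ t, t ∉ X → (H.adj s t ↔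
        (s = a1 ∧ t = b1) ∨ (s = a2 ∧ t = b2) ∨ (s = a3 ∧ t = b3)) := by
      intro s hs t ht'
      constructor
      · intro h
        exact (hadjK s hs t ht').1 (hHK _ _ h)
      · rintro (⟨rfl, rfl⟩ | ⟨rfl, rfl⟩ | ⟨rfl, rfl⟩)
        · exact hall.1
        · exact hall.2.1
        · exact hall.2.2
    by_cases c12 : ∃ l ∈ X, H.adj a1 l ∧ H.adj a2 l
    · obtain ⟨l, hl, A1, A2⟩ := c12
      exact lv17_common H K hc h4 hK X hX hmin τ a1 a2 a3 b1 b2 b3 htH ha hb haX hbX hHK hadjK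
        hadj l hl A1 A2
    by_cases c13 : ∃ l ∈ X, H.adj a1 l ∧ H.adj a3 l
    · obtain ⟨l, hl, A1, A3⟩ := c13
      refine lv17_common H K hc h4 hK X hX hmin τ a1 a3 a2 b1 b3 b2 ⟨htH.1, htH.2.2, htH.2.1⟩
        ⟨ha.2.1, ha.1, ha.2.2.symm⟩ ⟨hb.2.1, hb.1, hb.2.2.symm⟩ ⟨haX.1, haX.2.2, haX.2.1⟩
        ⟨hbX.1, hbX.2.2, hbX.2.1⟩ hHK ?_ ?_ l hl A1 A3
      · intro s hs t ht'
        rw [hadjK s hs t ht']
        tauto
      · intro s hs t ht'
        rw [hadj s hs t ht']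
        tauto
    by_cases c23 : ∃ l ∈ X, H.adj a2 l ∧ H.adj a3 l
    · obtain ⟨l, hl, A2, A3⟩ := c23
      refine lv17_common H K hc h4 hK X hX hmin τ a2 a3 a1 b2 b3 b1 ⟨htH.2.1, htH.2.2, htH.1⟩
        ⟨ha.2.2, ha.1.symm, ha.2.1.symm⟩ ⟨hb.2.2, hb.1.symm, hb.2.1.symm⟩
        ⟨haX.2.1, haX.2.2, haX.1⟩ ⟨hbX.2.1, hbX.2.2, hbX.1⟩ hHK ?_ ?_ l hl A2 A3
      · intro s hs t ht'
        rw [hadjK s hs t ht']
        tauto
      · intro s hs t ht'
        rw [hadj s hs t ht']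
        tauto
    · obtain ⟨z, hz, hz'⟩ := lv17_merge H hc h4 hd X hXu a1 a2 haX.1 haX.2.1
        (X.filter fun x => H.typ x = τ ∧ x ≠ a1 ∧ x ≠ a2 ∧ x ≠ a3) (filter_subset _ _) (by
          intro x hx
          obtain ⟨hxX, hxt, hx1, hx2, hx3⟩ := mem_filter.1 hx
          refine nd_det H K hc h4 hK X hXu hX hmin a1 a2 x τ haX.1 haX.2.1 hxX
            ⟨ha.1, hx1, hx2⟩ ⟨htH.1, htH.2.1, hxt⟩
            ⟨b1, hbX.1, (hadjK a1 haX.1 b1 hbX.1).2 (Or.inl ⟨rfl, rfl⟩)⟩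
            ⟨b2, hbX.2.1, (hadjK a2 haX.2.1 b2 hbX.2.1).2 (Or.inr (Or.inl ⟨rfl, rfl⟩))⟩
            ?_ ?_
          · intro b hxb
            by_contra hbn
            rcases (hadjK x hxX b hbn).1 hxb with h | h | h
            · exact hx1 h.1
            · exact hx2 h.1
            · exact hx3 h.1
          · rintro u hu ⟨h, h'⟩
            exact c12 ⟨u, hu, h, h'⟩)
      exact lv17_glue30 H hc h4 X hXn τ a1 a2 a3 b1 b2 b3 htH ha hb haX hbX hadj
        ⟨z, hz, fun _ x hx hxt hx1 hx2 hx3 =>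
          hz' x (mem_filter.2 ⟨hx, hxt, hx1, hx2, hx3⟩)⟩
  · -- a missing edge
    have hU : X ∪ Xᶜ = univ := union_compl X
    have hS : ND H X := hc.2 X (ssubset_univ_iff.2 hXu)
    have hT : ND H Xᶜ := by
      apply hc.2
      rw [ssubset_univ_iff]
      intro h
      exact (mem_compl.1 (h ▸ mem_univ a1)) haX.1
    set E1 := (X ×ˢ Xᶜ).filter (fun e => H.adj e.1 e.2 ∧ H.typ e.1 = τ) with hE1
    set E2 := (X ×ˢ Xᶜ).filter (fun e => H.adj e.1 e.2 ∧ H.typ e.1 ≠ τ) with hE2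
    have hsub : E1 ⊆ {(a1, b1), (a2, b2), (a3, b3)} := by
      rintro ⟨s, t⟩ hst
      rw [hE1, mem_filter, mem_product] at hst
      have := (hadjK s hst.1.1 t (mem_compl.1 hst.1.2)).1 (hHK _ _ hst.2.1)
      simp only [mem_insert, mem_singleton, Prod.mk.injEq]
      exact this
    have hE2e : E2 = ∅ := by
      rw [eq_empty_iff_forall_notMem]
      rintro ⟨s, t⟩ hst
      rw [hE2, mem_filter, mem_product] at hst
      rcases (hadjK s hst.1.1 t (mem_compl.1 hst.1.2)).1 (hHK _ _ hst.2.1) with h | h | h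
      · exact hst.2.2 (h.1 ▸ htH.1)
      · exact hst.2.2 (h.1 ▸ htH.2.1)
      · exact hst.2.2 (h.1 ▸ htH.2.2)
    have hcard : E1.card ≤ 2 := by
      have hss : E1 ⊂ {(a1, b1), (a2, b2), (a3, b3)} := by
        refine ⟨hsub, fun hsup => hall ?_⟩
        have k1 := hsup (show (a1, b1) ∈ ({(a1, b1), (a2, b2), (a3, b3)} : Finset (V × V)) by simp)
        have k2 := hsup (show (a2, b2) ∈ ({(a1, b1), (a2, b2), (a3, b3)} : Finset (V × V)) by simp)
        have k3 := hsup (show (a3, b3) ∈ ({(a1, b1), (a2, b2), (a3, b3)} : Finset (V × V)) by simp)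
        rw [hE1, mem_filter] at k1 k2 k3
        exact ⟨k1.2.1, k2.2.1, k3.2.1⟩
      have h1 := card_lt_card hss
      have h3 : ({(a1, b1), (a2, b2), (a3, b3)} : Finset (V × V)).card ≤ 3 := card_le_three
      omega
    have hm1 : ∀ e ∈ E1, ∀ f ∈ E1, e ≠ f → e.1 ≠ f.1 ∧ e.2 ≠ f.2 := by
      intro e he f hf hne
      have he' := hsub he
      have hf' := hsub hf
      simp only [mem_insert, mem_singleton] at he' hf'
      rcases he' with rfl | rfl | rfl <;> rcases hf' with rfl | rfl | rfl <;>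
        first
        | exact absurd rfl hne
        | exact ⟨ha.1, hb.1⟩
        | exact ⟨ha.2.1, hb.2.1⟩
        | exact ⟨ha.2.2, hb.2.2⟩
        | exact ⟨ha.1.symm, hb.1.symm⟩
        | exact ⟨ha.2.1.symm, hb.2.1.symm⟩
        | exact ⟨ha.2.2.symm, hb.2.2.symm⟩
    apply hc.1
    rw [← hU]
    refine glue22 H X Xᶜ disjoint_compl_right (hU ▸ h4) (by rw [hU]; exact crit_deg H univ hc)
      hS hT τ E1 E2 ?_ ?_ hcard (by rw [hE2e]; simp) hm1 (by rw [hE2e]; simp) ?_ ?_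
    · intro s t
      rw [hE1, mem_filter, mem_product, and_assoc]
    · intro s t
      rw [hE2, mem_filter, mem_product, and_assoc]
    · intro e _ f _ _ k hk
      rw [hE2e] at hk
      simp at hk
    · intro k hk
      rw [hE2e] at hk
      simp at hk

theorem crit_cut3 [Fintype V] (H K : Inc V) (hc : Crit H univ) (h4 : C4F H univ)
    (hK : IsClosure H K) (X : Finset V) (hX : bd K X = 3) : X.card ≤ 1 ∨ Xᶜ.card ≤ 1 := by
  by_contra hcon
  push Not at hcon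
  have key : ∀ n : ℕ, ∀ X : Finset V, X.card = n → bd K X = 3 → 2 ≤ X.card → 2 ≤ Xᶜ.card →
      False := by
    intro n
    induction n using Nat.strong_induction_on with
    | _ n ih =>
      intro X hXn hX h2 h2'
      apply lv17_main H K hc h4 hK X hX h2 h2'
      intro U hU hU2
      by_contra hlt
      have hle : bd K U ≤ 3 := by omega
      rcases Nat.lt_or_ge (bd K U) 3 with h | h
      · rcases crit_cut2 H K hc h4 hK U (by omega) with h' | h'
        · rw [h', card_empty] at hU2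
          omega
        · rw [h'] at hU
          exact hU.2 (subset_univ _)
      · refine ih U.card (hXn ▸ card_lt_card hU) U rfl (by omega) hU2 ?_
        exact h2'.trans (card_le_card (compl_subset_compl.2 hU.1))
  exact key _ X rfl hX hcon.1 hcon.2

end Pool.Agent.Levi3
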