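import Pool.Agent.Levi3.Defs
import Pool.Agent.Levi3.LV10
import Pool.Agent.Levi3.LV15
import Pool.Agent.Levi3.LV17

/-! LV18 : Cut4 -/

namespace Pool.Agent.Levi3

open Matrix Finset

variable {V : Type} [DecidableEq V]

theorem lv18_bool : ∀ a b c : Bool, a ≠ b → c ≠ b → a = c := by decide

/-- number of neighbours outside `Y` -/
noncomputable def lv18_out [Fintype V] (K : Inc V) (Y : Finset V) (v : V) : ℕ :=
  (nb K (univ \ Y) v).card

theorem lv18_deg_add_out [Fintype V] (K : Inc V) (Y : Finset V) (v : V) :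
    deg K Y v + lv18_out K Y v = deg K univ v := by
  unfold deg lv18_out
  rw [← Finset.card_union_of_disjoint]
  · congr 1
    ext u
    simp only [mem_union, mem_nb, mem_sdiff, mem_univ, true_and]
    tauto
  · rw [Finset.disjoint_left]
    intro u hu hu'
    rw [mem_nb] at hu hu'
    exact (mem_sdiff.1 hu'.1).2 hu.1

open Classical in
theorem lv18_peel [Fintype V] (K : Inc V) (hK : ∀ v, deg K univ v = 3) (Y : Finset V) (v : V)
    (hv : v ∈ Y) : bd K (Y.erase v) + 2 * lv18_out K Y v = bd K Y + 3 := by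
  have e1 := bd_eq_DD K hK Y
  have e2 := bd_eq_DD K hK (Y.erase v)
  have e3 := lv18_deg_add_out K Y v
  rw [hK v] at e3
  have h1 : ∀ u ∈ Y.erase v, (3 - (deg K (Y.erase v) u : ℤ)) =
      (3 - (deg K Y u : ℤ)) + (if K.adj v u then 1 else 0) := by
    intro u _
    have hnb : nb K (Y.erase v) u = (nb K Y u).erase v := by
      ext w
      simp only [mem_nb, mem_erase]
      tauto
    have hdeg : deg K (Y.erase v) u = ((nb K Y u).erase v).card := by
      unfold deg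
      rw [hnb]
    by_cases hadj : K.adj v u
    · have hm : v ∈ nb K Y u := mem_nb.2 ⟨hv, K.symm hadj⟩
      have h2 := Finset.card_erase_add_one hm
      rw [hdeg, if_pos hadj]
      unfold deg
      push_cast [← h2]
      ring
    · have hm : v ∉ nb K Y u := fun h => hadj (K.symm (mem_nb.1 h).2)
      rw [hdeg, Finset.erase_eq_of_notMem hm, if_neg hadj]
      unfold deg
      ring
  have h2 : DD K (Y.erase v) = ∑ u ∈ Y.erase v, (3 - (deg K Y u : ℤ)) +
      ∑ u ∈ Y.erase v, (if K.adj v u then (1 : ℤ) else 0) := by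
    unfold DD
    rw [Finset.sum_congr rfl h1, Finset.sum_add_distrib]
  have h3 : ∑ u ∈ Y.erase v, (if K.adj v u then (1 : ℤ) else 0) = deg K Y v := by
    rw [Finset.sum_boole]
    unfold deg nb
    congr 2
    ext u
    simp only [mem_filter, mem_erase]
    constructor
    · rintro ⟨⟨_, h5⟩, h6⟩
      exact ⟨h5, h6⟩
    · rintro ⟨h5, h6⟩
      exact ⟨⟨fun h7 => K.irr v (h7 ▸ h6), h5⟩, h6⟩
  have h4 : DD K Y = (∑ u ∈ Y.erase v, (3 - (deg K Y u : ℤ))) + (3 - (deg K Y v : ℤ)) := by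
    unfold DD
    rw [Finset.sum_erase_add _ _ hv]
  have h5 : (bd K (Y.erase v) : ℤ) = bd K Y - (3 - (deg K Y v : ℤ)) + deg K Y v := by
    rw [e2, e1, h2, h3, h4]
    ring
  have h6 : (deg K Y v : ℤ) + lv18_out K Y v = 3 := by exact_mod_cast e3
  have : ((bd K (Y.erase v) + 2 * lv18_out K Y v : ℕ) : ℤ) = ((bd K Y + 3 : ℕ) : ℤ) := by
    push_cast
    linarith
  exact_mod_cast this

theorem lv18_out_le_one [Fintype V] (H K : Inc V) (hc : Crit H univ) (h4 : C4F H univ)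
    (hK : IsClosure H K) (Y : Finset V) (hY : bd K Y = 4) (h3 : 3 ≤ Y.card) (h3' : 3 ≤ Yᶜ.card)
    (v : V) (hv : v ∈ Y) : lv18_out K Y v ≤ 1 := by
  by_contra hcon
  push Not at hcon
  have h1 := lv18_peel K hK.cubic Y v hv
  have h2 : (Y.erase v).card + 1 = Y.card := Finset.card_erase_add_one hv
  have h5 : Yᶜ.card ≤ (Y.erase v)ᶜ.card := by
    apply Finset.card_le_card
    intro u hu
    rw [mem_compl] at hu ⊢
    exact fun h => hu (mem_of_mem_erase h)
  rcases Nat.lt_or_ge (bd K (Y.erase v)) 3 with h6 | h6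
  · rcases crit_cut2 H K hc h4 hK (Y.erase v) (by omega) with h7 | h7
    · rw [h7] at h2
      simp at h2
      omega
    · rw [h7] at h5
      simp at h5
      have : Yᶜ.card = 0 := by simpa using h5
      omega
  · have h7 : bd K (Y.erase v) = 3 := by omega
    rcases crit_cut3 H K hc h4 hK (Y.erase v) h7 with h8 | h8 <;> omega

theorem lv18_two [Fintype V] (H K : Inc V) (hc : Crit H univ) (h4 : C4F H univ)
    (hK : IsClosure H K) (Y : Finset V) (hY : bd K Y = 4) (h3 : 3 ≤ Y.card) (h3' : 3 ≤ Yᶜ.card)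
    (τ : Bool) : (Y.filter fun v => K.typ v = τ ∧ lv18_out K Y v = 1).card = 2 := by
  have hle := lv18_out_le_one H K hc h4 hK Y hY h3 h3'
  have hcount : ∀ σ : Bool, ∑ v ∈ Y.filter (fun v => K.typ v = σ), lv18_out K Y v =
      (Y.filter fun v => K.typ v = σ ∧ lv18_out K Y v = 1).card := by
    intro σ
    rw [← Finset.filter_filter, Finset.card_filter]
    apply Finset.sum_congr rfl
    intro v hv
    have := hle v (mem_filter.1 hv).1
    split_ifs with h <;> omega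
  have hsum : ∑ v ∈ Y.filter (fun v => K.typ v = true), lv18_out K Y v +
      ∑ v ∈ Y.filter (fun v => K.typ v = false), lv18_out K Y v = 4 := by
    rw [← hY]
    unfold bd lv18_out
    have := Finset.sum_filter_add_sum_filter_not Y (fun v => K.typ v = true)
      (fun v => (nb K (univ \ Y) v).card)
    simp only [Bool.not_eq_true] at this
    convert this using 3
    all_goals (congr <;> exact Subsingleton.elim _ _)
  have hpar := cut_parity K hK.cubic Y
  have hp2 : (3 : ℤ) ∣ ((∑ v ∈ Y.filter (fun v => K.typ v = true), lv18_out K Y v : ℕ) : ℤ) -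
      ((∑ v ∈ Y.filter (fun v => K.typ v = false), lv18_out K Y v : ℕ) : ℤ) := by
    push_cast
    exact hpar
  rw [hcount, hcount] at hsum hp2
  cases τ <;> omega

theorem lv18_mem_out [Fintype V] {K : Inc V} {Y : Finset V} {v b : V} (hb : b ∉ Y)
    (h : K.adj v b) : b ∈ nb K (univ \ Y) v := by
  rw [mem_nb]
  exact ⟨mem_sdiff.2 ⟨mem_univ _, hb⟩, h⟩

theorem lv18_out_pos [Fintype V] {K : Inc V} {Y : Finset V} {v b : V} (hb : b ∉ Y)
    (h : K.adj v b) : 1 ≤ lv18_out K Y v :=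
  Finset.card_pos.2 ⟨b, lv18_mem_out hb h⟩

/-- Two vertices with outer neighbours have no common neighbour with an outer neighbour. -/
theorem lv18_F [Fintype V] (H K : Inc V) (hc : Crit H univ) (h4 : C4F H univ)
    (hK : IsClosure H K) (Y : Finset V) (hY : bd K Y = 4) (h3 : 3 ≤ Y.card) (h3' : 3 ≤ Yᶜ.card)
    (a1 a2 c : V) (ha1 : a1 ∈ Y) (ha2 : a2 ∈ Y) (hcY : c ∈ Y) (hne : a1 ≠ a2)
    (b1 b2 d : V) (hb1 : b1 ∉ Y) (hb2 : b2 ∉ Y) (hd : d ∉ Y) (h1 : K.adj a1 b1)
    (h2 : K.adj a2 b2) (hcd : K.adj c d) (hac1 : K.adj a1 c) (hac2 : K.adj a2 c) : False := by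
  have hle := lv18_out_le_one H K hc h4 hK Y hY h3 h3'
  have o1 : lv18_out K Y a1 = 1 := le_antisymm (hle a1 ha1) (lv18_out_pos hb1 h1)
  have o2 : lv18_out K Y a2 = 1 := le_antisymm (hle a2 ha2) (lv18_out_pos hb2 h2)
  have o3 : lv18_out K Y c = 1 := le_antisymm (hle c hcY) (lv18_out_pos hd hcd)
  have t1 : K.typ a1 ≠ K.typ c := K.bip hac1
  have t2 : K.typ a2 ≠ K.typ c := K.bip hac2
  have hca1 : c ≠ a1 := fun h => t1 (by rw [h])
  have hca2 : c ≠ a2 := fun h => t2 (by rw [h])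
  -- another vertex of the same kind as `c`
  obtain ⟨c2, hc2Y, hc2c, hc2t, hc2o⟩ : ∃ c2 ∈ Y, c2 ≠ c ∧ K.typ c2 = K.typ c ∧
      lv18_out K Y c2 = 1 := by
    have h := lv18_two H K hc h4 hK Y hY h3 h3' (K.typ c)
    obtain ⟨c2, h5, h6⟩ := Finset.exists_mem_ne (s := Y.filter fun v => K.typ v = K.typ c ∧
      lv18_out K Y v = 1) (by omega) c
    rw [mem_filter] at h5
    exact ⟨c2, h5.1, h6, h5.2.1, h5.2.2⟩
  -- peel off the three vertices
  set Y1 := Y.erase a1 with hY1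
  set Y2 := Y1.erase a2 with hY2
  set Y3 := Y2.erase c with hY3
  have m2 : a2 ∈ Y1 := mem_erase.2 ⟨hne.symm, ha2⟩
  have m3 : c ∈ Y2 := mem_erase.2 ⟨hca2, mem_erase.2 ⟨hca1, hcY⟩⟩
  have p1 := lv18_peel K hK.cubic Y a1 ha1
  have p2 := lv18_peel K hK.cubic Y1 a2 m2
  have p3 := lv18_peel K hK.cubic Y2 c m3
  rw [← hY1] at p1
  rw [← hY2] at p2
  rw [← hY3] at p3
  have q2 : lv18_out K Y1 a2 = 1 := by
    rw [← o2]
    unfold lv18_out
    congr 1
    ext u
    simp only [mem_nb, mem_sdiff, mem_univ, true_and, hY1, mem_erase]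
    constructor
    · rintro ⟨h5, h6⟩
      refine ⟨fun h7 => h5 ⟨fun h8 => ?_, h7⟩, h6⟩
      rw [h8] at h6
      exact K.bip h6 (lv18_bool _ _ _ t2 t1)
    · rintro ⟨h5, h6⟩
      exact ⟨fun h7 => h5 h7.2, h6⟩
  have q3 : 3 ≤ lv18_out K Y2 c := by
    have hsub : ({d, a1, a2} : Finset V) ⊆ nb K (univ \ Y2) c := by
      intro u hu
      simp only [mem_insert, mem_singleton] at hu
      rw [mem_nb, mem_sdiff]
      rcases hu with rfl | rfl | rfl
      · exact ⟨⟨mem_univ _, fun h => hd (mem_of_mem_erase (mem_of_mem_erase h))⟩, hcd⟩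
      · refine ⟨⟨mem_univ _, fun h => ?_⟩, K.symm hac1⟩
        have := mem_of_mem_erase h
        rw [hY1] at this
        exact (Finset.notMem_erase _ _) this
      · refine ⟨⟨mem_univ _, fun h => ?_⟩, K.symm hac2⟩
        rw [hY2] at h
        exact (Finset.notMem_erase _ _) h
    have hcard : ({d, a1, a2} : Finset V).card = 3 := by
      rw [Finset.card_eq_three]
      refine ⟨d, a1, a2, ?_, ?_, hne, rfl⟩
      · rintro rfl
        exact hd ha1
      · rintro rfl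
        exact hd ha2
    rw [← hcard]
    exact Finset.card_le_card hsub
  have q3' : lv18_out K Y2 c ≤ 3 := by
    have := lv18_deg_add_out K Y2 c
    rw [hK.cubic] at this
    omega
  have hb3 : bd K Y3 = 3 := by omega
  have hY3c : 3 ≤ Y3ᶜ.card := by
    refine h3'.trans (Finset.card_le_card ?_)
    intro u hu
    rw [mem_compl] at hu ⊢
    intro h
    exact hu (mem_of_mem_erase (mem_of_mem_erase (mem_of_mem_erase h)))
  have hY3le : Y3.card ≤ 1 := by
    rcases crit_cut3 H K hc h4 hK Y3 hb3 with h | h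
    · exact h
    · omega
  have mem3 : ∀ u, u ∈ Y → K.typ u = K.typ c → u ≠ c → u ∈ Y3 := by
    intro u hu ht hne'
    rw [hY3, hY2, hY1]
    refine mem_erase.2 ⟨hne', mem_erase.2 ⟨?_, mem_erase.2 ⟨?_, hu⟩⟩⟩
    · rintro rfl
      exact t2 ht
    · rintro rfl
      exact t1 ht
  have hc2m : c2 ∈ Y3 := mem3 c2 hc2Y hc2t hc2c
  have uniq : ∀ u ∈ Y3, u = c2 := fun u hu => Finset.card_le_one.1 hY3le u hu c2 hc2m
  -- the third neighbours are equal to `c2`
  have third : ∀ a ∈ Y, K.typ a ≠ K.typ c → lv18_out K Y a = 1 → K.adj a c → K.adj a c2 := by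
    intro a _ hta hoa hac
    have hdeg : deg K Y a = 2 := by
      have := lv18_deg_add_out K Y a
      rw [hK.cubic] at this
      omega
    obtain ⟨e, he, hec⟩ := Finset.exists_mem_ne (s := nb K Y a) (by unfold deg at hdeg; omega) c
    rw [mem_nb] at he
    have hte : K.typ e = K.typ c := by
      exact lv18_bool _ _ _ (K.bip he.2).symm hta.symm
    have h6 := uniq e (mem3 e he.1 hte hec)
    rw [← h6]
    exact he.2
  have f1 := third a1 ha1 t1 o1 hac1
  have f2 := third a2 ha2 t2 o2 hac2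
  rcases hK.c4f a1 (mem_univ _) c (mem_univ _) a2 (mem_univ _) c2 (mem_univ _) hac1
    (K.symm hac2) f2 (K.symm f1) with h | h
  · exact hne h
  · exact hc2c h.symm

omit [DecidableEq V] in
theorem lv18_sub [Fintype V] {H K : Inc V} (hK : IsClosure H K) {u v : V} (h : H.adj u v) :
    K.adj u v := by
  rcases hK.rel with h1 | ⟨p, q, _, h1⟩
  · exact (h1 u v).1 h
  · exact ((h1 u v).1 h).1

/-- Two edges leaving `Y` with the same first vertex are equal. -/
theorem lv18_uniq [Fintype V] (H K : Inc V) (hc : Crit H univ) (h4 : C4F H univ)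
    (hK : IsClosure H K) (Y : Finset V) (hY : bd K Y = 4) (h3 : 3 ≤ Y.card) (h3' : 3 ≤ Yᶜ.card)
    (a b b' : V) (ha : a ∈ Y) (hb : b ∉ Y) (hb' : b' ∉ Y) (h : K.adj a b) (h' : K.adj a b') :
    b = b' :=
  Finset.card_le_one.1 (lv18_out_le_one H K hc h4 hK Y hY h3 h3' a ha) b (lv18_mem_out hb h) b'
    (lv18_mem_out hb' h')

theorem crit_cut4 [Fintype V] (H K : Inc V) (hc : Crit H univ) (h4 : C4F H univ)
    (hK : IsClosure H K) (X : Finset V) (hX : bd K X = 4) : X.card ≤ 2 ∨ Xᶜ.card ≤ 2 := by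
  classical
  by_contra hcon
  push Not at hcon
  obtain ⟨h3, h3'⟩ := hcon
  replace h3 : 3 ≤ X.card := h3
  replace h3' : 3 ≤ Xᶜ.card := h3'
  have hXc : bd K Xᶜ = 4 := by rw [bd_compl, hX]
  have h3'' : 3 ≤ Xᶜᶜ.card := by rw [compl_compl]; exact h3
  have htyp : K.typ = H.typ := hK.typ
  have nX : ∀ {t}, t ∈ Xᶜ → t ∉ X := fun h => mem_compl.1 h
  have nXc : ∀ {t}, t ∈ X → t ∉ Xᶜ := fun h h' => mem_compl.1 h' h
  have uX := lv18_uniq H K hc h4 hK X hX h3 h3'
  have uXc := lv18_uniq H K hc h4 hK Xᶜ hXc h3' h3''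
  set E1 : Finset (V × V) := (X ×ˢ Xᶜ).filter fun e => H.adj e.1 e.2 ∧ H.typ e.1 = true with hE1
  set E2 : Finset (V × V) := (X ×ˢ Xᶜ).filter fun e => H.adj e.1 e.2 ∧ H.typ e.1 ≠ true with hE2
  have mem1 : ∀ e ∈ E1, e.1 ∈ X ∧ e.2 ∈ Xᶜ ∧ H.adj e.1 e.2 ∧ H.typ e.1 = true := by
    intro e he
    rw [hE1, mem_filter, mem_product] at he
    exact ⟨he.1.1, he.1.2, he.2.1, he.2.2⟩
  have mem2 : ∀ e ∈ E2, e.1 ∈ X ∧ e.2 ∈ Xᶜ ∧ H.adj e.1 e.2 ∧ H.typ e.1 ≠ true := by
    intro e he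
    rw [hE2, mem_filter, mem_product] at he
    exact ⟨he.1.1, he.1.2, he.2.1, he.2.2⟩
  have gen : ∀ (E : Finset (V × V)), (∀ e ∈ E, e.1 ∈ X ∧ e.2 ∈ Xᶜ ∧ H.adj e.1 e.2) →
      ∀ e ∈ E, ∀ f ∈ E, e ≠ f → e.1 ≠ f.1 ∧ e.2 ≠ f.2 := by
    intro E hE e he f hf hef
    obtain ⟨e1, e2, e3⟩ := hE e he
    obtain ⟨f1, f2, f3⟩ := hE f hf
    constructor
    · intro h
      apply hef
      refine Prod.ext h ?_
      exact uX e.1 e.2 f.2 e1 (nX e2) (nX f2) (lv18_sub hK e3) (h ▸ lv18_sub hK f3)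
    · intro h
      apply hef
      refine Prod.ext ?_ h
      exact uXc e.2 e.1 f.1 e2 (nXc e1) (nXc f1) (K.symm (lv18_sub hK e3))
        (h ▸ K.symm (lv18_sub hK f3))
  have m1 := gen E1 (fun e he => ⟨(mem1 e he).1, (mem1 e he).2.1, (mem1 e he).2.2.1⟩)
  have m2 := gen E2 (fun e he => ⟨(mem2 e he).1, (mem2 e he).2.1, (mem2 e he).2.2.1⟩)
  have cardle : ∀ (E : Finset (V × V)) (τ : Bool), (∀ e ∈ E, e.1 ∈ X ∧ e.2 ∈ Xᶜ ∧
      H.adj e.1 e.2 ∧ H.typ e.1 = τ) → (∀ e ∈ E, ∀ f ∈ E, e ≠ f → e.1 ≠ f.1 ∧ e.2 ≠ f.2) →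
      E.card ≤ 2 := by
    intro E τ hE hm
    rw [← lv18_two H K hc h4 hK X hX h3 h3' τ]
    apply Finset.card_le_card_of_injOn (fun e => e.1)
    · intro e he
      obtain ⟨e1, e2, e3, e4⟩ := hE e he
      simp only [coe_filter, Set.mem_ofPred_eq]
      refine ⟨e1, by rw [htyp]; exact e4, ?_⟩
      exact le_antisymm (lv18_out_le_one H K hc h4 hK X hX h3 h3' e.1 e1)
        (lv18_out_pos (nX e2) (lv18_sub hK e3))
    · intro e he f hf hef
      by_contra hne
      exact (hm e he f hf hne).1 hef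
  have hne : X ⊂ univ := by
    rw [Finset.ssubset_univ_iff]
    rintro rfl
    simp at h3'
  have hne' : Xᶜ ⊂ univ := by
    rw [Finset.ssubset_univ_iff]
    intro h
    have : X = ∅ := by rw [← compl_compl X, h, compl_univ]
    rw [this] at h3
    simp at h3
  have huni : X ∪ Xᶜ = univ := Finset.union_compl X
  have key := glue22 H X Xᶜ disjoint_compl_right (by rw [huni]; exact h4)
    (by rw [huni]; exact crit_deg H univ hc) (hc.2 X hne) (hc.2 Xᶜ hne') true E1 E2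
    (by
      intro s t
      rw [hE1, mem_filter, mem_product]
      tauto)
    (by
      intro s t
      rw [hE2, mem_filter, mem_product]
      tauto)
    (cardle E1 true mem1 m1)
    (cardle E2 false (fun e he => ⟨(mem2 e he).1, (mem2 e he).2.1, (mem2 e he).2.2.1,
      by simpa using (mem2 e he).2.2.2⟩) m2)
    m1 m2
    (by
      intro e he f hf hef k hk ⟨g1, g2⟩
      obtain ⟨e1, e2, e3, _⟩ := mem1 e he
      obtain ⟨f1, f2, f3, _⟩ := mem1 f hf
      obtain ⟨k1, k2, k3, _⟩ := mem2 k hk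
      exact lv18_F H K hc h4 hK X hX h3 h3' e.1 f.1 k.1 e1 f1 k1 (m1 e he f hf hef).1 e.2 f.2
        k.2 (nX e2) (nX f2) (nX k2) (lv18_sub hK e3) (lv18_sub hK f3) (lv18_sub hK k3)
        (lv18_sub hK g1) (lv18_sub hK g2))
    (by
      intro k hk l hl hkl e he ⟨g1, g2⟩
      obtain ⟨e1, e2, e3, _⟩ := mem1 e he
      obtain ⟨k1, k2, k3, _⟩ := mem2 k hk
      obtain ⟨l1, l2, l3, _⟩ := mem2 l hl
      exact lv18_F H K hc h4 hK Xᶜ hXc h3' h3'' k.2 l.2 e.2 k2 l2 e2 (m2 k hk l hl hkl).2 k.1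
        l.1 e.1 (nXc k1) (nXc l1) (nXc e1) (K.symm (lv18_sub hK k3)) (K.symm (lv18_sub hK l3))
        (K.symm (lv18_sub hK e3)) (lv18_sub hK g1) (lv18_sub hK g2))
  rw [huni] at key
  exact hc.1 key

end Pool.Agent.Levi3
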