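import Pool.Agent.Levi3.Defs

/-! LV19 : FoldBasic -/

namespace Pool.Agent.Levi3

open Matrix Finset

variable {V : Type} [DecidableEq V]

namespace Fold

omit [DecidableEq V] in
theorem lv19_typ {G : Inc V} {u v w : V} (h1 : G.adj u v) (h2 : G.adj u w) :
    G.typ v = G.typ w := by
  have h3 := G.bip h1
  have h4 := G.bip h2
  cases hu : G.typ u <;> cases hv : G.typ v <;> cases hw : G.typ w <;> simp_all

omit [DecidableEq V] in
theorem lv19_par {G : Inc V} {v a : Fin 6 → V} (h : LocR1 G v a) (i : Fin 6) :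
    G.typ (v i) = if i.val % 2 = 0 then G.typ (v 0) else !G.typ (v 0) := by
  have e0 : G.adj (v 0) (v 1) := h.hv 0
  have e1 : G.adj (v 1) (v 2) := h.hv 1
  have e2 : G.adj (v 2) (v 3) := h.hv 2
  have e3 : G.adj (v 3) (v 4) := h.hv 3
  have e4 : G.adj (v 4) (v 5) := h.hv 4
  have b0 := G.bip e0
  have b1 := G.bip e1
  have b2 := G.bip e2
  have b3 := G.bip e3
  have b4 := G.bip e4
  have c1 : G.typ (v 1) = !G.typ (v 0) := by
    cases h0 : G.typ (v 0) <;> cases h1 : G.typ (v 1) <;> simp_all
  have c2 : G.typ (v 2) = G.typ (v 0) := by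
    cases h0 : G.typ (v 0) <;> cases h2 : G.typ (v 2) <;> simp_all
  have c3 : G.typ (v 3) = !G.typ (v 0) := by
    cases h0 : G.typ (v 0) <;> cases h3 : G.typ (v 3) <;> simp_all
  have c4 : G.typ (v 4) = G.typ (v 0) := by
    cases h0 : G.typ (v 0) <;> cases h4 : G.typ (v 4) <;> simp_all
  have c5 : G.typ (v 5) = !G.typ (v 0) := by
    cases h0 : G.typ (v 0) <;> cases h5 : G.typ (v 5) <;> simp_all
  fin_cases i
  · simp
  · simpa using c1
  · simpa using c2
  · simpa using c3
  · simpa using c4
  · simpa using c5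

theorem lv19_pi_not {f : Fold V} {x : V} (hx : x ∉ f.U) : f.π x = x := by
  cases f with
  | r0 A B W C =>
    simp only [Fold.U, Finset.mem_insert, Finset.mem_singleton, not_or] at hx
    simp only [Fold.π]
    rw [if_neg hx.2.1]
  | r1 v a =>
    simp only [Fold.U, Finset.mem_image, Finset.mem_univ, true_and, not_exists] at hx
    simp only [Fold.π]
    rw [if_neg (fun h => hx 5 h.symm), if_neg (fun h => hx 4 h.symm)]

theorem lv19_pi_mem {f : Fold V} {x : V} (hx : x ∈ f.U) : f.π x ∈ f.U := by
  cases f with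
  | r0 A B W C =>
    simp only [Fold.π]
    split_ifs with h
    · simp [Fold.U]
    · exact hx
  | r1 v a =>
    simp only [Fold.π]
    split_ifs with h h'
    · simp [Fold.U]
    · simp [Fold.U]
    · exact hx

theorem lv19_pre {f : Fold V} {x w : V} (hw : w ∉ f.U) (h : f.π x = w) : x = w := by
  by_cases hx : x ∈ f.U
  · exact absurd (h ▸ lv19_pi_mem hx) hw
  · rw [lv19_pi_not hx] at h; exact h

omit [DecidableEq V] in
/-- two vertices with two different common neighbours are equal -/
theorem lv19_cyc {G : Inc V} {S : Finset V} {f : Fold V} (h : Amb G S f) {x y u w : V}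
    (h1 : G.adj u x) (h2 : G.adj u y) (h3 : G.adj w x) (h4 : G.adj w y) (hxy : x ≠ y) :
    u = w := by
  have := h.c4f u (h.mem _ _ h1).1 x (h.mem _ _ h1).2 w (h.mem _ _ h3).1 y (h.mem _ _ h2).2
    h1 (G.symm h3) h4 (G.symm h2)
  rcases this with h5 | h5
  · exact h5
  · exact absurd h5 hxy

theorem amb_mem {G : Inc V} {S : Finset V} {f : Fold V} (h : Amb G S f) :
    ∀ x y, (quot G f.π).adj x y → x ∈ f.S' S ∧ y ∈ f.S' S := by
  have key : ∀ x x' y', f.π x = x → f.π x' = x → G.adj x' y' → x ∈ f.S' S := by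
    intro x x' y' hx hx' hadj
    have hxS : x ∈ S := by
      have hS := (h.mem _ _ hadj).1
      by_cases hU : x' ∈ f.U
      · have hl := h.loc
        have hm := h.mem
        cases f with
        | r0 A B W C =>
          have hl' : LocR0 G A B W C := hl
          simp only [Fold.π] at hx'
          split_ifs at hx' with h1
          · rw [← hx']; exact (hm _ _ hl'.adjA).2
          · rw [← hx']; exact hS
        | r1 v a =>
          have hl' : LocR1 G v a := hl
          have e0 : G.adj (v 0) (v 1) := hl'.hv 0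
          have e1 : G.adj (v 1) (v 2) := hl'.hv 1
          simp only [Fold.π] at hx'
          split_ifs at hx' with h1 h2
          · rw [← hx']; exact (hm _ _ e0).2
          · rw [← hx']; exact (hm _ _ e1).2
          · rw [← hx']; exact hS
      · rw [lv19_pi_not hU] at hx'
        rw [← hx']; exact hS
    unfold Fold.S'
    simp [hxS, hx]
  rintro x y ⟨-, hx, hy, x', y', hx', hy', hadj⟩
  exact ⟨key x x' y' hx hx' hadj, key y y' x' hy hy' (G.symm hadj)⟩

theorem amb_one {G : Inc V} {S : Finset V} {f : Fold V} (h : Amb G S f) :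
    ∀ u, u ∉ f.U → ∀ x ∈ f.U, ∀ y ∈ f.U, G.adj u x → G.adj u y → x = y := by
  intro u hu x hx y hy hux huy
  by_contra hne
  have hcyc : ∀ w, G.adj w x → G.adj w y → u = w := fun w h3 h4 =>
    lv19_cyc h hux huy h3 h4 hne
  have hty : G.typ x = G.typ y := lv19_typ hux huy
  have hl := h.loc
  clear h
  cases f with
  | r0 A B W C =>
    have hl' : LocR0 G A B W C := hl
    simp only [Fold.U, Finset.mem_insert, Finset.mem_singleton, not_or] at hu hx hy
    have tA := G.bip hl'.adjA
    have tB := G.bip hl'.adjB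
    rcases hx with rfl | rfl | rfl <;> rcases hy with rfl | rfl | rfl
    · exact hne rfl
    · exact hu.2.2 (hcyc W hl'.adjA hl'.adjB)
    · exact tA hty.symm
    · exact hu.2.2 (hcyc W hl'.adjB hl'.adjA)
    · exact hne rfl
    · exact tB hty.symm
    · exact tA hty
    · exact tB hty
    · exact hne rfl
  | r1 v a =>
    have hl' : LocR1 G v a := hl
    simp only [Fold.U, Finset.mem_image, Finset.mem_univ, true_and] at hu hx hy
    obtain ⟨i, rfl⟩ := hx
    obtain ⟨j, rfl⟩ := hy
    rw [lv19_par hl' i, lv19_par hl' j] at hty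
    have hij : ∀ i j : Fin 6, i = j ∨ j = i + 1 + 1 ∨ i = j + 1 + 1 ∨
        (i.val % 2 = 0 ∧ j.val % 2 ≠ 0) ∨ (i.val % 2 ≠ 0 ∧ j.val % 2 = 0) := by decide
    rcases hij i j with h1 | h1 | h1 | h1 | h1
    · exact hne (by rw [h1])
    · refine hu ⟨i + 1, ?_⟩
      have h2 := hl'.hv (i + 1)
      rw [← h1] at h2
      exact (hcyc (v (i + 1)) (G.symm (hl'.hv i)) h2).symm
    · refine hu ⟨j + 1, ?_⟩
      have h2 := hl'.hv (j + 1)
      rw [← h1] at h2
      exact (hcyc (v (j + 1)) h2 (G.symm (hl'.hv j))).symm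
    · rw [if_pos h1.1, if_neg h1.2] at hty
      cases h0 : G.typ (v 0) <;> simp_all
    · rw [if_neg h1.1, if_pos h1.2] at hty
      cases h0 : G.typ (v 0) <;> simp_all

theorem amb_blocked {G : Inc V} {S : Finset V} {f : Fold V} (h : Amb G S f) :
    ∀ v x y, G.adj v x → G.adj v y → x ≠ y → f.π x = f.π y → v ∈ f.Bl := by
  intro u x y hux huy hne hπ
  have hcyc : ∀ w, G.adj w x → G.adj w y → u = w := fun w h3 h4 =>
    lv19_cyc h hux huy h3 h4 hne
  have hl := h.loc
  clear h
  cases f with
  | r0 A B W C =>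
    have hl' : LocR0 G A B W C := hl
    simp only [Fold.Bl, Finset.mem_singleton]
    simp only [Fold.π] at hπ
    split_ifs at hπ with h1 h2 h2
    · exact absurd (h1.trans h2.symm) hne
    · subst h1; subst hπ
      exact hcyc W hl'.adjB hl'.adjA
    · subst h2; subst hπ
      exact hcyc W hl'.adjA hl'.adjB
    · exact absurd hπ hne
  | r1 v a =>
    have hl' : LocR1 G v a := hl
    have e0 : G.adj (v 0) (v 1) := hl'.hv 0
    have e5 : G.adj (v 0) (v 5) := G.symm (hl'.hv 5)
    have e2 : G.adj (v 3) (v 2) := G.symm (hl'.hv 2)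
    have e3 : G.adj (v 3) (v 4) := hl'.hv 3
    simp only [Fold.Bl, Finset.mem_insert, Finset.mem_singleton]
    simp only [Fold.π] at hπ
    have n12 : v 1 ≠ v 2 := fun h => absurd (hl'.inj h) (by decide)
    split_ifs at hπ with h1 h2 h3 h4 h5 h6 h7
    · exact absurd (h1.trans h2.symm) hne
    · exact absurd hπ n12
    · subst h1; subst hπ
      exact Or.inl (hcyc (v 0) e5 e0)
    · exact absurd hπ.symm n12
    · exact absurd (h4.trans h6.symm) hne
    · subst h4; subst hπ
      exact Or.inr (hcyc (v 3) e3 e2)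
    · subst h7; subst hπ
      exact Or.inl (hcyc (v 0) e0 e5)
    · rename_i h8
      subst h8; subst hπ
      exact Or.inr (hcyc (v 3) e2 e3)
    · exact absurd hπ hne

theorem amb_ord {G : Inc V} {S : Finset V} {f : Fold V} (h : Amb G S f) :
    ∀ w, w ∉ f.U → ∀ y, (quot G f.π).adj w y → ∃ x, G.adj w x ∧ f.π x = y := by
  rintro w hw y ⟨-, -, -, x', y', hx', hy', hadj⟩
  rw [lv19_pre hw hx'] at hadj
  exact ⟨y', hadj, hy'⟩

theorem amb_agree {G : Inc V} {S : Finset V} {f : Fold V} (h : Amb G S f) :
    ∀ x y, x ∉ f.U → y ∉ f.U → ((quot G f.π).adj x y ↔ G.adj x y) := by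
  intro x y hx hy
  constructor
  · rintro ⟨-, -, -, x', y', hx', hy', hadj⟩
    rw [lv19_pre hx hx', lv19_pre hy hy'] at hadj
    exact hadj
  · intro hadj
    exact ⟨G.bip hadj, lv19_pi_not hx, lv19_pi_not hy, x, y, lv19_pi_not hx, lv19_pi_not hy,
      hadj⟩

theorem amb_bl_deg {G : Inc V} {S : Finset V} {f : Fold V} (h : Amb G S f) :
    ∀ v ∈ f.Bl, deg (quot G f.π) (f.S' S) v ≤ 2 := by
  intro u hu
  have hl := h.loc
  clear h
  cases f with
  | r0 A B W C =>
    have hl' : LocR0 G A B W C := hl
    simp only [Fold.Bl, Finset.mem_singleton] at hu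
    subst hu
    have hsub : nb (quot G (Fold.r0 A B u C).π) ((Fold.r0 A B u C).S' S) u ⊆
        {A, (Fold.r0 A B u C).π C} := by
      intro y hy
      rw [mem_nb] at hy
      obtain ⟨-, -, -, -, x', y', hx', hy', hadj⟩ := hy
      have hx'' : x' = u := by
        simp only [Fold.π] at hx'
        split_ifs at hx' with h1
        · exfalso
          have := G.bip hl'.adjA
          rw [hx'] at this
          exact this rfl
        · exact hx'
      subst hx''
      rw [Finset.mem_insert, Finset.mem_singleton]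
      rcases hl'.only y' hadj with h1 | h1 | h1
      · left
        rw [← hy', h1]
        simp only [Fold.π]
        split_ifs <;> rfl
      · left
        rw [← hy', h1]
        simp [Fold.π]
      · right
        rw [← hy', h1]
    exact (Finset.card_le_card hsub).trans Finset.card_le_two
  | r1 v a =>
    have hl' : LocR1 G v a := hl
    have hne : ∀ i j : Fin 6, i ≠ j → v i ≠ v j := fun i j hij h => hij (hl'.inj h)
    have hpre : ∀ x' (i : Fin 6), i ≠ 1 → i ≠ 2 → (Fold.r1 v a).π x' = v i → x' = v i := by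
      intro x' i hi1 hi2 hx'
      simp only [Fold.π] at hx'
      split_ifs at hx' with h1 h2
      · exact absurd hx'.symm (hne i 1 hi1)
      · exact absurd hx'.symm (hne i 2 hi2)
      · exact hx'
    simp only [Fold.Bl, Finset.mem_insert, Finset.mem_singleton] at hu
    rcases hu with hu | hu
    · subst hu
      have hsub : nb (quot G (Fold.r1 v a).π) ((Fold.r1 v a).S' S) (v 0) ⊆
          {v 1, (Fold.r1 v a).π (a 0)} := by
        intro y hy
        rw [mem_nb] at hy
        obtain ⟨-, -, -, -, x', y', hx', hy', hadj⟩ := hy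
        have hx'' := hpre x' 0 (by decide) (by decide) hx'
        rw [hx''] at hadj
        rw [Finset.mem_insert, Finset.mem_singleton]
        rcases hl'.only 0 y' hadj with h1 | h1 | h1
        · left
          rw [← hy', h1]
          simp only [Fold.π]
          have h5 : v (0 + 1) ≠ v 5 := hne _ _ (by decide)
          have h4 : v (0 + 1) ≠ v 4 := hne _ _ (by decide)
          rw [if_neg h5, if_neg h4]
          rfl
        · left
          rw [← hy', h1]
          simp only [Fold.π]
          rw [if_pos]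
          rfl
        · right
          rw [← hy', h1]
      exact (Finset.card_le_card hsub).trans Finset.card_le_two
    · subst hu
      have hsub : nb (quot G (Fold.r1 v a).π) ((Fold.r1 v a).S' S) (v 3) ⊆
          {v 2, (Fold.r1 v a).π (a 3)} := by
        intro y hy
        rw [mem_nb] at hy
        obtain ⟨-, -, -, -, x', y', hx', hy', hadj⟩ := hy
        have hx'' := hpre x' 3 (by decide) (by decide) hx'
        rw [hx''] at hadj
        rw [Finset.mem_insert, Finset.mem_singleton]
        rcases hl'.only 3 y' hadj with h1 | h1 | h1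
        · left
          rw [← hy', h1]
          simp only [Fold.π]
          have h5 : v (3 + 1) ≠ v 5 := hne _ _ (by decide)
          rw [if_neg h5, if_pos]
          rfl
        · left
          rw [← hy', h1]
          simp only [Fold.π]
          have h5 : v (3 - 1) ≠ v 5 := hne _ _ (by decide)
          have h4 : v (3 - 1) ≠ v 4 := hne _ _ (by decide)
          rw [if_neg h5, if_neg h4]
          rfl
        · right
          rw [← hy', h1]
      exact (Finset.card_le_card hsub).trans Finset.card_le_two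

theorem lv19_out {G : Inc V} {S : Finset V} {f : Fold V} (h : Amb G S f) : f.out ∉ f.U := by
  have hl := h.loc
  have hmem := h.mem
  have hc := h.c4f
  clear h
  cases f with
  | r0 A B W C =>
    have hl' : LocR0 G A B W C := hl
    simp only [Fold.out, Fold.U, Finset.mem_insert, Finset.mem_singleton, not_or]
    refine ⟨hl'.hAC.symm, hl'.hBC.symm, ?_⟩
    intro hCW
    have := G.bip hl'.adjC
    rw [hCW] at this
    exact this rfl
  | r1 v a =>
    have hl' : LocR1 G v a := hl
    simp only [Fold.out, Fold.U, Finset.mem_image, Finset.mem_univ, true_and]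
    rintro ⟨i, hi⟩
    have ht := G.bip (hl'.ha 0)
    rw [← hi, lv19_par hl' i] at ht
    have hcases' : ∀ i : Fin 6, i = 1 ∨ i = 5 ∨ i = 3 ∨ i.val % 2 = 0 := by decide
    have hcases := hcases' i
    rcases hcases with h1 | h1 | h1 | h1
    · exact hl'.ne1 0 (by rw [← hi, h1]; rfl)
    · exact hl'.ne2 0 (by rw [← hi, h1]; rfl)
    · subst h1
      have e0 : G.adj (v 0) (v 1) := hl'.hv 0
      have e1 : G.adj (v 1) (v 2) := hl'.hv 1
      have e2 : G.adj (v 2) (v 3) := hl'.hv 2
      have e3 : G.adj (v 0) (v 3) := by rw [hi]; exact hl'.ha 0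
      rcases hc _ (hmem _ _ e0).1 _ (hmem _ _ e0).2 _ (hmem _ _ e1).2 _ (hmem _ _ e2).2
        e0 e1 e2 (G.symm e3) with h2 | h2
      · exact absurd (hl'.inj h2) (by decide)
      · exact absurd (hl'.inj h2) (by decide)
    · rw [if_pos h1] at ht
      exact ht rfl

omit [DecidableEq V] in
theorem lv19_adj {G : Inc V} {f : Fold V} (h : f.Loc G) : G.adj f.ctr f.out := by
  cases f with
  | r0 A B W C => exact (show LocR0 G A B W C from h).adjC
  | r1 v a => exact (show LocR1 G v a from h).ha 0

theorem lv19_ctr {f : Fold V} : f.ctr ∈ f.Bl := by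
  cases f with
  | r0 A B W C => simp [Fold.ctr, Fold.Bl]
  | r1 v a => simp [Fold.ctr, Fold.Bl]

theorem lv19_pi_ctr {G : Inc V} {f : Fold V} (h : f.Loc G) : f.π f.ctr = f.ctr := by
  cases f with
  | r0 A B W C =>
    have hl' : LocR0 G A B W C := h
    simp only [Fold.ctr, Fold.π]
    rw [if_neg]
    intro hWB
    have := G.bip hl'.adjB
    rw [hWB] at this
    exact this rfl
  | r1 v a =>
    have hl' : LocR1 G v a := h
    simp only [Fold.ctr, Fold.π]
    rw [if_neg (fun h => absurd (hl'.inj h) (by decide)),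
      if_neg (fun h => absurd (hl'.inj h) (by decide))]

theorem amb_weak {G : Inc V} {S : Finset V} {f : Fold V} (h : Amb G S f)
    (hC : deg G S f.out ≤ 3) (Y : Finset V) (hY : Y ⊆ f.S' S) (hW : ∃ v ∈ Y, v ∈ f.Wk) :
    ∃ v ∈ Y, v ∈ f.Wk ∧ deg (quot G f.π) Y v ≤ 2 := by
  by_cases hctr : f.ctr ∈ Y
  · exact ⟨f.ctr, hctr, by simp [Fold.Wk],
      (deg_mono hY _).trans (amb_bl_deg h _ lv19_ctr)⟩
  · obtain ⟨v, hv, hvW⟩ := hW
    simp only [Fold.Wk, Finset.mem_insert, Finset.mem_singleton] at hvW
    rcases hvW with rfl | rfl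
    · exact absurd hv hctr
    · refine ⟨f.out, hv, by simp [Fold.Wk], ?_⟩
      have hsub : nb (quot G f.π) Y f.out ⊆ ((nb G S f.out).erase f.ctr).image f.π := by
        intro y hy
        rw [mem_nb] at hy
        obtain ⟨x, hx, hxy⟩ := amb_ord h f.out (lv19_out h) y hy.2
        rw [Finset.mem_image]
        refine ⟨x, ?_, hxy⟩
        rw [Finset.mem_erase, mem_nb]
        refine ⟨?_, (h.mem _ _ hx).2, hx⟩
        intro hxc
        rw [hxc, lv19_pi_ctr h.loc] at hxy
        exact hctr (hxy ▸ hy.1)
      have hin : f.ctr ∈ nb G S f.out := by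
        rw [mem_nb]
        have := G.symm (lv19_adj h.loc)
        exact ⟨(h.mem _ _ this).2, this⟩
      have h1 := (Finset.card_le_card hsub).trans Finset.card_image_le
      rw [Finset.card_erase_of_mem hin] at h1
      unfold deg at hC ⊢
      omega

end Fold

end Pool.Agent.Levi3
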