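import Pool.Agent.Levi3.Defs

/-! LV20 : FoldC4 -/

namespace Pool.Agent.Levi3

open Matrix Finset

variable {V : Type} [DecidableEq V]

omit [DecidableEq V] in
/-- `C4F` for adjacent vertices when all edges have their ends in `S`. -/
theorem lv20_c4 {G : Inc V} {S : Finset V} (hm : ∀ x y, G.adj x y → x ∈ S ∧ y ∈ S)
    (h4 : C4F G S) {a b c d : V} (h1 : G.adj a b) (h2 : G.adj b c) (h3 : G.adj c d)
    (h5 : G.adj d a) : a = c ∨ b = d :=
  h4 a (hm a b h1).1 b (hm a b h1).2 c (hm b c h2).2 d (hm c d h3).2 h1 h2 h3 h5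

theorem lv20_q0 {G : Inc V} {A B W C : V} (hAB : A ≠ B) {x y : V}
    (h : (quot G (Fold.r0 A B W C).π).adj x y) :
    x ≠ B ∧ y ≠ B ∧ (G.adj x y ∨ (x = A ∧ G.adj B y) ∨ (y = A ∧ G.adj x B)) := by
  obtain ⟨ht, hx, hy, x', y', hx', hy', ha⟩ := h
  simp only [Fold.π] at hx hy hx' hy'
  have hxB : x ≠ B := by
    rintro rfl
    rw [if_pos rfl] at hx
    exact hAB hx
  have hyB : y ≠ B := by
    rintro rfl
    rw [if_pos rfl] at hy
    exact hAB hy
  refine ⟨hxB, hyB, ?_⟩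
  by_cases ex : x' = B
  · rw [if_pos ex] at hx'
    by_cases ey : y' = B
    · exfalso
      rw [ex, ey] at ha
      exact G.irr B ha
    · rw [if_neg ey] at hy'
      right; left
      rw [← ex, ← hy']
      exact ⟨hx'.symm, ha⟩
  · rw [if_neg ex] at hx'
    by_cases ey : y' = B
    · rw [if_pos ey] at hy'
      right; right
      rw [← ey, ← hx']
      exact ⟨hy'.symm, ha⟩
    · rw [if_neg ey] at hy'
      left
      rw [← hx', ← hy']
      exact ha

theorem lv20_r0 {G : Inc V} {S : Finset V} {A B W C : V} (hm : ∀ x y, G.adj x y → x ∈ S ∧ y ∈ S)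
    (h4 : C4F G S) (hl : LocR0 G A B W C) {b c d : V}
    (h1 : (quot G (Fold.r0 A B W C).π).adj A b) (h2 : (quot G (Fold.r0 A B W C).π).adj b c)
    (h3 : (quot G (Fold.r0 A B W C).π).adj c d) (h5 : (quot G (Fold.r0 A B W C).π).adj d A) :
    A = c ∨ b = d := by
  by_contra hcon
  push Not at hcon
  obtain ⟨hAc, hbd⟩ := hcon
  obtain ⟨_, hbB, q1⟩ := lv20_q0 hl.hAB h1
  obtain ⟨_, hcB, q2⟩ := lv20_q0 hl.hAB h2
  obtain ⟨_, hdB, q3⟩ := lv20_q0 hl.hAB h3
  obtain ⟨_, _, q5⟩ := lv20_q0 hl.hAB h5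
  have hbA : b ≠ A := by
    rintro rfl
    exact h1.1 rfl
  have hdA : d ≠ A := by
    rintro rfl
    exact h5.1 rfl
  have e1 : G.adj A b ∨ G.adj B b := by
    rcases q1 with q | q | q
    · exact Or.inl q
    · exact Or.inr q.2
    · exact absurd q.1 hbA
  have e2 : G.adj b c := by
    rcases q2 with q | q | q
    · exact q
    · exact absurd q.1 hbA
    · exact absurd q.1.symm hAc
  have e3 : G.adj c d := by
    rcases q3 with q | q | q
    · exact q
    · exact absurd q.1.symm hAc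
    · exact absurd q.1 hdA
  have e5 : G.adj d A ∨ G.adj d B := by
    rcases q5 with q | q | q
    · exact Or.inl q
    · exact absurd q.1 hdA
    · exact Or.inr q.2
  have kA : ¬ (G.adj A b ∧ G.adj d A) := by
    rintro ⟨k1, k2⟩
    rcases lv20_c4 hm h4 k1 e2 e3 k2 with k | k
    · exact hAc k
    · exact hbd k
  have kB : ¬ (G.adj B b ∧ G.adj d B) := by
    rintro ⟨k1, k2⟩
    rcases lv20_c4 hm h4 k1 e2 e3 k2 with k | k
    · exact hcB k.symm
    · exact hbd k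
  rcases e1 with e1 | e1 <;> rcases e5 with e5 | e5
  · exact kA ⟨e1, e5⟩
  · rcases hl.nohex b c d e1 e2 e3 e5 with k | k | k | k
    · exact kB ⟨by rw [k]; exact G.symm hl.adjB, e5⟩
    · exact kA ⟨e1, by rw [k]; exact hl.adjA⟩
    · exact hAc k.symm
    · exact hcB k
  · rcases hl.nohex d c b (G.symm e5) (G.symm e3) (G.symm e2) (G.symm e1) with k | k | k | k
    · exact kB ⟨e1, by rw [k]; exact hl.adjB⟩
    · exact kA ⟨by rw [k]; exact G.symm hl.adjA, e5⟩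
    · exact hAc k.symm
    · exact hcB k
  · exact kB ⟨e1, e5⟩

theorem lv20_q1 {G : Inc V} {v a : Fin 6 → V} (hv : Function.Injective v) {x y : V}
    (h : (quot G (Fold.r1 v a).π).adj x y) :
    (x ≠ v 5 ∧ x ≠ v 4 ∧ y ≠ v 5 ∧ y ≠ v 4) ∧ ∃ x' y', G.adj x' y' ∧
      (x' = x ∨ (x = v 1 ∧ x' = v 5) ∨ (x = v 2 ∧ x' = v 4)) ∧
      (y' = y ∨ (y = v 1 ∧ y' = v 5) ∨ (y = v 2 ∧ y' = v 4)) := by
  obtain ⟨ht, hx, hy, x', y', hx', hy', ha⟩ := h
  have n51 : v 1 ≠ v 5 := fun h => by simpa using hv h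
  have n24 : v 2 ≠ v 4 := fun h => by simpa using hv h
  have n45 : v 4 ≠ v 5 := fun h => by simpa using hv h
  have fix : ∀ z, (Fold.r1 v a).π z = z → z ≠ v 5 ∧ z ≠ v 4 := by
    intro z hz
    simp only [Fold.π] at hz
    constructor
    · rintro rfl
      rw [if_pos rfl] at hz
      exact n51 hz
    · rintro rfl
      rw [if_neg n45, if_pos rfl] at hz
      exact n24 hz
  have fib : ∀ z z', (Fold.r1 v a).π z' = z →
      (z' = z ∨ (z = v 1 ∧ z' = v 5) ∨ (z = v 2 ∧ z' = v 4)) := by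
    intro z z' hz
    simp only [Fold.π] at hz
    by_cases e5 : z' = v 5
    · rw [if_pos e5] at hz
      exact Or.inr (Or.inl ⟨hz.symm, e5⟩)
    · rw [if_neg e5] at hz
      by_cases e4 : z' = v 4
      · rw [if_pos e4] at hz
        exact Or.inr (Or.inr ⟨hz.symm, e4⟩)
      · rw [if_neg e4] at hz
        exact Or.inl hz
  refine ⟨⟨(fix x hx).1, (fix x hx).2, (fix y hy).1, (fix y hy).2⟩, x', y', ha, fib x x' hx',
    fib y y' hy'⟩

/-- an edge between vertices different from `v 1`, `v 2` -/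
theorem lv20_q1_ord {G : Inc V} {v a : Fin 6 → V} (hv : Function.Injective v) {x y : V}
    (h : (quot G (Fold.r1 v a).π).adj x y) (hx1 : x ≠ v 1) (hx2 : x ≠ v 2) (hy1 : y ≠ v 1)
    (hy2 : y ≠ v 2) : G.adj x y := by
  obtain ⟨_, x', y', ha, e1, e2⟩ := lv20_q1 hv h
  rcases e1 with e1 | e1 | e1
  · rcases e2 with e2 | e2 | e2
    · rwa [e1, e2] at ha
    · exact absurd e2.1 hy1
    · exact absurd e2.1 hy2
  · exact absurd e1.1 hx1
  · exact absurd e1.1 hx2

theorem lv20_q1_v1 {G : Inc V} {v a : Fin 6 → V} (hv : Function.Injective v) {y : V}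
    (h : (quot G (Fold.r1 v a).π).adj (v 1) y) (hy2 : y ≠ v 2) :
    G.adj (v 1) y ∨ G.adj (v 5) y := by
  have hy1 : y ≠ v 1 := by
    rintro rfl
    exact h.1 rfl
  have n12 : v 1 ≠ v 2 := fun h => by simpa using hv h
  obtain ⟨_, x', y', ha, e1, e2⟩ := lv20_q1 hv h
  rcases e2 with e2 | e2 | e2
  · rcases e1 with e1 | e1 | e1
    · left; rwa [e1, e2] at ha
    · right; rwa [e1.2, e2] at ha
    · exact absurd e1.1 n12
  · exact absurd e2.1 hy1
  · exact absurd e2.1 hy2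

theorem lv20_q1_v2 {G : Inc V} {v a : Fin 6 → V} (hv : Function.Injective v) {y : V}
    (h : (quot G (Fold.r1 v a).π).adj (v 2) y) (hy1 : y ≠ v 1) :
    G.adj (v 2) y ∨ G.adj (v 4) y := by
  have hy2 : y ≠ v 2 := by
    rintro rfl
    exact h.1 rfl
  have n12 : v 2 ≠ v 1 := fun h => by simpa using hv h
  obtain ⟨_, x', y', ha, e1, e2⟩ := lv20_q1 hv h
  rcases e2 with e2 | e2 | e2
  · rcases e1 with e1 | e1 | e1
    · left; rwa [e1, e2] at ha
    · exact absurd e1.1 n12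
    · right; rwa [e1.2, e2] at ha
  · exact absurd e2.1 hy1
  · exact absurd e2.1 hy2

/-- 4-cycles through the edge `v 1`, `v 2` -/
theorem lv20_r1_both {G : Inc V} {S : Finset V} {v a : Fin 6 → V}
    (hm : ∀ x y, G.adj x y → x ∈ S ∧ y ∈ S) (h4 : C4F G S) (hl : LocR1 G v a) {c d : V}
    (h2 : (quot G (Fold.r1 v a).π).adj (v 2) c)
    (h3 : (quot G (Fold.r1 v a).π).adj c d) (h5 : (quot G (Fold.r1 v a).π).adj d (v 1))
    (hc : v 1 ≠ c) (hd : v 2 ≠ d) : False := by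
  have hq := lv20_q1 hl.inj h3
  obtain ⟨⟨hc5, hc4, hd5, hd4⟩, _⟩ := hq
  have hc2 : c ≠ v 2 := by
    rintro rfl
    exact h2.1 rfl
  have hd1 : d ≠ v 1 := by
    rintro rfl
    exact h5.1 rfl
  have e3 : G.adj c d := lv20_q1_ord hl.inj h3 hc.symm hc2 hd1 hd.symm
  have e2 := lv20_q1_v2 hl.inj h2 hc.symm
  have e5 := lv20_q1_v1 hl.inj ((quot G (Fold.r1 v a).π).symm h5) hd.symm
  have a12 : G.adj (v 1) (v 2) := hl.hv 1
  have a45 : G.adj (v 4) (v 5) := hl.hv 4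
  have a34 : G.adj (v 3) (v 4) := hl.hv 3
  have a23 : G.adj (v 2) (v 3) := hl.hv 2
  have a01 : G.adj (v 0) (v 1) := hl.hv 0
  have a50 : G.adj (v 5) (v 0) := hl.hv 5
  have k12 : ¬ (G.adj (v 2) c ∧ G.adj (v 1) d) := by
    rintro ⟨k1, k2⟩
    rcases lv20_c4 hm h4 a12 k1 e3 (G.symm k2) with k | k
    · exact hc k
    · exact hd k
  have k45 : ¬ (G.adj (v 4) c ∧ G.adj (v 5) d) := by
    rintro ⟨k1, k2⟩
    rcases lv20_c4 hm h4 (G.symm a45) k1 e3 (G.symm k2) with k | k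
    · exact hc5 k.symm
    · exact hd4 k.symm
  rcases e2 with e2 | e2 <;> rcases e5 with e5 | e5
  · exact k12 ⟨e2, e5⟩
  · -- c ~ v 2, d ~ v 5
    have hc' : c = a 2 := by
      rcases hl.only 2 c e2 with k | k | k
      · exfalso
        apply k45
        refine ⟨?_, e5⟩
        rw [k]; exact G.symm a34
      · exact absurd k.symm hc
      · exact k
    have hd' : d = a 5 := by
      rcases hl.only 5 d e5 with k | k | k
      · exfalso
        apply k12
        refine ⟨e2, ?_⟩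
        rw [k]; exact G.symm a01
      · exact absurd k hd4
      · exact k
    rw [hc', hd'] at e3
    exact hl.ch2 e3
  · have hc' : c = a 4 := by
      rcases hl.only 4 c e2 with k | k | k
      · exact absurd k hc5
      · exfalso
        apply k12
        refine ⟨?_, e5⟩
        rw [k]; exact a23
      · exact k
    have hd' : d = a 1 := by
      rcases hl.only 1 d e5 with k | k | k
      · exact absurd k.symm hd
      · exfalso
        apply k45
        refine ⟨e2, ?_⟩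
        rw [k]; exact a50
      · exact k
    rw [hc', hd'] at e3
    exact hl.ch1 (G.symm e3)
  · exact k45 ⟨e2, e5⟩

/-- 4-cycles through `v 1` -/
theorem lv20_r1_v1 {G : Inc V} {S : Finset V} {v a : Fin 6 → V}
    (hm : ∀ x y, G.adj x y → x ∈ S ∧ y ∈ S) (h4 : C4F G S) (hl : LocR1 G v a) {b c d : V}
    (h1 : (quot G (Fold.r1 v a).π).adj (v 1) b) (h2 : (quot G (Fold.r1 v a).π).adj b c)
    (h3 : (quot G (Fold.r1 v a).π).adj c d) (h5 : (quot G (Fold.r1 v a).π).adj d (v 1))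
    (hc : v 1 ≠ c) (hbd : b ≠ d) : False := by
  by_cases hb2 : b = v 2
  · rw [hb2] at h2 hbd
    exact lv20_r1_both hm h4 hl h2 h3 h5 hc hbd
  by_cases hd2 : d = v 2
  · rw [hd2] at h3 hbd
    exact lv20_r1_both hm h4 hl ((quot G (Fold.r1 v a).π).symm h3)
      ((quot G (Fold.r1 v a).π).symm h2) ((quot G (Fold.r1 v a).π).symm h1) hc hbd.symm
  have hb1 : b ≠ v 1 := by
    rintro rfl
    exact h1.1 rfl
  have hd1 : d ≠ v 1 := by
    rintro rfl
    exact h5.1 rfl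
  have a12 : G.adj (v 1) (v 2) := hl.hv 1
  have a01 : G.adj (v 0) (v 1) := hl.hv 0
  have a50 : G.adj (v 5) (v 0) := hl.hv 5
  have hc2 : c ≠ v 2 := by
    rintro rfl
    -- `c` and `v 1` have the same kind
    have t1 : G.typ b ≠ G.typ (v 2) := h2.1
    have t2 : G.typ (v 1) ≠ G.typ b := h1.1
    have t3 := G.bip a12
    cases e1 : G.typ b <;> cases e2 : G.typ (v 1) <;> cases e3 : G.typ (v 2) <;> simp_all
  obtain ⟨⟨_, _, hc5, _⟩, _⟩ := lv20_q1 hl.inj h2
  have e2 : G.adj b c := lv20_q1_ord hl.inj h2 hb1 hb2 hc.symm hc2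
  have e3 : G.adj c d := lv20_q1_ord hl.inj h3 hc.symm hc2 hd1 hd2
  obtain ⟨⟨_, _, hb5, hb4⟩, _⟩ := lv20_q1 hl.inj h1
  obtain ⟨⟨hd5, hd4, _, _⟩, _⟩ := lv20_q1 hl.inj h5
  have e1 := lv20_q1_v1 hl.inj h1 hb2
  have e5 := lv20_q1_v1 hl.inj ((quot G (Fold.r1 v a).π).symm h5) hd2
  have k1 : ¬ (G.adj (v 1) b ∧ G.adj (v 1) d) := by
    rintro ⟨k1, k2⟩
    rcases lv20_c4 hm h4 k1 e2 e3 (G.symm k2) with k | k
    · exact hc k
    · exact hbd k
  have k5 : ¬ (G.adj (v 5) b ∧ G.adj (v 5) d) := by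
    rintro ⟨k1, k2⟩
    rcases lv20_c4 hm h4 k1 e2 e3 (G.symm k2) with k | k
    · exact hc5 k.symm
    · exact hbd k
  -- a vertex adjacent to `v 1` but not to `v 5` is `a 1`
  have f1 : ∀ y, y ≠ v 2 → G.adj (v 1) y → ¬ G.adj (v 5) y → y = a 1 := by
    intro y hy2 hy hn
    rcases hl.only 1 y hy with k | k | k
    · exact absurd k hy2
    · exfalso
      apply hn
      rw [k]; exact a50
    · exact k
  have f5 : ∀ y, y ≠ v 4 → G.adj (v 5) y → ¬ G.adj (v 1) y → y = a 5 := by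
    intro y hy4 hy hn
    rcases hl.only 5 y hy with k | k | k
    · exfalso
      apply hn
      rw [k]; exact G.symm a01
    · exact absurd k hy4
    · exact k
  rcases e1 with e1 | e1 <;> rcases e5 with e5 | e5
  · exact k1 ⟨e1, e5⟩
  · have hb : b = a 1 := f1 b hb2 e1 (fun k => k5 ⟨k, e5⟩)
    have hd : d = a 5 := f5 d hd4 e5 (fun k => k1 ⟨e1, k⟩)
    rw [hb] at e2
    rw [hd] at e3
    exact hl.cn1 c ⟨e2, G.symm e3⟩
  · have hb : b = a 5 := f5 b hb4 e1 (fun k => k1 ⟨k, e5⟩)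
    have hd : d = a 1 := f1 d hd2 e5 (fun k => k5 ⟨e1, k⟩)
    rw [hb] at e2
    rw [hd] at e3
    exact hl.cn1 c ⟨G.symm e3, e2⟩
  · exact k5 ⟨e1, e5⟩

/-- 4-cycles through `v 2` which do not contain `v 1` -/
theorem lv20_r1_v2 {G : Inc V} {S : Finset V} {v a : Fin 6 → V}
    (hm : ∀ x y, G.adj x y → x ∈ S ∧ y ∈ S) (h4 : C4F G S) (hl : LocR1 G v a) {b c d : V}
    (h1 : (quot G (Fold.r1 v a).π).adj (v 2) b) (h2 : (quot G (Fold.r1 v a).π).adj b c)
    (h3 : (quot G (Fold.r1 v a).π).adj c d) (h5 : (quot G (Fold.r1 v a).π).adj d (v 2))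
    (hc : v 2 ≠ c) (hbd : b ≠ d) (hb1 : b ≠ v 1) (hc1 : c ≠ v 1) (hd1 : d ≠ v 1) : False := by
  have hb2 : b ≠ v 2 := by
    rintro rfl
    exact h1.1 rfl
  have hd2 : d ≠ v 2 := by
    rintro rfl
    exact h5.1 rfl
  have a34 : G.adj (v 3) (v 4) := hl.hv 3
  have a23 : G.adj (v 2) (v 3) := hl.hv 2
  obtain ⟨⟨_, _, _, hc4⟩, _⟩ := lv20_q1 hl.inj h2
  have e2 : G.adj b c := lv20_q1_ord hl.inj h2 hb1 hb2 hc1 hc.symm
  have e3 : G.adj c d := lv20_q1_ord hl.inj h3 hc1 hc.symm hd1 hd2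
  obtain ⟨⟨_, _, hb5, hb4⟩, _⟩ := lv20_q1 hl.inj h1
  obtain ⟨⟨hd5, hd4, _, _⟩, _⟩ := lv20_q1 hl.inj h5
  have e1 := lv20_q1_v2 hl.inj h1 hb1
  have e5 := lv20_q1_v2 hl.inj ((quot G (Fold.r1 v a).π).symm h5) hd1
  have k2 : ¬ (G.adj (v 2) b ∧ G.adj (v 2) d) := by
    rintro ⟨k1, k2⟩
    rcases lv20_c4 hm h4 k1 e2 e3 (G.symm k2) with k | k
    · exact hc k
    · exact hbd k
  have k4 : ¬ (G.adj (v 4) b ∧ G.adj (v 4) d) := by
    rintro ⟨k1, k2⟩
    rcases lv20_c4 hm h4 k1 e2 e3 (G.symm k2) with k | k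
    · exact hc4 k.symm
    · exact hbd k
  have f2 : ∀ y, y ≠ v 1 → G.adj (v 2) y → ¬ G.adj (v 4) y → y = a 2 := by
    intro y hy1 hy hn
    rcases hl.only 2 y hy with k | k | k
    · exfalso
      apply hn
      rw [k]; exact G.symm a34
    · exact absurd k hy1
    · exact k
  have f4 : ∀ y, y ≠ v 5 → G.adj (v 4) y → ¬ G.adj (v 2) y → y = a 4 := by
    intro y hy5 hy hn
    rcases hl.only 4 y hy with k | k | k
    · exact absurd k hy5
    · exfalso
      apply hn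
      rw [k]; exact a23
    · exact k
  rcases e1 with e1 | e1 <;> rcases e5 with e5 | e5
  · exact k2 ⟨e1, e5⟩
  · have hb : b = a 2 := f2 b hb1 e1 (fun k => k4 ⟨k, e5⟩)
    have hd : d = a 4 := f4 d hd5 e5 (fun k => k2 ⟨e1, k⟩)
    rw [hb] at e2
    rw [hd] at e3
    exact hl.cn2 c ⟨e2, G.symm e3⟩
  · have hb : b = a 4 := f4 b hb5 e1 (fun k => k2 ⟨k, e5⟩)
    have hd : d = a 2 := f2 d hd1 e5 (fun k => k4 ⟨e1, k⟩)
    rw [hb] at e2
    rw [hd] at e3
    exact hl.cn2 c ⟨G.symm e3, e2⟩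
  · exact k4 ⟨e1, e5⟩

theorem Fold.amb_c4f {G : Inc V} {S : Finset V} {f : Fold V} (h : Fold.Amb G S f) :
    C4F (quot G f.π) (f.S' S) := by
  have hm := h.mem
  have h4 := h.c4f
  have hl := h.loc
  intro a _ b _ c _ d _ h1 h2 h3 h5
  cases f with
  | r0 A B W C =>
    have hl' : LocR0 G A B W C := hl
    by_cases ea : a = A
    · subst ea
      exact lv20_r0 hm h4 hl' h1 h2 h3 h5
    by_cases eb : b = A
    · subst eb
      exact (lv20_r0 hm h4 hl' h2 h3 h5 h1).symm.imp_left Eq.symm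
    by_cases ec : c = A
    · subst ec
      exact (lv20_r0 hm h4 hl' h3 h5 h1 h2).imp Eq.symm Eq.symm
    by_cases ed : d = A
    · subst ed
      exact (lv20_r0 hm h4 hl' h5 h1 h2 h3).symm.imp_right Eq.symm
    have ord : ∀ x y, x ≠ A → y ≠ A → (quot G (Fold.r0 A B W C).π).adj x y → G.adj x y := by
      intro x y hx hy hxy
      rcases (lv20_q0 hl'.hAB hxy).2.2 with q | q | q
      · exact q
      · exact absurd q.1 hx
      · exact absurd q.1 hy
    exact lv20_c4 hm h4 (ord a b ea eb h1) (ord b c eb ec h2) (ord c d ec ed h3) (ord d a ed ea h5)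
  | r1 v w =>
    have hl' : LocR1 G v w := hl
    by_contra hcon
    push Not at hcon
    obtain ⟨hac, hbd⟩ := hcon
    by_cases ea : a = v 1
    · subst ea
      exact lv20_r1_v1 hm h4 hl' h1 h2 h3 h5 hac hbd
    by_cases eb : b = v 1
    · subst eb
      exact lv20_r1_v1 hm h4 hl' h2 h3 h5 h1 hbd hac.symm
    by_cases ec : c = v 1
    · subst ec
      exact lv20_r1_v1 hm h4 hl' h3 h5 h1 h2 hac.symm hbd.symm
    by_cases ed : d = v 1
    · subst ed
      exact lv20_r1_v1 hm h4 hl' h5 h1 h2 h3 hbd.symm hac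
    by_cases fa : a = v 2
    · subst fa
      exact lv20_r1_v2 hm h4 hl' h1 h2 h3 h5 hac hbd eb ec ed
    by_cases fb : b = v 2
    · subst fb
      exact lv20_r1_v2 hm h4 hl' h2 h3 h5 h1 hbd hac.symm ec ed ea
    by_cases fc : c = v 2
    · subst fc
      exact lv20_r1_v2 hm h4 hl' h3 h5 h1 h2 hac.symm hbd.symm ed ea eb
    by_cases fd : d = v 2
    · subst fd
      exact lv20_r1_v2 hm h4 hl' h5 h1 h2 h3 hbd.symm hac ea eb ec
    rcases lv20_c4 hm h4 (lv20_q1_ord hl'.inj h1 ea fa eb fb) (lv20_q1_ord hl'.inj h2 eb fb ec fc)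
      (lv20_q1_ord hl'.inj h3 ec fc ed fd) (lv20_q1_ord hl'.inj h5 ed fd ea fa) with k | k
    · exact hac k
    · exact hbd k

end Pool.Agent.Levi3
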