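import Pool.Agent.Levi3.Defs
import Pool.Agent.Levi3.LV19

/-! LV21 : FoldLift -/

namespace Pool.Agent.Levi3

open Matrix Finset

variable {V : Type} [DecidableEq V]

/-- indicator of membership -/
def lv21_i (Y : Finset V) (x : V) : ℕ := if x ∈ Y then 1 else 0

theorem lv21_i_le (Y : Finset V) (x : V) : lv21_i Y x ≤ 1 := by
  unfold lv21_i; split_ifs <;> omega

theorem lv21_i_mem {Y : Finset V} {x : V} (h : x ∈ Y) : lv21_i Y x = 1 := by
  simp [lv21_i, h]

theorem lv21_i_not {Y : Finset V} {x : V} (h : x ∉ Y) : lv21_i Y x = 0 := by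
  simp [lv21_i, h]

theorem lv21_up (Y : Finset V) : ∀ (l : List V) (T : Finset V), T ⊆ Y → (∀ x ∈ T, x ∈ l) →
    T.card ≤ (l.map (lv21_i Y)).sum
  | [], T, _, h => by
      have : T = ∅ := Finset.eq_empty_of_forall_notMem fun x hx => by simpa using h x hx
      simp [this]
  | a :: l, T, hT, h => by
      have ih := lv21_up Y l (T.erase a) ((Finset.erase_subset a T).trans hT) (by
        intro x hx
        rw [Finset.mem_erase] at hx
        rcases List.mem_cons.1 (h x hx.2) with h1 | h1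
        · exact absurd h1 hx.1
        · exact h1)
      rw [List.map_cons, List.sum_cons]
      by_cases ha : a ∈ T
      · have h1 := Finset.card_erase_add_one ha
        rw [lv21_i_mem (hT ha)]
        omega
      · rw [Finset.erase_eq_of_notMem ha] at ih
        omega

theorem lv21_lo (Y : Finset V) : ∀ (l : List V) (T : Finset V), l.Nodup →
    (∀ x ∈ l, x ∈ Y → x ∈ T) → (l.map (lv21_i Y)).sum ≤ T.card
  | [], T, _, _ => by simp
  | a :: l, T, hl, h => by
      rw [List.nodup_cons] at hl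
      have ih := lv21_lo Y l (T.erase a) hl.2 (by
        intro x hx hxY
        rw [Finset.mem_erase]
        refine ⟨?_, h x (List.mem_cons_of_mem a hx) hxY⟩
        rintro rfl
        exact hl.1 hx)
      rw [List.map_cons, List.sum_cons]
      by_cases ha : a ∈ Y
      · have h2 : a ∈ T := h a List.mem_cons_self ha
        have h1 := Finset.card_erase_add_one h2
        rw [lv21_i_mem ha]
        omega
      · rw [lv21_i_not ha]
        have h1 : (T.erase a).card ≤ T.card := Finset.card_erase_le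
        omega

theorem lv21_deg_le (G : Inc V) (Y : Finset V) (v : V) (l : List V)
    (h : ∀ x, G.adj v x → x ∈ l) : deg G Y v ≤ (l.map (lv21_i Y)).sum := by
  apply lv21_up
  · intro x hx; exact (mem_nb.1 hx).1
  · intro x hx; exact h x (mem_nb.1 hx).2

theorem lv21_le_deg (G : Inc V) (Y : Finset V) (v : V) (l : List V) (hl : l.Nodup)
    (h : ∀ x ∈ l, G.adj v x) : (l.map (lv21_i Y)).sum ≤ deg G Y v := by
  apply lv21_lo _ _ _ hl
  intro x hx hxY
  exact mem_nb.2 ⟨hxY, h x hx⟩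

/-- degrees of ordinary vertices do not decrease -/
theorem lv21_ord {G : Inc V} {S : Finset V} {f : Fold V} (h : Fold.Amb G S f)
    {Y Y' : Finset V} (hπ : ∀ x, f.π x ∈ Y → x ∈ Y') (y : V) (hy : y ∉ f.U) :
    deg (quot G f.π) Y y ≤ deg G Y' y := by
  classical
  unfold deg
  have hc : ∀ u, (quot G f.π).adj y u → ∃ x, G.adj y x ∧ f.π x = u :=
    Fold.amb_ord h y hy
  choose! g hg using hc
  apply Finset.card_le_card_of_injOn g
  · intro u hu
    have hu' := mem_nb.1 (Finset.mem_coe.1 hu)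
    have h1 := hg u hu'.2
    apply Finset.mem_coe.2
    rw [mem_nb]
    refine ⟨hπ _ ?_, h1.1⟩
    rw [h1.2]; exact hu'.1
  · intro u hu w hw huw
    have hu' := mem_nb.1 (Finset.mem_coe.1 hu)
    have hw' := mem_nb.1 (Finset.mem_coe.1 hw)
    rw [← (hg u hu'.2).2, ← (hg w hw'.2).2, huw]

/-- comparison of the defects -/
theorem lv21_cmp {G : Inc V} {S : Finset V} {f : Fold V} (h : Fold.Amb G S f)
    {Y Y' : Finset V} (hπ : ∀ x, f.π x ∈ Y → x ∈ Y') (hU : ∀ v, v ∉ f.U → (v ∈ Y' ↔ v ∈ Y)) :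
    DD G Y' - ∑ v ∈ Y' ∩ f.U, (3 - (deg G Y' v : ℤ)) ≤
      DD (quot G f.π) Y - ∑ v ∈ Y ∩ f.U, (3 - (deg (quot G f.π) Y v : ℤ)) := by
  have e1 : DD G Y' = ∑ v ∈ Y' \ f.U, (3 - (deg G Y' v : ℤ)) +
      ∑ v ∈ Y' ∩ f.U, (3 - (deg G Y' v : ℤ)) := by
    unfold DD
    rw [add_comm]
    exact (Finset.sum_inter_add_sum_sdiff Y' f.U _).symm
  have e2 : DD (quot G f.π) Y = ∑ v ∈ Y \ f.U, (3 - (deg (quot G f.π) Y v : ℤ)) +
      ∑ v ∈ Y ∩ f.U, (3 - (deg (quot G f.π) Y v : ℤ)) := by
    unfold DD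
    rw [add_comm]
    exact (Finset.sum_inter_add_sum_sdiff Y f.U _).symm
  have e3 : Y' \ f.U = Y \ f.U := by
    ext v
    simp only [Finset.mem_sdiff]
    constructor
    · rintro ⟨h1, h2⟩; exact ⟨(hU v h2).1 h1, h2⟩
    · rintro ⟨h1, h2⟩; exact ⟨(hU v h2).2 h1, h2⟩
  have e4 : ∑ v ∈ Y \ f.U, (3 - (deg G Y' v : ℤ)) ≤
      ∑ v ∈ Y \ f.U, (3 - (deg (quot G f.π) Y v : ℤ)) := by
    apply Finset.sum_le_sum
    intro v hv
    rw [Finset.mem_sdiff] at hv
    have := lv21_ord h hπ v hv.2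
    omega
  rw [e1, e2, e3]
  linarith

omit [DecidableEq V] in
theorem lv21_memS {f : Fold V} {S : Finset V} {x : V} : x ∈ f.S' S ↔ x ∈ S ∧ f.π x = x := by
  unfold Fold.S'
  simp

theorem lv21_pi0 (A B W C x : V) : (Fold.r0 A B W C).π x = if x = B then A else x := by
  by_cases h : x = B <;> simp [Fold.π, h]

/-- the case in which `Y` does not meet the region -/
theorem lv21_disj {G : Inc V} {S : Finset V} {f : Fold V} (h : Fold.Amb G S f)
    {Y : Finset V} (hY : Y ⊆ f.S' S) (hd : Disjoint Y f.U) (hπ : ∀ x, f.π x ∈ Y → x ∈ Y)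
    (hc : 3 ≤ f.U.card) :
    ∃ Y', Y' ⊆ S ∧ (∀ v, v ∉ f.U → (v ∈ Y' ↔ v ∈ Y)) ∧ Y.card ≤ Y'.card ∧
      DD G Y' ≤ DD (quot G f.π) Y + 2 ∧
      (Disjoint Y f.U → Y' = Y ∧ DD G Y' ≤ DD (quot G f.π) Y) ∧
      (f.U ⊆ Y' ∨ 3 ≤ (f.U \ Y').card) := by
  have h1 : Y ∩ f.U = ∅ := Finset.disjoint_iff_inter_eq_empty.1 hd
  have h2 := lv21_cmp h (Y := Y) (Y' := Y) hπ (fun v _ => Iff.rfl)
  rw [h1, Finset.sum_empty, Finset.sum_empty, sub_zero, sub_zero] at h2
  refine ⟨Y, ?_, fun v _ => Iff.rfl, le_rfl, by linarith, fun _ => ⟨rfl, h2⟩, Or.inr ?_⟩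
  · intro x hx
    exact (lv21_memS.1 (hY hx)).1
  · rw [Finset.sdiff_eq_self_of_disjoint hd.symm]
    exact hc

theorem lv21_r0 {G : Inc V} {S : Finset V} {A B W C : V} (h : Fold.Amb G S (Fold.r0 A B W C))
    (Y : Finset V)
    (hY : Y ⊆ (Fold.r0 A B W C).S' S)
    (hB : ∀ v ∈ Y, v ∈ (Fold.r0 A B W C).Bl →
      nb (quot G (Fold.r0 A B W C).π) ((Fold.r0 A B W C).S' S) v ⊆ Y) :
    ∃ Y', Y' ⊆ S ∧ (∀ v, v ∉ (Fold.r0 A B W C).U → (v ∈ Y' ↔ v ∈ Y)) ∧ Y.card ≤ Y'.card ∧
      DD G Y' ≤ DD (quot G (Fold.r0 A B W C).π) Y + 2 ∧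
      (Disjoint Y (Fold.r0 A B W C).U → Y' = Y ∧
        DD G Y' ≤ DD (quot G (Fold.r0 A B W C).π) Y) ∧
      ((Fold.r0 A B W C).U ⊆ Y' ∨ 3 ≤ ((Fold.r0 A B W C).U \ Y').card) := by
  have loc : LocR0 G A B W C := h.loc
  have hU : (Fold.r0 A B W C).U = {A, B, W} := rfl
  have hBl : (Fold.r0 A B W C).Bl = {W} := rfl
  have hπ : ∀ x, (Fold.r0 A B W C).π x = if x = B then A else x := lv21_pi0 A B W C
  have hAW : A ≠ W := fun e => G.irr W (by simpa [e] using loc.adjA)
  have hBW : B ≠ W := fun e => G.irr W (by simpa [e] using loc.adjB)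
  have hCW : C ≠ W := fun e => G.irr W (by simpa [e] using loc.adjC)
  have πA : (Fold.r0 A B W C).π A = A := by rw [hπ]; simp
  have πB : (Fold.r0 A B W C).π B = A := by rw [hπ]; simp
  have πW : (Fold.r0 A B W C).π W = W := by rw [hπ, if_neg hBW.symm]
  have πC : (Fold.r0 A B W C).π C = C := by rw [hπ, if_neg loc.hBC.symm]
  have hYm : ∀ x ∈ Y, x ∈ S ∧ (Fold.r0 A B W C).π x = x := by
    intro x hx
    exact lv21_memS.1 (hY hx)
  have hBY : B ∉ Y := fun hb => loc.hAB (by rw [← πB, (hYm B hb).2])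
  have hS'A : A ∈ (Fold.r0 A B W C).S' S := lv21_memS.2 ⟨(h.mem _ _ loc.adjA).2, πA⟩
  have hS'C : C ∈ (Fold.r0 A B W C).S' S := lv21_memS.2 ⟨(h.mem _ _ loc.adjC).2, πC⟩
  have qWA : (quot G (Fold.r0 A B W C).π).adj W A :=
    ⟨G.bip loc.adjA, πW, πA, W, A, πW, πA, loc.adjA⟩
  have qWC : (quot G (Fold.r0 A B W C).π).adj W C :=
    ⟨G.bip loc.adjC, πW, πC, W, C, πW, πC, loc.adjC⟩
  have hcardU : ({A, B, W} : Finset V).card = 3 := by
    rw [Finset.card_eq_three]
    exact ⟨A, B, W, loc.hAB, hAW, hBW, rfl⟩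
  by_cases hA : A ∈ Y
  · -- main case
    have hπ' : ∀ x, (Fold.r0 A B W C).π x ∈ Y → x ∈ insert B (insert W Y) := by
      intro x hx
      rw [hπ] at hx
      split_ifs at hx with h1
      · rw [h1]; exact Finset.mem_insert_self _ _
      · exact Finset.mem_insert_of_mem (Finset.mem_insert_of_mem hx)
    have hU' : ∀ v, v ∉ (Fold.r0 A B W C).U → (v ∈ insert B (insert W Y) ↔ v ∈ Y) := by
      intro v hv
      rw [hU] at hv
      simp only [Finset.mem_insert, Finset.mem_singleton, not_or] at hv ⊢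
      tauto
    have hcmp := lv21_cmp h hπ' hU'
    have hsub : Y ⊆ insert B (insert W Y) := fun x hx =>
      Finset.mem_insert_of_mem (Finset.mem_insert_of_mem hx)
    have e1 : insert B (insert W Y) ∩ (Fold.r0 A B W C).U = {A, B, W} := by
      rw [hU]
      ext x
      simp only [Finset.mem_inter, Finset.mem_insert, Finset.mem_singleton]
      constructor
      · exact fun hx => hx.2
      · rintro (rfl | rfl | rfl)
        · exact ⟨Or.inr (Or.inr hA), Or.inl rfl⟩
        · exact ⟨Or.inl rfl, Or.inr (Or.inl rfl)⟩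
        · exact ⟨Or.inr (Or.inl rfl), Or.inr (Or.inr rfl)⟩
    have s1 : ∀ g : V → ℤ, ∑ v ∈ ({A, B, W} : Finset V), g v = g A + g B + g W := by
      intro g
      rw [Finset.sum_insert (by simp [loc.hAB, hAW]), Finset.sum_insert (by simp [hBW]),
        Finset.sum_singleton]
      ring
    rw [e1, s1] at hcmp
    -- degrees
    have dA : deg (quot G (Fold.r0 A B W C).π) Y A ≤ deg G Y A + deg G Y B := by
      have : nb (quot G (Fold.r0 A B W C).π) Y A ⊆ nb G Y A ∪ nb G Y B := by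
        intro u hu
        rw [mem_nb] at hu
        obtain ⟨hu1, ht, -, hu2, x', y', hx', hy', hxy⟩ := hu
        have huA : u ≠ A := fun e => ht (by rw [e])
        have hy2 : y' = u := by
          rw [hπ] at hy'
          split_ifs at hy' with h1
          · exact absurd hy'.symm huA
          · exact hy'
        rw [Finset.mem_union, mem_nb, mem_nb]
        rw [hπ] at hx'
        split_ifs at hx' with h1
        · right; rw [← h1, ← hy2]; exact ⟨by rw [hy2]; exact hu1, hxy⟩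
        · left; rw [← hx', ← hy2]; exact ⟨by rw [hy2]; exact hu1, hxy⟩
      exact (Finset.card_le_card this).trans (Finset.card_union_le _ _)
    have gen : ∀ x, G.adj x W → W ∉ Y → deg G Y x + 1 ≤ deg G (insert B (insert W Y)) x := by
      intro x hx hW
      have hn : W ∉ nb G Y x := fun hh => hW (mem_nb.1 hh).1
      have : insert W (nb G Y x) ⊆ nb G (insert B (insert W Y)) x := by
        intro u hu
        rw [Finset.mem_insert] at hu
        rw [mem_nb]
        rcases hu with rfl | hu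
        · exact ⟨Finset.mem_insert_of_mem (Finset.mem_insert_self _ _), hx⟩
        · rw [mem_nb] at hu
          exact ⟨hsub hu.1, hu.2⟩
      have h2 := Finset.card_le_card this
      rw [Finset.card_insert_of_notMem hn] at h2
      exact h2
    have mA : deg G Y A ≤ deg G (insert B (insert W Y)) A := deg_mono hsub A
    have mB : deg G Y B ≤ deg G (insert B (insert W Y)) B := deg_mono hsub B
    have dW := lv21_le_deg G (insert B (insert W Y)) W [A, B, C]
      (by simp [loc.hAB, loc.hAC, loc.hBC]) (by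
        intro x hx
        simp only [List.mem_cons, List.not_mem_nil, or_false] at hx
        rcases hx with rfl | rfl | rfl
        · exact loc.adjA
        · exact loc.adjB
        · exact loc.adjC)
    simp only [List.map_cons, List.map_nil, List.sum_cons, List.sum_nil] at dW
    rw [lv21_i_mem (hsub hA), lv21_i_mem (Finset.mem_insert_self B _)] at dW
    have fin : DD G (insert B (insert W Y)) ≤ DD (quot G (Fold.r0 A B W C).π) Y + 2 := by
      by_cases hW : W ∈ Y
      · have hC : C ∈ Y := hB W hW (by rw [hBl]; simp) (mem_nb.2 ⟨hS'C, qWC⟩)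
        rw [lv21_i_mem (hsub hC)] at dW
        have e2 : Y ∩ (Fold.r0 A B W C).U = {A, W} := by
          rw [hU]
          ext x
          simp only [Finset.mem_inter, Finset.mem_insert, Finset.mem_singleton]
          constructor
          · rintro ⟨h1, rfl | rfl | rfl⟩
            · exact Or.inl rfl
            · exact absurd h1 hBY
            · exact Or.inr rfl
          · rintro (rfl | rfl)
            · exact ⟨hA, Or.inl rfl⟩
            · exact ⟨hW, Or.inr (Or.inr rfl)⟩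
        have s2 : ∀ g : V → ℤ, ∑ v ∈ ({A, W} : Finset V), g v = g A + g W := by
          intro g
          rw [Finset.sum_insert (by simp [hAW]), Finset.sum_singleton]
        rw [e2, s2] at hcmp
        have dW' : deg (quot G (Fold.r0 A B W C).π) Y W ≤ 2 :=
          (deg_mono hY W).trans (Fold.amb_bl_deg h W (by rw [hBl]; simp))
        omega
      · have e2 : Y ∩ (Fold.r0 A B W C).U = {A} := by
          rw [hU]
          ext x
          simp only [Finset.mem_inter, Finset.mem_insert, Finset.mem_singleton]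
          constructor
          · rintro ⟨h1, rfl | rfl | rfl⟩
            · rfl
            · exact absurd h1 hBY
            · exact absurd h1 hW
          · rintro rfl
            exact ⟨hA, Or.inl rfl⟩
        rw [e2, Finset.sum_singleton] at hcmp
        have gA := gen A (G.symm loc.adjA) hW
        have gB := gen B (G.symm loc.adjB) hW
        omega
    refine ⟨insert B (insert W Y), ?_, hU', Finset.card_le_card hsub, fin, ?_, Or.inl ?_⟩
    · intro x hx
      simp only [Finset.mem_insert] at hx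
      rcases hx with rfl | rfl | hx
      · exact (h.mem _ _ loc.adjB).2
      · exact (h.mem _ _ loc.adjB).1
      · exact (hYm x hx).1
    · intro hd
      exact absurd (Finset.disjoint_left.1 hd hA) (by rw [hU]; simp)
    · rw [hU]
      intro x hx
      simp only [Finset.mem_insert, Finset.mem_singleton] at hx ⊢
      rcases hx with rfl | rfl | rfl
      · exact Or.inr (Or.inr hA)
      · exact Or.inl rfl
      · exact Or.inr (Or.inl rfl)
  · have hW : W ∉ Y := fun hW => hA (hB W hW (by rw [hBl]; simp) (mem_nb.2 ⟨hS'A, qWA⟩))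
    refine lv21_disj h hY ?_ ?_ ?_
    · rw [hU, Finset.disjoint_right]
      intro x hx
      simp only [Finset.mem_insert, Finset.mem_singleton] at hx
      rcases hx with rfl | rfl | rfl
      · exact hA
      · exact hBY
      · exact hW
    · intro x hx
      rw [hπ] at hx
      split_ifs at hx with h1
      · exact absurd hx hA
      · exact hx
    · rw [hU, hcardU]

theorem lv21_pi1 (v a : Fin 6 → V) (x : V) :
    (Fold.r1 v a).π x = if x = v 5 then v 1 else if x = v 4 then v 2 else x := by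
  by_cases h : x = v 5
  · simp [Fold.π, h]
  · by_cases h' : x = v 4
    · simp [Fold.π, h']
    · simp [Fold.π, h, h']

theorem lv21_fin (i : Fin 6) : i + 0 = i ∧ i + 1 + 1 = i + 2 ∧ i + 2 + 1 = i + 3 ∧
    i + 3 + 1 = i + 4 ∧ i + 4 + 1 = i + 5 ∧ i + 5 + 1 = i ∧ i - 1 = i + 5 ∧ i ≠ i + 2 ∧
    i + 1 ≠ i + 3 ∧ i + 1 ≠ i + 5 := by
  decide +revert

omit [DecidableEq V] in
theorem lv21_anv {G : Inc V} {S : Finset V} {v a : Fin 6 → V} (h : LocR1 G v a)
    (mem : ∀ x y, G.adj x y → x ∈ S ∧ y ∈ S) (c4f : C4F G S) (i k : Fin 6) :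
    a i ≠ v (i + k) := by
  intro e
  have hadj : G.adj (v i) (v (i + k)) := e ▸ h.ha i
  obtain ⟨e0, e2, e3, e4, e5, e6, e7, d1, d2, e8⟩ := lv21_fin i
  have a0 := h.hv i
  have a1 := h.hv (i + 1)
  have a2 := h.hv (i + 2)
  have a4 := h.hv (i + 4)
  have a5 := h.hv (i + 5)
  have n1 := h.ne1 i
  have n2 := h.ne2 i
  rw [e2] at a1
  rw [e3] at a2
  rw [e5] at a4
  rw [e6] at a5
  rw [e7] at n2
  have t0 := G.bip a0
  have t1 := G.bip a1
  have t4 := G.bip a4
  have t5 := G.bip a5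
  have th := G.bip hadj
  fin_cases k
  · exact th (by simp)
  · exact n1 e
  · revert t0 t1 th
    simp only [Fin.reduceFinMk]
    cases G.typ (v i) <;> cases G.typ (v (i + 1)) <;> cases G.typ (v (i + 2)) <;> simp
  · have hadj' : G.adj (v i) (v (i + 3)) := hadj
    rcases c4f (v i) (mem _ _ a0).1 (v (i + 1)) (mem _ _ a0).2 (v (i + 2)) (mem _ _ a1).2
      (v (i + 3)) (mem _ _ a2).2 a0 a1 a2 (G.symm hadj') with h1 | h1
    · exact d1 (h.inj h1)
    · exact d2 (h.inj h1)
  · revert t4 t5 th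
    simp only [Fin.reduceFinMk]
    cases G.typ (v i) <;> cases G.typ (v (i + 5)) <;> cases G.typ (v (i + 4)) <;> simp
  · exact n2 e

theorem lv21_sumU {v : Fin 6 → V} (hv : Function.Injective v) (Y : Finset V) (g : V → ℤ) :
    ∑ x ∈ Y ∩ Finset.univ.image v, g x = ∑ i : Fin 6, if v i ∈ Y then g (v i) else 0 := by
  rw [Finset.inter_comm, ← Finset.filter_mem_eq_inter, Finset.sum_filter,
    Finset.sum_image (fun x _ y _ h => hv h)]

section r1

variable {G : Inc V} {S : Finset V} {v a : Fin 6 → V}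

/-- membership in the lift -/
theorem lv21_memI (loc : LocR1 G v a) (Y : Finset V) (I : Finset (Fin 6)) (i : Fin 6) :
    v i ∈ Y ∪ I.image v ↔ v i ∈ Y ∨ i ∈ I := by
  rw [Finset.mem_union]
  constructor
  · rintro (h | h)
    · exact Or.inl h
    · obtain ⟨j, hj, hji⟩ := Finset.mem_image.1 h
      rw [loc.inj hji] at hj
      exact Or.inr hj
  · rintro (h | h)
    · exact Or.inl h
    · exact Or.inr (Finset.mem_image_of_mem v h)

/-- lower bound of the degrees in the lift -/
theorem lv21_r1low (h : Fold.Amb G S (Fold.r1 v a)) (Y Y' : Finset V)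
    (hU : ∀ x, x ∉ (Fold.r1 v a).U → (x ∈ Y' ↔ x ∈ Y)) (i : Fin 6) :
    lv21_i Y' (v (i + 1)) + lv21_i Y' (v (i + 5)) + lv21_i Y (a i) ≤ deg G Y' (v i) := by
  have loc : LocR1 G v a := h.loc
  obtain ⟨e0, e2, e3, e4, e5, e6, e7, d1, d2, e8⟩ := lv21_fin i
  have hn : ∀ j, a i ≠ v j := by
    intro j
    have := lv21_anv loc h.mem h.c4f i (j - i)
    rwa [add_sub_cancel] at this
  have haU : a i ∉ (Fold.r1 v a).U := by
    intro hh
    obtain ⟨j, -, hj⟩ := Finset.mem_image.1 (show a i ∈ Finset.univ.image v from hh)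
    exact hn j hj.symm
  have hiff : lv21_i Y (a i) = lv21_i Y' (a i) := by
    unfold lv21_i
    simp only [hU _ haU]
  rw [hiff]
  have hl := lv21_le_deg G Y' (v i) [v (i + 1), v (i + 5), a i] (by
    simp only [List.nodup_cons, List.mem_cons, List.not_mem_nil, or_false, not_or,
      not_false_eq_true, List.nodup_nil, and_true]
    exact ⟨⟨fun e => e8 (loc.inj e), (hn _).symm⟩, (hn _).symm⟩) (by
    intro x hx
    simp only [List.mem_cons, List.not_mem_nil, or_false] at hx
    rcases hx with rfl | rfl | rfl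
    · exact loc.hv i
    · have := loc.hv (i + 5)
      rw [e6] at this
      exact G.symm this
    · exact loc.ha i)
  simp only [List.map_cons, List.map_nil, List.sum_cons, List.sum_nil] at hl
  omega

omit [DecidableEq V] in
/-- neighbours of the vertices of the hexagon -/
theorem lv21_nb (loc : LocR1 G v a) :
    (∀ x, G.adj (v 0) x → x = v 1 ∨ x = v 5 ∨ x = a 0) ∧
    (∀ x, G.adj (v 1) x → x = v 2 ∨ x = v 0 ∨ x = a 1) ∧
    (∀ x, G.adj (v 2) x → x = v 3 ∨ x = v 1 ∨ x = a 2) ∧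
    (∀ x, G.adj (v 3) x → x = v 4 ∨ x = v 2 ∨ x = a 3) ∧
    (∀ x, G.adj (v 4) x → x = v 5 ∨ x = v 3 ∨ x = a 4) ∧
    (∀ x, G.adj (v 5) x → x = v 0 ∨ x = v 4 ∨ x = a 5) :=
  ⟨loc.only 0, loc.only 1, loc.only 2, loc.only 3, loc.only 4, loc.only 5⟩

/-- upper bounds of the degrees in the quotient -/
theorem lv21_r1up (h : Fold.Amb G S (Fold.r1 v a)) (Y : Finset V) :
    deg (quot G (Fold.r1 v a).π) Y (v 0) ≤ lv21_i Y (v 1) + lv21_i Y (a 0) ∧
    deg (quot G (Fold.r1 v a).π) Y (v 3) ≤ lv21_i Y (v 2) + lv21_i Y (a 3) ∧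
    deg (quot G (Fold.r1 v a).π) Y (v 1) ≤
      lv21_i Y (v 2) + lv21_i Y (v 0) + lv21_i Y (a 1) + lv21_i Y (a 5) ∧
    deg (quot G (Fold.r1 v a).π) Y (v 2) ≤
      lv21_i Y (v 3) + lv21_i Y (v 1) + lv21_i Y (a 2) + lv21_i Y (a 4) := by
  have loc : LocR1 G v a := h.loc
  have hn : ∀ i j, a i ≠ v j := by
    intro i j
    have := lv21_anv loc h.mem h.c4f i (j - i)
    rwa [add_sub_cancel] at this
  have hπ := lv21_pi1 v a
  have ne : ∀ i j : Fin 6, i ≠ j → v i ≠ v j := fun i j hij e => hij (loc.inj e)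
  have p0 : (Fold.r1 v a).π (v 0) = v 0 := by
    rw [hπ, if_neg (ne _ _ (by decide)), if_neg (ne _ _ (by decide))]
  have p1 : (Fold.r1 v a).π (v 1) = v 1 := by
    rw [hπ, if_neg (ne _ _ (by decide)), if_neg (ne _ _ (by decide))]
  have p2 : (Fold.r1 v a).π (v 2) = v 2 := by
    rw [hπ, if_neg (ne _ _ (by decide)), if_neg (ne _ _ (by decide))]
  have p3 : (Fold.r1 v a).π (v 3) = v 3 := by
    rw [hπ, if_neg (ne _ _ (by decide)), if_neg (ne _ _ (by decide))]
  have p4 : (Fold.r1 v a).π (v 4) = v 2 := by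
    rw [hπ, if_neg (ne _ _ (by decide)), if_pos rfl]
  have p5 : (Fold.r1 v a).π (v 5) = v 1 := by
    rw [hπ, if_pos rfl]
  have pa : ∀ i, (Fold.r1 v a).π (a i) = a i := by
    intro i
    rw [hπ, if_neg (hn _ _), if_neg (hn _ _)]
  -- fibres of π
  have fib : ∀ x y, (Fold.r1 v a).π x = y → x = y ∨ (x = v 5 ∧ y = v 1) ∨ (x = v 4 ∧ y = v 2) := by
    intro x y hxy
    rw [hπ] at hxy
    split_ifs at hxy with h1 h2
    · exact Or.inr (Or.inl ⟨h1, hxy.symm⟩)
    · exact Or.inr (Or.inr ⟨h2, hxy.symm⟩)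
    · exact Or.inl hxy
  obtain ⟨n0, n1, n2, n3, n4, n5⟩ := lv21_nb loc
  refine ⟨?_, ?_, ?_, ?_⟩
  · have := lv21_deg_le (quot G (Fold.r1 v a).π) Y (v 0) [v 1, a 0] (by
      intro x hx
      obtain ⟨-, -, -, x', y', hx', hy', hxy⟩ := hx
      rcases fib _ _ hx' with e | ⟨e, e'⟩ | ⟨e, e'⟩
      · rw [e] at hxy
        rcases n0 _ hxy with r | r | r
        · rw [r, p1] at hy'; simp [← hy']
        · rw [r, p5] at hy'; simp [← hy']
        · rw [r, pa] at hy'; simp [← hy']
      · exact absurd e' (ne _ _ (by decide))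
      · exact absurd e' (ne _ _ (by decide)))
    simpa using this
  · have := lv21_deg_le (quot G (Fold.r1 v a).π) Y (v 3) [v 2, a 3] (by
      intro x hx
      obtain ⟨-, -, -, x', y', hx', hy', hxy⟩ := hx
      rcases fib _ _ hx' with e | ⟨e, e'⟩ | ⟨e, e'⟩
      · rw [e] at hxy
        rcases n3 _ hxy with r | r | r
        · rw [r, p4] at hy'; simp [← hy']
        · rw [r, p2] at hy'; simp [← hy']
        · rw [r, pa] at hy'; simp [← hy']
      · exact absurd e' (ne _ _ (by decide))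
      · exact absurd e' (ne _ _ (by decide)))
    simpa using this
  · have := lv21_deg_le (quot G (Fold.r1 v a).π) Y (v 1) [v 2, v 0, a 1, a 5] (by
      intro x hx
      obtain ⟨-, -, -, x', y', hx', hy', hxy⟩ := hx
      rcases fib _ _ hx' with e | ⟨e, e'⟩ | ⟨e, e'⟩
      · rw [e] at hxy
        rcases n1 _ hxy with r | r | r
        · rw [r, p2] at hy'; simp [← hy']
        · rw [r, p0] at hy'; simp [← hy']
        · rw [r, pa] at hy'; simp [← hy']
      · rw [e] at hxy
        rcases n5 _ hxy with r | r | r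
        · rw [r, p0] at hy'; simp [← hy']
        · rw [r, p4] at hy'; simp [← hy']
        · rw [r, pa] at hy'; simp [← hy']
      · exact absurd e' (ne _ _ (by decide)))
    simp only [List.map_cons, List.map_nil, List.sum_cons, List.sum_nil] at this
    omega
  · have := lv21_deg_le (quot G (Fold.r1 v a).π) Y (v 2) [v 3, v 1, a 2, a 4] (by
      intro x hx
      obtain ⟨-, -, -, x', y', hx', hy', hxy⟩ := hx
      rcases fib _ _ hx' with e | ⟨e, e'⟩ | ⟨e, e'⟩
      · rw [e] at hxy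
        rcases n2 _ hxy with r | r | r
        · rw [r, p3] at hy'; simp [← hy']
        · rw [r, p1] at hy'; simp [← hy']
        · rw [r, pa] at hy'; simp [← hy']
      · exact absurd e' (ne _ _ (by decide))
      · rw [e] at hxy
        rcases n4 _ hxy with r | r | r
        · rw [r, p5] at hy'; simp [← hy']
        · rw [r, p3] at hy'; simp [← hy']
        · rw [r, pa] at hy'; simp [← hy'])
    simp only [List.map_cons, List.map_nil, List.sum_cons, List.sum_nil] at this
    omega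

/-- the lift for a set `I` of indices -/
theorem lv21_r1lift (h : Fold.Amb G S (Fold.r1 v a)) (Y : Finset V)
    (hY : Y ⊆ (Fold.r1 v a).S' S) (I : Finset (Fin 6))
    (h1 : v 1 ∈ Y → 5 ∈ I) (h2 : v 2 ∈ Y → 4 ∈ I) :
    Y ∪ I.image v ⊆ S ∧
    (∀ x, x ∉ (Fold.r1 v a).U → (x ∈ Y ∪ I.image v ↔ x ∈ Y)) ∧
    DD G (Y ∪ I.image v) -
      ∑ i : Fin 6, (if v i ∈ Y ∪ I.image v then (3 - (deg G (Y ∪ I.image v) (v i) : ℤ)) else 0) ≤
    DD (quot G (Fold.r1 v a).π) Y -
      ∑ i : Fin 6, (if v i ∈ Y then (3 - (deg (quot G (Fold.r1 v a).π) Y (v i) : ℤ)) else 0) := by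
  have loc : LocR1 G v a := h.loc
  have hU : ∀ x, x ∉ (Fold.r1 v a).U → (x ∈ Y ∪ I.image v ↔ x ∈ Y) := by
    intro x hx
    rw [Finset.mem_union]
    constructor
    · rintro (hh | hh)
      · exact hh
      · exfalso
        apply hx
        obtain ⟨j, -, hj⟩ := Finset.mem_image.1 hh
        exact Finset.mem_image.2 ⟨j, Finset.mem_univ j, hj⟩
    · exact fun hh => Or.inl hh
  have hπ : ∀ x, (Fold.r1 v a).π x ∈ Y → x ∈ Y ∪ I.image v := by
    intro x hx
    rw [lv21_pi1] at hx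
    split_ifs at hx with r1 r2
    · rw [r1, lv21_memI loc]; exact Or.inr (h1 hx)
    · rw [r2, lv21_memI loc]; exact Or.inr (h2 hx)
    · exact Finset.mem_union_left _ hx
  refine ⟨?_, hU, ?_⟩
  · intro x hx
    rcases Finset.mem_union.1 hx with hh | hh
    · exact (lv21_memS.1 (hY hh)).1
    · obtain ⟨j, -, rfl⟩ := Finset.mem_image.1 hh
      exact (h.mem _ _ (loc.hv j)).1
  · have := lv21_cmp h hπ hU
    have eU : (Fold.r1 v a).U = Finset.univ.image v := rfl
    rw [eU, lv21_sumU loc.inj, lv21_sumU loc.inj] at this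
    exact this

theorem lv21_r1 (h : Fold.Amb G S (Fold.r1 v a))
    (Y : Finset V)
    (hY : Y ⊆ (Fold.r1 v a).S' S)
    (hB : ∀ x ∈ Y, x ∈ (Fold.r1 v a).Bl →
      nb (quot G (Fold.r1 v a).π) ((Fold.r1 v a).S' S) x ⊆ Y) :
    ∃ Y', Y' ⊆ S ∧ (∀ x, x ∉ (Fold.r1 v a).U → (x ∈ Y' ↔ x ∈ Y)) ∧ Y.card ≤ Y'.card ∧
      DD G Y' ≤ DD (quot G (Fold.r1 v a).π) Y + 2 ∧
      (Disjoint Y (Fold.r1 v a).U → Y' = Y ∧
        DD G Y' ≤ DD (quot G (Fold.r1 v a).π) Y) ∧
      ((Fold.r1 v a).U ⊆ Y' ∨ 3 ≤ ((Fold.r1 v a).U \ Y').card) := by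
  have loc : LocR1 G v a := h.loc
  have hU : (Fold.r1 v a).U = Finset.univ.image v := rfl
  have hUm : ∀ j, v j ∈ (Fold.r1 v a).U := fun j => Finset.mem_image_of_mem v (Finset.mem_univ j)
  have hBl : (Fold.r1 v a).Bl = {v 0, v 3} := rfl
  have hπ := lv21_pi1 v a
  have ne : ∀ i j : Fin 6, i ≠ j → v i ≠ v j := fun i j hij e => hij (loc.inj e)
  have p0 : (Fold.r1 v a).π (v 0) = v 0 := by
    rw [hπ, if_neg (ne _ _ (by decide)), if_neg (ne _ _ (by decide))]
  have p1 : (Fold.r1 v a).π (v 1) = v 1 := by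
    rw [hπ, if_neg (ne _ _ (by decide)), if_neg (ne _ _ (by decide))]
  have p2 : (Fold.r1 v a).π (v 2) = v 2 := by
    rw [hπ, if_neg (ne _ _ (by decide)), if_neg (ne _ _ (by decide))]
  have p3 : (Fold.r1 v a).π (v 3) = v 3 := by
    rw [hπ, if_neg (ne _ _ (by decide)), if_neg (ne _ _ (by decide))]
  have p4 : (Fold.r1 v a).π (v 4) = v 2 := by
    rw [hπ, if_neg (ne _ _ (by decide)), if_pos rfl]
  have p5 : (Fold.r1 v a).π (v 5) = v 1 := by
    rw [hπ, if_pos rfl]
  have h4Y : v 4 ∉ Y := fun hh => ne 4 2 (by decide) (by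
    have := (lv21_memS.1 (hY hh)).2
    rw [p4] at this; exact this.symm)
  have h5Y : v 5 ∉ Y := fun hh => ne 5 1 (by decide) (by
    have := (lv21_memS.1 (hY hh)).2
    rw [p5] at this; exact this.symm)
  have a01 : G.adj (v 0) (v 1) := loc.hv 0
  have a32 : G.adj (v 3) (v 2) := G.symm (loc.hv 2)
  have h01 : v 0 ∈ Y → v 1 ∈ Y := by
    intro hh
    refine hB (v 0) hh (by rw [hBl]; simp) (mem_nb.2 ⟨lv21_memS.2 ⟨(h.mem _ _ a01).2, p1⟩, ?_⟩)
    exact ⟨G.bip a01, p0, p1, v 0, v 1, p0, p1, a01⟩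
  have h32 : v 3 ∈ Y → v 2 ∈ Y := by
    intro hh
    refine hB (v 3) hh (by rw [hBl]; simp) (mem_nb.2 ⟨lv21_memS.2 ⟨(h.mem _ _ a32).2, p2⟩, ?_⟩)
    exact ⟨G.bip a32, p3, p2, v 3, v 2, p3, p2, a32⟩
  obtain ⟨u0, u3, u1, u2⟩ := lv21_r1up h Y
  have low := fun I : Finset (Fin 6) => lv21_r1low h Y (Y ∪ I.image v)
  have hsub : ∀ I : Finset (Fin 6), Y ⊆ Y ∪ I.image v := fun I => Finset.subset_union_left
  by_cases h1 : v 1 ∈ Y
  · have hnd : ¬ Disjoint Y (Fold.r1 v a).U := fun hd => Finset.disjoint_left.1 hd h1 (hUm 1)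
    by_cases h2 : v 2 ∈ Y
    · -- everything
      obtain ⟨c1, c2, c3⟩ := lv21_r1lift h Y hY Finset.univ (fun _ => Finset.mem_univ _)
        (fun _ => Finset.mem_univ _)
      have hm : ∀ i, v i ∈ Y ∪ Finset.univ.image v := fun i => by
        rw [lv21_memI loc]; exact Or.inr (Finset.mem_univ i)
      have lo := low Finset.univ c2
      refine ⟨Y ∪ Finset.univ.image v, c1, c2, Finset.card_le_card (hsub _), ?_,
        fun hd => absurd hd hnd, Or.inl Finset.subset_union_right⟩
      simp only [lv21_i_mem (hm _)] at lo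
      have l0 := lo 0
      have l1 := lo 1
      have l2 := lo 2
      have l3 := lo 3
      have l4 := lo 4
      have l5 := lo 5
      simp only [if_pos (hm _)] at c3
      rw [Fin.sum_univ_six, Fin.sum_univ_six, if_pos h1, if_pos h2, if_neg h4Y, if_neg h5Y] at c3
      rw [lv21_i_mem h1] at u0 u2
      rw [lv21_i_mem h2] at u3 u1
      have i0 := lv21_i_le Y (a 0)
      have i3 := lv21_i_le Y (a 3)
      by_cases h0 : v 0 ∈ Y
      · rw [if_pos h0] at c3
        rw [lv21_i_mem h0] at u1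
        by_cases h3 : v 3 ∈ Y
        · rw [if_pos h3] at c3
          rw [lv21_i_mem h3] at u2
          omega
        · rw [if_neg h3] at c3
          rw [lv21_i_not h3] at u2
          omega
      · rw [if_neg h0] at c3
        rw [lv21_i_not h0] at u1
        by_cases h3 : v 3 ∈ Y
        · rw [if_pos h3] at c3
          rw [lv21_i_mem h3] at u2
          omega
        · rw [if_neg h3] at c3
          rw [lv21_i_not h3] at u2
          omega
    · have h3 : v 3 ∉ Y := fun hh => h2 (h32 hh)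
      obtain ⟨c1, c2, c3⟩ := lv21_r1lift h Y hY {0, 1, 5} (fun _ => by decide)
        (fun hh => absurd hh h2)
      have lo := low {0, 1, 5} c2
      have m0 : v 0 ∈ Y ∪ ({0, 1, 5} : Finset (Fin 6)).image v :=
        (lv21_memI loc _ _ _).2 (Or.inr (by decide))
      have m1 : v 1 ∈ Y ∪ ({0, 1, 5} : Finset (Fin 6)).image v :=
        (lv21_memI loc _ _ _).2 (Or.inr (by decide))
      have m5 : v 5 ∈ Y ∪ ({0, 1, 5} : Finset (Fin 6)).image v :=
        (lv21_memI loc _ _ _).2 (Or.inr (by decide))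
      have m2 : v 2 ∉ Y ∪ ({0, 1, 5} : Finset (Fin 6)).image v := fun hh =>
        ((lv21_memI loc _ _ _).1 hh).elim h2 (by decide)
      have m3 : v 3 ∉ Y ∪ ({0, 1, 5} : Finset (Fin 6)).image v := fun hh =>
        ((lv21_memI loc _ _ _).1 hh).elim h3 (by decide)
      have m4 : v 4 ∉ Y ∪ ({0, 1, 5} : Finset (Fin 6)).image v := fun hh =>
        ((lv21_memI loc _ _ _).1 hh).elim h4Y (by decide)
      refine ⟨Y ∪ ({0, 1, 5} : Finset (Fin 6)).image v, c1, c2, Finset.card_le_card (hsub _), ?_,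
        fun hd => absurd hd hnd, Or.inr ?_⟩
      · have l0 : lv21_i (Y ∪ ({0, 1, 5} : Finset (Fin 6)).image v) (v 1) +
            lv21_i (Y ∪ ({0, 1, 5} : Finset (Fin 6)).image v) (v 5) + lv21_i Y (a 0) ≤
            deg G (Y ∪ ({0, 1, 5} : Finset (Fin 6)).image v) (v 0) := lo 0
        have l1 : lv21_i (Y ∪ ({0, 1, 5} : Finset (Fin 6)).image v) (v 2) +
            lv21_i (Y ∪ ({0, 1, 5} : Finset (Fin 6)).image v) (v 0) + lv21_i Y (a 1) ≤
            deg G (Y ∪ ({0, 1, 5} : Finset (Fin 6)).image v) (v 1) := lo 1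
        have l5 : lv21_i (Y ∪ ({0, 1, 5} : Finset (Fin 6)).image v) (v 0) +
            lv21_i (Y ∪ ({0, 1, 5} : Finset (Fin 6)).image v) (v 4) + lv21_i Y (a 5) ≤
            deg G (Y ∪ ({0, 1, 5} : Finset (Fin 6)).image v) (v 5) := lo 5
        rw [lv21_i_mem m1, lv21_i_mem m5] at l0
        rw [lv21_i_not m2, lv21_i_mem m0] at l1
        rw [lv21_i_mem m0, lv21_i_not m4] at l5
        rw [Fin.sum_univ_six, Fin.sum_univ_six, if_pos h1, if_neg h2, if_neg h3, if_neg h4Y,
          if_neg h5Y, if_pos m0, if_pos m1, if_neg m2, if_neg m3, if_neg m4, if_pos m5] at c3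
        rw [lv21_i_mem h1] at u0
        rw [lv21_i_not h2] at u1
        have i0 := lv21_i_le Y (a 0)
        by_cases h0 : v 0 ∈ Y
        · rw [if_pos h0] at c3
          rw [lv21_i_mem h0] at u1
          omega
        · rw [if_neg h0] at c3
          rw [lv21_i_not h0] at u1
          omega
      · have : ({v 2, v 3, v 4} : Finset V) ⊆
            (Fold.r1 v a).U \ (Y ∪ ({0, 1, 5} : Finset (Fin 6)).image v) := by
          intro x hx
          simp only [Finset.mem_insert, Finset.mem_singleton] at hx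
          rw [Finset.mem_sdiff]
          rcases hx with rfl | rfl | rfl
          · exact ⟨hUm 2, m2⟩
          · exact ⟨hUm 3, m3⟩
          · exact ⟨hUm 4, m4⟩
        refine le_trans (le_of_eq ?_) (Finset.card_le_card this)
        exact (Finset.card_eq_three.2 ⟨v 2, v 3, v 4, ne _ _ (by decide), ne _ _ (by decide),
          ne _ _ (by decide), rfl⟩).symm
  · have h0 : v 0 ∉ Y := fun hh => h1 (h01 hh)
    by_cases h2 : v 2 ∈ Y
    · have hnd : ¬ Disjoint Y (Fold.r1 v a).U := fun hd => Finset.disjoint_left.1 hd h2 (hUm 2)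
      obtain ⟨c1, c2, c3⟩ := lv21_r1lift h Y hY {2, 3, 4} (fun hh => absurd hh h1)
        (fun _ => by decide)
      have lo := low {2, 3, 4} c2
      have m2 : v 2 ∈ Y ∪ ({2, 3, 4} : Finset (Fin 6)).image v :=
        (lv21_memI loc _ _ _).2 (Or.inr (by decide))
      have m3 : v 3 ∈ Y ∪ ({2, 3, 4} : Finset (Fin 6)).image v :=
        (lv21_memI loc _ _ _).2 (Or.inr (by decide))
      have m4 : v 4 ∈ Y ∪ ({2, 3, 4} : Finset (Fin 6)).image v :=
        (lv21_memI loc _ _ _).2 (Or.inr (by decide))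
      have m0 : v 0 ∉ Y ∪ ({2, 3, 4} : Finset (Fin 6)).image v := fun hh =>
        ((lv21_memI loc _ _ _).1 hh).elim h0 (by decide)
      have m1 : v 1 ∉ Y ∪ ({2, 3, 4} : Finset (Fin 6)).image v := fun hh =>
        ((lv21_memI loc _ _ _).1 hh).elim h1 (by decide)
      have m5 : v 5 ∉ Y ∪ ({2, 3, 4} : Finset (Fin 6)).image v := fun hh =>
        ((lv21_memI loc _ _ _).1 hh).elim h5Y (by decide)
      refine ⟨Y ∪ ({2, 3, 4} : Finset (Fin 6)).image v, c1, c2, Finset.card_le_card (hsub _), ?_,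
        fun hd => absurd hd hnd, Or.inr ?_⟩
      · have l2 : lv21_i (Y ∪ ({2, 3, 4} : Finset (Fin 6)).image v) (v 3) +
            lv21_i (Y ∪ ({2, 3, 4} : Finset (Fin 6)).image v) (v 1) + lv21_i Y (a 2) ≤
            deg G (Y ∪ ({2, 3, 4} : Finset (Fin 6)).image v) (v 2) := lo 2
        have l3 : lv21_i (Y ∪ ({2, 3, 4} : Finset (Fin 6)).image v) (v 4) +
            lv21_i (Y ∪ ({2, 3, 4} : Finset (Fin 6)).image v) (v 2) + lv21_i Y (a 3) ≤
            deg G (Y ∪ ({2, 3, 4} : Finset (Fin 6)).image v) (v 3) := lo 3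
        have l4 : lv21_i (Y ∪ ({2, 3, 4} : Finset (Fin 6)).image v) (v 5) +
            lv21_i (Y ∪ ({2, 3, 4} : Finset (Fin 6)).image v) (v 3) + lv21_i Y (a 4) ≤
            deg G (Y ∪ ({2, 3, 4} : Finset (Fin 6)).image v) (v 4) := lo 4
        rw [lv21_i_mem m3, lv21_i_not m1] at l2
        rw [lv21_i_mem m4, lv21_i_mem m2] at l3
        rw [lv21_i_not m5, lv21_i_mem m3] at l4
        rw [Fin.sum_univ_six, Fin.sum_univ_six, if_neg h1, if_neg h0, if_pos h2, if_neg h4Y,
          if_neg h5Y, if_neg m0, if_neg m1, if_pos m2, if_pos m3, if_pos m4, if_neg m5] at c3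
        rw [lv21_i_mem h2] at u3
        rw [lv21_i_not h1] at u2
        have i3 := lv21_i_le Y (a 3)
        by_cases h3 : v 3 ∈ Y
        · rw [if_pos h3] at c3
          rw [lv21_i_mem h3] at u2
          omega
        · rw [if_neg h3] at c3
          rw [lv21_i_not h3] at u2
          omega
      · have : ({v 0, v 1, v 5} : Finset V) ⊆
            (Fold.r1 v a).U \ (Y ∪ ({2, 3, 4} : Finset (Fin 6)).image v) := by
          intro x hx
          simp only [Finset.mem_insert, Finset.mem_singleton] at hx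
          rw [Finset.mem_sdiff]
          rcases hx with rfl | rfl | rfl
          · exact ⟨hUm 0, m0⟩
          · exact ⟨hUm 1, m1⟩
          · exact ⟨hUm 5, m5⟩
        refine le_trans (le_of_eq ?_) (Finset.card_le_card this)
        exact (Finset.card_eq_three.2 ⟨v 0, v 1, v 5, ne _ _ (by decide), ne _ _ (by decide),
          ne _ _ (by decide), rfl⟩).symm
    · have h3 : v 3 ∉ Y := fun hh => h2 (h32 hh)
      refine lv21_disj h hY ?_ ?_ ?_
      · rw [hU, Finset.disjoint_right]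
        intro x hx
        obtain ⟨j, -, rfl⟩ := Finset.mem_image.1 hx
        fin_cases j
        · exact h0
        · exact h1
        · exact h2
        · exact h3
        · exact h4Y
        · exact h5Y
      · intro x hx
        rw [hπ] at hx
        split_ifs at hx with r1 r2
        · exact absurd hx h1
        · exact absurd hx h2
        · exact hx
      · rw [hU, Finset.card_image_of_injective _ loc.inj]
        simp

end r1

theorem Fold.amb_lift {G : Inc V} {S : Finset V} {f : Fold V} (h : Fold.Amb G S f)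
    (Y : Finset V)
    (hY : Y ⊆ f.S' S) (hB : ∀ v ∈ Y, v ∈ f.Bl → nb (quot G f.π) (f.S' S) v ⊆ Y) :
    ∃ Y', Y' ⊆ S ∧ (∀ v, v ∉ f.U → (v ∈ Y' ↔ v ∈ Y)) ∧ Y.card ≤ Y'.card ∧
      DD G Y' ≤ DD (quot G f.π) Y + 2 ∧
      (Disjoint Y f.U → Y' = Y ∧ DD G Y' ≤ DD (quot G f.π) Y) ∧
      (f.U ⊆ Y' ∨ 3 ≤ (f.U \ Y').card) := by
  cases f with
  | r0 A B W C => exact lv21_r0 h Y hY hB
  | r1 v a => exact lv21_r1 h Y hY hB

end Pool.Agent.Levi3
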