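import Pool.Agent.Levi3.Defs

/-! LV22 : Near -/

namespace Pool.Agent.Levi3

open Matrix Finset

variable {V : Type} [DecidableEq V]

theorem near_mono {K : Inc V} {m n : ℕ} (h : m ≤ n) {x y : V} (hx : Near K m x y) :
    Near K n x y := by
  induction n with
  | zero =>
    obtain rfl : m = 0 := by omega
    exact hx
  | succ n ih =>
    rcases Nat.lt_or_ge n m with h1 | h1
    · obtain rfl : m = n + 1 := by omega
      exact hx
    · exact Or.inl (ih h1)

theorem near_trans {K : Inc V} {m n : ℕ} {x y w : V} (h1 : Near K m x y) (h2 : Near K n y w) :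
    Near K (m + n) x w := by
  induction n generalizing w with
  | zero =>
    have : y = w := h2
    subst this
    exact h1
  | succ n ih =>
    rcases h2 with h2 | ⟨u, h2, h3⟩
    · exact Or.inl (ih h2)
    · exact Or.inr ⟨u, ih h2, h3⟩

theorem near_adj {K : Inc V} {x y : V} (h : K.adj x y) : Near K 1 x y :=
  Or.inr ⟨x, rfl, h⟩

theorem near_symm {K : Inc V} {n : ℕ} {x y : V} (h : Near K n x y) : Near K n y x := by
  induction n generalizing y with
  | zero => exact Eq.symm h
  | succ n ih =>
    rcases h with h | ⟨u, h, h3⟩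
    · exact Or.inl (ih h)
    · have := near_trans (near_adj (K.symm h3)) (ih h)
      exact near_mono (by omega) this

theorem lv22_typ {K : Inc V} {x y z : V} (h1 : K.adj x y) (h2 : K.adj y z) :
    K.typ x = K.typ z := by
  have a1 := K.bip h1
  have a2 := K.bip h2
  rcases h3 : K.typ x with _ | _ <;> rcases h4 : K.typ y with _ | _ <;>
    rcases h5 : K.typ z with _ | _ <;> simp_all

theorem fold_near [Fintype V] {K : Inc V} (hK : C4F K univ) {f : Fold V} (hf : f.Loc K) :
    (∀ x ∈ f.U, Near K 3 f.ctr x) ∧ (∀ x ∈ f.Wk, Near K 1 f.ctr x) ∧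
      (∀ x, Near K 2 (f.π x) x) ∧ f.Bl ⊆ f.U ∧ f.Bl.card ≤ 2 ∧ f.ctr ∈ f.Bl ∧ f.out ∉ f.U ∧
      K.adj f.ctr f.out ∧ 3 ≤ f.U.card ∧ (∀ x ∈ f.U, f.π x ∈ f.U) ∧ (∀ x, x ∉ f.U → f.π x = x) ∧
      (∀ x, f.π (f.π x) = f.π x) ∧ (∀ x ∈ f.Bl, f.π x = x) := by
  cases f with
  | r0 A B W C =>
    have hf' : LocR0 K A B W C := hf
    obtain ⟨hAB, hAC, hBC, hWA, hWB, hWC, honly, hnohex⟩ := hf'
    have hAW : A ≠ W := fun h => K.irr W (h ▸ hWA)
    have hBW : B ≠ W := fun h => K.irr W (h ▸ hWB)
    have hCW : C ≠ W := fun h => K.irr W (h ▸ hWC)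
    refine ⟨?_, ?_, ?_, ?_, ?_, ?_, ?_, ?_, ?_, ?_, ?_, ?_, ?_⟩
    · intro x hx
      simp only [Fold.U, Finset.mem_insert, Finset.mem_singleton] at hx
      rcases hx with rfl | rfl | rfl
      · exact near_mono (by norm_num) (near_adj hWA)
      · exact near_mono (by norm_num) (near_adj hWB)
      · exact near_mono (Nat.zero_le 3) rfl
    · intro x hx
      simp only [Fold.Wk, Fold.ctr, Fold.out, Finset.mem_insert, Finset.mem_singleton] at hx
      rcases hx with rfl | rfl
      · exact near_mono (Nat.zero_le 1) rfl
      · exact near_adj hWC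
    · intro x
      unfold Fold.π
      simp only []
      split_ifs with h
      · subst h
        exact near_trans (near_adj (K.symm hWA)) (near_adj hWB)
      · exact near_mono (Nat.zero_le 2) rfl
    · intro x hx
      simp only [Fold.Bl, Finset.mem_singleton] at hx
      subst hx
      simp [Fold.U]
    · simp [Fold.Bl]
    · simp [Fold.Bl, Fold.ctr]
    · simp only [Fold.U, Fold.out, Finset.mem_insert, Finset.mem_singleton, not_or]
      exact ⟨hAC.symm, hBC.symm, hCW⟩
    · exact hWC
    · simp only [Fold.U]
      rw [Finset.card_insert_of_notMem, Finset.card_insert_of_notMem, Finset.card_singleton]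
      · simpa using hBW
      · simp only [Finset.mem_insert, Finset.mem_singleton, not_or]
        exact ⟨hAB, hAW⟩
    · intro x hx
      unfold Fold.π
      simp only []
      split_ifs with h
      · simp [Fold.U]
      · exact hx
    · intro x hx
      unfold Fold.π
      simp only [Fold.U, Finset.mem_insert, Finset.mem_singleton, not_or] at hx
      simp only []
      rw [if_neg hx.2.1]
    · intro x
      unfold Fold.π
      simp only []
      by_cases h1 : x = B
      · rw [if_pos h1, if_neg hAB]
      · rw [if_neg h1, if_neg h1]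
    · intro x hx
      simp only [Fold.Bl, Finset.mem_singleton] at hx
      subst hx
      unfold Fold.π
      simp only []
      rw [if_neg hBW.symm]
  | r1 v a =>
    have hf' : LocR1 K v a := hf
    obtain ⟨hinj, hv, ha, hne1, hne2, honly, hcn1, hcn2, hch1, hch2⟩ := hf'
    have v01 : K.adj (v 0) (v 1) := hv 0
    have v12 : K.adj (v 1) (v 2) := hv 1
    have v23 : K.adj (v 2) (v 3) := hv 2
    have v34 : K.adj (v 3) (v 4) := hv 3
    have v45 : K.adj (v 4) (v 5) := hv 4
    have v50 : K.adj (v 5) (v 0) := hv 5
    have hne : ∀ i j : Fin 6, i ≠ j → v i ≠ v j := fun i j h h' => h (hinj h')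
    refine ⟨?_, ?_, ?_, ?_, ?_, ?_, ?_, ?_, ?_, ?_, ?_, ?_, ?_⟩
    · intro x hx
      simp only [Fold.U, Finset.mem_image, Finset.mem_univ, true_and] at hx
      obtain ⟨i, rfl⟩ := hx
      change Near K 3 (v 0) (v i)
      have n1 : Near K 1 (v 0) (v 1) := near_adj v01
      have n2 : Near K 2 (v 0) (v 2) := near_trans n1 (near_adj v12)
      have n3 : Near K 3 (v 0) (v 3) := near_trans n2 (near_adj v23)
      have n5 : Near K 1 (v 0) (v 5) := near_adj (K.symm v50)
      have n4 : Near K 2 (v 0) (v 4) := near_trans n5 (near_adj (K.symm v45))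
      fin_cases i
      · exact near_mono (Nat.zero_le 3) rfl
      · exact near_mono (by norm_num) n1
      · exact near_mono (by norm_num) n2
      · exact n3
      · exact near_mono (by norm_num) n4
      · exact near_mono (by norm_num) n5
    · intro x hx
      simp only [Fold.Wk, Fold.ctr, Fold.out, Finset.mem_insert, Finset.mem_singleton] at hx
      rcases hx with rfl | rfl
      · exact near_mono (Nat.zero_le 1) rfl
      · exact near_adj (ha 0)
    · intro x
      unfold Fold.π
      simp only []
      split_ifs with h1 h2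
      · subst h1
        exact near_trans (near_adj (K.symm v01)) (near_adj (K.symm v50))
      · subst h2
        exact near_trans (near_adj v23) (near_adj v34)
      · exact near_mono (Nat.zero_le 2) rfl
    · intro x hx
      simp only [Fold.Bl, Finset.mem_insert, Finset.mem_singleton] at hx
      simp only [Fold.U, Finset.mem_image, Finset.mem_univ, true_and]
      rcases hx with rfl | rfl
      · exact ⟨0, rfl⟩
      · exact ⟨3, rfl⟩
    · exact Finset.card_le_two
    · simp [Fold.Bl, Fold.ctr]
    · intro hx
      simp only [Fold.U, Fold.out, Finset.mem_image, Finset.mem_univ, true_and] at hx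
      obtain ⟨i, hi⟩ := hx
      have hadj : K.adj (v 0) (v i) := by rw [hi]; exact ha 0
      have hb := K.bip hadj
      have n1 := hne1 0
      have n2 := hne2 0
      fin_cases i
      · exact hb rfl
      · exact n1 hi.symm
      · exact hb (lv22_typ v01 v12)
      · rcases hK (v 0) (mem_univ _) (v 1) (mem_univ _) (v 2) (mem_univ _) (v 3) (mem_univ _)
          v01 v12 v23 (K.symm hadj) with h | h
        · exact hne 0 2 (by decide) h
        · exact hne 1 3 (by decide) h
      · exact hb ((lv22_typ v01 v12).trans (lv22_typ v23 v34))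
      · exact n2 hi.symm
    · exact ha 0
    · simp only [Fold.U]
      rw [Finset.card_image_of_injective _ hinj]
      simp
    · intro x hx
      unfold Fold.π
      simp only []
      split_ifs with h1 h2
      · simp only [Fold.U, Finset.mem_image, Finset.mem_univ, true_and]
        exact ⟨1, rfl⟩
      · simp only [Fold.U, Finset.mem_image, Finset.mem_univ, true_and]
        exact ⟨2, rfl⟩
      · exact hx
    · intro x hx
      unfold Fold.π
      simp only [Fold.U, Finset.mem_image, Finset.mem_univ, true_and, not_exists] at hx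
      simp only []
      rw [if_neg (fun h => hx 5 h.symm), if_neg (fun h => hx 4 h.symm)]
    · intro x
      have e1 : (Fold.r1 v a).π (v 1) = v 1 := by
        unfold Fold.π
        simp only []
        rw [if_neg (hne 1 5 (by decide)), if_neg (hne 1 4 (by decide))]
      have e2 : (Fold.r1 v a).π (v 2) = v 2 := by
        unfold Fold.π
        simp only []
        rw [if_neg (hne 2 5 (by decide)), if_neg (hne 2 4 (by decide))]
      by_cases h1 : x = v 5
      · have : (Fold.r1 v a).π x = v 1 := by
          unfold Fold.π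
          simp only []
          rw [if_pos h1]
        rw [this, e1]
      · by_cases h2 : x = v 4
        · have : (Fold.r1 v a).π x = v 2 := by
            unfold Fold.π
            simp only []
            rw [if_neg h1, if_pos h2]
          rw [this, e2]
        · have : (Fold.r1 v a).π x = x := by
            unfold Fold.π
            simp only []
            rw [if_neg h1, if_neg h2]
          rw [this, this]
    · intro x hx
      simp only [Fold.Bl, Finset.mem_insert, Finset.mem_singleton] at hx
      unfold Fold.π
      simp only []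
      rcases hx with rfl | rfl
      · rw [if_neg (hne 0 5 (by decide)), if_neg (hne 0 4 (by decide))]
      · rw [if_neg (hne 3 5 (by decide)), if_neg (hne 3 4 (by decide))]

theorem brk_near [Fintype V] {K : Inc V} (hK : C4F K univ) {b : Brk V} (hb : b.Ok K) :
    (∀ x ∈ b.U, Near K 3 b.ctr x) ∧ (∀ x ∈ b.Wk, Near K 1 b.ctr x) ∧
      (∀ x, Near K 2 (b.π x) x) ∧ b.Bl ⊆ b.U ∧ b.out ∉ b.U ∧ K.adj b.ctr b.out ∧
      (∀ x ∈ b.U, b.π x ∈ b.U) ∧ (∀ x, x ∉ b.U → b.π x = x) ∧
      (∀ x, b.π (b.π x) = b.π x) ∧ (b.U.Nonempty → 3 ≤ b.U.card) := by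
  cases b with
  | ac a c =>
    have hadj : K.adj a c := hb
    refine ⟨?_, ?_, ?_, ?_, ?_, ?_, ?_, ?_, ?_, ?_⟩
    · intro x hx
      exact absurd hx (Finset.notMem_empty x)
    · intro x hx
      simp only [Brk.Wk, Brk.ctr, Brk.out, Finset.mem_insert, Finset.mem_singleton] at hx
      rcases hx with rfl | rfl
      · exact near_mono (Nat.zero_le 1) rfl
      · exact near_adj hadj
    · intro x
      exact near_mono (Nat.zero_le 2) rfl
    · exact Finset.empty_subset _
    · exact Finset.notMem_empty _
    · exact hadj
    · intro x hx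
      exact hx
    · intro x _
      rfl
    · intro x
      rfl
    · rintro ⟨x, hx⟩
      exact absurd hx (Finset.notMem_empty x)
  | fd f =>
    have h := fold_near hK (f := f) hb
    obtain ⟨h1, h2, h3, h4, h5, h6, h7, h8, h9, h10, h11, h12, h13⟩ := h
    exact ⟨h1, h2, h3, h4, h7, h8, h10, h11, h12, fun _ => h9⟩

end Pool.Agent.Levi3
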