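import Pool.Agent.Levi3.Defs
import Pool.Agent.Levi3.LV14
import Pool.Agent.Levi3.LV19
import Pool.Agent.Levi3.LV20
import Pool.Agent.Levi3.LV21
import Pool.Agent.Levi3.LV22

/-! LV23 : Brk -/

namespace Pool.Agent.Levi3

open Matrix Finset

variable {V : Type} [DecidableEq V]

variable [Fintype V]

theorem lv23_amb {K : Inc V} (hK : C5 K) {f : Fold V} (hf : f.Loc K) : Fold.Amb K univ f :=
  ⟨hf, fun _ _ _ => ⟨mem_univ _, mem_univ _⟩, hK.c4f⟩

theorem lv23_mem_S {b : Brk V} {x : V} : x ∈ b.S ↔ b.π x = x := by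
  simp [Brk.S]

theorem lv23_S' {f : Fold V} : f.S' univ = (Brk.fd f).S := by
  ext x
  simp [Brk.S, Fold.S', Brk.π]

theorem brk_mem {K : Inc V} {b : Brk V} (hK : C5 K) (hb : b.Ok K) :
    ∀ x y, (b.G K).adj x y → x ∈ b.S ∧ y ∈ b.S := by
  cases b with
  | ac a c =>
    intro x y _
    rw [lv23_mem_S, lv23_mem_S]
    exact ⟨rfl, rfl⟩
  | fd f =>
    intro x y h
    have := Fold.amb_mem (lv23_amb hK hb) x y h
    rwa [lv23_S'] at this

theorem brk_c4f {K : Inc V} {b : Brk V} (hK : C5 K) (hb : b.Ok K) : C4F (b.G K) b.S := by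
  cases b with
  | ac a c =>
    intro x _ y _ u _ v _ h1 h2 h3 h4
    exact hK.c4f x (mem_univ _) y (mem_univ _) u (mem_univ _) v (mem_univ _) h1.1 h2.1 h3.1 h4.1
  | fd f =>
    have := Fold.amb_c4f (lv23_amb hK hb)
    rwa [lv23_S'] at this

theorem brk_one {K : Inc V} {b : Brk V} (hK : C5 K) (hb : b.Ok K) :
    ∀ u, u ∉ b.U → ∀ x ∈ b.U, ∀ y ∈ b.U, K.adj u x → K.adj u y → x = y := by
  cases b with
  | ac a c =>
    intro u _ x hx
    exact absurd hx (notMem_empty _)
  | fd f => exact Fold.amb_one (lv23_amb hK hb)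

theorem brk_ord {K : Inc V} {b : Brk V} (hK : C5 K) (hb : b.Ok K) :
    ∀ w, w ∉ b.U → ∀ y, (b.G K).adj w y → ∃ x, K.adj w x ∧ b.π x = y := by
  cases b with
  | ac a c =>
    intro w _ y h
    exact ⟨y, h.1, rfl⟩
  | fd f => exact Fold.amb_ord (lv23_amb hK hb)

theorem brk_agree {K : Inc V} {b : Brk V} (hK : C5 K) (hb : b.Ok K) :
    ∀ x y, x ∉ b.U → y ∉ b.U → x ∉ b.Wk → ((b.G K).adj x y ↔ K.adj x y) := by
  cases b with
  | ac a c =>
    intro x y _ _ hx
    simp only [Brk.Wk, Brk.ctr, Brk.out, mem_insert, mem_singleton, not_or] at hx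
    constructor
    · exact fun h => h.1
    · exact fun h => ⟨h, fun h' => hx.1 h'.1, fun h' => hx.2 h'.1⟩
  | fd f =>
    intro x y hx hy _
    exact Fold.amb_agree (lv23_amb hK hb) x y hx hy

theorem brk_bl_deg {K : Inc V} {b : Brk V} (hK : C5 K) (hb : b.Ok K) :
    ∀ v ∈ b.Bl, deg (b.G K) b.S v ≤ 2 := by
  cases b with
  | ac a c =>
    intro v hv
    exact absurd hv (notMem_empty _)
  | fd f =>
    have := Fold.amb_bl_deg (lv23_amb hK hb)
    rwa [lv23_S'] at this

theorem brk_weak {K : Inc V} {b : Brk V} (hK : C5 K) (hb : b.Ok K) (Y : Finset V)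
    (hY : Y ⊆ b.S) (hW : ∃ v ∈ Y, v ∈ b.Wk) :
    ∃ v ∈ Y, v ∈ b.Wk ∧ deg (b.G K) Y v ≤ 2 := by
  cases b with
  | ac a c =>
    obtain ⟨v, hv, hvW⟩ := hW
    refine ⟨v, hv, hvW, ?_⟩
    have hac : K.adj a c := hb
    have key : ∀ u : V, K.adj v u → (∀ y, (delEdge K a c).adj v y → y ≠ u) →
        deg (delEdge K a c) Y v ≤ 2 := by
      intro u hu hy
      have h1 : nb (delEdge K a c) Y v ⊆ (nb K univ v).erase u := by
        intro y hy'
        rw [mem_nb] at hy'
        rw [mem_erase, mem_nb]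
        exact ⟨hy y hy'.2, mem_univ _, hy'.2.1⟩
      have h2 := card_le_card h1
      rw [card_erase_of_mem (by rw [mem_nb]; exact ⟨mem_univ _, hu⟩)] at h2
      have h3 := hK.cubic v
      unfold deg at h3 ⊢
      omega
    simp only [Brk.Wk, Brk.ctr, Brk.out, mem_insert, mem_singleton] at hvW
    rcases hvW with rfl | rfl
    · refine key c hac ?_
      rintro y hy rfl
      exact hy.2.1 ⟨rfl, rfl⟩
    · refine key a (K.symm hac) ?_
      rintro y hy rfl
      exact hy.2.2 ⟨rfl, rfl⟩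
  | fd f =>
    refine Fold.amb_weak (lv23_amb hK hb) (hK.cubic _).le Y ?_ hW
    rwa [lv23_S']

theorem brk_lift {K : Inc V} {b : Brk V} (hK : C5 K) (hb : b.Ok K) (Y : Finset V)
    (hY : Y ⊆ b.S) (hB : ∀ v ∈ Y, v ∈ b.Bl → nb (b.G K) b.S v ⊆ Y) :
    ∃ Y', (∀ v, v ∉ b.U → (v ∈ Y' ↔ v ∈ Y)) ∧ Y.card ≤ Y'.card ∧
      (bd K Y' : ℤ) ≤ DD (b.G K) Y + b.κ ∧
      (Disjoint Y b.U → Y' = Y ∧ (bd K Y' : ℤ) ≤ DD (b.G K) Y) ∧
      (b.U ⊆ Y' ∨ 3 ≤ (b.U \ Y').card) := by
  cases b with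
  | ac a c =>
    have h1 : (bd K Y : ℤ) ≤ DD (delEdge K a c) Y := by
      rw [bd_eq_DD K hK.cubic]
      unfold DD
      refine sum_le_sum fun v _ => ?_
      have h2 : deg (delEdge K a c) Y v ≤ deg K Y v := by
        refine card_le_card fun u hu => ?_
        rw [mem_nb] at hu ⊢
        exact ⟨hu.1, hu.2.1⟩
      have h3 : (deg (delEdge K a c) Y v : ℤ) ≤ deg K Y v := by exact_mod_cast h2
      linarith
    refine ⟨Y, fun _ _ => Iff.rfl, le_rfl, ?_, fun _ => ⟨rfl, h1⟩, Or.inl (empty_subset _)⟩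
    simp only [Brk.κ, Nat.cast_zero, add_zero]
    exact h1
  | fd f =>
    have hY' : Y ⊆ f.S' univ := by
      rw [lv23_S']
      exact hY
    have hB' : ∀ v ∈ Y, v ∈ f.Bl → nb (quot K f.π) (f.S' univ) v ⊆ Y := by
      rw [lv23_S']
      exact hB
    obtain ⟨Y', _, h2, h3, h4, h5, h6⟩ := Fold.amb_lift (lv23_amb hK hb) Y hY' hB'
    refine ⟨Y', h2, h3, ?_, ?_, h6⟩
    · rw [bd_eq_DD K hK.cubic]
      exact h4
    · intro hd
      obtain ⟨g1, g2⟩ := h5 hd
      refine ⟨g1, ?_⟩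
      rw [bd_eq_DD K hK.cubic]
      exact g2

/-- far from the break nothing changes -/
theorem lv23_far {K : Inc V} {b : Brk V} (hK : C5 K) (hb : b.Ok K) {x : V}
    (hx : ¬ Near K 4 b.ctr x) (y : V) : (b.G K).adj x y ↔ K.adj x y := by
  obtain ⟨n1, n2, _, _, _, _, _, n8, _, _⟩ := brk_near hK.c4f hb
  have hxU : x ∉ b.U := fun h => hx (near_mono (by norm_num) (n1 x h))
  have hxW : x ∉ b.Wk := fun h => hx (near_mono (by norm_num) (n2 x h))
  have hnU : ∀ u, K.adj x u → u ∉ b.U := fun u hu h =>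
    hx (near_trans (n1 u h) (near_adj (K.symm hu)))
  constructor
  · intro h
    obtain ⟨x', h1, h2⟩ := brk_ord hK hb x hxU y h
    rw [n8 x' (hnU x' h1)] at h2
    rw [← h2]
    exact h1
  · intro h
    exact (brk_agree hK hb x y hxU (hnU y h) hxW).2 h

theorem brk_amb {K : Inc V} {b : Brk V} (hK : C5 K) (hb : b.Ok K) {f : Fold V} (hf : f.Loc K)
    (hfar : ¬ Near K 30 b.ctr f.ctr) : Fold.Amb (b.G K) b.S f := by
  refine ⟨?_, brk_mem hK hb, brk_c4f hK hb⟩
  obtain ⟨n1, _⟩ := fold_near hK.c4f hf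
  -- vertices near `f.ctr` are far from `b.ctr`
  have far : ∀ x, Near K 10 f.ctr x → ∀ y, (b.G K).adj x y ↔ K.adj x y := by
    intro x hx y
    refine lv23_far hK hb (fun h => hfar ?_) y
    exact near_mono (by norm_num) (near_trans h (near_symm hx))
  have step : ∀ {m : ℕ} {x y : V}, Near K m f.ctr x → K.adj x y → Near K (m + 1) f.ctr y :=
    fun h h' => near_trans h (near_adj h')
  cases f with
  | r0 A B W C =>
    have hl : LocR0 K A B W C := hf
    have hW : Near K 0 (Fold.r0 A B W C).ctr W := rfl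
    have hA := step hW hl.adjA
    refine ⟨hl.hAB, hl.hAC, hl.hBC, ?_, ?_, ?_, ?_, ?_⟩
    · exact (far W (near_mono (by norm_num) hW) A).2 hl.adjA
    · exact (far W (near_mono (by norm_num) hW) B).2 hl.adjB
    · exact (far W (near_mono (by norm_num) hW) C).2 hl.adjC
    · intro x hx
      exact hl.only x ((far W (near_mono (by norm_num) hW) x).1 hx)
    · intro x u y h1 h2 h3 h4
      have h1' := (far A (near_mono (by norm_num) hA) x).1 h1
      have hx := step hA h1'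
      have h2' := (far x (near_mono (by norm_num) hx) u).1 h2
      have hu := step hx h2'
      have h3' := (far u (near_mono (by norm_num) hu) y).1 h3
      have hy := step hu h3'
      have h4' := (far y (near_mono (by norm_num) hy) B).1 h4
      exact hl.nohex x u y h1' h2' h3' h4'
  | r1 v a =>
    have hl : LocR1 K v a := hf
    have hv : ∀ i, Near K 3 (Fold.r1 v a).ctr (v i) := fun i =>
      n1 (v i) (mem_image_of_mem v (mem_univ i))
    have ha : ∀ i, Near K 4 (Fold.r1 v a).ctr (a i) := fun i => step (hv i) (hl.ha i)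
    have fv : ∀ i y, (b.G K).adj (v i) y ↔ K.adj (v i) y := fun i y =>
      far (v i) (near_mono (by norm_num) (hv i)) y
    have fa : ∀ i y, (b.G K).adj (a i) y ↔ K.adj (a i) y := fun i y =>
      far (a i) (near_mono (by norm_num) (ha i)) y
    refine ⟨hl.inj, ?_, ?_, hl.ne1, hl.ne2, ?_, ?_, ?_, ?_, ?_⟩
    · intro i
      rw [fv]
      exact hl.hv i
    · intro i
      rw [fv]
      exact hl.ha i
    · intro i x hx
      rw [fv] at hx
      exact hl.only i x hx
    · intro u hu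
      rw [fa, fa] at hu
      exact hl.cn1 u hu
    · intro u hu
      rw [fa, fa] at hu
      exact hl.cn2 u hu
    · rw [fa]
      exact hl.ch1
    · rw [fa]
      exact hl.ch2

end Pool.Agent.Levi3
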