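import Pool.Agent.Levi3.Defs
import Pool.Agent.Levi3.LV14
import Pool.Agent.Levi3.LV22
import Pool.Agent.Levi3.LV23

/-! LV24 : Cut1 -/

namespace Pool.Agent.Levi3

open Matrix Finset

variable {V : Type} [DecidableEq V]

theorem lv24_DD_le {G : Inc V} {T P : Finset V} (hP : P ⊆ T)
    (h2 : ∀ v ∈ T, 2 ≤ deg G T v) (h3 : ∀ v ∈ T, v ∉ P → 3 ≤ deg G T v) :
    DD G T ≤ P.card := by
  unfold DD
  rw [← sum_sdiff hP]
  have e1 : ∑ v ∈ T \ P, (3 - (deg G T v : ℤ)) ≤ 0 := by
    refine sum_nonpos fun v hv => ?_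
    rw [mem_sdiff] at hv
    have := h3 v hv.1 hv.2
    have : (3 : ℤ) ≤ deg G T v := by exact_mod_cast this
    linarith
  have e2 : ∑ v ∈ P, (3 - (deg G T v : ℤ)) ≤ ∑ _v ∈ P, (1 : ℤ) := by
    refine sum_le_sum fun v hv => ?_
    have := h2 v (hP hv)
    have : (2 : ℤ) ≤ deg G T v := by exact_mod_cast this
    linarith
  rw [sum_const, nsmul_eq_mul, mul_one] at e2
  linarith

theorem lv24_card {G : Inc V} {T : Finset V} (hne : T.Nonempty)
    (h2 : ∀ v ∈ T, 2 ≤ deg G T v) : 3 ≤ T.card := by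
  obtain ⟨v, hv⟩ := hne
  have h1 : nb G T v ⊆ T.erase v := by
    intro u hu
    rw [mem_nb] at hu
    rw [mem_erase]
    refine ⟨?_, hu.1⟩
    rintro rfl
    exact G.irr u hu.2
  have h3 := card_le_card h1
  rw [card_erase_of_mem hv] at h3
  have h4 := h2 v hv
  unfold deg at h4
  omega

theorem cut1 [Fintype V] (K : Inc V) (hK : C5 K) (b : Brk V) (hb : b.Ok K) (T P : Finset V)
    (hT : T ⊆ b.S) (hne : T.Nonempty) (hP : P ⊆ T) (hPc : P.card ≤ 2)
    (h2 : ∀ v ∈ T, 2 ≤ deg (b.G K) T v) (h3 : ∀ v ∈ T, v ∉ P → 3 ≤ deg (b.G K) T v) :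
    ∃ p ∈ P, ∃ w ∈ b.Wk, p = w ∨ K.adj p w := by
  obtain ⟨_, _, _, _, houtU, _, _, hπ, _, _⟩ := brk_near hK.c4f hb
  have hB : ∀ v ∈ T, v ∈ b.Bl → nb (b.G K) b.S v ⊆ T := by
    intro v hv hvB
    have e1 := brk_bl_deg hK hb v hvB
    have e2 := h2 v hv
    have e3 : nb (b.G K) T v = nb (b.G K) b.S v :=
      eq_of_subset_of_card_le (nb_mono hT v) (by unfold deg at e1 e2; omega)
    rw [← e3]
    intro u hu
    rw [mem_nb] at hu
    exact hu.1
  obtain ⟨Y', hY1, hY2, hY3, _, hY5⟩ := brk_lift hK hb T hT hB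
  have hTc := lv24_card hne h2
  have hDD := lv24_DD_le hP h2 h3
  have hκ : b.κ ≤ 2 := by
    cases b <;> simp [Brk.κ]
  have hbd : bd K Y' ≤ 4 := by
    have e1 : (b.κ : ℤ) ≤ 2 := by exact_mod_cast hκ
    have e2 : (P.card : ℤ) ≤ 2 := by exact_mod_cast hPc
    have e3 : (bd K Y' : ℤ) ≤ 4 := by linarith
    exact_mod_cast e3
  have hF : Y'ᶜ.card ≤ 2 := by
    rcases Nat.lt_or_ge (bd K Y') 3 with h | h
    · rcases hK.c2 Y' (by omega) with h' | h'
      · rw [h'] at hY2
        simp at hY2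
        rw [hY2] at hTc
        simp at hTc
      · rw [h']
        simp
    · rcases (by omega : bd K Y' = 3 ∨ bd K Y' = 4) with h' | h'
      · rcases hK.c3 Y' h' with h'' | h''
        · omega
        · omega
      · rcases hK.c4 Y' h' with h'' | h''
        · omega
        · omega
  have hU : b.U ⊆ Y' := by
    rcases hY5 with h | h
    · exact h
    · have h1 : b.U \ Y' ⊆ Y'ᶜ := by
        intro x hx
        rw [mem_sdiff] at hx
        rw [mem_compl]
        exact hx.2
      have := card_le_card h1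
      omega
  by_cases ho : b.out ∈ Y'
  · have hoT : b.out ∈ T := (hY1 b.out houtU).1 ho
    have hoW : b.out ∈ b.Wk := by simp [Brk.Wk]
    obtain ⟨v, hv, hvW, hdeg⟩ := brk_weak hK hb T hT ⟨b.out, hoT, hoW⟩
    refine ⟨v, ?_, v, hvW, Or.inl rfl⟩
    by_contra hvP
    have := h3 v hv hvP
    omega
  · have hN : (nb K univ b.out).card = 3 := hK.cubic b.out
    -- neighbours in the complement
    have hN1 : ((nb K univ b.out).filter fun x => x ∉ Y').card ≤ 1 := by
      have h1 : ((nb K univ b.out).filter fun x => x ∉ Y') ⊆ (Y'ᶜ).erase b.out := by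
        intro x hx
        rw [mem_filter, mem_nb] at hx
        rw [mem_erase, mem_compl]
        refine ⟨?_, hx.2⟩
        rintro rfl
        exact K.irr _ hx.1.2
      have h4 := card_le_card h1
      rw [card_erase_of_mem (mem_compl.2 ho)] at h4
      omega
    have hN2 : ((nb K univ b.out).filter fun x => x ∈ b.U).card ≤ 1 := by
      rw [card_le_one]
      intro x hx y hy
      rw [mem_filter, mem_nb] at hx hy
      exact brk_one hK hb b.out houtU x hx.2 y hy.2 hx.1.2 hy.1.2
    obtain ⟨w, hw, hw1, hw2⟩ : ∃ w ∈ nb K univ b.out, w ∈ Y' ∧ w ∉ b.U := by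
      by_contra hcon
      push Not at hcon
      have h1 : nb K univ b.out ⊆ ((nb K univ b.out).filter fun x => x ∉ Y') ∪
          ((nb K univ b.out).filter fun x => x ∈ b.U) := by
        intro x hx
        rw [mem_union, mem_filter, mem_filter]
        by_cases hxY : x ∈ Y'
        · exact Or.inr ⟨hx, hcon x hx hxY⟩
        · exact Or.inl ⟨hx, hxY⟩
      have h4 := (card_le_card h1).trans (card_union_le _ _)
      omega
    have hwT : w ∈ T := (hY1 w hw2).1 hw1
    have hadj : K.adj w b.out := by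
      rw [mem_nb] at hw
      exact K.symm hw.2
    refine ⟨w, ?_, b.out, by simp [Brk.Wk], Or.inr hadj⟩
    by_contra hwP
    have h4 := h3 w hwT hwP
    have h5 : nb (b.G K) T w ⊆ ((nb K univ w).erase b.out).image b.π := by
      intro y hy
      rw [mem_nb] at hy
      obtain ⟨x, hx, hxy⟩ := brk_ord hK hb w hw2 y hy.2
      rw [mem_image]
      refine ⟨x, ?_, hxy⟩
      rw [mem_erase, mem_nb]
      refine ⟨?_, mem_univ _, hx⟩
      rintro rfl
      rw [hπ _ houtU] at hxy
      apply ho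
      rw [hY1 _ houtU, hxy]
      exact hy.1
    have h6 := (card_le_card h5).trans card_image_le
    rw [card_erase_of_mem (by rw [mem_nb]; exact ⟨mem_univ _, hadj⟩)] at h6
    have h7 := hK.cubic w
    unfold deg at h4 h7
    omega

end Pool.Agent.Levi3
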