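import Pool.Agent.Levi3.Defs
import Pool.Agent.Levi3.LV14
import Pool.Agent.Levi3.LV19
import Pool.Agent.Levi3.LV20
import Pool.Agent.Levi3.LV21
import Pool.Agent.Levi3.LV22
import Pool.Agent.Levi3.LV23

/-! LV25 : Cut12 -/

namespace Pool.Agent.Levi3

open Matrix Finset

variable {V : Type} [DecidableEq V]

theorem lv25_adj_near [Fintype V] {K : Inc V} (hK : C5 K) {b : Brk V} (hb : b.Ok K) {x y : V}
    (h : (b.G K).adj x y) : Near K 5 x y := by
  have hn := (brk_near hK.c4f hb).2.2.1
  cases b with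
  | ac a c => exact near_mono (by norm_num) (near_adj h.1)
  | fd f =>
    obtain ⟨_, _, _, x', y', hx, hy, hadj⟩ := h
    have h1 : Near K 2 (f.π x') x' := hn x'
    have h2 : Near K 2 (f.π y') y' := hn y'
    rw [hx] at h1
    rw [hy] at h2
    exact near_trans (near_trans h1 (near_adj hadj)) (near_symm h2)

/-- if the `b.G`-neighbours of `v` are not in the region of `f`, the neighbours of `v` in the
quotient are neighbours in `b.G`. -/
theorem lv25_nbr {G : Inc V} {S : Finset V} {f : Fold V} (h : Fold.Amb G S f) {v y : V}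
    (hfix : ∀ x, x ∉ f.U → f.π x = x)
    (hv : v ∉ f.U) (hx : ∀ x, G.adj v x → x ∉ f.U) (hy : (quot G f.π).adj v y) : G.adj v y := by
  obtain ⟨x, h1, h2⟩ := Fold.amb_ord h v hv y hy
  rw [hfix x (hx x h1)] at h2
  rwa [← h2]

theorem lv25_DD_le {G : Inc V} {Y P : Finset V} (hP : P ⊆ Y)
    (h2 : ∀ v ∈ Y, 2 ≤ deg G Y v) (h3 : ∀ v ∈ Y, v ∉ P → 3 ≤ deg G Y v) :
    DD G Y ≤ P.card := by
  unfold DD
  rw [← Finset.sum_sdiff hP]
  have e1 : ∑ v ∈ Y \ P, (3 - (deg G Y v : ℤ)) ≤ 0 := by
    apply Finset.sum_nonpos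
    intro v hv
    rw [Finset.mem_sdiff] at hv
    have := h3 v hv.1 hv.2
    omega
  have e2 : ∑ v ∈ P, (3 - (deg G Y v : ℤ)) ≤ ∑ v ∈ P, (1 : ℤ) := by
    apply Finset.sum_le_sum
    intro v hv
    have := h2 v (hP hv)
    omega
  have e3 : ∑ v ∈ P, (1 : ℤ) = P.card := by simp
  rw [e3] at e2
  linarith

omit [DecidableEq V] in
theorem lv25_mem_S' {f : Fold V} {S : Finset V} {x : V} : x ∈ f.S' S ↔ x ∈ S ∧ f.π x = x := by
  simp [Fold.S']

theorem lv25_card3 {G : Inc V} {Y : Finset V} (hne : Y.Nonempty)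
    (h2 : ∀ v ∈ Y, 2 ≤ deg G Y v) : 3 ≤ Y.card := by
  obtain ⟨v, hv⟩ := hne
  have h := h2 v hv
  have hsub : insert v (nb G Y v) ⊆ Y := by
    intro x hx
    rw [Finset.mem_insert] at hx
    rcases hx with rfl | hx
    · exact hv
    · exact (mem_nb.1 hx).1
  have hni : v ∉ nb G Y v := fun h => G.irr v (mem_nb.1 h).2
  have := Finset.card_le_card hsub
  rw [Finset.card_insert_of_notMem hni] at this
  unfold deg at h
  omega

theorem cut12 [Fintype V] (K : Inc V) (hK : C5 K) (b : Brk V) (hb : b.Ok K) (f : Fold V)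
    (hf : f.Loc K)
    (hfar : ¬ Near K 60 b.ctr f.ctr) (Y P : Finset V)
    (hY : Y ⊆ f.S' b.S) (hne : Y.Nonempty) (hP : P ⊆ Y) (hPc : P.card ≤ 2)
    (h2 : ∀ v ∈ Y, 2 ≤ deg (quot (b.G K) f.π) Y v)
    (h3 : ∀ v ∈ Y, v ∉ P → 3 ≤ deg (quot (b.G K) f.π) Y v)
    (hD : DD (quot (b.G K) f.π) Y ≤ 0 ∨ b.κ = 0 ∨ Disjoint Y b.U ∨ Disjoint Y f.U) :
    (∃ p ∈ P, p ∈ b.Wk) ∧ (∃ p ∈ P, p ∈ f.Wk) := by
  classical
  obtain ⟨bU, bWk, bπ, bBl, bout, badj, bπU, bfix, bidem, bU3⟩ := brk_near hK.c4f hb
  obtain ⟨fU, fWk, fπ, fBl, fBl2, fctr, fout, fadj, fU3, fπU, ffix, fidem, fBlfix⟩ :=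
    fold_near hK.c4f hf
  -- distance arguments
  have far : ∀ (x : V) (m n : ℕ), Near K m b.ctr x → Near K n f.ctr x → m + n ≤ 60 → False := by
    intro x m n h1 h2 hmn
    exact hfar (near_mono hmn (near_trans h1 (near_symm h2)))
  have hamb : Fold.Amb (b.G K) b.S f :=
    brk_amb hK hb hf (fun h => hfar (near_mono (by norm_num) h))
  have hambK : Fold.Amb K univ f := ⟨hf, fun x y _ => ⟨mem_univ _, mem_univ _⟩, hK.c4f⟩
  have hdisj : ∀ x, x ∈ b.U → x ∉ f.U := fun x h1 h2 =>
    far x 3 3 (bU x h1) (fU x h2) (by norm_num)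
  -- neighbours of vertices near `b`
  have hnearb : ∀ v n, Near K n b.ctr v → n ≤ 40 → v ∉ f.U := fun v n h hn hv =>
    far v n 3 h (fU v hv) (by omega)
  have hnbr : ∀ v, Near K 30 b.ctr v → ∀ y, (quot (b.G K) f.π).adj v y → (b.G K).adj v y := by
    intro v hv y hy
    refine lv25_nbr hamb ffix (hnearb v 30 hv (by norm_num)) (fun x hx => ?_) hy
    exact hnearb x 35 (near_trans hv (lv25_adj_near hK hb hx)) (by norm_num)
  have hDD : DD (quot (b.G K) f.π) Y ≤ 2 := by
    have := lv25_DD_le hP h2 h3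
    have : (P.card : ℤ) ≤ 2 := by exact_mod_cast hPc
    linarith
  have hYS : Y ⊆ b.S := fun v hv => (lv25_mem_S'.1 (hY hv)).1
  have hY3 : 3 ≤ Y.card := lv25_card3 hne h2
  -- lift over `f`
  have hBf : ∀ v ∈ Y, v ∈ f.Bl → nb (quot (b.G K) f.π) (f.S' b.S) v ⊆ Y := by
    intro v hv hvB
    have h4 := Fold.amb_bl_deg hamb v hvB
    have h5 := h2 v hv
    have hsub : nb (quot (b.G K) f.π) Y v ⊆ nb (quot (b.G K) f.π) (f.S' b.S) v := nb_mono hY v
    have heq := Finset.eq_of_subset_of_card_le hsub (by unfold deg at h4 h5; omega)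
    rw [← heq]
    intro u hu
    exact (mem_nb.1 hu).1
  obtain ⟨Y1, hY1S, hY1, hY1c, hY1D, hY1d, hY1U⟩ := Fold.amb_lift hamb Y hY hBf
  -- lift over `b`
  have hBb : ∀ v ∈ Y1, v ∈ b.Bl → nb (b.G K) b.S v ⊆ Y1 := by
    intro v hv hvB
    have hvU := bBl hvB
    have hvn : Near K 3 b.ctr v := bU v hvU
    have hvf : v ∉ f.U := hdisj v hvU
    have hvY : v ∈ Y := (hY1 v hvf).1 hv
    have h4 := brk_bl_deg hK hb v hvB
    have h5 := h2 v hvY
    have hsub : nb (quot (b.G K) f.π) Y v ⊆ nb (b.G K) b.S v := by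
      intro y hy
      rw [mem_nb] at hy ⊢
      exact ⟨hYS hy.1, hnbr v (near_mono (by norm_num) hvn) y hy.2⟩
    have heq := Finset.eq_of_subset_of_card_le hsub (by unfold deg at h4 h5; omega)
    rw [← heq]
    intro u hu
    rw [mem_nb] at hu
    have hadj : (b.G K).adj v u := hnbr v (near_mono (by norm_num) hvn) u hu.2
    have : u ∉ f.U := hnearb u 8 (near_trans hvn (lv25_adj_near hK hb hadj)) (by norm_num)
    exact (hY1 u this).2 hu.1
  obtain ⟨Y2, hY2, hY2c, hY2D, hY2d, hY2U⟩ := brk_lift hK hb Y1 hY1S hBb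
  have hκ : b.κ ≤ 2 := by cases b <;> simp [Brk.κ]
  have hbd : bd K Y2 ≤ 4 := by
    have : (bd K Y2 : ℤ) ≤ 4 := by
      have hκ' : (b.κ : ℤ) ≤ 2 := by exact_mod_cast hκ
      rcases hD with hD | hD | hD | hD
      · linarith
      · rw [hD] at hY2D
        push_cast at hY2D
        linarith
      · have hd : Disjoint Y1 b.U := by
          rw [Finset.disjoint_left]
          intro x hx hxb
          exact Finset.disjoint_left.1 hD ((hY1 x (hdisj x hxb)).1 hx) hxb
        have := (hY2d hd).2
        linarith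
      · have := (hY1d hD).2
        linarith
    exact_mod_cast this
  set F := Y2ᶜ with hF
  have hFc : F.card ≤ 2 := by
    rcases Nat.lt_or_ge (bd K Y2) 3 with h | h
    · rcases hK.c2 Y2 (by omega) with h | h
      · rw [h, Finset.card_empty] at hY2c; omega
      · rw [hF, h]; simp
    · rcases Nat.lt_or_ge (bd K Y2) 4 with h' | h'
      · rcases hK.c3 Y2 (by omega) with h | h
        · omega
        · rw [hF]; omega
      · rcases hK.c4 Y2 (by omega) with h | h
        · omega
        · exact h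
  have hbU : ∀ x ∈ b.U, x ∉ F := by
    rcases hY2U with h | h
    · intro x hx hxF
      rw [hF, Finset.mem_compl] at hxF
      exact hxF (h hx)
    · exfalso
      have : b.U \ Y2 ⊆ F := by
        intro x hx
        rw [hF, Finset.mem_compl]
        exact (Finset.mem_sdiff.1 hx).2
      have := Finset.card_le_card this
      omega
  have hfU : ∀ x ∈ f.U, x ∉ F := by
    rcases hY1U with h | h
    · intro x hx hxF
      rw [hF, Finset.mem_compl] at hxF
      exact hxF ((hY2 x (fun hxb => hdisj x hxb hx)).2 (h hx))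
    · exfalso
      have : f.U \ Y1 ⊆ F := by
        intro x hx
        rw [Finset.mem_sdiff] at hx
        rw [hF, Finset.mem_compl]
        intro hx2
        exact hx.2 ((hY2 x (fun hxb => hdisj x hxb hx.1)).1 hx2)
      have := Finset.card_le_card this
      omega
  -- membership outside the regions
  have hmem : ∀ x, x ∉ b.U → x ∉ f.U → (x ∉ F ↔ x ∈ Y) := by
    intro x h1 h2
    rw [hF, Finset.mem_compl, not_not, hY2 x h1, hY1 x h2]
  have hadjG : ∀ w, w ∉ b.U → w ∉ f.U → ∀ y, (quot (b.G K) f.π).adj w y →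
      ∃ x, K.adj w x ∧ f.π (b.π x) = y := by
    intro w h1 h2 y hy
    obtain ⟨x, hx1, hx2⟩ := Fold.amb_ord hamb w h2 y hy
    obtain ⟨x', hx3, hx4⟩ := brk_ord hK hb w h1 x hx1
    exact ⟨x', hx3, by rw [hx4, hx2]⟩
  -- Fact O
  have hO : ∀ u ∈ F, ∀ w, K.adj u w → w ∉ F → w ∉ b.U → w ∉ f.U → w ∈ P := by
    intro u hu w huw hwF hwb hwf
    have hwY : w ∈ Y := (hmem w hwb hwf).1 hwF
    have hub : u ∉ b.U := fun h => hbU u h hu
    have huf : u ∉ f.U := fun h => hfU u h hu
    by_contra hwP
    have h4 := h3 w hwY hwP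
    have hsub : nb (quot (b.G K) f.π) Y w ⊆ ((nb K univ w).erase u).image (fun x => f.π (b.π x)) := by
      intro y hy
      rw [mem_nb] at hy
      obtain ⟨x, hx1, hx2⟩ := hadjG w hwb hwf y hy.2
      rw [Finset.mem_image]
      refine ⟨x, ?_, hx2⟩
      rw [Finset.mem_erase, mem_nb]
      refine ⟨?_, mem_univ _, hx1⟩
      rintro rfl
      rw [bfix x hub, ffix x huf] at hx2
      rw [← hx2] at hy
      exact ((hmem x hub huf).2 hy.1) hu
    have hc := (Finset.card_le_card hsub).trans Finset.card_image_le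
    have hu' : u ∈ nb K univ w := mem_nb.2 ⟨mem_univ _, K.symm huw⟩
    rw [Finset.card_erase_of_mem hu'] at hc
    have := hK.cubic w
    unfold deg at this h4
    omega
  have hbout' : b.out ∉ f.U := hnearb b.out 1 (near_adj badj) (by norm_num)
  have hfout' : f.out ∉ b.U := fun h => far f.out 3 1 (bU _ h) (near_adj fadj) (by norm_num)
  -- weak pairs
  have hWb : b.out ∉ F → ∃ p ∈ P, p ∈ b.Wk := by
    intro hbo
    have hbY : b.out ∈ Y := (hmem b.out bout hbout').1 hbo
    obtain ⟨v, hvY, hvW, hvd⟩ := brk_weak hK hb Y hYS ⟨b.out, hbY, by simp [Brk.Wk]⟩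
    refine ⟨v, ?_, hvW⟩
    by_contra hvP
    have h4 := h3 v hvY hvP
    have hsub : nb (quot (b.G K) f.π) Y v ⊆ nb (b.G K) Y v := by
      intro y hy
      rw [mem_nb] at hy ⊢
      exact ⟨hy.1, hnbr v (near_mono (by norm_num) (bWk v hvW)) y hy.2⟩
    have := Finset.card_le_card hsub
    unfold deg at hvd h4
    omega
  have hWf : f.out ∉ F → ∃ p ∈ P, p ∈ f.Wk := by
    intro hfo
    have hfY : f.out ∈ Y := (hmem f.out hfout' fout).1 hfo
    have hC : deg (b.G K) b.S f.out ≤ 3 := by
      have hsub : nb (b.G K) b.S f.out ⊆ (nb K univ f.out).image b.π := by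
        intro y hy
        rw [mem_nb] at hy
        obtain ⟨x, hx1, hx2⟩ := brk_ord hK hb f.out hfout' y hy.2
        rw [Finset.mem_image]
        exact ⟨x, mem_nb.2 ⟨mem_univ _, hx1⟩, hx2⟩
      have := (Finset.card_le_card hsub).trans Finset.card_image_le
      have h5 := hK.cubic f.out
      unfold deg at h5 ⊢
      omega
    obtain ⟨v, hvY, hvW, hvd⟩ := Fold.amb_weak hamb hC Y hY ⟨f.out, hfY, by simp [Fold.Wk]⟩
    refine ⟨v, ?_, hvW⟩
    by_contra hvP
    have h4 := h3 v hvY hvP
    omega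
  rcases Finset.eq_empty_or_nonempty F with hFe | hFne
  · rw [hFe] at hWb hWf
    exact ⟨hWb (Finset.notMem_empty _), hWf (Finset.notMem_empty _)⟩
  exfalso
  -- a vertex of `F` has at most one neighbour in the regions
  have hone : ∀ u ∈ F, ((nb K univ u).filter (fun x => x ∈ b.U ∨ x ∈ f.U)).card ≤ 1 := by
    intro u hu
    have hub : u ∉ b.U := fun h => hbU u h hu
    have huf : u ∉ f.U := fun h => hfU u h hu
    rw [Finset.card_le_one]
    intro x hx y hy
    simp only [Finset.mem_filter, mem_nb] at hx hy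
    obtain ⟨⟨_, hx1⟩, hx2⟩ := hx
    obtain ⟨⟨_, hy1⟩, hy2⟩ := hy
    rcases hx2 with hx2 | hx2 <;> rcases hy2 with hy2 | hy2
    · exact brk_one hK hb u hub x hx2 y hy2 hx1 hy1
    · exfalso
      exact far y 5 3 (near_trans (near_trans (bU x hx2) (near_symm (near_adj hx1))) (near_adj hy1))
        (fU y hy2) (by norm_num)
    · exfalso
      exact far x 5 3 (near_trans (near_trans (bU y hy2) (near_symm (near_adj hy1))) (near_adj hx1))
        (fU x hx2) (by norm_num)
    · exact Fold.amb_one hambK u huf x hx2 y hy2 hx1 hy1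
  -- ordinary neighbours outside `F`
  set A : V → Finset V := fun u => (nb K univ u).filter (fun x => x ∉ F ∧ x ∉ b.U ∧ x ∉ f.U) with hA
  have hAP : ∀ u ∈ F, A u ⊆ P := by
    intro u hu x hx
    simp only [hA, Finset.mem_filter, mem_nb] at hx
    exact hO u hu x hx.1.2 hx.2.1 hx.2.2.1 hx.2.2.2
  have hAc : ∀ u ∈ F, 3 ≤ 1 + (nb K F u).card + (A u).card := by
    intro u hu
    have hsub : nb K univ u ⊆ ((nb K univ u).filter (fun x => x ∈ b.U ∨ x ∈ f.U) ∪ nb K F u) ∪ A u := by
      intro x hx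
      simp only [hA, Finset.mem_union, Finset.mem_filter, mem_nb] at hx ⊢
      by_cases h1 : x ∈ F
      · exact Or.inl (Or.inr ⟨h1, hx.2⟩)
      · by_cases h2 : x ∈ b.U ∨ x ∈ f.U
        · exact Or.inl (Or.inl ⟨hx, h2⟩)
        · rw [not_or] at h2
          exact Or.inr ⟨hx, h1, h2⟩
    have h4 := (Finset.card_le_card hsub).trans
      ((Finset.card_union_le _ _).trans (Nat.add_le_add_right (Finset.card_union_le _ _) _))
    have h5 := hK.cubic u
    have h6 := hone u hu
    unfold deg at h5
    omega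
  have hn1 : ∀ x y, K.adj x y → Near K 1 x y := fun x y h => near_adj h
  have hn0 : ∀ x, Near K 1 x x := fun x => Or.inl rfl
  obtain ⟨u, huF, hu1, hu2⟩ : ∃ u ∈ F, (∀ x ∈ F, Near K 1 u x) ∧ (∀ p ∈ P, Near K 2 u p) := by
    have hFpos : 0 < F.card := Finset.card_pos.2 hFne
    rcases Nat.lt_or_ge F.card 2 with h | h
    · -- one vertex
      obtain ⟨u, hu⟩ := Finset.card_eq_one.1 (show F.card = 1 by omega)
      have huF : u ∈ F := by rw [hu]; simp
      have hnbF : nb K F u = ∅ := by
        rw [Finset.eq_empty_iff_forall_notMem]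
        intro x hx
        rw [mem_nb, hu, Finset.mem_singleton] at hx
        exact K.irr u (hx.1 ▸ hx.2)
      have h4 := hAc u huF
      rw [hnbF, Finset.card_empty] at h4
      have h5 : A u = P := Finset.eq_of_subset_of_card_le (hAP u huF) (by omega)
      refine ⟨u, huF, ?_, ?_⟩
      · intro x hx
        rw [hu, Finset.mem_singleton] at hx
        rw [hx]
        exact hn0 u
      · intro p hp
        rw [← h5] at hp
        simp only [hA, Finset.mem_filter, mem_nb] at hp
        exact near_mono (by norm_num) (hn1 u p hp.1.2)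
    · -- two vertices
      obtain ⟨u, u', huu, hu⟩ := Finset.card_eq_two.1 (show F.card = 2 by omega)
      have huF : u ∈ F := by rw [hu]; simp
      have huF' : u' ∈ F := by rw [hu]; simp
      have hbdF : bd K F ≤ 4 := by rw [hF, bd_compl]; exact hbd
      have hadj : K.adj u u' := by
        by_contra hna
        have hno : ∀ x ∈ F, ∀ y ∈ nb K univ x, y ∉ F := by
          intro x hx y hy hyF
          rw [mem_nb] at hy
          rw [hu, Finset.mem_insert, Finset.mem_singleton] at hx hyF
          rcases hx with rfl | rfl <;> rcases hyF with rfl | rfl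
          · exact K.irr _ hy.2
          · exact hna hy.2
          · exact hna (K.symm hy.2)
          · exact K.irr _ hy.2
        have h6 : ∑ x ∈ F, 3 ≤ bd K F := by
          unfold bd
          apply Finset.sum_le_sum
          intro x hx
          have h7 := hK.cubic x
          unfold deg at h7
          rw [← h7]
          apply Finset.card_le_card
          intro y hy
          have h8 : y ∉ F := hno x hx y hy
          have h9 := (mem_nb.1 hy).2
          simp [h8, h9]
        rw [Finset.sum_const, smul_eq_mul] at h6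
        omega
      have hnbF : ∀ x ∈ F, (nb K F x).card ≤ 1 := by
        intro x hx
        have : nb K F x ⊆ F.erase x := by
          intro y hy
          rw [mem_nb] at hy
          rw [Finset.mem_erase]
          refine ⟨?_, hy.1⟩
          rintro rfl
          exact K.irr _ hy.2
        have := Finset.card_le_card this
        rw [Finset.card_erase_of_mem hx] at this
        omega
      have hd : Disjoint (A u) (A u') := by
        rw [Finset.disjoint_left]
        intro x hx hx'
        simp only [hA, Finset.mem_filter, mem_nb] at hx hx'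
        have b1 := K.bip hadj
        have b2 := K.bip hx.1.2
        have b3 := K.bip hx'.1.2
        revert b1 b2 b3
        cases K.typ u <;> cases K.typ u' <;> cases K.typ x <;> simp
      have h4 := hAc u huF
      have h4' := hAc u' huF'
      have h5 := hnbF u huF
      have h5' := hnbF u' huF'
      have h6 : A u ∪ A u' = P := by
        apply Finset.eq_of_subset_of_card_le (Finset.union_subset (hAP u huF) (hAP u' huF'))
        rw [Finset.card_union_of_disjoint hd]
        omega
      refine ⟨u, huF, ?_, ?_⟩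
      · intro x hx
        rw [hu, Finset.mem_insert, Finset.mem_singleton] at hx
        rcases hx with rfl | rfl
        · exact hn0 _
        · exact hn1 _ _ hadj
      · intro p hp
        rw [← h6, Finset.mem_union] at hp
        simp only [hA, Finset.mem_filter, mem_nb] at hp
        rcases hp with hp | hp
        · exact near_mono (by norm_num) (hn1 _ _ hp.1.2)
        · exact near_trans (hn1 _ _ hadj) (hn1 _ _ hp.1.2)
  have hb3 : Near K 3 b.ctr u := by
    by_cases h : b.out ∈ F
    · exact near_mono (by norm_num) (near_trans (hn1 _ _ badj) (near_symm (hu1 _ h)))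
    · obtain ⟨p, hp, hpW⟩ := hWb h
      exact near_trans (bWk p hpW) (near_symm (hu2 p hp))
  have hf3 : Near K 3 f.ctr u := by
    by_cases h : f.out ∈ F
    · exact near_mono (by norm_num) (near_trans (hn1 _ _ fadj) (near_symm (hu1 _ h)))
    · obtain ⟨p, hp, hpW⟩ := hWf h
      exact near_trans (fWk p hpW) (near_symm (hu2 p hp))
  exact far u 3 3 hb3 hf3 (by norm_num)

end Pool.Agent.Levi3
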