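import Pool.Agent.Levi3.Defs
import Pool.Agent.Levi3.LV04
import Pool.Agent.Levi3.LV12
import Pool.Agent.Levi3.LV19
import Pool.Agent.Levi3.LV20
import Pool.Agent.Levi3.LV22
import Pool.Agent.Levi3.LV23
import Pool.Agent.Levi3.LV25

/-! LV26 : D1 -/

namespace Pool.Agent.Levi3

open Matrix Finset

variable {V : Type} [DecidableEq V]

theorem lv26_typ (K : Inc V) (b : Brk V) : (b.G K).typ = K.typ := by
  cases b <;> rfl

theorem lv26_adj_b [Fintype V] {K : Inc V} (hK : C5 K) {b : Brk V} (hb : b.Ok K) {x y : V}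
    (h : (b.G K).adj x y) : Near K 5 x y := by
  cases b with
  | ac a c =>
    have h1 : K.adj x y := h.1
    exact near_mono (by norm_num) (near_adj h1)
  | fd g =>
    obtain ⟨_, _, _, x', y', hx, hy, h⟩ := h
    have hπ := (fold_near hK.c4f hb).2.2.1
    have h1 : Near K 2 x x' := by
      have := hπ x'
      rwa [hx] at this
    have h3 : Near K 2 y' y := by
      have := near_symm (hπ y')
      rwa [hy] at this
    exact near_trans (near_trans h1 (near_adj h)) h3

theorem lv26_far_b [Fintype V] {K : Inc V} (hK : C5 K) {b : Brk V} (hb : b.Ok K) {f : Fold V}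
    (hfar : ¬ Near K 60 b.ctr f.ctr) {x : V} {n : ℕ} (hn : n ≤ 57) (hx : Near K n f.ctr x) :
    x ∉ b.U ∧ x ∉ b.Wk := by
  have hbn := brk_near hK.c4f hb
  constructor
  · intro h
    exact hfar (near_mono (by omega) (near_trans (hbn.1 x h) (near_symm hx)))
  · intro h
    exact hfar (near_mono (by omega) (near_trans (hbn.2.1 x h) (near_symm hx)))

theorem lv26_far_f [Fintype V] {K : Inc V} (hK : C5 K) {b : Brk V} {f : Fold V}
    (hf : f.Loc K)
    (hfar : ¬ Near K 60 b.ctr f.ctr) {x : V} {n : ℕ} (hn : n ≤ 57) (hx : Near K n b.ctr x) :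
    x ∉ f.U ∧ x ∉ f.Wk := by
  have hbn := fold_near hK.c4f hf
  constructor
  · intro h
    exact hfar (near_mono (by omega) (near_trans hx (near_symm (hbn.1 x h))))
  · intro h
    exact hfar (near_mono (by omega) (near_trans hx (near_symm (hbn.2.1 x h))))

theorem lv26_adj_q [Fintype V] {K : Inc V} (hK : C5 K) {b : Brk V} (hb : b.Ok K) {f : Fold V}
    (hf : f.Loc K) (hfar : ¬ Near K 60 b.ctr f.ctr) {x y : V}
    (h : (quot (b.G K) f.π).adj x y) : Near K 5 x y := by
  obtain ⟨_, _, _, x', y', hx, hy, h⟩ := h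
  have hfn := fold_near hK.c4f hf
  have hπ := hfn.2.2.1
  have hxy : Near K 5 x' y' := lv26_adj_b hK hb h
  by_cases hU : x' ∈ f.U ∨ y' ∈ f.U
  · have hnear : Near K 8 f.ctr x' ∧ Near K 8 f.ctr y' := by
      rcases hU with hU | hU
      · have h1 := hfn.1 x' hU
        exact ⟨near_mono (by norm_num) h1, near_trans h1 hxy⟩
      · have h1 := hfn.1 y' hU
        exact ⟨near_trans h1 (near_symm hxy), near_mono (by norm_num) h1⟩
    have hx' := lv26_far_b hK hb hfar (by norm_num) hnear.1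
    have hy' := lv26_far_b hK hb hfar (by norm_num) hnear.2
    have hadj : K.adj x' y' := (brk_agree hK hb x' y' hx'.1 hy'.1 hx'.2).1 h
    have h1 : Near K 2 x x' := by
      have := hπ x'
      rwa [hx] at this
    have h3 : Near K 2 y' y := by
      have := near_symm (hπ y')
      rwa [hy] at this
    exact near_trans (near_trans h1 (near_adj hadj)) h3
  · push Not at hU
    have e1 := hfn.2.2.2.2.2.2.2.2.2.2.1 x' hU.1
    have e2 := hfn.2.2.2.2.2.2.2.2.2.2.1 y' hU.2
    rw [← hx, ← hy, e1, e2]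
    exact hxy

/-- elements of the weak pair of the same kind are equal -/
theorem lv26_wk_b [Fintype V] {K : Inc V} (hK : C5 K) {b : Brk V} (hb : b.Ok K) {x y : V}
    (hx : x ∈ b.Wk) (hy : y ∈ b.Wk) (h : K.typ x = K.typ y) : x = y := by
  have hadj := (brk_near hK.c4f hb).2.2.2.2.2.1
  have hne := K.bip hadj
  simp only [Brk.Wk, Finset.mem_insert, Finset.mem_singleton] at hx hy
  rcases hx with rfl | rfl <;> rcases hy with rfl | rfl
  · rfl
  · exact absurd h hne
  · exact absurd h.symm hne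
  · rfl

theorem lv26_wk_f [Fintype V] {K : Inc V} (hK : C5 K) {f : Fold V} (hf : f.Loc K) {x y : V}
    (hx : x ∈ f.Wk) (hy : y ∈ f.Wk) (h : K.typ x = K.typ y) : x = y := by
  have hadj := (fold_near hK.c4f hf).2.2.2.2.2.2.2.1
  have hne := K.bip hadj
  simp only [Fold.Wk, Finset.mem_insert, Finset.mem_singleton] at hx hy
  rcases hx with rfl | rfl <;> rcases hy with rfl | rfl
  · rfl
  · exact absurd h hne
  · exact absurd h.symm hne
  · rfl

/-- near the weak pair of `b`, the quotient by `f` does not change adjacency -/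
theorem lv26_agree [Fintype V] {K : Inc V} (hK : C5 K) {b : Brk V} (hb : b.Ok K) {f : Fold V}
    (hf : f.Loc K) (hfar : ¬ Near K 60 b.ctr f.ctr) (hamb : Fold.Amb (b.G K) b.S f) {v x : V}
    (hv : v ∈ b.Wk) : (quot (b.G K) f.π).adj v x ↔ (b.G K).adj v x := by
  have hv1 : Near K 1 b.ctr v := (brk_near hK.c4f hb).2.1 v hv
  have hvU := lv26_far_f hK hf hfar (by norm_num) hv1
  constructor
  · intro h
    have hx : Near K 6 b.ctr x := near_trans hv1 (lv26_adj_q hK hb hf hfar h)
    have hxU := lv26_far_f hK hf hfar (by norm_num) hx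
    exact (Fold.amb_agree hamb v x hvU.1 hxU.1).1 h
  · intro h
    have hx : Near K 6 b.ctr x := near_trans hv1 (lv26_adj_b hK hb h)
    have hxU := lv26_far_f hK hf hfar (by norm_num) hx
    exact (Fold.amb_agree hamb v x hvU.1 hxU.1).2 h

/-- growing balls in a connected structure -/
theorem lv26_grow {K G : Inc V} {Y : Finset V} (hadj : ∀ x y, G.adj x y → Near K 5 x y)
    (hconn : ∀ X, X ⊆ Y → X.Nonempty → X ≠ Y → ∃ x ∈ X, ∃ y ∈ Y, y ∉ X ∧ G.adj x y)
    {x : V} (hx : x ∈ Y) (n : ℕ) :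
    (∀ y ∈ Y, Near K (5 * n) x y) ∨
      ∃ X, X ⊆ Y ∧ x ∈ X ∧ n + 1 ≤ X.card ∧ ∀ y ∈ X, Near K (5 * n) x y := by
  induction n with
  | zero =>
    right
    refine ⟨{x}, by simpa using hx, by simp, by simp, ?_⟩
    intro y hy
    rw [Finset.mem_singleton] at hy
    subst hy
    exact rfl
  | succ n ih =>
    rcases ih with h | ⟨X, hXY, hxX, hXc, hX⟩
    · left
      intro y hy
      exact near_mono (by omega) (h y hy)
    · by_cases hne : X = Y
      · left
        subst hne
        intro y hy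
        exact near_mono (by omega) (hX y hy)
      · right
        obtain ⟨u, huX, y, hyY, hyX, huy⟩ := hconn X hXY ⟨x, hxX⟩ hne
        refine ⟨insert y X, ?_, Finset.mem_insert_of_mem hxX, ?_, ?_⟩
        · intro z hz
          rcases Finset.mem_insert.1 hz with rfl | hz
          · exact hyY
          · exact hXY hz
        · rw [Finset.card_insert_of_notMem hyX]
          omega
        · intro z hz
          rcases Finset.mem_insert.1 hz with rfl | hz
          · have := near_trans (hX u huX) (hadj u z huy)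
            exact near_mono (by omega) this
          · exact near_mono (by omega) (hX z hz)

theorem lv26_sum_split {G : Inc V} {Y : Finset V} :
    DD G Y = ∑ v ∈ Y.filter (fun v => G.typ v = true), (3 - (deg G Y v : ℤ)) +
      ∑ v ∈ Y.filter (fun v => G.typ v = false), (3 - (deg G Y v : ℤ)) := by
  unfold DD
  rw [← Finset.sum_filter_add_sum_filter_not Y (fun v => G.typ v = true)]
  congr 1
  apply Finset.sum_congr _ (fun _ _ => rfl)
  ext v
  simp

/-- the degrees of a bad pair -/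
theorem lv26_degrees {G : Inc V} {Y : Finset V} {p q : V} (hp : p ∈ Y) (hq : q ∈ Y)
    (htyp : G.typ p ≠ G.typ q) (hbad : Bad G Y p q) :
    DD G Y ≤ 0 ∨ (deg G Y p = 2 ∧ deg G Y q = 2 ∧ ∀ v ∈ Y, v ≠ p → v ≠ q → deg G Y v = 3) := by
  obtain ⟨h3, hp2, hq2⟩ := hbad
  have hpq : p ≠ q := fun h => htyp (by rw [h])
  have key : ∀ t : Bool, ∀ r ∈ Y, G.typ r = t → (∀ v ∈ Y, v ≠ r → G.typ v = t → 3 ≤ deg G Y v) →
      ∑ v ∈ Y.filter (fun v => G.typ v = t), (3 - (deg G Y v : ℤ)) ≤ 3 - (deg G Y r : ℤ) ∧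
      (∑ v ∈ Y.filter (fun v => G.typ v = t), (3 - (deg G Y v : ℤ)) = 1 → 2 ≤ deg G Y r →
        deg G Y r = 2 ∧ ∀ v ∈ Y, v ≠ r → G.typ v = t → deg G Y v = 3) := by
    intro t r hr hrt hr3
    have hmem : r ∈ Y.filter (fun v => G.typ v = t) := by
      rw [Finset.mem_filter]; exact ⟨hr, hrt⟩
    rw [← Finset.add_sum_erase _ _ hmem]
    have hle : ∀ v ∈ (Y.filter (fun v => G.typ v = t)).erase r, (3 - (deg G Y v : ℤ)) ≤ 0 := by
      intro v hv
      rw [Finset.mem_erase, Finset.mem_filter] at hv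
      have := hr3 v hv.2.1 hv.1 hv.2.2
      omega
    have hsum := Finset.sum_nonpos hle
    refine ⟨by linarith, ?_⟩
    intro h1 h2
    have h4 : deg G Y r = 2 := by omega
    refine ⟨h4, ?_⟩
    intro v hv hvr hvt
    have hv' : v ∈ (Y.filter (fun v => G.typ v = t)).erase r := by
      rw [Finset.mem_erase, Finset.mem_filter]; exact ⟨hvr, hv, hvt⟩
    have hz : ∑ v ∈ (Y.filter (fun v => G.typ v = t)).erase r, (3 - (deg G Y v : ℤ)) = 0 := by
      omega
    have h5 := (Finset.sum_eq_zero_iff_of_nonpos hle).1 hz v hv'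
    omega
  have hpar := dd_parity G Y
  have hs := lv26_sum_split (G := G) (Y := Y)
  rcases hpt : G.typ p with _ | _
  · have hqt : G.typ q = true := by
      rw [hpt] at htyp
      rcases hq' : G.typ q with _ | _
      · exact absurd hq'.symm htyp
      · rfl
    have k1 := key false p hp hpt (fun v hv hvp hvt => h3 v hv hvp (fun h => by
      rw [h, hqt] at hvt; exact absurd hvt (by simp)))
    have k2 := key true q hq hqt (fun v hv hvq hvt => h3 v hv (fun h => by
      rw [h, hpt] at hvt; exact absurd hvt (by simp)) hvq)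
    set s1 := ∑ v ∈ Y.filter (fun v => G.typ v = true), (3 - (deg G Y v : ℤ))
    set s2 := ∑ v ∈ Y.filter (fun v => G.typ v = false), (3 - (deg G Y v : ℤ))
    by_cases hD : DD G Y ≤ 0
    · left; exact hD
    · right
      have e1 : s1 ≤ 1 := by have := k2.1; omega
      have e2 : s2 ≤ 1 := by have := k1.1; omega
      have e3 : s1 = 1 ∧ s2 = 1 := by omega
      have f1 := k2.2 e3.1 hq2
      have f2 := k1.2 e3.2 hp2
      refine ⟨f2.1, f1.1, ?_⟩
      intro v hv hvp hvq
      rcases hvt : G.typ v with _ | _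
      · exact f2.2 v hv hvp hvt
      · exact f1.2 v hv hvq hvt
  · have hqt : G.typ q = false := by
      rw [hpt] at htyp
      rcases hq' : G.typ q with _ | _
      · rfl
      · exact absurd hq'.symm htyp
    have k1 := key true p hp hpt (fun v hv hvp hvt => h3 v hv hvp (fun h => by
      rw [h, hqt] at hvt; exact absurd hvt (by simp)))
    have k2 := key false q hq hqt (fun v hv hvq hvt => h3 v hv (fun h => by
      rw [h, hpt] at hvt; exact absurd hvt (by simp)) hvq)
    set s1 := ∑ v ∈ Y.filter (fun v => G.typ v = true), (3 - (deg G Y v : ℤ))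
    set s2 := ∑ v ∈ Y.filter (fun v => G.typ v = false), (3 - (deg G Y v : ℤ))
    by_cases hD : DD G Y ≤ 0
    · left; exact hD
    · right
      have e1 : s1 ≤ 1 := by have := k1.1; omega
      have e2 : s2 ≤ 1 := by have := k2.1; omega
      have e3 : s1 = 1 ∧ s2 = 1 := by omega
      have f1 := k1.2 e3.1 hp2
      have f2 := k2.2 e3.2 hq2
      refine ⟨f1.1, f2.1, ?_⟩
      intro v hv hvp hvq
      rcases hvt : G.typ v with _ | _
      · exact f2.2 v hv hvq hvt
      · exact f1.2 v hv hvp hvt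

theorem D1 [Fintype V] (K : Inc V) (hK : C5 K) (b : Brk V) (hb : b.Ok K) (f : Fold V)
    (hf : f.Loc K)
    (N : ℕ) (hB : b.κ ≠ 0 → HB V N) (hfar : ¬ Near K (6 * N + 100) b.ctr f.ctr)
    (Y : Finset V) (hY : Y ⊆ f.S' b.S) :
    ∃ z, NDm (quot (b.G K) f.π) Y (XX b.Wk f.Wk) z := by
  have hfar60 : ¬ Near K 60 b.ctr f.ctr := fun h => hfar (near_mono (by omega) h)
  have hfar30 : ¬ Near K 30 b.ctr f.ctr := fun h => hfar (near_mono (by omega) h)
  have hamb : Fold.Amb (b.G K) b.S f := brk_amb hK hb hf hfar30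
  have hbn := brk_near hK.c4f hb
  have hfn := fold_near hK.c4f hf
  have hS'S : f.S' b.S ⊆ b.S := by
    intro x hx
    unfold Fold.S' at hx
    simp only [Finset.mem_filter] at hx
    exact hx.1
  have htypG : (quot (b.G K) f.π).typ = K.typ := lv26_typ K b
  have hC4all : C4F (quot (b.G K) f.π) (f.S' b.S) := Fold.amb_c4f hamb
  -- the weak pairs are disjoint
  have hdisj : ∀ v, v ∈ b.Wk → v ∈ f.Wk → False := by
    intro v h1 h2
    exact (lv26_far_f hK hf hfar60 (by norm_num) (hbn.2.1 v h1)).2 h2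
  have hXXof : ∀ p q : V, (∃ v ∈ ({p, q} : Finset V), v ∈ b.Wk) →
      (∃ v ∈ ({p, q} : Finset V), v ∈ f.Wk) → XX b.Wk f.Wk p q := by
    rintro p q ⟨v, hv, hvb⟩ ⟨w, hw, hwf⟩
    simp only [Finset.mem_insert, Finset.mem_singleton] at hv hw
    rcases hv with rfl | rfl <;> rcases hw with rfl | rfl
    · exact absurd hwf (hdisj _ hvb)
    · exact Or.inl ⟨hvb, hwf⟩
    · exact Or.inr ⟨hvb, hwf⟩
    · exact absurd hwf (hdisj _ hvb)
  induction Y using Finset.strongInduction with
  | H Y ih =>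
  have ih' : ∀ T, T ⊂ Y → ∃ z, NDm (quot (b.G K) f.π) T (XX b.Wk f.Wk) z :=
    fun T hT => ih T hT (hT.1.trans hY)
  have hC4 : C4F (quot (b.G K) f.π) Y := hC4all.mono hY
  have hXs : ∀ u v, XX b.Wk f.Wk u v → XX b.Wk f.Wk v u := fun u v h => Or.symm h
  have hdeg : ∀ W, W ⊆ Y → W.Nonempty → ∃ v ∈ W, deg (quot (b.G K) f.π) W v ≤ 2 := by
    intro W hW hWne
    by_contra hcon
    push Not at hcon
    have hD : DD (quot (b.G K) f.π) W ≤ 0 := by
      unfold DD
      apply Finset.sum_nonpos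
      intro v hv
      have := hcon v hv
      omega
    have := cut12 K hK b hb f hf hfar60 W ∅ (hW.trans hY) hWne (Finset.empty_subset _)
      (by simp) (fun v hv => by have := hcon v hv; omega)
      (fun v hv _ => by have := hcon v hv; omega) (Or.inl hD)
    obtain ⟨⟨p, hp, _⟩, _⟩ := this
    exact absurd hp (Finset.notMem_empty p)
  have hX1 : ∀ w ∈ Y, ∀ u ∈ Y, ∀ v ∈ Y, ∀ x ∈ Y, (quot (b.G K) f.π).adj w u → (quot (b.G K) f.π).adj u v → (quot (b.G K) f.π).adj v x →
      ¬ XX b.Wk f.Wk w x := by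
    intro w _ u _ v _ x _ h1 h2 h3 hX
    have hn : Near K 15 w x := near_trans (near_trans (lv26_adj_q hK hb hf hfar60 h1)
      (lv26_adj_q hK hb hf hfar60 h2)) (lv26_adj_q hK hb hf hfar60 h3)
    rcases hX with ⟨hw, hx⟩ | ⟨hx, hw⟩
    · exact (lv26_far_f hK hf hfar60 (n := 16) (by norm_num)
        (near_trans (hbn.2.1 w hw) hn)).2 hx
    · exact (lv26_far_f hK hf hfar60 (n := 16) (by norm_num)
        (near_trans (hbn.2.1 x hx) (near_symm hn))).2 hw
  have hX2 : ∀ v ∈ Y, ∀ u ∈ Y, ∀ w ∈ Y, ∀ w' ∈ Y, w ≠ w' → (quot (b.G K) f.π).adj u w → (quot (b.G K) f.π).adj u w' →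
      ¬ (XX b.Wk f.Wk v w ∧ XX b.Wk f.Wk v w') := by
    rintro v _ u _ w _ w' _ hne h1 h2 ⟨hX, hX'⟩
    have ht : K.typ w = K.typ w' := by
      have t1 := (quot (b.G K) f.π).bip h1
      have t2 := (quot (b.G K) f.π).bip h2
      rw [htypG] at t1 t2
      rcases a1 : K.typ u with _ | _ <;> rcases a2 : K.typ w with _ | _ <;>
        rcases a3 : K.typ w' with _ | _ <;> simp_all
    rcases hX with ⟨a1, a2⟩ | ⟨a1, a2⟩ <;> rcases hX' with ⟨a3, a4⟩ | ⟨a3, a4⟩
    · exact hne (lv26_wk_f hK hf a2 a4 ht)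
    · exact hdisj v a1 a4
    · exact hdisj v a3 a2
    · exact hne (lv26_wk_b hK hb a1 a3 ht)
  have hprop : ∀ v ∈ Y, ∃ z, NDm (quot (b.G K) f.π) (Y.erase v) (XX b.Wk f.Wk) z :=
    fun v hv => ih' _ (Finset.erase_ssubset hv)
  obtain ⟨z, hzpl, hzdis, hzn⟩ := crit_refined (quot (b.G K) f.π) Y (XX b.Wk f.Wk) hXs hC4 hdeg hX1 hX2 hprop
  by_contra hcon
  have hno : ∃ p ∈ Y, ∃ q ∈ Y, (quot (b.G K) f.π).typ p ≠ (quot (b.G K) f.π).typ q ∧ ¬ (quot (b.G K) f.π).adj p q ∧ ¬ XX b.Wk f.Wk p q ∧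
      z p ⬝ᵥ z q = 0 := by
    by_contra hno
    push Not at hno
    exact hcon ⟨z, hzpl, hzdis, fun p hp q hq h1 h2 h3 => hno p hp q hq h1 h2 h3⟩
  obtain ⟨p, hp, q, hq, hpq, hnadj, hnX, hz0⟩ := hno
  have hbad : Bad (quot (b.G K) f.π) Y p q := by
    by_contra hb'
    exact hzn p hp q hq hpq hnadj hnX hb' hz0
  have hcut : ¬ (DD (quot (b.G K) f.π) Y ≤ 0 ∨ b.κ = 0 ∨ Disjoint Y b.U ∨ Disjoint Y f.U) := by
    intro hD
    have := cut12 K hK b hb f hf hfar60 Y {p, q} hY ⟨p, hp⟩
      (by intro v hv; simp only [Finset.mem_insert, Finset.mem_singleton] at hv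
          rcases hv with rfl | rfl
          · exact hp
          · exact hq)
      (Finset.card_le_two)
      (by
        intro v hv
        by_cases h1 : v = p
        · rw [h1]; exact hbad.2.1
        · by_cases h2 : v = q
          · rw [h2]; exact hbad.2.2
          · have := hbad.1 v hv h1 h2
            omega)
      (by
        intro v hv hvP
        simp only [Finset.mem_insert, Finset.mem_singleton, not_or] at hvP
        exact hbad.1 v hv hvP.1 hvP.2)
      hD
    exact hnX (hXXof p q this.1 this.2)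
  push Not at hcut
  obtain ⟨hD0, hκ, hUb, hUf⟩ := hcut
  obtain ⟨hdp, hdq, hd3⟩ := (lv26_degrees hp hq hpq hbad).resolve_left (by omega)
  have hP : ∀ v ∈ Y, deg (quot (b.G K) f.π) Y v ≤ 2 → v ∈ ({p, q} : Finset V) := by
    intro v hv hd
    simp only [Finset.mem_insert, Finset.mem_singleton]
    by_contra h
    push Not at h
    have := hd3 v hv h.1 h.2
    omega
  -- `Y` does not meet both weak pairs
  have hnomeet : ¬ ((∃ v ∈ Y, v ∈ b.Wk) ∧ (∃ v ∈ Y, v ∈ f.Wk)) := by
    rintro ⟨h1, h2⟩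
    obtain ⟨v, hvY, hvW, hvd⟩ := brk_weak hK hb Y (hY.trans hS'S) h1
    have hvd' : deg (quot (b.G K) f.π) Y v ≤ 2 := by
      have : nb (quot (b.G K) f.π) Y v = nb (b.G K) Y v := by
        ext x
        rw [mem_nb, mem_nb, lv26_agree hK hb hf hfar60 hamb hvW]
      unfold deg at hvd ⊢
      rw [this]
      exact hvd
    have hout : deg (b.G K) b.S f.out ≤ 3 := by
      have hfo : Near K 1 f.ctr f.out := near_adj hfn.2.2.2.2.2.2.2.1
      have hfo' := lv26_far_b hK hb hfar60 (by norm_num) hfo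
      have hsub : nb (b.G K) b.S f.out ⊆ (nb K univ f.out).image b.π := by
        intro y hy
        rw [mem_nb] at hy
        obtain ⟨x, hx, hxy⟩ := brk_ord hK hb f.out hfo'.1 y hy.2
        rw [Finset.mem_image]
        exact ⟨x, by rw [mem_nb]; exact ⟨Finset.mem_univ _, hx⟩, hxy⟩
      have h3 := hK.cubic f.out
      unfold deg at h3 ⊢
      calc (nb (b.G K) b.S f.out).card ≤ ((nb K univ f.out).image b.π).card :=
            Finset.card_le_card hsub
        _ ≤ (nb K univ f.out).card := Finset.card_image_le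
        _ ≤ 3 := h3.le
    obtain ⟨w, hwY, hwW, hwd⟩ := Fold.amb_weak hamb hout Y hY h2
    exact hnX (hXXof p q ⟨v, hP v hvY hvd', hvW⟩ ⟨w, hP w hwY hwd, hwW⟩)
  have hnoX : ∀ u ∈ Y, ∀ v ∈ Y, ¬ XX b.Wk f.Wk u v := by
    intro u hu v hv hX
    rcases hX with ⟨h1, h2⟩ | ⟨h1, h2⟩
    · exact hnomeet ⟨⟨u, hu, h1⟩, ⟨v, hv, h2⟩⟩
    · exact hnomeet ⟨⟨v, hv, h1⟩, ⟨u, hu, h2⟩⟩
  have hcrit : Crit (quot (b.G K) f.π) Y := by
    constructor
    · rintro ⟨z', hz'⟩
      exact hcon ⟨z', hz'.pl, hz'.dis, fun u hu v hv h1 h2 _ => hz'.ninc u hu v hv h1 h2 id⟩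
    · intro T hT
      obtain ⟨z', hz'⟩ := ih' T hT
      exact ⟨z', hz'.pl, hz'.dis, fun u hu v hv h1 h2 _ =>
        hz'.ninc u hu v hv h1 h2 (hnoX u (hT.1 hu) v (hT.1 hv))⟩
  have hcard : Y.card ≤ N := by
    apply hB hκ (quot (b.G K) f.π) Y hcrit hC4
    · intro v hv
      by_cases h1 : v = p
      · rw [h1, hdp]; norm_num
      · by_cases h2 : v = q
        · rw [h2, hdq]; norm_num
        · rw [hd3 v hv h1 h2]
    · exact ⟨p, hp, by rw [hdp]; norm_num⟩
  rw [Finset.not_disjoint_iff] at hUb hUf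
  obtain ⟨x, hxY, hxU⟩ := hUb
  obtain ⟨y, hyY, hyU⟩ := hUf
  have hxy : Near K (5 * N) x y := by
    rcases lv26_grow (K := K) (G := quot (b.G K) f.π) (Y := Y)
      (fun u v h => lv26_adj_q hK hb hf hfar60 h) (crit_conn (quot (b.G K) f.π) Y hcrit hC4) hxY N with h | h
    · exact h y hyY
    · obtain ⟨X, hXY, _, hXc, _⟩ := h
      have := Finset.card_le_card hXY
      omega
  have hfin : Near K (3 + 5 * N + 3) b.ctr f.ctr :=
    near_trans (near_trans (hbn.1 x hxU) hxy) (near_symm (hfn.1 y hyU))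
  exact hfar (near_mono (by omega) hfin)

end Pool.Agent.Levi3
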