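import Pool.Agent.Levi3.Defs
import Pool.Agent.Levi3.LV02
import Pool.Agent.Levi3.LV04
import Pool.Agent.Levi3.LV19
import Pool.Agent.Levi3.LV20
import Pool.Agent.Levi3.LV22
import Pool.Agent.Levi3.LV23
import Pool.Agent.Levi3.LV24
import Pool.Agent.Levi3.LV26

/-! LV27 : D2 -/

namespace Pool.Agent.Levi3

open Matrix Finset

variable {V : Type} [DecidableEq V]

/-- the retraction of a fold preserves the kinds -/
theorem lv27_typ {K : Inc V} {f : Fold V} (hf : f.Loc K) (x : V) : K.typ (f.π x) = K.typ x := by
  have hb : ∀ {u v w : V}, K.adj u v → K.adj u w → K.typ v = K.typ w := by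
    intro u v w h1 h2
    have h3 := K.bip h1
    have h4 := K.bip h2
    cases hu : K.typ u <;> cases hv : K.typ v <;> cases hw : K.typ w <;> simp_all
  cases f with
  | r0 A B W C =>
    have hf' : LocR0 K A B W C := hf
    simp only [Fold.π]
    split_ifs with h
    · rw [h]; exact hb hf'.adjA hf'.adjB
    · rfl
  | r1 v a =>
    have hf' : LocR1 K v a := hf
    have e0 : K.adj (v 0) (v 1) := hf'.hv 0
    have e5 : K.adj (v 5) (v 0) := hf'.hv 5
    have e2 : K.adj (v 2) (v 3) := hf'.hv 2
    have e3 : K.adj (v 3) (v 4) := hf'.hv 3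
    simp only [Fold.π]
    split_ifs with h h'
    · rw [h]; exact hb e0 (K.symm e5)
    · rw [h']; exact hb (K.symm e2) e3
    · rfl

omit [DecidableEq V] in
theorem lv27_Gtyp (K : Inc V) (b : Brk V) : (b.G K).typ = K.typ := by
  cases b <;> rfl

omit [DecidableEq V] in
theorem lv27_mem_S' {f : Fold V} {S : Finset V} {x : V} (h1 : x ∈ S) (h2 : f.π x = x) :
    x ∈ f.S' S := by
  unfold Fold.S'
  simp [h1, h2]

omit [DecidableEq V] in
theorem lv27_mem_S [Fintype V] {b : Brk V} {x : V} (h : b.π x = x) : x ∈ b.S := by
  unfold Brk.S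
  simp [h]

theorem lv27_far {K : Inc V} {m n : ℕ} {x y : V} (h : ¬ Near K n x y) (hmn : m ≤ n) :
    ¬ Near K m x y := fun h' => h (near_mono hmn h')

theorem D2 [Fintype V] (K : Inc V) (hK : C5 K) (b : Brk V) (hb : b.Ok K) (f : Fin 3 → Fold V)
    (hf : ∀ i, (f i).Loc K) (N : ℕ) (hB : b.κ ≠ 0 → HB V N)
    (hfar : ∀ i, ¬ Near K (6 * N + 100) b.ctr (f i).ctr)
    (hfar2 : ∀ i j, i ≠ j → ¬ Near K (6 * N + 100) (f i).ctr (f j).ctr) :
    ND (b.G K) b.S := by
  classical
  -- facts on the break
  obtain ⟨hb1, hb2, -, -, -, -, -, hb8, -, -⟩ := brk_near hK.c4f hb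
  have hc4 := brk_c4f hK hb
  -- facts on the folds
  have hN1 : ∀ i, ∀ x ∈ (f i).U, Near K 3 (f i).ctr x := fun i => (fold_near hK.c4f (hf i)).1
  have hN2 : ∀ i, ∀ x ∈ (f i).Wk, Near K 1 (f i).ctr x := fun i => (fold_near hK.c4f (hf i)).2.1
  have hBl : ∀ i, (f i).Bl ⊆ (f i).U := fun i => (fold_near hK.c4f (hf i)).2.2.2.1
  have hBlc : ∀ i, (f i).Bl.card ≤ 2 := fun i => (fold_near hK.c4f (hf i)).2.2.2.2.1
  have hctr : ∀ i, (f i).ctr ∈ (f i).Bl := fun i => (fold_near hK.c4f (hf i)).2.2.2.2.2.1
  have hπU : ∀ i, ∀ x ∈ (f i).U, (f i).π x ∈ (f i).U :=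
    fun i => (fold_near hK.c4f (hf i)).2.2.2.2.2.2.2.2.2.1
  have hπn : ∀ i, ∀ x, x ∉ (f i).U → (f i).π x = x :=
    fun i => (fold_near hK.c4f (hf i)).2.2.2.2.2.2.2.2.2.2.1
  have hππ : ∀ i, ∀ x, (f i).π ((f i).π x) = (f i).π x :=
    fun i => (fold_near hK.c4f (hf i)).2.2.2.2.2.2.2.2.2.2.2.1
  have hamb : ∀ i, Fold.Amb (b.G K) b.S (f i) :=
    fun i => brk_amb hK hb (hf i) (lv27_far (hfar i) (by omega))
  have htyp : (b.G K).typ = K.typ := lv27_Gtyp K b
  -- vertices of `U` or `out` are close to the centre
  have hnear3 : ∀ i x, (x ∈ (f i).U ∨ x = (f i).out) → Near K 3 (f i).ctr x := by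
    intro i x hx
    rcases hx with hx | hx
    · exact hN1 i x hx
    · refine near_mono (by omega) (hN2 i x ?_)
      rw [hx]
      simp [Fold.Wk]
  have hdisj : ∀ i j x, i ≠ j → (x ∈ (f i).U ∨ x = (f i).out) →
      ¬ (x ∈ (f j).U ∨ x = (f j).out) := by
    intro i j x hij hx hy
    have h1 := near_trans (hnear3 i x hx) (near_symm (hnear3 j x hy))
    exact lv27_far (hfar2 i j hij) (by omega) h1
  -- a fold away from `p` and `q`
  have hchoice : ∀ p q : V, ∃ i, ¬ (p ∈ (f i).U ∨ p = (f i).out) ∧
      ¬ (q ∈ (f i).U ∨ q = (f i).out) := by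
    intro p q
    by_contra hcon
    push Not at hcon
    have h' : ∀ i, (p ∈ (f i).U ∨ p = (f i).out) ∨ (q ∈ (f i).U ∨ q = (f i).out) := by
      intro i
      by_contra hi
      push Not at hi
      have := hcon i hi.1
      exact this.elim (fun h => hi.2.1 h) (fun h => hi.2.2 h)
    have d01 := hdisj 0 1
    have d02 := hdisj 0 2
    have d12 := hdisj 1 2
    have n01 : (0 : Fin 3) ≠ 1 := by decide
    have n02 : (0 : Fin 3) ≠ 2 := by decide
    have n12 : (1 : Fin 3) ≠ 2 := by decide
    rcases h' 0 with h0 | h0 <;> rcases h' 1 with h1 | h1 <;> rcases h' 2 with h2 | h2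
    · exact d01 p n01 h0 h1
    · exact d01 p n01 h0 h1
    · exact d02 p n02 h0 h2
    · exact d12 q n12 h1 h2
    · exact d12 p n12 h1 h2
    · exact d02 q n02 h0 h2
    · exact d01 q n01 h0 h1
    · exact d01 q n01 h0 h1
  -- the main induction
  have main : ∀ n, ∀ Y : Finset V, Y.card = n → Y ⊆ b.S → ND (b.G K) Y := by
    intro n
    induction n using Nat.strong_induction_on with
    | _ n ih =>
      intro Y hYn hYS
      -- base placement
      obtain ⟨z1, hz1, hd1, -⟩ := crit_refined (b.G K) Y (fun _ _ => False)
        (fun _ _ h => h) (hc4.mono hYS)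
        (by
          intro W hW hWne
          by_contra hcon
          push Not at hcon
          obtain ⟨p, hp, -⟩ := cut1 K hK b hb W ∅ (hW.trans hYS) hWne (by simp) (by simp)
            (fun v hv => (hcon v hv).le) (fun v hv _ => hcon v hv)
          simp at hp)
        (fun _ _ _ _ _ _ _ _ _ _ _ h => h) (fun _ _ _ _ _ _ _ _ _ _ _ h => h.1)
        (by
          intro v hv
          have hlt : (Y.erase v).card < n := by
            rw [← hYn]; exact Finset.card_erase_lt_of_mem hv
          exact ih _ hlt (Y.erase v) rfl ((Finset.erase_subset _ _).trans hYS))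
      -- one more pair
      have hpair : ∀ p ∈ Y, ∀ q ∈ Y, (b.G K).typ p ≠ (b.G K).typ q → ¬ (b.G K).adj p q →
          ∃ zf : V → E3, IsPl (b.G K) Y zf ∧ zf p ⬝ᵥ zf q ≠ 0 ∧
            ∀ z, Dis (b.G K) Y z → Good (b.G K) {z, zf} Y := by
        intro p hp q hq htpq hnadj
        obtain ⟨i, hip, hiq⟩ := hchoice p q
        push Not at hip hiq
        set g := f i with hg
        -- the image
        have himg : ∀ x ∈ Y, g.π x ∈ g.S' b.S := by
          intro x hx
          have hxS := hYS hx
          refine lv27_mem_S' ?_ (hππ i x)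
          by_cases hxU : x ∈ g.U
          · have h1 : g.π x ∈ g.U := hπU i x hxU
            have h2 : g.π x ∉ b.U := by
              intro h3
              have h4 := near_trans (hb1 _ h3) (near_symm (hN1 i _ h1))
              exact lv27_far (hfar i) (by omega) h4
            exact lv27_mem_S (hb8 _ h2)
          · rw [hπn i x hxU]; exact hxS
        obtain ⟨z', hz'⟩ := D1 K hK b hb g (hf i) N hB (hfar i) (Y.image g.π)
          (by
            intro y hy
            rw [Finset.mem_image] at hy
            obtain ⟨x, hx, rfl⟩ := hy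
            exact himg x hx)
        have htπ : ∀ x, (b.G K).typ (g.π x) = (b.G K).typ x := by
          intro x; rw [htyp]; exact lv27_typ (hf i) x
        have hmem : ∀ x ∈ Y, g.π x ∈ Y.image g.π := fun x hx => Finset.mem_image_of_mem _ hx
        refine ⟨fun x => z' (g.π x), ⟨?_, ?_⟩, ?_, ?_⟩
        · intro v hv
          exact hz'.pl.nz _ (hmem v hv)
        · intro u hu v hv huv
          refine hz'.pl.inc _ (hmem u hu) _ (hmem v hv) ?_
          refine ⟨?_, hππ i u, hππ i v, u, v, rfl, rfl, huv⟩
          rw [htπ u, htπ v]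
          exact (b.G K).bip huv
        · have hpπ : g.π p = p := hπn i p hip.1
          have hqπ : g.π q = q := hπn i q hiq.1
          have hpm : p ∈ Y.image g.π := by
            have := hmem p hp
            rwa [hpπ] at this
          have hqm : q ∈ Y.image g.π := by
            have := hmem q hq
            rwa [hqπ] at this
          show z' (g.π p) ⬝ᵥ z' (g.π q) ≠ 0
          rw [hpπ, hqπ]
          refine hz'.ninc p hpm q hqm htpq ?_ ?_
          · rw [Fold.amb_agree (hamb i) p q hip.1 hiq.1]
            exact hnadj
          · rintro (⟨-, h2⟩ | ⟨-, h2⟩)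
            · simp only [Fold.Wk, Finset.mem_insert, Finset.mem_singleton] at h2
              rcases h2 with h2 | h2
              · exact hiq.1 (by rw [h2]; exact hBl i (hctr i))
              · exact hiq.2 h2
            · simp only [Fold.Wk, Finset.mem_insert, Finset.mem_singleton] at h2
              rcases h2 with h2 | h2
              · exact hip.1 (by rw [h2]; exact hBl i (hctr i))
              · exact hip.2 h2
        · intro z hz
          apply good_of_no_stuck
          intro W hW hWne
          by_contra hcon
          push Not at hcon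
          -- neighbours of the same vertex have the same kind
          have hsame : ∀ v u w, u ∈ nb (b.G K) W v → w ∈ nb (b.G K) W v →
              (b.G K).typ u = (b.G K).typ w := by
            intro v u w hu hw
            rw [mem_nb] at hu hw
            have h3 := (b.G K).bip hu.2
            have h4 := (b.G K).bip hw.2
            cases e1 : (b.G K).typ v <;> cases e2 : (b.G K).typ u <;>
              cases e3 : (b.G K).typ w <;> simp_all
          have key : ∀ v ∈ W, 3 ≤ deg (b.G K) W v ∨ (v ∈ g.Bl ∧ 2 ≤ deg (b.G K) W v) := by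
            intro v hv
            by_cases hdeg : 3 ≤ deg (b.G K) W v
            · exact Or.inl hdeg
            · right
              have hle : (nb (b.G K) W v).card ≤ 2 := by
                unfold deg at hdeg; omega
              obtain ⟨y, hy, u, hu, w, hw, huw, hcr⟩ := hcon v hv hle
              have hge : 2 ≤ deg (b.G K) W v := by
                unfold deg
                have : ({u, w} : Finset V) ⊆ nb (b.G K) W v := by
                  intro x hx
                  simp only [Finset.mem_insert, Finset.mem_singleton] at hx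
                  rcases hx with rfl | rfl
                  · exact hu
                  · exact hw
                have h2 := Finset.card_le_card this
                rwa [Finset.card_pair huw] at h2
              refine ⟨?_, hge⟩
              have hty := hsame v u w hu hw
              have hu' := (mem_nb.1 hu)
              have hw' := (mem_nb.1 hw)
              rcases hy with hy | hy
              · exfalso
                rw [hy] at hcr
                exact hz u (hW hu'.1) w (hW hw'.1) hty huw hcr
              · have hy' : y = fun x => z' (g.π x) := hy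
                rw [hy'] at hcr
                refine Fold.amb_blocked (hamb i) v u w hu'.2 hw'.2 huw ?_
                by_contra hne
                exact hz'.dis _ (hmem u (hW hu'.1)) _ (hmem w (hW hw'.1))
                  (by
                    show (b.G K).typ (g.π u) = (b.G K).typ (g.π w)
                    rw [htπ, htπ]; exact hty) hne hcr
          obtain ⟨p', hp', w', hw', hpw⟩ := cut1 K hK b hb W (W.filter (fun v => v ∈ g.Bl))
            (hW.trans hYS) hWne (Finset.filter_subset _ _)
            ((Finset.card_le_card (by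
              intro x hx
              exact (Finset.mem_filter.1 hx).2)).trans (hBlc i))
            (by
              intro v hv
              rcases key v hv with h | h
              · omega
              · exact h.2)
            (by
              intro v hv hvn
              rcases key v hv with h | h
              · exact h
              · exact absurd (Finset.mem_filter.2 ⟨hv, h.1⟩) hvn)
          have hpB : p' ∈ g.Bl := (Finset.mem_filter.1 hp').2
          have hn1 : Near K 3 g.ctr p' := hN1 i _ (hBl i hpB)
          have hn2 : Near K 1 b.ctr w' := hb2 _ hw'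
          have hn3 : Near K 1 p' w' := by
            rcases hpw with h | h
            · rw [h]; exact near_mono (Nat.zero_le 1) (rfl : Near K 0 w' w')
            · exact near_adj h
          have hn4 := near_trans hn2 (near_symm (near_trans hn1 hn3))
          exact lv27_far (hfar i) (by omega) hn4
      -- merging all pairs
      have hall : ∀ PP : Finset (V × V), (∀ e ∈ PP, e.1 ∈ Y ∧ e.2 ∈ Y ∧
          (b.G K).typ e.1 ≠ (b.G K).typ e.2 ∧ ¬ (b.G K).adj e.1 e.2) →
          ∃ z, IsPl (b.G K) Y z ∧ Dis (b.G K) Y z ∧ ∀ e ∈ PP, z e.1 ⬝ᵥ z e.2 ≠ 0 := by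
        intro PP
        induction PP using Finset.induction_on with
        | empty =>
          intro _
          exact ⟨z1, hz1, hd1, by simp⟩
        | insert e PP _ ihP =>
          intro hPP
          obtain ⟨z, hz, hd, hzP⟩ := ihP (fun e' he' => hPP e' (Finset.mem_insert_of_mem he'))
          obtain ⟨h1, h2, h3, h4⟩ := hPP e (Finset.mem_insert_self _ _)
          obtain ⟨zf, hzf, hne, hgood⟩ := hpair e.1 h1 e.2 h2 h3 h4
          obtain ⟨zc, hzc, hdot, hcross, -⟩ := combine (b.G K) Y z zf (hgood z hd) hz hzf
          refine ⟨zc, hzc, ?_, ?_⟩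
          · intro u hu v hv huv hne'
            exact hcross u hu v hv (Or.inl (hd u hu v hv huv hne'))
          · intro e' he'
            obtain ⟨k1, k2, -, -⟩ := hPP e' he'
            rcases Finset.mem_insert.1 he' with rfl | he''
            · exact hdot _ k1 _ k2 (Or.inr hne)
            · exact hdot _ k1 _ k2 (Or.inl (hzP e' he''))
      obtain ⟨z, hz, hd, hzP⟩ := hall ((Y ×ˢ Y).filter (fun e =>
        (b.G K).typ e.1 ≠ (b.G K).typ e.2 ∧ ¬ (b.G K).adj e.1 e.2)) (by
          intro e he
          rw [Finset.mem_filter, Finset.mem_product] at he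
          exact ⟨he.1.1, he.1.2, he.2.1, he.2.2⟩)
      refine ⟨z, hz, hd, ?_⟩
      intro u hu v hv htuv hnadj _
      exact hzP (u, v) (by
        rw [Finset.mem_filter, Finset.mem_product]
        exact ⟨⟨hu, hv⟩, htuv, hnadj⟩)
  exact main _ b.S rfl (Finset.Subset.refl _)

end Pool.Agent.Levi3
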