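import Pool.Agent.Levi3.Defs

/-! LV28 : OpenUnfold -/

namespace Pool.Agent.Levi3

open Matrix Finset

variable {V : Type} [DecidableEq V]

/-- coordinate functional -/
noncomputable def lv28_p [Fintype V] (u : V) (k : Fin 3) : (V → E3) →L[ℝ] ℝ :=
  (ContinuousLinearMap.proj (R := ℝ) (φ := fun _ : Fin 3 => ℝ) k).comp
    (ContinuousLinearMap.proj (R := ℝ) (φ := fun _ : V => E3) u)

omit [DecidableEq V] in
theorem lv28_p_apply [Fintype V] (u : V) (k : Fin 3) (z : V → E3) : lv28_p u k z = z u k := rfl

/-- derivative of a product of two coordinates -/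
noncomputable def lv28_d [Fintype V] (z0 : V → E3) (u v : V) (k l : Fin 3) : (V → E3) →L[ℝ] ℝ :=
  z0 u k • lv28_p v l + z0 v l • lv28_p u k

omit [DecidableEq V] in
theorem lv28_hd [Fintype V] (z0 : V → E3) (u v : V) (k l : Fin 3) :
    HasStrictFDerivAt (fun z : V → E3 => z u k * z v l) (lv28_d z0 u v k l) z0 := by
  have h1 : HasStrictFDerivAt (fun z : V → E3 => z u k) (lv28_p u k) z0 :=
    (lv28_p u k).hasStrictFDerivAt
  have h2 : HasStrictFDerivAt (fun z : V → E3 => z v l) (lv28_p v l) z0 :=
    (lv28_p v l).hasStrictFDerivAt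
  exact h1.mul h2

/-- derivative of the dot product -/
noncomputable def lv28_dot [Fintype V] (z0 : V → E3) (u v : V) : (V → E3) →L[ℝ] ℝ :=
  lv28_d z0 u v 0 0 + lv28_d z0 u v 1 1 + lv28_d z0 u v 2 2

omit [DecidableEq V] in
theorem lv28_hdot [Fintype V] (z0 : V → E3) (u v : V) :
    HasStrictFDerivAt (fun z : V → E3 => z u ⬝ᵥ z v) (lv28_dot z0 u v) z0 := by
  have h := ((lv28_hd z0 u v 0 0).add (lv28_hd z0 u v 1 1)).add (lv28_hd z0 u v 2 2)
  have e : (fun z : V → E3 => z u ⬝ᵥ z v) =
      ((fun z : V → E3 => z u 0 * z v 0) + fun z => z u 1 * z v 1) + fun z => z u 2 * z v 2 := by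
    funext z
    simp [dotProduct, Fin.sum_univ_three]
  rw [e]
  exact h

omit [DecidableEq V] in
theorem lv28_dot_apply [Fintype V] (z0 : V → E3) (u v : V) (dz : V → E3) :
    lv28_dot z0 u v dz = dz u ⬝ᵥ z0 v + z0 u ⬝ᵥ dz v := by
  simp [lv28_dot, lv28_d, lv28_p_apply, dotProduct, Fin.sum_univ_three]
  ring

/-- derivative of the determinant -/
noncomputable def lv28_det [Fintype V] (z0 : V → E3) (A B : V) (m : E3) : (V → E3) →L[ℝ] ℝ :=
  m 0 • (lv28_d z0 A B 1 2 - lv28_d z0 A B 2 1) + m 1 • (lv28_d z0 A B 2 0 - lv28_d z0 A B 0 2) +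
    m 2 • (lv28_d z0 A B 0 1 - lv28_d z0 A B 1 0)

omit [DecidableEq V] in
theorem lv28_hdet [Fintype V] (z0 : V → E3) (A B : V) (m : E3) :
    HasStrictFDerivAt (fun z : V → E3 => (z A ⨯₃ z B) ⬝ᵥ m) (lv28_det z0 A B m) z0 := by
  have h := ((((lv28_hd z0 A B 1 2).sub (lv28_hd z0 A B 2 1)).const_smul (m 0)).add
    (((lv28_hd z0 A B 2 0).sub (lv28_hd z0 A B 0 2)).const_smul (m 1))).add
    (((lv28_hd z0 A B 0 1).sub (lv28_hd z0 A B 1 0)).const_smul (m 2))
  refine h.congr_of_eventuallyEq (Filter.Eventually.of_forall fun z => ?_)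
  simp [dotProduct, Fin.sum_univ_three, cross_apply]
  ring

omit [DecidableEq V] in
theorem lv28_det_apply [Fintype V] (z0 : V → E3) (A B : V) (m : E3) (dz : V → E3) :
    lv28_det z0 A B m dz = (dz A ⨯₃ z0 B) ⬝ᵥ m + (z0 A ⨯₃ dz B) ⬝ᵥ m := by
  simp [lv28_det, lv28_d, lv28_p_apply, dotProduct, Fin.sum_univ_three, cross_apply]
  ring

theorem lv28_triple1 (x y m : E3) : (x ⨯₃ y) ⬝ᵥ m = x ⬝ᵥ (y ⨯₃ m) := by
  simp [dotProduct, Fin.sum_univ_three, cross_apply]
  ring

theorem lv28_triple2 (x y m : E3) : (y ⨯₃ x) ⬝ᵥ m = x ⬝ᵥ (-(y ⨯₃ m)) := by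
  simp [dotProduct, Fin.sum_univ_three, cross_apply]
  ring

theorem open_unfold [Fintype V] (K : Inc V) (z0 : V → E3)
    (hz0 : ∀ u v, K.adj u v → z0 u ⬝ᵥ z0 v = 0)
    (A B : V) (hne : A ≠ B) (hAB : z0 A = z0 B) (m : E3)
    (hind : ∀ (ω : V → V → ℝ) (κ : ℝ), (∀ u v, ω u v = ω v u) →
      (∀ u v, ¬ K.adj u v → ω u v = 0) →
      (∀ v, (∑ u, ω v u • z0 u) +
        κ • (if v = A then z0 A ⨯₃ m else if v = B then -(z0 A ⨯₃ m) else 0) = 0) →
      κ = 0 ∧ ∀ u v, ω u v = 0) (ε : ℝ) (hε : 0 < ε) :
    ∃ z : V → E3, (∀ v, ‖z v - z0 v‖ < ε) ∧ (∀ u v, K.adj u v → z u ⬝ᵥ z v = 0) ∧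
      z A ⨯₃ z B ≠ 0 := by
  classical
  -- the directed edges
  let E : Type := {p : V × V // K.typ p.1 = true ∧ K.adj p.1 p.2}
  let D : (V → E3) →L[ℝ] (E → ℝ) × ℝ :=
    (ContinuousLinearMap.pi fun e : E => lv28_dot z0 e.1.1 e.1.2).prod (lv28_det z0 A B m)
  let F : (V → E3) → (E → ℝ) × ℝ := fun z => (fun e => z e.1.1 ⬝ᵥ z e.1.2, (z A ⨯₃ z B) ⬝ᵥ m)
  have hF : HasStrictFDerivAt F D z0 := by
    refine HasStrictFDerivAt.prodMk ?_ (lv28_hdet z0 A B m)
    exact hasStrictFDerivAt_pi.2 fun e => lv28_hdot z0 e.1.1 e.1.2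
  have hF0 : F z0 = 0 := by
    refine Prod.ext ?_ ?_
    · funext e
      exact hz0 _ _ e.2.2
    · change (z0 A ⨯₃ z0 B) ⬝ᵥ m = 0
      rw [hAB, cross_self, zero_dotProduct]
  have hsurj : D.range = ⊤ := by
    by_contra hc
    obtain ⟨f, hf0, hf⟩ := Submodule.exists_le_ker_of_lt_top _ (lt_top_iff_ne_top.2 hc)
    have hfD : ∀ dz, f (D dz) = 0 := fun dz => hf ⟨dz, rfl⟩
    set om : E → ℝ := fun e => f (Pi.single e 1, 0) with hom
    set κ : ℝ := f (0, 1) with hκ
    have hfx : ∀ (x : E → ℝ) (y : ℝ), f (x, y) = ∑ e, x e * om e + y * κ := by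
      intro x y
      have e1 : (x, y) = ∑ e : E, x e • ((Pi.single e (1:ℝ) : E → ℝ), (0:ℝ)) + y • ((0 : E → ℝ), (1:ℝ)) := by
        refine Prod.ext ?_ ?_
        · funext e'
          have e2 : ∑ e : E, (x e • (Pi.single e (1:ℝ) : E → ℝ)) e' = x e' := by
            rw [Finset.sum_eq_single e']
            · simp
            · intro e _ hee
              rw [Pi.smul_apply, Pi.single_eq_of_ne (Ne.symm hee), smul_zero]
            · intro h
              exact absurd (mem_univ e') h
          simp only [Prod.fst_add, Prod.fst_sum, Prod.smul_mk, smul_zero, Pi.add_apply,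
            Finset.sum_apply, Pi.zero_apply, add_zero]
          exact e2.symm
        · simp [Prod.snd_sum]
      rw [e1, map_add, map_sum, map_smul, smul_eq_mul]
      congr 1
      refine Finset.sum_congr rfl fun e _ => ?_
      rw [map_smul, smul_eq_mul]
    -- the symmetric stress
    set ω : V → V → ℝ := fun u v =>
      if h : K.typ u = true ∧ K.adj u v then om ⟨(u, v), h⟩
      else if h : K.typ v = true ∧ K.adj v u then om ⟨(v, u), h⟩ else 0 with hω
    have hsym : ∀ u v, ω u v = ω v u := by
      intro u v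
      rw [hω]
      dsimp only
      by_cases h1 : K.typ u = true ∧ K.adj u v
      · have h2 : ¬ (K.typ v = true ∧ K.adj v u) := fun h2 => K.bip h1.2 (h1.1.trans h2.1.symm)
        rw [dif_pos h1, dif_neg h2, dif_pos h1]
      · by_cases h2 : K.typ v = true ∧ K.adj v u
        · rw [dif_neg h1, dif_pos h2, dif_pos h2]
        · rw [dif_neg h1, dif_neg h2, dif_neg h2, dif_neg h1]
    have hsupp : ∀ u v, ¬ K.adj u v → ω u v = 0 := by
      intro u v h
      rw [hω]
      dsimp only
      rw [dif_neg (fun h1 => h h1.2), dif_neg (fun h1 => h (K.symm h1.2))]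
    -- sums over edges
    have hsum : ∀ (g : V → V → ℝ), ∑ e : E, g e.1.1 e.1.2 * om e =
        ∑ p : V × V, if K.typ p.1 = true ∧ K.adj p.1 p.2 then g p.1 p.2 * ω p.1 p.2 else 0 := by
      intro g
      rw [← Finset.sum_filter]
      refine Finset.sum_bij' (fun e _ => e.1) (fun p hp => ⟨p, (Finset.mem_filter.1 hp).2⟩)
        ?_ ?_ ?_ ?_ ?_
      · intro e _
        exact Finset.mem_filter.2 ⟨mem_univ _, e.2⟩
      · intro p _
        exact mem_univ _
      · intro e _
        rfl
      · intro p _
        rfl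
      · intro e _
        rw [hω]
        dsimp only
        rw [dif_pos e.2]
    have heq : ∀ v, (∑ u, ω v u • z0 u) +
        κ • (if v = A then z0 A ⨯₃ m else if v = B then -(z0 A ⨯₃ m) else 0) = 0 := by
      intro v
      have hx : ∀ x : E3, x ⬝ᵥ ((∑ u, ω v u • z0 u) +
          κ • (if v = A then z0 A ⨯₃ m else if v = B then -(z0 A ⨯₃ m) else 0)) = 0 := by
        intro x
        have h := hfD (Pi.single v x)
        have hD : D (Pi.single v x) = (fun e : E => lv28_dot z0 e.1.1 e.1.2 (Pi.single v x),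
            lv28_det z0 A B m (Pi.single v x)) := rfl
        rw [hD, hfx] at h
        simp only [lv28_dot_apply, lv28_det_apply] at h
        rw [hsum (fun a b => (Pi.single v x : V → E3) a ⬝ᵥ z0 b +
          z0 a ⬝ᵥ (Pi.single v x : V → E3) b)] at h
        have e1 : ∑ p : V × V, (if K.typ p.1 = true ∧ K.adj p.1 p.2 then
            ((Pi.single v x : V → E3) p.1 ⬝ᵥ z0 p.2 + z0 p.1 ⬝ᵥ (Pi.single v x : V → E3) p.2) *
              ω p.1 p.2 else 0) = x ⬝ᵥ ∑ u, ω v u • z0 u := by
          have e2 : ∀ p : V × V, (if K.typ p.1 = true ∧ K.adj p.1 p.2 then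
            ((Pi.single v x : V → E3) p.1 ⬝ᵥ z0 p.2 + z0 p.1 ⬝ᵥ (Pi.single v x : V → E3) p.2) *
              ω p.1 p.2 else 0) =
              (if p.1 = v then (if K.typ v = true ∧ K.adj v p.2 then
                ω v p.2 * (x ⬝ᵥ z0 p.2) else 0) else 0) +
              (if p.2 = v then (if K.typ p.1 = true ∧ K.adj p.1 v then
                ω v p.1 * (x ⬝ᵥ z0 p.1) else 0) else 0) := by
            rintro ⟨a, b⟩
            dsimp only
            by_cases hab : K.typ a = true ∧ K.adj a b
            · rw [if_pos hab]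
              by_cases ha : a = v
              · have hb : b ≠ v := by
                  rintro rfl
                  rw [ha] at hab
                  exact K.irr _ hab.2
                rw [ha] at hab ⊢
                rw [if_pos rfl, if_pos hab, if_neg hb, Pi.single_eq_same, Pi.single_eq_of_ne hb,
                  dotProduct_zero, add_zero, add_zero]
                ring
              · by_cases hb : b = v
                · rw [hb] at hab ⊢
                  rw [if_neg ha, if_pos rfl, if_pos hab, Pi.single_eq_same,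
                    Pi.single_eq_of_ne ha, zero_dotProduct, zero_add, zero_add, dotProduct_comm,
                    hsym v a]
                  ring
                · rw [if_neg ha, if_neg hb, Pi.single_eq_of_ne ha, Pi.single_eq_of_ne hb,
                    zero_dotProduct, dotProduct_zero]
                  ring
            · rw [if_neg hab]
              by_cases ha : a = v
              · rw [ha] at hab ⊢
                rw [if_pos rfl, if_neg hab]
                by_cases hb : b = v
                · rw [hb] at hab ⊢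
                  rw [if_pos rfl, if_neg hab, add_zero]
                · rw [if_neg hb, add_zero]
              · rw [if_neg ha]
                by_cases hb : b = v
                · rw [hb] at hab ⊢
                  rw [if_pos rfl, if_neg hab, add_zero]
                · rw [if_neg hb, add_zero]
          rw [Finset.sum_congr rfl fun p _ => e2 p, Finset.sum_add_distrib,
            ← Finset.univ_product_univ, Finset.sum_product, Finset.sum_product_right]
          simp only [Finset.sum_ite_irrel, Finset.sum_const_zero, Finset.sum_ite_eq',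
            mem_univ, if_true]
          rw [← Finset.sum_add_distrib, dotProduct_sum]
          refine Finset.sum_congr rfl fun u _ => ?_
          rw [dotProduct_smul, smul_eq_mul]
          by_cases h1 : K.adj v u
          · by_cases h2 : K.typ v = true
            · have h3 : ¬ (K.typ u = true ∧ K.adj u v) := fun h3 => K.bip h1 (h2.trans h3.1.symm)
              rw [if_pos ⟨h2, h1⟩, if_neg h3, add_zero]
            · have h3 : K.typ u = true := by
                have := K.bip h1
                cases hu : K.typ u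
                · cases hv : K.typ v
                  · rw [hu, hv] at this
                    exact absurd rfl this
                  · exact absurd hv h2
                · rfl
              rw [if_neg (fun h => h2 h.1), if_pos ⟨h3, K.symm h1⟩, zero_add]
          · rw [if_neg (fun h => h1 h.2), if_neg (fun h => h1 (K.symm h.2)), hsupp v u h1]
            ring
        rw [e1] at h
        rw [dotProduct_add, dotProduct_smul, smul_eq_mul]
        have e3 : ((Pi.single v x : V → E3) A ⨯₃ z0 B) ⬝ᵥ m +
            (z0 A ⨯₃ (Pi.single v x : V → E3) B) ⬝ᵥ m =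
            x ⬝ᵥ (if v = A then z0 A ⨯₃ m else if v = B then -(z0 A ⨯₃ m) else 0) := by
          by_cases h1 : v = A
          · subst h1
            rw [if_pos rfl, Pi.single_eq_same, Pi.single_eq_of_ne (Ne.symm hne), ← hAB,
              lv28_triple1]
            simp
          · by_cases h2 : v = B
            · subst h2
              rw [if_neg h1, if_pos rfl, Pi.single_eq_same, Pi.single_eq_of_ne (Ne.symm h1),
                LinearMap.map_zero, LinearMap.zero_apply, zero_dotProduct, zero_add]
              exact lv28_triple2 x (z0 A) m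
            · rw [if_neg h1, if_neg h2, Pi.single_eq_of_ne (Ne.symm h1),
                Pi.single_eq_of_ne (Ne.symm h2)]
              simp
        rw [e3] at h
        linarith
      exact dotProduct_self_eq_zero.1 (hx _)
    obtain ⟨hκ0, hω0⟩ := hind ω κ hsym hsupp heq
    apply hf0
    refine LinearMap.ext fun p => ?_
    obtain ⟨x, y⟩ := p
    rw [hfx, hκ0, mul_zero, add_zero, LinearMap.zero_apply]
    refine Finset.sum_eq_zero fun e _ => ?_
    have := hω0 e.1.1 e.1.2
    rw [hω] at this
    dsimp only at this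
    rw [dif_pos e.2] at this
    have h2 : om e = 0 := this
    rw [h2, mul_zero]
  have hmap := hF.map_nhds_eq_of_surj hsurj
  have hball : F '' Metric.ball z0 ε ∈ nhds (0 : (E → ℝ) × ℝ) := by
    rw [← hF0, ← hmap]
    exact Filter.image_mem_map (Metric.ball_mem_nhds z0 hε)
  have hcont : Filter.Tendsto (fun t : ℝ => ((0 : E → ℝ), t)) (nhds 0) (nhds 0) := by
    have : Continuous fun t : ℝ => ((0 : E → ℝ), t) := by fun_prop
    exact this.tendsto' 0 0 rfl
  have hev := hcont hball
  obtain ⟨δ, hδ, hδb⟩ := Metric.mem_nhds_iff.1 hev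
  have hmem : δ / 2 ∈ Metric.ball (0:ℝ) δ := by
    rw [Metric.mem_ball, dist_zero_right, Real.norm_of_nonneg (by positivity)]
    linarith
  obtain ⟨z, hz, hzF⟩ := hδb hmem
  refine ⟨z, fun v => ?_, fun u v huv => ?_, fun h0 => ?_⟩
  · have h1 : ‖(z - z0) v‖ ≤ ‖z - z0‖ := norm_le_pi_norm (z - z0) v
    have h2 : ‖z - z0‖ < ε := by
      rw [← dist_eq_norm]
      exact hz
    exact lt_of_le_of_lt h1 h2
  · have h1 : ∀ e : E, z e.1.1 ⬝ᵥ z e.1.2 = 0 := fun e => congrFun (congrArg Prod.fst hzF) e
    cases hu : K.typ u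
    · have hv : K.typ v = true := by
        have := K.bip huv
        cases hv : K.typ v
        · rw [hu, hv] at this
          exact absurd rfl this
        · rfl
      rw [dotProduct_comm]
      exact h1 ⟨(v, u), hv, K.symm huv⟩
    · exact h1 ⟨(u, v), hu, huv⟩
  · have h1 : (z A ⨯₃ z B) ⬝ᵥ m = δ / 2 := congrArg Prod.snd hzF
    rw [h0, zero_dotProduct] at h1
    linarith

end Pool.Agent.Levi3
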