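import Pool.Agent.Levi3.Defs
import Pool.Agent.Levi3.LV14

/-! LV29 : UnfoldInd -/

namespace Pool.Agent.Levi3

open Matrix Finset

variable {V : Type} [DecidableEq V]

theorem lv29_sum3 [Fintype V] (K : Inc V) (ω : V → V → ℝ)
    (h2 : ∀ u v, ¬ K.adj u v → ω u v = 0)
    (F : V → E3) {v x y t : V} (hxy : x ≠ y) (hxt : x ≠ t) (hyt : y ≠ t)
    (hn : ∀ u, K.adj v u → u = x ∨ u = y ∨ u = t) :
    ∑ u, ω v u • F u = ω v x • F x + ω v y • F y + ω v t • F t := by
  have : ∑ u, ω v u • F u = ∑ u ∈ ({x, y, t} : Finset V), ω v u • F u := by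
    symm
    apply Finset.sum_subset (Finset.subset_univ _)
    intro u _ hu
    have : ¬ K.adj v u := fun h => hu (by
      rcases hn u h with rfl | rfl | rfl <;> simp)
    rw [h2 _ _ this, zero_smul]
  rw [this, Finset.sum_insert (by simp [hxy, hxt]), Finset.sum_insert (by simp [hyt]),
    Finset.sum_singleton, add_assoc]

theorem lv29_two {x y : E3} (h : x ⨯₃ y ≠ 0) {a b : ℝ} (e : a • x + b • y = 0) :
    a = 0 ∧ b = 0 := by
  have h1 : x ⨯₃ (a • x + b • y) = 0 := by rw [e]; simp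
  have h2 : (a • x + b • y) ⨯₃ y = 0 := by rw [e]; simp
  simp only [map_add, map_smul, cross_self, smul_zero, zero_add, smul_eq_zero] at h1
  simp only [map_add, map_smul, LinearMap.add_apply, LinearMap.smul_apply, cross_self, smul_zero,
    add_zero, smul_eq_zero] at h2
  exact ⟨h2.resolve_right h, h1.resolve_right h⟩

theorem lv29_cross_ne {x y : E3} (hx : x ≠ 0) (hy : y ≠ 0) (hxy : x ⬝ᵥ y = 0) :
    x ⨯₃ y ≠ 0 := by
  intro h
  obtain ⟨c, hc⟩ := exists_smul_of_cross_eq_zero hx h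
  rw [hc, dotProduct_smul, smul_eq_mul] at hxy
  rcases mul_eq_zero.1 hxy with h0 | h0
  · exact hy (by rw [hc, h0, zero_smul])
  · exact hx (dotProduct_self_eq_zero.1 h0)

theorem lv29_fin {x y : E3} (hx : x ≠ 0) (hy : y ≠ 0) (hxy : x ⬝ᵥ y = 0) {a b : ℝ}
    (e : a • y + b • (x ⨯₃ y) = 0) : a = 0 ∧ b = 0 := by
  have h1 : y ⬝ᵥ (a • y + b • (x ⨯₃ y)) = 0 := by rw [e, dotProduct_zero]
  have h3 : y ⬝ᵥ (x ⨯₃ y) = 0 := by
    rw [dotProduct_comm]
    simp [cross_apply, dotProduct, Fin.sum_univ_three]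
    ring
  rw [dotProduct_add, dotProduct_smul, dotProduct_smul, h3, smul_zero, add_zero, smul_eq_mul] at h1
  have ha : a = 0 := by
    rcases mul_eq_zero.1 h1 with h0 | h0
    · exact h0
    · exact absurd (dotProduct_self_eq_zero.1 h0) hy
  refine ⟨ha, ?_⟩
  rw [ha, zero_smul, zero_add, smul_eq_zero] at e
  exact e.resolve_right (lv29_cross_ne hx hy hxy)

theorem lv29_bd_eq [Fintype V] (K : Inc V) (X : Finset V) :
    bd K X = ∑ v ∈ X, (nb K (univ \ X) v).card := by
  unfold bd
  refine Finset.sum_congr rfl fun v _ => ?_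
  congr 1
  ext u
  simp only [mem_nb, mem_sdiff, mem_univ, true_and]

omit [DecidableEq V] in
/-- Double counting of edges between two sets. -/
theorem lv29_sum_nb (K : Inc V) (X Y : Finset V) :
    ∑ v ∈ X, (nb K Y v).card = ∑ v ∈ Y, (nb K X v).card := by
  classical
  simp only [nb, Finset.card_filter]
  rw [Finset.sum_comm]
  refine Finset.sum_congr rfl fun v _ => Finset.sum_congr rfl fun u _ => ?_
  rw [K.comm]

/-- If all edges leaving `Y` go to `U`, then the boundaries of `Y` and `Y ∪ U` add up to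
that of `U`. -/
theorem lv29_bd [Fintype V] (K : Inc V) (Y U : Finset V) (hd : Disjoint Y U)
    (h : ∀ y ∈ Y, ∀ x, K.adj y x → x ∈ Y ∨ x ∈ U) :
    bd K Y + bd K (Y ∪ U) = bd K U := by
  have e1 : bd K Y = ∑ v ∈ Y, (nb K U v).card := by
    rw [lv29_bd_eq]
    refine Finset.sum_congr rfl fun v hv => ?_
    congr 1
    ext u
    simp only [mem_nb, mem_sdiff, mem_univ, true_and]
    constructor
    · rintro ⟨hu, ha⟩
      exact ⟨(h v hv u ha).resolve_left hu, ha⟩
    · rintro ⟨hu, ha⟩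
      exact ⟨fun hy => (Finset.disjoint_left.1 hd) hy hu, ha⟩
  have e2 : bd K (Y ∪ U) = ∑ v ∈ U, (nb K (univ \ (Y ∪ U)) v).card := by
    rw [lv29_bd_eq, Finset.sum_union hd]
    have : ∑ v ∈ Y, (nb K (univ \ (Y ∪ U)) v).card = 0 := by
      refine Finset.sum_eq_zero fun v hv => ?_
      rw [Finset.card_eq_zero, Finset.eq_empty_iff_forall_notMem]
      intro u hu
      simp only [mem_nb, mem_sdiff, mem_univ, true_and, mem_union] at hu
      exact hu.1 (h v hv u hu.2)
    rw [this, zero_add]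
  rw [e1, e2, lv29_bd_eq, lv29_sum_nb, ← Finset.sum_add_distrib]
  refine Finset.sum_congr rfl fun v hv => ?_
  rw [← Finset.card_union_of_disjoint]
  · congr 1
    ext u
    simp only [mem_nb, mem_sdiff, mem_univ, true_and, mem_union]
    constructor
    · rintro (⟨hu, ha⟩ | ⟨hu, ha⟩)
      · exact ⟨fun hy => (Finset.disjoint_left.1 hd) hu hy, ha⟩
      · exact ⟨fun hy => hu (Or.inr hy), ha⟩
    · rintro ⟨hu, ha⟩
      by_cases hy : u ∈ Y
      · exact Or.inl ⟨hy, ha⟩
      · exact Or.inr ⟨fun hh => hh.elim hy hu, ha⟩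
  · rw [Finset.disjoint_left]
    intro u hu hu'
    simp only [mem_nb, mem_sdiff, mem_univ, true_and, mem_union] at hu hu'
    exact hu'.1 (Or.inl hu.1)

/-- The combinatorial core: outside the region all coefficients vanish. -/
theorem lv29_core [Fintype V] (K : Inc V) (hK : C5 K) (U : Finset V) (hU : 2 ≤ U.card)
    (ω : V → V → ℝ) (h1 : ∀ u v, ω u v = ω v u)
    (hall : ∀ v, v ∉ U → ∀ u, K.adj v u → ω v u = 0 → ∀ u', ω v u' = 0)
    (c : V) (hc : c ∉ U) (hc0 : ∀ u, ω c u = 0)
    (hb : bd K U ≤ 5 ∨ (bd K U ≤ 6 ∧ ∀ y, y ∉ U → ¬ ∀ x, K.adj y x → x ∈ U)) :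
    ∀ v, v ∉ U → ∀ u, ω v u = 0 := by
  classical
  set Y : Finset V := univ.filter (fun v => v ∉ U ∧ ∃ u, ω v u ≠ 0) with hY
  have hYmem : ∀ v, v ∈ Y ↔ v ∉ U ∧ ∃ u, ω v u ≠ 0 := fun v => by simp [hY]
  have hd : Disjoint Y U := by
    rw [Finset.disjoint_left]
    intro v hv
    exact ((hYmem v).1 hv).1
  have hout : ∀ y ∈ Y, ∀ x, K.adj y x → x ∈ Y ∨ x ∈ U := by
    intro y hy x hyx
    obtain ⟨hyU, u, hu⟩ := (hYmem y).1 hy
    have hne : ω y x ≠ 0 := fun h0 => hu (hall y hyU x hyx h0 u)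
    by_cases hx : x ∈ U
    · exact Or.inr hx
    · exact Or.inl ((hYmem x).2 ⟨hx, y, by rwa [h1]⟩)
  have hsum := lv29_bd K Y U hd hout
  have hUne : U.Nonempty := Finset.card_pos.1 (by omega)
  obtain ⟨p, hp⟩ := hUne
  have hpY : p ∉ Y := fun hh => ((hYmem p).1 hh).1 hp
  have hcY : c ∉ Y := fun hh => by
    obtain ⟨_, u, hu⟩ := (hYmem c).1 hh
    exact hu (hc0 u)
  have hbig : 3 ≤ bd K (Y ∪ U) := by
    by_contra hlt
    rcases hK.c2 (Y ∪ U) (by omega) with h0 | h0
    · have : p ∈ Y ∪ U := Finset.mem_union_right _ hp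
      rw [h0] at this
      simp at this
    · have : c ∈ Y ∪ U := by rw [h0]; exact Finset.mem_univ _
      rcases Finset.mem_union.1 this with h5 | h5
      · exact hcY h5
      · exact hc h5
  have hYe : Y = ∅ := by
    by_contra hne
    have h3 : 3 ≤ bd K Y := by
      by_contra hlt
      rcases hK.c2 Y (by omega) with h0 | h0
      · exact hne h0
      · exact hpY (by rw [h0]; exact Finset.mem_univ _)
    rcases hb with hb | ⟨hb, hb2⟩
    · omega
    · have h33 : bd K Y = 3 := by omega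
      have hYc : Y.card ≤ 1 := by
        rcases hK.c3 Y h33 with h0 | h0
        · exact h0
        · exfalso
          have : U ⊆ Yᶜ := by
            intro x hx
            rw [Finset.mem_compl]
            exact fun hh => ((hYmem x).1 hh).1 hx
          have := Finset.card_le_card this
          omega
      obtain ⟨y, hy⟩ := Finset.nonempty_iff_ne_empty.2 hne
      refine hb2 y ((hYmem y).1 hy).1 fun x hx => ?_
      rcases hout y hy x hx with h0 | h0
      · exfalso
        have : y = x := Finset.card_le_one.1 hYc y hy x h0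
        rw [this] at hx
        exact K.irr x hx
      · exact h0
  intro v hv u
  by_contra hne
  have : v ∈ Y := (hYmem v).2 ⟨hv, u, hne⟩
  rw [hYe] at this
  simp at this

section

variable [Fintype V] {K : Inc V} {f : Fold V} {z : V → E3}

omit [DecidableEq V] in
theorem lv29_orth (hidem : ∀ x, f.π (f.π x) = f.π x) (htyp : ∀ x, K.typ (f.π x) = K.typ x)
    (h : NDm (quot K f.π) (f.S' univ) (fun _ _ => False) z) {u v : V} (huv : K.adj u v) :
    z (f.π u) ⬝ᵥ z (f.π v) = 0 := by
  refine h.pl.inc _ (by simp [Fold.S', hidem]) _ (by simp [Fold.S', hidem]) ?_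
  refine ⟨?_, hidem u, hidem v, u, v, rfl, rfl, huv⟩
  rw [htyp, htyp]
  exact K.bip huv

omit [DecidableEq V] in
theorem lv29_nz (hidem : ∀ x, f.π (f.π x) = f.π x)
    (h : NDm (quot K f.π) (f.S' univ) (fun _ _ => False) z) (u : V) :
    z (f.π u) ≠ 0 :=
  h.pl.nz _ (by simp [Fold.S', hidem])

omit [DecidableEq V] in
theorem lv29_dis (hidem : ∀ x, f.π (f.π x) = f.π x) (htyp : ∀ x, K.typ (f.π x) = K.typ x)
    (h : NDm (quot K f.π) (f.S' univ) (fun _ _ => False) z) {u v : V} (ht : K.typ u = K.typ v)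
    (hne : f.π u ≠ f.π v) :
    z (f.π u) ⨯₃ z (f.π v) ≠ 0 := by
  refine h.dis _ (by simp [Fold.S', hidem]) _ (by simp [Fold.S', hidem]) ?_ hne
  change K.typ (f.π u) = K.typ (f.π v)
  rw [htyp, htyp, ht]

omit [DecidableEq V] [Fintype V] in
theorem lv29_typ2 {v x y : V} (hx : K.adj v x) (hy : K.adj v y) : K.typ x = K.typ y := by
  have h1 := K.bip hx
  have h2 := K.bip hy
  revert h1 h2
  cases K.typ v <;> cases K.typ x <;> cases K.typ y <;> simp

/-- If one of three coefficients vanishes and the other two images differ, all vanish. -/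
theorem lv29_C (hidem : ∀ x, f.π (f.π x) = f.π x) (htyp : ∀ x, K.typ (f.π x) = K.typ x)
    (h : NDm (quot K f.π) (f.S' univ) (fun _ _ => False) z)
    {ω : V → V → ℝ} {κ : ℝ} (h2 : ∀ u v, ¬ K.adj u v → ω u v = 0)
    (h3 : ∀ v, (∑ u, ω v u • z (f.π u)) +
        κ • (if v = f.mA then z f.mA ⨯₃ z f.ctr else
          if v = f.mB then -(z f.mA ⨯₃ z f.ctr) else 0) = 0)
    {v x y t : V} (hA : v ≠ f.mA) (hB : v ≠ f.mB) (hxy : x ≠ y) (hxt : x ≠ t) (hyt : y ≠ t)
    (hx : K.adj v x) (hy : K.adj v y)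
    (hn : ∀ u, K.adj v u → u = x ∨ u = y ∨ u = t) (ht : ω v t = 0) (hne : f.π x ≠ f.π y) :
    ω v x = 0 ∧ ω v y = 0 ∧ ∀ u, ω v u = 0 := by
  have e := h3 v
  rw [if_neg hA, if_neg hB, smul_zero, add_zero,
    lv29_sum3 K ω h2 (fun u => z (f.π u)) hxy hxt hyt hn, ht, zero_smul, add_zero] at e
  obtain ⟨e1, e2⟩ := lv29_two (lv29_dis hidem htyp h (lv29_typ2 hx hy) hne) e
  refine ⟨e1, e2, fun u => ?_⟩
  by_cases hu : K.adj v u
  · rcases hn u hu with rfl | rfl | rfl
    · exact e1
    · exact e2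
    · exact ht
  · exact h2 _ _ hu

theorem lv29_A (hK : ∀ v, deg K univ v = 3)
    (hidem : ∀ x, f.π (f.π x) = f.π x) (htyp : ∀ x, K.typ (f.π x) = K.typ x)
    (h : NDm (quot K f.π) (f.S' univ) (fun _ _ => False) z)
    {ω : V → V → ℝ} {κ : ℝ} (h2 : ∀ u v, ¬ K.adj u v → ω u v = 0)
    (h3 : ∀ v, (∑ u, ω v u • z (f.π u)) +
        κ • (if v = f.mA then z f.mA ⨯₃ z f.ctr else
          if v = f.mB then -(z f.mA ⨯₃ z f.ctr) else 0) = 0)
    {v : V} (hA : v ≠ f.mA) (hB : v ≠ f.mB)
    (hinj : ∀ x y, K.adj v x → K.adj v y → f.π x = f.π y → x = y)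
    {u : V} (hu : K.adj v u) (h0 : ω v u = 0) : ∀ u', ω v u' = 0 := by
  have hm : u ∈ nb K univ v := by simp [hu]
  have hc : ((nb K univ v).erase u).card = 2 := by
    rw [Finset.card_erase_of_mem hm]
    have := hK v
    unfold deg at this
    omega
  obtain ⟨x, y, hxy, hxye⟩ := Finset.card_eq_two.1 hc
  have hx : x ∈ (nb K univ v).erase u := by rw [hxye]; simp
  have hy : y ∈ (nb K univ v).erase u := by rw [hxye]; simp
  rw [Finset.mem_erase, mem_nb] at hx hy
  refine (lv29_C hidem htyp h h2 h3 hA hB hxy hx.1 hy.1 hx.2.2 hy.2.2 ?_ h0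
    (fun he => hxy (hinj x y hx.2.2 hy.2.2 he))).2.2
  intro w hw
  by_cases hwu : w = u
  · exact Or.inr (Or.inr hwu)
  · have : w ∈ (nb K univ v).erase u := by
      rw [Finset.mem_erase, mem_nb]
      exact ⟨hwu, mem_univ _, hw⟩
    rw [hxye] at this
    simp only [Finset.mem_insert, Finset.mem_singleton] at this
    rcases this with h5 | h5
    · exact Or.inl h5
    · exact Or.inr (Or.inl h5)

theorem lv29_B (hidem : ∀ x, f.π (f.π x) = f.π x) (htyp : ∀ x, K.typ (f.π x) = K.typ x)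
    (h : NDm (quot K f.π) (f.S' univ) (fun _ _ => False) z)
    {ω : V → V → ℝ} {κ : ℝ} (h2 : ∀ u v, ¬ K.adj u v → ω u v = 0)
    (h3 : ∀ v, (∑ u, ω v u • z (f.π u)) +
        κ • (if v = f.mA then z f.mA ⨯₃ z f.ctr else
          if v = f.mB then -(z f.mA ⨯₃ z f.ctr) else 0) = 0)
    {v x y t : V} (hA : v ≠ f.mA) (hB : v ≠ f.mB) (hxy : x ≠ y) (hxt : x ≠ t) (hyt : y ≠ t)
    (hx : K.adj v x) (ht : K.adj v t)
    (hn : ∀ u, K.adj v u → u = x ∨ u = y ∨ u = t) (he : f.π x = f.π y) (hne : f.π x ≠ f.π t) :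
    ω v t = 0 := by
  have e := h3 v
  rw [if_neg hA, if_neg hB, smul_zero, add_zero,
    lv29_sum3 K ω h2 (fun u => z (f.π u)) hxy hxt hyt hn] at e
  simp only [← he] at e
  rw [← add_smul] at e
  exact (lv29_two (lv29_dis hidem htyp h (lv29_typ2 hx ht) hne) e).2

end

theorem lv29_r0 [Fintype V] (K : Inc V) (hK : C5 K) (A B W C : V) (hf : LocR0 K A B W C)
    (z : V → E3)
    (h : NDm (quot K (Fold.r0 A B W C).π) ((Fold.r0 A B W C).S' univ) (fun _ _ => False) z)
    (ω : V → V → ℝ) (κ : ℝ) (h1 : ∀ u v, ω u v = ω v u) (h2 : ∀ u v, ¬ K.adj u v → ω u v = 0)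
    (h3 : ∀ v, (∑ u, ω v u • z ((Fold.r0 A B W C).π u)) +
        κ • (if v = (Fold.r0 A B W C).mA then
            z (Fold.r0 A B W C).mA ⨯₃ z (Fold.r0 A B W C).ctr else
          if v = (Fold.r0 A B W C).mB then
            -(z (Fold.r0 A B W C).mA ⨯₃ z (Fold.r0 A B W C).ctr) else 0) = 0) :
    κ = 0 ∧ ∀ u v, ω u v = 0 := by
  obtain ⟨hAB, hAC, hBC, aA, aB, aC, only, -⟩ := hf
  have hWA : W ≠ A := fun e => K.irr A (by rw [e] at aA; exact aA)
  have hWB : W ≠ B := fun e => K.irr B (by rw [e] at aB; exact aB)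
  have hWC : W ≠ C := fun e => K.irr C (by rw [e] at aC; exact aC)
  have hπ : ∀ x, (Fold.r0 A B W C).π x = if x = B then A else x := fun x => by
    by_cases hx : x = B <;> simp [Fold.π, hx]
  have πA : (Fold.r0 A B W C).π A = A := by rw [hπ, if_neg hAB]
  have πB : (Fold.r0 A B W C).π B = A := by rw [hπ, if_pos rfl]
  have πW : (Fold.r0 A B W C).π W = W := by rw [hπ, if_neg hWB]
  have πC : (Fold.r0 A B W C).π C = C := by rw [hπ, if_neg hBC.symm]
  have hidem : ∀ x, (Fold.r0 A B W C).π ((Fold.r0 A B W C).π x) = (Fold.r0 A B W C).π x := by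
    intro x
    by_cases hx : x = B
    · rw [hx, πB, πA]
    · have : (Fold.r0 A B W C).π x = x := by rw [hπ, if_neg hx]
      rw [this, this]
  have htyp : ∀ x, K.typ ((Fold.r0 A B W C).π x) = K.typ x := by
    intro x
    by_cases hx : x = B
    · rw [hx, πB]
      exact lv29_typ2 aA aB
    · have : (Fold.r0 A B W C).π x = x := by rw [hπ, if_neg hx]
      rw [this]
  have hmA : (Fold.r0 A B W C).mA = A := rfl
  have hmB : (Fold.r0 A B W C).mB = B := rfl
  have hctr : (Fold.r0 A B W C).ctr = W := rfl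
  have hωWC : ω W C = 0 :=
    lv29_B hidem htyp h h2 h3 (v := W) (x := A) (y := B) (t := C) hWA hWB hAB hAC hBC aA aC
      only (by rw [πA, πB]) (by rw [πA, πC]; exact hAC)
  -- vertices outside the region
  have hinj : ∀ v, v ≠ W → ∀ x y, K.adj v x → K.adj v y →
      (Fold.r0 A B W C).π x = (Fold.r0 A B W C).π y → x = y := by
    intro v hv x y hx hy he
    by_contra hne
    have key : K.adj v A ∧ K.adj v B := by
      rw [hπ, hπ] at he
      by_cases hxB : x = B
      · by_cases hyB : y = B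
        · exact absurd (hxB.trans hyB.symm) hne
        · rw [if_pos hxB, if_neg hyB] at he
          subst hxB
          subst he
          exact ⟨hy, hx⟩
      · by_cases hyB : y = B
        · rw [if_neg hxB, if_pos hyB] at he
          subst hyB
          subst he
          exact ⟨hx, hy⟩
        · rw [if_neg hxB, if_neg hyB] at he
          exact absurd he hne
    have := hK.c4f v (mem_univ _) A (mem_univ _) W (mem_univ _) B (mem_univ _) key.1
      (K.symm aA) aB (K.symm key.2)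
    rcases this with h5 | h5
    · exact hv h5
    · exact hAB h5
  set U : Finset V := {A, B, W} with hUdef
  have hUmem : ∀ x, x ∈ U ↔ x = A ∨ x = B ∨ x = W := fun x => by simp [hUdef]
  have hUcard : 2 ≤ U.card := by
    have : U.card = 3 := by
      rw [hUdef, Finset.card_insert_of_notMem (by simp [hAB, hWA.symm]),
        Finset.card_insert_of_notMem (by simp [hWB.symm]), Finset.card_singleton]
    omega
  have hall : ∀ v, v ∉ U → ∀ u, K.adj v u → ω v u = 0 → ∀ u', ω v u' = 0 := by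
    intro v hv u hu h0
    rw [hUmem] at hv
    push Not at hv
    exact lv29_A hK.cubic hidem htyp h h2 h3 hv.1 hv.2.1 (hinj v hv.2.2) hu h0
  have hCU : C ∉ U := by
    rw [hUmem]
    push Not
    exact ⟨hAC.symm, hBC.symm, hWC.symm⟩
  have hC0 : ∀ u, ω C u = 0 := hall C hCU W (K.symm aC) (by rw [h1]; exact hωWC)
  have hbd : bd K U ≤ 5 := by
    have e : (bd K U : ℤ) = DD K U := bd_eq_DD K hK.cubic U
    have hsum : DD K U = (3 - (deg K U A : ℤ)) + ((3 - (deg K U B : ℤ)) +
        (3 - (deg K U W : ℤ))) := by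
      unfold DD
      rw [hUdef, Finset.sum_insert (by simp [hAB, hWA.symm]),
        Finset.sum_insert (by simp [hWB.symm]), Finset.sum_singleton]
    have d1 : 1 ≤ deg K U A := by
      unfold deg
      exact Finset.card_pos.2 ⟨W, by
        rw [mem_nb]; exact ⟨(hUmem _).2 (Or.inr (Or.inr rfl)), K.symm aA⟩⟩
    have d2 : 1 ≤ deg K U B := by
      unfold deg
      exact Finset.card_pos.2 ⟨W, by
        rw [mem_nb]; exact ⟨(hUmem _).2 (Or.inr (Or.inr rfl)), K.symm aB⟩⟩
    have d3 : 2 ≤ deg K U W := by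
      unfold deg
      have : ({A, B} : Finset V) ⊆ nb K U W := by
        intro x hx
        rw [Finset.mem_insert, Finset.mem_singleton] at hx
        rw [mem_nb]
        rcases hx with rfl | rfl
        · exact ⟨(hUmem _).2 (Or.inl rfl), aA⟩
        · exact ⟨(hUmem _).2 (Or.inr (Or.inl rfl)), aB⟩
      have := Finset.card_le_card this
      rwa [Finset.card_pair hAB] at this
    omega
  have hout := lv29_core K hK U hUcard ω h1 hall C hCU hC0 (Or.inl hbd)
  have tAB : K.typ A = K.typ B := lv29_typ2 aA aB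
  have nAB : ¬ K.adj A B := fun hh => K.bip hh tAB
  -- rows of A and B
  have rowA : ∀ u, u ≠ W → ω A u = 0 := by
    intro u hu
    by_cases huU : u ∈ U
    · rcases (hUmem u).1 huU with rfl | rfl | rfl
      · exact h2 _ _ (K.irr _)
      · exact h2 _ _ nAB
      · exact absurd rfl hu
    · rw [h1]; exact hout u huU A
  have rowB : ∀ u, u ≠ W → ω B u = 0 := by
    intro u hu
    by_cases huU : u ∈ U
    · rcases (hUmem u).1 huU with rfl | rfl | rfl
      · exact h2 _ _ (fun hh => nAB (K.symm hh))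
      · exact h2 _ _ (K.irr _)
      · exact absurd rfl hu
    · rw [h1]; exact hout u huU B
  have zA : z A ≠ 0 := by have := lv29_nz hidem h A; rwa [πA] at this
  have zW : z W ≠ 0 := by have := lv29_nz hidem h W; rwa [πW] at this
  have zAW : z A ⬝ᵥ z W = 0 := by
    have := lv29_orth hidem htyp h (K.symm aA)
    rwa [πA, πW] at this
  have eA := h3 A
  rw [hmA, if_pos rfl, Finset.sum_eq_single W
    (fun u _ hu => by rw [rowA u hu, zero_smul]) (fun hh => absurd (mem_univ _) hh), πW, hctr] at eA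
  obtain ⟨a0, k0⟩ := lv29_fin zA zW zAW eA
  have eB := h3 B
  rw [k0, zero_smul, add_zero, Finset.sum_eq_single W
    (fun u _ hu => by rw [rowB u hu, zero_smul]) (fun hh => absurd (mem_univ _) hh), πW,
    smul_eq_zero] at eB
  have b0 := eB.resolve_right zW
  refine ⟨k0, fun u v => ?_⟩
  by_cases huU : u ∈ U
  · rcases (hUmem u).1 huU with rfl | rfl | rfl
    · by_cases hv : v = W
      · rw [hv]; exact a0
      · exact rowA v hv
    · by_cases hv : v = W
      · rw [hv]; exact b0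
      · exact rowB v hv
    · by_cases hv : K.adj u v
      · rcases only v hv with rfl | rfl | rfl
        · rw [h1]; exact a0
        · rw [h1]; exact b0
        · exact hωWC
      · exact h2 _ _ hv
  · exact hout u huU v

theorem lv29_r1 [Fintype V] (K : Inc V) (hK : C5 K) (v a : Fin 6 → V) (hf : LocR1 K v a)
    (z : V → E3)
    (h : NDm (quot K (Fold.r1 v a).π) ((Fold.r1 v a).S' univ) (fun _ _ => False) z)
    (ω : V → V → ℝ) (κ : ℝ) (h1 : ∀ u v, ω u v = ω v u) (h2 : ∀ u v, ¬ K.adj u v → ω u v = 0)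
    (h3 : ∀ w, (∑ u, ω w u • z ((Fold.r1 v a).π u)) +
        κ • (if w = (Fold.r1 v a).mA then
            z (Fold.r1 v a).mA ⨯₃ z (Fold.r1 v a).ctr else
          if w = (Fold.r1 v a).mB then
            -(z (Fold.r1 v a).mA ⨯₃ z (Fold.r1 v a).ctr) else 0) = 0) :
    κ = 0 ∧ ∀ u v, ω u v = 0 := by
  obtain ⟨inj, hv, ha, ne1, ne2, only, -, -, -, -⟩ := hf
  have vne : ∀ i j, i ≠ j → v i ≠ v j := fun i j hij he => hij (inj he)
  have s11 : ∀ i : Fin 6, i + 1 + 1 = i + 2 := by decide
  have s21 : ∀ i : Fin 6, i + 2 + 1 = i + 3 := by decide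
  have s22 : ∀ i : Fin 6, i + 2 + 2 = i + 4 := by decide
  have s41 : ∀ i : Fin 6, i + 4 + 1 = i + 5 := by decide
  have s42 : ∀ i : Fin 6, i + 4 + 2 = i := by decide
  have sd : ∀ i j : Fin 6, j = i + (j - i) := by decide
  have s5 : ∀ i : Fin 6, i + 5 = i - 1 := by decide
  have s1m : ∀ i : Fin 6, i + 1 ≠ i - 1 := by decide
  have t1 : ∀ i, K.typ (v i) ≠ K.typ (v (i + 1)) := fun i => K.bip (hv i)
  have t2 : ∀ i, K.typ (v i) = K.typ (v (i + 2)) := by
    intro i
    have h5 := t1 i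
    have h6 := t1 (i + 1)
    rw [s11] at h6
    revert h5 h6
    cases K.typ (v i) <;> cases K.typ (v (i + 1)) <;> cases K.typ (v (i + 2)) <;> simp
  have t3 : ∀ i, K.typ (v i) ≠ K.typ (v (i + 3)) := by
    intro i
    have := t1 (i + 2)
    rw [s21, ← t2] at this
    exact this
  have t4 : ∀ i, K.typ (v i) = K.typ (v (i + 4)) := by
    intro i
    rw [t2 i, t2 (i + 2), s22]
  have t5 : ∀ i, K.typ (v i) ≠ K.typ (v (i + 5)) := by
    intro i
    have := t1 (i + 4)
    rw [s41, ← t4] at this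
    exact this
  have i2 : ∀ i : Fin 6, i ≠ i + 2 := by decide
  have i13 : ∀ i : Fin 6, i + 1 ≠ i + 3 := by decide
  -- outer neighbours are not on the hexagon
  have hav : ∀ i j, a i ≠ v j := by
    intro i j he
    have hai := ha i
    rw [he] at hai
    have hb := K.bip hai
    obtain ⟨d, rfl⟩ : ∃ d, j = i + d := ⟨j - i, sd i j⟩
    fin_cases d
    · simp at hai; exact K.irr _ hai
    · exact ne1 i he
    · exact hb (t2 i)
    · have := hK.c4f (v i) (mem_univ _) (v (i + 1)) (mem_univ _) (v (i + 2)) (mem_univ _)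
        (v (i + 3)) (mem_univ _) (hv i)
        (by have := hv (i + 1); rwa [s11] at this)
        (by have := hv (i + 2); rwa [s21] at this)
        (K.symm hai)
      rcases this with h5 | h5
      · exact i2 i (inj h5)
      · exact i13 i (inj h5)
    · exact hb (t4 i)
    · exact ne2 i (he.trans (congrArg v (s5 i)))
  -- a vertex outside is adjacent to at most one vertex of the hexagon
  have hone : ∀ y, (∀ i, y ≠ v i) → ∀ i j, K.adj y (v i) → K.adj y (v j) → i = j := by
    intro y hy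
    have key : ∀ i, K.adj y (v i) → K.adj y (v (i + 2)) → False := by
      intro i hi hj
      have := hK.c4f y (mem_univ _) (v i) (mem_univ _) (v (i + 1)) (mem_univ _)
        (v (i + 2)) (mem_univ _) hi (hv i)
        (by have := hv (i + 1); rwa [s11] at this)
        (K.symm hj)
      rcases this with h5 | h5
      · exact hy _ h5
      · exact i2 i (inj h5)
    intro i j hi hj
    have tt := lv29_typ2 hi hj
    obtain ⟨d, rfl⟩ : ∃ d, j = i + d := ⟨j - i, sd i j⟩
    fin_cases d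
    · simp
    · exact absurd tt (t1 i)
    · exact (key i hi hj).elim
    · exact absurd tt (t3 i)
    · refine (key (i + 4) hj ?_).elim
      rw [s42]
      exact hi
    · exact absurd tt (t5 i)
  have hπ : ∀ x, (Fold.r1 v a).π x = if x = v 5 then v 1 else if x = v 4 then v 2 else x :=
    fun x => by
      by_cases hx : x = v 5
      · simp [Fold.π, hx]
      · by_cases hx' : x = v 4
        · have : v 4 ≠ v 5 := vne _ _ (by decide)
          simp [Fold.π, hx', this]
        · simp [Fold.π, hx, hx']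
  have πo : ∀ x, x ≠ v 5 → x ≠ v 4 → (Fold.r1 v a).π x = x := fun x h5 h4 => by
    rw [hπ, if_neg h5, if_neg h4]
  have π5 : (Fold.r1 v a).π (v 5) = v 1 := by rw [hπ, if_pos rfl]
  have π4 : (Fold.r1 v a).π (v 4) = v 2 := by
    rw [hπ, if_neg (vne _ _ (by decide)), if_pos rfl]
  have π0 : (Fold.r1 v a).π (v 0) = v 0 := πo _ (vne _ _ (by decide)) (vne _ _ (by decide))
  have π1 : (Fold.r1 v a).π (v 1) = v 1 := πo _ (vne _ _ (by decide)) (vne _ _ (by decide))
  have π2 : (Fold.r1 v a).π (v 2) = v 2 := πo _ (vne _ _ (by decide)) (vne _ _ (by decide))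
  have π3 : (Fold.r1 v a).π (v 3) = v 3 := πo _ (vne _ _ (by decide)) (vne _ _ (by decide))
  have πa : ∀ i, (Fold.r1 v a).π (a i) = a i := fun i => πo _ (hav _ _) (hav _ _)
  have hidem : ∀ x, (Fold.r1 v a).π ((Fold.r1 v a).π x) = (Fold.r1 v a).π x := by
    intro x
    by_cases hx : x = v 5
    · rw [hx, π5, π1]
    · by_cases hx' : x = v 4
      · rw [hx', π4, π2]
      · rw [πo x hx hx', πo x hx hx']
  have htyp : ∀ x, K.typ ((Fold.r1 v a).π x) = K.typ x := by
    intro x
    by_cases hx : x = v 5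
    · rw [hx, π5]; exact t4 1
    · by_cases hx' : x = v 4
      · rw [hx', π4]; exact t2 2
      · rw [πo x hx hx']
  have hmA : (Fold.r1 v a).mA = v 1 := rfl
  have hmB : (Fold.r1 v a).mB = v 5 := rfl
  have hctr : (Fold.r1 v a).ctr = v 0 := rfl
  -- the two blocked vertices
  have w0 : ω (v 0) (a 0) = 0 := by
    refine lv29_B hidem htyp h h2 h3 (v := v 0) (x := v 1) (y := v 5) (t := a 0)
      (vne _ _ (by decide)) (vne _ _ (by decide)) (vne _ _ (by decide)) (hav _ _).symm
      (hav _ _).symm (hv 0) (ha 0) ?_ (by rw [π1, π5]) (by rw [π1, πa]; exact (hav _ _).symm)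
    intro u hu
    exact only 0 u hu
  have w3 : ω (v 3) (a 3) = 0 := by
    refine lv29_B hidem htyp h h2 h3 (v := v 3) (x := v 4) (y := v 2) (t := a 3)
      (vne _ _ (by decide)) (vne _ _ (by decide)) (vne _ _ (by decide)) (hav _ _).symm
      (hav _ _).symm (hv 3) (ha 3) ?_ (by rw [π4, π2]) (by rw [π4, πa]; exact (hav _ _).symm)
    intro u hu
    exact only 3 u hu
  set U : Finset V := univ.image v with hUdef
  have hUmem : ∀ x, x ∈ U ↔ ∃ i, v i = x := fun x => by simp [hUdef]
  have hUout : ∀ x, x ∉ U → ∀ i, x ≠ v i := fun x hx i he => hx ((hUmem x).2 ⟨i, he.symm⟩)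
  have hUcard6 : U.card = 6 := by
    rw [hUdef, Finset.card_image_of_injective _ inj]; simp
  have hinj : ∀ y, y ∉ U → ∀ x x', K.adj y x → K.adj y x' →
      (Fold.r1 v a).π x = (Fold.r1 v a).π x' → x = x' := by
    intro y hy x x' hx hx' he
    have hy' := hUout y hy
    -- helper: if one of them is on the hexagon and moved
    have aux : ∀ i j, i ≠ j → K.adj y (v i) → K.adj y (v j) → False :=
      fun i j hij hi hj => hij (hone y hy' i j hi hj)
    by_cases c1 : x = v 5
    · by_cases c2 : x' = v 5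
      · rw [c1, c2]
      · by_cases c3 : x' = v 4
        · exact (aux 5 4 (by decide) (c1 ▸ hx) (c3 ▸ hx')).elim
        · rw [c1, π5, πo x' c2 c3] at he
          exact (aux 5 1 (by decide) (c1 ▸ hx) (he ▸ hx')).elim
    · by_cases c4 : x = v 4
      · by_cases c2 : x' = v 5
        · exact (aux 4 5 (by decide) (c4 ▸ hx) (c2 ▸ hx')).elim
        · by_cases c3 : x' = v 4
          · rw [c4, c3]
          · rw [c4, π4, πo x' c2 c3] at he
            exact (aux 4 2 (by decide) (c4 ▸ hx) (he ▸ hx')).elim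
      · by_cases c2 : x' = v 5
        · rw [c2, π5, πo x c1 c4] at he
          exact (aux 1 5 (by decide) (he ▸ hx) (c2 ▸ hx')).elim
        · by_cases c3 : x' = v 4
          · rw [c3, π4, πo x c1 c4] at he
            exact (aux 2 4 (by decide) (he ▸ hx) (c3 ▸ hx')).elim
          · rwa [πo x c1 c4, πo x' c2 c3] at he
  have hall : ∀ y, y ∉ U → ∀ u, K.adj y u → ω y u = 0 → ∀ u', ω y u' = 0 := by
    intro y hy u hu h0
    exact lv29_A hK.cubic hidem htyp h h2 h3 (hUout y hy 1) (hUout y hy 5) (hinj y hy) hu h0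
  have haU : ∀ i, a i ∉ U := fun i hh => by
    obtain ⟨j, hj⟩ := (hUmem _).1 hh
    exact hav i j hj.symm
  have ha0 : ∀ u, ω (a 0) u = 0 := hall (a 0) (haU 0) (v 0) (K.symm (ha 0)) (by rw [h1]; exact w0)
  have hbd : bd K U ≤ 6 := by
    have e : (bd K U : ℤ) = DD K U := bd_eq_DD K hK.cubic U
    have hle : DD K U ≤ ∑ x ∈ U, (1 : ℤ) := by
      unfold DD
      refine Finset.sum_le_sum fun x hx => ?_
      obtain ⟨i, rfl⟩ := (hUmem x).1 hx
      have : ({v (i + 1), v (i - 1)} : Finset V) ⊆ nb K U (v i) := by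
        intro x hx
        rw [Finset.mem_insert, Finset.mem_singleton] at hx
        rw [mem_nb]
        rcases hx with rfl | rfl
        · exact ⟨(hUmem _).2 ⟨_, rfl⟩, hv i⟩
        · refine ⟨(hUmem _).2 ⟨_, rfl⟩, K.symm ?_⟩
          have := hv (i - 1)
          rwa [sub_add_cancel] at this
      have := Finset.card_le_card this
      rw [Finset.card_pair (vne _ _ (s1m i))] at this
      unfold deg
      omega
    rw [Finset.sum_const, hUcard6] at hle
    simp at hle
    omega
  have hout := lv29_core K hK U (by omega) ω h1 hall (a 0) (haU 0) ha0 (Or.inr ⟨hbd, by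
    intro y hy hh
    have hy' := hUout y hy
    have hc := hK.cubic y
    unfold deg at hc
    obtain ⟨p, q, hp, hq, hpq⟩ := Finset.one_lt_card_iff.1 (by omega : 1 < (nb K univ y).card)
    rw [mem_nb] at hp hq
    obtain ⟨i, rfl⟩ := (hUmem p).1 (hh p hp.2)
    obtain ⟨j, rfl⟩ := (hUmem q).1 (hh q hq.2)
    exact hpq (by rw [hone y hy' i j hp.2 hq.2])⟩)
  have wa : ∀ i x, ω x (a i) = 0 := fun i x => by rw [h1]; exact hout (a i) (haU i) x
  -- rows of v 2, v 4
  have r2 : ∀ u, ω (v 2) u = 0 :=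
    (lv29_C hidem htyp h h2 h3 (v := v 2) (x := v 3) (y := v 1) (t := a 2)
      (vne _ _ (by decide)) (vne _ _ (by decide)) (vne _ _ (by decide)) (hav _ _).symm
      (hav _ _).symm (hv 2) (K.symm (hv 1)) (fun u hu => only 2 u hu) (wa 2 _)
      (by rw [π3, π1]; exact vne _ _ (by decide))).2.2
  have r4 : ∀ u, ω (v 4) u = 0 :=
    (lv29_C hidem htyp h h2 h3 (v := v 4) (x := v 5) (y := v 3) (t := a 4)
      (vne _ _ (by decide)) (vne _ _ (by decide)) (vne _ _ (by decide)) (hav _ _).symm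
      (hav _ _).symm (hv 4) (K.symm (hv 3)) (fun u hu => only 4 u hu) (wa 4 _)
      (by rw [π5, π3]; exact vne _ _ (by decide))).2.2
  -- rows of v 1, v 5
  have row1 : ∀ u, u ≠ v 0 → ω (v 1) u = 0 := by
    intro u hu
    by_cases hh : K.adj (v 1) u
    · rcases only 1 u hh with h5 | h5 | h5
      · rw [h5, h1]; exact r2 _
      · exact absurd h5 hu
      · rw [h5]; exact wa _ _
    · exact h2 _ _ hh
  have row5 : ∀ u, u ≠ v 0 → ω (v 5) u = 0 := by
    intro u hu
    by_cases hh : K.adj (v 5) u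
    · rcases only 5 u hh with h5 | h5 | h5
      · exact absurd h5 hu
      · rw [h5, h1]; exact r4 _
      · rw [h5]; exact wa _ _
    · exact h2 _ _ hh
  have z1 : z (v 1) ≠ 0 := by have := lv29_nz hidem h (v 1); rwa [π1] at this
  have z0 : z (v 0) ≠ 0 := by have := lv29_nz hidem h (v 0); rwa [π0] at this
  have z10 : z (v 1) ⬝ᵥ z (v 0) = 0 := by
    have := lv29_orth hidem htyp h (K.symm (hv 0))
    rwa [show (0 : Fin 6) + 1 = 1 by decide, π1, π0] at this
  have e1 := h3 (v 1)
  rw [hmA, if_pos rfl, Finset.sum_eq_single (v 0)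
    (fun u _ hu => by rw [row1 u hu, zero_smul]) (fun hh => absurd (mem_univ _) hh), π0, hctr] at e1
  obtain ⟨a0, k0⟩ := lv29_fin z1 z0 z10 e1
  have e5 := h3 (v 5)
  rw [k0, zero_smul, add_zero, Finset.sum_eq_single (v 0)
    (fun u _ hu => by rw [row5 u hu, zero_smul]) (fun hh => absurd (mem_univ _) hh), π0,
    smul_eq_zero] at e5
  have b0 := e5.resolve_right z0
  have r1 : ∀ u, ω (v 1) u = 0 := fun u => by
    by_cases hu : u = v 0
    · rw [hu]; exact a0
    · exact row1 u hu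
  have r5 : ∀ u, ω (v 5) u = 0 := fun u => by
    by_cases hu : u = v 0
    · rw [hu]; exact b0
    · exact row5 u hu
  have r0 : ∀ u, ω (v 0) u = 0 := fun u => by
    by_cases hu : K.adj (v 0) u
    · rcases only 0 u hu with h5 | h5 | h5
      · rw [h5, h1]; exact r1 _
      · rw [h5, h1]; exact r5 _
      · rw [h5]; exact wa _ _
    · exact h2 _ _ hu
  have r3 : ∀ u, ω (v 3) u = 0 := fun u => by
    by_cases hu : K.adj (v 3) u
    · rcases only 3 u hu with h5 | h5 | h5
      · rw [h5, h1]; exact r4 _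
      · rw [h5, h1]; exact r2 _
      · rw [h5]; exact wa _ _
    · exact h2 _ _ hu
  refine ⟨k0, fun u w => ?_⟩
  by_cases huU : u ∈ U
  · obtain ⟨i, rfl⟩ := (hUmem u).1 huU
    fin_cases i
    · exact r0 w
    · exact r1 w
    · exact r2 w
    · exact r3 w
    · exact r4 w
    · exact r5 w
  · exact hout u huU w

theorem unfold_ind [Fintype V] (K : Inc V) (hK : C5 K) (f : Fold V) (hf : f.Loc K)
    (z : V → E3)
    (h : NDm (quot K f.π) (f.S' univ) (fun _ _ => False) z)
    (ω : V → V → ℝ) (κ : ℝ) (h1 : ∀ u v, ω u v = ω v u) (h2 : ∀ u v, ¬ K.adj u v → ω u v = 0)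
    (h3 : ∀ v, (∑ u, ω v u • z (f.π u)) +
        κ • (if v = f.mA then z f.mA ⨯₃ z f.ctr else
          if v = f.mB then -(z f.mA ⨯₃ z f.ctr) else 0) = 0) :
    κ = 0 ∧ ∀ u v, ω u v = 0 := by
  cases f with
  | r0 A B W C => exact lv29_r0 K hK A B W C hf z h ω κ h1 h2 h3
  | r1 v a => exact lv29_r1 K hK v a hf z h ω κ h1 h2 h3

end Pool.Agent.Levi3
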