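import Pool.Agent.Levi3.Defs
import Pool.Agent.Levi3.LV28
import Pool.Agent.Levi3.LV29

/-! LV30 : Unfold -/

namespace Pool.Agent.Levi3

open Matrix Finset

variable {V : Type} [DecidableEq V]

private theorem lv30_par {x y p q : E3} (hpq : p ⨯₃ q ≠ 0) (h1 : x ⬝ᵥ p = 0) (h2 : x ⬝ᵥ q = 0)
    (h3 : y ⬝ᵥ p = 0) (h4 : y ⬝ᵥ q = 0) : x ⨯₃ y = 0 := by
  have key : ∀ w : E3, w ⬝ᵥ p = 0 → w ⬝ᵥ q = 0 → (p ⨯₃ q) ⨯₃ w = 0 := by
    intro w e1 e2
    simp only [dotProduct, Fin.sum_univ_three] at e1 e2
    funext i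
    fin_cases i
    · simp [cross_apply]
      linear_combination (q 0) * e1 - (p 0) * e2
    · simp [cross_apply]
      linear_combination (q 1) * e1 - (p 1) * e2
    · simp [cross_apply]
      linear_combination (q 2) * e1 - (p 2) * e2
  obtain ⟨k, rfl⟩ := exists_smul_of_cross_eq_zero hpq (key x h1 h2)
  obtain ⟨l, rfl⟩ := exists_smul_of_cross_eq_zero hpq (key y h3 h4)
  simp

omit [DecidableEq V] in
private theorem lv30_typ {K : Inc V} {u v w : V} (h1 : K.adj w u) (h2 : K.adj w v) :
    K.typ u = K.typ v := by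
  have e1 := K.bip h1
  have e2 := K.bip h2
  revert e1 e2
  cases K.typ u <;> cases K.typ v <;> cases K.typ w <;> simp

/-- the facts on folds used below -/
private structure lv30_F (K : Inc V) (f : Fold V) : Prop where
  typ : ∀ x, K.typ (f.π x) = K.typ x
  idem : ∀ x, f.π (f.π x) = f.π x
  piA : f.π f.mA = f.mA
  piB : f.π f.mB = f.mA
  ne : f.mA ≠ f.mB
  cen : ∀ u u', u ≠ u' → f.π u = f.π u' →
    ∃ c, K.adj u c ∧ K.adj u' c ∧ ∀ x, f.π x = f.π c → x = c
  two : ∀ u u' v v', K.adj u' v' → f.π u = f.π u' → f.π v = f.π v' → u ≠ u' → v ≠ v' → K.adj u v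
  pr : ∀ u u', u ≠ u' → f.π u = f.π u' → (u = f.mA ∧ u' = f.mB) ∨ (u = f.mB ∧ u' = f.mA) ∨
    ∃ c, K.adj f.mA c ∧ K.adj f.mB c ∧ (∀ x, f.π x = f.π c → x = c) ∧ u ≠ c ∧ u' ≠ c ∧
      ((K.adj f.mA u ∧ K.adj f.mB u') ∨ (K.adj f.mA u' ∧ K.adj f.mB u))

private theorem lv30_facts (K : Inc V) (f : Fold V) (hf : f.Loc K) : lv30_F K f := by
  cases f with
  | r0 A B W C =>
    have h : LocR0 K A B W C := hf
    have hπ : ∀ x, (Fold.r0 A B W C).π x = if x = B then A else x := by
      intro x
      simp only [Fold.π]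
      split_ifs <;> rfl
    have hWA : W ≠ A := fun e => K.irr A (by have := h.adjA; rwa [e] at this)
    have hWB : W ≠ B := fun e => K.irr B (by have := h.adjB; rwa [e] at this)
    have htAB : K.typ A = K.typ B := lv30_typ h.adjA h.adjB
    have hπW : (Fold.r0 A B W C).π W = W := by rw [hπ, if_neg hWB]
    have hcl : ∀ x, (Fold.r0 A B W C).π x = (Fold.r0 A B W C).π W → x = W := by
      intro x hx
      rw [hπW, hπ] at hx
      by_cases hxB : x = B
      · rw [if_pos hxB] at hx
        exact absurd hx.symm hWA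
      · rwa [if_neg hxB] at hx
    have hpair : ∀ u u', u ≠ u' → (Fold.r0 A B W C).π u = (Fold.r0 A B W C).π u' →
        (u = A ∧ u' = B) ∨ (u = B ∧ u' = A) := by
      intro u u' hne he
      rw [hπ, hπ] at he
      by_cases h1 : u = B
      · by_cases h2 : u' = B
        · exact absurd (h1.trans h2.symm) hne
        · rw [if_pos h1, if_neg h2] at he
          exact Or.inr ⟨h1, he.symm⟩
      · by_cases h2 : u' = B
        · rw [if_neg h1, if_pos h2] at he
          exact Or.inl ⟨he, h2⟩
        · rw [if_neg h1, if_neg h2] at he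
          exact absurd he hne
    refine ⟨?_, ?_, ?_, ?_, h.hAB, ?_, ?_, ?_⟩
    · intro x
      rw [hπ]
      by_cases hx : x = B
      · rw [if_pos hx, hx]
        exact htAB
      · rw [if_neg hx]
    · intro x
      by_cases hx : x = B
      · rw [hπ x, if_pos hx, hπ A, if_neg h.hAB]
      · rw [hπ x, if_neg hx, hπ x, if_neg hx]
    · show (Fold.r0 A B W C).π A = A
      rw [hπ, if_neg h.hAB]
    · show (Fold.r0 A B W C).π B = A
      rw [hπ, if_pos rfl]
    · intro u u' hne he
      rcases hpair u u' hne he with ⟨rfl, rfl⟩ | ⟨rfl, rfl⟩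
      · exact ⟨W, K.symm h.adjA, K.symm h.adjB, hcl⟩
      · exact ⟨W, K.symm h.adjB, K.symm h.adjA, hcl⟩
    · intro u u' v v' hadj hu hv hne hne'
      exfalso
      have h1 := K.bip hadj
      rcases hpair u u' hne hu with ⟨-, rfl⟩ | ⟨-, rfl⟩ <;>
      rcases hpair v v' hne' hv with ⟨-, rfl⟩ | ⟨-, rfl⟩
      · exact h1 rfl
      · exact h1 htAB.symm
      · exact h1 htAB
      · exact h1 rfl
    · intro u u' hne he
      rcases hpair u u' hne he with h1 | h1
      · exact Or.inl h1
      · exact Or.inr (Or.inl h1)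
  | r1 v a =>
    have h : LocR1 K v a := hf
    have hπ : ∀ x, (Fold.r1 v a).π x = if x = v 5 then v 1 else if x = v 4 then v 2 else x := by
      intro x
      simp only [Fold.π]
      split_ifs <;> rfl
    have hn : ∀ i j, i ≠ j → v i ≠ v j := fun i j hij e => hij (h.inj e)
    have h01 : K.adj (v 0) (v 1) := h.hv 0
    have h12 : K.adj (v 1) (v 2) := h.hv 1
    have h23 : K.adj (v 2) (v 3) := h.hv 2
    have h34 : K.adj (v 3) (v 4) := h.hv 3
    have h45 : K.adj (v 4) (v 5) := h.hv 4
    have h50 : K.adj (v 5) (v 0) := h.hv 5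
    have ht15 : K.typ (v 1) = K.typ (v 5) := lv30_typ h01 (K.symm h50)
    have ht24 : K.typ (v 2) = K.typ (v 4) := lv30_typ (K.symm h23) h34
    have hπ0 : (Fold.r1 v a).π (v 0) = v 0 := by
      rw [hπ, if_neg (hn 0 5 (by decide)), if_neg (hn 0 4 (by decide))]
    have hπ3 : (Fold.r1 v a).π (v 3) = v 3 := by
      rw [hπ, if_neg (hn 3 5 (by decide)), if_neg (hn 3 4 (by decide))]
    have hπ1 : (Fold.r1 v a).π (v 1) = v 1 := by
      rw [hπ, if_neg (hn 1 5 (by decide)), if_neg (hn 1 4 (by decide))]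
    have hπ2 : (Fold.r1 v a).π (v 2) = v 2 := by
      rw [hπ, if_neg (hn 2 5 (by decide)), if_neg (hn 2 4 (by decide))]
    have hπ5 : (Fold.r1 v a).π (v 5) = v 1 := by rw [hπ, if_pos rfl]
    have hπ4 : (Fold.r1 v a).π (v 4) = v 2 := by
      rw [hπ, if_neg (hn 4 5 (by decide)), if_pos rfl]
    have hπx : ∀ x, x ≠ v 5 → x ≠ v 4 → (Fold.r1 v a).π x = x := by
      intro x h5 h4
      rw [hπ, if_neg h5, if_neg h4]
    have hcl0 : ∀ x, (Fold.r1 v a).π x = (Fold.r1 v a).π (v 0) → x = v 0 := by
      intro x hx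
      rw [hπ0] at hx
      by_cases h5 : x = v 5
      · rw [h5, hπ5] at hx
        exact absurd hx (hn 1 0 (by decide))
      · by_cases h4 : x = v 4
        · rw [h4, hπ4] at hx
          exact absurd hx (hn 2 0 (by decide))
        · rwa [hπx x h5 h4] at hx
    have hcl3 : ∀ x, (Fold.r1 v a).π x = (Fold.r1 v a).π (v 3) → x = v 3 := by
      intro x hx
      rw [hπ3] at hx
      by_cases h5 : x = v 5
      · rw [h5, hπ5] at hx
        exact absurd hx (hn 1 3 (by decide))
      · by_cases h4 : x = v 4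
        · rw [h4, hπ4] at hx
          exact absurd hx (hn 2 3 (by decide))
        · rwa [hπx x h5 h4] at hx
    have hpair : ∀ u u', u ≠ u' → (Fold.r1 v a).π u = (Fold.r1 v a).π u' →
        (u = v 1 ∧ u' = v 5) ∨ (u = v 5 ∧ u' = v 1) ∨ (u = v 2 ∧ u' = v 4) ∨
          (u = v 4 ∧ u' = v 2) := by
      intro u u' hne he
      by_cases h5 : u = v 5
      · rw [h5, hπ5] at he
        by_cases h5' : u' = v 5
        · exact absurd (h5.trans h5'.symm) hne
        · by_cases h4' : u' = v 4
          · rw [h4', hπ4] at he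
            exact absurd he (hn 1 2 (by decide))
          · rw [hπx u' h5' h4'] at he
            exact Or.inr (Or.inl ⟨h5, he.symm⟩)
      · by_cases h4 : u = v 4
        · rw [h4, hπ4] at he
          by_cases h5' : u' = v 5
          · rw [h5', hπ5] at he
            exact absurd he (hn 2 1 (by decide))
          · by_cases h4' : u' = v 4
            · exact absurd (h4.trans h4'.symm) hne
            · rw [hπx u' h5' h4'] at he
              exact Or.inr (Or.inr (Or.inr ⟨h4, he.symm⟩))
        · rw [hπx u h5 h4] at he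
          by_cases h5' : u' = v 5
          · rw [h5', hπ5] at he
            exact Or.inl ⟨he, h5'⟩
          · by_cases h4' : u' = v 4
            · rw [h4', hπ4] at he
              exact Or.inr (Or.inr (Or.inl ⟨he, h4'⟩))
            · rw [hπx u' h5' h4'] at he
              exact absurd he hne
    have hno14 : ¬ K.adj (v 1) (v 4) := by
      intro h14
      have e1 : v 4 = a 1 := by
        rcases h.only 1 _ h14 with e | e | e
        · exact absurd e (hn 4 2 (by decide))
        · exact absurd e (hn 4 0 (by decide))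
        · exact e
      have e2 : v 1 = a 4 := by
        rcases h.only 4 _ (K.symm h14) with e | e | e
        · exact absurd e (hn 1 5 (by decide))
        · exact absurd e (hn 1 3 (by decide))
        · exact e
      exact h.ch1 (by rw [← e1, ← e2]; exact K.symm h14)
    have hno25 : ¬ K.adj (v 2) (v 5) := by
      intro h25
      have e1 : v 5 = a 2 := by
        rcases h.only 2 _ h25 with e | e | e
        · exact absurd e (hn 5 3 (by decide))
        · exact absurd e (hn 5 1 (by decide))
        · exact e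
      have e2 : v 2 = a 5 := by
        rcases h.only 5 _ (K.symm h25) with e | e | e
        · exact absurd e (hn 2 0 (by decide))
        · exact absurd e (hn 2 4 (by decide))
        · exact e
      exact h.ch2 (by rw [← e1, ← e2]; exact K.symm h25)
    refine ⟨?_, ?_, ?_, ?_, hn 1 5 (by decide), ?_, ?_, ?_⟩
    · intro x
      by_cases h5 : x = v 5
      · rw [h5, hπ5, ht15]
      · by_cases h4 : x = v 4
        · rw [h4, hπ4, ht24]
        · rw [hπx x h5 h4]
    · intro x
      by_cases h5 : x = v 5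
      · rw [h5, hπ5, hπ1]
      · by_cases h4 : x = v 4
        · rw [h4, hπ4, hπ2]
        · rw [hπx x h5 h4, hπx x h5 h4]
    · exact hπ1
    · exact hπ5
    · intro u u' hne he
      rcases hpair u u' hne he with ⟨rfl, rfl⟩ | ⟨rfl, rfl⟩ | ⟨rfl, rfl⟩ | ⟨rfl, rfl⟩
      · exact ⟨v 0, K.symm h01, h50, hcl0⟩
      · exact ⟨v 0, h50, K.symm h01, hcl0⟩
      · exact ⟨v 3, h23, K.symm h34, hcl3⟩
      · exact ⟨v 3, K.symm h34, h23, hcl3⟩
    · intro u u' w w' hadj hu hw hne hne'
      have h1 := K.bip hadj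
      have t12 := K.bip h12
      rcases hpair u u' hne hu with ⟨rfl, rfl⟩ | ⟨rfl, rfl⟩ | ⟨rfl, rfl⟩ | ⟨rfl, rfl⟩ <;>
      rcases hpair w w' hne' hw with ⟨rfl, rfl⟩ | ⟨rfl, rfl⟩ | ⟨rfl, rfl⟩ | ⟨rfl, rfl⟩
      · exact absurd rfl h1
      · exact absurd ht15.symm h1
      · exact h12
      · exact absurd (K.symm hadj) hno25
      · exact absurd ht15 h1
      · exact absurd rfl h1
      · exact absurd hadj hno14
      · exact K.symm h45
      · exact K.symm h12
      · exact absurd (K.symm hadj) hno14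
      · exact absurd rfl h1
      · exact absurd ht24.symm h1
      · exact absurd hadj hno25
      · exact h45
      · exact absurd ht24 h1
      · exact absurd rfl h1
    · intro u u' hne he
      rcases hpair u u' hne he with h1 | h1 | ⟨rfl, rfl⟩ | ⟨rfl, rfl⟩
      · exact Or.inl h1
      · exact Or.inr (Or.inl h1)
      · refine Or.inr (Or.inr ⟨v 0, K.symm h01, h50, hcl0, hn 2 0 (by decide),
          hn 4 0 (by decide), Or.inl ⟨h12, K.symm h45⟩⟩)
      · refine Or.inr (Or.inr ⟨v 0, K.symm h01, h50, hcl0, hn 4 0 (by decide),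
          hn 2 0 (by decide), Or.inr ⟨h12, K.symm h45⟩⟩)

theorem unfold [Fintype V] (K : Inc V) (hK : C5 K) (f : Fold V) (hf : f.Loc K)
    (h : ND (quot K f.π) (f.S' univ)) : ND K univ := by
  classical
  obtain ⟨z, hz⟩ := h
  have F := lv30_facts K f hf
  have hmem : ∀ x, f.π x ∈ f.S' (univ : Finset V) := by
    intro x
    simp [Fold.S', F.idem x]
  -- the placement `z0`
  set z0 : V → E3 := fun v => z (f.π v) with hz0def
  have hnz0 : ∀ v, z0 v ≠ 0 := fun v => hz.pl.nz _ (hmem v)
  have hquot : ∀ u v, K.adj u v → (quot K f.π).adj (f.π u) (f.π v) := by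
    intro u v huv
    refine ⟨?_, F.idem u, F.idem v, u, v, rfl, rfl, huv⟩
    rw [F.typ, F.typ]
    exact K.bip huv
  have hinc0 : ∀ u v, K.adj u v → z0 u ⬝ᵥ z0 v = 0 := fun u v huv =>
    hz.pl.inc _ (hmem u) _ (hmem v) (hquot u v huv)
  have hdis0 : ∀ u v, K.typ u = K.typ v → f.π u ≠ f.π v → z0 u ⨯₃ z0 v ≠ 0 := by
    intro u v ht hne
    refine hz.dis _ (hmem u) _ (hmem v) ?_ hne
    show K.typ (f.π u) = K.typ (f.π v)
    rw [F.typ, F.typ, ht]
  -- a neighbourhood of `z0`
  have hopen : IsOpen {y : V → E3 | (∀ u v, z0 u ⨯₃ z0 v ≠ 0 → y u ⨯₃ y v ≠ 0) ∧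
      (∀ u v, z0 u ⬝ᵥ z0 v ≠ 0 → y u ⬝ᵥ y v ≠ 0) ∧ ∀ v, y v ≠ 0} := by
    have hcr : Continuous fun p : E3 × E3 => p.1 ⨯₃ p.2 := by
      refine continuous_pi fun k => ?_
      fin_cases k
      · simp only [cross_apply]
        simp
        fun_prop
      · simp only [cross_apply]
        simp
        fun_prop
      · simp only [cross_apply]
        simp
        fun_prop
    have e1 : IsOpen {y : V → E3 | ∀ u v, z0 u ⨯₃ z0 v ≠ 0 → y u ⨯₃ y v ≠ 0} := by
      simp only [Set.ofPred_forall]
      refine isOpen_iInter_of_finite fun u => isOpen_iInter_of_finite fun v => ?_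
      refine isOpen_iInter_of_finite fun _ => ?_
      have hpr : Continuous fun y : V → E3 => (y u, y v) :=
        (continuous_apply u).prodMk (continuous_apply v)
      have hc : Continuous fun y : V → E3 => y u ⨯₃ y v := hcr.comp hpr
      exact isOpen_ne_fun hc continuous_const
    have e2 : IsOpen {y : V → E3 | ∀ u v, z0 u ⬝ᵥ z0 v ≠ 0 → y u ⬝ᵥ y v ≠ 0} := by
      simp only [Set.ofPred_forall]
      refine isOpen_iInter_of_finite fun u => isOpen_iInter_of_finite fun v => ?_
      refine isOpen_iInter_of_finite fun _ => ?_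
      exact isOpen_ne_fun ((continuous_apply u).dotProduct (continuous_apply v))
        continuous_const
    have e3 : IsOpen {y : V → E3 | ∀ v, y v ≠ 0} := by
      simp only [Set.ofPred_forall]
      refine isOpen_iInter_of_finite fun v => ?_
      exact isOpen_ne_fun (continuous_apply v) continuous_const
    exact e1.inter (e2.inter e3)
  obtain ⟨ε, hε, hball⟩ := Metric.isOpen_iff.1 hopen z0 ⟨fun u v h => h, fun u v h => h, hnz0⟩
  obtain ⟨z1, hz1, hinc1, hcross⟩ := open_unfold K z0 hinc0 f.mA f.mB F.ne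
    (by simp only [hz0def]; rw [F.piA, F.piB]) (z f.ctr) (by
      intro ω κ h1 h2 h3
      refine unfold_ind K hK f hf z hz ω κ h1 h2 ?_
      intro v
      have := h3 v
      simp only [hz0def, F.piA] at this
      exact this) ε hε
  have hz1ball : z1 ∈ Metric.ball z0 ε := by
    rw [Metric.mem_ball, dist_pi_lt_iff hε]
    intro v
    rw [dist_eq_norm]
    exact hz1 v
  obtain ⟨q1, q2, q3⟩ := hball hz1ball
  have hsep : ∀ x y, K.typ x = K.typ y → f.π x ≠ f.π y → z1 x ⨯₃ z1 y ≠ 0 :=
    fun x y ht hne => q1 x y (hdis0 x y ht hne)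
  -- distinct elements of the same kind
  have hD : ∀ u u', K.typ u = K.typ u' → u ≠ u' → z1 u ⨯₃ z1 u' ≠ 0 := by
    intro u u' ht hne
    by_cases hπ : f.π u = f.π u'
    · rcases F.pr u u' hne hπ with ⟨rfl, rfl⟩ | ⟨rfl, rfl⟩ | ⟨c, hc1, hc2, hc3, huc, huc', hadj⟩
      · exact hcross
      · rw [← cross_anticomm]
        exact neg_ne_zero.2 hcross
      · intro h0
        obtain ⟨k, hk⟩ := exists_smul_of_cross_eq_zero (q3 u) h0
        have hk0 : k ≠ 0 := by
          rintro rfl
          exact q3 u' (by rw [hk, zero_smul])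
        have hA : z1 u ⬝ᵥ z1 f.mA = 0 ∧ z1 u ⬝ᵥ z1 f.mB = 0 := by
          rcases hadj with ⟨e1, e2⟩ | ⟨e1, e2⟩
          · refine ⟨hinc1 _ _ (K.symm e1), ?_⟩
            have := hinc1 _ _ (K.symm e2)
            rw [hk, smul_dotProduct, smul_eq_mul] at this
            exact (mul_eq_zero.1 this).resolve_left hk0
          · refine ⟨?_, hinc1 _ _ (K.symm e2)⟩
            have := hinc1 _ _ (K.symm e1)
            rw [hk, smul_dotProduct, smul_eq_mul] at this
            exact (mul_eq_zero.1 this).resolve_left hk0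
        have hcu : z1 u ⨯₃ z1 c = 0 := lv30_par hcross hA.1 hA.2 (hinc1 _ _ (K.symm hc1))
          (hinc1 _ _ (K.symm hc2))
        refine hsep u c ?_ (fun e => huc (hc3 u e)) hcu
        rcases hadj with ⟨e1, e2⟩ | ⟨e1, e2⟩
        · exact lv30_typ e1 hc1
        · exact lv30_typ e2 hc2
    · exact hsep u u' ht hπ
  refine ⟨z1, ⟨fun v _ => q3 v, fun u _ v _ huv => hinc1 u v huv⟩, ?_, ?_⟩
  · intro u _ v _ ht hne
    exact hD u v ht hne
  · intro u _ v _ ht hadj _
    by_cases hq : (quot K f.π).adj (f.π u) (f.π v)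
    · obtain ⟨-, -, -, u', v', hu', hv', hadj'⟩ := hq
      by_cases huu : u = u'
      · by_cases hvv : v = v'
        · subst huu hvv
          exact absurd hadj' hadj
        · subst huu
          obtain ⟨c, hc1, hc2, hc3⟩ := F.cen v v' hvv hv'.symm
          intro h0
          have hvt : K.typ v = K.typ v' := by
            rw [← F.typ v, ← F.typ v', hv']
          have hp : z1 u ⨯₃ z1 c = 0 := lv30_par (hD v v' hvt hvv) h0 (hinc1 _ _ hadj')
            (hinc1 _ _ (K.symm hc1)) (hinc1 _ _ (K.symm hc2))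
          have huc : u ≠ c := fun e => hadj (by rw [e]; exact K.symm hc1)
          refine hsep u c (lv30_typ (K.symm hadj') hc2) (fun e => huc (hc3 u e)) hp
      · by_cases hvv : v = v'
        · subst hvv
          obtain ⟨c, hc1, hc2, hc3⟩ := F.cen u u' huu hu'.symm
          intro h0
          have hut : K.typ u = K.typ u' := by
            rw [← F.typ u, ← F.typ u', hu']
          have hp : z1 v ⨯₃ z1 c = 0 := lv30_par (hD u u' hut huu)
            (by rw [dotProduct_comm]; exact h0) (hinc1 _ _ (K.symm hadj'))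
            (hinc1 _ _ (K.symm hc1)) (hinc1 _ _ (K.symm hc2))
          have hvc : v ≠ c := fun e => hadj (by rw [e]; exact hc1)
          refine hsep v c (lv30_typ hadj' hc2) (fun e => hvc (hc3 v e)) hp
        · exact absurd (F.two u u' v v' hadj' hu'.symm hv'.symm huu hvv) hadj
    · apply q2
      refine hz.ninc _ (hmem u) _ (hmem v) ?_ hq (by simp)
      show K.typ (f.π u) ≠ K.typ (f.π v)
      rw [F.typ, F.typ]
      exact ht

end Pool.Agent.Levi3
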