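import Pool.Agent.Levi3.LocData

/-!
The certificate is correct (checked by the kernel).
-/

namespace Pool.Agent.Levi3.Loc

theorem cert_ok : certOk cert = true := by decide +kernel

/-- the root of the certificate -/
def root : Node := ⟨3, 6, [(0, 1), (0, 2)], Op.H 1 0 2, [some (0, [0, 1, 2, 3, 4, 5])]⟩

theorem root_mem : root ∈ cert := List.mem_cons_self

end Pool.Agent.Levi3.Loc
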