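import Pool.Agent.Levi3.LocSound
import Pool.Agent.Levi3.LocCert

/-! LV31 Local -/

namespace Pool.Agent.Levi3
open Matrix Finset
open Loc

variable {V : Type} [DecidableEq V]

theorem local_fold : ∃ R : ℕ, ∀ (V : Type) [Fintype V] [DecidableEq V] (K : Inc V),
    (∀ v, deg K univ v = 3) → C4F K univ → (∀ X, bd K X = 0 → X = ∅ ∨ X = univ) →
    20 < Fintype.card V → ∀ x, ∃ f : Fold V, f.Loc K ∧ Near K R x f.ctr := by
  refine ⟨3 * cert.length + 1, ?_⟩
  intro V _ _ K hK hC hconn hcard x
  by_contra hcon
  push Not at hcon
  have h1 := hK x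
  unfold deg at h1
  obtain ⟨a, b, ha, hb, hab⟩ : ∃ a b, a ∈ nb K univ x ∧ b ∈ nb K univ x ∧ a ≠ b := by
    have : 1 < (nb K univ x).card := by omega
    rw [one_lt_card] at this
    obtain ⟨a, ha, b, hb, hab⟩ := this
    exact ⟨a, b, ha, hb, hab⟩
  rw [mem_nb] at ha hb
  have hax := K.bip ha.2
  have hbx := K.bip hb.2
  have hxa : x ≠ a := fun h => hax (by rw [h])
  have hxb : x ≠ b := fun h => hbx (by rw [h])
  have hx0 : Near K 1 x x := Or.inl rfl
  have hx1 : Near K 1 x a := Or.inr ⟨x, rfl, ha.2⟩
  have hx2 : Near K 1 x b := Or.inr ⟨x, rfl, hb.2⟩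
  let φ : ℕ → V := fun i => if i = 0 then x else if i = 1 then a else b
  refine cert_sound hK hC hconn hcard (R := 3 * cert.length + 1) hcon cert cert_ok root root_mem 1 φ
    (by omega) ?_
  apply Emb.ofNode
  · decide
  · decide
  · intro i hi j hj hij
    have hi' : i < 3 := hi
    have hj' : j < 3 := hj
    interval_cases i <;> interval_cases j <;> simp [φ] at hij ⊢ <;>
      first
        | exact hxa hij
        | exact hxb hij
        | exact hab hij
        | exact hxa hij.symm
        | exact hxb hij.symm
        | exact hab hij.symm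
  · intro e he
    have he' : e = (0, 1) ∨ e = (0, 2) := by
      have : e ∈ [((0 : ℕ), (1 : ℕ)), (0, 2)] := he
      simpa using this
    rcases he' with rfl | rfl
    · exact ⟨by decide, by decide, ha.2⟩
    · exact ⟨by decide, by decide, hb.2⟩
  · intro i hi j hj
    have hi' : i < 3 := hi
    have hj' : j < 3 := hj
    have e0 : root.T.testBit 0 = false := by decide
    have e1 : root.T.testBit 1 = true := by decide
    have e2 : root.T.testBit 2 = true := by decide
    have hab' : K.typ a = K.typ b := by
      cases h1 : K.typ a <;> cases h2 : K.typ b <;> cases h3 : K.typ x <;> simp_all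
    interval_cases i <;> interval_cases j <;> simp [φ, e0, e1, e2, hax, hbx, hab'] <;>
      first
        | exact fun h => hbx h.symm
        | exact hbx
        | simp_all
  · intro i hi
    have hi' : i < 3 := hi
    interval_cases i
    · exact hx0
    · exact hx1
    · exact hx2

end Pool.Agent.Levi3
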