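import Pool.Agent.Levi3.Defs
import Pool.Agent.Levi3.LV22
import Pool.Agent.Levi3.LV31

/-! LV32 : FarFolds -/

namespace Pool.Agent.Levi3

open Matrix Finset

open Classical in
theorem lv32_ball (V : Type) [Fintype V] (K : Inc V)
    (hK : ∀ v, deg K univ v ≤ 3) (n : ℕ) (x : V) :
    (univ.filter (fun y => Near K n x y)).card ≤ 4 ^ n := by
  induction n with
  | zero =>
    rw [pow_zero]
    refine Finset.card_le_one.mpr ?_
    intro a ha b hb
    have h1 : x = a := (mem_filter.mp ha).2
    have h2 : x = b := (mem_filter.mp hb).2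
    rw [← h1, ← h2]
  | succ n ih =>
    have hsub : univ.filter (fun y => Near K (n + 1) x y) ⊆
        (univ.filter (fun y => Near K n x y)).biUnion (fun w => insert w (nb K univ w)) := by
      intro y hy
      have hy2 : Near K n x y ∨ ∃ w, Near K n x w ∧ K.adj w y := (mem_filter.mp hy).2
      rw [mem_biUnion]
      rcases hy2 with h | ⟨w, h1, h2⟩
      · exact ⟨y, mem_filter.mpr ⟨mem_univ _, h⟩, mem_insert_self _ _⟩
      · refine ⟨w, mem_filter.mpr ⟨mem_univ _, h1⟩, mem_insert_of_mem ?_⟩
        rw [mem_nb]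
        exact ⟨mem_univ _, h2⟩
    calc (univ.filter (fun y => Near K (n + 1) x y)).card
        ≤ _ := Finset.card_le_card hsub
      _ ≤ (univ.filter (fun y => Near K n x y)).card * 4 := by
          refine Finset.card_biUnion_le_card_mul _ _ _ (fun w _ => ?_)
          refine (Finset.card_insert_le _ _).trans ?_
          have := hK w
          unfold deg at this
          omega
      _ ≤ 4 ^ n * 4 := Nat.mul_le_mul_right _ ih
      _ = 4 ^ (n + 1) := (pow_succ 4 n).symm

theorem near_card (V : Type) [Fintype V] [DecidableEq V] (K : Inc V)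
    (hK : ∀ v, deg K univ v ≤ 3) (n : ℕ) (x : V) (A : Finset V) (hA : ∀ y ∈ A, Near K n x y) :
    A.card ≤ 4 ^ n := by
  classical
  refine le_trans (Finset.card_le_card ?_) (lv32_ball V K hK n x)
  intro y hy
  exact mem_filter.mpr ⟨mem_univ _, hA y hy⟩

/-- a vertex far from at most three given ones -/
theorem lv32_far (V : Type) [Fintype V] [DecidableEq V] (K : Inc V)
    (hK : ∀ v, deg K univ v ≤ 3) (n : ℕ) (x y z : V) (hV : 3 * 4 ^ n < Fintype.card V) :
    ∃ v, ¬ Near K n x v ∧ ¬ Near K n y v ∧ ¬ Near K n z v := by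
  classical
  by_contra hcon
  push Not at hcon
  have hsub : (univ : Finset V) ⊆ (univ.filter (fun v => Near K n x v)) ∪
      ((univ.filter (fun v => Near K n y v)) ∪ (univ.filter (fun v => Near K n z v))) := by
    intro v _
    simp only [mem_union, mem_filter, mem_univ, true_and]
    by_cases h1 : Near K n x v
    · exact Or.inl h1
    · by_cases h2 : Near K n y v
      · exact Or.inr (Or.inl h2)
      · exact Or.inr (Or.inr (hcon v h1 h2))
  have h1 := Finset.card_le_card hsub
  rw [Finset.card_univ] at h1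
  have h2 := Finset.card_union_le (univ.filter (fun v => Near K n x v))
    ((univ.filter (fun v => Near K n y v)) ∪ (univ.filter (fun v => Near K n z v)))
  have h3 := Finset.card_union_le (univ.filter (fun v => Near K n y v))
    (univ.filter (fun v => Near K n z v))
  have b1 := lv32_ball V K hK n x
  have b2 := lv32_ball V K hK n y
  have b3 := lv32_ball V K hK n z
  omega

theorem far_folds (N : ℕ) : ∃ M : ℕ, ∀ (V : Type) [Fintype V] [DecidableEq V] (K : Inc V),
    (∀ v, deg K univ v = 3) → C4F K univ → (∀ X, bd K X = 0 → X = ∅ ∨ X = univ) →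
    M < Fintype.card V → ∀ x, ∃ f : Fin 3 → Fold V, (∀ i, (f i).Loc K) ∧
      (∀ i, ¬ Near K N x (f i).ctr) ∧ ∀ i j, i ≠ j → ¬ Near K N (f i).ctr (f j).ctr := by
  obtain ⟨R, hR⟩ := local_fold
  refine ⟨20 + 3 * 4 ^ (N + R), ?_⟩
  intro V _ _ K h3 h4 hconn hM x
  have h3' : ∀ v, deg K univ v ≤ 3 := fun v => (h3 v).le
  have h20 : 20 < Fintype.card V := by
    have := Nat.zero_le (3 * 4 ^ (N + R)); omega
  have hM' : 3 * 4 ^ (N + R) < Fintype.card V := by omega
  have key : ∀ a b c : V, ∃ f : Fold V, f.Loc K ∧ ¬ Near K N a f.ctr ∧ ¬ Near K N b f.ctr ∧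
      ¬ Near K N c f.ctr := by
    intro a b c
    obtain ⟨v, ha, hb, hc⟩ := lv32_far V K h3' (N + R) a b c hM'
    obtain ⟨f, hf, hn⟩ := hR V K h3 h4 hconn h20 v
    have hn' := near_symm hn
    exact ⟨f, hf, fun h => ha (near_trans h hn'), fun h => hb (near_trans h hn'),
      fun h => hc (near_trans h hn')⟩
  obtain ⟨f0, l0, n0, -, -⟩ := key x x x
  obtain ⟨f1, l1, n1, n10, -⟩ := key x f0.ctr f0.ctr
  obtain ⟨f2, l2, n2, n20, n21⟩ := key x f0.ctr f1.ctr
  have s10 : ¬ Near K N f1.ctr f0.ctr := fun h => n10 (near_symm h)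
  have s20 : ¬ Near K N f2.ctr f0.ctr := fun h => n20 (near_symm h)
  have s21 : ¬ Near K N f2.ctr f1.ctr := fun h => n21 (near_symm h)
  refine ⟨![f0, f1, f2], ?_, ?_, ?_⟩
  · intro i
    fin_cases i
    · exact l0
    · exact l1
    · exact l2
  · intro i
    fin_cases i
    · exact n0
    · exact n1
    · exact n2
  · intro i j hij
    fin_cases i <;> fin_cases j
    · exact absurd rfl hij
    · exact n10
    · exact n20
    · exact s10
    · exact absurd rfl hij
    · exact n21
    · exact s20
    · exact s21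
    · exact absurd rfl hij

end Pool.Agent.Levi3
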