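import Pool.Agent.Levi3.Defs

/-! LV33 : Restrict -/

namespace Pool.Agent.Levi3

open Matrix Finset

/-- the restriction of `G` to `Y` -/
def lv33_res {V : Type} (G : Inc V) (Y : Finset V) : Inc Y where
  typ := fun v => G.typ v
  adj := fun u v => G.adj u v
  symm := fun h => G.symm h
  bip := fun h => G.bip h

theorem restrict_crit (V : Type) [DecidableEq V] (G : Inc V) (Y : Finset V) :
    ∃ (H : Inc Y), (Crit G Y → Crit H univ) ∧ (C4F G Y → C4F H univ) ∧
      ∀ v : Y, deg H univ v = deg G Y v := by
  refine ⟨lv33_res G Y, ?_, ?_, ?_⟩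
  · rintro ⟨h1, h2⟩
    constructor
    · rintro ⟨z, hz⟩
      apply h1
      refine ⟨fun v => if h : v ∈ Y then z ⟨v, h⟩ else 0, ?_, ?_, ?_⟩
      · constructor
        · intro v hv
          rw [dif_pos hv]
          exact hz.pl.nz _ (mem_univ _)
        · intro u hu v hv huv
          rw [dif_pos hu, dif_pos hv]
          exact hz.pl.inc ⟨u, hu⟩ (mem_univ _) ⟨v, hv⟩ (mem_univ _) huv
      · intro u hu v hv ht hne
        simp only [dif_pos hu, dif_pos hv]
        exact hz.dis ⟨u, hu⟩ (mem_univ _) ⟨v, hv⟩ (mem_univ _) ht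
          (fun h => hne (congrArg Subtype.val h))
      · intro u hu v hv ht hna hX
        simp only [dif_pos hu, dif_pos hv]
        exact hz.ninc ⟨u, hu⟩ (mem_univ _) ⟨v, hv⟩ (mem_univ _) ht hna hX
    · intro T hT
      have hT' : T.map ⟨Subtype.val, Subtype.val_injective⟩ ⊂ Y := by
        rw [Finset.ssubset_iff_subset_ne]
        constructor
        · intro x hx
          rw [Finset.mem_map] at hx
          obtain ⟨y, _, rfl⟩ := hx
          exact y.2
        · intro h
          apply hT.ne
          ext y
          constructor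
          · intro _
            exact mem_univ _
          · intro _
            have : (y : V) ∈ T.map ⟨Subtype.val, Subtype.val_injective⟩ := by
              rw [h]
              exact y.2
            rw [Finset.mem_map] at this
            obtain ⟨y', hy', h'⟩ := this
            have : y' = y := Subtype.ext h'
            rwa [this] at hy'
      obtain ⟨z, hz⟩ := h2 _ hT'
      have hmem : ∀ v ∈ T, (v : V) ∈ T.map ⟨Subtype.val, Subtype.val_injective⟩ := by
        intro v hv
        rw [Finset.mem_map]
        exact ⟨v, hv, rfl⟩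
      refine ⟨fun v => z v, ?_, ?_, ?_⟩
      · constructor
        · intro v hv
          exact hz.pl.nz _ (hmem v hv)
        · intro u hu v hv huv
          exact hz.pl.inc _ (hmem u hu) _ (hmem v hv) huv
      · intro u hu v hv ht hne
        exact hz.dis _ (hmem u hu) _ (hmem v hv) ht (fun h => hne (Subtype.ext h))
      · intro u hu v hv ht hna hX
        exact hz.ninc _ (hmem u hu) _ (hmem v hv) ht hna hX
  · intro h a _ b _ c _ d _ h1 h2 h3 h4
    rcases h a a.2 b b.2 c c.2 d d.2 h1 h2 h3 h4 with h | h
    · exact Or.inl (Subtype.ext h)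
    · exact Or.inr (Subtype.ext h)
  · intro v
    unfold deg
    rw [← Finset.card_map ⟨Subtype.val, Subtype.val_injective⟩]
    congr 1
    ext x
    rw [Finset.mem_map, mem_nb]
    constructor
    · rintro ⟨y, hy, rfl⟩
      rw [mem_nb] at hy
      exact ⟨y.2, hy.2⟩
    · rintro ⟨hx, hadj⟩
      refine ⟨⟨x, hx⟩, ?_, rfl⟩
      rw [mem_nb]
      exact ⟨mem_univ _, hadj⟩

end Pool.Agent.Levi3
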