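import Pool.Agent.Levi3.Defs
import Pool.Agent.Levi3.LV13
import Pool.Agent.Levi3.LV15
import Pool.Agent.Levi3.LV17
import Pool.Agent.Levi3.LV18
import Pool.Agent.Levi3.LV27
import Pool.Agent.Levi3.LV30
import Pool.Agent.Levi3.LV31
import Pool.Agent.Levi3.LV32
import Pool.Agent.Levi3.LV33

/-! LV34 : Main -/

namespace Pool.Agent.Levi3

open Matrix Finset

theorem lv34_nd_congr {V : Type} {G G' : Inc V} (ht : G.typ = G'.typ)
    (ha : ∀ u v, G.adj u v ↔ G'.adj u v) {S : Finset V} (h : ND G S) : ND G' S := by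
  obtain ⟨z, hz⟩ := h
  refine ⟨z, ⟨⟨hz.pl.nz, fun u hu v hv huv => hz.pl.inc u hu v hv ((ha u v).2 huv)⟩, ?_, ?_⟩⟩
  · intro u hu v hv huv hne
    exact hz.dis u hu v hv (by rw [ht]; exact huv) hne
  · intro u hu v hv huv hne hX
    exact hz.ninc u hu v hv (by rw [ht]; exact huv) (fun h => hne ((ha u v).1 h)) hX

theorem lv34_deg_congr {V : Type} {G G' : Inc V}
    (ha : ∀ u v, G.adj u v ↔ G'.adj u v) (S : Finset V) (v : V) : deg G S v = deg G' S v := by
  unfold deg
  congr 1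
  ext u
  rw [mem_nb, mem_nb, ha]

theorem lv34_c5 {V : Type} [Fintype V] [DecidableEq V] (H K : Inc V) (hc : Crit H univ)
    (h4 : C4F H univ) (hK : IsClosure H K) : C5 K :=
  ⟨hK.cubic, hK.c4f, fun X hX => crit_cut2 H K hc h4 hK X hX,
    fun X hX => crit_cut3 H K hc h4 hK X hX, fun X hX => crit_cut4 H K hc h4 hK X hX⟩

theorem thmB : ∃ N : ℕ, ∀ (V : Type) [Fintype V] [DecidableEq V] (H : Inc V),
    Crit H univ → C4F H univ → (∀ v, deg H univ v ≤ 3) → (∃ v, deg H univ v ≠ 3) →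
    Fintype.card V ≤ N := by
  obtain ⟨M, hM⟩ := far_folds 100
  refine ⟨M, ?_⟩
  intro V _ _ H hc h4 hd hne
  by_contra hcard
  push Not at hcard
  obtain ⟨K, hK⟩ := closure_exists H hc h4 hd
  have h5 := lv34_c5 H K hc h4 hK
  rcases hK.rel with hr | ⟨p, q, hpq, hr⟩
  · obtain ⟨v, hv⟩ := hne
    exact hv (by rw [lv34_deg_congr hr]; exact hK.cubic v)
  · obtain ⟨f, hf, hfar, hfar2⟩ := hM V K hK.cubic hK.c4f
      (fun X hX => h5.c2 X (by omega)) hcard p
    have h := D2 K h5 (Brk.ac p q) hpq f hf 0 (fun h => absurd rfl h) hfar hfar2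
    have hS : (Brk.ac p q : Brk V).S = univ := by
      ext x
      simp [Brk.S, Brk.π]
    rw [hS] at h
    exact hc.1 (lv34_nd_congr (G := delEdge K p q) hK.typ (fun u v => (hr u v).symm) h)

theorem lv34_HB : ∃ N : ℕ, ∀ (V : Type), HB V N := by
  obtain ⟨N, hN⟩ := thmB
  refine ⟨N, fun V G Y hc h4 hd hne => ?_⟩
  classical
  obtain ⟨H, h1, h2, h3⟩ := restrict_crit V G Y
  have := hN Y H (h1 hc) (h2 h4) (fun v => by rw [h3]; exact hd v v.2) (by
    obtain ⟨v, hv, hv3⟩ := hne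
    exact ⟨⟨v, hv⟩, by rw [h3]; exact hv3⟩)
  rwa [Fintype.card_coe] at this

theorem thmC : ∃ N : ℕ, ∀ (V : Type) [Fintype V] [DecidableEq V] (H : Inc V),
    Crit H univ → C4F H univ → (∀ v, deg H univ v = 3) → Fintype.card V ≤ N := by
  obtain ⟨N, hN⟩ := lv34_HB
  obtain ⟨M, hM⟩ := far_folds (6 * N + 100)
  obtain ⟨R, hR⟩ := local_fold
  refine ⟨max M 20, ?_⟩
  intro V _ _ H hc h4 hd
  by_contra hcard
  push Not at hcard
  have hcM : M < Fintype.card V := lt_of_le_of_lt (le_max_left _ _) hcard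
  have hc20 : 20 < Fintype.card V := lt_of_le_of_lt (le_max_right _ _) hcard
  have hK : IsClosure H H := ⟨rfl, hd, h4, Or.inl fun u v => Iff.rfl⟩
  have h5 := lv34_c5 H H hc h4 hK
  have h0 : ∀ X, bd H X = 0 → X = ∅ ∨ X = univ := fun X hX => h5.c2 X (by omega)
  have hpos : 0 < Fintype.card V := by omega
  obtain ⟨x⟩ := Fintype.card_pos_iff.mp hpos
  obtain ⟨f1, hf1, -⟩ := hR V H hd h4 h0 hc20 x
  obtain ⟨f, hf, hfar, hfar2⟩ := hM V H hd h4 h0 hcM f1.ctr
  have h := D2 H h5 (Brk.fd f1) hf1 f hf N (fun _ => hN V) hfar hfar2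
  have hS : (Brk.fd f1 : Brk V).S = f1.S' univ := rfl
  rw [hS] at h
  exact hc.1 (Pool.Agent.Levi3.unfold H h5 f1 hf1 h)

theorem lv34_par {b d x y : E3} (hbd : b ⨯₃ d ≠ 0) (h1 : x ⬝ᵥ b = 0) (h2 : x ⬝ᵥ d = 0)
    (h3 : y ⬝ᵥ b = 0) (h4 : y ⬝ᵥ d = 0) : x ⨯₃ y = 0 := by
  have key : ∀ w : E3, w ⬝ᵥ b = 0 → w ⬝ᵥ d = 0 → (b ⨯₃ d) ⨯₃ w = 0 := by
    intro w hb hd
    simp only [dotProduct, Fin.sum_univ_three] at hb hd
    funext i
    fin_cases i
    · simp [cross_apply]
      linear_combination (d 0) * hb - (b 0) * hd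
    · simp [cross_apply]
      linear_combination (d 1) * hb - (b 1) * hd
    · simp [cross_apply]
      linear_combination (d 2) * hb - (b 2) * hd
  obtain ⟨c, hc⟩ := exists_smul_of_cross_eq_zero hbd (key x h1 h2)
  obtain ⟨e, he⟩ := exists_smul_of_cross_eq_zero hbd (key y h3 h4)
  rw [hc, he]
  simp

theorem lv34_c4_not_nd {V : Type} [DecidableEq V] (G : Inc V) (a b c d : V) (h1 : G.adj a b)
    (h2 : G.adj b c) (h3 : G.adj c d) (h4 : G.adj d a) (hac : a ≠ c) (hbd : b ≠ d) :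
    ¬ ND G {a, b, c, d} := by
  rintro ⟨z, hz⟩
  have ma : a ∈ ({a, b, c, d} : Finset V) := by simp
  have mb : b ∈ ({a, b, c, d} : Finset V) := by simp
  have mc : c ∈ ({a, b, c, d} : Finset V) := by simp
  have md : d ∈ ({a, b, c, d} : Finset V) := by simp
  have t1 := G.bip h1
  have t2 := G.bip h2
  have t3 := G.bip h3
  have t4 := G.bip h4
  have tac : G.typ a = G.typ c := by
    cases ha : G.typ a <;> cases hb : G.typ b <;> cases hc : G.typ c <;> simp_all
  have tbd : G.typ b = G.typ d := by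
    cases ha : G.typ b <;> cases hb : G.typ c <;> cases hc : G.typ d <;> simp_all
  have e1 := hz.dis a ma c mc tac hac
  have e2 := hz.dis b mb d md tbd hbd
  exact e1 (lv34_par e2 (hz.pl.inc a ma b mb h1) (hz.pl.inc a ma d md (G.symm h4))
    (hz.pl.inc c mc b mb (G.symm h2)) (hz.pl.inc c mc d md h3))

theorem bounded : ∃ N : ℕ, ∀ (V : Type) [Fintype V] [DecidableEq V] (G : Inc V),
    (∀ v, deg G univ v ≤ 3) → (∀ S : Finset V, S.card ≤ N → ND G S) → ND G univ := by
  obtain ⟨NB, hB⟩ := thmB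
  obtain ⟨NC, hC⟩ := thmC
  refine ⟨max (max NB NC) 4, ?_⟩
  intro V _ _ G hd hsmall
  by_contra hnd
  -- a minimal set without a placement
  obtain ⟨S, hS, hmin⟩ : ∃ S : Finset V, ¬ ND G S ∧ ∀ T, T ⊂ S → ND G T := by
    by_contra hcon
    push Not at hcon
    have hall : ∀ n : ℕ, ∀ S : Finset V, S.card = n → ND G S := by
      intro n
      induction n using Nat.strong_induction_on with
      | _ n ih =>
        intro S hSn
        by_contra hS
        obtain ⟨T, hT, hT2⟩ := hcon S hS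
        exact hT2 (ih T.card (by rw [← hSn]; exact card_lt_card hT) T rfl)
    exact hnd (hall _ univ rfl)
  have hcard : max (max NB NC) 4 < S.card := by
    by_contra h
    push Not at h
    exact hS (hsmall S h)
  have h4 : C4F G S := by
    by_contra h4
    unfold C4F at h4
    push Not at h4
    obtain ⟨a, ha, b, hb, c, hc, d, hd', h1, h2, h3, h4', hac, hbd⟩ := h4
    have hT := lv34_c4_not_nd G a b c d h1 h2 h3 h4' hac hbd
    have hsub : ({a, b, c, d} : Finset V) ⊆ S := by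
      intro x hx
      simp only [mem_insert, mem_singleton] at hx
      rcases hx with rfl | rfl | rfl | rfl <;> assumption
    have hc4 : ({a, b, c, d} : Finset V).card ≤ 4 := card_le_four
    by_cases hTS : ({a, b, c, d} : Finset V) = S
    · rw [← hTS] at hcard
      have := le_max_right (max NB NC) 4
      omega
    · exact hT (hmin _ (Finset.ssubset_iff_subset_ne.mpr ⟨hsub, hTS⟩))
  obtain ⟨H, r1, r2, r3⟩ := restrict_crit V G S
  have hcr := r1 ⟨hS, hmin⟩
  have hc4 := r2 h4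
  have hdeg : ∀ v : S, deg H univ v ≤ 3 := fun v => by
    rw [r3]; exact (deg_mono (subset_univ S) _).trans (hd v)
  by_cases hall : ∀ v : S, deg H univ v = 3
  · have := hC S H hcr hc4 hall
    rw [Fintype.card_coe] at this
    have h1 := le_max_left (max NB NC) 4
    have h2 := le_max_right NB NC
    omega
  · push Not at hall
    have := hB S H hcr hc4 hdeg hall
    rw [Fintype.card_coe] at this
    have h1 := le_max_left (max NB NC) 4
    have h2 := le_max_left NB NC
    omega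

end Pool.Agent.Levi3
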