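import Mathlib

/-!
The decision problem LEVI-3.

A finite bipartite cubic graph with specified bipartition has equally many points and lines,
so it is given by an `n × n` incidence matrix with three ones in every row and column.
-/

namespace Pool.Agent.Levi3

/-- A (straight) line of the real plane. -/
def IsLine (l : Set (ℝ × ℝ)) : Prop :=
  ∃ a b c : ℝ, (a ≠ 0 ∨ b ≠ 0) ∧ l = {x | a * x.1 + b * x.2 = c}

/-- `M` is the incidence matrix of a bipartite cubic graph: every point (row) lies on exactly
three lines and every line (column) contains exactly three points. -/
def IsCubic {n : ℕ} (M : Fin n → Fin n → Bool) : Prop :=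
  (∀ p, (Finset.univ.filter fun l => M p l = true).card = 3) ∧
    ∀ l, (Finset.univ.filter fun p => M p l = true).card = 3

/-- `M` is realised by pairwise distinct points and pairwise distinct lines of the real plane,
a point lying on a line exactly when the matrix says so. -/
def IsGeometric {n : ℕ} (M : Fin n → Fin n → Bool) : Prop :=
  ∃ (x : Fin n → ℝ × ℝ) (l : Fin n → Set (ℝ × ℝ)), Function.Injective x ∧
    Function.Injective l ∧ (∀ j, IsLine (l j)) ∧ ∀ i j, x i ∈ l j ↔ M i j = true

/-- Encoding of an `n × n` matrix as a bit string: `n` ones, a zero, and the rows. -/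
def encodeMatrix (M : Σ n : ℕ, Fin n → Fin n → Bool) : List Bool :=
  List.replicate M.1 true ++ false ::
    (List.finRange M.1).flatMap fun i => (List.finRange M.1).map fun j => M.2 i j

end Pool.Agent.Levi3
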