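import Pool.Agent.Levi3.Defs
import Pool.Agent.Levi3.Statement
import Pool.Agent.Levi3.LV01

/-! LV35 : Geometric -/

namespace Pool.Agent.Levi3

open Matrix Finset

private theorem lv35_basis (h : E3) (hh : h ≠ 0) :
    ∃ P : Matrix (Fin 3) (Fin 3) ℝ, P.det ≠ 0 ∧ (∀ v, (P *ᵥ v) 2 = h ⬝ᵥ v) ∧
      (∀ c : ℝ, Pᵀ *ᵥ ![0, 0, c] = c • h) := by
  by_cases h2 : h 2 = 0
  · by_cases h1 : h 1 = 0
    · have h0 : h 0 ≠ 0 := by
        intro h0
        apply hh
        funext i
        fin_cases i <;> simp [h0, h1, h2]
      refine ⟨!![0, 1, 0; 0, 0, 1; h 0, h 1, h 2], ?_, fun v => ?_, fun c => ?_⟩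
      · rw [det_fin_three]
        simpa using h0
      · simp [mulVec, dotProduct, Fin.sum_univ_three]
      · funext i
        fin_cases i <;> simp [mulVec, dotProduct, Fin.sum_univ_three, mul_comm]
    · refine ⟨!![0, 0, 1; 1, 0, 0; h 0, h 1, h 2], ?_, fun v => ?_, fun c => ?_⟩
      · rw [det_fin_three]
        simpa using h1
      · simp [mulVec, dotProduct, Fin.sum_univ_three]
      · funext i
        fin_cases i <;> simp [mulVec, dotProduct, Fin.sum_univ_three, mul_comm]
  · refine ⟨!![1, 0, 0; 0, 1, 0; h 0, h 1, h 2], ?_, fun v => ?_, fun c => ?_⟩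
    · rw [det_fin_three]
      simpa using h2
    · simp [mulVec, dotProduct, Fin.sum_univ_three]
    · funext i
      fin_cases i <;> simp [mulVec, dotProduct, Fin.sum_univ_three, mul_comm]

/-- If two affine lines coincide, the homogeneous coordinates are parallel. -/
private theorem lv35_line (a b c a' b' c' : ℝ) (hab : a ≠ 0 ∨ b ≠ 0)
    (h : ∀ x y : ℝ, a * x + b * y = c → a' * x + b' * y = c') :
    a * b' - a' * b = 0 ∧ a * c' - a' * c = 0 ∧ b * c' - b' * c = 0 := by
  have hD : a ^ 2 + b ^ 2 ≠ 0 := by
    rcases hab with h1 | h1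
    · positivity
    · positivity
  have e1 := h (c * a / (a ^ 2 + b ^ 2)) (c * b / (a ^ 2 + b ^ 2)) (by field_simp)
  have e2 := h (c * a / (a ^ 2 + b ^ 2) - b) (c * b / (a ^ 2 + b ^ 2) + a) (by field_simp; ring)
  have e3 : a * b' - a' * b = 0 := by linarith
  have e4 : c * (a * a' + b * b') = c' * (a ^ 2 + b ^ 2) := by
    field_simp at e1
    linarith
  refine ⟨e3, ?_, ?_⟩
  · have : (a ^ 2 + b ^ 2) * (a * c' - a' * c) = 0 := by
      linear_combination (-a) * e4 + c * b * e3
    exact (mul_eq_zero.1 this).resolve_left hD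
  · have : (a ^ 2 + b ^ 2) * (b * c' - b' * c) = 0 := by
      linear_combination (-b) * e4 - c * a * e3
    exact (mul_eq_zero.1 this).resolve_left hD

theorem geometric_iff {n : ℕ} (M : Fin n → Fin n → Bool) :
    IsGeometric M ↔ ND (ofMatrix M) univ := by
  classical
  constructor
  · rintro ⟨x, l, hx, hl, hline, hinc⟩
    choose a b c hab hset using hline
    have hmem : ∀ i j, x i ∈ l j ↔ a j * (x i).1 + b j * (x i).2 = c j := by
      intro i j
      rw [hset j]
      rfl
    have hdot : ∀ i j, (![(x i).1, (x i).2, 1] : E3) ⬝ᵥ ![a j, b j, -c j] = 0 ↔ M i j = true := by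
      intro i j
      rw [← hinc, hmem]
      simp only [dotProduct, Fin.sum_univ_three]
      simp
      constructor <;> intro h <;> linarith
    have hdot' : ∀ i j, (![a j, b j, -c j] : E3) ⬝ᵥ ![(x i).1, (x i).2, 1] = 0 ↔ M i j = true := by
      intro i j
      rw [dotProduct_comm]
      exact hdot i j
    refine ⟨Sum.elim (fun i => ![(x i).1, (x i).2, 1]) (fun j => ![a j, b j, -c j]), ⟨?_, ?_⟩, ?_, ?_⟩
    · rintro (i | j) _ h0
      · have := congrFun h0 2
        simp at this
      · have e0 := congrFun h0 0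
        have e1 := congrFun h0 1
        simp at e0 e1
        rcases hab j with h1 | h1
        · exact h1 e0
        · exact h1 e1
    · rintro (i | i) _ (j | j) _ h
      · exact absurd h (by simp [ofMatrix])
      · exact (hdot i j).2 h
      · exact (hdot' j i).2 h
      · exact absurd h (by simp [ofMatrix])
    · rintro (i | i) _ (j | j) _ ht hne h0
      · apply hne
        congr 1
        apply hx
        have e0 := congrFun h0 0
        have e1 := congrFun h0 1
        simp [cross_apply] at e0 e1
        exact Prod.ext (by linarith) (by linarith)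
      · simp [ofMatrix] at ht
      · simp [ofMatrix] at ht
      · apply hne
        congr 1
        apply hl
        have hnz : (![a i, b i, -c i] : E3) ≠ 0 := by
          intro h0
          have e0 := congrFun h0 0
          have e1 := congrFun h0 1
          simp at e0 e1
          rcases hab i with h1 | h1
          · exact h1 e0
          · exact h1 e1
        obtain ⟨k, hk⟩ := exists_smul_of_cross_eq_zero hnz h0
        have e0 := congrFun hk 0
        have e1 := congrFun hk 1
        have e2 := congrFun hk 2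
        simp at e0 e1 e2
        have hk0 : k ≠ 0 := by
          rintro rfl
          rcases hab j with h1 | h1
          · exact h1 (by simpa using e0)
          · exact h1 (by simpa using e1)
        have e2' : c j = k * c i := by linarith
        rw [hset i, hset j, e0, e1, e2']
        ext y
        simp only [Set.mem_setOf_eq]
        constructor
        · intro h
          rw [← h]
          ring
        · intro h
          apply mul_left_cancel₀ hk0
          linarith
    · rintro (i | i) _ (j | j) _ ht hadj _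
      · exact absurd rfl ht
      · exact fun h => hadj ((hdot i j).1 h)
      · exact fun h => hadj ((hdot' j i).1 h)
      · exact absurd rfl ht
  · rintro ⟨z, ⟨hnz, hinc⟩, hdis, hninc⟩
    obtain ⟨h, hh0, hh⟩ := exists_generic (univ.image z) (by
      intro a ha
      obtain ⟨v, -, rfl⟩ := mem_image.1 ha
      exact hnz v (mem_univ v))
    have hh1 : ∀ v, h ⬝ᵥ z v ≠ 0 := fun v => (hh _ (mem_image_of_mem z (mem_univ v))).1
    have hh2 : ∀ v, h ⨯₃ z v ≠ 0 := fun v => (hh _ (mem_image_of_mem z (mem_univ v))).2
    obtain ⟨P, hP, hP2, hP3⟩ := lv35_basis h hh0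
    have hPu : IsUnit P.det := isUnit_iff_ne_zero.2 hP
    set Q : Matrix (Fin 3) (Fin 3) ℝ := (P⁻¹)ᵀ with hQ
    have hPQ : Pᵀ * Q = 1 := by
      rw [hQ, ← Matrix.transpose_mul, Matrix.nonsing_inv_mul _ hPu, Matrix.transpose_one]
    have hQP : Qᵀ * P = 1 := by
      rw [hQ, Matrix.transpose_transpose, Matrix.nonsing_inv_mul _ hPu]
    have hdot : ∀ p l : E3, (P *ᵥ p) ⬝ᵥ (Q *ᵥ l) = p ⬝ᵥ l := by
      intro p l
      rw [← Matrix.vecMul_transpose, ← Matrix.dotProduct_mulVec, mulVec_mulVec, hPQ, one_mulVec]
    have hPinj : ∀ p p' : E3, p ≠ 0 → (P *ᵥ p) ⨯₃ (P *ᵥ p') = 0 → p ⨯₃ p' = 0 := by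
      intro p p' hp h0
      have hnz' : P *ᵥ p ≠ 0 := by
        intro h1
        apply hp
        have := congrArg (fun v => Qᵀ *ᵥ v) h1
        simpa [mulVec_mulVec, hQP] using this
      obtain ⟨k, hk⟩ := exists_smul_of_cross_eq_zero hnz' h0
      have : p' = k • p := by
        have := congrArg (fun v => Qᵀ *ᵥ v) hk
        simpa [mulVec_mulVec, hQP, mulVec_smul] using this
      rw [this]
      simp
    have hQinj : ∀ p p' : E3, p ≠ 0 → (Q *ᵥ p) ⨯₃ (Q *ᵥ p') = 0 → p ⨯₃ p' = 0 := by
      intro p p' hp h0
      have hnz' : Q *ᵥ p ≠ 0 := by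
        intro h1
        apply hp
        have := congrArg (fun v => Pᵀ *ᵥ v) h1
        simpa [mulVec_mulVec, hPQ] using this
      obtain ⟨k, hk⟩ := exists_smul_of_cross_eq_zero hnz' h0
      have : p' = k • p := by
        have := congrArg (fun v => Pᵀ *ᵥ v) hk
        simpa [mulVec_mulVec, hPQ, mulVec_smul] using this
      rw [this]
      simp
    -- coordinates
    let p : Fin n → E3 := fun i => P *ᵥ z (Sum.inl i)
    let q : Fin n → E3 := fun j => Q *ᵥ z (Sum.inr j)
    have hp2 : ∀ i, p i 2 ≠ 0 := fun i => by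
      show (P *ᵥ z (Sum.inl i)) 2 ≠ 0
      rw [hP2]
      exact hh1 _
    have hq : ∀ j, q j 0 ≠ 0 ∨ q j 1 ≠ 0 := by
      intro j
      by_contra hcon
      push Not at hcon
      have e1 : q j = ![0, 0, q j 2] := by
        funext i
        fin_cases i
        · simpa using hcon.1
        · simpa using hcon.2
        · simp
      have e2 : z (Sum.inr j) = q j 2 • h := by
        have e3 := congrArg (fun v => Pᵀ *ᵥ v) e1
        simp only [hP3] at e3
        rw [← e3]
        show _ = Pᵀ *ᵥ (Q *ᵥ z (Sum.inr j))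
        rw [mulVec_mulVec, hPQ, one_mulVec]
      apply hh2 (Sum.inr j)
      rw [e2]
      simp
    have hpq : ∀ i j, p i ⬝ᵥ q j = z (Sum.inl i) ⬝ᵥ z (Sum.inr j) := fun i j => hdot _ _
    have hkey : ∀ i j, z (Sum.inl i) ⬝ᵥ z (Sum.inr j) = 0 ↔ M i j = true := by
      intro i j
      constructor
      · intro h0
        by_contra hM
        exact hninc (Sum.inl i) (mem_univ _) (Sum.inr j) (mem_univ _) (by simp [ofMatrix])
          (by simpa [ofMatrix] using hM) (by simp) h0
      · intro hM
        exact hinc (Sum.inl i) (mem_univ _) (Sum.inr j) (mem_univ _) hM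
    refine ⟨fun i => (p i 0 / p i 2, p i 1 / p i 2),
      fun j => {x | q j 0 * x.1 + q j 1 * x.2 = -q j 2}, ?_, ?_, ?_, ?_⟩
    · intro i i' hii
      by_contra hne
      simp only [Prod.mk.injEq] at hii
      have e0 : p i 0 * p i' 2 = p i' 0 * p i 2 := by
        have := hii.1
        rwa [div_eq_div_iff (hp2 i) (hp2 i')] at this
      have e1 : p i 1 * p i' 2 = p i' 1 * p i 2 := by
        have := hii.2
        rwa [div_eq_div_iff (hp2 i) (hp2 i')] at this
      have e2 : p i 0 * p i' 1 = p i' 0 * p i 1 := by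
        have h3 : (p i 2 * p i' 2) * (p i 0 * p i' 1 - p i' 0 * p i 1) = 0 := by
          linear_combination (p i 2 * p i' 1) * e0 - (p i 2 * p i' 0) * e1
        have := (mul_eq_zero.1 h3).resolve_left (mul_ne_zero (hp2 i) (hp2 i'))
        linarith
      apply hdis (Sum.inl i) (mem_univ _) (Sum.inl i') (mem_univ _) rfl (by simpa using hne)
      apply hPinj _ _ (hnz _ (mem_univ _))
      show p i ⨯₃ p i' = 0
      funext k
      fin_cases k
      · simp [cross_apply]; linarith
      · simp [cross_apply]; linarith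
      · simp [cross_apply]; linarith
    · intro j j' hjj
      by_contra hne
      have h3 := lv35_line (q j 0) (q j 1) (-q j 2) (q j' 0) (q j' 1) (-q j' 2) (hq j) (by
        intro x y hxy
        have : (x, y) ∈ {x : ℝ × ℝ | q j 0 * x.1 + q j 1 * x.2 = -q j 2} := hxy
        rw [show {x : ℝ × ℝ | q j 0 * x.1 + q j 1 * x.2 = -q j 2} =
          {x : ℝ × ℝ | q j' 0 * x.1 + q j' 1 * x.2 = -q j' 2} from hjj] at this
        exact this)
      apply hdis (Sum.inr j) (mem_univ _) (Sum.inr j') (mem_univ _) rfl (by simpa using hne)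
      apply hQinj _ _ (hnz _ (mem_univ _))
      show q j ⨯₃ q j' = 0
      obtain ⟨e0, e1, e2⟩ := h3
      funext k
      fin_cases k
      · simp [cross_apply]; linarith
      · simp [cross_apply]; linarith
      · simp [cross_apply]; linarith
    · intro j
      exact ⟨q j 0, q j 1, -q j 2, hq j, rfl⟩
    · intro i j
      rw [← hkey i j, ← hpq i j]
      show q j 0 * (p i 0 / p i 2) + q j 1 * (p i 1 / p i 2) = -q j 2 ↔ _
      have h2 := hp2 i
      simp only [dotProduct, Fin.sum_univ_three]
      constructor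
      · intro h3
        field_simp at h3
        linarith
      · intro h3
        field_simp
        linarith

end Pool.Agent.Levi3
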