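import Pool.Agent.Levi3.Defs
import Pool.Agent.Helper74.Fixpoint

/-! LV36 : PolyVariant -/

namespace Pool.Agent.Levi3

section prog

open Pool.Agent.Helper74 Function Stk

/-- The whole program; the empty graph is accepted. -/
def lv36_mainP (k c : ℕ) (p q : Fm) : Prog Stk :=
  .seq (.whil inp tt? (.seq (.pop inp) (.push num true))) <|
  .seq (.pop inp) <|
  .ite num ne?
    (.seq (fillP k 0) <| .seq (iterP (assignP k p c) c 0) <| .seq (evalF k 0 q) <|
      .seq (clear inp) <| .seq (clear num) (clear arr))
    (.push res true)

theorem lv36_runs (k c : ℕ) (p q : Fm) (n : ℕ) (E : ℕ → ℕ → Bool) :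
    Runs (lv36_mainP k c p q) (inState inp (encE n E)) (inState res [decide (n = 0) || fixVal k c p q n E])
      (mainC k c p q n) := by
  set M := tab n 2 (fun t => E (t.getD 0 0) (t.getD 1 0)) with hM
  -- parsing
  let I : ℕ → Stacks Stk := fun i =>
    update (inState inp (List.replicate (n - i) true ++ false :: M)) num (List.replicate i true)
  have hI0 : I 0 = inState inp (encE n E) := by
    funext j
    by_cases j1 : j = num
    · subst j1; simp [I, inState]
    · simp [I, encE, hM, j1]
  have s1 := runs_while (k := inp) (c := tt?) (p := .seq (.pop inp) (.push num true)) n 2 I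
    (by
      intro i hi
      obtain ⟨m, hm⟩ : ∃ m, n - i = m + 1 := ⟨n - i - 1, by omega⟩
      simp [I, inState, hm, List.replicate_succ, tt?])
    (by simp [I, inState, tt?])
    (by
      intro i hi
      refine ((runs_pop inp _).seq (runs_push num true _)).to ?_ le_rfl
      obtain ⟨m, hm⟩ : ∃ m, n - i = m + 1 := ⟨n - i - 1, by omega⟩
      have hm' : n - (i + 1) = m := by omega
      funext j
      by_cases j1 : j = num
      · subst j1; simp [I, List.replicate_succ]
      · by_cases j2 : j = inp
        · subst j2; simp [I, inState, hm, hm', List.replicate_succ]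
        · simp [I, inState, j1, j2])
  rw [hI0] at s1
  set S1 : Stacks Stk := update (inState inp M) num (List.replicate n true) with hS1
  have s2 : Runs (.pop inp) (I n) S1 1 := by
    refine (runs_pop inp _).to ?_ le_rfl
    funext j
    by_cases j1 : j = num
    · subst j1; simp [I, hS1]
    · by_cases j2 : j = inp
      · subst j2; simp [I, inState, hS1]
      · simp [I, inState, hS1, j1, j2]
  rcases Nat.eq_zero_or_pos n with hn | hn
  · -- empty graph
    refine (s1.seq (s2.seq (runs_iteF ?_ (runs_push res true S1)))).to ?_ ?_
    · simp [hS1, hn, ne?]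
    · have hM0 : M = [] := by
        rw [hM, hn]; rfl
      funext j
      by_cases j1 : j = res
      · subst j1; simp [hS1, inState, hn]
      · by_cases j2 : j = num
        · subst j2; simp [hS1, inState, hn]
        · by_cases j3 : j = inp
          · subst j3; simp [hS1, inState, hM0]
          · simp [hS1, inState, j1, j2, j3]
    · unfold mainC
      omega
  · have hother : ∀ j : Stk, j ≠ inp → j ≠ num → S1 j = [] := by
      intro j h1 h2
      simp [hS1, inState, h1, h2]
    have s3 := runs_fillP n k 0 S1 (by simp [hS1]) (hother _ (by simp) (by simp))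
      (fun l' _ => hother _ (by simp) (by simp))
    rw [hother arr (by simp) (by simp), List.append_nil, ← tab_true] at s3
    set S2 := update S1 arr (tab n k (fun _ => true)) with hS2
    have hother2 : ∀ j : Stk, j ≠ inp → j ≠ num → j ≠ arr → S2 j = [] := by
      intro j h1 h2 h3
      rw [hS2, update_of_ne h3]
      exact hother j h1 h2
    have hInv2 : Inv n k 0 E (fun _ => true) (fun _ => 0) S2 := by
      constructor
      · simp [hS2, hS1]
      · simp [hS2, hS1, inState, hM]
      · simp [hS2]
      · exact hother2 _ (by simp) (by simp) (by simp)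
      · exact hother2 _ (by simp) (by simp) (by simp)
      · intro l' _; exact hother2 _ (by simp) (by simp) (by simp)
      · intro l' _; exact hother2 _ (by simp) (by simp) (by simp)
      · intro i; simpa using hother2 (var i) (by simp) (by simp) (by simp)
    have s4 := runs_iterP n k hn E (fun _ => true) p c c 0 (by omega) S2 hInv2
      (hother2 _ (by simp) (by simp) (by simp))
    set R := (opR n k E p)^[n ^ c] (fun _ => true) with hR
    set S3 := update S2 arr (tab n k R) with hS3
    have hInv3 : Inv n k 0 E R (fun _ => 0) S3 := by
      constructor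
      · simp [hS3, hS2, hS1]
      · simp [hS3, hS2, hS1, inState, hM]
      · simp [hS3]
      · simpa [hS3] using hInv2.tmp
      · simpa [hS3] using hInv2.aux
      · intro l' hl'; simpa [hS3] using hInv2.cnt l' hl'
      · intro l' hl'; simpa [hS3] using hInv2.sav l' hl'
      · intro i; simpa [hS3] using hInv2.var i
    have s5 := runs_evalF n k E R q 0 (fun _ => 0) (fun _ => hn) S3 hInv3
    have hS3res : S3 res = [] := by
      rw [hS3, update_of_ne (by simp)]
      exact hother2 _ (by simp) (by simp) (by simp)
    rw [hS3res] at s5
    set S4 := update S3 res [q.eval n k E R (fun _ => 0)] with hS4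
    have s6 := runs_clear inp S4
    have s7 := runs_clear num (update S4 inp [])
    have s8 := runs_clear arr (update (update S4 inp []) num [])
    have l6 : (S4 inp).length = n ^ 2 := by
      simp [hS4, hS3, hS2, hS1, inState, hM, tab_length]
    have l7 : ((update S4 inp []) num).length = n := by
      simp [hS4, hS3, hS2, hS1]
    have l8 : ((update (update S4 inp []) num []) arr).length = n ^ k := by
      simp [hS4, hS3, tab_length]
    rw [l6] at s6
    rw [l7] at s7
    rw [l8] at s8
    refine (s1.seq (s2.seq (runs_iteT ?_ (s3.seq (s4.seq (s5.seq (s6.seq (s7.seq s8)))))))).to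
      ?_ ?_
    · obtain ⟨m, hm⟩ : ∃ m, n = m + 1 := ⟨n - 1, by omega⟩
      simp [hS1, hm, ne?, List.replicate_succ]
    · funext j
      by_cases j1 : j = arr
      · subst j1; simp [inState]
      · by_cases j2 : j = num
        · subst j2; simp [inState]
        · by_cases j3 : j = inp
          · subst j3; simp [inState]
          · by_cases j4 : j = res
            · subst j4
              have h0 : decide (n ≠ 0) = true := by simp; omega
              have h0' : decide (n = 0) = false := by simp; omega
              simp [hS4, inState, fixVal, h0, h0', hR]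
            · have := hother2 j j3 j2 j1
              simp [hS4, hS3, inState, j1, j2, j3, j4, this]
    · unfold mainC
      omega


end prog

open Matrix Finset

theorem fixpoint_poly' (k c : ℕ) (p q : Pool.Agent.Helper74.Fm) {α : Type} (nn : α → ℕ)
    (EE : α → ℕ → ℕ → Bool)
    (ea : α → List Bool) (hea : ∀ a, ea a = Pool.Agent.Helper74.encE (nn a) (EE a))
    (f : α → Bool) (hf : ∀ a, nn a ≠ 0 → f a = Pool.Agent.Helper74.fixVal k c p q (nn a) (EE a))
    (hf0 : ∀ a, nn a = 0 → f a = true) :
    Nonempty (Turing.TM2ComputableInPolyTime ea Computability.encodeBool f) := by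
  obtain ⟨P, hP⟩ := Pool.Agent.Helper74.PB.mainC k c p q
  refine Pool.Agent.Helper74.poly_of_prog (lv36_mainP k c p q) Pool.Agent.Helper74.Stk.inp
    Pool.Agent.Helper74.Stk.res ea f P ?_
  intro a
  have h1 : f a = (decide (nn a = 0) || Pool.Agent.Helper74.fixVal k c p q (nn a) (EE a)) := by
    by_cases h : nn a = 0
    · rw [hf0 a h]
      simp [h]
    · rw [hf a h]
      simp [h]
  rw [hea, h1]
  refine (lv36_runs k c p q (nn a) (EE a)).mono (hP _ _ ?_)
  simp [Pool.Agent.Helper74.encE]

end Pool.Agent.Levi3
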