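import Pool.Agent.Levi3.Defs
import Pool.Agent.Helper74.Fixpoint
import Pool.Agent.Helper74.Holds
import Pool.Agent.Levi3.Statement
import Pool.Agent.Levi3.LV34
import Pool.Agent.Levi3.LV35
import Pool.Agent.Levi3.LV36

/-! LV37 : Final -/

namespace Pool.Agent.Levi3

open Matrix Finset

open Pool.Agent.Helper74 (Fm encE fixVal opR tab holds_imp holds_or holds_all holds_conj
  eval_iff_holds)

/-! ### Transfer of nondegenerate placements along embeddings -/

theorem lv37_pull {V W : Type} {H : Inc W} {G : Inc V} {φ : W → V} (hinj : Function.Injective φ)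
    (htyp : ∀ w, G.typ (φ w) = H.typ w) (hadj : ∀ a b, G.adj (φ a) (φ b) ↔ H.adj a b)
    {T : Finset W} {S : Finset V} (hTS : ∀ w ∈ T, φ w ∈ S) (h : ND G S) : ND H T := by
  obtain ⟨z, hz⟩ := h
  refine ⟨fun w => z (φ w), ⟨⟨fun v hv => hz.pl.nz _ (hTS v hv), ?_⟩, ?_, ?_⟩⟩
  · intro u hu v hv huv
    exact hz.pl.inc _ (hTS u hu) _ (hTS v hv) ((hadj u v).2 huv)
  · intro u hu v hv ht hne
    exact hz.dis _ (hTS u hu) _ (hTS v hv) (by rw [htyp, htyp, ht]) (fun h => hne (hinj h))
  · intro u hu v hv ht hn hX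
    exact hz.ninc _ (hTS u hu) _ (hTS v hv) (by rw [htyp, htyp]; exact ht)
      (fun h => hn ((hadj u v).1 h)) hX

theorem lv37_push {V W : Type} {H : Inc W} {G : Inc V} {φ : W → V} (hinj : Function.Injective φ)
    (htyp : ∀ w, G.typ (φ w) = H.typ w) (hadj : ∀ a b, G.adj (φ a) (φ b) ↔ H.adj a b)
    {T : Finset W} {S : Finset V} (hST : ∀ v ∈ S, ∃ w ∈ T, φ w = v) (h : ND H T) : ND G S := by
  classical
  obtain ⟨z, hz⟩ := h
  rcases S.eq_empty_or_nonempty with hS | ⟨v0, hv0⟩
  · subst hS
    exact ⟨fun _ => 0, ⟨⟨by simp, by simp⟩, by intro u hu; simp at hu, by intro u hu; simp at hu⟩⟩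
  obtain ⟨w0, _, _⟩ := hST v0 hv0
  have : Nonempty W := ⟨w0⟩
  have key : ∀ w, Function.invFun φ (φ w) = w := Function.leftInverse_invFun hinj
  refine ⟨fun v => z (Function.invFun φ v), ⟨⟨?_, ?_⟩, ?_, ?_⟩⟩
  · intro v hv
    obtain ⟨w, hw, rfl⟩ := hST v hv
    simp only [key]
    exact hz.pl.nz w hw
  · intro u hu v hv huv
    obtain ⟨w, hw, rfl⟩ := hST v hv
    obtain ⟨w', hw', rfl⟩ := hST u hu
    simp only [key]
    exact hz.pl.inc _ hw' _ hw ((hadj _ _).1 huv)
  · intro u hu v hv ht hne
    obtain ⟨w, hw, rfl⟩ := hST v hv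
    obtain ⟨w', hw', rfl⟩ := hST u hu
    simp only [key]
    exact hz.dis _ hw' _ hw (by rw [← htyp, ← htyp, ht]) (fun h => hne (by rw [h]))
  · intro u hu v hv ht hn hX
    obtain ⟨w, hw, rfl⟩ := hST v hv
    obtain ⟨w', hw', rfl⟩ := hST u hu
    simp only [key]
    exact hz.ninc _ hw' _ hw (by rw [← htyp, ← htyp]; exact ht)
      (fun h => hn ((hadj _ _).2 h)) (fun h => h.elim)

/-- The incidence structure of a rectangular matrix. -/
def lv37_pat {k l : ℕ} (B : Fin k → Fin l → Bool) : Inc (Fin k ⊕ Fin l) where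
  typ := Sum.isLeft
  adj := fun x y => match x, y with
    | .inl i, .inr j => B i j = true
    | .inr j, .inl i => B i j = true
    | _, _ => False
  symm := by rintro (i|i) (j|j) h <;> simp at h ⊢ <;> exact h
  bip := by rintro (i|i) (j|j) h <;> simp_all

/-- the forbidden pattern condition -/
def lv37_cond (N : ℕ) {n : ℕ} (M : Fin n → Fin n → Bool) : Prop :=
  ∀ k < N + 1, ∀ l < N + 1, ∀ B : Fin k → Fin l → Bool, ¬ ND (lv37_pat B) univ →
    ¬ ∃ (x : Fin k → Fin n) (y : Fin l → Fin n), Function.Injective x ∧ Function.Injective y ∧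
      ∀ i j, (M (x i) (y j) = true ↔ B i j = true)

theorem lv37_deg {n : ℕ} {M : Fin n → Fin n → Bool} (hM : IsCubic M) (v : Fin n ⊕ Fin n) :
    deg (ofMatrix M) univ v ≤ 3 := by
  classical
  unfold deg
  rcases v with p | l
  · have h : nb (ofMatrix M) univ (Sum.inl p)
        ⊆ (univ.filter fun l => M p l = true).image Sum.inr := by
      intro u hu
      rw [mem_nb] at hu
      rcases u with u | u
      · exact absurd hu.2 (by simp [ofMatrix])
      · rw [Finset.mem_image]
        exact ⟨u, by simpa [ofMatrix] using hu.2, rfl⟩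
    calc _ ≤ _ := Finset.card_le_card h
      _ ≤ _ := Finset.card_image_le
      _ = 3 := hM.1 p
  · have h : nb (ofMatrix M) univ (Sum.inr l)
        ⊆ (univ.filter fun p => M p l = true).image Sum.inl := by
      intro u hu
      rw [mem_nb] at hu
      rcases u with u | u
      · rw [Finset.mem_image]
        exact ⟨u, by simpa [ofMatrix] using hu.2, rfl⟩
      · exact absurd hu.2 (by simp [ofMatrix])
    calc _ ≤ _ := Finset.card_le_card h
      _ ≤ _ := Finset.card_image_le
      _ = 3 := hM.2 l

theorem lv37_adj {k l n : ℕ} {B : Fin k → Fin l → Bool} {M : Fin n → Fin n → Bool}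
    {x : Fin k → Fin n} {y : Fin l → Fin n} (h : ∀ i j, (M (x i) (y j) = true ↔ B i j = true))
    (a b : Fin k ⊕ Fin l) :
    (ofMatrix M).adj (Sum.map x y a) (Sum.map x y b) ↔ (lv37_pat B).adj a b := by
  rcases a with a | a <;> rcases b with b | b <;> simp [ofMatrix, lv37_pat, h]

theorem lv37_typ {k l n : ℕ} {B : Fin k → Fin l → Bool} {M : Fin n → Fin n → Bool}
    {x : Fin k → Fin n} {y : Fin l → Fin n} (a : Fin k ⊕ Fin l) :
    (ofMatrix M).typ (Sum.map x y a) = (lv37_pat B).typ a := by
  rcases a with a | a <;> simp [ofMatrix, lv37_pat]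

theorem lv37_main {N : ℕ} (hN : ∀ (V : Type) [Fintype V] [DecidableEq V] (G : Inc V),
    (∀ v, deg G univ v ≤ 3) → (∀ S : Finset V, S.card ≤ N → ND G S) → ND G univ)
    {n : ℕ} (M : Fin n → Fin n → Bool) (hM : IsCubic M) :
    IsGeometric M ↔ lv37_cond N M := by
  classical
  rw [geometric_iff]
  constructor
  · intro h k _ l _ B hB ⟨x, y, hx, hy, hxy⟩
    refine hB (lv37_pull (φ := Sum.map x y) (hx.sumMap hy) lv37_typ (lv37_adj hxy)
      (fun _ _ => mem_univ _) h)
  · intro h
    refine hN _ (ofMatrix M) (lv37_deg hM) ?_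
    intro S hS
    by_contra hND
    set P := S.toLeft with hP
    set Q := S.toRight with hQ
    have hcard : P.card + Q.card = S.card := Finset.card_toLeft_add_card_toRight
    let eP := P.equivFin.symm
    let eQ := Q.equivFin.symm
    let x : Fin P.card → Fin n := fun i => (eP i : Fin n)
    let y : Fin Q.card → Fin n := fun i => (eQ i : Fin n)
    have hx : Function.Injective x := Subtype.val_injective.comp eP.injective
    have hy : Function.Injective y := Subtype.val_injective.comp eQ.injective
    refine h P.card (by omega) Q.card (by omega) (fun i j => M (x i) (y j)) ?_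
      ⟨x, y, hx, hy, fun i j => Iff.rfl⟩
    intro hB
    refine hND (lv37_push (φ := Sum.map x y) (hx.sumMap hy) lv37_typ
      (lv37_adj (fun _ _ => Iff.rfl)) ?_ hB)
    intro v hv
    rcases v with v | v
    · have hv' : v ∈ P := Finset.mem_toLeft.2 hv
      refine ⟨Sum.inl (P.equivFin ⟨v, hv'⟩), mem_univ _, ?_⟩
      simp [x, eP]
    · have hv' : v ∈ Q := Finset.mem_toRight.2 hv
      refine ⟨Sum.inr (Q.equivFin ⟨v, hv'⟩), mem_univ _, ?_⟩
      simp [y, eQ]

/-! ### Formulas -/

/-- conjunction over a finite type -/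
noncomputable def lv37_all {ι : Type} [Fintype ι] (f : ι → Fm) : Fm :=
  Fm.conj ((Finset.univ : Finset ι).toList.map f)

theorem lv37_holds_all {ι : Type} [Fintype ι] (f : ι → Fm) {V : Type} (k : ℕ)
    (adj : V → V → Prop) (R : List V → Prop) (x : ℕ → V) :
    (lv37_all f).holds k adj R x ↔ ∀ i, (f i).holds k adj R x := by
  unfold lv37_all
  rw [holds_conj]
  simp

/-- `∃ x_{m-1} … ∃ x_0` -/
def lv37_exs : ℕ → Fm → Fm
  | 0, p => p
  | m + 1, p => .ex m (lv37_exs m p)

theorem lv37_holds_exs {V : Type} (k : ℕ) (adj : V → V → Prop) (R : List V → Prop) (m : ℕ)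
    (p : Fm) (x : ℕ → V) :
    (lv37_exs m p).holds k adj R x ↔
      ∃ v : ℕ → V, p.holds k adj R (fun i => if i < m then v i else x i) := by
  induction m generalizing x with
  | zero =>
    simp only [lv37_exs, Nat.not_lt_zero, if_false]
    exact ⟨fun h => ⟨x, h⟩, fun ⟨_, h⟩ => h⟩
  | succ m ih =>
    simp only [lv37_exs, Fm.holds]
    constructor
    · rintro ⟨a, ha⟩
      rw [ih] at ha
      obtain ⟨v, hv⟩ := ha
      refine ⟨Function.update v m a, ?_⟩
      convert hv using 1
      funext i
      by_cases h1 : i < m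
      · have : i ≠ m := by omega
        simp [h1, this, (by omega : i < m + 1)]
      · by_cases h2 : i = m
        · subst h2; simp
        · have h3 : ¬ i < m + 1 := by omega
          simp only [h1, h3, if_false, Function.update_of_ne h2]
    · rintro ⟨v, hv⟩
      refine ⟨v m, ?_⟩
      rw [ih]
      refine ⟨v, ?_⟩
      convert hv using 1
      funext i
      by_cases h1 : i < m
      · simp [h1, (by omega : i < m + 1)]
      · by_cases h2 : i = m
        · subst h2; simp
        · have h3 : ¬ i < m + 1 := by omega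
          simp only [h1, h3, if_false, Function.update_of_ne h2]

open Classical in
/-- the pattern `B` occurs on the variables `0, …, k+l-1` -/
noncomputable def lv37_body {k l : ℕ} (B : Fin k → Fin l → Bool) : Fm :=
  .and (lv37_all fun ij : Fin k × Fin k =>
      if ij.1 = ij.2 then .eq 0 0 else .neg (.eq ij.1.1 ij.2.1)) <|
  .and (lv37_all fun ij : Fin l × Fin l =>
      if ij.1 = ij.2 then .eq 0 0 else .neg (.eq (k + ij.1.1) (k + ij.2.1))) <|
  lv37_all fun ij : Fin k × Fin l =>
      if B ij.1 ij.2 = true then .adj ij.1.1 (k + ij.2.1) else .neg (.adj ij.1.1 (k + ij.2.1))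

theorem lv37_holds_body {k l : ℕ} (B : Fin k → Fin l → Bool) {V : Type} (k' : ℕ)
    (adj : V → V → Prop) (R : List V → Prop) (x : ℕ → V) :
    (lv37_body B).holds k' adj R x ↔
      (Function.Injective fun i : Fin k => x i.1) ∧
      (Function.Injective fun i : Fin l => x (k + i.1)) ∧
      ∀ (i : Fin k) (j : Fin l), (adj (x i.1) (x (k + j.1)) ↔ B i j = true) := by
  unfold lv37_body
  simp only [Fm.holds, lv37_holds_all, Prod.forall]
  refine and_congr ?_ (and_congr ?_ ?_)
  · constructor
    · intro h i j hij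
      by_contra hne
      have := h i j
      rw [if_neg hne] at this
      exact this hij
    · intro h i j
      by_cases hij : i = j
      · simp [hij, Fm.holds]
      · rw [if_neg hij]
        exact fun h' => hij (h h')
  · constructor
    · intro h i j hij
      by_contra hne
      have := h i j
      rw [if_neg hne] at this
      exact this hij
    · intro h i j
      by_cases hij : i = j
      · simp [hij, Fm.holds]
      · rw [if_neg hij]
        exact fun h' => hij (h h')
  · refine forall_congr' fun i => forall_congr' fun j => ?_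
    by_cases hB : B i j = true
    · simp [hB, Fm.holds]
    · simp [hB, Fm.holds]

open Classical in
/-- no forbidden pattern occurs -/
noncomputable def lv37_forb (N : ℕ) : Fm :=
  lv37_all fun k : Fin (N + 1) => lv37_all fun l : Fin (N + 1) =>
    lv37_all fun B : Fin k.1 → Fin l.1 → Bool =>
      if ND (lv37_pat B) univ then .eq 0 0 else .neg (lv37_exs (k.1 + l.1) (lv37_body B))

theorem lv37_holds_forb (N : ℕ) {n : ℕ} (M : Fin n → Fin n → Bool) (k' : ℕ)
    (R : List (Fin n) → Prop) (x0 : ℕ → Fin n) :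
    (lv37_forb N).holds k' (fun p l => M p l = true) R x0 ↔ lv37_cond N M := by
  unfold lv37_forb lv37_cond
  simp only [lv37_holds_all]
  constructor
  · intro h k hk l hl B hB ⟨x, y, hx, hy, hxy⟩
    have h1 := h ⟨k, hk⟩ ⟨l, hl⟩ B
    rw [if_neg hB] at h1
    refine h1 ?_
    rw [lv37_holds_exs]
    refine ⟨fun i => if hi : i < k then x ⟨i, hi⟩ else
      if hj : i - k < l then y ⟨i - k, hj⟩ else x0 i, ?_⟩
    rw [lv37_holds_body]
    have e1 : ∀ i : Fin k, (fun i => if i < k + l then (if hi : i < k then x ⟨i, hi⟩ else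
      if hj : i - k < l then y ⟨i - k, hj⟩ else x0 i) else x0 i) i.1 = x i := by
      intro i
      have h2 : i.1 < k + l := by omega
      simp [h2]
    have e2 : ∀ j : Fin l, (fun i => if i < k + l then (if hi : i < k then x ⟨i, hi⟩ else
      if hj : i - k < l then y ⟨i - k, hj⟩ else x0 i) else x0 i) (k + j.1) = y j := by
      intro j
      have h2 : k + j.1 < k + l := by omega
      have h3 : ¬ k + j.1 < k := by omega
      simp
    refine ⟨?_, ?_, ?_⟩
    · intro i j hij
      simp only at hij
      have a1 := e1 i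
      have a2 := e1 j
      simp only at a1 a2
      rw [a1, a2] at hij
      exact hx hij
    · intro i j hij
      simp only at hij
      have a1 := e2 i
      have a2 := e2 j
      simp only at a1 a2
      rw [a1, a2] at hij
      exact hy hij
    · intro i j
      have a1 := e1 i
      have a2 := e2 j
      simp only at a1 a2 ⊢
      rw [a1, a2]
      exact hxy i j
  · intro h k l B
    by_cases hB : ND (lv37_pat B) univ
    · rw [if_pos hB]; simp [Fm.holds]
    · rw [if_neg hB]
      intro hex
      rw [lv37_holds_exs] at hex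
      obtain ⟨v, hv⟩ := hex
      rw [lv37_holds_body] at hv
      exact h k.1 k.2 l.1 l.2 B hB ⟨_, _, hv.1, hv.2.1, hv.2.2⟩

/-- the variable 0 has exactly three neighbours with respect to `f` -/
def lv37_three (f : Fm) : Fm :=
  .all 0 <| .ex 1 <| .ex 2 <| .ex 3 <| .and (.neg (.eq 1 2)) <| .and (.neg (.eq 1 3)) <|
    .and (.neg (.eq 2 3)) <| .all 4 <|
      .and (f.imp ((Fm.eq 4 1).or ((Fm.eq 4 2).or (.eq 4 3))))
        (((Fm.eq 4 1).or ((Fm.eq 4 2).or (.eq 4 3))).imp f)

theorem lv37_holds_row {n : ℕ} (M : Fin n → Fin n → Bool) (k' : ℕ)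
    (R : List (Fin n) → Prop) (x0 : ℕ → Fin n) :
    (lv37_three (.adj 0 4)).holds k' (fun p l => M p l = true) R x0 ↔
      ∀ p, (Finset.univ.filter fun l => M p l = true).card = 3 := by
  unfold lv37_three
  simp only [holds_all, holds_imp, holds_or, Fm.holds, Function.update_apply]
  simp only [Finset.card_eq_three]
  refine forall_congr' fun p => exists_congr fun a => exists_congr fun b => exists_congr fun c => ?_
  simp only [Finset.ext_iff, Finset.mem_filter, Finset.mem_univ, true_and, Finset.mem_insert,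
    Finset.mem_singleton]
  simp [iff_def]

theorem lv37_holds_col {n : ℕ} (M : Fin n → Fin n → Bool) (k' : ℕ)
    (R : List (Fin n) → Prop) (x0 : ℕ → Fin n) :
    (lv37_three (.adj 4 0)).holds k' (fun p l => M p l = true) R x0 ↔
      ∀ l, (Finset.univ.filter fun p => M p l = true).card = 3 := by
  unfold lv37_three
  simp only [holds_all, holds_imp, holds_or, Fm.holds, Function.update_apply]
  simp only [Finset.card_eq_three]
  refine forall_congr' fun p => exists_congr fun a => exists_congr fun b => exists_congr fun c => ?_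
  simp only [Finset.ext_iff, Finset.mem_filter, Finset.mem_univ, true_and, Finset.mem_insert,
    Finset.mem_singleton]
  simp [iff_def]

/-- the sentence -/
noncomputable def lv37_q (N : ℕ) : Fm :=
  .and (lv37_three (.adj 0 4)) (.and (lv37_three (.adj 4 0)) (lv37_forb N))

/-- matrix as a bit function on naturals -/
def lv37_E (M : Σ n : ℕ, Fin n → Fin n → Bool) (a b : ℕ) : Bool :=
  if h : a < M.1 ∧ b < M.1 then M.2 ⟨a, h.1⟩ ⟨b, h.2⟩ else false

theorem lv37_encode (M : Σ n : ℕ, Fin n → Fin n → Bool) :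
    encodeMatrix M = encE M.1 (lv37_E M) := by
  unfold encodeMatrix encE
  congr 2
  simp only [tab]
  have h1 : ∀ (g : ℕ → List Bool) (n : ℕ), (List.range n).flatMap g
      = (List.finRange n).flatMap (fun i => g i.1) := by
    intro g n
    rw [← List.map_coe_finRange_eq_range, List.flatMap_map]
  rw [h1]
  congr 1
  funext i
  rw [h1]
  rw [List.map_eq_flatMap]
  congr 1
  funext j
  simp [lv37_E]

open Classical in
theorem levi_in_P : Nonempty (Turing.TM2ComputableInPolyTime encodeMatrix
    Computability.encodeBool (fun M => decide (IsCubic M.2 ∧ IsGeometric M.2))) := by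
  obtain ⟨N, hN⟩ := bounded
  refine fixpoint_poly' 0 0 (.eq 0 0) (lv37_q N) (fun M => M.1) lv37_E encodeMatrix lv37_encode
    _ ?_ ?_
  · rintro ⟨n, M⟩ hn
    simp only at hn ⊢
    have hn' : 0 < n := Nat.pos_of_ne_zero hn
    have hE : ∀ a b : Fin n, lv37_E ⟨n, M⟩ a.1 b.1 = true ↔ M a b = true := by
      intro a b
      simp [lv37_E]
    set Rb := (opR n 0 (lv37_E ⟨n, M⟩) (.eq 0 0))^[n ^ 0] (fun _ => true) with hRb
    have h1 := eval_iff_holds 0 (fun a b => M a b = true) (lv37_E ⟨n, M⟩) hE Rb
      (fun t => Rb (t.map Fin.val) = true) (fun t _ => Iff.rfl) (lv37_q N)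
      (fun _ => (⟨0, hn'⟩ : Fin n))
    have h2 : (lv37_q N).holds 0 (fun a b => M a b = true)
        (fun t => Rb (t.map Fin.val) = true) (fun _ => (⟨0, hn'⟩ : Fin n)) ↔
        IsCubic M ∧ IsGeometric M := by
      unfold lv37_q
      rw [Fm.holds, Fm.holds, lv37_holds_row, lv37_holds_col, lv37_holds_forb, ← and_assoc]
      constructor
      · rintro ⟨h3, h4⟩
        exact ⟨h3, (lv37_main hN M h3).2 h4⟩
      · rintro ⟨h3, h4⟩
        exact ⟨h3, (lv37_main hN M h3).1 h4⟩
    have h3 : fixVal 0 0 (.eq 0 0) (lv37_q N) n (lv37_E ⟨n, M⟩) = true ↔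
        IsCubic M ∧ IsGeometric M := by
      rw [← h2, ← h1, fixVal, ← hRb]
      have : decide (n ≠ 0) = true := by simp; omega
      rw [this, Bool.true_and]
    rw [Bool.eq_iff_iff, h3]
    simp
  · rintro ⟨n, M⟩ hn
    simp only at hn
    subst hn
    simp only [decide_eq_true_eq]
    refine ⟨⟨fun p => p.elim0, fun l => l.elim0⟩, fun i => i.elim0, fun i => i.elim0,
      fun i => i.elim0, fun i => i.elim0, fun i => i.elim0, fun i => i.elim0⟩

end Pool.Agent.Levi3
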