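import Pool.Agent.Levi3.Defs

/-!
A checker for refutation certificates of partial cubic graphs (used for the local lemma).

A partial graph is a triple: adjacency bit matrix `M` (bit `32 * a + b`), types `T`, number of
vertices `n ≤ 31`.
-/

namespace Pool.Agent.Levi3.Loc

/-- partial graphs -/
structure St where
  M : ℕ
  T : ℕ
  n : ℕ

namespace St

/-- adjacency -/
def ad (g : St) (a b : ℕ) : Bool := Nat.testBit g.M (32 * a + b)

/-- type -/
def ty (g : St) (a : ℕ) : Bool := Nat.testBit g.T a

/-- number of `i < k` with `f i` -/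
def cnt (f : ℕ → Bool) : ℕ → ℕ
  | 0 => 0
  | k + 1 => bif f k then cnt f k + 1 else cnt f k

/-- some `i < k` with `f i` -/
def ex (f : ℕ → Bool) : ℕ → Bool
  | 0 => false
  | k + 1 => f k || ex f k

/-- all `i < k` satisfy `f i` -/
def al (f : ℕ → Bool) : ℕ → Bool
  | 0 => true
  | k + 1 => f k && al f k

/-- known degree -/
def dg (g : St) (a : ℕ) : ℕ := cnt (g.ad a) g.n

/-- adding the edge `a b` would create a 4-cycle -/
def c4 (g : St) (a b : ℕ) : Bool :=
  ex (fun z => g.ad a z && ex (fun w => g.ad z w && (g.ad w b && (!(Nat.beq w a) && !(Nat.beq z b)))) g.n) g.n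

/-- the edge `a b` can be added -/
def ok (g : St) (a b : ℕ) : Bool :=
  (g.ty a ^^ g.ty b) && (Nat.blt (g.dg a) 3 && (Nat.blt (g.dg b) 3 && !g.c4 a b))

/-- set the bits of the edge `a b` -/
def setE (M a b : ℕ) : ℕ := M ||| (1 <<< (32 * a + b)) ||| (1 <<< (32 * b + a))

/-- add an edge -/
def add (g : St) (a b : ℕ) : St := ⟨setE g.M a b, g.T, g.n⟩

/-- add a new vertex adjacent to `a` -/
def new (g : St) (a : ℕ) : St :=
  ⟨setE g.M a g.n, bif g.ty a then g.T else g.T ||| (1 <<< g.n), g.n + 1⟩

/-- membership in a list of numbers -/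
def mem (w : ℕ) : List ℕ → Bool
  | [] => false
  | e :: l => Nat.beq w e || mem w l

/-- possible next vertices after `c`, avoiding `l` : existing ones below `k` -/
def old (g : St) (c : ℕ) (l : List ℕ) : ℕ → List (St × ℕ)
  | 0 => []
  | k + 1 => bif mem k l then old g c l k
      else bif g.ad c k then (g, k) :: old g c l k
      else bif g.ok c k then (g.add c k, k) :: old g c l k else old g c l k

/-- possible next vertices after `c`, avoiding `l` -/
def cands (g : St) (c : ℕ) (l : List ℕ) : List (St × ℕ) :=
  bif Nat.blt (g.dg c) 3 then (g.new c, g.n) :: old g c l g.n else old g c l g.n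

/-- flatMap -/
def bindL {α β : Type} (f : α → List β) : List α → List β
  | [] => []
  | a :: l => f a ++ bindL f l

/-- all extensions of `g` by a walk from `p` to `q` with inner vertices avoiding the given lists -/
def walk (p q : ℕ) (g : St) : List (List ℕ) → List St
  | [] => bif g.ad p q then [g] else bif g.ok p q then [g.add p q] else []
  | l :: ls => bindL (fun s => walk s.2 q s.1 ls) (cands g p l)

/-- the known neighbours of `v` below `k` -/
def nbL (g : St) (v : ℕ) : ℕ → List ℕ
  | 0 => []
  | k + 1 => bif g.ad v k then k :: nbL g v k else nbL g v k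

end St

/-- operations -/
inductive Op
  | E (v : ℕ)
  | H (a v b : ℕ)
  | D (h0 h1 h2 h3 h4 h5 : ℕ)

open St

/-- precondition of an operation -/
def Op.pre (g : St) : Op → Bool
  | E v => Nat.blt v g.n && Nat.blt (g.dg v) 3
  | H a v b => Nat.blt v g.n && (Nat.blt a g.n && (Nat.blt b g.n && (g.ad v a && (g.ad v b && !(Nat.beq a b)))))
  | D h0 h1 h2 h3 h4 h5 =>
      (Nat.blt h0 g.n && (Nat.blt h1 g.n && (Nat.blt h2 g.n && (Nat.blt h3 g.n && (Nat.blt h4 g.n && Nat.blt h5 g.n))))) &&
      ((g.ad h0 h1 && (g.ad h1 h2 && (g.ad h2 h3 && (g.ad h3 h4 && (g.ad h4 h5 && g.ad h5 h0))))) &&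
      (!(Nat.beq h0 h2) && (!(Nat.beq h0 h4) && (!(Nat.beq h2 h4) &&
        (!(Nat.beq h1 h3) && (!(Nat.beq h1 h5) && !(Nat.beq h3 h5)))))))

/-- the children of a partial graph for an operation -/
def Op.ch (g : St) : Op → List St
  | E v => (cands g v (nbL g v g.n)).map Prod.fst
  | H a v b => walk a b g [[v], [a, b], [v]]
  | D h0 h1 h2 h3 h4 h5 =>
      walk h1 h5 g [[h0, h2], [], [h0, h4]] ++ (walk h2 h4 g [[h1, h3], [], [h3, h5]] ++
      (walk h1 h4 g [[h0, h2], [h3, h5]] ++ walk h5 h2 g [[h4, h0], [h1, h3]]))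

/-- A node of the certificate: the graph (number of vertices, types, list of edges), the
operation, and for each child either `none` (closed graph) or the position of a refuted graph
among the later nodes together with an embedding. -/
structure Node where
  n : ℕ
  T : ℕ
  E : List (ℕ × ℕ)
  op : Op
  lf : List (Option (ℕ × List ℕ))

/-- the graph of a node -/
def Node.st (nd : Node) : St := ⟨nd.E.foldl (fun M e => setE M e.1 e.2) 0, nd.T, nd.n⟩

/-- list access -/
def get {α : Type} : List α → ℕ → Option α
  | [], _ => none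
  | a :: _, 0 => some a
  | _ :: l, k + 1 => get l k

/-- list access with default 31 -/
def at' : List ℕ → ℕ → ℕ
  | [], _ => 31
  | a :: _, 0 => a
  | _ :: l, k + 1 => at' l k

/-- no repetitions -/
def nodup : List ℕ → Bool
  | [] => true
  | a :: l => !(mem a l) && nodup l

/-- check that the graph of `t` embeds into `s` via `m` -/
def embOk (t : Node) (s : St) (m : List ℕ) : Bool :=
  Nat.ble t.n 31 && Nat.blt t.T (2 ^ t.n) && Nat.beq m.length t.n && (nodup m && (m.all (fun x => Nat.blt x s.n) &&
    (t.E.all (fun e => Nat.blt e.1 t.n && (Nat.blt e.2 t.n && s.ad (at' m e.1) (at' m e.2))) &&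
      (al (fun a => !(Nat.testBit t.T a ^^ s.ty (at' m a))) t.n ||
        al (fun a => (Nat.testBit t.T a ^^ s.ty (at' m a))) t.n))))

/-- check a leaf -/
def leafOk (rest : List Node) (s : St) : Option (ℕ × List ℕ) → Bool
  | none => Nat.ble s.n 20 && (Nat.blt 0 s.n && al (fun a => Nat.ble 3 (s.dg a)) s.n)
  | some (j, m) => match get rest j with
    | none => false
    | some t => embOk t s m

/-- check all leaves -/
def leavesOk (rest : List Node) : List St → List (Option (ℕ × List ℕ)) → Bool
  | [], _ => true
  | _ :: _, [] => false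
  | s :: ss, l :: ls => leafOk rest s l && leavesOk rest ss ls

/-- check a node -/
def nodeOk (rest : List Node) (nd : Node) : Bool :=
  Nat.blt nd.n 28 && (nd.op.pre nd.st && leavesOk rest (nd.op.ch nd.st) nd.lf)

/-- check a certificate -/
def certOk : List Node → Bool
  | [] => true
  | nd :: rest => nodeOk rest nd && certOk rest

end Pool.Agent.Levi3.Loc
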