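import Pool.Agent.Levi3.LocCheck

namespace Pool.Agent.Levi3.Loc

open Op

/-- the certificate -/
def cert : List Node := [
  ⟨3, 6, [(0, 1), (0, 2)], H 1 0 2, [some (0, [0, 1, 2, 3, 4, 5])]⟩,
  ⟨6, 22, [(0, 1), (0, 2), (1, 3), (2, 5), (3, 4), (4, 5)], D 0 1 3 4 5 2, [some (1, [0, 1, 2, 3, 4, 5, 6, 7, 8]), some (1, [4, 3, 5, 1, 0, 2, 6, 7, 8]), some (0, [0, 1, 2, 3, 4, 5, 6, 7]), some (0, [0, 2, 1, 5, 4, 3, 6, 7])]⟩,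
  ⟨8, 150, [(0, 1), (0, 2), (1, 3), (1, 6), (2, 5), (3, 4), (4, 5), (5, 7), (6, 7)], D 1 3 4 5 2 0, [some (1, [1, 0, 3, 2, 5, 4, 10, 9, 8, 6, 7]), some (1, [5, 4, 2, 3, 1, 0, 8, 9, 10, 7, 6]), some (4, [0, 1, 2, 3, 8, 9, 6, 7, 5, 4]), some (4, [2, 0, 5, 1, 6, 7, 8, 9, 4, 3])]⟩,
  ⟨9, 150, [(0, 1), (0, 2), (1, 3), (1, 6), (2, 5), (2, 8), (3, 4), (4, 5), (6, 7), (7, 8)], D 1 3 4 5 2 0, [some (14, [0, 1, 2, 3, 4, 5, 6, 7, 8, 9, 10, 11]), some (11, [0, 1, 2, 3, 4, 5, 6, 7, 8, 9, 10]), some (5, [0, 1, 2, 3, 4, 5, 6, 7, 8, 9]), some (3, [0, 1, 2, 3, 4, 5, 6, 7, 8, 9]), some (0, [0, 1, 2, 3, 4, 5, 6, 7, 8, 9, 10])]⟩,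
  ⟨11, 662, [(0, 1), (0, 2), (0, 9), (1, 3), (1, 6), (2, 5), (2, 8), (3, 4), (4, 5), (4, 10), (6, 7), (7, 8), (9, 10)], D 1 6 7 8 2 0, [some (13, [0, 1, 2, 6, 7, 8, 3, 4, 5, 11, 12, 9]), some (13, [0, 1, 2, 6, 7, 8, 3, 4, 5, 11, 10, 9]), some (10, [0, 1, 2, 6, 7, 8, 3, 4, 5, 11, 12]), some (6, [0, 1, 2, 3, 4, 5, 6, 7, 8, 10, 9]), some (3, [0, 2, 1, 5, 4, 3, 8, 7, 6, 11, 10, 9]), some (0, [0, 1, 2, 3, 4, 5, 6, 7, 8, 9, 10, 11]), some (6, [0, 1, 2, 3, 4, 5, 6, 7, 8, 10, 9])]⟩,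
  ⟨12, 662, [(0, 1), (0, 2), (0, 9), (1, 3), (1, 6), (2, 5), (2, 8), (3, 4), (4, 5), (4, 10), (6, 7), (7, 8), (7, 11), (9, 10), (9, 11)], H 3 1 6, [some (0, [0, 1, 2, 3, 4, 5, 6, 7, 8, 9, 10, 11, 12, 13, 14]), some (18, [0, 1, 2, 3, 4, 5, 6, 7, 8, 12, 11, 9, 10]), some (18, [0, 1, 9, 3, 4, 10, 6, 7, 11, 12, 8, 2, 5]), some (18, [0, 1, 2, 6, 7, 8, 3, 4, 5, 12, 10, 9, 11]), some (18, [0, 1, 9, 6, 7, 11, 3, 4, 10, 12, 5, 2, 8])]⟩,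
  ⟨15, 21142, [(0, 1), (0, 2), (0, 9), (1, 3), (1, 6), (2, 5), (2, 8), (3, 4), (3, 12), (4, 5), (4, 10), (6, 7), (6, 14), (7, 8), (7, 11), (9, 10), (9, 11), (12, 13), (13, 14)], D 3 12 13 14 6 1, [some (18, [0, 1, 2, 3, 4, 5, 6, 7, 8, 12, 11, 9, 10, 14, 13]), some (18, [0, 1, 9, 3, 4, 10, 6, 7, 11, 12, 8, 2, 5, 14, 13]), some (8, [7, 11, 6, 15, 13, 14, 9, 0, 1, 12, 3]), some (8, [7, 8, 6, 15, 13, 14, 2, 0, 1, 12, 3]), some (18, [0, 1, 2, 3, 4, 5, 6, 7, 8, 12, 11, 9, 10, 14, 13]), some (18, [0, 1, 9, 3, 4, 10, 6, 7, 11, 12, 8, 2, 5, 14, 13])]⟩,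
  ⟨10, 662, [(0, 1), (0, 2), (1, 3), (1, 6), (2, 5), (2, 8), (3, 4), (3, 9), (4, 5), (6, 7), (7, 8), (8, 9)], D 3 4 5 2 0 1, [some (10, [1, 3, 6, 4, 10, 11, 9, 8, 7, 5, 2, 0]), some (3, [3, 1, 4, 0, 2, 5, 6, 7, 10, 8, 9]), some (11, [2, 0, 5, 1, 3, 4, 12, 11, 10, 6, 7, 8, 9]), some (0, [0, 1, 2, 3, 4, 5, 6, 7, 8, 9, 10, 11]), some (3, [1, 3, 6, 4, 5, 10, 9, 8, 7, 2, 0])]⟩,
  ⟨12, 2710, [(0, 1), (0, 2), (0, 11), (1, 3), (1, 6), (2, 5), (2, 8), (3, 4), (3, 9), (4, 5), (4, 10), (6, 7), (7, 8), (8, 9), (10, 11)], D 0 2 5 4 10 11, [some (34, [0, 2, 11, 8, 9, 12, 5, 4, 10, 7, 6, 1, 3]), some (15, [0, 1, 11, 3, 4, 10, 6, 7, 12, 9, 8, 2, 5]), some (10, [4, 5, 10, 2, 0, 11, 12, 13, 14, 8, 9, 3, 1]), some (37, [1, 0, 3, 2, 8, 9, 11, 10, 4, 5, 12, 6, 7]), some (4, [0, 1, 2, 3, 4, 5, 6, 7, 8, 10, 11, 9]),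 some (10, [0, 2, 1, 5, 4, 3, 8, 7, 6, 13, 12, 11, 10])]⟩,
  ⟨10, 150, [(0, 1), (0, 2), (1, 3), (1, 6), (2, 5), (2, 8), (3, 4), (4, 5), (4, 9), (6, 7), (7, 8), (7, 9)], E 0, [some (0, [0, 1, 2, 3, 4, 5, 6, 7, 8, 9, 10])]⟩,
  ⟨11, 1174, [(0, 1), (0, 2), (0, 10), (1, 3), (1, 6), (2, 5), (2, 8), (3, 4), (4, 5), (4, 9), (6, 7), (7, 8), (7, 9)], H 1 0 10, [some (27, [0, 1, 2, 6, 7, 8, 3, 4, 5, 11, 12, 10, 9]), some (0, [0, 1, 2, 3, 4, 5, 6, 7, 8, 9, 10]), some (27, [0, 1, 2, 3, 4, 5, 6, 7, 8, 11, 12, 10, 9]), some (0, [0, 1, 2, 3, 4, 5, 6, 7, 8, 9, 10])]⟩,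
  ⟨11, 1174, [(0, 1), (0, 2), (0, 10), (1, 3), (1, 6), (2, 5), (2, 8), (3, 4), (4, 5), (4, 9), (6, 7), (7, 8), (7, 9), (9, 10)], E 3, [some (0, [0, 1, 2, 3, 4, 5, 6, 7, 8, 9, 10, 11])]⟩,
  ⟨12, 3222, [(0, 1), (0, 2), (0, 10), (1, 3), (1, 6), (2, 5), (2, 8), (3, 4), (3, 11), (4, 5), (4, 9), (6, 7), (7, 8), (7, 9), (9, 10)], H 1 3 11, [some (25, [3, 1, 4, 6, 7, 9, 0, 2, 5, 12, 13, 11, 8]), some (0, [0, 1, 2, 3, 4, 5, 6, 7, 8, 9, 10, 11]), some (30, [0, 1, 2, 3, 4, 5, 6, 7, 8, 11, 12, 10, 9]), some (0, [0, 1, 2, 3, 4, 5, 6, 7, 8, 9, 10, 11])]⟩,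
  ⟨12, 3222, [(0, 1), (0, 2), (0, 10), (1, 3), (1, 6), (2, 5), (2, 8), (3, 4), (3, 11), (4, 5), (4, 9), (6, 7), (7, 8), (7, 9), (8, 11), (9, 10)], E 5, [some (0, [0, 1, 2, 3, 4, 5, 6, 7, 8, 9, 10, 11, 12])]⟩,
  ⟨13, 7318, [(0, 1), (0, 2), (0, 10), (1, 3), (1, 6), (2, 5), (2, 8), (3, 4), (3, 11), (4, 5), (4, 9), (5, 12), (6, 7), (7, 8), (7, 9), (8, 11), (9, 10)], H 4 5 12, [some (28, [0, 2, 1, 5, 4, 3, 8, 7, 6, 12, 13, 10, 9]), some (31, [1, 0, 3, 2, 8, 11, 10, 9, 4, 5, 12, 6, 7]), some (28, [2, 8, 0, 11, 3, 1, 7, 9, 10, 13, 12, 5, 4]), some (31, [1, 0, 3, 2, 8, 11, 10, 9, 4, 5, 12, 6, 7])]⟩,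
  ⟨11, 1174, [(0, 1), (0, 2), (1, 3), (1, 6), (2, 5), (2, 8), (3, 4), (4, 5), (4, 9), (6, 7), (7, 8), (8, 10), (9, 10)], D 3 4 5 2 0 1, [some (0, [0, 1, 2, 3, 4, 5, 6, 7, 8, 9, 10, 11]), some (45, [0, 2, 1, 5, 4, 3, 8, 7, 6, 11, 12, 13, 9, 10]), some (2, [0, 2, 1, 8, 7, 6, 5, 4, 3, 10, 9, 11]), some (2, [2, 5, 8, 4, 9, 10, 11, 6, 7, 3, 1, 0])]⟩,
  ⟨12, 3222, [(0, 1), (0, 2), (1, 3), (1, 6), (2, 5), (2, 8), (3, 4), (4, 5), (4, 9), (6, 7), (6, 11), (7, 8), (8, 10), (9, 10), (9, 11)], D 1 6 7 8 2 0, [some (1, [0, 1, 2, 6, 7, 8, 3, 4, 5, 11, 12, 13]), some (1, [2, 5, 8, 4, 9, 10, 13, 12, 7, 3, 1, 0]), some (0, [0, 1, 2, 3, 4, 5, 6, 7, 8, 9, 10, 11, 12, 13])]⟩,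
  ⟨14, 7318, [(0, 1), (0, 2), (0, 12), (1, 3), (1, 6), (2, 5), (2, 8), (3, 4), (4, 5), (4, 9), (6, 7), (6, 11), (7, 8), (7, 13), (8, 10), (9, 10), (9, 11), (12, 13)], D 0 1 6 7 13 12, [some (44, [0, 1, 2, 3, 4, 5, 6, 7, 8, 14, 15, 12, 9, 11, 13]), some (44, [7, 6, 8, 11, 9, 10, 1, 0, 2, 14, 15, 13, 4, 3, 12]), some (61, [3, 1, 4, 0, 2, 5, 6, 11, 9, 12, 13, 14, 8, 7]), some (61, [11, 6, 9, 7, 8, 10, 1, 3, 4, 13, 12, 14, 2, 0])]⟩,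
  ⟨12, 2710, [(0, 1), (0, 2), (0, 11), (1, 3), (1, 6), (2, 5), (2, 8), (3, 4), (3, 9), (4, 5), (6, 7), (7, 8), (9, 10), (10, 11)], D 3 4 5 2 0 1, [some (42, [0, 1, 2, 3, 4, 5, 6, 7, 8, 9, 10, 11, 12, 13]), some (19, [0, 1, 2, 3, 4, 5, 6, 7, 8, 9, 10, 11, 12]), some (42, [1, 0, 3, 2, 5, 4, 11, 10, 9, 8, 7, 6, 12, 13]), some (19, [1, 0, 3, 2, 5, 4, 11, 10, 9, 8, 7, 6, 12]), some (0, [0, 1, 2, 3, 4, 5, 6, 7, 8, 9, 10, 11, 12]), some (0, [1, 0, 3, 2, 5, 4, 11, 10, 9, 8, 7, 6, 12])]⟩,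
  ⟨13, 2710, [(0, 1), (0, 2), (0, 11), (1, 3), (1, 6), (2, 5), (2, 8), (3, 4), (3, 9), (4, 5), (4, 12), (6, 7), (7, 8), (9, 10), (10, 11), (11, 12)], D 0 2 5 4 12 11, [some (59, [2, 0, 8, 11, 10, 13, 1, 6, 7, 12, 4, 5, 9, 3]), some (23, [0, 2, 11, 8, 9, 10, 5, 4, 12, 7, 6, 1, 3]), some (4, [0, 1, 2, 3, 4, 5, 6, 7, 8, 9, 10, 11, 12]), some (1, [0, 1, 2, 3, 4, 5, 6, 7, 8, 9, 10, 11, 12, 13, 14, 15]), some (23, [0, 1, 2, 3, 4, 5, 6, 7, 8, 9, 10, 11, 12]), some (0, [0, 1, 2, 3, 4, 5, 6, 7, 8, 9, 10, 11, 12, 13]), some (23, [0, 1, 2, 3, 4, 5, 6, 7, 8, 9, 10, 11, 12]), some (18, [1, 0, 3, 2, 5, 4, 11, 10, 9, 8, 7, 6, 13])]⟩,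
  ⟨14, 10902, [(0, 1), (0, 2), (0, 11), (1, 3), (1, 6), (2, 5), (2, 8), (3, 4), (3, 9), (4, 5), (4, 12), (6, 7), (7, 8), (8, 13), (9, 10), (10, 11), (11, 12), (12, 13)], D 1 6 7 8 2 0, [some (59, [1, 0, 6, 2, 8, 7, 11, 10, 14, 5, 4, 3, 13, 12, 9]), some (58, [8, 2, 7, 0, 1, 6, 5, 15, 14, 11, 12, 13, 3, 4]), some (4, [2, 0, 8, 1, 6, 7, 11, 12, 13, 3, 4, 5, 14, 10, 9]), some (11, [0, 11, 1, 12, 4, 3, 10, 7, 6, 13, 8, 2, 5, 9])]⟩,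
  ⟨16, 43670, [(0, 1), (0, 2), (0, 11), (1, 3), (1, 6), (2, 5), (2, 8), (3, 4), (3, 9), (4, 5), (4, 12), (5, 13), (6, 7), (7, 8), (9, 10), (10, 11), (11, 12), (12, 15), (13, 14), (14, 15)], D 6 7 8 2 0 1, [some (1, [0, 1, 2, 3, 4, 5, 6, 7, 8, 9, 10, 11, 12, 13, 14, 15, 16]), some (2, [0, 1, 2, 3, 4, 5, 6, 7, 8, 9, 10, 11, 12]), some (57, [2, 0, 8, 11, 10, 16, 1, 6, 7, 12, 4, 5, 9, 3]), some (0, [0, 1, 2, 3, 4, 5, 6, 7, 8, 9, 10, 11, 12, 13, 14, 15]), some (21, [0, 2, 11, 8, 9, 10, 5, 4, 12, 7, 6, 1, 3]), some (2, [0, 1, 2, 3, 4, 5, 6, 7, 8, 9, 10, 11, 12]), some (21, [0, 2, 11, 8, 9, 10, 5, 4, 12, 7, 6, 1, 3])]⟩,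
  ⟨16, 43670, [(0, 1), (0, 2), (0, 11), (1, 3), (1, 6), (2, 5), (2, 8), (3, 4), (3, 9), (4, 5), (4, 12), (5, 13), (6, 7), (7, 8), (8, 15), (9, 10), (10, 11), (11, 12), (12, 15), (13, 14), (14, 15)], D 1 6 7 8 2 0, [some (57, [1, 0, 6, 2, 8, 7, 11, 10, 16, 5, 4, 3, 15, 12, 9]), some (57, [8, 2, 7, 0, 1, 6, 5, 13, 16, 11, 12, 15, 3, 4, 14]), some (10, [2, 5, 0, 13, 6, 1, 4, 12, 11, 14, 15, 8, 7, 3, 10, 9]), some (10, [0, 11, 2, 10, 7, 8, 12, 4, 5, 9, 3, 1, 6, 15, 13, 14])]⟩,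
  ⟨17, 43670, [(0, 1), (0, 2), (0, 11), (1, 3), (1, 6), (2, 5), (2, 8), (3, 4), (3, 9), (4, 5), (4, 12), (5, 13), (6, 7), (7, 8), (7, 16), (9, 10), (9, 16), (10, 11), (11, 12), (12, 15), (13, 14), (14, 15)], D 1 6 7 8 2 0, [some (59, [0, 1, 2, 6, 7, 8, 3, 4, 5, 17, 10, 11, 16, 9, 12, 13, 14, 15]), some (97, [0, 1, 2, 6, 7, 8, 3, 4, 5, 15, 12, 11, 16, 9, 10, 13, 14]), some (55, [5, 4, 13, 3, 9, 16, 12, 15, 14, 1, 0, 2, 10, 11]), some (56, [3, 1, 9, 6, 7, 16, 0, 11, 10, 13, 5, 4, 8, 2, 12])]⟩,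
  ⟨13, 2710, [(0, 1), (0, 2), (0, 11), (1, 3), (1, 6), (2, 5), (2, 8), (3, 4), (3, 9), (4, 5), (4, 12), (6, 7), (7, 8), (7, 10), (9, 10), (10, 11), (11, 12)], D 1 3 9 10 7 6, [some (87, [0, 1, 2, 3, 4, 5, 6, 7, 8, 9, 10, 11, 12, 13]), some (7, [0, 1, 2, 3, 4, 5, 6, 7, 8, 9, 10, 11, 12, 13]), some (5, [0, 1, 2, 3, 4, 5, 6, 7, 8, 9, 10, 11, 12, 13, 14]), some (0, [0, 1, 2, 3, 4, 5, 6, 7, 8, 9, 10, 11, 12, 13, 14])]⟩,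
  ⟨15, 10902, [(0, 1), (0, 2), (0, 11), (1, 3), (1, 6), (2, 5), (2, 8), (3, 4), (3, 9), (4, 5), (4, 12), (6, 7), (6, 13), (7, 8), (7, 10), (9, 10), (9, 14), (10, 11), (11, 12), (13, 14)], D 9 14 13 6 1 3, [some (0, [0, 1, 2, 3, 4, 5, 6, 7, 8, 9, 10, 11, 12, 13, 14, 15]), some (54, [9, 3, 14, 4, 5, 15, 1, 6, 13, 12, 11, 10, 2, 0, 7]), some (86, [0, 1, 2, 3, 4, 5, 6, 7, 8, 9, 10, 11, 12, 13]), some (8, [1, 0, 3, 2, 5, 4, 11, 10, 9, 8, 7, 6, 13, 12, 14]), some (86, [0, 1, 2, 3, 4, 5, 6, 7, 8, 9, 10, 11, 12, 13]), some (8, [1, 0, 3, 2, 5, 4, 11, 10, 9, 8, 7, 6, 13, 12, 14])]⟩,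
  ⟨16, 43670, [(0, 1), (0, 2), (0, 11), (1, 3), (1, 6), (2, 5), (2, 8), (3, 4), (3, 9), (4, 5), (4, 12), (6, 7), (6, 13), (7, 8), (7, 10), (9, 10), (9, 14), (10, 11), (11, 12), (12, 15), (13, 14), (14, 15)], H 5 2 8, [some (0, [0, 1, 2, 3, 4, 5, 6, 7, 8, 9, 10, 11, 12, 13, 14, 15, 16, 17, 18]), none, some (9, [1, 0, 6, 11, 10, 7, 2, 5, 13, 12, 4, 3, 9, 8, 14, 15]), some (9, [10, 9, 7, 3, 1, 6, 14, 15, 8, 4, 12, 11, 0, 13, 2, 5])]⟩,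
  ⟨19, 371350, [(0, 1), (0, 2), (0, 11), (1, 3), (1, 6), (2, 5), (2, 8), (3, 4), (3, 9), (4, 5), (4, 12), (5, 16), (6, 7), (6, 13), (7, 8), (7, 10), (8, 18), (9, 10), (9, 14), (10, 11), (11, 12), (12, 15), (13, 14), (14, 15), (16, 17), (17, 18)], D 2 5 16 17 18 8, [some (0, [0, 1, 2, 3, 4, 5, 6, 7, 8, 9, 10, 11, 12, 13, 14, 15, 16, 17, 18, 19, 20, 21])]⟩,
  ⟨22, 1419926, [(0, 1), (0, 2), (0, 11), (1, 3), (1, 6), (2, 5), (2, 8), (3, 4), (3, 9), (4, 5), (4, 12), (5, 16), (6, 7), (6, 13), (7, 8), (7, 10), (8, 18), (9, 10), (9, 14), (10, 11), (11, 12), (12, 15), (13, 14), (14, 15), (16, 17), (16, 19), (17, 18), (18, 21), (19, 20), (20, 21)], D 5 16 17 18 8 2, [some (0, [0, 1, 2, 3, 4, 5, 6, 7, 8, 9, 10, 11, 12, 13, 14, 15, 16, 17, 18, 19, 20, 21])]⟩,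
  ⟨22, 1419926, [(0, 1), (0, 2), (0, 11), (1, 3), (1, 6), (2, 5), (2, 8), (3, 4), (3, 9), (4, 5), (4, 12), (5, 16), (6, 7), (6, 13), (7, 8), (7, 10), (8, 18), (9, 10), (9, 14), (10, 11), (11, 12), (12, 15), (13, 14), (13, 17), (14, 15), (16, 17), (16, 19), (17, 18), (18, 21), (19, 20), (20, 21)], D 16 17 18 8 2 5, []⟩,
  ⟨15, 19094, [(0, 1), (0, 2), (0, 11), (1, 3), (1, 6), (2, 5), (2, 8), (3, 4), (3, 9), (4, 5), (4, 12), (6, 7), (7, 8), (7, 10), (8, 14), (9, 10), (9, 13), (10, 11), (11, 12), (13, 14)], D 8 14 13 9 10 7, [some (48, [8, 7, 14, 10, 9, 13, 6, 16, 15, 11, 0, 2, 3, 1]), some (49, [9, 10, 13, 7, 8, 14, 11, 12, 15, 6, 1, 3, 2, 0, 4]), some (3, [11, 10, 0, 9, 3, 1, 7, 8, 2, 13, 14, 12, 4, 6, 5]), some (0, [0, 1, 2, 3, 4, 5, 6, 7, 8, 9, 10, 11, 12, 13, 14, 15])]⟩,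
  ⟨16, 51862, [(0, 1), (0, 2), (0, 11), (1, 3), (1, 6), (2, 5), (2, 8), (3, 4), (3, 9), (4, 5), (4, 12), (6, 7), (6, 15), (7, 8), (7, 10), (8, 14), (9, 10), (9, 13), (10, 11), (11, 12), (13, 14), (13, 15)], D 9 13 15 6 1 3, [some (4, [10, 9, 7, 3, 1, 6, 13, 14, 8, 4, 12, 11, 0, 15, 2, 5]), some (80, [0, 1, 2, 3, 4, 5, 6, 7, 8, 9, 10, 11, 12, 15]), some (4, [1, 0, 3, 2, 5, 4, 11, 10, 9, 8, 7, 6, 15, 12, 13, 14]), some (80, [0, 1, 2, 3, 4, 5, 6, 7, 8, 9, 10, 11, 12, 15]), some (4, [1, 0, 3, 2, 5, 4, 11, 10, 9, 8, 7, 6, 15, 12, 13, 14])]⟩,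
  ⟨14, 10902, [(0, 1), (0, 2), (0, 11), (1, 3), (1, 6), (2, 5), (2, 8), (3, 4), (3, 9), (4, 5), (4, 12), (5, 13), (6, 7), (6, 13), (7, 8), (7, 10), (9, 10), (10, 11), (11, 12)], D 2 5 13 6 7 8, [some (1, [0, 1, 2, 3, 4, 5, 6, 7, 8, 9, 10, 11, 12, 13, 14]), some (1, [1, 0, 3, 2, 5, 4, 11, 10, 9, 8, 7, 6, 13, 12, 14]), some (0, [0, 1, 2, 3, 4, 5, 6, 7, 8, 9, 10, 11, 12, 13, 14, 15])]⟩,
  ⟨16, 27286, [(0, 1), (0, 2), (0, 11), (1, 3), (1, 6), (2, 5), (2, 8), (3, 4), (3, 9), (4, 5), (4, 12), (5, 13), (6, 7), (6, 13), (7, 8), (7, 10), (8, 14), (9, 10), (10, 11), (11, 12), (13, 15), (14, 15)], D 13 15 14 8 2 5, [some (46, [13, 5, 15, 4, 12, 16, 2, 8, 14, 3, 1, 6, 11, 0, 7]), some (2, [1, 0, 3, 2, 5, 4, 11, 10, 9, 8, 7, 6, 13, 12, 15, 14]), some (2, [0, 1, 11, 6, 7, 10, 3, 4, 12, 13, 5, 2, 8, 9, 14,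 15]), some (2, [0, 1, 11, 6, 7, 10, 3, 4, 12, 13, 5, 2, 8, 9, 14, 15])]⟩,
  ⟨15, 27286, [(0, 1), (0, 2), (0, 11), (1, 3), (1, 6), (2, 5), (2, 8), (3, 4), (3, 9), (4, 5), (4, 12), (5, 13), (6, 7), (6, 13), (7, 8), (7, 10), (8, 14), (9, 10), (10, 11), (11, 12), (12, 14)], E 9, [some (0, [0, 1, 2, 3, 4, 5, 6, 7, 8, 9, 10, 11, 12, 13, 14, 15])]⟩,
  ⟨16, 27286, [(0, 1), (0, 2), (0, 11), (1, 3), (1, 6), (2, 5), (2, 8), (3, 4), (3, 9), (4, 5), (4, 12), (5, 13), (6, 7), (6, 13), (7, 8), (7, 10), (8, 14), (9, 10), (9, 15), (10, 11), (11, 12), (12, 14)], H 3 9 15, [some (0, [0, 1, 2, 3, 4, 5, 6, 7, 8, 9, 10, 11, 12, 13, 14, 15]), some (0, [0, 2, 11, 5, 4, 12, 8, 7, 10, 13, 6, 1, 3, 14, 9, 15]), some (0, [0, 2, 11, 5, 4, 12, 8, 7, 10, 13, 6, 1, 3, 14, 9, 15])]⟩,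
  ⟨16, 27286, [(0, 1), (0, 2), (0, 11), (1, 3), (1, 6), (2, 5), (2, 8), (3, 4), (3, 9), (4, 5), (4, 12), (5, 13), (6, 7), (6, 13), (7, 8), (7, 10), (8, 14), (9, 10), (9, 15), (10, 11), (11, 12), (12, 14), (14, 15)], E 13, [some (0, [0, 1, 2, 3, 4, 5, 6, 7, 8, 9, 10, 11, 12, 13, 14, 15, 16]), none]⟩,
  ⟨17, 27286, [(0, 1), (0, 2), (0, 11), (1, 3), (1, 6), (2, 5), (2, 8), (3, 4), (3, 9), (4, 5), (4, 12), (5, 13), (6, 7), (6, 13), (7, 8), (7, 10), (8, 14), (9, 10), (9, 15), (10, 11), (11, 12), (12, 14), (13, 16), (14, 15)], H 5 13 16, []⟩,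
  ⟨13, 2710, [(0, 1), (0, 2), (0, 11), (1, 3), (1, 6), (2, 5), (2, 8), (3, 4), (3, 9), (4, 5), (4, 12), (6, 7), (7, 8), (7, 12), (9, 10), (10, 11)], D 0 1 3 9 10 11, [some (11, [0, 1, 2, 3, 4, 5, 6, 7, 8, 9, 10, 11, 12, 13, 14]), some (4, [0, 1, 2, 3, 4, 5, 6, 7, 8, 9, 10, 11, 12]), some (3, [0, 1, 2, 3, 4, 5, 6, 7, 8, 9, 10, 11, 12, 13]), some (1, [0, 1, 2, 3, 4, 5, 6, 7, 8, 9, 10, 11, 12, 13]), some (0, [0, 1, 2, 3, 4, 5, 6, 7, 8, 9, 10, 11, 12, 13]), some (4, [0, 1, 2, 3, 4, 5, 6, 7, 8, 9, 10, 11, 12])]⟩,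
  ⟨14, 10902, [(0, 1), (0, 2), (0, 11), (1, 3), (1, 6), (2, 5), (2, 8), (3, 4), (3, 9), (4, 5), (4, 12), (6, 7), (6, 13), (7, 8), (7, 12), (9, 10), (10, 11), (10, 13)], H 2 0 11, [some (22, [1, 0, 6, 2, 8, 7, 11, 10, 13, 5, 4, 3, 14, 15, 9]), some (4, [1, 0, 6, 2, 8, 7, 11, 10, 13, 5, 4, 3, 9, 12]), some (4, [1, 3, 6, 4, 12, 7, 9, 10, 13, 5, 2, 0, 11, 8]), some (22, [1, 0, 3, 2, 5, 4, 11, 10, 9, 8, 7, 6, 14, 15, 13]), some (4, [1, 0, 3, 2, 5, 4, 11, 10, 9, 8, 7, 6, 13, 12]), some (4, [1, 3, 6, 4, 12, 7, 9, 10, 13, 5, 2, 0, 11, 8])]⟩,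
  ⟨14, 10902, [(0, 1), (0, 2), (0, 11), (1, 3), (1, 6), (2, 5), (2, 8), (3, 4), (3, 9), (4, 5), (4, 12), (5, 13), (6, 7), (7, 8), (7, 12), (9, 10), (10, 11), (10, 13)], E 6, [some (0, [0, 1, 2, 3, 4, 5, 6, 7, 8, 9, 10, 11, 12, 13, 14]), some (3, [1, 0, 3, 2, 5, 4, 11, 10, 9, 8, 7, 6, 13, 12])]⟩,
  ⟨15, 27286, [(0, 1), (0, 2), (0, 11), (1, 3), (1, 6), (2, 5), (2, 8), (3, 4), (3, 9), (4, 5), (4, 12), (5, 13), (6, 7), (6, 14), (7, 8), (7, 12), (9, 10), (10, 11), (10, 13)], H 1 6 14, [some (9, [1, 3, 0, 4, 5, 2, 9, 10, 11, 12, 7, 6, 13, 15, 14, 8]), some (9, [0, 1, 2, 3, 4, 5, 6, 7, 8, 9, 10, 11, 12, 14, 15, 13])]⟩,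
  ⟨14, 10902, [(0, 1), (0, 2), (0, 11), (1, 3), (1, 6), (2, 5), (2, 8), (3, 4), (3, 9), (4, 5), (4, 12), (6, 7), (7, 8), (7, 12), (9, 10), (10, 11), (10, 13), (12, 13)], D 3 9 10 11 0 1, [some (73, [1, 3, 0, 9, 10, 11, 4, 5, 2, 14, 15, 6, 13, 12, 7]), some (69, [9, 3, 10, 1, 0, 11, 4, 12, 13, 6, 7, 8, 2, 5]), some (69, [9, 3, 10, 1, 0, 11, 4, 12, 13, 6, 7, 8, 2, 5])]⟩,
  ⟨13, 2710, [(0, 1), (0, 2), (0, 11), (1, 3), (1, 6), (2, 5), (2, 8), (3, 4), (3, 9), (4, 5), (4, 12), (6, 7), (7, 8), (7, 12), (9, 10), (10, 11), (11, 12)], D 3 9 10 11 0 1, [some (67, [1, 3, 6, 4, 12, 7, 9, 13, 14, 5, 2, 0, 11, 10]), some (2, [0, 1, 2, 3, 4, 5, 6, 7, 8, 9, 10, 11, 12]), some (68, [11, 0, 10, 1, 3, 9, 2, 8, 13, 6, 7, 12, 4, 5]), some (0, [0, 1, 2, 3, 4, 5, 6, 7, 8, 9, 10, 11, 12, 13]), some (2, [0, 1, 2, 3,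 4, 5, 6, 7, 8, 9, 10, 11, 12]), some (0, [1, 3, 6, 4, 12, 7, 9, 10, 13, 5, 2, 0, 11, 8])]⟩,
  ⟨14, 10902, [(0, 1), (0, 2), (0, 11), (1, 3), (1, 6), (2, 5), (2, 8), (3, 4), (3, 9), (4, 5), (4, 12), (5, 13), (6, 7), (7, 8), (7, 12), (9, 10), (10, 11), (10, 13), (11, 12)], E 6, [some (0, [0, 1, 2, 3, 4, 5, 6, 7, 8, 9, 10, 11, 12, 13, 14]), some (3, [0, 2, 1, 5, 4, 3, 8, 7, 6, 13, 10, 11, 12, 9])]⟩,
  ⟨15, 27286, [(0, 1), (0, 2), (0, 11), (1, 3), (1, 6), (2, 5), (2, 8), (3, 4), (3, 9), (4, 5), (4, 12), (5, 13), (6, 7), (6, 14), (7, 8), (7, 12), (9, 10), (10, 11), (10, 13), (11, 12)], H 1 6 14, [some (65, [1, 3, 6, 4, 12, 7, 9, 15, 14, 5, 2, 0, 11, 10])]⟩,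
  ⟨13, 2710, [(0, 1), (0, 2), (0, 11), (1, 3), (1, 6), (2, 5), (2, 8), (3, 4), (3, 9), (4, 5), (4, 12), (6, 7), (7, 8), (7, 12), (8, 9), (9, 10), (10, 11), (11, 12)], E 5, [some (0, [0, 1, 2, 3, 4, 5, 6, 7, 8, 9, 10, 11, 12, 13])]⟩,
  ⟨14, 10902, [(0, 1), (0, 2), (0, 11), (1, 3), (1, 6), (2, 5), (2, 8), (3, 4), (3, 9), (4, 5), (4, 12), (5, 13), (6, 7), (7, 8), (7, 12), (8, 9), (9, 10), (10, 11), (11, 12)], H 4 5 13, [some (0, [0, 1, 2, 3, 4, 5, 6, 7, 8, 9, 10, 11, 12, 13]), some (0, [0, 11, 1, 12, 7, 6, 10, 9, 3, 4, 5, 2, 8, 13]), some (0, [0, 1, 2, 3, 4, 5, 6, 7, 8, 9, 10, 11, 12, 13]), some (0, [0, 11, 1, 12, 7, 6, 10, 9, 3, 4, 5, 2, 8, 13])]⟩,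
  ⟨14, 10902, [(0, 1), (0, 2), (0, 11), (1, 3), (1, 6), (2, 5), (2, 8), (3, 4), (3, 9), (4, 5), (4, 12), (5, 13), (6, 7), (7, 8), (7, 12), (8, 9), (9, 10), (10, 11), (10, 13), (11, 12)], E 6, [some (0, [0, 1, 2, 3, 4, 5, 6, 7, 8, 9, 10, 11, 12, 13, 14]), none]⟩,
  ⟨15, 27286, [(0, 1), (0, 2), (0, 11), (1, 3), (1, 6), (2, 5), (2, 8), (3, 4), (3, 9), (4, 5), (4, 12), (5, 13), (6, 7), (6, 14), (7, 8), (7, 12), (8, 9), (9, 10), (10, 11), (10, 13), (11, 12)], H 1 6 14, []⟩,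
  ⟨15, 10902, [(0, 1), (0, 2), (0, 11), (1, 3), (1, 6), (2, 5), (2, 8), (3, 4), (3, 9), (4, 5), (4, 12), (6, 7), (6, 13), (7, 8), (7, 12), (9, 10), (10, 11), (11, 14), (13, 14)], D 3 9 10 11 0 1, [some (1, [0, 1, 2, 3, 4, 5, 6, 7, 8, 9, 10, 11, 12, 13, 14, 15]), some (60, [0, 1, 11, 3, 9, 10, 6, 13, 14, 4, 5, 2, 8, 7]), some (65, [1, 0, 3, 11, 10, 9, 2, 5, 4, 14, 13, 6, 15, 8, 7]), some (0, [0, 1, 2, 3, 4, 5, 6, 7, 8, 9, 10, 11, 12, 13, 14, 15]), some (60, [0, 1, 11, 3, 9, 10, 6, 13, 14, 4, 5, 2, 8, 7])]⟩,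
  ⟨16, 43670, [(0, 1), (0, 2), (0, 11), (1, 3), (1, 6), (2, 5), (2, 8), (3, 4), (3, 9), (4, 5), (4, 12), (5, 15), (6, 7), (6, 13), (7, 8), (7, 12), (9, 10), (10, 11), (10, 15), (11, 14), (13, 14)], D 6 13 14 11 0 1, [some (1, [0, 1, 2, 6, 7, 8, 3, 4, 5, 13, 14, 11, 12, 9, 10, 16, 15]), some (1, [1, 0, 3, 11, 10, 9, 2, 5, 4, 14, 13, 6, 15, 8, 7, 16, 12])]⟩,
  ⟨16, 10902, [(0, 1), (0, 2), (0, 11), (1, 3), (1, 6), (2, 5), (2, 8), (3, 4), (3, 9), (4, 5), (4, 12), (6, 7), (6, 13), (7, 8), (7, 12), (9, 10), (9, 15), (10, 11), (11, 14), (13, 14), (13, 15)], H 2 0 11, [some (0, [0, 1, 2, 3, 4, 5, 6, 7, 8, 9, 10, 11, 12, 13, 14, 15, 16]), some (63, [1, 0, 3, 11, 10, 9, 2, 5, 4, 14, 13, 6, 16, 8, 7]), some (63, [1, 0, 3, 2, 5, 4, 11, 10, 9, 8, 7, 6, 16, 14, 13]), some (0, [0, 1, 2, 6, 7, 8, 3, 4, 5, 13,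 14, 11, 12, 9, 10, 15, 16])]⟩,
  ⟨17, 76438, [(0, 1), (0, 2), (0, 11), (1, 3), (1, 6), (2, 5), (2, 8), (3, 4), (3, 9), (4, 5), (4, 12), (6, 7), (6, 13), (7, 8), (7, 12), (8, 16), (9, 10), (9, 15), (10, 11), (11, 14), (13, 14), (13, 15), (14, 16)], H 4 3 9, [some (0, [0, 1, 2, 3, 4, 5, 6, 7, 8, 9, 10, 11, 12, 13, 14, 15, 16, 17]), some (62, [1, 3, 0, 9, 10, 11, 4, 5, 2, 15, 13, 6, 17, 12, 7]), some (62, [1, 3, 0, 4, 5, 2, 9, 10, 11, 12, 7, 6, 17, 15, 13]), some (0, [2, 0, 5, 11, 10, 17, 1, 3, 4, 14, 16, 8, 9, 6, 7, 13, 12, 15])]⟩,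
  ⟨18, 207510, [(0, 1), (0, 2), (0, 11), (1, 3), (1, 6), (2, 5), (2, 8), (3, 4), (3, 9), (4, 5), (4, 12), (6, 7), (6, 13), (7, 8), (7, 12), (8, 16), (9, 10), (9, 15), (10, 11), (11, 14), (12, 17), (13, 14), (13, 15), (14, 16), (15, 17)], E 5, [some (0, [0, 1, 2, 3, 4, 5, 6, 7, 8, 9, 10, 11, 12, 13, 14, 15, 16, 17, 18])]⟩,
  ⟨19, 469654, [(0, 1), (0, 2), (0, 11), (1, 3), (1, 6), (2, 5), (2, 8), (3, 4), (3, 9), (4, 5), (4, 12), (5, 18), (6, 7), (6, 13), (7, 8), (7, 12), (8, 16), (9, 10), (9, 15), (10, 11), (11, 14), (12, 17), (13, 14), (13, 15), (14, 16), (15, 17)], H 4 5 18, [some (2, [0, 1, 2, 3, 4, 5, 6, 7, 8, 9, 10, 11, 12, 13, 14, 15, 16, 17, 18, 19]), some (0, [0, 1, 2, 3, 4, 5, 6, 7, 8, 9, 10, 11, 12, 13, 14, 15, 16, 17, 18])]⟩,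
  ⟨19, 469654, [(0, 1), (0, 2), (0, 11), (1, 3), (1, 6), (2, 5), (2, 8), (3, 4), (3, 9), (4, 5), (4, 12), (5, 18), (6, 7), (6, 13), (7, 8), (7, 12), (8, 16), (9, 10), (9, 15), (10, 11), (10, 18), (11, 14), (12, 17), (13, 14), (13, 15), (14, 16), (15, 17)], E 16, [some (0, [0, 1, 2, 3, 4, 5, 6, 7, 8, 9, 10, 11, 12, 13, 14, 15, 16, 17, 18, 19])]⟩,
  ⟨20, 469654, [(0, 1), (0, 2), (0, 11), (1, 3), (1, 6), (2, 5), (2, 8), (3, 4), (3, 9), (4, 5), (4, 12), (5, 18), (6, 7), (6, 13), (7, 8), (7, 12), (8, 16), (9, 10), (9, 15), (10, 11), (10, 18), (11, 14), (12, 17), (13, 14), (13, 15), (14, 16), (15, 17), (16, 19)], H 8 16 19, [some (1, [0, 1, 2, 6, 7, 8, 3, 4, 5, 13, 14, 11, 12, 9, 10, 15, 18, 17, 16, 19]), some (1, [2, 0, 5, 1, 3, 4, 11, 10, 18, 6, 7, 8, 9, 14, 16, 13, 19, 15, 12, 17])]⟩,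
  ⟨20, 469654, [(0, 1), (0, 2), (0, 11), (1, 3), (1, 6), (2, 5), (2, 8), (3, 4), (3, 9), (4, 5), (4, 12), (5, 18), (6, 7), (6, 13), (7, 8), (7, 12), (8, 16), (9, 10), (9, 15), (10, 11), (11, 14), (12, 17), (13, 14), (13, 15), (14, 16), (15, 17), (17, 19), (18, 19)], D 5 18 19 17 12 4, [some (0, [0, 1, 2, 3, 4, 5, 6, 7, 8, 9, 10, 11, 12, 13, 14, 15, 16, 17, 18, 19]), some (0, [1, 6, 0, 7, 8, 2, 13, 14, 11, 12, 4, 3, 16, 15, 9, 17, 10, 19, 5, 18])]⟩,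
  ⟨20, 469654, [(0, 1), (0, 2), (0, 11), (1, 3), (1, 6), (2, 5), (2, 8), (3, 4), (3, 9), (4, 5), (4, 12), (5, 18), (6, 7), (6, 13), (7, 8), (7, 12), (8, 16), (9, 10), (9, 15), (10, 11), (10, 18), (11, 14), (12, 17), (13, 14), (13, 15), (14, 16), (15, 17), (17, 19), (18, 19)], E 16, [some (0, [0, 1, 2, 3, 4, 5, 6, 7, 8, 9, 10, 11, 12, 13, 14, 15, 16, 17, 18, 19, 20]), none]⟩,
  ⟨21, 469654, [(0, 1), (0, 2), (0, 11), (1, 3), (1, 6), (2, 5), (2, 8), (3, 4), (3, 9), (4, 5), (4, 12), (5, 18), (6, 7), (6, 13), (7, 8), (7, 12), (8, 16), (9, 10), (9, 15), (10, 11), (10, 18), (11, 14), (12, 17), (13, 14), (13, 15), (14, 16), (15, 17), (16, 20), (17, 19), (18, 19)], H 8 16 20, []⟩,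
  ⟨14, 10902, [(0, 1), (0, 2), (0, 11), (1, 3), (1, 6), (2, 5), (2, 8), (3, 4), (3, 9), (4, 5), (4, 12), (6, 7), (6, 13), (7, 8), (9, 10), (10, 11), (12, 13)], D 1 6 7 8 2 0, [some (54, [0, 1, 2, 3, 4, 5, 6, 7, 8, 9, 10, 11, 12, 13, 14]), some (49, [0, 1, 2, 3, 4, 5, 6, 7, 8, 9, 10, 11, 12, 13]), some (17, [0, 1, 2, 3, 4, 5, 6, 7, 8, 9, 10, 11, 12, 13]), some (12, [0, 1, 2, 3, 4, 5, 6, 7, 8, 9, 10, 11, 12, 13, 14, 15]), some (0, [0, 1, 2, 3, 4, 5, 6, 7, 8, 9, 10, 11, 12, 13, 14]), some (17, [3, 1, 4, 0, 2, 5, 6, 13, 12, 11, 10, 9, 8, 7])]⟩,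
  ⟨15, 10902, [(0, 1), (0, 2), (0, 11), (1, 3), (1, 6), (2, 5), (2, 8), (3, 4), (3, 9), (4, 5), (4, 12), (6, 7), (6, 13), (7, 8), (7, 14), (9, 10), (10, 11), (11, 14), (12, 13)], D 1 3 4 12 13 6, [some (48, [1, 3, 6, 9, 8, 7, 4, 12, 13, 10, 11, 0, 2, 5]), some (12, [3, 1, 4, 0, 2, 5, 6, 13, 12, 11, 10, 9, 8, 7, 16, 15, 14]), some (0, [0, 1, 2, 3, 4, 5, 6, 7, 8, 9, 10, 11, 12, 13, 14, 15]), some (17, [0, 1, 2, 3, 4, 5, 6, 7, 8, 9, 10, 11, 12, 13, 14])]⟩,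
  ⟨16, 10902, [(0, 1), (0, 2), (0, 11), (1, 3), (1, 6), (2, 5), (2, 8), (3, 4), (3, 9), (4, 5), (4, 12), (6, 7), (6, 13), (7, 8), (7, 14), (9, 10), (9, 15), (10, 11), (11, 14), (12, 13), (13, 15)], D 0 2 8 7 14 11, [some (5, [0, 1, 2, 3, 4, 5, 6, 7, 8, 9, 10, 11, 12, 13, 14, 15, 16]), some (0, [0, 1, 2, 3, 4, 5, 6, 7, 8, 9, 10, 11, 12, 13, 14, 15, 16, 17, 18]), some (26, [1, 0, 3, 2, 5, 4, 11, 10, 9, 8, 7, 6, 16, 14, 15, 13, 12]), some (26, [1, 0, 3, 11, 10, 9, 2, 5, 4, 14, 7, 6, 16, 8, 12, 13, 15])]⟩,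
  ⟨19, 338582, [(0, 1), (0, 2), (0, 11), (1, 3), (1, 6), (2, 5), (2, 8), (3, 4), (3, 9), (4, 5), (4, 12), (6, 7), (6, 13), (7, 8), (7, 14), (8, 16), (9, 10), (9, 15), (10, 11), (11, 14), (12, 13), (13, 15), (14, 18), (16, 17), (17, 18)], D 8 16 17 18 14 7, [some (3, [0, 1, 2, 3, 4, 5, 6, 7, 8, 9, 10, 11, 12, 13, 14, 15, 16, 17, 18]), some (1, [0, 1, 2, 3, 4, 5, 6, 7, 8, 9, 10, 11, 12, 13, 14, 15, 16, 17, 18]), some (0, [0, 1, 2, 3, 4, 5, 6, 7, 8, 9, 10, 11, 12, 13, 14, 15, 16, 17, 18, 19]), some (25, [1, 0, 3, 11, 10, 9, 2, 5, 4, 14, 7, 6, 16, 8, 12, 13, 15])]⟩,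
  ⟨20, 862870, [(0, 1), (0, 2), (0, 11), (1, 3), (1, 6), (2, 5), (2, 8), (3, 4), (3, 9), (4, 5), (4, 12), (6, 7), (6, 13), (7, 8), (7, 14), (8, 16), (9, 10), (9, 15), (10, 11), (10, 19), (11, 14), (12, 13), (13, 15), (14, 18), (16, 17), (17, 18), (17, 19)], D 14 18 17 19 10 11, [some (24, [1, 0, 3, 2, 5, 4, 11, 10, 9, 8, 7, 6, 18, 14, 15, 13, 12]), some (2, [0, 1, 2, 3, 4, 5, 6, 7, 8, 9, 10, 11, 12, 13, 14, 15, 16, 17, 18]), some (1, [0, 1, 11, 3, 9, 10, 6, 7, 14, 4, 5, 2, 15, 13, 8, 12, 18, 17, 16, 19])]⟩,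
  ⟨19, 338582, [(0, 1), (0, 2), (0, 11), (1, 3), (1, 6), (2, 5), (2, 8), (3, 4), (3, 9), (4, 5), (4, 12), (6, 7), (6, 13), (7, 8), (7, 14), (8, 16), (9, 10), (9, 15), (10, 11), (11, 14), (12, 13), (12, 16), (13, 15), (14, 18), (16, 17), (17, 18)], D 2 5 4 12 16 8, [some (23, [1, 0, 3, 2, 5, 4, 11, 10, 9, 8, 7, 6, 18, 14, 15, 13, 12]), some (0, [0, 1, 2, 3, 4, 5, 6, 7, 8, 9, 10, 11, 12, 13, 14, 15, 16, 17, 18, 19]), some (23, [1, 0, 3, 2, 5, 4, 11, 10, 9, 8, 7, 6, 18, 14, 15, 13, 12])]⟩,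
  ⟨20, 862870, [(0, 1), (0, 2), (0, 11), (1, 3), (1, 6), (2, 5), (2, 8), (3, 4), (3, 9), (4, 5), (4, 12), (5, 19), (6, 7), (6, 13), (7, 8), (7, 14), (8, 16), (9, 10), (9, 15), (10, 11), (11, 14), (12, 13), (12, 16), (13, 15), (14, 18), (16, 17), (17, 18), (17, 19)], D 3 4 12 13 15 9, [some (5, [3, 1, 4, 0, 2, 5, 6, 13, 12, 11, 10, 9, 8, 7, 15, 14, 19, 17, 16, 18]), some (27, [1, 3, 0, 4, 5, 2, 9, 10, 11, 12, 13, 6, 19, 15, 14, 7, 8, 16, 17, 18]), some (5, [16, 8, 12, 7, 6, 13, 2, 5, 4, 14, 18, 17, 1, 0, 19, 11, 15, 9, 3, 10]), some (27, [1, 3, 0, 4, 5, 2, 9, 10, 11, 12, 13, 6, 19, 15, 14, 7, 8, 16, 17, 18])]⟩,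
  ⟨19, 338582, [(0, 1), (0, 2), (0, 11), (1, 3), (1, 6), (2, 5), (2, 8), (3, 4), (3, 9), (4, 5), (4, 12), (6, 7), (6, 13), (7, 8), (7, 14), (8, 16), (9, 10), (9, 15), (10, 11), (11, 14), (12, 13), (13, 15), (14, 18), (15, 16), (16, 17), (17, 18)], D 6 7 8 16 15 13, [some (0, [7, 6, 8, 13, 15, 16, 1, 0, 2, 12, 18, 14, 9, 3, 11, 4, 17])]⟩,
  ⟨17, 76438, [(0, 1), (0, 2), (0, 11), (1, 3), (1, 6), (2, 5), (2, 8), (3, 4), (3, 9), (4, 5), (4, 12), (5, 16), (6, 7), (6, 13), (7, 8), (7, 14), (9, 10), (9, 15), (10, 11), (10, 16), (11, 14), (12, 13), (13, 15)], H 5 2 8, [some (1, [0, 1, 2, 3, 4, 5, 6, 7, 8, 9, 10, 11, 12, 13, 14, 15, 16, 17, 18]), some (0, [0, 1, 2, 3, 4, 5, 6, 7, 8, 9, 10, 11, 12, 13, 14, 15, 16, 17])]⟩,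
  ⟨18, 207510, [(0, 1), (0, 2), (0, 11), (1, 3), (1, 6), (2, 5), (2, 8), (3, 4), (3, 9), (4, 5), (4, 12), (5, 16), (6, 7), (6, 13), (7, 8), (7, 14), (8, 17), (9, 10), (9, 15), (10, 11), (10, 16), (11, 14), (12, 13), (12, 17), (13, 15)], D 2 5 4 12 17 8, [some (1, [0, 1, 2, 3, 4, 5, 6, 7, 8, 9, 10, 11, 12, 13, 14, 15, 16, 18, 17])]⟩,
  ⟨19, 338582, [(0, 1), (0, 2), (0, 11), (1, 3), (1, 6), (2, 5), (2, 8), (3, 4), (3, 9), (4, 5), (4, 12), (5, 16), (6, 7), (6, 13), (7, 8), (7, 14), (8, 18), (9, 10), (9, 15), (10, 11), (10, 16), (11, 14), (12, 13), (13, 15), (16, 17), (17, 18)], D 2 5 16 17 18 8, [some (4, [5, 2, 16, 0, 11, 10, 8, 18, 17, 1, 3, 4, 14, 7, 15, 9, 6]), some (0, [0, 1, 2, 3, 4, 5, 6, 7, 8, 9, 10, 11, 12, 13, 14, 15, 16, 17, 18])]⟩,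
  ⟨19, 338582, [(0, 1), (0, 2), (0, 11), (1, 3), (1, 6), (2, 5), (2, 8), (3, 4), (3, 9), (4, 5), (4, 12), (5, 16), (6, 7), (6, 13), (7, 8), (7, 14), (8, 18), (9, 10), (9, 15), (10, 11), (10, 16), (11, 14), (12, 13), (12, 18), (13, 15), (16, 17), (17, 18)], H 10 9 15, [some (0, [0, 1, 2, 3, 4, 5, 6, 7, 8, 9, 10, 11, 12, 13, 14, 15, 16, 17, 18, 19]), some (0, [5, 4, 2, 3, 1, 0, 12, 18, 8, 9, 10, 16, 6, 13, 17, 15, 11, 14, 7, 19])]⟩,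
  ⟨20, 862870, [(0, 1), (0, 2), (0, 11), (1, 3), (1, 6), (2, 5), (2, 8), (3, 4), (3, 9), (4, 5), (4, 12), (5, 16), (6, 7), (6, 13), (7, 8), (7, 14), (8, 18), (9, 10), (9, 15), (10, 11), (10, 16), (11, 14), (12, 13), (12, 18), (13, 15), (15, 19), (16, 17), (17, 18), (17, 19)], D 9 10 16 17 19 15, [none]⟩,
  ⟨16, 43670, [(0, 1), (0, 2), (0, 11), (1, 3), (1, 6), (2, 5), (2, 8), (3, 4), (3, 9), (4, 5), (4, 12), (5, 15), (6, 7), (6, 13), (7, 8), (7, 14), (9, 10), (10, 11), (12, 13), (14, 15)], D 1 3 4 12 13 6, [some (42, [1, 3, 0, 4, 5, 2, 9, 10, 11, 12, 13, 6, 15, 14, 7, 8]), some (36, [1, 3, 6, 9, 8, 7, 4, 12, 13, 10, 11, 0, 2, 5]), some (2, [0, 1, 2, 3, 4, 5, 6, 7, 8, 9, 10, 11, 12, 13, 14, 15, 16]), some (0, [0, 1, 2, 3, 4, 5, 6, 7, 8, 9, 10, 11, 12, 13, 14, 15, 16]), some (4, [0, 1, 2, 3, 4,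 5, 6, 7, 8, 9, 10, 11, 12, 13])]⟩,
  ⟨17, 43670, [(0, 1), (0, 2), (0, 11), (1, 3), (1, 6), (2, 5), (2, 8), (3, 4), (3, 9), (4, 5), (4, 12), (5, 15), (6, 7), (6, 13), (7, 8), (7, 14), (9, 10), (9, 16), (10, 11), (12, 13), (13, 16), (14, 15)], D 0 1 3 9 10 11, [some (35, [0, 1, 2, 3, 4, 5, 6, 7, 8, 9, 10, 11, 12, 13]), some (14, [1, 0, 3, 2, 5, 4, 11, 10, 9, 8, 7, 6, 15, 14, 16, 13, 12]), some (21, [1, 3, 0, 9, 10, 11, 4, 5, 2, 16, 13, 6, 17, 12, 8, 7, 15, 14]), some (0, [0, 1, 2, 3, 4, 5, 6, 7, 8, 9, 10, 11, 12, 13, 14, 15, 16]), some (35, [0, 1, 2, 3, 4, 5, 6, 7, 8, 9, 10, 11, 12, 13])]⟩,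
  ⟨17, 43670, [(0, 1), (0, 2), (0, 11), (1, 3), (1, 6), (2, 5), (2, 8), (3, 4), (3, 9), (4, 5), (4, 12), (5, 15), (6, 7), (6, 13), (7, 8), (7, 14), (9, 10), (9, 16), (10, 11), (10, 15), (12, 13), (13, 16), (14, 15)], D 6 7 8 2 0 1, [some (39, [0, 2, 1, 8, 7, 6, 5, 4, 3, 17, 18, 11, 14, 15, 10])]⟩,
  ⟨17, 43670, [(0, 1), (0, 2), (0, 11), (1, 3), (1, 6), (2, 5), (2, 8), (3, 4), (3, 9), (4, 5), (4, 12), (5, 15), (6, 7), (6, 13), (7, 8), (7, 14), (9, 10), (10, 11), (12, 13), (13, 16), (14, 15), (15, 16)], D 0 1 3 9 10 11, [some (39, [0, 1, 2, 3, 4, 5, 6, 7, 8, 9, 10, 11, 12, 13, 16, 15]), some (33, [0, 1, 2, 3, 4, 5, 6, 7, 8, 9, 10, 11, 12, 13]), some (1, [1, 0, 3, 2, 5, 4, 11, 10, 9, 8, 7, 6, 15, 14]), some (0, [0, 1, 2, 3, 4, 5, 6, 7, 8, 9, 10, 11, 12, 13, 14, 15, 16, 17]), some (33, [0, 1, 2,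 3, 4, 5, 6, 7, 8, 9, 10, 11, 12, 13])]⟩,
  ⟨18, 174742, [(0, 1), (0, 2), (0, 11), (1, 3), (1, 6), (2, 5), (2, 8), (3, 4), (3, 9), (4, 5), (4, 12), (5, 15), (6, 7), (6, 13), (7, 8), (7, 14), (9, 10), (10, 11), (10, 17), (12, 13), (12, 17), (13, 16), (14, 15), (15, 16)], D 3 9 10 11 0 1, [some (42, [4, 3, 5, 1, 0, 2, 9, 16, 15, 6, 13, 12, 11, 10, 17, 14, 7]), some (54, [9, 3, 14, 1, 6, 7, 4, 5, 15, 0, 11, 10, 13, 12, 17, 2, 8, 16]), some (42, [1, 3, 6, 4, 12, 13, 9, 8, 7, 5, 2, 0, 17, 10, 11, 14, 15]), some (38, [2, 8, 0, 7, 6, 1, 17, 10, 11, 14, 15, 5, 13, 12, 4, 3]), some (42, [1, 3, 6, 4, 12, 13, 9, 8, 7, 5, 2, 0, 17, 10, 11, 14, 15])]⟩,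
  ⟨14, 10902, [(0, 1), (0, 2), (0, 11), (1, 3), (1, 6), (2, 5), (2, 8), (3, 4), (3, 9), (4, 5), (4, 12), (6, 7), (6, 13), (7, 8), (9, 10), (10, 11), (10, 13), (12, 13)], D 6 7 8 2 0 1, [some (38, [3, 1, 4, 0, 2, 5, 6, 13, 12, 11, 10, 9, 8, 7, 14]), some (9, [0, 1, 2, 3, 4, 5, 6, 7, 8, 9, 10, 11, 12, 13, 14, 15]), some (32, [3, 1, 4, 0, 2, 5, 6, 13, 12, 11, 10, 9, 8, 7]), some (0, [0, 1, 2, 3, 4, 5, 6, 7, 8, 9, 10, 11, 12, 13, 14]), some (32, [3, 1, 4, 0, 2, 5, 6, 13, 12, 11, 10, 9, 8, 7])]⟩,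
  ⟨15, 10902, [(0, 1), (0, 2), (0, 11), (1, 3), (1, 6), (2, 5), (2, 8), (3, 4), (3, 9), (4, 5), (4, 12), (6, 7), (6, 13), (7, 8), (7, 14), (9, 10), (10, 11), (10, 13), (11, 14), (12, 13)], D 0 2 8 7 14 11, [some (2, [0, 1, 2, 3, 4, 5, 6, 7, 8, 9, 10, 11, 12, 13, 14, 15, 16, 17]), some (0, [0, 1, 2, 3, 4, 5, 6, 7, 8, 9, 10, 11, 12, 13, 14, 15]), some (31, [3, 1, 4, 0, 2, 5, 6, 13, 12, 11, 10, 9, 8, 7])]⟩,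
  ⟨16, 43670, [(0, 1), (0, 2), (0, 11), (1, 3), (1, 6), (2, 5), (2, 8), (3, 4), (3, 9), (4, 5), (4, 12), (5, 15), (6, 7), (6, 13), (7, 8), (7, 14), (9, 10), (10, 11), (10, 13), (11, 14), (12, 13), (14, 15)], D 2 5 15 14 7 8, [some (0, [0, 1, 2, 3, 4, 5, 6, 7, 8, 9, 10, 11, 12, 13, 14, 15, 16]), some (30, [2, 0, 5, 1, 3, 4, 11, 14, 15, 6, 7, 8, 9, 10]), some (1, [0, 1, 2, 3, 4, 5, 6, 7, 8, 9, 10, 11, 12, 13, 14, 16, 17, 15])]⟩,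
  ⟨17, 109206, [(0, 1), (0, 2), (0, 11), (1, 3), (1, 6), (2, 5), (2, 8), (3, 4), (3, 9), (4, 5), (4, 12), (5, 15), (6, 7), (6, 13), (7, 8), (7, 14), (8, 16), (9, 10), (10, 11), (10, 13), (11, 14), (12, 13), (12, 16), (14, 15)], D 4 12 16 8 2 5, [some (5, [0, 1, 2, 3, 4, 5, 6, 7, 8, 9, 10, 11, 12, 13, 14, 16, 17, 15])]⟩,
  ⟨18, 174742, [(0, 1), (0, 2), (0, 11), (1, 3), (1, 6), (2, 5), (2, 8), (3, 4), (3, 9), (4, 5), (4, 12), (6, 7), (6, 13), (7, 8), (7, 14), (8, 15), (9, 10), (10, 11), (10, 13), (11, 14), (12, 13), (14, 17), (15, 16), (16, 17)], D 8 15 16 17 14 7, [some (3, [0, 1, 2, 3, 4, 5, 6, 7, 8, 9, 10, 11, 12, 13, 14, 15, 16, 17]), some (0, [0, 1, 2, 3, 4, 5, 6, 7, 8, 9, 10, 11, 12, 13, 14, 15, 16, 17])]⟩,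
  ⟨18, 174742, [(0, 1), (0, 2), (0, 11), (1, 3), (1, 6), (2, 5), (2, 8), (3, 4), (3, 9), (4, 5), (4, 12), (6, 7), (6, 13), (7, 8), (7, 14), (8, 15), (9, 10), (9, 16), (10, 11), (10, 13), (11, 14), (12, 13), (14, 17), (15, 16), (16, 17)], D 15 16 17 14 7 8, [some (1, [0, 1, 2, 3, 4, 5, 6, 7, 8, 9, 10, 11, 12, 13, 14, 15, 16, 17]), some (0, [0, 1, 2, 3, 4, 5, 6, 7, 8, 9, 10, 11, 12, 13, 14, 15, 16, 17])]⟩,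
  ⟨18, 174742, [(0, 1), (0, 2), (0, 11), (1, 3), (1, 6), (2, 5), (2, 8), (3, 4), (3, 9), (4, 5), (4, 12), (5, 17), (6, 7), (6, 13), (7, 8), (7, 14), (8, 15), (9, 10), (9, 16), (10, 11), (10, 13), (11, 14), (12, 13), (14, 17), (15, 16), (16, 17)], D 5 17 16 9 3 4, [none]⟩,
  ⟨18, 174742, [(0, 1), (0, 2), (0, 11), (1, 3), (1, 6), (2, 5), (2, 8), (3, 4), (3, 9), (4, 5), (4, 12), (6, 7), (6, 13), (7, 8), (7, 14), (8, 15), (9, 10), (9, 16), (10, 11), (10, 13), (11, 14), (12, 13), (12, 17), (14, 17), (15, 16), (16, 17)], D 12 17 16 9 3 4, []⟩,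
  ⟨18, 174742, [(0, 1), (0, 2), (0, 11), (1, 3), (1, 6), (2, 5), (2, 8), (3, 4), (3, 9), (4, 5), (4, 12), (6, 7), (6, 13), (7, 8), (7, 14), (8, 15), (9, 10), (10, 11), (10, 13), (11, 14), (12, 13), (12, 15), (14, 17), (15, 16), (16, 17)], D 4 12 15 8 2 5, [some (2, [8, 7, 15, 6, 13, 12, 14, 17, 16, 1, 0, 2, 10, 11, 18, 5, 4]), some (0, [0, 1, 2, 3, 4, 5, 6, 7, 8, 9, 10, 11, 12, 13, 14, 15, 16, 17])]⟩,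
  ⟨18, 174742, [(0, 1), (0, 2), (0, 11), (1, 3), (1, 6), (2, 5), (2, 8), (3, 4), (3, 9), (4, 5), (4, 12), (5, 17), (6, 7), (6, 13), (7, 8), (7, 14), (8, 15), (9, 10), (10, 11), (10, 13), (11, 14), (12, 13), (12, 15), (14, 17), (15, 16), (16, 17)], D 3 4 12 13 10 9, [none, none]⟩,
  ⟨16, 27286, [(0, 1), (0, 2), (0, 11), (1, 3), (1, 6), (2, 5), (2, 8), (3, 4), (3, 9), (4, 5), (4, 12), (6, 7), (6, 13), (7, 8), (8, 14), (9, 10), (10, 11), (10, 13), (11, 15), (12, 13), (14, 15)], D 0 2 8 14 15 11, [some (7, [0, 1, 2, 3, 4, 5, 6, 7, 8, 9, 10, 11, 12, 13, 14, 15, 16, 17]), some (0, [0, 1, 2, 3, 4, 5, 6, 7, 8, 9, 10, 11, 12, 13, 14, 15, 16])]⟩,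
  ⟨17, 92822, [(0, 1), (0, 2), (0, 11), (1, 3), (1, 6), (2, 5), (2, 8), (3, 4), (3, 9), (4, 5), (4, 12), (5, 16), (6, 7), (6, 13), (7, 8), (8, 14), (9, 10), (10, 11), (10, 13), (11, 15), (12, 13), (14, 15), (15, 16)], D 2 5 16 15 14 8, [some (2, [0, 1, 2, 3, 4, 5, 6, 7, 8, 9, 10, 11, 12, 13, 14, 15, 16, 17, 18, 19]), some (0, [0, 1, 2, 3, 4, 5, 6, 7, 8, 9, 10, 11, 12, 13, 14, 15, 16]), some (6, [0, 1, 2, 3, 4, 5, 6, 7, 8, 9, 10, 11, 12, 13, 14, 15, 17, 16])]⟩,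
  ⟨17, 92822, [(0, 1), (0, 2), (0, 11), (1, 3), (1, 6), (2, 5), (2, 8), (3, 4), (3, 9), (4, 5), (4, 12), (5, 16), (6, 7), (6, 13), (7, 8), (8, 14), (9, 10), (10, 11), (10, 13), (11, 15), (12, 13), (12, 14), (14, 15), (15, 16)], E 7, [some (0, [0, 1, 2, 3, 4, 5, 6, 7, 8, 9, 10, 11, 12, 13, 14, 15, 16, 17])]⟩,
  ⟨18, 92822, [(0, 1), (0, 2), (0, 11), (1, 3), (1, 6), (2, 5), (2, 8), (3, 4), (3, 9), (4, 5), (4, 12), (5, 16), (6, 7), (6, 13), (7, 8), (7, 17), (8, 14), (9, 10), (10, 11), (10, 13), (11, 15), (12, 13), (12, 14), (14, 15), (15, 16)], H 6 7 17, [some (34, [1, 6, 0, 7, 8, 2, 13, 10, 11, 17, 9, 3, 14, 12, 4, 5, 15, 16]), some (34, [1, 6, 0, 7, 8, 2, 13, 10, 11, 17, 9, 3, 14, 12, 4, 5, 15, 16])]⟩,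
  ⟨20, 354966, [(0, 1), (0, 2), (0, 11), (1, 3), (1, 6), (2, 5), (2, 8), (3, 4), (3, 9), (4, 5), (4, 12), (5, 16), (6, 7), (6, 13), (7, 8), (8, 14), (9, 10), (10, 11), (10, 13), (11, 15), (12, 13), (14, 15), (14, 19), (15, 16), (16, 17), (17, 18), (18, 19)], D 14 15 16 17 18 19, [some (2, [0, 1, 2, 3, 4, 5, 6, 7, 8, 9, 10, 11, 12, 13, 14, 15, 16, 17, 18, 19]), some (0, [0, 1, 2, 3, 4, 5, 6, 7, 8, 9, 10, 11, 12, 13, 14, 15, 16, 17, 18, 19])]⟩,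
  ⟨20, 354966, [(0, 1), (0, 2), (0, 11), (1, 3), (1, 6), (2, 5), (2, 8), (3, 4), (3, 9), (4, 5), (4, 12), (5, 16), (6, 7), (6, 13), (7, 8), (8, 14), (9, 10), (10, 11), (10, 13), (11, 15), (12, 13), (12, 18), (14, 15), (14, 19), (15, 16), (16, 17), (17, 18), (18, 19)], D 16 17 18 19 14 15, [some (0, [0, 1, 2, 3, 4, 5, 6, 7, 8, 9, 10, 11, 12, 13, 14, 15, 16, 17, 18, 19]), some (5, [0, 1, 2, 3, 4, 5, 6, 7, 8, 9, 10, 11, 12, 13, 14, 15, 17, 16, 19, 18])]⟩,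
  ⟨20, 354966, [(0, 1), (0, 2), (0, 11), (1, 3), (1, 6), (2, 5), (2, 8), (3, 4), (3, 9), (4, 5), (4, 12), (5, 16), (6, 7), (6, 13), (7, 8), (8, 14), (9, 10), (9, 17), (10, 11), (10, 13), (11, 15), (12, 13), (12, 18), (14, 15), (14, 19), (15, 16), (16, 17), (17, 18), (18, 19)], H 7 6 13, []⟩,
  ⟨20, 354966, [(0, 1), (0, 2), (0, 11), (1, 3), (1, 6), (2, 5), (2, 8), (3, 4), (3, 9), (4, 5), (4, 12), (5, 16), (6, 7), (6, 13), (7, 8), (8, 14), (9, 10), (9, 19), (10, 11), (10, 13), (11, 15), (12, 13), (14, 15), (14, 19), (15, 16), (16, 17), (17, 18), (18, 19)], D 11 15 14 19 9 10, []⟩,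
  ⟨18, 158358, [(0, 1), (0, 2), (0, 11), (1, 3), (1, 6), (2, 5), (2, 8), (3, 4), (3, 9), (4, 5), (4, 12), (6, 7), (6, 13), (7, 8), (7, 16), (8, 14), (9, 10), (10, 11), (10, 13), (11, 15), (12, 13), (14, 15), (15, 17), (16, 17)], D 8 14 15 17 16 7, [some (19, [8, 14, 7, 12, 13, 6, 15, 17, 16, 4, 5, 2, 10, 11, 0, 1]), some (23, [6, 1, 7, 0, 2, 8, 3, 9, 16, 11, 10, 13, 5, 4, 12, 17, 15]), some (0, [0, 1, 2, 3, 4, 5, 6, 7, 8, 9, 10, 11, 12, 13, 14, 15, 16, 17, 18, 19])]⟩,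
  ⟨20, 682646, [(0, 1), (0, 2), (0, 11), (1, 3), (1, 6), (2, 5), (2, 8), (3, 4), (3, 9), (4, 5), (4, 12), (6, 7), (6, 13), (7, 8), (7, 16), (8, 14), (9, 10), (10, 11), (10, 13), (11, 15), (12, 13), (14, 15), (14, 18), (15, 17), (16, 17), (16, 19), (18, 19)], D 8 14 15 11 0 2, [some (8, [0, 1, 2, 3, 4, 5, 6, 7, 8, 9, 10, 11, 12, 13, 14, 15, 16, 17, 18, 19, 20]), some (2, [0, 1, 2, 3, 4, 5, 6, 7, 8, 9, 10, 11, 12, 13, 14, 15, 16, 17, 18, 19]), some (0, [0, 1, 2, 3, 4, 5, 6, 7, 8, 9, 10, 11, 12, 13, 14, 15, 16, 17, 18, 19])]⟩,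
  ⟨20, 682646, [(0, 1), (0, 2), (0, 11), (1, 3), (1, 6), (2, 5), (2, 8), (3, 4), (3, 9), (4, 5), (4, 12), (5, 17), (6, 7), (6, 13), (7, 8), (7, 16), (8, 14), (9, 10), (10, 11), (10, 13), (11, 15), (12, 13), (14, 15), (14, 18), (15, 17), (16, 17), (16, 19), (18, 19)], D 14 18 19 16 7 8, [some (0, [0, 1, 2, 3, 4, 5, 6, 7, 8, 9, 10, 11, 12, 13, 14, 15, 16, 17, 18, 19])]⟩,
  ⟨20, 682646, [(0, 1), (0, 2), (0, 11), (1, 3), (1, 6), (2, 5), (2, 8), (3, 4), (3, 9), (4, 5), (4, 12), (5, 17), (6, 7), (6, 13), (7, 8), (7, 16), (8, 14), (9, 10), (10, 11), (10, 13), (11, 15), (12, 13), (12, 19), (14, 15), (14, 18), (15, 17), (16, 17), (16, 19), (18, 19)], D 3 4 12 13 10 9, [none]⟩,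
  ⟨20, 682646, [(0, 1), (0, 2), (0, 11), (1, 3), (1, 6), (2, 5), (2, 8), (3, 4), (3, 9), (4, 5), (4, 12), (5, 19), (6, 7), (6, 13), (7, 8), (7, 16), (8, 14), (9, 10), (10, 11), (10, 13), (11, 15), (12, 13), (14, 15), (14, 18), (15, 17), (16, 17), (16, 19), (18, 19)], D 3 4 12 13 10 9, [some (4, [0, 1, 2, 3, 4, 5, 6, 7, 8, 9, 10, 11, 12, 13, 14, 15, 16, 17, 18, 19]), some (2, [0, 1, 2, 3, 4, 5, 6, 7, 8, 9, 10, 11, 12, 13, 14, 15, 16, 17, 18, 19]), some (0, [0, 1, 2, 3, 4, 5, 6, 7, 8, 9, 10, 11, 12, 13, 14, 15, 16, 17, 18, 19, 20, 21])]⟩,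
  ⟨22, 2779798, [(0, 1), (0, 2), (0, 11), (1, 3), (1, 6), (2, 5), (2, 8), (3, 4), (3, 9), (4, 5), (4, 12), (5, 19), (6, 7), (6, 13), (7, 8), (7, 16), (8, 14), (9, 10), (9, 20), (10, 11), (10, 13), (11, 15), (12, 13), (12, 21), (14, 15), (14, 18), (15, 17), (16, 17), (16, 19), (18, 19), (20, 21)], D 12 21 20 9 3 4, [some (0, [0, 1, 2, 3, 4, 5, 6, 7, 8, 9, 10, 11, 12, 13, 14, 15, 16, 17, 18, 19, 20, 21])]⟩,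
  ⟨22, 2779798, [(0, 1), (0, 2), (0, 11), (1, 3), (1, 6), (2, 5), (2, 8), (3, 4), (3, 9), (4, 5), (4, 12), (5, 19), (6, 7), (6, 13), (7, 8), (7, 16), (8, 14), (9, 10), (9, 20), (10, 11), (10, 13), (11, 15), (12, 13), (12, 21), (14, 15), (14, 18), (15, 17), (16, 17), (16, 19), (18, 19), (18, 21), (20, 21)], D 5 19 18 21 12 4, []⟩,
  ⟨20, 682646, [(0, 1), (0, 2), (0, 11), (1, 3), (1, 6), (2, 5), (2, 8), (3, 4), (3, 9), (4, 5), (4, 12), (5, 19), (6, 7), (6, 13), (7, 8), (7, 16), (8, 14), (9, 10), (10, 11), (10, 13), (11, 15), (12, 13), (12, 17), (14, 15), (14, 18), (15, 17), (16, 17), (16, 19), (18, 19)], E 9, [some (0, [0, 1, 2, 3, 4, 5, 6, 7, 8, 9, 10, 11, 12, 13, 14, 15, 16, 17, 18, 19, 20]), none]⟩,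
  ⟨21, 682646, [(0, 1), (0, 2), (0, 11), (1, 3), (1, 6), (2, 5), (2, 8), (3, 4), (3, 9), (4, 5), (4, 12), (5, 19), (6, 7), (6, 13), (7, 8), (7, 16), (8, 14), (9, 10), (9, 20), (10, 11), (10, 13), (11, 15), (12, 13), (12, 17), (14, 15), (14, 18), (15, 17), (16, 17), (16, 19), (18, 19)], H 3 9 20, []⟩,
  ⟨20, 682646, [(0, 1), (0, 2), (0, 11), (1, 3), (1, 6), (2, 5), (2, 8), (3, 4), (3, 9), (4, 5), (4, 12), (5, 19), (6, 7), (6, 13), (7, 8), (7, 16), (8, 14), (9, 10), (9, 18), (10, 11), (10, 13), (11, 15), (12, 13), (14, 15), (14, 18), (15, 17), (16, 17), (16, 19), (18, 19)], D 5 19 18 9 3 4, [none]⟩,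
  ⟨21, 1731222, [(0, 1), (0, 2), (0, 11), (1, 3), (1, 6), (2, 5), (2, 8), (3, 4), (3, 9), (4, 5), (4, 12), (5, 20), (6, 7), (6, 13), (7, 8), (7, 16), (8, 14), (9, 10), (10, 11), (10, 13), (11, 15), (12, 13), (14, 15), (14, 18), (15, 17), (16, 17), (16, 19), (18, 19), (18, 20)], D 2 5 20 18 14 8, [some (0, [0, 1, 2, 3, 4, 5, 6, 7, 8, 9, 10, 11, 12, 13, 14, 15, 16, 17, 18, 19, 20, 21])]⟩,
  ⟨22, 1731222, [(0, 1), (0, 2), (0, 11), (1, 3), (1, 6), (2, 5), (2, 8), (3, 4), (3, 9), (4, 5), (4, 12), (5, 20), (6, 7), (6, 13), (7, 8), (7, 16), (8, 14), (9, 10), (10, 11), (10, 13), (11, 15), (12, 13), (14, 15), (14, 18), (15, 17), (16, 17), (16, 19), (17, 21), (18, 19), (18, 20), (20, 21)], D 3 4 12 13 10 9, [some (1, [0, 1, 2, 3, 4, 5, 6, 7, 8, 9, 10, 11, 12, 13, 14, 15, 16, 17, 18, 19, 20, 21]), some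 (0, [0, 1, 2, 3, 4, 5, 6, 7, 8, 9, 10, 11, 12, 13, 14, 15, 16, 17, 18, 19, 20, 21, 22, 23])]⟩,
  ⟨24, 10119830, [(0, 1), (0, 2), (0, 11), (1, 3), (1, 6), (2, 5), (2, 8), (3, 4), (3, 9), (4, 5), (4, 12), (5, 20), (6, 7), (6, 13), (7, 8), (7, 16), (8, 14), (9, 10), (9, 22), (10, 11), (10, 13), (11, 15), (12, 13), (12, 23), (14, 15), (14, 18), (15, 17), (16, 17), (16, 19), (17, 21), (18, 19), (18, 20), (20, 21), (22, 23)], D 9 10 13 12 23 22, []⟩,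
  ⟨22, 1731222, [(0, 1), (0, 2), (0, 11), (1, 3), (1, 6), (2, 5), (2, 8), (3, 4), (3, 9), (4, 5), (4, 12), (5, 20), (6, 7), (6, 13), (7, 8), (7, 16), (8, 14), (9, 10), (9, 21), (10, 11), (10, 13), (11, 15), (12, 13), (14, 15), (14, 18), (15, 17), (16, 17), (16, 19), (17, 21), (18, 19), (18, 20), (20, 21)], D 9 10 11 15 17 21, []⟩,
  ⟨14, 10902, [(0, 1), (0, 2), (0, 11), (1, 3), (1, 6), (2, 5), (2, 8), (3, 4), (3, 9), (4, 5), (4, 12), (6, 7), (6, 13), (7, 8), (9, 10), (10, 11), (11, 12), (12, 13)], D 6 7 8 2 0 1, [some (6, [0, 1, 2, 6, 7, 8, 3, 4, 5, 13, 12, 11, 14, 9, 10]), some (0, [0, 1, 2, 3, 4, 5, 6, 7, 8, 9, 10, 11, 12, 13]), some (6, [1, 0, 6, 2, 8, 7, 11, 12, 13, 5, 4, 3, 14, 10, 9]), some (0, [1, 0, 6, 2, 8, 7, 11, 12, 13, 5, 4, 3, 9, 10]), some (0, [0, 1, 2, 3, 4, 5, 6, 7, 8, 9, 10,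 11, 12, 13]), some (0, [1, 0, 6, 2, 8, 7, 11, 12, 13, 5, 4, 3, 9, 10])]⟩,
  ⟨14, 10902, [(0, 1), (0, 2), (0, 11), (1, 3), (1, 6), (2, 5), (2, 8), (3, 4), (3, 9), (4, 5), (4, 12), (6, 7), (6, 13), (7, 8), (7, 10), (9, 10), (10, 11), (11, 12), (12, 13)], H 5 2 8, [some (0, [0, 1, 2, 3, 4, 5, 6, 7, 8, 9, 10, 11, 12, 13, 14, 15, 16])]⟩,
  ⟨17, 92822, [(0, 1), (0, 2), (0, 11), (1, 3), (1, 6), (2, 5), (2, 8), (3, 4), (3, 9), (4, 5), (4, 12), (5, 14), (6, 7), (6, 13), (7, 8), (7, 10), (8, 16), (9, 10), (10, 11), (11, 12), (12, 13), (14, 15), (15, 16)], D 2 5 14 15 16 8, [some (0, [0, 1, 2, 3, 4, 5, 6, 7, 8, 9, 10, 11, 12, 13, 14, 15, 16, 17, 18, 19])]⟩,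
  ⟨20, 354966, [(0, 1), (0, 2), (0, 11), (1, 3), (1, 6), (2, 5), (2, 8), (3, 4), (3, 9), (4, 5), (4, 12), (5, 14), (6, 7), (6, 13), (7, 8), (7, 10), (8, 16), (9, 10), (10, 11), (11, 12), (12, 13), (14, 15), (14, 17), (15, 16), (16, 19), (17, 18), (18, 19)], D 5 14 15 16 8 2, [some (0, [0, 1, 2, 3, 4, 5, 6, 7, 8, 9, 10, 11, 12, 13, 14, 15, 16, 17, 18, 19]), some (0, [0, 1, 2, 6, 7, 8, 3, 4, 5, 13, 12, 11, 10, 9, 16, 15, 14, 19, 18, 17])]⟩,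
  ⟨20, 354966, [(0, 1), (0, 2), (0, 11), (1, 3), (1, 6), (2, 5), (2, 8), (3, 4), (3, 9), (4, 5), (4, 12), (5, 14), (6, 7), (6, 13), (7, 8), (7, 10), (8, 16), (9, 10), (10, 11), (11, 12), (12, 13), (13, 15), (14, 15), (14, 17), (15, 16), (16, 19), (17, 18), (18, 19)], D 14 15 16 19 18 17, []⟩,
  ⟨15, 10902, [(0, 1), (0, 2), (0, 11), (1, 3), (1, 6), (2, 5), (2, 8), (3, 4), (3, 9), (4, 5), (4, 12), (6, 7), (6, 13), (7, 8), (9, 10), (10, 11), (11, 14), (12, 13), (13, 14)], D 1 3 4 12 13 6, [some (12, [0, 1, 2, 3, 4, 5, 6, 7, 8, 9, 10, 11, 12, 13, 14, 15]), some (1, [0, 1, 2, 3, 4, 5, 6, 7, 8, 9, 10, 11, 12, 13, 14]), some (1, [0, 1, 11, 6, 13, 14, 3, 9, 10, 7, 8, 2, 12, 4, 5]), some (0, [0, 1, 2, 3, 4, 5, 6, 7, 8, 9, 10, 11, 12, 13, 14, 15])]⟩,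
  ⟨16, 43670, [(0, 1), (0, 2), (0, 11), (1, 3), (1, 6), (2, 5), (2, 8), (3, 4), (3, 9), (4, 5), (4, 12), (5, 15), (6, 7), (6, 13), (7, 8), (9, 10), (10, 11), (11, 14), (12, 13), (13, 14), (14, 15)], D 3 9 10 11 0 1, [some (12, [3, 1, 4, 0, 2, 5, 6, 13, 12, 11, 10, 9, 8, 7, 16, 14, 15]), some (7, [0, 1, 11, 6, 13, 14, 3, 9, 10, 7, 8, 2, 12, 4, 5, 15]), some (12, [2, 0, 5, 1, 3, 4, 11, 14, 15, 6, 7, 8, 9, 10, 16, 13, 12]), some (7, [0, 1, 2, 3, 4, 5, 6, 7, 8, 9, 10, 11, 12, 13, 14, 15]), some (7, [0, 1, 11, 6, 13, 14, 3, 9, 10, 7, 8, 2, 12, 4, 5, 15]), some (7, [0, 1, 2, 3, 4, 5, 6, 7, 8, 9, 10, 11, 12, 13, 14, 15])]⟩,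
  ⟨15, 10902, [(0, 1), (0, 2), (0, 11), (1, 3), (1, 6), (2, 5), (2, 8), (3, 4), (3, 9), (4, 5), (4, 12), (6, 7), (6, 13), (7, 8), (7, 10), (9, 10), (10, 11), (11, 14), (12, 13), (13, 14)], D 0 2 8 7 10 11, [some (6, [0, 1, 2, 3, 4, 5, 6, 7, 8, 9, 10, 11, 12, 13, 14, 15]), some (2, [0, 1, 2, 3, 4, 5, 6, 7, 8, 9, 10, 11, 12, 13, 14, 15, 16]), some (0, [0, 1, 2, 3, 4, 5, 6, 7, 8, 9, 10, 11, 12, 13, 14, 15])]⟩,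
  ⟨16, 43670, [(0, 1), (0, 2), (0, 11), (1, 3), (1, 6), (2, 5), (2, 8), (3, 4), (3, 9), (4, 5), (4, 12), (6, 7), (6, 13), (7, 8), (7, 10), (8, 15), (9, 10), (10, 11), (11, 14), (12, 13), (13, 14), (14, 15)], H 5 2 8, [some (0, [0, 1, 2, 3, 4, 5, 6, 7, 8, 9, 10, 11, 12, 13, 14, 15, 16, 17])]⟩,
  ⟨18, 109206, [(0, 1), (0, 2), (0, 11), (1, 3), (1, 6), (2, 5), (2, 8), (3, 4), (3, 9), (4, 5), (4, 12), (5, 16), (6, 7), (6, 13), (7, 8), (7, 10), (8, 15), (9, 10), (10, 11), (11, 14), (12, 13), (13, 14), (14, 15), (15, 17), (16, 17)], D 2 5 16 17 15 8, []⟩,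
  ⟨17, 43670, [(0, 1), (0, 2), (0, 11), (1, 3), (1, 6), (2, 5), (2, 8), (3, 4), (3, 9), (4, 5), (4, 12), (6, 7), (6, 13), (7, 8), (7, 10), (8, 15), (9, 10), (9, 16), (10, 11), (11, 14), (12, 13), (13, 14), (15, 16)], D 6 7 10 11 14 13, [some (4, [1, 6, 3, 13, 12, 4, 7, 10, 9, 14, 11, 0, 15, 8, 2, 5, 16]), some (2, [0, 1, 2, 3, 4, 5, 6, 7, 8, 9, 10, 11, 12, 13, 14, 15, 16, 17]), some (0, [0, 1, 2, 3, 4, 5, 6, 7, 8, 9, 10, 11, 12, 13, 14, 15, 16]), some (0, [0, 1, 2, 3, 4, 5, 6, 7, 8, 9, 10, 11, 12, 13, 14, 15, 16])]⟩,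
  ⟨17, 43670, [(0, 1), (0, 2), (0, 11), (1, 3), (1, 6), (2, 5), (2, 8), (3, 4), (3, 9), (4, 5), (4, 12), (6, 7), (6, 13), (7, 8), (7, 10), (8, 15), (9, 10), (9, 16), (10, 11), (11, 14), (12, 13), (13, 14), (14, 15), (15, 16)], H 5 2 8, [some (0, [0, 1, 2, 3, 4, 5, 6, 7, 8, 9, 10, 11, 12, 13, 14, 15, 16, 17])]⟩,
  ⟨18, 174742, [(0, 1), (0, 2), (0, 11), (1, 3), (1, 6), (2, 5), (2, 8), (3, 4), (3, 9), (4, 5), (4, 12), (5, 17), (6, 7), (6, 13), (7, 8), (7, 10), (8, 15), (9, 10), (9, 16), (10, 11), (11, 14), (12, 13), (13, 14), (14, 15), (15, 16), (16, 17)], D 2 5 17 16 15 8, []⟩,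
  ⟨18, 174742, [(0, 1), (0, 2), (0, 11), (1, 3), (1, 6), (2, 5), (2, 8), (3, 4), (3, 9), (4, 5), (4, 12), (6, 7), (6, 13), (7, 8), (7, 10), (8, 15), (9, 10), (9, 16), (10, 11), (11, 14), (12, 13), (13, 14), (14, 17), (15, 16), (16, 17)], H 4 3 9, [some (3, [1, 6, 3, 13, 12, 4, 7, 10, 9, 14, 11, 0, 15, 8, 2, 5, 16, 17]), some (3, [1, 0, 3, 2, 5, 4, 11, 10, 9, 8, 7, 6, 17, 14, 13, 12, 16, 15])]⟩,
  ⟨16, 43670, [(0, 1), (0, 2), (0, 11), (1, 3), (1, 6), (2, 5), (2, 8), (3, 4), (3, 9), (4, 5), (4, 12), (5, 15), (6, 7), (6, 13), (7, 8), (7, 10), (9, 10), (10, 11), (11, 14), (12, 13), (13, 14), (14, 15)], D 6 7 10 11 14 13, [some (0, [0, 1, 2, 3, 4, 5, 6, 7, 8, 9, 10, 11, 12, 13, 14, 15, 16]), some (0, [1, 0, 3, 2, 5, 4, 11, 10, 9, 8, 7, 6, 15, 14, 13, 12, 16])]⟩,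
  ⟨17, 109206, [(0, 1), (0, 2), (0, 11), (1, 3), (1, 6), (2, 5), (2, 8), (3, 4), (3, 9), (4, 5), (4, 12), (5, 15), (6, 7), (6, 13), (7, 8), (7, 10), (8, 16), (9, 10), (10, 11), (11, 14), (12, 13), (12, 16), (13, 14), (14, 15)], D 2 5 4 12 16 8, [some (1, [0, 1, 2, 3, 4, 5, 6, 7, 8, 9, 10, 11, 12, 13, 14, 15, 16, 17]), some (0, [0, 1, 2, 3, 4, 5, 6, 7, 8, 9, 10, 11, 12, 13, 14, 15, 16, 17])]⟩,
  ⟨18, 109206, [(0, 1), (0, 2), (0, 11), (1, 3), (1, 6), (2, 5), (2, 8), (3, 4), (3, 9), (4, 5), (4, 12), (5, 15), (6, 7), (6, 13), (7, 8), (7, 10), (8, 16), (9, 10), (10, 11), (11, 14), (12, 13), (12, 16), (13, 14), (14, 15), (15, 17), (16, 17)], H 4 3 9, [none, none]⟩,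
  ⟨18, 109206, [(0, 1), (0, 2), (0, 11), (1, 3), (1, 6), (2, 5), (2, 8), (3, 4), (3, 9), (4, 5), (4, 12), (5, 15), (6, 7), (6, 13), (7, 8), (7, 10), (8, 16), (9, 10), (9, 17), (10, 11), (11, 14), (12, 13), (12, 16), (13, 14), (14, 15), (16, 17)], D 3 4 12 16 17 9, [none, none]⟩,
  ⟨16, 10902, [(0, 1), (0, 2), (0, 11), (1, 3), (1, 6), (2, 5), (2, 8), (3, 4), (3, 9), (4, 5), (4, 12), (6, 7), (6, 13), (7, 8), (7, 15), (9, 10), (9, 15), (10, 11), (11, 14), (12, 13), (13, 14)], H 5 2 8, [some (6, [0, 1, 2, 3, 4, 5, 6, 7, 8, 9, 10, 11, 12, 13, 14, 15, 16, 17, 18]), some (0, [0, 1, 2, 3, 4, 5, 6, 7, 8, 9, 10, 11, 12, 13, 14, 15, 16]), some (0, [0, 1, 2, 6, 7, 8, 3, 4, 5, 13, 14, 11, 15, 9, 10, 12, 16])]⟩,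
  ⟨17, 76438, [(0, 1), (0, 2), (0, 11), (1, 3), (1, 6), (2, 5), (2, 8), (3, 4), (3, 9), (4, 5), (4, 12), (5, 16), (6, 7), (6, 13), (7, 8), (7, 15), (9, 10), (9, 15), (10, 11), (11, 14), (12, 13), (13, 14), (15, 16)], D 2 5 16 15 7 8, [some (2, [0, 1, 2, 3, 4, 5, 6, 7, 8, 9, 10, 11, 12, 13, 14, 15, 16, 17]), some (0, [0, 1, 2, 3, 4, 5, 6, 7, 8, 9, 10, 11, 12, 13, 14, 15, 16]), some (6, [0, 1, 2, 3, 4, 5, 6, 7, 8, 9, 10, 11, 12, 13, 14, 15, 16, 18, 17])]⟩,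
  ⟨17, 76438, [(0, 1), (0, 2), (0, 11), (1, 3), (1, 6), (2, 5), (2, 8), (3, 4), (3, 9), (4, 5), (4, 12), (5, 16), (6, 7), (6, 13), (7, 8), (7, 15), (9, 10), (9, 15), (10, 11), (11, 14), (12, 13), (13, 14), (14, 16), (15, 16)], E 8, [some (0, [0, 1, 2, 3, 4, 5, 6, 7, 8, 9, 10, 11, 12, 13, 14, 15, 16, 17])]⟩,
  ⟨18, 207510, [(0, 1), (0, 2), (0, 11), (1, 3), (1, 6), (2, 5), (2, 8), (3, 4), (3, 9), (4, 5), (4, 12), (5, 16), (6, 7), (6, 13), (7, 8), (7, 15), (8, 17), (9, 10), (9, 15), (10, 11), (11, 14), (12, 13), (13, 14), (14, 16), (15, 16)], H 7 8 17, [some (1, [2, 0, 5, 11, 14, 16, 1, 3, 4, 10, 17, 8, 13, 6, 7, 9, 15, 12]), some (1, [0, 1, 2, 3, 4, 5, 6, 7, 8, 9, 10, 11, 12, 13, 14, 15, 16, 17])]⟩,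
  ⟨18, 207510, [(0, 1), (0, 2), (0, 11), (1, 3), (1, 6), (2, 5), (2, 8), (3, 4), (3, 9), (4, 5), (4, 12), (5, 16), (6, 7), (6, 13), (7, 8), (7, 15), (8, 17), (9, 10), (9, 15), (10, 11), (11, 14), (12, 13), (12, 17), (13, 14), (15, 16)], D 4 12 17 8 2 5, [some (0, [0, 1, 2, 3, 4, 5, 6, 7, 8, 9, 10, 11, 12, 13, 14, 15, 16, 17]), some (0, [0, 1, 2, 6, 7, 8, 3, 4, 5, 13, 14, 11, 15, 9, 10, 12, 17, 16]), some (12, [3, 1, 4, 0, 2, 5, 6, 13, 12, 11, 10, 9, 8, 7, 15, 14, 16, 18, 17])]⟩,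
  ⟨18, 207510, [(0, 1), (0, 2), (0, 11), (1, 3), (1, 6), (2, 5), (2, 8), (3, 4), (3, 9), (4, 5), (4, 12), (5, 16), (6, 7), (6, 13), (7, 8), (7, 15), (8, 17), (9, 10), (9, 15), (10, 11), (11, 14), (12, 13), (12, 17), (13, 14), (14, 16), (15, 16)], E 10, [some (0, [0, 1, 2, 3, 4, 5, 6, 7, 8, 9, 10, 11, 12, 13, 14, 15, 16, 17, 18]), none]⟩,
  ⟨19, 469654, [(0, 1), (0, 2), (0, 11), (1, 3), (1, 6), (2, 5), (2, 8), (3, 4), (3, 9), (4, 5), (4, 12), (5, 16), (6, 7), (6, 13), (7, 8), (7, 15), (8, 17), (9, 10), (9, 15), (10, 11), (10, 18), (11, 14), (12, 13), (12, 17), (13, 14), (14, 16), (15, 16)], H 9 10 18, []⟩,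
  ⟨19, 338582, [(0, 1), (0, 2), (0, 11), (1, 3), (1, 6), (2, 5), (2, 8), (3, 4), (3, 9), (4, 5), (4, 12), (5, 16), (6, 7), (6, 13), (7, 8), (7, 15), (8, 18), (9, 10), (9, 15), (10, 11), (11, 14), (12, 13), (13, 14), (16, 17), (17, 18)], D 5 16 17 18 8 2, [some (6, [0, 1, 2, 3, 4, 5, 6, 7, 8, 9, 10, 11, 12, 13, 14, 15, 16, 17, 18]), some (2, [0, 1, 2, 3, 4, 5, 6, 7, 8, 9, 10, 11, 12, 13, 14, 15, 16, 17, 18]), some (1, [0, 1, 2, 3, 4, 5, 6, 7, 8, 9, 10, 11, 12, 13, 14, 15, 16, 17, 18, 19]), some (0, [0, 1, 2, 3, 4, 5, 6, 7, 8, 9, 10, 11, 12, 13, 14, 15, 16, 17, 18])]⟩,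
  ⟨19, 338582, [(0, 1), (0, 2), (0, 11), (1, 3), (1, 6), (2, 5), (2, 8), (3, 4), (3, 9), (4, 5), (4, 12), (5, 16), (6, 7), (6, 13), (7, 8), (7, 15), (8, 18), (9, 10), (9, 15), (10, 11), (11, 14), (12, 13), (13, 14), (15, 16), (16, 17), (17, 18)], D 16 17 18 8 2 5, [some (5, [3, 1, 4, 0, 2, 5, 6, 13, 12, 11, 10, 9, 8, 7, 15, 14, 16, 17, 19]), some (2, [0, 1, 2, 6, 7, 8, 3, 4, 5, 13, 14, 11, 15, 9, 10, 12, 18, 17, 16]), some (8, [0, 1, 2, 6, 7, 8, 3, 4, 5, 13, 14, 11, 15, 9, 10, 12, 18, 17, 16]), some (8, [3, 1, 4, 0, 2, 5, 6, 13, 12, 11, 10, 9, 8, 7, 15, 14, 16, 17, 18])]⟩,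
  ⟨20, 862870, [(0, 1), (0, 2), (0, 11), (1, 3), (1, 6), (2, 5), (2, 8), (3, 4), (3, 9), (4, 5), (4, 12), (5, 16), (6, 7), (6, 13), (7, 8), (7, 15), (8, 18), (9, 10), (9, 15), (10, 11), (11, 14), (12, 13), (13, 14), (15, 19), (16, 17), (17, 18), (17, 19)], D 16 17 18 8 2 5, [some (0, [3, 1, 4, 6, 13, 12, 0, 2, 5, 7, 15, 9, 14, 11, 10, 8, 19, 17, 16]), some (0, [0, 1, 2, 6, 7, 8, 3, 4, 5, 13, 14, 11, 15, 9, 10, 12, 18, 17, 16]), some (4, [0, 1, 2, 6, 7, 8, 3, 4, 5, 13, 14, 11, 15, 9, 10, 12, 18, 17, 16]), some (4, [6, 1, 7, 0, 2, 8, 3, 9, 15, 11, 14, 13, 5, 4, 12, 10, 18, 17, 19])]⟩,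
  ⟨19, 338582, [(0, 1), (0, 2), (0, 11), (1, 3), (1, 6), (2, 5), (2, 8), (3, 4), (3, 9), (4, 5), (4, 12), (5, 16), (6, 7), (6, 13), (7, 8), (7, 15), (8, 18), (9, 10), (9, 15), (10, 11), (10, 16), (11, 14), (12, 13), (13, 14), (16, 17), (17, 18)], D 2 5 16 17 18 8, [some (1, [0, 1, 2, 3, 4, 5, 6, 7, 8, 9, 10, 11, 12, 13, 14, 15, 16, 17, 18]), some (0, [0, 1, 2, 3, 4, 5, 6, 7, 8, 9, 10, 11, 12, 13, 14, 15, 16, 17, 18])]⟩,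
  ⟨19, 338582, [(0, 1), (0, 2), (0, 11), (1, 3), (1, 6), (2, 5), (2, 8), (3, 4), (3, 9), (4, 5), (4, 12), (5, 16), (6, 7), (6, 13), (7, 8), (7, 15), (8, 18), (9, 10), (9, 15), (10, 11), (10, 16), (11, 14), (12, 13), (12, 18), (13, 14), (16, 17), (17, 18)], H 8 7 15, [some (2, [6, 1, 7, 0, 2, 8, 3, 9, 15, 11, 14, 13, 5, 4, 12, 10, 18, 17, 19])]⟩,
  ⟨19, 338582, [(0, 1), (0, 2), (0, 11), (1, 3), (1, 6), (2, 5), (2, 8), (3, 4), (3, 9), (4, 5), (4, 12), (5, 16), (6, 7), (6, 13), (7, 8), (7, 15), (8, 18), (9, 10), (9, 15), (10, 11), (10, 16), (11, 14), (12, 13), (13, 14), (14, 18), (16, 17), (17, 18)], H 5 4 12, [some (0, [0, 1, 2, 3, 4, 5, 6, 7, 8, 9, 10, 11, 12, 13, 14, 15, 16, 17, 18, 19])]⟩,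
  ⟨20, 862870, [(0, 1), (0, 2), (0, 11), (1, 3), (1, 6), (2, 5), (2, 8), (3, 4), (3, 9), (4, 5), (4, 12), (5, 16), (6, 7), (6, 13), (7, 8), (7, 15), (8, 18), (9, 10), (9, 15), (10, 11), (10, 16), (11, 14), (12, 13), (12, 19), (13, 14), (14, 18), (16, 17), (17, 18), (17, 19)], D 4 5 16 17 19 12, [none]⟩,
  ⟨19, 338582, [(0, 1), (0, 2), (0, 11), (1, 3), (1, 6), (2, 5), (2, 8), (3, 4), (3, 9), (4, 5), (4, 12), (5, 16), (6, 7), (6, 13), (7, 8), (7, 15), (8, 18), (9, 10), (9, 15), (10, 11), (11, 14), (12, 13), (13, 14), (14, 16), (16, 17), (17, 18)], D 2 5 16 17 18 8, [some (2, [0, 1, 2, 3, 4, 5, 6, 7, 8, 9, 10, 11, 12, 13, 14, 15, 16, 17, 18]), some (0, [0, 1, 2, 3, 4, 5, 6, 7, 8, 9, 10, 11, 12, 13, 14, 15, 16, 17, 18]), some (2, [0, 1, 2, 3, 4, 5, 6, 7, 8, 9, 10, 11, 12, 13, 14, 15, 16, 17, 18])]⟩,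
  ⟨19, 338582, [(0, 1), (0, 2), (0, 11), (1, 3), (1, 6), (2, 5), (2, 8), (3, 4), (3, 9), (4, 5), (4, 12), (5, 16), (6, 7), (6, 13), (7, 8), (7, 15), (8, 18), (9, 10), (9, 15), (10, 11), (10, 18), (11, 14), (12, 13), (13, 14), (14, 16), (16, 17), (17, 18)], D 4 5 16 14 13 12, [some (0, [0, 1, 2, 3, 4, 5, 6, 7, 8, 9, 10, 11, 12, 13, 14, 15, 16, 17, 18, 19])]⟩,
  ⟨20, 862870, [(0, 1), (0, 2), (0, 11), (1, 3), (1, 6), (2, 5), (2, 8), (3, 4), (3, 9), (4, 5), (4, 12), (5, 16), (6, 7), (6, 13), (7, 8), (7, 15), (8, 18), (9, 10), (9, 15), (10, 11), (10, 18), (11, 14), (12, 13), (12, 19), (13, 14), (14, 16), (16, 17), (17, 18), (17, 19)], D 7 8 18 10 9 15, [none]⟩,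
  ⟨19, 338582, [(0, 1), (0, 2), (0, 11), (1, 3), (1, 6), (2, 5), (2, 8), (3, 4), (3, 9), (4, 5), (4, 12), (5, 16), (6, 7), (6, 13), (7, 8), (7, 15), (8, 18), (9, 10), (9, 15), (10, 11), (11, 14), (12, 13), (12, 18), (13, 14), (14, 16), (16, 17), (17, 18)], H 4 3 9, []⟩]

end Pool.Agent.Levi3.Loc
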