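import Pool.Agent.Levi3.LocCheck

/-!
Soundness of the certificate checker for the local lemma.
-/

namespace Pool.Agent.Levi3.Loc

open Finset

namespace St

theorem cnt_eq (f : ℕ → Bool) (k : ℕ) :
    cnt f k = ((Finset.range k).filter (fun i => f i = true)).card := by
  induction k with
  | zero => simp [cnt]
  | succ k ih =>
    rw [Finset.range_add_one, Finset.filter_insert]
    by_cases h : f k = true
    · simp [cnt, h, ih]
    · simp [cnt, h, ih]

theorem ex_iff (f : ℕ → Bool) (k : ℕ) : ex f k = true ↔ ∃ i, i < k ∧ f i = true := by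
  induction k with
  | zero => simp [ex]
  | succ k ih =>
    simp only [ex, Bool.or_eq_true, ih]
    constructor
    · rintro (h | ⟨i, hi, h⟩)
      · exact ⟨k, by omega, h⟩
      · exact ⟨i, by omega, h⟩
    · rintro ⟨i, hi, h⟩
      by_cases hk : i = k
      · left; rw [← hk]; exact h
      · right; exact ⟨i, by omega, h⟩

theorem al_iff (f : ℕ → Bool) (k : ℕ) : al f k = true ↔ ∀ i, i < k → f i = true := by
  induction k with
  | zero => simp [al]
  | succ k ih =>
    simp only [al, Bool.and_eq_true, ih]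
    constructor
    · rintro ⟨h1, h2⟩ i hi
      by_cases hk : i = k
      · rw [hk]; exact h1
      · exact h2 i (by omega)
    · intro h
      exact ⟨h k (by omega), fun i hi => h i (by omega)⟩

theorem mem_iff (w : ℕ) (l : List ℕ) : mem w l = true ↔ w ∈ l := by
  induction l with
  | nil => simp [mem]
  | cons a l ih => simp [mem, ih]

theorem testBit_setE (M a b c d : ℕ) (ha : a < 32) (hb : b < 32) (hc : c < 32) (hd : d < 32) :
    Nat.testBit (setE M a b) (32 * c + d) = true ↔
      (Nat.testBit M (32 * c + d) = true ∨ (c = a ∧ d = b) ∨ (c = b ∧ d = a)) := by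
  unfold setE
  rw [Nat.testBit_or, Nat.testBit_or, Nat.one_shiftLeft, Nat.one_shiftLeft,
    Nat.testBit_two_pow, Nat.testBit_two_pow]
  simp only [Bool.or_eq_true, decide_eq_true_eq]
  constructor
  · rintro ((h | h) | h)
    · exact Or.inl h
    · right; left; omega
    · right; right; omega
  · rintro (h | h | h)
    · exact Or.inl (Or.inl h)
    · left; right; omega
    · right; omega

theorem nbeq_false (a b : ℕ) : Nat.beq a b = false ↔ a ≠ b := by
  constructor
  · intro h h1
    rw [h1, Nat.beq_refl] at h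
    cases h
  · intro h
    cases hh : Nat.beq a b
    · rfl
    · exact absurd (Nat.eq_of_beq_eq_true hh) h

theorem mem_bindL {α β : Type} (f : α → List β) (l : List α) (b : β) :
    b ∈ bindL f l ↔ ∃ a ∈ l, b ∈ f a := by
  induction l with
  | nil => simp [bindL]
  | cons a l ih => simp [bindL, ih]

theorem mem_nbL (g : St) (v k w : ℕ) : w ∈ nbL g v k ↔ w < k ∧ g.ad v w = true := by
  induction k with
  | zero => simp [nbL]
  | succ k ih =>
    unfold nbL
    cases h : g.ad v k
    · simp only [cond_false, ih]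
      constructor
      · rintro ⟨h1, h2⟩; exact ⟨by omega, h2⟩
      · rintro ⟨h1, h2⟩
        refine ⟨?_, h2⟩
        rcases Nat.lt_succ_iff_lt_or_eq.1 h1 with h3 | h3
        · exact h3
        · rw [h3, h] at h2; cases h2
    · simp only [cond_true, List.mem_cons, ih]
      constructor
      · rintro (h1 | ⟨h1, h2⟩)
        · rw [h1]; exact ⟨by omega, h⟩
        · exact ⟨by omega, h2⟩
      · rintro ⟨h1, h2⟩
        rcases Nat.lt_succ_iff_lt_or_eq.1 h1 with h3 | h3
        · exact Or.inr ⟨h3, h2⟩
        · exact Or.inl h3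

end St

open St

variable {V : Type} [Fintype V] [DecidableEq V]

/-- `φ` embeds the partial graph `g` into `K`, within distance `r` of `x`. -/
structure Emb (K : Inc V) (x : V) (r : ℕ) (g : St) (φ : ℕ → V) : Prop where
  le : g.n ≤ 31
  cl : g.T < 2 ^ g.n
  inj : ∀ a < g.n, ∀ b < g.n, φ a = φ b → a = b
  sym : ∀ a < 32, ∀ b < 32, g.ad a b = true → g.ad b a = true
  adj : ∀ a < 32, ∀ b < 32, g.ad a b = true → a < g.n ∧ b < g.n ∧ K.adj (φ a) (φ b)
  ty : ∀ a < g.n, ∀ b < g.n, (g.ty a = g.ty b ↔ K.typ (φ a) = K.typ (φ b))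
  nr : ∀ a < g.n, Near K r x (φ a)

theorem nmono {K : Inc V} {x y : V} {m n : ℕ} (h : m ≤ n) (hx : Near K m x y) :
    Near K n x y := by
  induction n with
  | zero =>
    have : m = 0 := by omega
    rw [this] at hx; exact hx
  | succ n ih =>
    rcases Nat.le_succ_iff.1 h with h1 | h1
    · exact Or.inl (ih h1)
    · rw [h1] at hx; exact hx

variable {K : Inc V} (hK : ∀ v, deg K univ v = 3) (hC : C4F K univ) {x : V} {r : ℕ} {g : St}
  {φ : ℕ → V}

theorem Emb.mono {s : ℕ} (h : Emb K x r g φ) (hs : r ≤ s) : Emb K x s g φ :=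
  ⟨h.le, h.cl, h.inj, h.sym, h.adj, h.ty, fun a ha => nmono hs (h.nr a ha)⟩

include hK in
theorem Emb.deg_lt (h : Emb K x r g φ) {a : ℕ} (ha : a < g.n) {y : V} (hy : K.adj (φ a) y)
    (hn : ∀ w, w < g.n → g.ad a w = true → φ w ≠ y) : g.dg a < 3 := by
  have hle := h.le
  by_contra hc
  have h1 : 3 ≤ g.dg a := by omega
  unfold dg at h1
  rw [cnt_eq] at h1
  set F := (Finset.range g.n).filter (fun i => g.ad a i = true) with hF
  have h2 : insert y (F.image φ) ⊆ nb K univ (φ a) := by
    intro z hz
    rw [mem_insert, mem_image] at hz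
    rw [mem_nb]
    refine ⟨mem_univ _, ?_⟩
    rcases hz with hz | ⟨w, hw, hz⟩
    · rw [hz]; exact hy
    · rw [hF, mem_filter, mem_range] at hw
      rw [← hz]
      exact (h.adj a (by omega) w (by omega) hw.2).2.2
  have h3 : y ∉ F.image φ := by
    intro hy2
    rw [mem_image] at hy2
    obtain ⟨w, hw, hz⟩ := hy2
    rw [hF, mem_filter, mem_range] at hw
    exact hn w hw.1 hw.2 hz
  have h4 : (F.image φ).card = F.card := by
    apply card_image_of_injOn
    intro i hi j hj hij
    rw [hF, coe_filter] at hi hj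
    exact h.inj i (mem_range.1 hi.1) j (mem_range.1 hj.1) hij
  have h5 := card_le_card h2
  rw [card_insert_of_notMem h3, h4] at h5
  have h6 := hK (φ a)
  unfold deg at h6
  omega

include hK hC in
theorem Emb.ok (h : Emb K x r g φ) {a b : ℕ} (ha : a < g.n) (hb : b < g.n)
    (hab : K.adj (φ a) (φ b)) (hn : g.ad a b = false) : g.ok a b = true := by
  have hle := h.le
  have hn' : g.ad b a = false := by
    cases hh : g.ad b a
    · rfl
    · rw [h.sym b (by omega) a (by omega) hh] at hn; cases hn
  unfold St.ok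
  simp only [Bool.and_eq_true, Nat.blt_eq]
  refine ⟨?_, ?_, ?_, ?_⟩
  · have h1 := K.bip hab
    have h2 : ¬ (g.ty a = g.ty b) := fun h3 => h1 ((h.ty a ha b hb).1 h3)
    simpa using h2
  · apply h.deg_lt hK ha hab
    intro w hw haw hwb
    rw [h.inj w hw b hb hwb, hn] at haw
    cases haw
  · apply h.deg_lt hK hb (K.symm hab)
    intro w hw haw hwb
    rw [h.inj w hw a ha hwb, hn'] at haw
    cases haw
  · cases hc : g.c4 a b
    · rfl
    · exfalso
      unfold c4 at hc
      rw [ex_iff] at hc
      obtain ⟨z, hz, hc⟩ := hc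
      rw [Bool.and_eq_true, ex_iff] at hc
      obtain ⟨haz, w, hw, hc⟩ := hc
      simp only [Bool.and_eq_true, Bool.not_eq_true', nbeq_false] at hc
      obtain ⟨hzw, hwb, hwa, hzb⟩ := hc
      have e1 := (h.adj a (by omega) z (by omega) haz).2.2
      have e2 := (h.adj z (by omega) w (by omega) hzw).2.2
      have e3 := (h.adj w (by omega) b (by omega) hwb).2.2
      rcases hC (φ a) (mem_univ _) (φ z) (mem_univ _) (φ w) (mem_univ _) (φ b) (mem_univ _)
        e1 e2 e3 (K.symm hab) with h1 | h1
      · exact hwa (h.inj a ha w hw h1).symm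
      · exact hzb (h.inj z hz b hb h1)

theorem Emb.add (h : Emb K x r g φ) {a b : ℕ} (ha : a < g.n) (hb : b < g.n)
    (hab : K.adj (φ a) (φ b)) : Emb K x r (g.add a b) φ := by
  have hle := h.le
  refine ⟨h.le, h.cl, h.inj, ?_, ?_, h.ty, h.nr⟩
  · intro c hc d hd hcd
    unfold St.add ad at hcd ⊢
    rw [testBit_setE _ _ _ _ _ (by omega) (by omega) (by omega) (by omega)] at hcd ⊢
    rcases hcd with h1 | h1 | h1
    · exact Or.inl (h.sym c hc d hd h1)
    · exact Or.inr (Or.inr ⟨h1.2, h1.1⟩)
    · exact Or.inr (Or.inl ⟨h1.2, h1.1⟩)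
  · intro c hc d hd hcd
    unfold St.add ad at hcd
    rw [testBit_setE _ _ _ _ _ (by omega) (by omega) (by omega) (by omega)] at hcd
    show c < g.n ∧ d < g.n ∧ _
    rcases hcd with h1 | h1 | h1
    · exact h.adj c hc d hd h1
    · rw [h1.1, h1.2]; exact ⟨ha, hb, hab⟩
    · rw [h1.1, h1.2]; exact ⟨hb, ha, K.symm hab⟩

theorem Emb.new (h : Emb K x r g φ) {a : ℕ} (ha : a < g.n) (hn : g.n < 31) {y : V}
    (hy : K.adj (φ a) y) (hyn : ∀ w, w < g.n → φ w ≠ y) :
    Emb K x (r + 1) (g.new a) (Function.update φ g.n y) := by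
  have hle := h.le
  have hup : ∀ w, w < g.n → Function.update φ g.n y w = φ w := by
    intro w hw
    rw [Function.update_of_ne (by omega)]
  have hupn : Function.update φ g.n y g.n = y := by simp
  have hTn : g.T.testBit g.n = false := Nat.testBit_lt_two_pow h.cl
  have htyn : (g.new a).ty g.n = !(g.ty a) := by
    show Nat.testBit (bif g.T.testBit a then g.T else g.T ||| (1 <<< g.n)) g.n =
      !(g.T.testBit a)
    cases hh : g.T.testBit a
    · simp [hTn, Nat.testBit_or, Nat.one_shiftLeft, Nat.testBit_two_pow]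
    · simp [hTn]
  have htyo : ∀ w, w < g.n → (g.new a).ty w = g.ty w := by
    intro w hw
    show Nat.testBit (bif g.T.testBit a then g.T else g.T ||| (1 <<< g.n)) w = g.T.testBit w
    cases hh : g.T.testBit a
    · simp only [cond_false, Nat.testBit_or, Nat.one_shiftLeft, Nat.testBit_two_pow]
      have : ¬ (g.n = w) := by omega
      simp [this]
    · simp
  have hKty : K.typ y = !(K.typ (φ a)) := by
    have := K.bip hy
    cases h1 : K.typ y <;> cases h2 : K.typ (φ a) <;> simp_all
  refine ⟨?_, ?_, ?_, ?_, ?_, ?_, ?_⟩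
  · show g.n + 1 ≤ 31
    omega
  · show (bif g.ty a then g.T else g.T ||| (1 <<< g.n)) < 2 ^ (g.n + 1)
    have h1 := h.cl
    have h2 : 2 ^ g.n < 2 ^ (g.n + 1) := Nat.pow_lt_pow_right (by norm_num) (by omega)
    cases g.ty a
    · simp only [cond_false]
      apply Nat.or_lt_two_pow (by omega)
      rw [Nat.one_shiftLeft]
      exact h2
    · simp only [cond_true]
      omega
  · intro c hc d hd hcd
    have hc' : c < g.n + 1 := hc
    have hd' : d < g.n + 1 := hd
    rcases Nat.lt_succ_iff_lt_or_eq.1 hc' with h1 | h1 <;>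
      rcases Nat.lt_succ_iff_lt_or_eq.1 hd' with h2 | h2
    · rw [hup c h1, hup d h2] at hcd
      exact h.inj c h1 d h2 hcd
    · rw [hup c h1, h2, hupn] at hcd
      exact absurd hcd (hyn c h1)
    · rw [hup d h2, h1, hupn] at hcd
      exact absurd hcd.symm (hyn d h2)
    · omega
  · intro c hc d hd hcd
    unfold St.new ad at hcd ⊢
    rw [testBit_setE _ _ _ _ _ (by omega) (by omega) (by omega) (by omega)] at hcd ⊢
    rcases hcd with h1 | h1 | h1
    · exact Or.inl (h.sym c hc d hd h1)
    · exact Or.inr (Or.inr ⟨h1.2, h1.1⟩)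
    · exact Or.inr (Or.inl ⟨h1.2, h1.1⟩)
  · intro c hc d hd hcd
    unfold St.new ad at hcd
    rw [testBit_setE _ _ _ _ _ (by omega) (by omega) (by omega) (by omega)] at hcd
    show c < g.n + 1 ∧ d < g.n + 1 ∧ _
    rcases hcd with h1 | h1 | h1
    · obtain ⟨h2, h3, h4⟩ := h.adj c hc d hd h1
      rw [hup c h2, hup d h3]
      exact ⟨by omega, by omega, h4⟩
    · rw [h1.1, h1.2, hup a ha, hupn]
      exact ⟨by omega, by omega, hy⟩
    · rw [h1.1, h1.2, hup a ha, hupn]
      exact ⟨by omega, by omega, K.symm hy⟩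
  · intro c hc d hd
    have hc' : c < g.n + 1 := hc
    have hd' : d < g.n + 1 := hd
    rcases Nat.lt_succ_iff_lt_or_eq.1 hc' with h1 | h1 <;>
      rcases Nat.lt_succ_iff_lt_or_eq.1 hd' with h2 | h2
    · rw [hup c h1, hup d h2, htyo c h1, htyo d h2]
      exact h.ty c h1 d h2
    · rw [hup c h1, h2, hupn, htyo c h1, htyn, hKty]
      have := h.ty c h1 a ha
      cases h3 : g.ty c <;> cases h4 : g.ty a <;> cases h5 : K.typ (φ c) <;>
        cases h6 : K.typ (φ a) <;> simp_all
    · rw [hup d h2, h1, hupn, htyo d h2, htyn, hKty]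
      have := h.ty a ha d h2
      cases h3 : g.ty d <;> cases h4 : g.ty a <;> cases h5 : K.typ (φ d) <;>
        cases h6 : K.typ (φ a) <;> simp_all
    · rw [h1, h2]
      simp
  · intro c hc
    have hc' : c < g.n + 1 := hc
    rcases Nat.lt_succ_iff_lt_or_eq.1 hc' with h1 | h1
    · rw [hup c h1]
      exact nmono (by omega) (h.nr c h1)
    · rw [h1, hupn]
      exact Or.inr ⟨φ a, h.nr a ha, hy⟩

theorem mem_old (g : St) (c : ℕ) (l : List ℕ) (k w : ℕ) (hw : w < k) (hl : w ∉ l) :
    (g.ad c w = true → (g, w) ∈ old g c l k) ∧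
      (g.ad c w = false → g.ok c w = true → (g.add c w, w) ∈ old g c l k) := by
  induction k with
  | zero => omega
  | succ k ih =>
    unfold old
    rcases Nat.lt_succ_iff_lt_or_eq.1 hw with h1 | h1
    · obtain ⟨i1, i2⟩ := ih h1
      constructor
      · intro h
        have := i1 h
        cases mem k l
        · cases g.ad c k
          · cases g.ok c k
            · simpa using this
            · simp [this]
          · simp [this]
        · simpa using this
      · intro h h'
        have := i2 h h'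
        cases mem k l
        · cases g.ad c k
          · cases g.ok c k
            · simpa using this
            · simp [this]
          · simp [this]
        · simpa using this
    · subst h1
      have hm : mem w l = false := by
        cases hh : mem w l
        · rfl
        · rw [mem_iff] at hh; exact absurd hh hl
      constructor
      · intro h
        simp [hm, h]
      · intro h h'
        simp [hm, h, h']

include hK hC in
/-- soundness of `cands` -/
theorem Emb.cands (h : Emb K x r g φ) {c : ℕ} (hc : c < g.n) (hn : g.n < 31) (l : List ℕ)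
    (hl : ∀ e ∈ l, e < g.n) {y : V} (hy : K.adj (φ c) y) (hyl : y ∉ l.map φ) :
    ∃ s ∈ g.cands c l, ∃ φ' : ℕ → V, Emb K x (r + 1) s.1 φ' ∧ φ' s.2 = y ∧ s.2 < s.1.n ∧
      (∀ a < g.n, φ' a = φ a) ∧ g.n ≤ s.1.n ∧ s.1.n ≤ g.n + 1 := by
  by_cases hex : ∃ w, w < g.n ∧ φ w = y
  · obtain ⟨w, hw, hwy⟩ := hex
    subst hwy
    have hwl : w ∉ l := by
      intro hwl
      exact hyl (List.mem_map.2 ⟨w, hwl, rfl⟩)
    obtain ⟨m1, m2⟩ := mem_old g c l g.n w hw hwl
    have sub : ∀ s, s ∈ old g c l g.n → s ∈ g.cands c l := by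
      intro s hs
      unfold St.cands
      cases Nat.blt (g.dg c) 3
      · simpa using hs
      · simp [hs]
    cases had : g.ad c w
    · have hok := h.ok hK hC hc hw hy had
      exact ⟨_, sub _ (m2 had hok), φ, (h.add hc hw hy).mono (by omega), rfl, hw,
        fun a _ => rfl, le_rfl, by show g.n ≤ g.n + 1; omega⟩
    · exact ⟨_, sub _ (m1 had), φ, h.mono (by omega), rfl, hw, fun a _ => rfl, le_rfl, by
        show g.n ≤ g.n + 1; omega⟩
  · push Not at hex
    have hd : g.dg c < 3 := h.deg_lt hK hc hy (fun w hw _ => hex w hw)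
    refine ⟨(g.new c, g.n), ?_, Function.update φ g.n y, h.new hc hn hy hex, by simp, ?_, ?_, ?_, ?_⟩
    · unfold St.cands
      have : Nat.blt (g.dg c) 3 = true := by rw [Nat.blt_eq]; exact hd
      rw [this]
      simp
    · show g.n < g.n + 1
      omega
    · intro a ha
      exact Function.update_of_ne (by omega) _ _
    · show g.n ≤ g.n + 1
      omega
    · show g.n + 1 ≤ g.n + 1
      omega

/-- walks in `K` with inner vertices avoiding lists -/
def KWalk (K : Inc V) : List (List V) → V → V → Prop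
  | [], p, q => K.adj p q
  | l :: ls, p, q => ∃ y, K.adj p y ∧ y ∉ l ∧ KWalk K ls y q

include hK hC in
/-- soundness of `walk` -/
theorem walk_sound (q : ℕ) (ls : List (List ℕ)) : ∀ (g : St) (p : ℕ) (φ : ℕ → V) (r : ℕ),
    Emb K x r g φ → p < g.n → q < g.n → (∀ l ∈ ls, ∀ e ∈ l, e < g.n) →
    g.n + ls.length ≤ 31 → KWalk K (ls.map (fun l => l.map φ)) (φ p) (φ q) →
    ∃ g' ∈ walk p q g ls, ∃ φ' : ℕ → V, Emb K x (r + ls.length) g' φ' := by
  induction ls with
  | nil =>
    intro g p φ r h hp hq _ _ hw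
    have hw' : K.adj (φ p) (φ q) := hw
    unfold St.walk
    cases had : g.ad p q
    · have hok := h.ok hK hC hp hq hw' had
      rw [hok]
      exact ⟨g.add p q, by simp, φ, h.add hp hq hw'⟩
    · exact ⟨g, by simp, φ, h⟩
  | cons l ls ih =>
    intro g p φ r h hp hq hl hn hw
    obtain ⟨y, hy, hyl, hw⟩ := hw
    simp only [List.length_cons] at hn
    obtain ⟨s, hs, φ', h1, h2, h3, h4, h5, h6⟩ := h.cands hK hC hp (by omega) l
      (hl l (by simp)) hy hyl
    have e1 : φ' q = φ q := h4 q hq
    have e2 : ls.map (fun l => l.map φ') = ls.map (fun l => l.map φ) := by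
      apply List.map_congr_left
      intro l' hl'
      apply List.map_congr_left
      intro e he
      exact h4 e (hl l' (by simp [hl']) e he)
    obtain ⟨g', hg', φ'', h7⟩ := ih s.1 s.2 φ' (r + 1) h1 h3 (by omega)
      (fun l' hl' e he => lt_of_lt_of_le (hl l' (by simp [hl']) e he) h5) (by omega)
      (by rw [e2, h2, e1]; exact hw)
    refine ⟨g', ?_, φ'', ?_⟩
    · unfold St.walk
      rw [mem_bindL]
      exact ⟨s, hs, hg'⟩
    · have : r + (l :: ls).length = r + 1 + ls.length := by simp; omega
      rw [this]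
      exact h7

include hK in
/-- the third neighbour of a vertex -/
theorem third {w a b : V} (ha : K.adj w a) (hb : K.adj w b) (hab : a ≠ b) :
    ∃ c, K.adj w c ∧ c ≠ a ∧ c ≠ b ∧ ∀ y, K.adj w y → y = a ∨ y = b ∨ y = c := by
  have h1 := hK w
  unfold deg at h1
  have h2 : ({a, b} : Finset V) ⊆ nb K univ w := by
    intro z hz
    rw [mem_insert, mem_singleton] at hz
    rw [mem_nb]
    rcases hz with hz | hz <;> rw [hz]
    · exact ⟨mem_univ _, ha⟩
    · exact ⟨mem_univ _, hb⟩
  have h3 : (nb K univ w \ {a, b}).card = 1 := by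
    rw [card_sdiff_of_subset h2, h1, card_pair hab]
  rw [card_eq_one] at h3
  obtain ⟨c, hc⟩ := h3
  have h4 : c ∈ nb K univ w \ {a, b} := by rw [hc]; simp
  rw [mem_sdiff, mem_nb, mem_insert, mem_singleton] at h4
  refine ⟨c, h4.1.2, fun h => h4.2 (Or.inl h), fun h => h4.2 (Or.inr h), ?_⟩
  intro y hy
  by_cases h5 : y = a
  · exact Or.inl h5
  by_cases h6 : y = b
  · exact Or.inr (Or.inl h6)
  right; right
  have : y ∈ nb K univ w \ {a, b} := by
    rw [mem_sdiff, mem_nb, mem_insert, mem_singleton]
    exact ⟨⟨mem_univ _, hy⟩, by tauto⟩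
  rw [hc, mem_singleton] at this
  exact this

include hK in
/-- a 2-path without a fold lies in a hexagon -/
theorem hex_of_noR0 {A B W : V} (hA : K.adj W A) (hB : K.adj W B) (hAB : A ≠ B)
    (hno : ∀ C, ¬ LocR0 K A B W C) :
    ∃ x u y, K.adj A x ∧ K.adj x u ∧ K.adj u y ∧ K.adj y B ∧ x ≠ W ∧ y ≠ W ∧ u ≠ A ∧ u ≠ B := by
  obtain ⟨C, hC, hCA, hCB, honly⟩ := third hK hA hB hAB
  by_contra hcon
  push Not at hcon
  apply hno C
  refine ⟨hAB, hCA.symm, hCB.symm, hA, hB, hC, honly, ?_⟩
  intro x u y h1 h2 h3 h4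
  by_contra h5
  push Not at h5
  exact h5.2.2.2 (hcon x u y h1 h2 h3 h4 h5.1 h5.2.1 h5.2.2.1)

include hK in
/-- a hexagon without a fold in the direction of `v 0` -/
theorem noR1 (v : Fin 6 → V) (hinj : Function.Injective v) (hv : ∀ i, K.adj (v i) (v (i + 1)))
    (hno : ∀ a, ¬ LocR1 K v a) :
    ∃ a : Fin 6 → V, (∀ i, K.adj (v i) (a i)) ∧ (∀ i, a i ≠ v (i + 1)) ∧
      (∀ i, a i ≠ v (i - 1)) ∧ ((∃ u, K.adj (a 1) u ∧ K.adj (a 5) u) ∨
        (∃ u, K.adj (a 2) u ∧ K.adj (a 4) u) ∨ K.adj (a 1) (a 4) ∨ K.adj (a 2) (a 5)) := by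
  have h1 : ∀ i : Fin 6, ∃ c, K.adj (v i) c ∧ c ≠ v (i + 1) ∧ c ≠ v (i - 1) ∧
      ∀ y, K.adj (v i) y → y = v (i + 1) ∨ y = v (i - 1) ∨ y = c := by
    intro i
    refine third hK (hv i) ?_ ?_
    · have := hv (i - 1)
      rw [sub_add_cancel] at this
      exact K.symm this
    · intro h
      have h2 := hinj h
      have h3 : ∀ i : Fin 6, i + 1 ≠ i - 1 := by decide
      exact h3 i h2
  choose a ha using h1
  refine ⟨a, fun i => (ha i).1, fun i => (ha i).2.1, fun i => (ha i).2.2.1, ?_⟩
  by_contra hcon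
  push Not at hcon
  obtain ⟨c1, c2, c3, c4⟩ := hcon
  apply hno a
  exact ⟨hinj, hv, fun i => (ha i).1, fun i => (ha i).2.1, fun i => (ha i).2.2.1,
    fun i x hx => (ha i).2.2.2 x hx, fun u hu => c1 u hu.1 hu.2, fun u hu => c2 u hu.1 hu.2,
    c3, c4⟩

include hK hC in
/-- soundness of the operations -/
theorem op_sound {R : ℕ} (hno : ∀ f : Fold V, f.Loc K → ¬ Near K R x f.ctr)
    (h : Emb K x r g φ) (hr : r ≤ R) (hn : g.n < 28) (op : Op) (hp : op.pre g = true) :
    ∃ g' ∈ op.ch g, ∃ φ' : ℕ → V, Emb K x (r + 3) g' φ' := by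
  cases op with
  | E v =>
    unfold Op.pre at hp
    simp only [Bool.and_eq_true, Nat.blt_eq] at hp
    obtain ⟨hv, hd⟩ := hp
    have h1 : ∃ y, K.adj (φ v) y ∧ y ∉ (nbL g v g.n).map φ := by
      by_contra hcon
      push Not at hcon
      have h2 : nb K univ (φ v) ⊆
          ((Finset.range g.n).filter (fun i => g.ad v i = true)).image φ := by
        intro y hy
        rw [mem_nb] at hy
        have h3 := hcon y hy.2
        rw [List.mem_map] at h3
        obtain ⟨w, hw, hwy⟩ := h3
        rw [mem_nbL] at hw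
        rw [mem_image]
        exact ⟨w, by rw [mem_filter, mem_range]; exact hw, hwy⟩
      have h3 := (card_le_card h2).trans card_image_le
      have h4 := hK (φ v)
      unfold deg at h4
      unfold dg at hd
      rw [cnt_eq] at hd
      omega
    obtain ⟨y, hy, hyl⟩ := h1
    obtain ⟨s, hs, φ', h2, -⟩ := h.cands hK hC hv (by omega) (nbL g v g.n)
      (fun e he => (mem_nbL g v g.n e |>.1 he).1) hy hyl
    exact ⟨s.1, List.mem_map.2 ⟨s, hs, rfl⟩, φ', h2.mono (by omega)⟩
  | H a v b =>
    unfold Op.pre at hp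
    simp only [Bool.and_eq_true, Nat.blt_eq, Bool.not_eq_true', nbeq_false] at hp
    obtain ⟨hv, ha, hb, hva, hvb, hab⟩ := hp
    have e1 := (h.adj v (by omega) a (by omega) hva).2.2
    have e2 := (h.adj v (by omega) b (by omega) hvb).2.2
    have hne : φ a ≠ φ b := fun hh => hab (h.inj a ha b hb hh)
    obtain ⟨x', u, y, h1, h2, h3, h4, h5, h6, h7, h8⟩ := hex_of_noR0 hK e1 e2 hne
      (fun C hl => hno (Fold.r0 _ _ _ _) hl (nmono hr (h.nr v hv)))
    obtain ⟨g', hg', φ', h9⟩ := walk_sound hK hC b [[v], [a, b], [v]] g a φ r h ha hb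
      (by
        intro l hl e he
        simp only [List.mem_cons, List.not_mem_nil, or_false] at hl
        rcases hl with rfl | rfl | rfl <;>
          simp only [List.mem_cons, List.not_mem_nil, or_false] at he <;> omega)
      (by simp; omega)
      (by
        refine ⟨x', h1, by simpa using h5, u, h2, by simp [h7, h8], y, h3, by simpa using h6, h4⟩)
    exact ⟨g', hg', φ', h9⟩
  | D h0 h1 h2 h3 h4 h5 =>
    unfold Op.pre at hp
    simp only [Bool.and_eq_true, Nat.blt_eq, Bool.not_eq_true', nbeq_false] at hp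
    obtain ⟨⟨b0, b1, b2, b3, b4, b5⟩, ⟨a01, a12, a23, a34, a45, a50⟩, n02, n04, n24, n13, n15,
      n35⟩ := hp
    have e01 := (h.adj h0 (by omega) h1 (by omega) a01).2.2
    have e12 := (h.adj h1 (by omega) h2 (by omega) a12).2.2
    have e23 := (h.adj h2 (by omega) h3 (by omega) a23).2.2
    have e34 := (h.adj h3 (by omega) h4 (by omega) a34).2.2
    have e45 := (h.adj h4 (by omega) h5 (by omega) a45).2.2
    have e50 := (h.adj h5 (by omega) h0 (by omega) a50).2.2
    set v : Fin 6 → V := ![φ h0, φ h1, φ h2, φ h3, φ h4, φ h5] with hv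
    have m02 : φ h0 ≠ φ h2 := fun hh => n02 (h.inj _ b0 _ b2 hh)
    have m04 : φ h0 ≠ φ h4 := fun hh => n04 (h.inj _ b0 _ b4 hh)
    have m24 : φ h2 ≠ φ h4 := fun hh => n24 (h.inj _ b2 _ b4 hh)
    have m13 : φ h1 ≠ φ h3 := fun hh => n13 (h.inj _ b1 _ b3 hh)
    have m15 : φ h1 ≠ φ h5 := fun hh => n15 (h.inj _ b1 _ b5 hh)
    have m35 : φ h3 ≠ φ h5 := fun hh => n35 (h.inj _ b3 _ b5 hh)
    have t01 := K.bip e01
    have t12 := K.bip e12
    have t23 := K.bip e23
    have t34 := K.bip e34
    have t45 := K.bip e45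
    have t50 := K.bip e50
    have hinj : Function.Injective v := by
      have q01 : φ h0 ≠ φ h1 := fun hh => t01 (by rw [hh])
      have q12 : φ h1 ≠ φ h2 := fun hh => t12 (by rw [hh])
      have q23 : φ h2 ≠ φ h3 := fun hh => t23 (by rw [hh])
      have q34 : φ h3 ≠ φ h4 := fun hh => t34 (by rw [hh])
      have q45 : φ h4 ≠ φ h5 := fun hh => t45 (by rw [hh])
      have q50 : φ h5 ≠ φ h0 := fun hh => t50 (by rw [hh])
      have q03 : φ h0 ≠ φ h3 := fun hh => by
        rw [← hh] at t23
        cases k0 : K.typ (φ h0) <;> cases k1 : K.typ (φ h1) <;> cases k2 : K.typ (φ h2) <;>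
          simp_all
      have q14 : φ h1 ≠ φ h4 := fun hh => by
        rw [← hh] at t34
        cases k0 : K.typ (φ h1) <;> cases k1 : K.typ (φ h2) <;> cases k2 : K.typ (φ h3) <;>
          simp_all
      have q25 : φ h2 ≠ φ h5 := fun hh => by
        rw [← hh] at t45
        cases k0 : K.typ (φ h2) <;> cases k1 : K.typ (φ h3) <;> cases k2 : K.typ (φ h4) <;>
          simp_all
      intro i j hij
      fin_cases i <;> fin_cases j <;> simp [hv] at hij ⊢ <;>
        first
          | exact absurd hij (by assumption)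
          | exact absurd hij.symm (by assumption)
    have hadj : ∀ i, K.adj (v i) (v (i + 1)) := by
      intro i
      fin_cases i
      · exact e01
      · exact e12
      · exact e23
      · exact e34
      · exact e45
      · exact e50
    obtain ⟨a, ha, ha1, ha2, hor⟩ := noR1 hK v hinj hadj
      (fun a hl => hno (Fold.r1 v a) hl (nmono hr (h.nr h0 b0)))
    have A1 : K.adj (φ h1) (a 1) := ha 1
    have A2 : K.adj (φ h2) (a 2) := ha 2
    have A4 : K.adj (φ h4) (a 4) := ha 4
    have A5 : K.adj (φ h5) (a 5) := ha 5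
    have A12 : a 1 ≠ φ h2 := ha1 1
    have A10 : a 1 ≠ φ h0 := ha2 1
    have A23 : a 2 ≠ φ h3 := ha1 2
    have A21 : a 2 ≠ φ h1 := ha2 2
    have A45 : a 4 ≠ φ h5 := ha1 4
    have A43 : a 4 ≠ φ h3 := ha2 4
    have A50 : a 5 ≠ φ h0 := ha1 5
    have A54 : a 5 ≠ φ h4 := ha2 5
    unfold Op.ch
    rcases hor with ⟨u, hu1, hu2⟩ | ⟨u, hu1, hu2⟩ | hu | hu
    · obtain ⟨g', hg', φ', h9⟩ := walk_sound hK hC h5 [[h0, h2], [], [h0, h4]] g h1 φ r h b1 b5
        (by
          intro l hl e he
          simp only [List.mem_cons, List.not_mem_nil, or_false] at hl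
          rcases hl with rfl | rfl | rfl <;>
            simp only [List.mem_cons, List.not_mem_nil, or_false] at he <;> omega)
        (by simp; omega)
        ⟨a 1, A1, by simp [A10, A12], u, hu1, by simp, a 5, K.symm hu2, by simp [A50, A54],
          K.symm A5⟩
      exact ⟨g', by simp [hg'], φ', h9⟩
    · obtain ⟨g', hg', φ', h9⟩ := walk_sound hK hC h4 [[h1, h3], [], [h3, h5]] g h2 φ r h b2 b4
        (by
          intro l hl e he
          simp only [List.mem_cons, List.not_mem_nil, or_false] at hl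
          rcases hl with rfl | rfl | rfl <;>
            simp only [List.mem_cons, List.not_mem_nil, or_false] at he <;> omega)
        (by simp; omega)
        ⟨a 2, A2, by simp [A21, A23], u, hu1, by simp, a 4, K.symm hu2, by simp [A43, A45],
          K.symm A4⟩
      exact ⟨g', by simp [hg'], φ', h9⟩
    · obtain ⟨g', hg', φ', h9⟩ := walk_sound hK hC h4 [[h0, h2], [h3, h5]] g h1 φ r h b1 b4
        (by
          intro l hl e he
          simp only [List.mem_cons, List.not_mem_nil, or_false] at hl
          rcases hl with rfl | rfl <;>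
            simp only [List.mem_cons, List.not_mem_nil, or_false] at he <;> omega)
        (by simp; omega)
        ⟨a 1, A1, by simp [A10, A12], a 4, hu, by simp [A43, A45], K.symm A4⟩
      exact ⟨g', by simp [hg'], φ', h9.mono (by simp)⟩
    · obtain ⟨g', hg', φ', h9⟩ := walk_sound hK hC h2 [[h4, h0], [h1, h3]] g h5 φ r h b5 b2
        (by
          intro l hl e he
          simp only [List.mem_cons, List.not_mem_nil, or_false] at hl
          rcases hl with rfl | rfl <;>
            simp only [List.mem_cons, List.not_mem_nil, or_false] at he <;> omega)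
        (by simp; omega)
        ⟨a 5, A5, by simp [A50, A54], a 2, K.symm hu, by simp [A21, A23], K.symm A2⟩
      exact ⟨g', by simp [hg'], φ', h9.mono (by simp)⟩

/-- bits of the adjacency matrix of a node -/
theorem foldE (E : List (ℕ × ℕ)) : ∀ (M : ℕ), (∀ e ∈ E, e.1 < 32 ∧ e.2 < 32) → ∀ a < 32, ∀ b < 32,
    (Nat.testBit (E.foldl (fun M e => setE M e.1 e.2) M) (32 * a + b) = true ↔
      Nat.testBit M (32 * a + b) = true ∨ (a, b) ∈ E ∨ (b, a) ∈ E) := by
  induction E with
  | nil => intro M _ a _ b _; simp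
  | cons e E ih =>
    intro M hE a ha b hb
    rw [List.foldl_cons, ih _ (fun e he => hE e (by simp [he])) a ha b hb,
      testBit_setE _ _ _ _ _ (hE e (by simp)).1 (hE e (by simp)).2 ha hb]
    obtain ⟨e1, e2⟩ := e
    simp only [List.mem_cons, Prod.mk.injEq]
    tauto

/-- establishing an embedding of the graph of a node -/
theorem Emb.ofNode (nd : Node) (hn : nd.n ≤ 31) (hT : nd.T < 2 ^ nd.n)
    (hinj : ∀ a < nd.n, ∀ b < nd.n, φ a = φ b → a = b)
    (hE : ∀ e ∈ nd.E, e.1 < nd.n ∧ e.2 < nd.n ∧ K.adj (φ e.1) (φ e.2))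
    (hty : ∀ a < nd.n, ∀ b < nd.n,
      (nd.T.testBit a = nd.T.testBit b ↔ K.typ (φ a) = K.typ (φ b)))
    (hnr : ∀ a < nd.n, Near K r x (φ a)) : Emb K x r nd.st φ := by
  have key : ∀ a < 32, ∀ b < 32, (nd.st.ad a b = true ↔ (a, b) ∈ nd.E ∨ (b, a) ∈ nd.E) := by
    intro a ha b hb
    unfold Node.st ad
    rw [foldE nd.E 0 (fun e he => ⟨by have := (hE e he).1; omega, by
      have := (hE e he).2.1; omega⟩) a ha b hb]
    simp
  refine ⟨hn, hT, hinj, ?_, ?_, hty, hnr⟩
  · intro a ha b hb h
    rw [key a ha b hb] at h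
    rw [key b hb a ha]
    exact h.symm
  · intro a ha b hb h
    rw [key a ha b hb] at h
    show a < nd.n ∧ b < nd.n ∧ _
    rcases h with h | h
    · exact hE _ h
    · have := hE _ h
      exact ⟨this.2.1, this.1, K.symm this.2.2⟩

theorem at'_mem (m : List ℕ) (a : ℕ) (ha : a < m.length) : at' m a ∈ m := by
  induction m generalizing a with
  | nil => simp at ha
  | cons b m ih =>
    cases a with
    | zero => simp [at']
    | succ a =>
      simp only [at', List.mem_cons]
      right
      exact ih a (by simpa using ha)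

theorem at'_inj (m : List ℕ) (hm : nodup m = true) (a b : ℕ) (ha : a < m.length)
    (hb : b < m.length) (hab : at' m a = at' m b) : a = b := by
  induction m generalizing a b with
  | nil => simp at ha
  | cons c m ih =>
    simp only [nodup, Bool.and_eq_true, Bool.not_eq_true'] at hm
    have hc : c ∉ m := by
      intro hc
      rw [← mem_iff, hm.1] at hc
      cases hc
    cases a with
    | zero =>
      cases b with
      | zero => rfl
      | succ b =>
        exfalso
        simp only [at'] at hab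
        rw [hab] at hc
        exact hc (at'_mem m b (by simpa using hb))
    | succ a =>
      cases b with
      | zero =>
        exfalso
        simp only [at'] at hab
        rw [← hab] at hc
        exact hc (at'_mem m a (by simpa using ha))
      | succ b =>
        simp only [at'] at hab
        rw [ih hm.2 a b (by simpa using ha) (by simpa using hb) hab]

/-- soundness of `embOk` -/
theorem Emb.embOk (h : Emb K x r g φ) (t : Node) (m : List ℕ) (hm : embOk t g m = true) :
    Emb K x r t.st (fun a => φ (at' m a)) := by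
  unfold Loc.embOk at hm
  simp only [Bool.and_eq_true, Nat.ble_eq, Nat.blt_eq, List.all_eq_true, Bool.or_eq_true,
    al_iff, Nat.beq_eq] at hm
  obtain ⟨⟨⟨h31, hT⟩, hlen⟩, hnd, hlt, hE, hty⟩ := hm
  have hat : ∀ a < t.n, at' m a < g.n := fun a ha => hlt _ (at'_mem m a (by omega))
  have hle := h.le
  apply Emb.ofNode t h31 hT
  · intro a ha b hb hab
    exact at'_inj m hnd a b (by omega) (by omega) (h.inj _ (hat a ha) _ (hat b hb) hab)
  · intro e he
    obtain ⟨h1, h2, h3⟩ := hE e he
    have h4 := hat _ h1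
    have h5 := hat _ h2
    exact ⟨h1, h2, (h.adj _ (by omega) _ (by omega) h3).2.2⟩
  · intro a ha b hb
    have h1 := h.ty _ (hat a ha) _ (hat b hb)
    rw [← h1]
    rcases hty with h2 | h2
    · have h3 := h2 a ha
      have h4 := h2 b hb
      cases k1 : t.T.testBit a <;> cases k2 : t.T.testBit b <;>
        cases k3 : g.ty (at' m a) <;> cases k4 : g.ty (at' m b) <;> simp_all
    · have h3 := h2 a ha
      have h4 := h2 b hb
      cases k1 : t.T.testBit a <;> cases k2 : t.T.testBit b <;>
        cases k3 : g.ty (at' m a) <;> cases k4 : g.ty (at' m b) <;> simp_all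
  · intro a ha
    exact h.nr _ (hat a ha)

theorem get_mem {α : Type} (l : List α) (k : ℕ) (a : α) (h : get l k = some a) : a ∈ l := by
  induction l generalizing k with
  | nil => simp [get] at h
  | cons b l ih =>
    cases k with
    | zero =>
      simp only [get, Option.some.injEq] at h
      simp [h]
    | succ k =>
      simp only [get] at h
      simp [ih k h]

include hK in
/-- a closed partial graph cannot be embedded -/
theorem closed_sound (hconn : ∀ X : Finset V, bd K X = 0 → X = ∅ ∨ X = univ)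
    (hcard : 20 < Fintype.card V) (h : Emb K x r g φ) (h0 : 0 < g.n) (hn : g.n ≤ 20)
    (hd : ∀ a < g.n, 3 ≤ g.dg a) : False := by
  set X : Finset V := (Finset.range g.n).image φ with hX
  have h1 : bd K X = 0 := by
    unfold bd
    rw [Finset.sum_eq_zero]
    intro v hv
    rw [card_eq_zero, eq_empty_iff_forall_notMem]
    intro y hy
    rw [mem_nb] at hy
    have hyX : y ∉ X := by
      intro hyX
      have := hy.1
      simp only [mem_sdiff] at this
      exact this.2 hyX
    rw [hX, mem_image] at hv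
    obtain ⟨a, ha, hav⟩ := hv
    rw [mem_range] at ha
    have := hd a ha
    have h2 := h.deg_lt hK ha (y := y) (by rw [hav]; exact hy.2) (fun w hw _ hwy => by
      apply hyX
      rw [hX, mem_image]
      exact ⟨w, mem_range.2 hw, hwy⟩)
    omega
  rcases hconn X h1 with h2 | h2
  · have : φ 0 ∈ X := by
      rw [hX, mem_image]
      exact ⟨0, mem_range.2 h0, rfl⟩
    rw [h2] at this
    simp at this
  · have h3 : X.card ≤ g.n := by
      rw [hX]
      exact card_image_le.trans (by simp)
    rw [h2, card_univ] at h3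
    omega

include hK hC in
/-- soundness of the checker -/
theorem cert_sound (hconn : ∀ X : Finset V, bd K X = 0 → X = ∅ ∨ X = univ)
    (hcard : 20 < Fintype.card V) {R : ℕ} (hno : ∀ f : Fold V, f.Loc K → ¬ Near K R x f.ctr)
    (l : List Node) (hl : certOk l = true) :
    ∀ t ∈ l, ∀ (r : ℕ) (φ : ℕ → V), r + 3 * l.length ≤ R → ¬ Emb K x r t.st φ := by
  induction l with
  | nil => simp
  | cons nd rest ih =>
    unfold certOk nodeOk at hl
    simp only [Bool.and_eq_true, Nat.blt_eq] at hl
    obtain ⟨⟨hn, hp, hlv⟩, hrest⟩ := hl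
    have ih' := ih hrest
    intro t ht r φ hr
    simp only [List.length_cons] at hr
    rcases List.mem_cons.1 ht with ht | ht
    · rw [ht]
      intro hE
      obtain ⟨g', hg', φ', h1⟩ := op_sound hK hC hno hE (by omega) hn nd.op hp
      have key : ∀ (ss : List St) (ls : List (Option (ℕ × List ℕ))),
          leavesOk rest ss ls = true → ∀ s ∈ ss, ∃ lf, leafOk rest s lf = true := by
        intro ss
        induction ss with
        | nil => simp
        | cons s ss ih2 =>
          intro ls hls s' hs'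
          cases ls with
          | nil => simp [leavesOk] at hls
          | cons l0 ls =>
            simp only [leavesOk, Bool.and_eq_true] at hls
            rcases List.mem_cons.1 hs' with h2 | h2
            · rw [h2]; exact ⟨l0, hls.1⟩
            · exact ih2 ls hls.2 s' h2
      obtain ⟨lf, hlf⟩ := key _ _ hlv g' hg'
      cases lf with
      | none =>
        unfold leafOk at hlf
        simp only [Bool.and_eq_true, Nat.ble_eq, Nat.blt_eq, al_iff] at hlf
        exact closed_sound hK hconn hcard h1 hlf.2.1 hlf.1 hlf.2.2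
      | some jm =>
        obtain ⟨j, m⟩ := jm
        unfold leafOk at hlf
        cases hj : get rest j with
        | none => simp [hj] at hlf
        | some t' =>
          simp only [hj] at hlf
          exact ih' t' (get_mem rest j t' hj) (r + 3) _ (by omega) (h1.embOk t' m hlf)
    · exact ih' t ht r φ (by omega)

end Pool.Agent.Levi3.Loc
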